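import Pool.Agent.Helper79.GC.Base

/-!
# GC-05: slots and tensor products of matrices

`slot j M` acts by `M` in the slot `j`, `kron F = ⊗_j F j`. `slot j M = kron (Function.update 1 j M)`.
`kron_mul`: `∑_γ ∏_j F j (α j) (γ j) G j (γ j) (β j) = ∏_j ∑_c ...` (`Finset.prod_univ_sum` /
`Fintype.piFinset`), commutative ring. `dM_kron`: product rule for `dd` on finite products
(`Finset` induction or `Finset.prod` derivation), `Function.update`.
-/

open Polynomial

namespace Pool.Agent.Helper79.GC

open Pool.Agent.Helper37.GP

variable {δ : Type} [Fintype δ] [DecidableEq δ] {κ : Type} [Fintype κ] [DecidableEq κ]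

section Ring

variable {S : Type} [CommRing S]

theorem slot_eq_kron (j : δ) (M : Matrix κ κ S) :
    slot j M = kron (Function.update (fun _ => (1 : Matrix κ κ S)) j M) := by
  ext α β
  rw [kron, slot, Matrix.of_apply, Matrix.of_apply,
    ← Finset.mul_prod_erase Finset.univ _ (Finset.mem_univ j), Function.update_self]
  have h1 : ∏ i ∈ Finset.univ.erase j,
      Function.update (fun _ => (1 : Matrix κ κ S)) j M i (α i) (β i) =
      ∏ i ∈ Finset.univ.erase j, if α i = β i then (1 : S) else 0 := by
    refine Finset.prod_congr rfl fun i hi => ?_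
    rw [Function.update_of_ne (Finset.ne_of_mem_erase hi), Matrix.one_apply]
  rw [h1, Finset.prod_ite_zero, Finset.prod_const_one]
  by_cases h : ∀ i, i ≠ j → α i = β i
  · rw [if_pos h, if_pos fun i hi => h i (Finset.ne_of_mem_erase hi), mul_one]
  · rw [if_neg h, if_neg, mul_zero]
    intro h2
    exact h fun i hi => h2 i (Finset.mem_erase.2 ⟨hi, Finset.mem_univ i⟩)

theorem kron_mul (F G : δ → Matrix κ κ S) : kron F * kron G = kron (fun j => F j * G j) := by
  ext α β
  rw [Matrix.mul_apply]
  simp only [kron, Matrix.of_apply, Matrix.mul_apply]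
  rw [Finset.prod_univ_sum, Fintype.piFinset_univ]
  refine Finset.sum_congr rfl fun γ _ => ?_
  rw [Finset.prod_mul_distrib]

theorem kron_one : kron (fun _ : δ => (1 : Matrix κ κ S)) = 1 := by
  ext α β
  simp only [kron, Matrix.of_apply, Matrix.one_apply]
  rw [Finset.prod_ite_zero, Finset.prod_const_one]
  by_cases h : α = β
  · rw [if_pos h, if_pos fun i _ => congrFun h i]
  · rw [if_neg h, if_neg]
    intro h2
    exact h (funext fun i => h2 i (Finset.mem_univ i))

theorem slot_mul_kron (j : δ) (M : Matrix κ κ S) (F : δ → Matrix κ κ S) :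
    slot j M * kron F = kron (Function.update F j (M * F j)) := by
  rw [slot_eq_kron, kron_mul]
  congr 1
  funext i
  by_cases h : i = j
  · subst h
    rw [Function.update_self, Function.update_self]
  · rw [Function.update_of_ne h, Function.update_of_ne h, one_mul]

theorem kron_mul_slot (j : δ) (M : Matrix κ κ S) (F : δ → Matrix κ κ S) :
    kron F * slot j M = kron (Function.update F j (F j * M)) := by
  rw [slot_eq_kron, kron_mul]
  congr 1
  funext i
  by_cases h : i = j
  · subst h
    rw [Function.update_self, Function.update_self]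
  · rw [Function.update_of_ne h, Function.update_of_ne h, mul_one]

theorem slot_mul (j : δ) (M N : Matrix κ κ S) : slot j M * slot j N = slot j (M * N) := by
  rw [slot_eq_kron j N, slot_mul_kron, slot_eq_kron, Function.update_self,
    Function.update_idem]

theorem slot_one (j : δ) : slot j (1 : Matrix κ κ S) = 1 := by
  rw [slot_eq_kron]
  have h : Function.update (fun _ : δ => (1 : Matrix κ κ S)) j 1 = fun _ => 1 :=
    Function.update_eq_self j _
  rw [h, kron_one]

theorem slot_zero (j : δ) : slot j (0 : Matrix κ κ S) = 0 := by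
  ext α β
  simp [slot]

theorem slot_add (j : δ) (M N : Matrix κ κ S) : slot j (M + N) = slot j M + slot j N := by
  ext α β
  simp only [slot, Matrix.of_apply, Matrix.add_apply]
  split_ifs
  · rfl
  · rw [add_zero]

theorem slot_sub (j : δ) (M N : Matrix κ κ S) : slot j (M - N) = slot j M - slot j N := by
  ext α β
  simp only [slot, Matrix.of_apply, Matrix.sub_apply]
  split_ifs
  · rfl
  · rw [sub_zero]

theorem slot_smul (j : δ) (c : S) (M : Matrix κ κ S) : slot j (c • M) = c • slot j M := by
  ext α β
  simp only [slot, Matrix.of_apply, Matrix.smul_apply]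
  split_ifs
  · rfl
  · rw [smul_zero]

theorem slot_pow (j : δ) (M : Matrix κ κ S) (n : ℕ) : slot j M ^ n = slot j (M ^ n) := by
  induction n with
  | zero => rw [pow_zero, pow_zero, slot_one]
  | succ n ih => rw [pow_succ, pow_succ, ih, slot_mul]

theorem slot_comm {i j : δ} (h : i ≠ j) (M N : Matrix κ κ S) :
    slot i M * slot j N = slot j N * slot i M := by
  rw [slot_eq_kron j N, slot_mul_kron, kron_mul_slot, Function.update_of_ne h, mul_one, one_mul]

theorem slot_map {S' : Type} [CommRing S'] (f : S → S') (hf : f 0 = 0) (j : δ)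
    (M : Matrix κ κ S) : (slot j M).map f = slot j (M.map f) := by
  ext α β
  simp only [slot, Matrix.of_apply, Matrix.map_apply]
  split_ifs
  · rfl
  · exact hf

/-- A sum of commuting nilpotent slot operators is nilpotent. -/
theorem isNilpotent_sum_slot {M : Matrix κ κ S} (h : IsNilpotent M) :
    IsNilpotent (∑ j : δ, slot j M) := by
  refine Commute.isNilpotent_sum (fun j _ => ?_) fun i j _ _ => ?_
  · obtain ⟨n, hn⟩ := h
    exact ⟨n, by rw [slot_pow, hn, slot_zero]⟩
  · by_cases hij : i = j
    · subst hij
      exact Commute.refl _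
    · exact slot_comm hij M M

/-- The column of `slot j M` with constant index `i₀` vanishes if that of `M` does. -/
theorem slot_col {M : Matrix κ κ S} {i₀ : κ} (h : ∀ a, M a i₀ = 0) (j : δ) (α : δ → κ) :
    slot j M α (fun _ => i₀) = 0 := by
  simp only [slot, Matrix.of_apply]
  rw [h, ite_self]

end Ring

private theorem slot_dd_prod (s : Finset δ) (f : δ → LaurentSeries ℚ) :
    dd (∏ i ∈ s, f i) = ∑ i ∈ s, dd (f i) * ∏ k ∈ s.erase i, f k := by
  induction s using Finset.induction_on with
  | empty => rw [Finset.prod_empty, Finset.sum_empty, dd_one]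
  | insert a s ha ih =>
    rw [Finset.prod_insert ha, Finset.sum_insert ha, dd_mul, ih, Finset.erase_insert ha,
      Finset.mul_sum]
    have h1 : ∑ i ∈ s, f a * (dd (f i) * ∏ k ∈ s.erase i, f k) =
        ∑ i ∈ s, dd (f i) * ∏ k ∈ (insert a s).erase i, f k := by
      refine Finset.sum_congr rfl fun i hi => ?_
      have hia : a ≠ i := by
        rintro rfl
        exact ha hi
      rw [Finset.erase_insert_of_ne hia, Finset.prod_insert]
      · ring
      · intro h
        exact ha (Finset.mem_of_mem_erase h)
    rw [h1]
    ring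

theorem dM_kron (F : δ → Matrix κ κ (LaurentSeries ℚ)) :
    dM (kron F) = ∑ j, kron (Function.update F j (dM (F j))) := by
  ext1 α β
  rw [dM_apply, Matrix.sum_apply]
  simp only [kron, Matrix.of_apply]
  rw [slot_dd_prod]
  refine Finset.sum_congr rfl fun j _ => ?_
  rw [← Finset.mul_prod_erase Finset.univ
    (fun i => Function.update F j (dM (F j)) i (α i) (β i)) (Finset.mem_univ j),
    Function.update_self, dM_apply]
  congr 1
  refine Finset.prod_congr rfl fun i hi => ?_
  rw [Function.update_of_ne (Finset.ne_of_mem_erase hi)]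

theorem pM_kron (F : δ → Matrix κ κ (PowerSeries ℚ)) : pM (kron F) = kron fun j => pM (F j) := by
  ext1 α β
  rw [pM_apply]
  simp only [kron, Matrix.of_apply, pM_apply]
  unfold ps
  rw [map_prod]

/-- The iterates of a system acting in one slot. -/
theorem beta_slot (T : ℚ[X]) (j : δ) (M : Matrix κ κ ℚ[X]) (n : ℕ) :
    beta T (slot j M) n = slot j (beta T M n) := by
  induction n with
  | zero => rw [beta, beta, slot_one]
  | succ n ih =>
    rw [beta, beta, ih, slot_map _ (map_zero _), slot_mul, ← slot_smul, ← slot_smul, ← slot_sub,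
      ← slot_add, ← slot_smul]

theorem gal_slot {T : ℚ[X]} {M : Matrix κ κ ℚ[X]} {H : ℕ} (h : Galochkin T M H) (j : δ) :
    Galochkin T (slot j M) H := by
  intro n
  obtain ⟨q, hq, hqH, hint⟩ := h n
  refine ⟨q, hq, hqH, fun i hi α β => ?_⟩
  rw [beta_slot]
  simp only [slot, Matrix.of_apply]
  split_ifs
  · exact hint i hi _ _
  · intro m
    exact ⟨0, by simp⟩

theorem coM_slot (j : δ) (n : ℕ) (M : Matrix κ κ ℚ[X]) : coM n (slot j M) = slot j (coM n M) := by
  unfold coM
  rw [slot_map _ (Polynomial.coeff_zero n)]

end Pool.Agent.Helper79.GC
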