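import Pool.Agent.Helper79.GC.Defs2
import Pool.Agent.Helper79.GC.Slot
import Pool.Agent.Helper64.Per.Defs

/-!
# GC: definitions, third part (integer eigenvalues, words)
-/

open Polynomial

namespace Pool.Agent.Helper79.GC

open Pool.Agent.Helper37.GP

/-- All eigenvalues are integers between `lo` and `hi` (in polynomial form). -/
def IntEig {ι : Type} [Fintype ι] [DecidableEq ι] (lo hi : ℤ) (M : Matrix ι ι ℚ) : Prop :=
  ∃ m : ℕ, aeval M ((∏ k ∈ Finset.Icc lo hi, ((X : ℚ[X]) - C (k : ℚ))) ^ m) = 0

section Words

variable {ι : Type} [Fintype ι] [DecidableEq ι]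

/-- The system for the vector `(1, entries of P)`, where `P` is a matrix solution of `T P' = A P`. -/
def lett {S : Type} [Zero S] (A : Matrix ι ι S) : Matrix (Option (ι × ι)) (Option (ι × ι)) S :=
  Matrix.of fun p q => match p, q with
    | some (i, k), some (j, l) => if k = l then A i j else 0
    | _, _ => 0

/-- The matrix of the system for the words of length `δ`. -/
def wordM {S : Type} [AddCommMonoid S] (δ : ℕ) (A : Matrix ι ι S) :
    Matrix (Fin δ → Option (ι × ι)) (Fin δ → Option (ι × ι)) S :=
  ∑ j, slot j (lett A)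

/-- The value of a letter. -/
def ltr (M : Matrix ι ι ℂ) : Option (ι × ι) → ℂ
  | none => 1
  | some p => M p.1 p.2

/-- The vector of the values of the words. -/
noncomputable def wz (δ : ℕ) (P : ℂ → Matrix ι ι ℂ) (t : ℝ) (α : Fin δ → Option (ι × ι)) : ℂ :=
  ∏ j, ltr (P (t : ℂ)) (α j)

/-- The parity of the number of letters different from `1`. -/
def par (δ : ℕ) : Matrix (Fin δ → Option (ι × ι)) (Fin δ → Option (ι × ι)) ℚ :=
  Matrix.diagonal fun α =>
    if (Finset.univ.filter fun j => α j ≠ none).card % 2 = 1 then (1 : ℚ) else 0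

end Words

end Pool.Agent.Helper79.GC
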