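import Pool.Agent.Helper79.GC.Defs3

/-!
# GC-60: a relation of degree `≤ δ` at an integer gives a bad integer for the words

Let `r` be as in `HasRelation` (`κ = ⊥`, i.e. coefficients are rational numbers: `⊥ ≃ ℚ`, `IntermediateField.botEquiv`), total degree
`≤ δ`. `P(n) ∈ ZClosure (P n)` (as `det P(n)` is a unit), so `r(P(n)) = 0`. Every monomial `m` of degree `≤ δ` in the variables `ι × ι` is
`∏_j letter(α_m j)` for some word `α_m : Fin δ → Option (ι × ι)` (choose one, `m ↦ α_m` is injective). `l(α_m) = c_m` (coefficient),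
`l = 0` elsewhere; `l · wz(n) = r(P(n)) = 0`. If `n` is not bad there is `v ∈ ℚ[X]^words` with `v(n) = l`, `v(t) · wz(t) = 0` for large real `t`. Put
`q = ∑_α v_α ∏_j letter(α j)`, a polynomial in the entries with coefficients in `ℚ[X] ⊆ Qbar[X]`. `t ↦ q(t, P(t))` is analytic on `U`
(preconnected, open), vanishes for large real `t`, so it vanishes on `U` (identity theorem: `AnalyticOnNhd.eqOn_zero_of_preconnected_of_frequently_eq_zero`
at a large real point). For `M ∈ BFibre U P n`: `0 = q(n, M) = ∑_α l_α ∏_j = r(M)`: contradiction with `r` not vanishing on `BFibre`.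
-/

open Polynomial Filter Topology

namespace Pool.Agent.Helper79.GC

open Pool.Agent.Helper37.GP Pool.Agent.Helper64.Per

variable {ι : Type} [Fintype ι] [DecidableEq ι]

theorem prod_ltr_list (M : Matrix ι ι ℂ) (L : List (ι × ι)) :
    ∀ δ : ℕ, L.length ≤ δ → ∏ j : Fin δ, ltr M (L[(j : ℕ)]?) =
      (L.map fun p => M p.1 p.2).prod := by
  induction L with
  | nil =>
    intro δ _
    simp [ltr]
  | cons a L ih =>
    intro δ hδ
    cases δ with
    | zero => simp at hδ
    | succ δ =>
      rw [Fin.prod_univ_succ]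
      simp only [List.map_cons, List.prod_cons]
      congr 1
      rw [← ih δ (by simpa using hδ)]
      refine Finset.prod_congr rfl fun j _ => ?_
      simp

/-- The word of a monomial. -/
noncomputable def wd (δ : ℕ) (m : (ι × ι) →₀ ℕ) : Fin δ → Option (ι × ι) :=
  fun j => (Finsupp.toMultiset m).toList[(j : ℕ)]?

theorem prod_wd (M : Matrix ι ι ℂ) {δ : ℕ} {m : (ι × ι) →₀ ℕ} (h : (m.sum fun _ e => e) ≤ δ) :
    ∏ j, ltr M (wd δ m j) = m.prod fun p k => M p.1 p.2 ^ k := by
  unfold wd
  rw [prod_ltr_list M _ δ (by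
    rw [Multiset.length_toList, Finsupp.card_toMultiset]
    exact h)]
  rw [← Multiset.prod_coe, ← Multiset.map_coe, Multiset.coe_toList]
  rw [Finsupp.toMultiset_apply, Finsupp.sum, ← Multiset.coe_mapAddMonoidHom, map_sum,
    Multiset.prod_sum, Finsupp.prod]
  refine Finset.prod_congr rfl fun p _ => ?_
  simp [Multiset.map_nsmul, Multiset.prod_nsmul]

/-- The polynomial of a letter. -/
noncomputable def lX : Option (ι × ι) → MvPolynomial (ι × ι) (Polynomial Qbar)
  | none => 1
  | some p => MvPolynomial.X p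

theorem evM_lX (t : ℂ) (M : Matrix ι ι ℂ) (o : Option (ι × ι)) :
    Pool.Agent.Helper64.Per.evM (lX o) t M = ltr M o := by
  cases o with
  | none => simp [Pool.Agent.Helper64.Per.evM, lX, ltr]
  | some p => simp [Pool.Agent.Helper64.Per.evM, lX, ltr]

theorem evM_words (δ : ℕ) (v : (Fin δ → Option (ι × ι)) → ℚ[X]) (t : ℂ) (M : Matrix ι ι ℂ) :
    Pool.Agent.Helper64.Per.evM
      (∑ α, MvPolynomial.C ((v α).map (algebraMap ℚ Qbar)) * ∏ j, lX (α j)) t M =
    ∑ α, aeval t (v α) * ∏ j, ltr M (α j) := by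
  unfold Pool.Agent.Helper64.Per.evM
  rw [MvPolynomial.eval₂_sum]
  refine Finset.sum_congr rfl fun α _ => ?_
  rw [MvPolynomial.eval₂_mul, MvPolynomial.eval₂_C, MvPolynomial.eval₂_prod]
  congr 1
  · show aeval t ((v α).map (algebraMap ℚ Qbar)) = _
    rw [Polynomial.aeval_map_algebraMap]
  · exact Finset.prod_congr rfl fun j _ => evM_lX t M (α j)

theorem rel_bad {U : Set ℂ} (hU : IsOpen U) (hU' : IsPreconnected U) {t₀ : ℝ}
    (ht : ∀ t : ℝ, t₀ < t → (t : ℂ) ∈ U) {P : ℂ → Matrix ι ι ℂ}
    (hP : ∀ i k, AnalyticOnNhd ℂ (fun t => P t i k) U) {δ n : ℕ} (hn : IsUnit (P (n : ℂ)).det)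
    (h : HasRelation U P (n : ℂ) ⊥ δ) : Bad (wz δ P) n := by
  classical
  obtain ⟨r, hdeg, hZ, hB⟩ := h
  have hsurj : Function.Surjective (algebraMap ℚ (⊥ : IntermediateField ℚ Qbar)) := by
    intro x
    obtain ⟨q, hq⟩ := IntermediateField.mem_bot.mp x.2
    exact ⟨q, Subtype.ext hq⟩
  obtain ⟨r', rfl⟩ := MvPolynomial.map_surjective (σ := ι × ι) _ hsurj r
  have hev : ∀ M : Matrix ι ι ℂ, evK ⊥ (MvPolynomial.map (algebraMap ℚ
      (⊥ : IntermediateField ℚ Qbar)) r') M =
      ∑ m ∈ r'.support, ((MvPolynomial.coeff m r' : ℚ) : ℂ) * m.prod fun p k => M p.1 p.2 ^ k := by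
    intro M
    unfold evK
    rw [MvPolynomial.aeval_map_algebraMap, MvPolynomial.aeval_def, MvPolynomial.eval₂_eq]
    rfl
  have hdeg' : ∀ m ∈ r'.support, (m.sum fun _ e => e) ≤ δ := by
    intro m hm
    refine le_trans (MvPolynomial.le_totalDegree ?_) hdeg
    rw [MvPolynomial.support_map_of_injective _ (algebraMap ℚ _).injective]
    exact hm
  -- the rational vector
  set l : (Fin δ → Option (ι × ι)) → ℚ := fun α =>
    ∑ m ∈ r'.support, if wd δ m = α then MvPolynomial.coeff m r' else 0 with hl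
  have hlM : ∀ M : Matrix ι ι ℂ, ∑ α, (l α : ℂ) * ∏ j, ltr M (α j) =
      evK ⊥ (MvPolynomial.map (algebraMap ℚ (⊥ : IntermediateField ℚ Qbar)) r') M := by
    intro M
    rw [hev]
    have h1 : ∀ α, (l α : ℂ) * ∏ j, ltr M (α j) = ∑ m ∈ r'.support,
        if wd δ m = α then ((MvPolynomial.coeff m r' : ℚ) : ℂ) * ∏ j, ltr M (α j) else 0 := by
      intro α
      rw [hl]
      push_cast
      rw [Finset.sum_mul]
      refine Finset.sum_congr rfl fun m _ => ?_
      split_ifs <;> simp
    rw [Finset.sum_congr rfl fun α _ => h1 α, Finset.sum_comm]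
    refine Finset.sum_congr rfl fun m hm => ?_
    rw [Finset.sum_ite_eq Finset.univ (wd δ m)]
    simp only [Finset.mem_univ, if_true]
    rw [prod_wd M (hdeg' m hm)]
  refine ⟨l, ?_, ?_⟩
  · have h1 := hZ (P (n : ℂ)) ⟨hn, fun q hq => hq⟩
    rw [← hlM] at h1
    rw [← h1]
    refine Finset.sum_congr rfl fun α _ => ?_
    simp [wz]
  · rintro ⟨v, hv1, hv2⟩
    apply hB
    intro M hM
    rw [← hlM]
    have hq := hM.2 (∑ α, MvPolynomial.C ((v α).map (algebraMap ℚ Qbar)) * ∏ j, lX (α j)) ?_
    · rw [evM_words] at hq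
      rw [← hq]
      refine Finset.sum_congr rfl fun α _ => ?_
      congr 1
      rw [← hv1 α]
      have h2 : aeval (n : ℂ) (v α) = algebraMap ℚ ℂ ((v α).eval (n : ℚ)) := by
        rw [← Polynomial.aeval_algebraMap_apply_eq_algebraMap_eval]
        simp
      rw [h2]
      rfl
    · -- the identity theorem
      set f : ℂ → ℂ := fun t => ∑ α, aeval t (v α) * ∏ j, ltr (P t) (α j) with hf
      have hfa : AnalyticOnNhd ℂ f U := by
        intro t htU
        have h1 : ∀ α, AnalyticAt ℂ (fun t => aeval t (v α)) t := fun α =>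
          AnalyticAt.aeval_polynomial analyticAt_id (v α)
        have h2 : ∀ o : Option (ι × ι), AnalyticAt ℂ (fun t => ltr (P t) o) t := by
          intro o
          cases o with
          | none => exact analyticAt_const
          | some p => exact hP p.1 p.2 t htU
        have h3 : ∀ α : Fin δ → Option (ι × ι),
            AnalyticAt ℂ (fun t => ∏ j, ltr (P t) (α j)) t := fun α =>
          Finset.analyticAt_fun_prod _ fun j _ => h2 (α j)
        exact Finset.analyticAt_fun_sum _ fun α _ => (h1 α).mul (h3 α)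
      obtain ⟨t₁, ht₁⟩ := Filter.eventually_atTop.mp hv2
      set t₂ : ℝ := max t₀ t₁ + 1 with ht₂
      have h20 : t₀ < t₂ := lt_of_le_of_lt (le_max_left t₀ t₁) (lt_add_one _)
      have h21 : t₁ < t₂ := lt_of_le_of_lt (le_max_right t₀ t₁) (lt_add_one _)
      have hfz : ∀ t : ℝ, t₁ ≤ t → f (t : ℂ) = 0 := by
        intro t h1
        rw [hf]
        exact ht₁ t h1
      have hfreq : ∃ᶠ z in 𝓝[≠] (t₂ : ℂ), f z = 0 := by
        have hten : Tendsto (fun t : ℝ => (t : ℂ)) (𝓝[≠] t₂) (𝓝[≠] (t₂ : ℂ)) := by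
          refine tendsto_nhdsWithin_of_tendsto_nhds_of_eventually_within _
            ((Complex.continuous_ofReal.tendsto t₂).mono_left nhdsWithin_le_nhds) ?_
          filter_upwards [self_mem_nhdsWithin] with t h1
          intro h2
          exact h1 (Complex.ofReal_injective h2)
        refine hten.frequently (Eventually.frequently ?_)
        filter_upwards [mem_nhdsWithin_of_mem_nhds (lt_mem_nhds h21)] with t h1
        exact hfz t h1.le
      have hz := hfa.eqOn_zero_of_preconnected_of_frequently_eq_zero hU' (ht t₂ h20) hfreq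
      intro t htU
      rw [evM_words]
      exact hz htU

end Pool.Agent.Helper79.GC
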