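import Pool.Agent.Helper79.GC.Defs2

/-!
# GC-92: the substitution `t ↦ -t` in a system

`Q(-t)` satisfies the system with `T(-t)`, `-A(-t)`. By induction `beta (T(-t)) (-A(-t)) j = (-1)^j beta T A j (-t)`; the coefficients only change sign.
-/

open Polynomial

namespace Pool.Agent.Helper79.GC

open Pool.Agent.Helper37.GP

variable {ι : Type} [Fintype ι] [DecidableEq ι]

/-- The matrix `-A(-t)`. -/
noncomputable def negA (A : Matrix ι ι ℚ[X]) : Matrix ι ι ℚ[X] :=
  A.map fun p => -(p.comp (-X))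

theorem beta_neg (T : ℚ[X]) (A : Matrix ι ι ℚ[X]) (j : ℕ) (a b : ι) :
    beta (T.comp (-X)) (negA A) j a b = C ((-1 : ℚ) ^ j) * (beta T A j a b).comp (-X) := by
  induction j generalizing a b with
  | zero =>
    rw [beta, beta, pow_zero, map_one, one_mul]
    by_cases h : a = b
    · rw [h, Matrix.one_apply_eq]
      simp
    · rw [Matrix.one_apply_ne h]
      simp
  | succ j ih =>
    have hd : ∀ p : ℚ[X], derivative (p.comp (-X)) = -(derivative p).comp (-X) := by
      intro p
      rw [derivative_comp]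
      simp
    have hN : ∀ x b, negA A x b = -(A x b).comp (-X) := fun _ _ => rfl
    rw [beta, beta]
    simp only [Matrix.smul_apply, Matrix.add_apply, Matrix.sub_apply, Matrix.map_apply,
      Matrix.mul_apply, smul_eq_mul, ih, hN, hd, derivative_mul, derivative_C, zero_mul, zero_add,
      mul_comp, add_comp, sub_comp, C_comp, natCast_comp, Polynomial.sum_comp]
    have h1 : ∑ x, C ((-1 : ℚ) ^ j) * (beta T A j a x).comp (-X) * -(A x b).comp (-X) =
        -(C ((-1 : ℚ) ^ j) * ∑ x, (beta T A j a x).comp (-X) * (A x b).comp (-X)) := by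
      rw [Finset.mul_sum, ← Finset.sum_neg_distrib]
      apply Finset.sum_congr rfl
      intro x _
      ring
    rw [h1, pow_succ, map_mul, map_neg, map_one]
    ring

theorem intBy_neg {q j : ℕ} {p : ℚ[X]} (h : IntBy q p) :
    IntBy q (C ((-1 : ℚ) ^ j) * p.comp (-X)) := by
  intro n
  obtain ⟨z, hz⟩ := h n
  refine ⟨(-1) ^ j * ((-1) ^ n * z), ?_⟩
  have hX : (-X : ℚ[X]) = C (-1 : ℚ) * X := by simp
  rw [coeff_C_mul, hX, comp_C_mul_X_coeff]
  push_cast
  rw [← hz]
  ring

theorem gal_neg {T : ℤ[X]} {A : Matrix ι ι ℚ[X]} {H : ℕ}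
    (h : Galochkin (T.map (Int.castRingHom ℚ)) A H) :
    Galochkin ((T.comp (-X)).map (Int.castRingHom ℚ)) (negA A) H := by
  have hT : (T.comp (-X)).map (Int.castRingHom ℚ) = (T.map (Int.castRingHom ℚ)).comp (-X) := by
    rw [Polynomial.map_comp]
    simp
  intro j
  obtain ⟨q, h1, h2, h3⟩ := h j
  refine ⟨q, h1, h2, fun i hi a b => ?_⟩
  rw [hT, beta_neg]
  exact intBy_neg (h3 i hi a b)

end Pool.Agent.Helper79.GC
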