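import Pool.Agent.Helper64.Per.Defs

/-!
# GC-91: relations and the substitution `t ↦ -t`

The same `r` works. `ZClosure` is the same point set (`P (-s)`). If `M ∈ BFibre U P (-s)` then `M ∈ BFibre {t | -t ∈ U} (fun t => P (-t)) s`: for `q` vanishing on the
graph of `t ↦ P(-t)`, the polynomial `q₋` with coefficients composed with `-X` (`MvPolynomial.map (Polynomial.compRingHom (-X))`) vanishes on the graph of `P` over `U`, so
`0 = evM q₋ (-s) M = evM q s M`.
-/

open Polynomial

namespace Pool.Agent.Helper79.GC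

open Pool.Agent.Helper64.Per

variable {ι : Type} [Fintype ι] [DecidableEq ι]

private theorem ev_comp_neg (t : ℂ) :
    (ev t).comp (Polynomial.compRingHom (-X : Polynomial Qbar)) = ev (-t) := by
  refine Polynomial.ringHom_ext (fun a => ?_) ?_
  · simp [ev]
  · simp [ev]

omit [Fintype ι] [DecidableEq ι] in
private theorem evM_neg (q : MvPolynomial (ι × ι) (Polynomial Qbar)) (t : ℂ) (M : Matrix ι ι ℂ) :
    evM (MvPolynomial.map (Polynomial.compRingHom (-X : Polynomial Qbar)) q) t M =
      evM q (-t) M := by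
  unfold evM
  rw [MvPolynomial.eval₂_map, ev_comp_neg]

theorem hasRelation_neg {U : Set ℂ} {P : ℂ → Matrix ι ι ℂ} {s : ℂ}
    {κ : IntermediateField ℚ Qbar} {δ : ℕ} (h : HasRelation U P (-s) κ δ) :
    HasRelation {t | -t ∈ U} (fun t => P (-t)) s κ δ := by
  obtain ⟨r, hdeg, hz, hnot⟩ := h
  refine ⟨r, hdeg, hz, fun hall => hnot fun M hM => hall M ⟨hM.1, fun q hq => ?_⟩⟩
  have h1 := hM.2 (MvPolynomial.map (Polynomial.compRingHom (-X : Polynomial Qbar)) q)
    (fun t ht => by
      rw [evM_neg]
      have h2 := hq (-t) (by rw [Set.mem_ofPred_eq, neg_neg]; exact ht)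
      simp only [neg_neg] at h2
      exact h2)
  rw [evM_neg, neg_neg] at h1
  exact h1

end Pool.Agent.Helper79.GC
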