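import Mathlib

/-!
# GC-93: from one sided to two sided statements

`θ = min θ₁ θ₂`, `B = B₁ + B₂`, `C` large (`C₁ + C₂` plus something if they could be negative: take `|C₁| + |C₂|`). For `n ≥ 1`: `n^θ ≤ n^θ₁`, and
`i ↦ i.toNat` / `i ↦ (-i).toNat` maps the set injectively on its nonnegative / negative part into the one sided sets (which are finite), so the `ncard` is at most the sum.
`X^(1-θ₁) ≤ X^(1-θ)` for `X ≥ 1`.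
-/

namespace Pool.Agent.Helper79.GC

private theorem ncard_two {T : Set ℤ} {S₁ S₂ : Set ℕ} (f₁ : S₁.Finite) (f₂ : S₂.Finite)
    (h₁ : ∀ i ∈ T, 0 ≤ i → i.toNat ∈ S₁) (h₂ : ∀ i ∈ T, i < 0 → (-i).toNat ∈ S₂) :
    T.ncard ≤ S₁.ncard + S₂.ncard := by
  have hsub : T ⊆ ((fun k : ℕ => (k : ℤ)) '' S₁) ∪ ((fun k : ℕ => -(k : ℤ)) '' S₂) := by
    intro i hi
    rcases le_or_gt 0 i with h | h
    · left
      exact ⟨i.toNat, h₁ i hi h, Int.toNat_of_nonneg h⟩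
    · right
      refine ⟨(-i).toNat, h₂ i hi h, ?_⟩
      have h3 : ((-i).toNat : ℤ) = -i := Int.toNat_of_nonneg (by omega)
      show -(((-i).toNat : ℕ) : ℤ) = i
      rw [h3, neg_neg]
  calc T.ncard ≤ (((fun k : ℕ => (k : ℤ)) '' S₁) ∪ ((fun k : ℕ => -(k : ℤ)) '' S₂)).ncard :=
        Set.ncard_le_ncard hsub ((f₁.image _).union (f₂.image _))
    _ ≤ ((fun k : ℕ => (k : ℤ)) '' S₁).ncard + ((fun k : ℕ => -(k : ℤ)) '' S₂).ncard :=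
        Set.ncard_union_le _ _
    _ ≤ S₁.ncard + S₂.ncard :=
        add_le_add (Set.ncard_image_le f₁) (Set.ncard_image_le f₂)

private theorem abs_toNat {i : ℤ} (h : 0 ≤ i) : ((i.toNat : ℕ) : ℝ) = |(i : ℝ)| := by
  have h1 : ((i.toNat : ℕ) : ℤ) = i := Int.toNat_of_nonneg h
  have h2 : (((i.toNat : ℕ) : ℤ) : ℝ) = (i : ℝ) := by rw [h1]
  rw [abs_of_nonneg (by exact_mod_cast h)]
  exact_mod_cast h2

private theorem abs_toNat_neg {i : ℤ} (h : i < 0) : (((-i).toNat : ℕ) : ℝ) = |(i : ℝ)| := by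
  rw [abs_toNat (by omega : 0 ≤ -i)]
  push_cast
  rw [abs_neg]

private theorem fin_aux (P : ℕ → Prop) (c : ℝ) (h : ∀ i, P i → (i : ℝ) ≤ c) :
    {i : ℕ | P i}.Finite := by
  refine (Set.finite_Iic ⌊c⌋₊).subset fun i hi => ?_
  exact Nat.le_floor (h i hi)

theorem two_sided {E₁ E₂ : Set ℕ} {E : Set ℤ} (h₁ : ∀ i ∈ E, 0 ≤ i → i.toNat ∈ E₁)
    (h₂ : ∀ i ∈ E, i < 0 → (-i).toNat ∈ E₂)
    (k₁ : ∃ (B : ℕ) (θ C : ℝ), 0 < θ ∧ θ < 1 ∧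
      (∀ n : ℕ, 1 ≤ n → Set.ncard {i : ℕ | n ≤ i ∧ (i : ℝ) ≤ n + (n : ℝ) ^ θ ∧ i ∈ E₁} ≤ B) ∧
      ∀ X : ℕ, 1 ≤ X → (Set.ncard {i : ℕ | i ≤ X ∧ i ∈ E₁} : ℝ) ≤ C * (X : ℝ) ^ (1 - θ))
    (k₂ : ∃ (B : ℕ) (θ C : ℝ), 0 < θ ∧ θ < 1 ∧
      (∀ n : ℕ, 1 ≤ n → Set.ncard {i : ℕ | n ≤ i ∧ (i : ℝ) ≤ n + (n : ℝ) ^ θ ∧ i ∈ E₂} ≤ B) ∧
      ∀ X : ℕ, 1 ≤ X → (Set.ncard {i : ℕ | i ≤ X ∧ i ∈ E₂} : ℝ) ≤ C * (X : ℝ) ^ (1 - θ)) :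
    ∃ (B : ℕ) (θ C : ℝ), 0 < θ ∧ θ < 1 ∧
      (∀ n : ℕ, 1 ≤ n → Set.ncard {i : ℤ | (n : ℝ) ≤ |(i : ℝ)| ∧
        |(i : ℝ)| ≤ n + (n : ℝ) ^ θ ∧ i ∈ E} ≤ B) ∧
      ∀ X : ℕ, 1 ≤ X → (Set.ncard {i : ℤ | |(i : ℝ)| ≤ X ∧ i ∈ E} : ℝ) ≤
        C * (X : ℝ) ^ (1 - θ) := by
  obtain ⟨B₁, θ₁, C₁, a₁, b₁, c₁, d₁⟩ := k₁
  obtain ⟨B₂, θ₂, C₂, a₂, b₂, c₂, d₂⟩ := k₂
  refine ⟨B₁ + B₂, min θ₁ θ₂, |C₁| + |C₂|, lt_min a₁ a₂, (min_le_left _ _).trans_lt b₁,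
    fun n hn => ?_, fun X hX => ?_⟩
  · have hn1 : (1 : ℝ) ≤ n := by exact_mod_cast hn
    have e₁ : (n : ℝ) ^ (min θ₁ θ₂) ≤ (n : ℝ) ^ θ₁ :=
      Real.rpow_le_rpow_of_exponent_le hn1 (min_le_left _ _)
    have e₂ : (n : ℝ) ^ (min θ₁ θ₂) ≤ (n : ℝ) ^ θ₂ :=
      Real.rpow_le_rpow_of_exponent_le hn1 (min_le_right _ _)
    refine (ncard_two (S₁ := {i : ℕ | n ≤ i ∧ (i : ℝ) ≤ n + (n : ℝ) ^ θ₁ ∧ i ∈ E₁})
      (S₂ := {i : ℕ | n ≤ i ∧ (i : ℝ) ≤ n + (n : ℝ) ^ θ₂ ∧ i ∈ E₂})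
      (fin_aux _ (n + (n : ℝ) ^ θ₁) fun i hi => hi.2.1)
      (fin_aux _ (n + (n : ℝ) ^ θ₂) fun i hi => hi.2.1) ?_ ?_).trans
      (add_le_add (c₁ n hn) (c₂ n hn))
    · rintro i ⟨g1, g2, g3⟩ hi
      rw [← abs_toNat hi] at g1 g2
      exact ⟨by exact_mod_cast g1, by linarith, h₁ i g3 hi⟩
    · rintro i ⟨g1, g2, g3⟩ hi
      rw [← abs_toNat_neg hi] at g1 g2
      exact ⟨by exact_mod_cast g1, by linarith, h₂ i g3 hi⟩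
  · have hX1 : (1 : ℝ) ≤ X := by exact_mod_cast hX
    have e₁ : (X : ℝ) ^ (1 - θ₁) ≤ (X : ℝ) ^ (1 - min θ₁ θ₂) :=
      Real.rpow_le_rpow_of_exponent_le hX1 (by linarith [min_le_left θ₁ θ₂])
    have e₂ : (X : ℝ) ^ (1 - θ₂) ≤ (X : ℝ) ^ (1 - min θ₁ θ₂) :=
      Real.rpow_le_rpow_of_exponent_le hX1 (by linarith [min_le_right θ₁ θ₂])
    have key : (Set.ncard {i : ℤ | |(i : ℝ)| ≤ X ∧ i ∈ E} : ℝ) ≤
        (Set.ncard {i : ℕ | i ≤ X ∧ i ∈ E₁} : ℝ) + (Set.ncard {i : ℕ | i ≤ X ∧ i ∈ E₂} : ℝ) := by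
      have := ncard_two (T := {i : ℤ | |(i : ℝ)| ≤ X ∧ i ∈ E})
        (S₁ := {i : ℕ | i ≤ X ∧ i ∈ E₁}) (S₂ := {i : ℕ | i ≤ X ∧ i ∈ E₂})
        (fin_aux _ X fun i hi => by exact_mod_cast hi.1)
        (fin_aux _ X fun i hi => by exact_mod_cast hi.1)
        (by
          rintro i ⟨g1, g3⟩ hi
          rw [← abs_toNat hi] at g1
          exact ⟨by exact_mod_cast g1, h₁ i g3 hi⟩)
        (by
          rintro i ⟨g1, g3⟩ hi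
          rw [← abs_toNat_neg hi] at g1
          exact ⟨by exact_mod_cast g1, h₂ i g3 hi⟩)
      exact_mod_cast this
    have p₁ : C₁ * (X : ℝ) ^ (1 - θ₁) ≤ |C₁| * (X : ℝ) ^ (1 - min θ₁ θ₂) :=
      (mul_le_mul_of_nonneg_right (le_abs_self C₁) (by positivity)).trans
        (mul_le_mul_of_nonneg_left e₁ (abs_nonneg _))
    have p₂ : C₂ * (X : ℝ) ^ (1 - θ₂) ≤ |C₂| * (X : ℝ) ^ (1 - min θ₁ θ₂) :=
      (mul_le_mul_of_nonneg_right (le_abs_self C₂) (by positivity)).trans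
        (mul_le_mul_of_nonneg_left e₂ (abs_nonneg _))
    rw [add_mul]
    linarith [d₁ X hX, d₂ X hX]

end Pool.Agent.Helper79.GC
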