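import Pool.Agent.Helper79.GC.MainA2
import Pool.Agent.Helper79.GC.NegRel
import Pool.Agent.Helper79.GC.GalNeg
import Pool.Agent.Helper79.GC.TwoSided

/-!
# GC-67: the general theorem, two sided
-/

open Polynomial Filter Topology

namespace Pool.Agent.Helper79.GC

open Pool.Agent.Helper37.GP Pool.Agent.Helper64.Per

variable {ι : Type} [Fintype ι] [DecidableEq ι]

theorem isOpen_negSet {U : Set ℂ} (hU : IsOpen U) : IsOpen {t : ℂ | -t ∈ U} :=
  hU.preimage continuous_neg

theorem isPreconnected_negSet {U : Set ℂ} (hU : IsPreconnected U) :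
    IsPreconnected {t : ℂ | -t ∈ U} := by
  have h : {t : ℂ | -t ∈ U} = (fun t => -t) '' U := by
    ext t
    constructor
    · intro ht
      exact ⟨-t, ht, neg_neg t⟩
    · rintro ⟨u, hu, rfl⟩
      show - -u ∈ U
      rwa [neg_neg]
  rw [h]
  exact hU.image _ continuous_neg.continuousOn

theorem aeval_comp_neg (p : ℤ[X]) (t : ℂ) : aeval t (p.comp (-X)) = aeval (-t) p := by
  rw [aeval_comp, map_neg, aeval_X]

theorem aeval_comp_neg' (p : ℚ[X]) (t : ℂ) : aeval t (p.comp (-X)) = aeval (-t) p := by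
  rw [aeval_comp, map_neg, aeval_X]

theorem coeff_comp_neg {R : Type} [CommRing R] (p : R[X]) (n : ℕ) :
    (p.comp (-X)).coeff n = (-1) ^ n * p.coeff n := by
  induction p using Polynomial.induction_on' with
  | add p q hp hq => rw [add_comp, coeff_add, hp, hq, coeff_add, mul_add]
  | monomial k a =>
    rw [monomial_comp, coeff_C_mul, neg_pow, coeff_monomial]
    have e : ((-1 : R[X]) ^ k) = C ((-1 : R) ^ k) := by simp
    rw [e, coeff_C_mul, coeff_X_pow]
    by_cases h : n = k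
    · subst h
      simp
      ring
    · rw [if_neg h, if_neg (fun h' => h h'.symm)]
      simp

theorem natDegree_comp_neg {R : Type} [CommRing R] [IsDomain R] (p : R[X]) :
    (p.comp (-X)).natDegree = p.natDegree := by
  rw [natDegree_comp, natDegree_neg, natDegree_X, mul_one]

theorem mainA3 [Nonempty ι] {T : ℤ[X]} {A : Matrix ι ι ℚ[X]}
    (hG : ∃ H : ℕ, Galochkin (T.map (Int.castRingHom ℚ)) A H)
    (hdeg : ∀ i j, (A i j).natDegree + 1 ≤ T.natDegree) {N : Matrix ι ι ℚ}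
    (hN : ∀ i j, (A i j).coeff (T.natDegree - 1) = -((T.leadingCoeff : ℚ) * N i j))
    (hexp : (∀ z : ℂ, (N.charpoly.map (algebraMap ℚ ℂ)).IsRoot z → ∃ k : ℤ, z = k) ∨
      ∀ z : ℂ, (N.charpoly.map (algebraMap ℚ ℂ)).IsRoot z → ∃ k : ℤ, z = k + 1 / 2)
    {U : Set ℂ} (hU : IsOpen U) (hU' : IsPreconnected U) {t₀ : ℝ}
    (ht : ∀ t : ℝ, t₀ < |t| → (t : ℂ) ∈ U) {Z : Matrix ι ι ℤ[X]} (hZ : Z.det ≠ 0)
    {P Q : ℂ → Matrix ι ι ℂ} (hQ : ∀ i k, AnalyticOnNhd ℂ (fun t => Q t i k) U)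
    (hode : ∀ t ∈ U, ∀ i k, aeval t T * deriv (fun t => Q t i k) t =
      ∑ j, aeval t (A i j) * Q t j k)
    (hPQ : ∀ t ∈ U, P t = Z.map (fun p => aeval t p) * Q t)
    (hdet : ∀ t ∈ U, IsUnit (P t).det) (δ : ℕ) :
    ∃ (B : ℕ) (θ C : ℝ), 0 < θ ∧ θ < 1 ∧
      (∀ n : ℕ, 1 ≤ n → Set.ncard {i : ℤ | (n : ℝ) ≤ |(i : ℝ)| ∧
        |(i : ℝ)| ≤ n + (n : ℝ) ^ θ ∧ ((i : ℂ) ∈ U ∧ HasRelation U P (i : ℂ) ⊥ δ)} ≤ B) ∧
      ∀ X : ℕ, 1 ≤ X → (Set.ncard {i : ℤ | |(i : ℝ)| ≤ X ∧
        ((i : ℂ) ∈ U ∧ HasRelation U P (i : ℂ) ⊥ δ)} : ℝ) ≤ C * (X : ℝ) ^ (1 - θ) := by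
  have k₁ := mainA2 hG hdeg hN hexp hU hU' (t₀ := t₀)
    (fun t htt => ht t (lt_of_lt_of_le htt (le_abs_self t))) hZ hQ hode hPQ hdet δ
  obtain ⟨H, hH⟩ := hG
  have k₂ := mainA2 (T := T.comp (-X)) (A := negA A) ⟨H, gal_neg hH⟩
    (by
      intro i j
      rw [negA, Matrix.map_apply, natDegree_neg, natDegree_comp_neg, natDegree_comp_neg]
      exact hdeg i j) (N := N)
    (by
      intro i j
      have h1 : 1 ≤ T.natDegree := by
        have := hdeg i j
        omega
      have hlc : (T.comp (-X)).leadingCoeff = (-1) ^ T.natDegree * T.leadingCoeff := by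
        rw [leadingCoeff, natDegree_comp_neg, coeff_comp_neg]
        rfl
      rw [negA, Matrix.map_apply, coeff_neg, natDegree_comp_neg, coeff_comp_neg, hN i j, hlc]
      obtain ⟨m, hm⟩ : ∃ m, T.natDegree = m + 1 := ⟨T.natDegree - 1, by omega⟩
      rw [hm, Nat.add_sub_cancel]
      push_cast
      rw [pow_succ]
      ring) hexp (isOpen_negSet hU) (isPreconnected_negSet hU') (t₀ := t₀)
    (fun t htt => by
      have h2 := ht (-t) (by
        rw [abs_neg]
        exact lt_of_lt_of_le htt (le_abs_self t))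
      show -(t : ℂ) ∈ U
      rw [← Complex.ofReal_neg]
      exact h2)
    (Z := Z.map fun p => p.comp (-X))
    (by
      have h3 : (Z.map fun p => p.comp (-X)).det = Z.det.comp (-X) := by
        have := (RingHom.map_det (Polynomial.compRingHom (-X : ℤ[X])) Z)
        rw [Polynomial.coe_compRingHom] at this
        exact this.symm
      rw [h3]
      intro h4
      apply hZ
      have h5 := congrArg (fun p : ℤ[X] => p.comp (-X)) h4
      simpa [comp_assoc] using h5)
    (P := fun t => P (-t)) (Q := fun t => Q (-t))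
    (by
      intro i k t htt
      have h6 : AnalyticAt ℂ (fun t => Q t i k) (-t) := hQ i k (-t) htt
      exact h6.comp' (analyticAt_id.neg))
    (by
      intro t htt i k
      have h7 : deriv (fun t => Q (-t) i k) t = -deriv (fun t => Q t i k) (-t) :=
        deriv_comp_neg (fun t => Q t i k) t
      have h8 := hode (-t) htt i k
      rw [aeval_comp_neg, h7, mul_neg, h8, ← Finset.sum_neg_distrib]
      refine Finset.sum_congr rfl fun j _ => ?_
      rw [negA, Matrix.map_apply, map_neg, aeval_comp_neg']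
      ring)
    (by
      intro t htt
      show P (-t) = _
      rw [hPQ (-t) htt]
      congr 1
      ext1 i j
      simp only [Matrix.map_apply, aeval_comp_neg])
    (fun t htt => hdet (-t) htt) δ
  refine two_sided (E := {i : ℤ | (i : ℂ) ∈ U ∧ HasRelation U P (i : ℂ) ⊥ δ}) ?_ ?_ k₁ k₂
  · intro i hi h0
    have e : ((i.toNat : ℕ) : ℂ) = (i : ℂ) := by
      have : ((i.toNat : ℕ) : ℤ) = i := Int.toNat_of_nonneg h0
      exact_mod_cast congrArg (fun z : ℤ => (z : ℂ)) this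
    show ((i.toNat : ℕ) : ℂ) ∈ U ∧ HasRelation U P ((i.toNat : ℕ) : ℂ) ⊥ δ
    rw [e]
    exact hi
  · intro i hi h0
    have e : (((-i).toNat : ℕ) : ℂ) = -(i : ℂ) := by
      have : (((-i).toNat : ℕ) : ℤ) = -i := Int.toNat_of_nonneg (by omega)
      have h1 := congrArg (fun z : ℤ => (z : ℂ)) this
      push_cast at h1
      exact h1
    show -(((-i).toNat : ℕ) : ℂ) ∈ U ∧
      HasRelation {t | -t ∈ U} (fun t => P (-t)) (((-i).toNat : ℕ) : ℂ) ⊥ δ
    refine ⟨?_, hasRelation_neg ?_⟩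
    · rw [e, neg_neg]
      exact hi.1
    · rw [e, neg_neg]
      exact hi.2

end Pool.Agent.Helper79.GC
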