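import Pool.Agent.Helper37.GP.Defs2
import Mathlib

/-!
# G-connections at a regular singular point: definitions (MP_290158_ag, project GC)

Everything is written at `s = ∞`, as in `Pool.Agent.Helper37.GP.Defs`: Laurent series in
`x = 1/s` (`LaurentSeries ℚ`), polynomials in `s` (embedded by `emb`), `dd = d/ds`.

A system `T F' = A F` over `ℚ[s]` with a regular singular point at infinity is given together with
a formal fundamental matrix `F = Y s^(-N)`, `Y` a matrix of power series in `1/s`, `N` a constant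
matrix (`IsFund T A Y N`).
-/

open Polynomial

namespace Pool.Agent.Helper79.GC

open Pool.Agent.Helper37.GP

/-- The Laurent series `x = 1/s`. -/
noncomputable def xx : LaurentSeries ℚ := HahnSeries.single (1 : ℤ) (1 : ℚ)

section Matrices

variable {ι : Type}

/-- Polynomial matrices as matrices of Laurent series in `1/s`. -/
noncomputable def eM {κ : Type} (B : Matrix ι κ ℚ[X]) : Matrix ι κ (LaurentSeries ℚ) := B.map emb

/-- Constant matrices as matrices of Laurent series. -/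
noncomputable def cM {κ : Type} (N : Matrix ι κ ℚ) : Matrix ι κ (LaurentSeries ℚ) :=
  N.map (algebraMap ℚ (LaurentSeries ℚ))

/-- Matrices of power series in `x = 1/s` as matrices of Laurent series. -/
noncomputable def pM {κ : Type} (F : Matrix ι κ (PowerSeries ℚ)) :
    Matrix ι κ (LaurentSeries ℚ) := F.map ps

/-- Entrywise derivative `d/ds`. -/
noncomputable def dM {κ : Type} (F : Matrix ι κ (LaurentSeries ℚ)) :
    Matrix ι κ (LaurentSeries ℚ) := F.map dd

/-- The matrix of coefficients of `s^n` of a polynomial matrix. -/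
noncomputable def coM {κ : Type} (n : ℕ) (B : Matrix ι κ ℚ[X]) : Matrix ι κ ℚ :=
  B.map fun p => p.coeff n

/-- The matrix of coefficients of `x^n` of a matrix of power series. -/
noncomputable def coP {κ : Type} (n : ℕ) (F : Matrix ι κ (PowerSeries ℚ)) : Matrix ι κ ℚ :=
  F.map fun p => PowerSeries.coeff n p

/-- The matrix of coefficients of `x^n` of a matrix of Laurent series. -/
noncomputable def coL {κ : Type} (n : ℤ) (F : Matrix ι κ (LaurentSeries ℚ)) : Matrix ι κ ℚ :=
  F.map fun p => p.coeff n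

/-- Constant matrices as polynomial matrices. -/
noncomputable def cX {κ : Type} (N : Matrix ι κ ℚ) : Matrix ι κ ℚ[X] := N.map C

/-- Constant matrices as matrices of power series. -/
noncomputable def cP {κ : Type} (N : Matrix ι κ ℚ) : Matrix ι κ (PowerSeries ℚ) :=
  N.map PowerSeries.C

/-- The shift `s ↦ s + a` of a polynomial matrix. -/
noncomputable def shM {κ : Type} (a : ℕ) (B : Matrix ι κ ℚ[X]) : Matrix ι κ ℚ[X] :=
  B.map fun p => p.comp (X + C (a : ℚ))

variable [Fintype ι]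

/-- `F = Y s^(-N)` is a fundamental matrix of `T F' = A F` (at `s = ∞`), that is
`T Y' = A Y + (T / s) Y N`. -/
def IsFund (T : ℚ[X]) (A : Matrix ι ι ℚ[X]) (Y : Matrix ι ι (PowerSeries ℚ))
    (N : Matrix ι ι ℚ) : Prop :=
  emb T • dM (pM Y) = eM A * pM Y + (emb T * xx) • (pM Y * cM N)

variable [DecidableEq ι]

/-- The divided iterates in the field of Laurent series: `G_j` with `F^(j) / j! = G_j F` for the
solutions of `F' = g F`. -/
noncomputable def Git (g : Matrix ι ι (LaurentSeries ℚ)) : ℕ → Matrix ι ι (LaurentSeries ℚ)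
  | 0 => 1
  | (j + 1) => ((j : ℚ) + 1)⁻¹ • (dM (Git g j) + Git g j * g)

/-- The binomial coefficient `M (M - 1) ⋯ (M - n + 1) / n!` of a matrix. -/
noncomputable def binm (M : Matrix ι ι ℚ) : ℕ → Matrix ι ι ℚ
  | 0 => 1
  | (n + 1) => ((n : ℚ) + 1)⁻¹ • (binm M n * (M - (n : ℚ) • 1))

/-- The matrix of power series `(1 + a x)^(-ν) = (s / (s + a))^ν`. -/
noncomputable def pw (a : ℕ) (ν : Matrix ι ι ℚ) : Matrix ι ι (PowerSeries ℚ) :=
  Matrix.of fun i j => PowerSeries.mk fun n => (a : ℚ) ^ n * binm (-ν) n i j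

/-- The eigenvalues are `0` and `1/2` (in polynomial form). -/
def Half (M : Matrix ι ι ℚ) : Prop := ∃ m : ℕ, (M * ((2 : ℚ) • M - 1)) ^ m = 0

/-- The residue at infinity (up to sign): `N = - (coefficient of s^(deg T - 1) in A) / (leading
coefficient of T)`, and `A` has degree less than `T`. -/
def IsRes (T : ℚ[X]) (A : Matrix ι ι ℚ[X]) (N : Matrix ι ι ℚ) : Prop :=
  T ≠ 0 ∧ (∀ a b, (A a b).natDegree + 1 ≤ T.natDegree) ∧
    coM (T.natDegree - 1) A = -(T.leadingCoeff • N)

end Matrices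

/-- The divided derivative `(1/i!) (d/ds)^i` of a matrix of Laurent series. -/
noncomputable def hs {ι κ : Type} (i : ℕ) (F : Matrix ι κ (LaurentSeries ℚ)) :
    Matrix ι κ (LaurentSeries ℚ) := ((i.factorial : ℚ)⁻¹) • (dM^[i] F)

/-- `q P f` is a polynomial with integer coefficients. -/
def PI (q : ℕ) (P : ℤ[X]) (f : LaurentSeries ℚ) : Prop :=
  ∃ p : ℤ[X], (q : ℚ) • (emb (P.map (Int.castRingHom ℚ)) * f) = emb (p.map (Int.castRingHom ℚ))

/-! ### Gauge transformations by `s^(-D) 𝒳` -/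

/-- The denominator of the system for `(s^(-D) 𝒳)⁻¹ F`. -/
noncomputable def gT {ι : Type} [Fintype ι] [DecidableEq ι] (T : ℤ[X]) (Z : Matrix ι ι ℤ[X])
    (D : ℕ) : ℤ[X] := X ^ (D + 1) * T * Z.det ^ 2

/-- The matrix of the system for `(s^(-D) 𝒳)⁻¹ F`, where `T F' = A F`. -/
noncomputable def gA {ι : Type} [Fintype ι] [DecidableEq ι] (T : ℤ[X]) (A : Matrix ι ι ℚ[X])
    (Z : Matrix ι ι ℤ[X]) (D : ℕ) : Matrix ι ι ℚ[X] :=
  let Z' : Matrix ι ι ℚ[X] := Z.map (Polynomial.map (Int.castRingHom ℚ))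
  let T' : ℚ[X] := T.map (Int.castRingHom ℚ)
  (X ^ (D + 1) * Z'.det) • (Z'.adjugate * A * Z') -
    (X ^ (D + 1) * T' * Z'.det) • (Z'.adjugate * Z'.map derivative) +
    ((D : ℚ[X]) * X ^ D * T' * Z'.det ^ 2) • 1

/-! ### Blocks -/

/-- The data of one block: a system `T F' = L F` with fundamental matrix `Φ s^(-νl)`, and a
constant matrix `νr` commuting with everything. The block functions are the entries of the column
`i₀` of `Φ`. -/
structure BlockData (R : ℕ) where
  /-- the denominator of the system -/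
  T : ℤ[X]
  /-- the matrix of the system -/
  L : Matrix (Fin R) (Fin R) ℚ[X]
  /-- the holomorphic part of the fundamental matrix -/
  Φ : Matrix (Fin R) (Fin R) (PowerSeries ℚ)
  /-- the exponent matrix -/
  νl : Matrix (Fin R) (Fin R) ℚ
  /-- the second exponent matrix -/
  νr : Matrix (Fin R) (Fin R) ℚ
  /-- the index of the column -/
  i₀ : Fin R
  /-- a bound for all heights -/
  H : ℕ
  hH : 2 ≤ H
  hdeg : ∀ a b, (L a b).natDegree + 1 ≤ T.natDegree
  gal : Galochkin (T.map (Int.castRingHom ℚ)) L H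
  Φ0 : coP 0 Φ = 1
  fund : IsFund (T.map (Int.castRingHom ℚ)) L Φ νl
  cL : L * cX νr = cX νr * L
  cΦ : Φ * cP νr = cP νr * Φ
  cν : νl * νr = νr * νl
  e0 : ∀ a, νl a i₀ = νr a i₀
  nil : IsNilpotent (νl - νr)
  half : Half νl
  bd : ∀ a b, GBound H (Φ a b)
  den : GDen H (fun p : Fin R × Fin R => Φ p.1 p.2)
  ind : ∀ v : Fin R → ℚ[X],
    (∀ k : ℕ, ∑ a, emb (v a) * ps ((Φ * cP (νl ^ k)) a i₀) = 0) → v = 0

namespace BlockData

variable {R : ℕ} (b : BlockData R)

/-- The fundamental matrix for the shifted system `s ↦ s + a`: `Φ(1/(s+a)) (s/(s+a))^νl`. -/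
noncomputable def Ψ (a : ℕ) : Matrix (Fin R) (Fin R) (PowerSeries ℚ) :=
  (b.Φ.map fun f => f.subst (gx 1 a)) * pw a b.νl

/-- The block functions at the shift `a`. -/
noncomputable def fn (a : ℕ) (α : Fin R) : PowerSeries ℚ := b.Ψ a α b.i₀

end BlockData

/-! ### Slots: operators on tensor powers -/

section Slots

variable {δ : Type} [Fintype δ] [DecidableEq δ] {κ : Type} [DecidableEq κ]

/-- The operator on the tensor power indexed by `δ` acting by `M` in the slot `j`. -/
def slot {S : Type} [Zero S] (j : δ) (M : Matrix κ κ S) : Matrix (δ → κ) (δ → κ) S :=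
  Matrix.of fun α β => if ∀ i, i ≠ j → α i = β i then M (α j) (β j) else 0

/-- The tensor product of operators. -/
def kron {S : Type} [CommMonoid S] (F : δ → Matrix κ κ S) : Matrix (δ → κ) (δ → κ) S :=
  Matrix.of fun α β => ∏ j, F j (α j) (β j)

end Slots

/-! ### The tensor system -/

section Big

variable {R d : ℕ} (b : BlockData R) (a : Fin d → ℕ)

/-- The denominator of the tensor system. -/
noncomputable def bigT : ℤ[X] := X * ∏ j, b.T.comp (X + C (a j : ℤ))

/-- The matrix of the tensor system. -/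
noncomputable def bigB : Matrix (Fin d → Fin R) (Fin d → Fin R) ℚ[X] :=
  (∑ j, (X * ∏ i ∈ Finset.univ.erase j, (b.T.comp (X + C (a i : ℤ))).map (Int.castRingHom ℚ)) •
    slot j (shM (a j) b.L)) +
  (∏ i, (b.T.comp (X + C (a i : ℤ))).map (Int.castRingHom ℚ)) • ∑ j, slot j (cX b.νr)

/-- The fundamental matrix of the tensor system (holomorphic part). -/
noncomputable def bigΨ : Matrix (Fin d → Fin R) (Fin d → Fin R) (PowerSeries ℚ) :=
  Matrix.of fun α β => ∏ j, b.Ψ (a j) (α j) (β j)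

/-- The exponent matrix of the tensor system. -/
noncomputable def bigN (d : ℕ) : Matrix (Fin d → Fin R) (Fin d → Fin R) ℚ :=
  ∑ j, slot j (b.νl - b.νr)

/-- The functions of the tensor system. -/
noncomputable def bigE (α : Fin d → Fin R) : PowerSeries ℚ := ∏ j, b.fn (a j) (α j)

end Big

/-! ### Analytic functions -/

/-- The value at a complex number `x` of a power series with rational coefficients. -/
noncomputable def cev (f : PowerSeries ℚ) (x : ℂ) : ℂ :=
  ∑' n : ℕ, ((PowerSeries.coeff n f : ℚ) : ℂ) * x ^ n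

/-- The values of a matrix of power series. -/
noncomputable def cevM {ι κ : Type} (F : Matrix ι κ (PowerSeries ℚ)) (x : ℂ) : Matrix ι κ ℂ :=
  F.map fun f => cev f x

/-- Rational matrices as complex matrices. -/
noncomputable def qC {ι κ : Type} (N : Matrix ι κ ℚ) : Matrix ι κ ℂ := N.map (algebraMap ℚ ℂ)

/-- The matrix exponential `exp(w N)` of a rational matrix. -/
noncomputable def cexpM {ι : Type} [Fintype ι] [DecidableEq ι] (w : ℂ) (N : Matrix ι ι ℚ) :
    Matrix ι ι ℂ := NormedSpace.exp (w • qC N)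

/-- A system `T F' = L F` on `‖u‖ > ρ₀` with fundamental matrix `Φ(1/u) exp(-(log u) ν)`, and a vector
`e` such that no nonzero polynomial row vector annihilates all `Φ(1/u) ν^k e`. -/
structure BkData (R : ℕ) where
  /-- the denominator -/
  T : ℂ[X]
  /-- the matrix -/
  L : Matrix (Fin R) (Fin R) ℂ[X]
  /-- the exponent matrix -/
  ν : Matrix (Fin R) (Fin R) ℚ
  /-- the holomorphic part, as a function of `x = 1/u` -/
  Φ : ℂ → Matrix (Fin R) (Fin R) ℂ
  /-- the vector -/
  e : Fin R → ℂ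
  /-- the inner radius -/
  ρ₀ : ℝ
  /-- the outer radius -/
  ρ' : ℝ
  h0 : 0 < ρ₀
  h1 : ρ₀ < ρ'
  hT : T ≠ 0
  hν : Half ν
  hΦ : ∀ a b, AnalyticOnNhd ℂ (fun x => Φ x a b) (Metric.ball 0 (1 / ρ₀))
  hdet : ∀ x ∈ Metric.ball (0 : ℂ) (1 / ρ₀), IsUnit (Φ x).det
  hode : ∀ u : ℂ, ρ₀ < ‖u‖ → ∀ a b, T.eval u * deriv (fun u => Φ u⁻¹ a b) u =
    ∑ c, (L a c).eval u * Φ u⁻¹ c b + T.eval u / u * ∑ c, Φ u⁻¹ a c * (ν c b : ℂ)
  hind : ∀ v : Fin R → ℂ[X],
    (∀ (k : ℕ) (u : ℂ), ρ₀ < ‖u‖ → ∑ a, (v a).eval u * (Φ u⁻¹ * qC (ν ^ k)).mulVec e a = 0) →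
    v = 0

/-- The analytic row vectors on the disc `‖u‖ < ρ'` annihilating all `Φ(1/u) ν^k e` on the annulus. -/
def BkData.KK {R : ℕ} (D : BkData R) : Set (ℂ → Fin R → ℂ) :=
  {f | (∀ a, AnalyticOnNhd ℂ (fun u => f u a) (Metric.ball 0 D.ρ')) ∧
    ∀ (k : ℕ) (u : ℂ), D.ρ₀ < ‖u‖ → ‖u‖ < D.ρ' →
      ∑ a, f u a * (D.Φ u⁻¹ * qC (D.ν ^ k)).mulVec D.e a = 0}

/-! ### Bad integers -/

/-- The integer `n` is bad for the vector function `z`: there is a rational linear relation
between the components of `z n` which is not the value at `n` of a relation between the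
components of `z` with coefficients in `ℚ[t]`. -/
def Bad {ι : Type} [Fintype ι] (z : ℝ → ι → ℂ) (n : ℕ) : Prop :=
  ∃ l : ι → ℚ, ∑ a, (l a : ℂ) * z n a = 0 ∧
    ¬ ∃ v : ι → ℚ[X], (∀ a, (v a).eval (n : ℚ) = l a) ∧
      ∀ᶠ t : ℝ in Filter.atTop, ∑ a, aeval (t : ℂ) (v a) * z t a = 0

/-- Local sparsity of the bad integers. -/
def Sparse {ι : Type} [Fintype ι] (z : ℝ → ι → ℂ) : Prop :=
  ∃ C M : ℕ, ∀ (K s : ℕ) (a : Fin (M + 1) → ℕ), 1 ≤ K → (∀ j, C ≤ a j) → (∀ j, a j ≤ K) →
    (∀ i j, i ≠ j → a i + C ≤ a j ∨ a j + C ≤ a i) → (K + 1) ^ C ≤ s → ∃ j, ¬ Bad z (s + a j)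

end Pool.Agent.Helper79.GC
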