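import Pool.Agent.Helper79.GC.LMod
import Pool.Agent.Helper79.GC.Defs

/-!
# GC-50: the exponents of the left multiplication system

* `lm_half`: `lm` restricted to the algebra is a unital homomorphism, so `p(lm N) = lm (p(N))`.
* `ad_nil`: column `β` of `(lm N - rm N)^k` is the coordinate vector of `ad^k(g_β)`, `ad(g) = N g - g N` (induction, `lm_expand`,
  `rm_expand`). As `π` commutes with `g_β` (hence with everything in the span), `ad(g) = N₀ g - g N₀` on the span, and
  `ad^k(g) = ∑ ± binom(k,i) N₀^(k-i) g N₀^i = 0` for `k ≥ 2 r`, `N₀^r = 0`. (The iterates `ad^i(g_β)` stay in the span.)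
-/

open Polynomial

namespace Pool.Agent.Helper79.GC

open Pool.Agent.Helper37.GP

variable {ι : Type} [Fintype ι] [DecidableEq ι] {R : ℕ} (B : AlgBasis ι R)

theorem lm_half {N : Matrix ι ι ℚ} (hN : B.Mem (RingHom.id ℚ) N) (h : Half N) :
    Half (B.lm (RingHom.id ℚ) N) := by
  obtain ⟨m, hm⟩ := h
  refine ⟨m, ?_⟩
  have h1 : B.Mem (RingHom.id ℚ) ((2 : ℚ) • N - 1) :=
    mem_sub B _ (mem_smul B _ 2 hN) (mem_one B _)
  have h2 : B.lm (RingHom.id ℚ) ((2 : ℚ) • N - 1) = (2 : ℚ) • B.lm (RingHom.id ℚ) N - 1 := by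
    rw [lm_sub, lm_smul, lm_one]
  rw [← h2, ← lm_mul B _ hN h1, ← lm_pow B _ (mem_mul B _ hN h1), hm]
  have h3 := lm_smul B (RingHom.id ℚ) (0 : ℚ) N
  rw [zero_smul, zero_smul] at h3
  exact h3

theorem ad_nil {N N₀ π : Matrix ι ι ℚ} (hN : B.Mem (RingHom.id ℚ) N)
    (he : N = N₀ + (1 / 2 : ℚ) • π) (h0 : IsNilpotent N₀)
    (hπ : ∀ α, π * B.g α = B.g α * π) :
    IsNilpotent (B.lm (RingHom.id ℚ) N - B.rm (RingHom.id ℚ) N) := by
  have hid : ∀ α, (B.g α).map (RingHom.id ℚ) = B.g α := fun α => by ext; rfl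
  set A : Matrix (Fin R) (Fin R) ℚ := B.lm (RingHom.id ℚ) N - B.rm (RingHom.id ℚ) N with hA
  let E : (Fin R → ℚ) → Matrix ι ι ℚ := fun v => ∑ α, v α • B.g α
  have hE : ∀ v, E v = ∑ α, v α • B.g α := fun v => rfl
  have hE0 : ∀ v, E v = 0 → v = 0 := by
    intro v hv
    funext α
    have h1 := crd_expand B (RingHom.id ℚ) v α
    have h2 : ∑ β, v β • (B.g β).map (RingHom.id ℚ) = 0 := by
      rw [← hv, hE]
      exact Finset.sum_congr rfl fun β _ => by rw [hid]
    rw [h2] at h1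
    rw [← h1]
    simp [AlgBasis.crd]
  have hL : ∀ v, E ((B.lm (RingHom.id ℚ) N).mulVec v) = N * E v := by
    intro v
    have h1 : ∀ β, N * B.g β = ∑ α, B.lm (RingHom.id ℚ) N α β • B.g α := by
      intro β
      have := lm_expand B (RingHom.id ℚ) hN β
      rw [hid] at this
      rw [this]
      exact Finset.sum_congr rfl fun α _ => by rw [hid]
    rw [hE, hE, Finset.mul_sum]
    simp only [Matrix.mul_smul, h1, Finset.smul_sum, Matrix.mulVec, dotProduct, Finset.sum_smul,
      smul_smul]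
    rw [Finset.sum_comm]
    refine Finset.sum_congr rfl fun β _ => Finset.sum_congr rfl fun α _ => ?_
    rw [mul_comm]
  have hR : ∀ v, E ((B.rm (RingHom.id ℚ) N).mulVec v) = E v * N := by
    intro v
    have h1 : ∀ β, B.g β * N = ∑ α, B.rm (RingHom.id ℚ) N α β • B.g α := by
      intro β
      have := rm_expand B (RingHom.id ℚ) hN β
      rw [hid] at this
      rw [this]
      exact Finset.sum_congr rfl fun α _ => by rw [hid]
    rw [hE, hE, Finset.sum_mul]
    simp only [Matrix.smul_mul, h1, Finset.smul_sum, Matrix.mulVec, dotProduct, Finset.sum_smul,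
      smul_smul]
    rw [Finset.sum_comm]
    refine Finset.sum_congr rfl fun β _ => Finset.sum_congr rfl fun α _ => ?_
    rw [mul_comm]
  have hsub : ∀ v w, E (v - w) = E v - E w := by
    intro v w
    rw [hE, hE, hE, ← Finset.sum_sub_distrib]
    exact Finset.sum_congr rfl fun α _ => by rw [Pi.sub_apply, sub_smul]
  have hπE : ∀ v, π * E v = E v * π := by
    intro v
    rw [hE, Finset.mul_sum, Finset.sum_mul]
    exact Finset.sum_congr rfl fun α _ => by rw [Matrix.mul_smul, Matrix.smul_mul, hπ]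
  let D : Module.End ℚ (Matrix ι ι ℚ) := LinearMap.mulLeft ℚ N₀ - LinearMap.mulRight ℚ N₀
  have hD : ∀ M, D M = N₀ * M - M * N₀ := fun M => rfl
  have hAE : ∀ v, E (A.mulVec v) = D (E v) := by
    intro v
    rw [hA, Matrix.sub_mulVec, hsub, hL, hR, hD, he, Matrix.add_mul, Matrix.mul_add,
      Matrix.smul_mul, Matrix.mul_smul, hπE]
    abel
  have hAk : ∀ (k : ℕ) v, E ((A ^ k).mulVec v) = (D ^ k) (E v) := by
    intro k
    induction k with
    | zero =>
      intro v
      rw [pow_zero, pow_zero, Matrix.one_mulVec]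
      rfl
    | succ k ih =>
      intro v
      rw [pow_succ', ← Matrix.mulVec_mulVec, hAE, ih, pow_succ']
      rfl
  have hDn : IsNilpotent D := by
    have hc : Commute (LinearMap.mulLeft ℚ N₀) (LinearMap.mulRight ℚ N₀) :=
      LinearMap.commute_mulLeft_right N₀ N₀
    exact hc.isNilpotent_sub ((LinearMap.isNilpotent_mulLeft_iff ℚ N₀).2 h0)
      ((LinearMap.isNilpotent_mulRight_iff ℚ N₀).2 h0)
  obtain ⟨k, hk⟩ := hDn
  refine ⟨k, ?_⟩
  have h1 : ∀ v, (A ^ k).mulVec v = 0 := by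
    intro v
    apply hE0
    rw [hAk, hk]
    rfl
  ext i j
  have h2 := congrFun (h1 (Pi.single j 1)) i
  simpa using h2

/-- `N₀ + π/2` with `N₀` nilpotent, commuting with the idempotent `π`, has eigenvalues `0`, `1/2`. -/
theorem half_of_split {N₀ π : Matrix ι ι ℚ} (h0 : IsNilpotent N₀) (hπ : π * π = π)
    (hc : π * N₀ = N₀ * π) : Half (N₀ + (1 / 2 : ℚ) • π) := by
  have h1 : (N₀ + (1 / 2 : ℚ) • π) * ((2 : ℚ) • (N₀ + (1 / 2 : ℚ) • π) - 1) =
      N₀ * ((2 : ℚ) • N₀ + (2 : ℚ) • π - 1) := by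
    simp only [smul_add, smul_smul, Matrix.add_mul, Matrix.mul_sub, Matrix.mul_add, Matrix.mul_one,
      Matrix.smul_mul, Matrix.mul_smul, hπ, hc]
    module
  have h2 : Commute N₀ ((2 : ℚ) • N₀ + (2 : ℚ) • π - 1) := by
    refine Commute.sub_right (Commute.add_right ?_ ?_) (Commute.one_right _)
    · exact (Commute.refl N₀).smul_right _
    · exact Commute.smul_right hc.symm _
  obtain ⟨m, hm⟩ := h2.isNilpotent_mul_right h0
  exact ⟨m, by rw [h1, hm]⟩

end Pool.Agent.Helper79.GC
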