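import Pool.Agent.Helper79.GC.Defs2

/-!
# GC-43: approximating a solution of linear equations over `ℚ[s]` by polynomial solutions

Let `S` be a set of vectors over `ℚ[s]`, `y` a vector of Laurent series in `x = 1/s` orthogonal to `S`. There are
polynomial vectors `p` orthogonal to `S` with `x^D p` as close to `y` as we want.

Proof. The `ℚ[s]`-submodule of the Laurent series field generated by the `y_a` is finitely generated and torsion free,
hence free: `y_a = ∑_j f_{a j} c_j` with polynomials `f_{a j}` and `c_j` linearly independent over `ℚ[s]`. For `w ∈ S`,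
`0 = ∑_a w_a y_a = ∑_j (∑_a w_a f_{a j}) c_j`, so that the columns of `f` are orthogonal to `S`. Choose polynomials
`q_j` with `x^D q_j` very close to `c_j` and put `p_a = ∑_j f_{a j} q_j`.
-/

open Polynomial

namespace Pool.Agent.Helper79.GC

open Pool.Agent.Helper37.GP

namespace AS43

/-- A copy of the Laurent series field, as a module over the polynomial ring through `emb`. -/
def KK : Type := LaurentSeries ℚ

noncomputable instance : AddCommGroup KK := inferInstanceAs (AddCommGroup (LaurentSeries ℚ))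

noncomputable instance : Module ℚ[X] KK := Module.compHom (LaurentSeries ℚ) emb

theorem smul_zero_or (p : ℚ[X]) (f : LaurentSeries ℚ) (h : p • (show KK from f) = 0) :
    p = 0 ∨ f = 0 := by
  have h' : emb p * f = 0 := h
  rcases mul_eq_zero.mp h' with h1 | h1
  · left
    exact emb_injective (by rw [h1, map_zero])
  · right
    exact h1

instance : Module.IsTorsionFree ℚ[X] KK :=
  Module.IsTorsionFree.of_smul_eq_zero fun p f h => smul_zero_or p f h

theorem exists_free {κ : Type} [Fintype κ] (y : κ → LaurentSeries ℚ) :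
    ∃ (J : Type) (_ : Fintype J) (f : κ → J → ℚ[X]) (c : J → LaurentSeries ℚ),
      (∀ a, y a = ∑ j, emb (f a j) * c j) ∧
      ∀ w : κ → ℚ[X], ∑ a, emb (w a) * y a = 0 → ∀ j, ∑ a, w a * f a j = 0 := by
  let y' : κ → KK := y
  let N : Submodule ℚ[X] KK := Submodule.span ℚ[X] (Set.range y')
  have : Module.Finite ℚ[X] N :=
    Module.Finite.span_of_finite ℚ[X] (Set.finite_range y')
  have : Module.Free ℚ[X] N := Module.free_of_finite_type_torsion_free'
  let b := Module.Free.chooseBasis ℚ[X] N
  have hy : ∀ a, y' a ∈ N := fun a => Submodule.subset_span (Set.mem_range_self a)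
  refine ⟨Module.Free.ChooseBasisIndex ℚ[X] N, inferInstance, fun a j => b.repr ⟨y' a, hy a⟩ j,
    fun j => ((b j : N) : KK), fun a => ?_, fun w hw j => ?_⟩
  · have h1 := b.sum_repr ⟨y' a, hy a⟩
    have h2 := congrArg (fun v : N => (v : KK)) h1
    simp only at h2
    rw [Submodule.coe_sum] at h2
    exact h2.symm
  · have h1 : ∑ a, w a • (⟨y' a, hy a⟩ : N) = 0 := by
      apply Subtype.ext
      rw [Submodule.coe_sum]
      exact hw
    have h2 := congrArg (fun v => b.repr v j) h1
    simp only [map_sum, map_smul, map_zero] at h2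
    rw [Finsupp.finset_sum_apply] at h2
    exact h2

theorem approx_one (c : LaurentSeries ℚ) {D : ℕ} {m : ℤ} (hD : m ≤ D) :
    ∃ q : ℚ[X], OrdGE m (xx ^ D * emb q - c) := by
  obtain ⟨M, hM⟩ := exists_ordGE c
  refine ⟨∑ k ∈ Finset.range ((D : ℤ) - M + 1).toNat, C (c.coeff (D - k)) * X ^ k, fun n hn => ?_⟩
  have h1 : xx ^ D = HahnSeries.single (D : ℤ) (1 : ℚ) := by
    rw [xx, HahnSeries.single_pow]
    simp
  have h2 := HahnSeries.coeff_single_mul_add (r := (1 : ℚ)) (x := emb (∑ k ∈ Finset.range
    ((D : ℤ) - M + 1).toNat, C (c.coeff (D - k)) * X ^ k)) (a := n - D) (b := (D : ℤ))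
  rw [sub_add_cancel, one_mul] at h2
  rw [HahnSeries.coeff_sub, h1, h2, emb_coeff, if_pos (by omega), finset_sum_coeff]
  have h3 : ∀ k ∈ Finset.range ((D : ℤ) - M + 1).toNat,
      (C (c.coeff (D - k)) * X ^ k : ℚ[X]).coeff (-(n - D)).toNat =
        if k = (-(n - D)).toNat then c.coeff n else 0 := by
    intro k _
    rw [coeff_C_mul, coeff_X_pow]
    by_cases h : k = (-(n - D)).toNat
    · rw [if_pos h, if_pos h.symm, mul_one]
      congr 1
      omega
    · rw [if_neg h, if_neg (Ne.symm h), mul_zero]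
  rw [Finset.sum_congr rfl h3, Finset.sum_ite_eq']
  split_ifs with h4
  · rw [sub_self]
  · rw [Finset.mem_range] at h4
    rw [hM n (by omega), sub_zero]

end AS43

open AS43

variable {κ : Type} [Fintype κ] [DecidableEq κ]

theorem approx_sol (S : Set (κ → ℚ[X])) (y : κ → LaurentSeries ℚ)
    (hy : ∀ w ∈ S, ∑ a, emb (w a) * y a = 0) (n : ℕ) : ∃ (D : ℕ) (p : κ → ℚ[X]),
    (∀ w ∈ S, ∑ a, w a * p a = 0) ∧ ∀ a, OrdGE (n : ℤ) (xx ^ D * emb (p a) - y a) := by
  obtain ⟨J, _, f, c, hf, hS⟩ := exists_free y
  set E : ℕ := ∑ a, ∑ j, (f a j).natDegree with hE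
  choose q hq using fun j => approx_one (c j) (D := n + E) (m := (n : ℤ) + E) (by push_cast; rfl)
  refine ⟨n + E, fun a => ∑ j, f a j * q j, fun w hw => ?_, fun a => ?_⟩
  · have h1 := hS w (hy w hw)
    simp only [Finset.mul_sum]
    rw [Finset.sum_comm]
    refine Finset.sum_eq_zero fun j _ => ?_
    have h2 : ∀ a, w a * (f a j * q j) = (w a * f a j) * q j := fun a => by ring
    rw [Finset.sum_congr rfl fun a _ => h2 a, ← Finset.sum_mul, h1 j, zero_mul]
  · have h1 : xx ^ (n + E) * emb (∑ j, f a j * q j) - y a =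
        ∑ j, emb (f a j) * (xx ^ (n + E) * emb (q j) - c j) := by
      rw [hf a, map_sum, Finset.mul_sum, ← Finset.sum_sub_distrib]
      refine Finset.sum_congr rfl fun j _ => ?_
      rw [map_mul]
      ring
    rw [h1]
    refine ordGE_sum _ _ fun j _ => ?_
    have h2 : (f a j).natDegree ≤ E := by
      refine le_trans ?_ (Finset.single_le_sum (f := fun a => ∑ j, (f a j).natDegree)
        (fun _ _ => Nat.zero_le _) (Finset.mem_univ a))
      exact Finset.single_le_sum (f := fun j => (f a j).natDegree)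
        (fun _ _ => Nat.zero_le _) (Finset.mem_univ j)
    have h3 := ordGE_mul (ordGE_emb h2) (hq j)
    refine ordGE_mono ?_ h3
    omega

end Pool.Agent.Helper79.GC
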