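import Pool.Agent.Helper79.GC.Defs
import Pool.Agent.Helper37.GP.Rows
import Pool.Agent.Helper39.GP.Subst

/-!
# GC: matrix calculus over the Laurent series field
-/

open Polynomial

namespace Pool.Agent.Helper79.GC

open Pool.Agent.Helper37.GP

variable {ι κ μ : Type}

theorem dd_neg (f : LaurentSeries ℚ) : dd (-f) = -dd f := by
  ext n
  simp [dd_coeff]

theorem dd_sub (f g : LaurentSeries ℚ) : dd (f - g) = dd f - dd g := by
  rw [sub_eq_add_neg, dd_add, dd_neg, ← sub_eq_add_neg]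

theorem dd_algebraMap (c : ℚ) : dd (algebraMap ℚ (LaurentSeries ℚ) c) = 0 := by
  rw [← emb_C, dd_emb, derivative_C, map_zero]

theorem dd_ratsmul (c : ℚ) (f : LaurentSeries ℚ) : dd (c • f) = c • dd f := by
  ext n
  simp [dd_coeff]
  ring

theorem xx_mul_emb_X : xx * emb X = 1 := by
  rw [emb_X, xx, HahnSeries.single_mul_single]
  simp

theorem emb_X_mul_xx : emb X * xx = 1 := by rw [mul_comm, xx_mul_emb_X]

theorem xx_ne_zero : xx ≠ 0 := by
  intro h
  have := xx_mul_emb_X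
  rw [h, zero_mul] at this
  exact zero_ne_one this

theorem dd_xx : dd xx = -(xx * xx) := by
  have h := congrArg dd xx_mul_emb_X
  rw [dd_mul, dd_emb, derivative_X, map_one, mul_one] at h
  have h1 : dd (1 : LaurentSeries ℚ) = 0 := by
    have := dd_algebraMap 1
    rwa [map_one] at this
  rw [h1] at h
  have h2 : dd xx * emb X = -xx := by
    linear_combination h
  have h3 : dd xx = dd xx * (emb X * xx) := by rw [emb_X_mul_xx, mul_one]
  rw [h3, ← mul_assoc, h2]
  ring

theorem dd_one : dd (1 : LaurentSeries ℚ) = 0 := by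
  have := dd_algebraMap 1
  rwa [map_one] at this

theorem dM_apply (F : Matrix ι κ (LaurentSeries ℚ)) (a : ι) (b : κ) : dM F a b = dd (F a b) := rfl

theorem dM_add (F G : Matrix ι κ (LaurentSeries ℚ)) : dM (F + G) = dM F + dM G := by
  ext1 a b
  simp [dM_apply, dd_add]

theorem dM_neg (F : Matrix ι κ (LaurentSeries ℚ)) : dM (-F) = -dM F := by
  ext1 a b
  simp [dM_apply, dd_neg]

theorem dM_sub (F G : Matrix ι κ (LaurentSeries ℚ)) : dM (F - G) = dM F - dM G := by
  rw [sub_eq_add_neg, dM_add, dM_neg, ← sub_eq_add_neg]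

theorem dM_zero : dM (0 : Matrix ι κ (LaurentSeries ℚ)) = 0 := by
  ext1 a b
  simp [dM_apply, dd_zero]

theorem dM_sum {α : Type} (s : Finset α) (F : α → Matrix ι κ (LaurentSeries ℚ)) :
    dM (∑ i ∈ s, F i) = ∑ i ∈ s, dM (F i) := by
  classical
  induction s using Finset.induction_on with
  | empty => simp [dM_zero]
  | insert a s ha ih => rw [Finset.sum_insert ha, Finset.sum_insert ha, dM_add, ih]

theorem dM_smul (f : LaurentSeries ℚ) (F : Matrix ι κ (LaurentSeries ℚ)) :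
    dM (f • F) = dd f • F + f • dM F := by
  ext1 a b
  simp [dM_apply, dd_mul]
  ring

theorem dM_ratsmul (c : ℚ) (F : Matrix ι κ (LaurentSeries ℚ)) : dM (c • F) = c • dM F := by
  ext1 a b
  rw [dM_apply, Matrix.smul_apply, dd_ratsmul, Matrix.smul_apply, dM_apply]

theorem dM_mul [Fintype κ] (F : Matrix ι κ (LaurentSeries ℚ)) (G : Matrix κ μ (LaurentSeries ℚ)) :
    dM (F * G) = dM F * G + F * dM G := by
  ext1 a b
  rw [dM_apply, Matrix.mul_apply, dd_sum, Matrix.add_apply, Matrix.mul_apply, Matrix.mul_apply,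
    ← Finset.sum_add_distrib]
  refine Finset.sum_congr rfl fun c _ => ?_
  rw [dd_mul, dM_apply, dM_apply, add_comm]

theorem dM_one [DecidableEq ι] : dM (1 : Matrix ι ι (LaurentSeries ℚ)) = 0 := by
  ext1 a b
  rw [dM_apply, Matrix.one_apply]
  split_ifs
  · rw [dd_one, Matrix.zero_apply]
  · rw [dd_zero, Matrix.zero_apply]

theorem dM_transpose (F : Matrix ι κ (LaurentSeries ℚ)) :
    dM F.transpose = (dM F).transpose := rfl

theorem eM_apply (B : Matrix ι κ ℚ[X]) (a : ι) (b : κ) : eM B a b = emb (B a b) := rfl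

theorem cM_apply (N : Matrix ι κ ℚ) (a : ι) (b : κ) :
    cM N a b = algebraMap ℚ (LaurentSeries ℚ) (N a b) := rfl

theorem pM_apply (F : Matrix ι κ (PowerSeries ℚ)) (a : ι) (b : κ) : pM F a b = ps (F a b) := rfl

theorem coM_apply (n : ℕ) (B : Matrix ι κ ℚ[X]) (a : ι) (b : κ) :
    coM n B a b = (B a b).coeff n := rfl

theorem coP_apply (n : ℕ) (F : Matrix ι κ (PowerSeries ℚ)) (a : ι) (b : κ) :
    coP n F a b = PowerSeries.coeff n (F a b) := rfl

theorem coL_apply (n : ℤ) (F : Matrix ι κ (LaurentSeries ℚ)) (a : ι) (b : κ) :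
    coL n F a b = (F a b).coeff n := rfl

theorem cX_apply (N : Matrix ι κ ℚ) (a : ι) (b : κ) : cX N a b = C (N a b) := rfl

theorem cP_apply (N : Matrix ι κ ℚ) (a : ι) (b : κ) : cP N a b = PowerSeries.C (N a b) := rfl

theorem shM_apply (n : ℕ) (B : Matrix ι κ ℚ[X]) (a : ι) (b : κ) :
    shM n B a b = (B a b).comp (X + C (n : ℚ)) := rfl

theorem eM_cX (N : Matrix ι κ ℚ) : eM (cX N) = cM N := by
  ext1 a b
  rw [eM_apply, cX_apply, emb_C, cM_apply]

theorem pM_cP (N : Matrix ι κ ℚ) : pM (cP N) = cM N := by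
  ext1 a b
  rw [pM_apply, cP_apply, Subst12.ps_C, cM_apply]

theorem dM_cM (N : Matrix ι κ ℚ) : dM (cM N) = 0 := by
  ext1 a b
  rw [dM_apply, cM_apply, dd_algebraMap, Matrix.zero_apply]

theorem dM_eM (B : Matrix ι κ ℚ[X]) : dM (eM B) = eM (B.map derivative) := by
  ext1 a b
  rw [dM_apply, eM_apply, dd_emb, eM_apply, Matrix.map_apply]

theorem eM_injective : Function.Injective (eM : Matrix ι κ ℚ[X] → _) := by
  intro A B h
  ext1 a b
  exact emb_injective (congrFun (congrFun h a) b)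

theorem pM_injective : Function.Injective (pM : Matrix ι κ (PowerSeries ℚ) → _) := by
  intro A B h
  ext1 a b
  exact Subst12.ps_injective (congrFun (congrFun h a) b)

theorem cM_injective : Function.Injective (cM : Matrix ι κ ℚ → _) := by
  intro A B h
  ext1 a b
  exact (algebraMap ℚ (LaurentSeries ℚ)).injective (congrFun (congrFun h a) b)

theorem eM_add (A B : Matrix ι κ ℚ[X]) : eM (A + B) = eM A + eM B := by
  ext1 a b
  simp [eM_apply]

theorem eM_sub (A B : Matrix ι κ ℚ[X]) : eM (A - B) = eM A - eM B := by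
  ext1 a b
  simp [eM_apply]

theorem eM_neg (A : Matrix ι κ ℚ[X]) : eM (-A) = -eM A := by
  ext1 a b
  simp [eM_apply]

theorem eM_smul (p : ℚ[X]) (A : Matrix ι κ ℚ[X]) : eM (p • A) = emb p • eM A := by
  ext1 a b
  simp [eM_apply]

theorem eM_one [DecidableEq ι] : eM (1 : Matrix ι ι ℚ[X]) = 1 := by
  ext1 a b
  rw [eM_apply, Matrix.one_apply, Matrix.one_apply]
  split_ifs <;> simp

theorem eM_mul [Fintype κ] (A : Matrix ι κ ℚ[X]) (B : Matrix κ μ ℚ[X]) :
    eM (A * B) = eM A * eM B := by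
  ext1 a b
  rw [eM_apply, Matrix.mul_apply, map_sum, Matrix.mul_apply]
  exact Finset.sum_congr rfl fun c _ => by rw [map_mul]; rfl

theorem pM_add (A B : Matrix ι κ (PowerSeries ℚ)) : pM (A + B) = pM A + pM B := by
  ext1 a b
  exact map_add (HahnSeries.ofPowerSeries ℤ ℚ) (A a b) (B a b)

theorem pM_one [DecidableEq ι] : pM (1 : Matrix ι ι (PowerSeries ℚ)) = 1 := by
  ext1 a b
  rw [pM_apply, Matrix.one_apply, Matrix.one_apply]
  split_ifs
  · exact map_one (HahnSeries.ofPowerSeries ℤ ℚ)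
  · exact map_zero (HahnSeries.ofPowerSeries ℤ ℚ)

theorem pM_mul [Fintype κ] (A : Matrix ι κ (PowerSeries ℚ)) (B : Matrix κ μ (PowerSeries ℚ)) :
    pM (A * B) = pM A * pM B := by
  ext1 a b
  rw [pM_apply, Matrix.mul_apply, Matrix.mul_apply]
  unfold ps
  rw [map_sum]
  exact Finset.sum_congr rfl fun c _ => by rw [map_mul]; rfl

theorem cM_add (A B : Matrix ι κ ℚ) : cM (A + B) = cM A + cM B := by
  ext1 a b
  exact map_add (algebraMap ℚ (LaurentSeries ℚ)) (A a b) (B a b)

theorem cM_sub (A B : Matrix ι κ ℚ) : cM (A - B) = cM A - cM B := by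
  ext1 a b
  exact map_sub (algebraMap ℚ (LaurentSeries ℚ)) (A a b) (B a b)

theorem cM_neg (A : Matrix ι κ ℚ) : cM (-A) = -cM A := by
  ext1 a b
  simp [cM_apply]

theorem cM_zero : cM (0 : Matrix ι κ ℚ) = 0 := by
  ext1 a b
  simp [cM_apply]

theorem cM_one [DecidableEq ι] : cM (1 : Matrix ι ι ℚ) = 1 := by
  ext1 a b
  rw [cM_apply, Matrix.one_apply, Matrix.one_apply]
  split_ifs <;> simp

theorem cM_mul [Fintype κ] (A : Matrix ι κ ℚ) (B : Matrix κ μ ℚ) :
    cM (A * B) = cM A * cM B := by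
  ext1 a b
  rw [cM_apply, Matrix.mul_apply, map_sum, Matrix.mul_apply]
  exact Finset.sum_congr rfl fun c _ => by rw [map_mul]; rfl

theorem cM_ratsmul (c : ℚ) (A : Matrix ι κ ℚ) : cM (c • A) = c • cM A := by
  ext1 a b
  have h : cM (c • A) a b = algebraMap ℚ (LaurentSeries ℚ) c * cM A a b :=
    map_mul (algebraMap ℚ (LaurentSeries ℚ)) c (A a b)
  rw [h, Matrix.smul_apply]
  ext n
  rw [algebraMap_eq_single, HahnSeries.coeff_single_zero_mul, HahnSeries.coeff_smul, smul_eq_mul]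

theorem isFund_iff [Fintype ι] {T : ℚ[X]} (hT : T ≠ 0) {A : Matrix ι ι ℚ[X]}
    {Y : Matrix ι ι (PowerSeries ℚ)} {N : Matrix ι ι ℚ} :
    IsFund T A Y N ↔ dM (pM Y) = ((emb T)⁻¹ • eM A) * pM Y + xx • (pM Y * cM N) := by
  have h0 : emb T ≠ 0 := by
    intro h
    exact hT (emb_injective (by rw [h, map_zero]))
  unfold IsFund
  constructor
  · intro h
    have h1 := congrArg (fun M => (emb T)⁻¹ • M) h
    simp only [smul_add, smul_smul, inv_mul_cancel₀ h0, one_smul, ← mul_assoc] at h1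
    rw [h1, one_mul, Matrix.smul_mul]
  · intro h
    rw [h, smul_add, smul_smul, Matrix.smul_mul, smul_smul, mul_inv_cancel₀ h0, one_smul]

end Pool.Agent.Helper79.GC
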