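import Pool.Agent.Helper79.GC.Base
import Pool.Agent.Helper37.GP.Lcm

/-!
# GC-06: binomial coefficients of a matrix with eigenvalues `0, ± 1/2`

`binm M n = M (M-1) ⋯ (M-n+1)/n!`.

* `beta_const`: `beta X (cX M) j = cX (binm M j)` (all are constant matrices).
* `pw_ode`: coefficientwise `(n+1) a^(n+1) binm(-ν)(n+1) + n a^(n+1)... `: from
  `(n+1) binm M (n+1) = binm M n (M - n)` one gets `(1 + a x) P' = - a ν P` (`' = d/dx`), and `dd = -x² d/dx`.
* `pw_gbound`: entries of `binm (-ν) n` are at most `C^n` (`‖M - n‖ ≤ (‖M‖+1)(n+1)` in the sup norm times the size).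
-/

open Polynomial

namespace Pool.Agent.Helper79.GC

open Pool.Agent.Helper37.GP

variable {ι : Type} [Fintype ι] [DecidableEq ι]

/-- The eigenvalues are `0`, `1/2`, `-1/2`. -/
def Half' (M : Matrix ι ι ℚ) : Prop :=
  ∃ m : ℕ, (M * ((2 : ℚ) • M - 1) * ((2 : ℚ) • M + 1)) ^ m = 0

theorem Half.half' {M : Matrix ι ι ℚ} (h : Half M) : Half' M := by
  obtain ⟨m, hm⟩ := h
  refine ⟨m, ?_⟩
  have hc : Commute (M * ((2 : ℚ) • M - 1)) ((2 : ℚ) • M + 1) := by
    unfold Commute SemiconjBy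
    simp only [mul_sub, mul_add, sub_mul, add_mul, mul_one, one_mul, Matrix.mul_smul,
      Matrix.smul_mul, mul_assoc]
    abel
  rw [hc.mul_pow, hm, zero_mul]

theorem Half.half'_neg {M : Matrix ι ι ℚ} (h : Half M) : Half' (-M) := by
  obtain ⟨m, hm⟩ := h.half'
  refine ⟨m, ?_⟩
  have he : (-M) * ((2 : ℚ) • (-M) - 1) * ((2 : ℚ) • (-M) + 1) =
      -(M * ((2 : ℚ) • M - 1) * ((2 : ℚ) • M + 1)) := by
    simp only [smul_neg, mul_sub, mul_add, sub_mul, mul_one, Matrix.mul_smul,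
      Matrix.smul_mul, mul_assoc, neg_mul, mul_neg, neg_neg]
    abel
  rw [he, neg_pow, hm, mul_zero]

theorem half_of_nilpotent {M : Matrix ι ι ℚ} (h : IsNilpotent M) : Half M := by
  obtain ⟨m, hm⟩ := h
  refine ⟨m, ?_⟩
  have hc : Commute M ((2 : ℚ) • M - 1) := by
    unfold Commute SemiconjBy
    simp only [mul_sub, sub_mul, mul_one, one_mul, Matrix.mul_smul, Matrix.smul_mul]
  rw [hc.mul_pow, hm, zero_mul]

/-- If `νl - νr` is nilpotent, commuting, the condition passes from `νl` to `νr`. -/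
theorem Half.of_sub {νl νr : Matrix ι ι ℚ} (h : Half νl) (hc : νl * νr = νr * νl)
    (hn : IsNilpotent (νl - νr)) : Half νr := by
  have h1 : IsNilpotent (νl * ((2 : ℚ) • νl - 1)) := h
  have hcc : Commute νl νr := hc
  have hlN : Commute νl (νl - νr) := (Commute.refl νl).sub_right hcc
  have hrN : Commute νr (νl - νr) := hcc.symm.sub_right (Commute.refl νr)
  have e : νr * ((2 : ℚ) • νr - 1) = νl * ((2 : ℚ) • νl - 1) +
      (νl - νr) * (1 - (2 : ℚ) • νl - (2 : ℚ) • νr) := by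
    simp only [mul_sub, sub_mul, mul_one, Matrix.mul_smul, hc]
    abel
  have hN2 : Commute (νl - νr) (1 - (2 : ℚ) • νl - (2 : ℚ) • νr) :=
    ((Commute.one_right _).sub_right (hlN.symm.smul_right _)).sub_right (hrN.symm.smul_right _)
  have h2 : IsNilpotent ((νl - νr) * (1 - (2 : ℚ) • νl - (2 : ℚ) • νr)) :=
    hN2.isNilpotent_mul_right hn
  have hll : Commute νl (νl * ((2 : ℚ) • νl - 1)) :=
    (Commute.refl νl).mul_right (((Commute.refl νl).smul_right _).sub_right (Commute.one_right _))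
  have hrl : Commute νr (νl * ((2 : ℚ) • νl - 1)) :=
    hcc.symm.mul_right ((hcc.symm.smul_right _).sub_right (Commute.one_right _))
  have h3 : Commute (νl * ((2 : ℚ) • νl - 1)) ((νl - νr) * (1 - (2 : ℚ) • νl - (2 : ℚ) • νr)) := by
    refine Commute.mul_right (hll.symm.sub_right hrl.symm) ?_
    exact ((Commute.one_right _).sub_right (hll.symm.smul_right _)).sub_right
      (hrl.symm.smul_right _)
  have h4 := h3.isNilpotent_add h1 h2
  rw [← e] at h4
  exact h4

omit [DecidableEq ι] in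
private theorem cX_mul' (A B : Matrix ι ι ℚ) : cX (A * B) = cX A * cX B := by
  ext1 a b
  rw [cX_apply, Matrix.mul_apply, map_sum, Matrix.mul_apply]
  exact Finset.sum_congr rfl fun c _ => by rw [map_mul]; rfl

theorem beta_const (M : Matrix ι ι ℚ) (j : ℕ) : beta X (cX M) j = cX (binm M j) := by
  induction j with
  | zero =>
    ext1 a b
    rw [cX_apply]
    unfold beta binm
    rw [Matrix.one_apply, Matrix.one_apply]
    split_ifs <;> simp
  | succ j ih =>
    have hb : beta X (cX M) (j + 1) = (C (((j : ℚ) + 1)⁻¹) : ℚ[X]) •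
        ((X : ℚ[X]) • (beta X (cX M) j).map derivative
        - ((j : ℚ[X]) * derivative X) • beta X (cX M) j + beta X (cX M) j * cX M) := rfl
    have hi : binm M (j + 1) = ((j : ℚ) + 1)⁻¹ • (binm M j * (M - (j : ℚ) • 1)) := rfl
    rw [hb, ih, hi, ← cX_mul']
    ext1 a b
    rw [cX_apply, Matrix.smul_apply, Matrix.add_apply, Matrix.sub_apply, Matrix.smul_apply,
      Matrix.smul_apply, Matrix.map_apply, cX_apply, cX_apply, Matrix.smul_apply, mul_sub,
      Matrix.sub_apply, Matrix.mul_smul, Matrix.smul_apply, mul_one]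
    simp only [derivative_C, derivative_X, smul_eq_mul, mul_zero, mul_one, map_mul, map_sub,
      map_natCast]
    ring

theorem binm_bound (M : Matrix ι ι ℚ) : ∃ C : ℕ, 1 ≤ C ∧ ∀ n a b,
    |binm M n a b| ≤ (C : ℚ) ^ (n + 1) := by
  obtain ⟨B, hB⟩ : ∃ B : ℕ, ∀ a b, |M a b| ≤ (B : ℚ) := by
    refine ⟨∑ a, ∑ b, ⌈|M a b|⌉₊, fun a b => ?_⟩
    refine (Nat.le_ceil _).trans ?_
    have h1 : ⌈|M a b|⌉₊ ≤ ∑ b, ⌈|M a b|⌉₊ :=
      Finset.single_le_sum (f := fun b => ⌈|M a b|⌉₊) (fun _ _ => Nat.zero_le _)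
        (Finset.mem_univ b)
    have h2 : ∑ b, ⌈|M a b|⌉₊ ≤ ∑ a, ∑ b, ⌈|M a b|⌉₊ :=
      Finset.single_le_sum (f := fun a => ∑ b, ⌈|M a b|⌉₊) (fun _ _ => Nat.zero_le _)
        (Finset.mem_univ a)
    exact_mod_cast h1.trans h2
  refine ⟨Fintype.card ι * (B + 1) + 1, by omega, fun n => ?_⟩
  induction n with
  | zero =>
    intro a b
    have h0 : binm M 0 = 1 := rfl
    rw [h0, Matrix.one_apply]
    have h1 : (1 : ℚ) ≤ ((Fintype.card ι * (B + 1) + 1 : ℕ) : ℚ) ^ (0 + 1) := by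
      rw [zero_add, pow_one]
      exact_mod_cast (by omega : 1 ≤ Fintype.card ι * (B + 1) + 1)
    split_ifs
    · rw [abs_one]; exact h1
    · rw [abs_zero]; linarith
  | succ n ih =>
    intro a b
    set K : ℚ := ((Fintype.card ι * (B + 1) + 1 : ℕ) : ℚ) with hK
    have hK0 : 0 ≤ K := by rw [hK]; positivity
    have hi : binm M (n + 1) = ((n : ℚ) + 1)⁻¹ • (binm M n * (M - (n : ℚ) • 1)) := rfl
    rw [hi, Matrix.smul_apply, Matrix.mul_apply, smul_eq_mul, abs_mul]
    have hn1 : (0 : ℚ) < (n : ℚ) + 1 := by positivity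
    rw [abs_of_pos (inv_pos.2 hn1)]
    have hterm : ∀ c, |binm M n a c * (M - (n : ℚ) • (1 : Matrix ι ι ℚ)) c b| ≤
        K ^ (n + 1) * (((B : ℚ) + 1) * ((n : ℚ) + 1)) := by
      intro c
      rw [abs_mul]
      refine mul_le_mul (ih a c) ?_ (abs_nonneg _) (pow_nonneg hK0 _)
      rw [Matrix.sub_apply, Matrix.smul_apply, smul_eq_mul]
      have h1 : |(1 : Matrix ι ι ℚ) c b| ≤ 1 := by
        rw [Matrix.one_apply]
        split_ifs <;> simp
      have h2 : |M c b - (n : ℚ) * (1 : Matrix ι ι ℚ) c b| ≤ |M c b| +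
          |(n : ℚ) * (1 : Matrix ι ι ℚ) c b| := abs_sub _ _
      have h3 : |(n : ℚ) * (1 : Matrix ι ι ℚ) c b| ≤ (n : ℚ) := by
        rw [abs_mul, abs_of_nonneg (Nat.cast_nonneg n : (0 : ℚ) ≤ n)]
        exact mul_le_of_le_one_right (Nat.cast_nonneg n) h1
      have h4 := hB c b
      have h5 : (0 : ℚ) ≤ (B : ℚ) * n := by positivity
      nlinarith
    have hsum : |∑ c, binm M n a c * (M - (n : ℚ) • (1 : Matrix ι ι ℚ)) c b| ≤
        Fintype.card ι * (K ^ (n + 1) * (((B : ℚ) + 1) * ((n : ℚ) + 1))) := by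
      refine (Finset.abs_sum_le_sum_abs _ _).trans ?_
      refine (Finset.sum_le_sum fun c _ => hterm c).trans ?_
      rw [Finset.sum_const, Finset.card_univ, nsmul_eq_mul]
    calc ((n : ℚ) + 1)⁻¹ * |∑ c, binm M n a c * (M - (n : ℚ) • (1 : Matrix ι ι ℚ)) c b|
        ≤ ((n : ℚ) + 1)⁻¹ * (Fintype.card ι * (K ^ (n + 1) * (((B : ℚ) + 1) * ((n : ℚ) + 1)))) :=
          mul_le_mul_of_nonneg_left hsum (inv_pos.2 hn1).le
      _ = (Fintype.card ι * ((B : ℚ) + 1)) * K ^ (n + 1) := by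
          field_simp
      _ ≤ K * K ^ (n + 1) := by
          refine mul_le_mul_of_nonneg_right ?_ (pow_nonneg hK0 _)
          rw [hK]
          push_cast
          linarith
      _ = K ^ (n + 1 + 1) := by rw [pow_succ' K (n + 1)]

theorem binm_comm {M N : Matrix ι ι ℚ} (h : M * N = N * M) (n : ℕ) :
    binm M n * N = N * binm M n := by
  have hc : Commute M N := h
  have : Commute (binm M n) N := by
    induction n with
    | zero => exact Commute.one_left N
    | succ n ih =>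
      have hi : binm M (n + 1) = ((n : ℚ) + 1)⁻¹ • (binm M n * (M - (n : ℚ) • 1)) := rfl
      rw [hi]
      refine Commute.smul_left ?_ _
      exact ih.mul_left (hc.sub_left ((Commute.one_left N).smul_left _))
  exact this

private theorem coeff_pw (a : ℕ) (ν : Matrix ι ι ℚ) (i j : ι) (n : ℕ) :
    PowerSeries.coeff n (pw a ν i j) = (a : ℚ) ^ n * binm (-ν) n i j := by
  unfold pw
  rw [Matrix.of_apply, PowerSeries.coeff_mk]

theorem coP_pw_zero (a : ℕ) (ν : Matrix ι ι ℚ) : coP 0 (pw a ν) = 1 := by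
  ext1 i j
  rw [coP_apply, coeff_pw, pow_zero, one_mul]
  rfl

private theorem pw_rec (ν : Matrix ι ι ℚ) (n : ℕ) (i j : ι) :
    ((n : ℚ) + 1) * binm (-ν) (n + 1) i j + (n : ℚ) * binm (-ν) n i j =
      -∑ k, ν i k * binm (-ν) n k j := by
  have hi : binm (-ν) (n + 1) = ((n : ℚ) + 1)⁻¹ • (binm (-ν) n * (-ν - (n : ℚ) • 1)) := rfl
  have hc : binm (-ν) n * ν = ν * binm (-ν) n := binm_comm (by rw [neg_mul, mul_neg]) n
  have hn1 : (n : ℚ) + 1 ≠ 0 := by positivity
  rw [hi, Matrix.smul_apply, smul_eq_mul, mul_inv_cancel_left₀ hn1, mul_sub, Matrix.sub_apply,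
    mul_neg, hc, Matrix.neg_apply, Matrix.mul_smul, Matrix.smul_apply, mul_one, smul_eq_mul,
    Matrix.mul_apply]
  ring

/-- `(s + a) s (d/ds) (s/(s+a))^ν = a ν (s/(s+a))^ν`. -/
theorem pw_ode (a : ℕ) (ν : Matrix ι ι ℚ) :
    (emb (X + C (a : ℚ)) * emb X) • dM (pM (pw a ν)) = (a : ℚ) • (cM ν * pM (pw a ν)) := by
  ext1 i j
  rw [Matrix.smul_apply, dM_apply, pM_apply, Matrix.smul_apply, Matrix.mul_apply, smul_eq_mul]
  ext n
  have hl : (emb (X + C (a : ℚ)) * emb X) * dd (ps (pw a ν i j)) =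
      HahnSeries.single (-2 : ℤ) (1 : ℚ) * dd (ps (pw a ν i j)) +
      HahnSeries.single (-1 : ℤ) (a : ℚ) * dd (ps (pw a ν i j)) := by
    rw [map_add, emb_C, emb_X, algebraMap_eq_single, add_mul, add_mul,
      HahnSeries.single_mul_single, HahnSeries.single_mul_single]
    norm_num
  have e2 : n = (n + 2) + (-2) := by ring
  have e1 : n = (n + 1) + (-1) := by ring
  have c2 : (HahnSeries.single (-2 : ℤ) (1 : ℚ) * dd (ps (pw a ν i j))).coeff n =
      (dd (ps (pw a ν i j))).coeff (n + 2) := by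
    conv_lhs => rw [e2]
    rw [HahnSeries.coeff_single_mul_add, one_mul]
  have c1 : (HahnSeries.single (-1 : ℤ) (a : ℚ) * dd (ps (pw a ν i j))).coeff n =
      (a : ℚ) * (dd (ps (pw a ν i j))).coeff (n + 1) := by
    conv_lhs => rw [e1]
    rw [HahnSeries.coeff_single_mul_add]
  rw [hl, HahnSeries.coeff_add, c2, c1, dd_coeff, dd_coeff, HahnSeries.coeff_smul,
    HahnSeries.coeff_sum, smul_eq_mul]
  have hs : ∀ k, (cM ν i k * pM (pw a ν) k j).coeff n = ν i k * (ps (pw a ν k j)).coeff n := by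
    intro k
    rw [cM_apply, pM_apply, algebraMap_eq_single, HahnSeries.coeff_single_zero_mul]
  rw [Finset.sum_congr rfl fun k _ => hs k]
  have t2 : n + 2 - 1 = n + 1 := by ring
  have t1 : n + 1 - 1 = n := by ring
  rw [t2, t1]
  rcases lt_trichotomy n (-1) with h | h | h
  · have z : ∀ k m, m < 0 → (ps (pw a ν k j)).coeff m = 0 := fun k m hm => by
      rw [ps_coeff, if_pos hm]
    rw [z i _ (by omega), z i _ (by omega), Finset.sum_congr rfl fun k _ => by
      rw [z k n (by omega)]]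
    simp
  · subst h
    have z : ∀ k, (ps (pw a ν k j)).coeff (-1) = 0 := fun k => by
      rw [ps_coeff, if_pos (by omega)]
    rw [z i, Finset.sum_congr rfl fun k _ => by rw [z k]]
    simp
  · obtain ⟨m, rfl⟩ : ∃ m : ℕ, n = (m : ℤ) := ⟨n.toNat, by omega⟩
    have z : ∀ k (m : ℕ), (ps (pw a ν k j)).coeff (m : ℤ) = (a : ℚ) ^ m * binm (-ν) m k j := by
      intro k m
      rw [ps_coeff, if_neg (by omega), Int.natAbs_natCast, coeff_pw]
    have z1 : (ps (pw a ν i j)).coeff ((m : ℤ) + 1) = (a : ℚ) ^ (m + 1) *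
        binm (-ν) (m + 1) i j := by
      have := z i (m + 1)
      rwa [Nat.cast_succ] at this
    rw [z1, z i m, Finset.sum_congr rfl fun k _ => by rw [z k m]]
    have hr := pw_rec ν m i j
    have hsum : ∑ k, ν i k * ((a : ℚ) ^ m * binm (-ν) m k j) =
        (a : ℚ) ^ m * ∑ k, ν i k * binm (-ν) m k j := by
      rw [Finset.mul_sum]
      exact Finset.sum_congr rfl fun k _ => by ring
    rw [hsum]
    push_cast
    have hr' : ∑ k, ν i k * binm (-ν) m k j =
      -(((m : ℚ) + 1) * binm (-ν) (m + 1) i j + (m : ℚ) * binm (-ν) m i j) := by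
      rw [hr, neg_neg]
    rw [hr']
    ring

theorem pw_comm (a : ℕ) {ν M : Matrix ι ι ℚ} (h : ν * M = M * ν) :
    pw a ν * cP M = cP M * pw a ν := by
  ext i j n
  rw [Matrix.mul_apply, Matrix.mul_apply, map_sum, map_sum]
  have hc : binm (-ν) n * M = M * binm (-ν) n := binm_comm (by rw [neg_mul, mul_neg, h]) n
  have hl : ∀ k, PowerSeries.coeff n (pw a ν i k * cP M k j) =
      (a : ℚ) ^ n * (binm (-ν) n i k * M k j) := by
    intro k
    rw [cP_apply, PowerSeries.coeff_mul_C, coeff_pw]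
    ring
  have hr : ∀ k, PowerSeries.coeff n (cP M i k * pw a ν k j) =
      (a : ℚ) ^ n * (M i k * binm (-ν) n k j) := by
    intro k
    rw [cP_apply, PowerSeries.coeff_C_mul, coeff_pw]
    ring
  rw [Finset.sum_congr rfl fun k _ => hl k, Finset.sum_congr rfl fun k _ => hr k,
    ← Finset.mul_sum, ← Finset.mul_sum, ← Matrix.mul_apply, ← Matrix.mul_apply, hc]

theorem pw_gbound (ν : Matrix ι ι ℚ) : ∃ C : ℕ, 1 ≤ C ∧ ∀ a : ℕ, ∀ i j,
    GBound (C * (a + 1)) (pw a ν i j) := by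
  obtain ⟨C, hC, hb⟩ := binm_bound (-ν)
  refine ⟨C, hC, fun a i j n => ?_⟩
  rw [coeff_pw, abs_mul, abs_of_nonneg (by positivity : (0 : ℚ) ≤ (a : ℚ) ^ n)]
  have h1 : (a : ℚ) ^ n ≤ ((a : ℚ) + 1) ^ (n + 1) := by
    calc (a : ℚ) ^ n ≤ ((a : ℚ) + 1) ^ n := pow_le_pow_left₀ (by positivity) (by linarith) _
      _ ≤ ((a : ℚ) + 1) ^ (n + 1) := pow_le_pow_right₀ (by
          have : (0 : ℚ) ≤ a := by positivity
          linarith) (by omega)
  calc (a : ℚ) ^ n * |binm (-ν) n i j| ≤ ((a : ℚ) + 1) ^ (n + 1) * (C : ℚ) ^ (n + 1) :=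
        mul_le_mul h1 (hb n i j) (abs_nonneg _) (by positivity)
    _ = ((C * (a + 1) : ℕ) : ℚ) ^ (n + 1) := by
        push_cast
        rw [mul_pow]
        ring

end Pool.Agent.Helper79.GC
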