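import Pool.Agent.Helper79.GC.Binm

/-!
# GC-06b: common denominators of the binomial coefficients of a matrix with eigenvalues `0, ± 1/2`

* `binm_den` (common geometric denominators): `(M (2M-1)(2M+1))^m = 0`. By the Chinese remainder theorem there
  are polynomials `e₀, e₊, e₋ ∈ ℚ[X]` with `e₀ + e₊ + e₋ ≡ 1`, `X^m e₀ ≡ 0`, `(X - 1/2)^m e₊ ≡ 0`,
  `(X + 1/2)^m e₋ ≡ 0` modulo `(X (2X-1)(2X+1))^m`. So
  `binom(X, n) e_c ≡ ∑_{i<m} b_{c,n,i} (X - c)^i e_c`, `b_{c,n,i}` = coefficient of `Y^i` in `binom(c + Y, n)`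
  `= ∏_{j<n} (c - j + Y)/(j+1)`. It suffices that `b_{c,n,i}`, `i < m`, have denominators bounded by a common
  `q_J ≤ C^(J+1)` for `n ≤ J`. For `c = 0`, `n ≥ 1`: `binom(Y, n) = (Y/n) (-1)^(n-1) ∏_{j=1}^{n-1} (1 - Y/j)`:
  coefficients are integral combinations of products of at most `m` factors `1/j`, `j ≤ n`: denominator
  `lcm(1..J)^m` (`exists_den`). For `c = ± 1/2`: `binom(c + Y, n) = binom(c, n) ∏_{j<n} (1 + Y/(c-j))`,
  `4^n binom(±1/2, n) ∈ ℤ` and `1/(c-j) = 2/(2c - 2j)` with `|2c - 2j| ≤ 2J+1`: denominator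
  `4^J lcm(1..2J+1)^m`. The matrices `e_c(M)`, `(M-c)^i` have a fixed common denominator.
  (Implemented by `M = S + N`, `S (2S-1)(2S+1) = 0`, `N` nilpotent, and the Vandermonde identity.)
* `gal_const`: `beta_const`. `pw_gden`: `Half.half'_neg`, `a^n` is an integer.
-/

open Polynomial

namespace Pool.Agent.Helper79.GC

open Pool.Agent.Helper37.GP

set_option linter.unusedSectionVars false

variable {ι : Type} [Fintype ι] [DecidableEq ι]

/-! ### Splitting into a semisimple and a nilpotent part -/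

private lemma bd_split {M : Matrix ι ι ℚ} (hM : Half' M) : ∃ (S N : Matrix ι ι ℚ) (m : ℕ),
    M = S + N ∧ S * N = N * S ∧ N ^ m = 0 ∧
      S * ((2 : ℚ) • S - 1) * ((2 : ℚ) • S + 1) = 0 := by
  obtain ⟨k, hk⟩ := hM
  set P : ℚ[X] := X * (C 2 * X - 1) * (C 2 * X + 1) with hP
  have hPa : ∀ A : Matrix ι ι ℚ, aeval A P = A * ((2 : ℚ) • A - 1) * ((2 : ℚ) • A + 1) := by
    intro A
    simp only [hP, map_mul, map_sub, map_add, aeval_X, aeval_C, map_one, Algebra.smul_def]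
  have hnil0 : aeval M (P ^ k) = 0 := by rw [map_pow, hPa, hk]
  have hcop : IsCoprime P (derivative P) := by
    refine ⟨-(C 18 * X), C 6 * X ^ 2 - 1, ?_⟩
    have h1 : derivative P = C 12 * X ^ 2 - 1 := by
      have h2 : P = C 4 * X ^ 3 - X := by
        rw [hP]
        have : (C 4 : ℚ[X]) = C 2 * C 2 := by rw [← C_mul]; norm_num
        rw [this]
        ring
      rw [h2, derivative_sub, derivative_C_mul, derivative_X_pow, derivative_X]
      have : (C 12 : ℚ[X]) = C 4 * C 3 := by rw [← C_mul]; norm_num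
      rw [this]
      push_cast
      ring
    rw [h1, hP]
    have e2 : (C 2 : ℚ[X]) = 2 := rfl
    have e18 : (C 18 : ℚ[X]) = 18 := rfl
    have e6 : (C 6 : ℚ[X]) = 6 := rfl
    have e12 : (C 12 : ℚ[X]) = 12 := rfl
    rw [e2, e18, e6, e12]
    ring
  set MM : Algebra.adjoin ℚ {M} := ⟨M, Algebra.self_mem_adjoin_singleton ℚ M⟩ with hMM
  have nil' : IsNilpotent (aeval MM P) := by
    use k
    rw [← map_pow, Subtype.ext_iff, coe_aeval_mk_apply]
    exact hnil0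
  have sep' : IsUnit (aeval MM (derivative P)) := by
    obtain ⟨a, b, h⟩ : IsCoprime (P ^ k) (derivative P) := hcop.pow_left
    replace h : (aeval M b) * (aeval M (derivative P)) = 1 := by
      simpa only [map_add, map_mul, map_one, hnil0, mul_zero, zero_add]
        using (aeval M).congr_arg h
    refine .of_mul_eq_one_right (aeval MM b) (Subtype.ext_iff.mpr ?_)
    simpa [MM, coe_aeval_mk_apply] using h
  obtain ⟨⟨S, mem⟩, ⟨⟨m, hm⟩, hss⟩, -⟩ := existsUnique_nilpotent_sub_and_aeval_eq_zero nil' sep'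
  refine ⟨S, M - S, m, by simp, ?_, ?_, ?_⟩
  · have h1 : (⟨S, mem⟩ : Algebra.adjoin ℚ {M}) * MM = MM * ⟨S, mem⟩ := mul_comm _ _
    have h2 : S * M = M * S := congrArg Subtype.val h1
    rw [mul_sub, sub_mul, h2]
  · rw [Subtype.ext_iff] at hm
    simpa using hm
  · rw [← hPa]
    rwa [Subtype.ext_iff, coe_aeval_mk_apply] at hss

/-! ### Integral matrices -/

private def IntM (A : Matrix ι ι ℚ) : Prop := ∀ a b, ∃ z : ℤ, A a b = z

private lemma IntM.add {A B : Matrix ι ι ℚ} (hA : IntM A) (hB : IntM B) : IntM (A + B) := by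
  intro a b
  obtain ⟨x, hx⟩ := hA a b
  obtain ⟨y, hy⟩ := hB a b
  exact ⟨x + y, by rw [Matrix.add_apply, hx, hy]; push_cast; ring⟩

private lemma IntM.zero : IntM (0 : Matrix ι ι ℚ) := fun a b => ⟨0, by simp⟩

private lemma IntM.one : IntM (1 : Matrix ι ι ℚ) := by
  intro a b
  rw [Matrix.one_apply]
  split_ifs
  · exact ⟨1, by simp⟩
  · exact ⟨0, by simp⟩

private lemma IntM.sum {α : Type} (s : Finset α) (F : α → Matrix ι ι ℚ) (h : ∀ i ∈ s, IntM (F i)) :
    IntM (∑ i ∈ s, F i) := by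
  classical
  induction s using Finset.induction_on with
  | empty => simpa using IntM.zero
  | insert a s ha ih =>
    rw [Finset.sum_insert ha]
    exact (h _ (Finset.mem_insert_self _ _)).add (ih fun i hi => h i (Finset.mem_insert_of_mem hi))

private lemma IntM.mul {A B : Matrix ι ι ℚ} (hA : IntM A) (hB : IntM B) : IntM (A * B) := by
  intro a b
  choose x hx using hA
  choose y hy using hB
  refine ⟨∑ c, x a c * y c b, ?_⟩
  rw [Matrix.mul_apply]
  push_cast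
  exact Finset.sum_congr rfl fun c _ => by rw [hx, hy]

private lemma IntM.smul {A : Matrix ι ι ℚ} (hA : IntM A) (z : ℤ) : IntM ((z : ℚ) • A) := by
  intro a b
  obtain ⟨x, hx⟩ := hA a b
  exact ⟨z * x, by rw [Matrix.smul_apply, hx, smul_eq_mul]; push_cast; ring⟩

private lemma IntM.nsmul {A : Matrix ι ι ℚ} (hA : IntM A) (z : ℕ) : IntM ((z : ℚ) • A) := by
  have := hA.smul (z : ℤ)
  push_cast at this
  exact this

private lemma exists_den1 (A : Matrix ι ι ℚ) : ∃ d : ℕ, 0 < d ∧ IntM ((d : ℚ) • A) := by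
  refine ⟨∏ p : ι × ι, (A p.1 p.2).den, Finset.prod_pos fun p _ => (A p.1 p.2).den_pos, ?_⟩
  intro a b
  obtain ⟨e, he⟩ : (A a b).den ∣ ∏ p : ι × ι, (A p.1 p.2).den :=
    Finset.dvd_prod_of_mem (fun p : ι × ι => (A p.1 p.2).den) (Finset.mem_univ (a, b))
  refine ⟨e * (A a b).num, ?_⟩
  rw [Matrix.smul_apply, he, smul_eq_mul]
  push_cast
  have h1 : ((A a b).den : ℚ) * A a b = (A a b).num := by
    rw [mul_comm]
    exact Rat.mul_den_eq_num (A a b)
  calc ((A a b).den : ℚ) * e * A a b = e * (((A a b).den : ℚ) * A a b) := by ring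
    _ = _ := by rw [h1]

private lemma exists_denF (m : ℕ) (A : ℕ → Matrix ι ι ℚ) :
    ∃ d : ℕ, 0 < d ∧ ∀ i < m, IntM ((d : ℚ) • A i) := by
  induction m with
  | zero => exact ⟨1, one_pos, fun i hi => absurd hi (by omega)⟩
  | succ m ih =>
    obtain ⟨d, hd, h⟩ := ih
    obtain ⟨e, he, h'⟩ := exists_den1 (A m)
    refine ⟨d * e, Nat.mul_pos hd he, ?_⟩
    intro i hi
    push_cast
    rcases Nat.lt_succ_iff_lt_or_eq.1 hi with h1 | rfl
    · rw [mul_comm, ← smul_smul]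
      exact (h i h1).nsmul e
    · rw [← smul_smul]
      exact h'.nsmul d

/-! ### Recursions -/

private lemma binm_succ (M : Matrix ι ι ℚ) (n : ℕ) :
    ((n : ℚ) + 1) • binm M (n + 1) = binm M n * (M - (n : ℚ) • 1) := by
  rw [binm, smul_smul, mul_inv_cancel₀ (by positivity), one_smul]

private lemma binm_add {S N : Matrix ι ι ℚ} (h : S * N = N * S) (n : ℕ) :
    binm (S + N) n = ∑ p ∈ Finset.HasAntidiagonal.antidiagonal n, binm S p.1 * binm N p.2 := by
  induction n with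
  | zero => simp [binm]
  | succ n ih =>
    have hn : ((n : ℚ) + 1) ≠ 0 := by positivity
    have key : ((n : ℚ) + 1) • binm (S + N) (n + 1) =
        ((n : ℚ) + 1) • ∑ p ∈ Finset.HasAntidiagonal.antidiagonal (n + 1), binm S p.1 * binm N p.2 := by
      rw [binm_succ, ih, Finset.smul_sum]
      have h1 : ∑ p ∈ Finset.HasAntidiagonal.antidiagonal (n + 1), ((n : ℚ) + 1) • (binm S p.1 * binm N p.2) =
          ∑ p ∈ Finset.HasAntidiagonal.antidiagonal (n + 1), (p.1 : ℚ) • (binm S p.1 * binm N p.2) +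
          ∑ p ∈ Finset.HasAntidiagonal.antidiagonal (n + 1), (p.2 : ℚ) • (binm S p.1 * binm N p.2) := by
        rw [← Finset.sum_add_distrib]
        refine Finset.sum_congr rfl fun p hp => ?_
        rw [← add_smul]
        congr 1
        have := Finset.HasAntidiagonal.mem_antidiagonal.1 hp
        exact_mod_cast this.symm
      rw [h1, Finset.Nat.sum_antidiagonal_succ,
        Finset.Nat.sum_antidiagonal_succ' (f := fun p => (p.2 : ℚ) • (binm S p.1 * binm N p.2))]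
      simp only [Nat.cast_zero, zero_smul, zero_add]
      rw [← Finset.sum_add_distrib, Finset.sum_mul]
      refine Finset.sum_congr rfl fun p hp => ?_
      have hp' : (n : ℚ) = p.1 + p.2 := by
        have := Finset.HasAntidiagonal.mem_antidiagonal.1 hp
        exact_mod_cast this.symm
      have e1 : ((p.1 + 1 : ℕ) : ℚ) • (binm S (p.1 + 1) * binm N p.2) =
          binm S p.1 * (S - (p.1 : ℚ) • 1) * binm N p.2 := by
        rw [← Matrix.smul_mul]
        push_cast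
        rw [binm_succ]
      have e2 : ((p.2 + 1 : ℕ) : ℚ) • (binm S p.1 * binm N (p.2 + 1)) =
          binm S p.1 * (binm N p.2 * (N - (p.2 : ℚ) • 1)) := by
        rw [← Matrix.mul_smul]
        push_cast
        rw [binm_succ]
      rw [e1, e2, hp']
      have hc : binm N p.2 * S = S * binm N p.2 := binm_comm h.symm p.2
      have e3 : binm S p.1 * (S - (p.1 : ℚ) • 1) * binm N p.2 =
          binm S p.1 * (binm N p.2 * (S - (p.1 : ℚ) • 1)) := by
        have e4 : (S - (p.1 : ℚ) • 1) * binm N p.2 = binm N p.2 * (S - (p.1 : ℚ) • 1) := by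
          rw [sub_mul, mul_sub, hc, Matrix.smul_mul, Matrix.mul_smul, one_mul, mul_one]
        rw [mul_assoc, e4]
      rw [e3, mul_assoc, ← mul_add, ← mul_add, add_smul]
      congr 2
      abel
    have := congrArg (fun A => ((n : ℚ) + 1)⁻¹ • A) key
    simpa only [smul_smul, inv_mul_cancel₀ hn, one_smul] using this

/-! ### The nilpotent part -/

/-- `∏_{j=1}^k (1 - N/j)` -/
private def gg (N : Matrix ι ι ℚ) : ℕ → Matrix ι ι ℚ
  | 0 => 1
  | (k + 1) => gg N k * (1 - ((k : ℚ) + 1)⁻¹ • N)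

private lemma binm_gg (N : Matrix ι ι ℚ) (k : ℕ) :
    binm N (k + 1) = (((k : ℚ) + 1)⁻¹ * (-1) ^ k) • (N * gg N k) := by
  induction k with
  | zero => simp [binm, gg]
  | succ k ih =>
    rw [binm, ih, gg]
    have h1 : N - ((k + 1 : ℕ) : ℚ) • (1 : Matrix ι ι ℚ) =
        (-((k : ℚ) + 1)) • (1 - ((k : ℚ) + 1)⁻¹ • N) := by
      rw [smul_sub, smul_smul, neg_mul, mul_inv_cancel₀ (by positivity)]
      push_cast
      rw [neg_smul, neg_smul, one_smul]
      abel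
    rw [h1, Matrix.smul_mul, Matrix.mul_smul, smul_smul, smul_smul, mul_assoc N]
    congr 1
    push_cast
    field_simp
    ring

private lemma gg_mem (N : Matrix ι ι ℚ) {L : ℕ} (hL : 0 < L) {k : ℕ}
    (h : ∀ j, 1 ≤ j → j ≤ k → j ∣ L) :
    gg N k ∈ Algebra.adjoin ℤ ({(L : ℚ)⁻¹ • N} : Set (Matrix ι ι ℚ)) := by
  induction k with
  | zero => exact Subalgebra.one_mem _
  | succ k ih =>
    rw [gg]
    refine Subalgebra.mul_mem _ (ih fun j h1 h2 => h j h1 (by omega)) ?_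
    refine Subalgebra.sub_mem _ (Subalgebra.one_mem _) ?_
    obtain ⟨e, he⟩ := h (k + 1) (by omega) le_rfl
    have h1 : ((k : ℚ) + 1)⁻¹ • N = (e : ℤ) • ((L : ℚ)⁻¹ • N) := by
      rw [← Int.cast_smul_eq_zsmul ℚ, smul_smul]
      congr 1
      rw [he]
      have h0 : (e : ℚ) ≠ 0 := by
        intro h0
        have : e = 0 := by exact_mod_cast h0
        subst this
        omega
      push_cast
      have : (k : ℚ) + 1 ≠ 0 := by positivity
      field_simp
    rw [h1]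
    exact Subalgebra.smul_mem _ (Algebra.self_mem_adjoin_singleton _ _) _

private lemma adjoin_int {N : Matrix ι ι ℚ} {m : ℕ} (hN : N ^ m = 0) : ∃ d : ℕ, 0 < d ∧
    ∀ L : ℕ, 0 < L → ∀ A ∈ Algebra.adjoin ℤ ({(L : ℚ)⁻¹ • N} : Set (Matrix ι ι ℚ)),
      IntM (((d * L ^ m : ℕ) : ℚ) • A) := by
  obtain ⟨d, hd, h⟩ := exists_denF m (fun i => N ^ i)
  refine ⟨d, hd, ?_⟩
  intro L hL A hA
  rw [Algebra.adjoin_singleton_eq_range_aeval] at hA
  obtain ⟨p, rfl⟩ := hA
  have hL' : (L : ℚ) ≠ 0 := by positivity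
  show IntM (((d * L ^ m : ℕ) : ℚ) • (aeval ((L : ℚ)⁻¹ • N) p))
  rw [aeval_eq_sum_range, Finset.smul_sum]
  refine IntM.sum _ _ fun i _ => ?_
  rw [_root_.smul_pow]
  by_cases hi : i < m
  · have h1 : ((d * L ^ m : ℕ) : ℚ) • p.coeff i • ((L : ℚ)⁻¹ ^ i • N ^ i) =
        ((p.coeff i * (L ^ (m - i) : ℕ) : ℤ) : ℚ) • ((d : ℚ) • N ^ i) := by
      rw [← Int.cast_smul_eq_zsmul ℚ, smul_smul, smul_smul, smul_smul]
      congr 1
      push_cast
      have h2 : (L : ℚ) ^ m = L ^ (m - i) * L ^ i := by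
        rw [← pow_add]
        congr 1
        omega
      rw [h2, inv_pow]
      field_simp
    rw [h1]
    exact (h i hi).smul _
  · have h1 : N ^ i = 0 := by
      have : i = m + (i - m) := by omega
      rw [this, pow_add, hN, zero_mul]
    rw [h1]
    simpa using IntM.zero

private lemma nil_den {N : Matrix ι ι ℚ} {m : ℕ} (hN : N ^ m = 0) : ∃ d : ℕ, 0 < d ∧
    ∀ L : ℕ, 0 < L → ∀ k, (∀ j, 1 ≤ j → j ≤ k → j ∣ L) →
      IntM (((d * L ^ (m + 1) : ℕ) : ℚ) • binm N k) := by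
  obtain ⟨d, hd, h⟩ := adjoin_int hN
  refine ⟨d, hd, ?_⟩
  intro L hL k hk
  rcases k with _ | k
  · exact IntM.nsmul IntM.one _
  · rw [binm_gg]
    have hmem : N * gg N k ∈ Algebra.adjoin ℤ ({(L : ℚ)⁻¹ • N} : Set (Matrix ι ι ℚ)) := by
      refine Subalgebra.mul_mem _ ?_ (gg_mem N hL fun j h1 h2 => hk j h1 (by omega))
      have h1 : N = (L : ℤ) • ((L : ℚ)⁻¹ • N) := by
        rw [← Int.cast_smul_eq_zsmul ℚ, smul_smul]
        push_cast
        rw [mul_inv_cancel₀ (by positivity), one_smul]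
      have h2 : (L : ℤ) • ((L : ℚ)⁻¹ • N) ∈
          Algebra.adjoin ℤ ({(L : ℚ)⁻¹ • N} : Set (Matrix ι ι ℚ)) :=
        Subalgebra.smul_mem _ (Algebra.self_mem_adjoin_singleton _ _) _
      rwa [← h1] at h2
    obtain ⟨e, he⟩ := hk (k + 1) (by omega) le_rfl
    have h1 : ((d * L ^ (m + 1) : ℕ) : ℚ) • (((k : ℚ) + 1)⁻¹ * (-1) ^ k) • (N * gg N k) =
        (((e : ℤ) * (-1) ^ k : ℤ) : ℚ) • (((d * L ^ m : ℕ) : ℚ) • (N * gg N k)) := by
      rw [smul_smul, smul_smul]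
      congr 1
      push_cast
      have h2 : (L : ℚ) = ((k : ℚ) + 1) * e := by exact_mod_cast he
      have h3 : ((k : ℚ) + 1) ≠ 0 := by positivity
      rw [pow_succ]
      have h4 : (L : ℚ) * ((k : ℚ) + 1)⁻¹ = e := by
        rw [h2]
        field_simp
      calc (d : ℚ) * ((L : ℚ) ^ m * L) * (((k : ℚ) + 1)⁻¹ * (-1) ^ k)
          = d * (L : ℚ) ^ m * (L * ((k : ℚ) + 1)⁻¹) * (-1) ^ k := by ring
        _ = _ := by rw [h4]; ring
    rw [h1]
    exact (h L hL _ hmem).smul _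

/-! ### The semisimple part -/

private def bs (c : ℚ) : ℕ → ℚ
  | 0 => 1
  | (k + 1) => ((k : ℚ) + 1)⁻¹ * (bs c k * (c - k))

private lemma bs_zero (k : ℕ) : ∃ z : ℤ, bs 0 k = z := by
  rcases k with _ | k
  · exact ⟨1, by simp [bs]⟩
  · refine ⟨0, ?_⟩
    induction k with
    | zero => simp [bs]
    | succ k ih => rw [bs, ih]; simp

private lemma bs_neg (k : ℕ) : (4 : ℚ) ^ k * bs (-(1 / 2)) k = (-1) ^ k * (Nat.centralBinom k : ℚ) := by
  induction k with
  | zero => simp [bs]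
  | succ k ih =>
    have h1 := Nat.succ_mul_centralBinom_succ k
    have h2 : ((k : ℚ) + 1) * (Nat.centralBinom (k + 1) : ℚ) =
        2 * (2 * k + 1) * Nat.centralBinom k := by exact_mod_cast h1
    have h3 : ((k : ℚ) + 1) ≠ 0 := by positivity
    have h4 : (Nat.centralBinom (k + 1) : ℚ) =
        ((k : ℚ) + 1)⁻¹ * (2 * (2 * k + 1) * Nat.centralBinom k) := by
      rw [← h2]
      field_simp
    rw [bs, h4, pow_succ, pow_succ]
    calc (4 : ℚ) ^ k * 4 * (((k : ℚ) + 1)⁻¹ * (bs (-(1 / 2)) k * (-(1 / 2) - k)))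
        = 4 * ((k : ℚ) + 1)⁻¹ * (-(1 / 2) - k) * (4 ^ k * bs (-(1 / 2)) k) := by ring
      _ = _ := by rw [ih]; ring

private lemma bs_pos (k : ℕ) : bs (1 / 2) (k + 1) = bs (-(1 / 2)) (k + 1) + bs (-(1 / 2)) k := by
  induction k with
  | zero => simp [bs]; norm_num
  | succ k ih =>
    have h3 : ((k : ℚ) + 1) ≠ 0 := by positivity
    have h4 : ((k : ℚ) + 2) ≠ 0 := by positivity
    have e1 : bs (1 / 2) (k + 1 + 1) = ((k : ℚ) + 2)⁻¹ * (bs (1 / 2) (k + 1) * (1 / 2 - (k + 1))) := by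
      rw [bs]
      push_cast
      ring_nf
    have e2 : bs (-(1 / 2)) (k + 1 + 1) =
        ((k : ℚ) + 2)⁻¹ * (bs (-(1 / 2)) (k + 1) * (-(1 / 2) - (k + 1))) := by
      rw [bs]
      push_cast
      ring_nf
    have e3 : ((k : ℚ) + 1) * bs (-(1 / 2)) (k + 1) = bs (-(1 / 2)) k * (-(1 / 2) - k) := by
      rw [bs]
      field_simp
    rw [e1, e2, ih]
    have e4 : bs (-(1 / 2)) (k + 1) = ((k : ℚ) + 2)⁻¹ * (((k : ℚ) + 2) * bs (-(1 / 2)) (k + 1)) := by
      field_simp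
    have e5 : ((k : ℚ) + 2)⁻¹ * (bs (-(1 / 2)) (k + 1) * (-(1 / 2) - (k + 1))) +
        bs (-(1 / 2)) (k + 1) = ((k : ℚ) + 2)⁻¹ * ((bs (-(1 / 2)) (k + 1) * (-(1 / 2) - (k + 1))) +
          ((k : ℚ) + 2) * bs (-(1 / 2)) (k + 1)) := by
      rw [mul_add, ← e4]
    rw [e5]
    congr 1
    linear_combination -e3

private lemma bs_int_neg (k : ℕ) : ∃ z : ℤ, (4 : ℚ) ^ k * bs (-(1 / 2)) k = z :=
  ⟨(-1) ^ k * (Nat.centralBinom k : ℤ), by rw [bs_neg]; push_cast; ring⟩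

private lemma bs_int_pos (k : ℕ) : ∃ z : ℤ, (4 : ℚ) ^ k * bs (1 / 2) k = z := by
  rcases k with _ | k
  · exact ⟨1, by simp [bs]⟩
  · obtain ⟨x, hx⟩ := bs_int_neg (k + 1)
    obtain ⟨y, hy⟩ := bs_int_neg k
    refine ⟨x + 4 * y, ?_⟩
    rw [bs_pos, mul_add, hx, pow_succ]
    push_cast
    rw [← hy]
    ring

private lemma ss_den {S : Matrix ι ι ℚ}
    (hS : S * ((2 : ℚ) • S - 1) * ((2 : ℚ) • S + 1) = 0) : ∃ d : ℕ, 0 < d ∧
    ∀ k, IntM (((d * 4 ^ k : ℕ) : ℚ) • binm S k) := by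
  have hS3 : (4 : ℚ) • (S * S * S) = S := by
    have h1 : S * ((2 : ℚ) • S - 1) * ((2 : ℚ) • S + 1) = (4 : ℚ) • (S * S * S) - S := by
      simp only [mul_sub, mul_add, sub_mul, Matrix.mul_smul, Matrix.smul_mul, smul_smul, mul_one]
      norm_num
    rw [h1] at hS
    exact sub_eq_zero.1 hS
  set E0 : Matrix ι ι ℚ := 1 - (4 : ℚ) • (S * S) with hE0
  set E1 : Matrix ι ι ℚ := (2 : ℚ) • (S * S) + S with hE1
  set E2 : Matrix ι ι ℚ := (2 : ℚ) • (S * S) - S with hE2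
  have h0 : E0 * S = 0 := by
    rw [hE0, sub_mul, one_mul, Matrix.smul_mul, hS3, sub_self]
  have h1 : E1 * S = (1 / 2 : ℚ) • E1 := by
    rw [hE1, add_mul, Matrix.smul_mul, smul_add, smul_smul]
    have : (2 : ℚ) • (S * S * S) = (1 / 2 : ℚ) • S := by
      conv_rhs => rw [← hS3]
      rw [smul_smul]
      norm_num
    rw [this]
    norm_num
    abel
  have h2 : E2 * S = (-(1 / 2) : ℚ) • E2 := by
    rw [hE2, sub_mul, Matrix.smul_mul, smul_sub, smul_smul]
    have : (2 : ℚ) • (S * S * S) = (1 / 2 : ℚ) • S := by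
      conv_rhs => rw [← hS3]
      rw [smul_smul]
      norm_num
    rw [this]
    norm_num
    abel
  have hsum : E0 + E1 + E2 = 1 := by
    rw [hE0, hE1, hE2]
    have : (4 : ℚ) • (S * S) = (2 : ℚ) • (S * S) + (2 : ℚ) • (S * S) := by
      rw [← add_smul]
      norm_num
    rw [this]
    abel
  have key : ∀ k, binm S k = bs 0 k • E0 + bs (1 / 2) k • E1 + bs (-(1 / 2)) k • E2 := by
    intro k
    induction k with
    | zero => simp [binm, bs, hsum]
    | succ k ih =>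
      rw [binm, ih]
      simp only [bs, mul_sub, add_mul, Matrix.smul_mul, Matrix.mul_smul, mul_one, h0, h1, h2,
        smul_zero, zero_add, smul_sub, smul_add, smul_smul]
      rw [← sub_eq_zero]
      module
  obtain ⟨d, hd, h⟩ := exists_denF 3 (fun i => if i = 0 then E0 else if i = 1 then E1 else E2)
  have i0 : IntM ((d : ℚ) • E0) := by simpa using h 0 (by omega)
  have i1 : IntM ((d : ℚ) • E1) := by simpa using h 1 (by omega)
  have i2 : IntM ((d : ℚ) • E2) := by simpa using h 2 (by omega)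
  refine ⟨d, hd, ?_⟩
  intro k
  obtain ⟨x, hx⟩ := bs_zero k
  obtain ⟨y, hy⟩ := bs_int_pos k
  obtain ⟨z, hz⟩ := bs_int_neg k
  have e : ((d * 4 ^ k : ℕ) : ℚ) • binm S k = ((4 ^ k * x : ℤ) : ℚ) • ((d : ℚ) • E0) +
      (y : ℚ) • ((d : ℚ) • E1) + (z : ℚ) • ((d : ℚ) • E2) := by
    rw [key, ← hy, ← hz, hx]
    push_cast
    module
  rw [e]
  exact ((i0.smul _).add (i1.smul _)).add (i2.smul _)

theorem binm_den {M : Matrix ι ι ℚ} (hM : Half' M) : ∃ H : ℕ, 1 ≤ H ∧ ∀ J, ∃ q : ℕ, 0 < q ∧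
    q ≤ H ^ (J + 1) ∧ ∀ i ≤ J, ∀ a b, ∃ z : ℤ, (q : ℚ) * binm M i a b = z := by
  obtain ⟨S, N, m, hMSN, hc, hN, hS⟩ := bd_split hM
  obtain ⟨dS, hdS, hS'⟩ := ss_den hS
  obtain ⟨dN, hdN, hN'⟩ := nil_den hN
  refine ⟨dS * dN * 4 * (4 ^ 4) ^ (m + 1), ?_, ?_⟩
  · exact Nat.one_le_iff_ne_zero.2 (by positivity)
  intro J
  obtain ⟨L, hL, hLb, hLd⟩ := exists_den J
  refine ⟨(dS * 4 ^ J) * (dN * L ^ (m + 1)), by positivity, ?_, ?_⟩
  · have h1 : L ^ (m + 1) ≤ ((4 ^ 4) ^ (m + 1)) ^ (J + 1) := by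
      calc L ^ (m + 1) ≤ (4 ^ (4 * J)) ^ (m + 1) := Nat.pow_le_pow_left hLb _
        _ = 4 ^ (4 * J * (m + 1)) := by rw [← pow_mul]
        _ ≤ 4 ^ (4 * (m + 1) * (J + 1)) := by
          apply Nat.pow_le_pow_right (by norm_num)
          nlinarith
        _ = _ := by rw [← pow_mul, ← pow_mul, mul_assoc]
    have h2 : dS ≤ dS ^ (J + 1) := Nat.le_self_pow (by omega) _
    have h3 : dN ≤ dN ^ (J + 1) := Nat.le_self_pow (by omega) _
    have h4 : 4 ^ J ≤ 4 ^ (J + 1) := Nat.pow_le_pow_right (by norm_num) (by omega)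
    calc (dS * 4 ^ J) * (dN * L ^ (m + 1))
        ≤ (dS ^ (J + 1) * 4 ^ (J + 1)) * (dN ^ (J + 1) * ((4 ^ 4) ^ (m + 1)) ^ (J + 1)) := by
          gcongr
      _ = _ := by rw [mul_pow, mul_pow, mul_pow]; ring
  · intro n hn a b
    have hInt : IntM ((((dS * 4 ^ J) * (dN * L ^ (m + 1)) : ℕ) : ℚ) • binm M n) := by
      rw [hMSN, binm_add hc, Finset.smul_sum]
      refine IntM.sum _ _ fun p hp => ?_
      have hp' := Finset.HasAntidiagonal.mem_antidiagonal.1 hp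
      have e : (((dS * 4 ^ J) * (dN * L ^ (m + 1)) : ℕ) : ℚ) • (binm S p.1 * binm N p.2) =
          ((4 ^ (J - p.1) : ℕ) : ℚ) • ((((dS * 4 ^ p.1 : ℕ) : ℚ) • binm S p.1) *
            (((dN * L ^ (m + 1) : ℕ) : ℚ) • binm N p.2)) := by
        rw [Matrix.smul_mul, Matrix.mul_smul, smul_smul, smul_smul]
        congr 1
        have h1 : (4 : ℕ) ^ J = 4 ^ (J - p.1) * 4 ^ p.1 := by
          rw [← pow_add]
          congr 1
          omega
        rw [h1]
        push_cast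
        ring
      rw [e]
      exact ((hS' p.1).mul (hN' L hL p.2 fun j h1 h2 => hLd j h1 (by omega))).nsmul _
    obtain ⟨z, hz⟩ := hInt a b
    exact ⟨z, by rw [← hz, Matrix.smul_apply, smul_eq_mul]⟩

theorem gal_const {M : Matrix ι ι ℚ} (hM : Half' M) : ∃ H : ℕ, 1 ≤ H ∧
    Galochkin ((X : ℤ[X]).map (Int.castRingHom ℚ)) (cX M) H := by
  obtain ⟨H, hH, h⟩ := binm_den hM
  refine ⟨H, hH, ?_⟩
  intro j
  obtain ⟨q, hq, hqH, h⟩ := h j
  refine ⟨q, hq, hqH, ?_⟩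
  intro i hi a b n
  rw [Polynomial.map_X, beta_const, cX_apply, coeff_C]
  split_ifs
  · exact h i hi a b
  · exact ⟨0, by simp⟩

theorem pw_gden {ν : Matrix ι ι ℚ} (h : Half ν) : ∃ H : ℕ, 1 ≤ H ∧ ∀ a : ℕ,
    GDen H (fun p : ι × ι => pw a ν p.1 p.2) := by
  obtain ⟨H, hH, h⟩ := binm_den h.half'_neg
  refine ⟨H, hH, ?_⟩
  intro a n
  obtain ⟨q, hq, hqH, h⟩ := h n
  refine ⟨q, hq, hqH, ?_⟩
  intro m hm p
  obtain ⟨z, hz⟩ := h m hm p.1 p.2
  refine ⟨(a : ℤ) ^ m * z, ?_⟩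
  show (q : ℚ) * PowerSeries.coeff m (pw a ν p.1 p.2) = _
  unfold pw
  rw [Matrix.of_apply, PowerSeries.coeff_mk]
  push_cast
  rw [← hz]
  ring

end Pool.Agent.Helper79.GC
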