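import Mathlib

/-!
# GC-22b: local uniqueness for linear systems of analytic functions

Let `g ≢ 0` near `u₁`; let `n` be the minimum of the orders of the `g_i` at `u₁` (finite, `≥ 1`). If `g_i` has order `n` then
`g_i'` has order exactly `n - 1`, but `∑ M_ij g_j` has order `≥ n`. (Or show by induction that all iterated
derivatives vanish at `u₁`.)  Here: Gronwall's inequality on segments from `u₁`.
-/

open Filter Topology

namespace Pool.Agent.Helper79.GC

theorem ode_zero {n : ℕ} (M : ℂ → Matrix (Fin n) (Fin n) ℂ) (g : ℂ → Fin n → ℂ) (u₁ : ℂ)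
    (hM : ∀ i j, AnalyticAt ℂ (fun u => M u i j) u₁) (hg : ∀ i, AnalyticAt ℂ (fun u => g u i) u₁)
    (h0 : ∀ i, g u₁ i = 0)
    (hode : ∀ᶠ u in 𝓝 u₁, ∀ i, deriv (fun u => g u i) u = ∑ j, M u i j * g u j) :
    ∀ᶠ u in 𝓝 u₁, ∀ i, g u i = 0 := by
  classical
  have hMb : ∀ᶠ u in 𝓝 u₁, ∀ i j, ‖M u i j‖ ≤ ‖M u₁ i j‖ + 1 := by
    rw [eventually_all]
    intro i
    rw [eventually_all]
    intro j
    have h1 : Tendsto (fun u => ‖M u i j‖) (𝓝 u₁) (𝓝 ‖M u₁ i j‖) :=
      (hM i j).continuousAt.norm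
    exact h1.eventually_le_const (by linarith)
  have hgd : ∀ᶠ u in 𝓝 u₁, ∀ i, DifferentiableAt ℂ (fun u => g u i) u := by
    rw [eventually_all]
    intro i
    exact (hg i).eventually_analyticAt.mono fun u hu => hu.differentiableAt
  obtain ⟨r, hr, hball⟩ := Metric.eventually_nhds_iff_ball.1 (hode.and (hMb.and hgd))
  set C : ℝ := ∑ i, ∑ j, (‖M u₁ i j‖ + 1) with hC
  have hC0 : ∀ i, ∑ j, (‖M u₁ i j‖ + 1) ≤ C := by
    intro i
    refine Finset.single_le_sum (f := fun i => ∑ j, (‖M u₁ i j‖ + 1)) ?_ (Finset.mem_univ i)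
    intro i _
    exact Finset.sum_nonneg fun j _ => by positivity
  have hCnn : 0 ≤ C := Finset.sum_nonneg fun i _ => Finset.sum_nonneg fun j _ => by positivity
  filter_upwards [Metric.ball_mem_nhds u₁ hr] with u hu
  -- the path
  have hmem : ∀ t : ℝ, t ∈ Set.Icc (0 : ℝ) 1 → u₁ + t * (u - u₁) ∈ Metric.ball u₁ r := by
    intro t ht
    rw [Metric.mem_ball, dist_eq_norm] at hu ⊢
    have e : u₁ + t * (u - u₁) - u₁ = t * (u - u₁) := by ring
    rw [e, norm_mul, Complex.norm_real, Real.norm_eq_abs, abs_of_nonneg ht.1]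
    calc t * ‖u - u₁‖ ≤ 1 * ‖u - u₁‖ := by gcongr; exact ht.2
      _ = ‖u - u₁‖ := one_mul _
      _ < r := hu
  set f : ℝ → (Fin n → ℂ) := fun t => g (u₁ + t * (u - u₁)) with hf
  set f' : ℝ → (Fin n → ℂ) := fun t i =>
    (∑ j, M (u₁ + t * (u - u₁)) i j * g (u₁ + t * (u - u₁)) j) * (u - u₁) with hf'
  have hder : ∀ t ∈ Set.Icc (0 : ℝ) 1, HasDerivAt f (f' t) t := by
    intro t ht
    rw [hasDerivAt_pi]
    intro i
    obtain ⟨h1, -, h3⟩ := hball _ (hmem t ht)
    have h4 := (h3 i).hasDerivAt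
    rw [h1 i] at h4
    have h5 : HasDerivAt (fun s : ℝ => u₁ + (s : ℂ) * (u - u₁)) (u - u₁) t := by
      have := ((Complex.ofRealCLM.hasDerivAt (x := t)).mul_const (u - u₁)).const_add u₁
      simpa using this
    exact h4.comp t h5
  have hgr := norm_le_gronwallBound_of_norm_deriv_right_le (f := f) (f' := f') (δ := 0)
    (K := C * ‖u - u₁‖) (ε := 0) (a := 0) (b := 1)
    (fun t ht => (hder t ht).continuousAt.continuousWithinAt)
    (fun t ht => (hder t ⟨ht.1, ht.2.le⟩).hasDerivWithinAt)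
    (by
      have : f 0 = 0 := by
        funext i
        simp [hf, h0 i]
      rw [this, norm_zero])
    (by
      intro t ht
      obtain ⟨-, h2, -⟩ := hball _ (hmem t ⟨ht.1, ht.2.le⟩)
      rw [add_zero, pi_norm_le_iff_of_nonneg (by positivity)]
      intro i
      show ‖(∑ j, M (u₁ + t * (u - u₁)) i j * g (u₁ + t * (u - u₁)) j) * (u - u₁)‖ ≤ _
      rw [norm_mul]
      have h3 : ‖∑ j, M (u₁ + t * (u - u₁)) i j * g (u₁ + t * (u - u₁)) j‖ ≤
          ∑ j, (‖M u₁ i j‖ + 1) * ‖f t‖ := by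
        refine (norm_sum_le _ _).trans (Finset.sum_le_sum fun j _ => ?_)
        rw [norm_mul]
        exact mul_le_mul (h2 i j) (norm_le_pi_norm (f t) j) (norm_nonneg _) (by positivity)
      rw [← Finset.sum_mul] at h3
      calc _ ≤ ((∑ j, (‖M u₁ i j‖ + 1)) * ‖f t‖) * ‖u - u₁‖ := by gcongr
        _ ≤ (C * ‖f t‖) * ‖u - u₁‖ := by gcongr; exact hC0 i
        _ = C * ‖u - u₁‖ * ‖f t‖ := by ring)
    1 (by norm_num)
  have h1 : gronwallBound 0 (C * ‖u - u₁‖) 0 (1 - 0) = 0 := by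
    rw [gronwallBound_ε0, zero_mul]
  rw [h1] at hgr
  have h2 : f 1 = 0 := by
    rw [← norm_le_zero_iff]
    exact hgr
  intro i
  have h3 := congrFun h2 i
  have e : u₁ + ((1 : ℝ) : ℂ) * (u - u₁) = u := by push_cast; ring
  simp only [hf, e] at h3
  exact h3

end Pool.Agent.Helper79.GC
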