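import Pool.Agent.Helper79.GC.SphereRat

/-!
# GC-20b: a quotient that is meromorphic on the whole sphere

* `ratio_rational`: let `f u = p u / q u` for `‖u‖ < ρ'`, and `g u⁻¹ / h u⁻¹` otherwise. Near every point of norm `≥ ρ'`
  and near every point of the annulus `f` equals `g u⁻¹ / h u⁻¹` off a discrete set, so `f` is meromorphic on `ℂ`;
  `z ↦ f z⁻¹` equals `g z / h z` near `0`, `z ≠ 0`: meromorphic. So `Q f = P` off discrete sets, hence
  `Q p = P q` on the disc off a discrete set (`q ≢ 0`), and everywhere by continuity (identity theorem).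
-/

open Polynomial Filter Topology

namespace Pool.Agent.Helper79.GC

private lemma rr_ne_zero {R : ℝ} {F : ℂ → ℂ} (hF : AnalyticOnNhd ℂ F (Metric.ball 0 R))
    (h0 : ∃ u ∈ Metric.ball (0 : ℂ) R, F u ≠ 0) {u : ℂ} (hu : u ∈ Metric.ball (0 : ℂ) R) :
    ∀ᶠ z in 𝓝[≠] u, F z ≠ 0 := by
  by_contra hcon
  have h1 : ∃ᶠ z in 𝓝[≠] u, F z = 0 := by
    rw [Filter.Frequently]
    exact hcon
  have h2 := hF.eqOn_zero_of_preconnected_of_frequently_eq_zero
    (convex_ball (0 : ℂ) R).isPreconnected hu h1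
  obtain ⟨v, hv, hv0⟩ := h0
  exact hv0 (h2 hv)

private lemma rr_inv {u : ℂ} (hu : u ≠ 0) :
    Tendsto (fun z : ℂ => z⁻¹) (𝓝[≠] u) (𝓝[≠] u⁻¹) := by
  rw [tendsto_nhdsWithin_iff]
  refine ⟨(continuousAt_inv₀ hu).tendsto.mono_left nhdsWithin_le_nhds, ?_⟩
  filter_upwards [self_mem_nhdsWithin] with z hz
  intro h
  exact hz (inv_injective h)

theorem ratio_rational {ρ₀ ρ' : ℝ} (h0 : 0 < ρ₀) (h1 : ρ₀ < ρ') (p q g h : ℂ → ℂ)
    (hp : AnalyticOnNhd ℂ p (Metric.ball 0 ρ')) (hq : AnalyticOnNhd ℂ q (Metric.ball 0 ρ'))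
    (hg : AnalyticOnNhd ℂ g (Metric.ball 0 (1 / ρ₀)))
    (hh : AnalyticOnNhd ℂ h (Metric.ball 0 (1 / ρ₀)))
    (hq0 : ∃ u ∈ Metric.ball (0 : ℂ) ρ', q u ≠ 0)
    (hh0 : ∃ x ∈ Metric.ball (0 : ℂ) (1 / ρ₀), h x ≠ 0)
    (heq : ∀ u : ℂ, ρ₀ < ‖u‖ → ‖u‖ < ρ' → p u * h u⁻¹ = q u * g u⁻¹) :
    ∃ P Q : ℂ[X], Q ≠ 0 ∧ ∀ u ∈ Metric.ball (0 : ℂ) ρ', Q.eval u * p u = P.eval u * q u := by
  classical
  obtain ⟨ρ₁, hρ1, hρ2⟩ : ∃ ρ₁, ρ₀ < ρ₁ ∧ ρ₁ < ρ' := exists_between h1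
  have hρ1pos : 0 < ρ₁ := h0.trans hρ1
  obtain ⟨f, hf⟩ : ∃ f : ℂ → ℂ, f = fun u => if ‖u‖ < ρ₁ then p u / q u else g u⁻¹ / h u⁻¹ :=
    ⟨_, rfl⟩
  have hf1 : ∀ u, ‖u‖ < ρ₁ → f u = p u / q u := by
    intro u hu
    rw [hf]
    exact if_pos hu
  have hf2 : ∀ u, ¬ ‖u‖ < ρ₁ → f u = g u⁻¹ / h u⁻¹ := by
    intro u hu
    rw [hf]
    exact if_neg hu
  have hmem : ∀ u : ℂ, ρ₁ ≤ ‖u‖ → u⁻¹ ∈ Metric.ball (0 : ℂ) (1 / ρ₀) := by
    intro u hu
    rw [mem_ball_zero_iff, norm_inv, ← one_div]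
    exact one_div_lt_one_div_of_lt h0 (lt_of_lt_of_le hρ1 hu)
  have hmero : MeromorphicOn f Set.univ := by
    intro u _
    rcases lt_or_ge ‖u‖ ρ₁ with hu | hu
    · have hu' : u ∈ Metric.ball (0 : ℂ) ρ' := by
        rw [mem_ball_zero_iff]
        exact hu.trans hρ2
      have h3 : MeromorphicAt (fun z => p z / q z) u :=
        (hp u hu').meromorphicAt.fun_div (hq u hu').meromorphicAt
      refine h3.congr ?_
      have h4 : ∀ᶠ z in 𝓝 u, ‖z‖ < ρ₁ := continuous_norm.continuousAt.eventually_lt_const hu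
      filter_upwards [h4.filter_mono nhdsWithin_le_nhds] with z hz
      exact (hf1 z hz).symm
    · have hu0 : u ≠ 0 := by
        rintro rfl
        rw [norm_zero] at hu
        linarith
      have hgu : AnalyticAt ℂ (fun z => g z⁻¹) u :=
        (hg _ (hmem u hu)).comp_of_eq (analyticAt_inv hu0) rfl
      have hhu : AnalyticAt ℂ (fun z => h z⁻¹) u :=
        (hh _ (hmem u hu)).comp_of_eq (analyticAt_inv hu0) rfl
      have h3 : MeromorphicAt (fun z => g z⁻¹ / h z⁻¹) u :=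
        hgu.meromorphicAt.fun_div hhu.meromorphicAt
      refine h3.congr ?_
      rcases lt_or_eq_of_le hu with hu' | hu'
      · have h4 : ∀ᶠ z in 𝓝 u, ρ₁ < ‖z‖ := continuous_norm.continuousAt.eventually_const_lt hu'
        filter_upwards [h4.filter_mono nhdsWithin_le_nhds] with z hz
        exact (hf2 z (not_lt.2 hz.le)).symm
      · have hub : u ∈ Metric.ball (0 : ℂ) ρ' := by
          rw [mem_ball_zero_iff, ← hu']
          exact hρ2
        have h4 : ∀ᶠ z in 𝓝 u, ρ₀ < ‖z‖ :=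
          continuous_norm.continuousAt.eventually_const_lt (by show ρ₀ < ‖u‖; rw [← hu']; exact hρ1)
        have h5 : ∀ᶠ z in 𝓝 u, ‖z‖ < ρ' :=
          continuous_norm.continuousAt.eventually_lt_const (by show ‖u‖ < ρ'; rw [← hu']; exact hρ2)
        have h6 := rr_ne_zero hq hq0 hub
        have h7 : ∀ᶠ z in 𝓝[≠] u, h z⁻¹ ≠ 0 :=
          (rr_inv hu0).eventually (rr_ne_zero hh hh0 (hmem u hu))
        filter_upwards [h4.filter_mono nhdsWithin_le_nhds, h5.filter_mono nhdsWithin_le_nhds,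
          h6, h7] with z z1 z2 z3 z4
        by_cases hz : ‖z‖ < ρ₁
        · rw [hf1 z hz, div_eq_div_iff z4 z3, heq z z1 z2]
          ring
        · rw [hf2 z hz]
  have hinf : MeromorphicAt (fun z => f z⁻¹) 0 := by
    have h00 : (0 : ℂ) ∈ Metric.ball (0 : ℂ) (1 / ρ₀) := by
      rw [mem_ball_zero_iff, norm_zero]
      positivity
    have h3 : MeromorphicAt (fun z => g z / h z) 0 :=
      (hg 0 h00).meromorphicAt.fun_div (hh 0 h00).meromorphicAt
    refine h3.congr ?_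
    have h4 : ∀ᶠ z in 𝓝 (0 : ℂ), ‖z‖ < 1 / ρ₁ :=
      continuous_norm.continuousAt.eventually_lt_const (by show ‖(0 : ℂ)‖ < 1 / ρ₁; rw [norm_zero]; positivity)
    filter_upwards [h4.filter_mono nhdsWithin_le_nhds, self_mem_nhdsWithin] with z hz hz0
    have hzpos : 0 < ‖z‖ := norm_pos_iff.2 hz0
    have h5 : ¬ ‖z⁻¹‖ < ρ₁ := by
      rw [norm_inv, not_lt, ← one_div, le_div_iff₀ hzpos]
      rw [lt_div_iff₀ hρ1pos] at hz
      linarith
    rw [hf2 _ h5, inv_inv]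
  obtain ⟨P, Q, hQ, hPQ⟩ := rational_of_meromorphic f hmero hinf
  refine ⟨P, Q, hQ, ?_⟩
  have h00 : (0 : ℂ) ∈ Metric.ball (0 : ℂ) ρ' := by
    rw [mem_ball_zero_iff, norm_zero]
    linarith
  have hF : AnalyticOnNhd ℂ (fun z => Q.eval z * p z - P.eval z * q z) (Metric.ball 0 ρ') := by
    intro z hz
    have e1 : AnalyticAt ℂ (fun z => Q.eval z) z := AnalyticOnNhd.eval_polynomial Q z trivial
    have e2 : AnalyticAt ℂ (fun z => P.eval z) z := AnalyticOnNhd.eval_polynomial P z trivial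
    exact (e1.mul (hp z hz)).sub (e2.mul (hq z hz))
  have hfreq : ∃ᶠ z in 𝓝[≠] (0 : ℂ), Q.eval z * p z - P.eval z * q z = 0 := by
    apply Filter.Eventually.frequently
    have h4 : ∀ᶠ z in 𝓝 (0 : ℂ), ‖z‖ < ρ₁ :=
      continuous_norm.continuousAt.eventually_lt_const (by show ‖(0 : ℂ)‖ < ρ₁; rw [norm_zero]; exact hρ1pos)
    filter_upwards [hPQ 0, h4.filter_mono nhdsWithin_le_nhds, rr_ne_zero hq hq0 h00]
      with z z1 z2 z3
    rw [hf1 z z2] at z1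
    rw [← z1]
    field_simp
    ring
  have hfin := hF.eqOn_zero_of_preconnected_of_frequently_eq_zero
    (convex_ball (0 : ℂ) ρ').isPreconnected h00 hfreq
  intro u hu
  have := hfin hu
  simp only [Pi.zero_apply] at this
  exact sub_eq_zero.1 this

end Pool.Agent.Helper79.GC
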