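import Pool.Agent.Helper79.GC.Pint

/-!
# GC-03: Galochkin's condition for the dual system and after a gauge transformation

* `gal_dual`: `Git_dual` and `PI_hs`: `q T^k G_k` integral gives `q T^(k+i) hs_i(G_k)` integral, and
  `i + k = j`; the same `q` works (`emb T` commutes with transposition: `(T⁻¹ • eM (-Aᵀ)) = -(T⁻¹ • eM A)ᵀ`).
* `gal_gauge`: with `Z = xx^D • eM 𝒳`, `Z' = (emb X)^D (emb Δ)⁻¹ • eM (adj 𝒳)`, `Δ = det 𝒳`, one has
  `Z Z' = Z' Z = 1`, `Z' g Z - Z' dM Z = (emb gT)⁻¹ • eM gA` (`dM Z = -D xx Z + xx^D eM 𝒳_s`), hence by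
  `Git_gauge` `G_j = (∑ hs_i(Z') Git g (j-i)) Z`. For `j = 0` it is `1`. For `j ≥ 1`: `Δ^(i+1) hs_i(Z')`
  is integral (`PI_hs` for `q = 1`, `m = 1`), `q T^(j-i) Git g (j-i)` is integral, `X^D Z` is integral,
  and `Δ^(i+1) T^(j-i) X^D` divides `gT^j = (X^(D+1) T Δ^2)^j`. The same `q` works.
-/

open Polynomial

namespace Pool.Agent.Helper79.GC

open Pool.Agent.Helper37.GP

variable {ι : Type} [Fintype ι] [DecidableEq ι]

theorem gal_dual {T : ℤ[X]} (hT : T ≠ 0) {A : Matrix ι ι ℚ[X]} {H : ℕ}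
    (hG : Galochkin (T.map (Int.castRingHom ℚ)) A H) :
    Galochkin (T.map (Int.castRingHom ℚ)) (-A.transpose) H := by
  rw [gal_iff hT] at hG ⊢
  intro j
  obtain ⟨q, hq0, hqH, hq⟩ := hG j
  refine ⟨q, hq0, hqH, ?_⟩
  intro i hi a b
  have h1 : (emb (T.map (Int.castRingHom ℚ)))⁻¹ • eM (-A.transpose) =
      -((emb (T.map (Int.castRingHom ℚ)))⁻¹ • eM A).transpose := by
    ext1 a b
    simp [eM_apply]
  rw [h1, Git_dual, Matrix.transpose_apply, Matrix.sum_apply]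
  apply PI_sum
  intro k hk
  have hk' : k ≤ i := by
    have := Finset.mem_range.1 hk
    omega
  rw [Matrix.smul_apply, hs_apply]
  have h2 := PI_hs (hq (i - k) (by omega) b a) k
  rw [show i - k + k = i by omega] at h2
  rcases neg_one_pow_eq_or ℚ (i - k) with h | h
  · rw [h, one_smul]
    exact h2
  · rw [h, neg_smul, one_smul]
    exact PI_neg h2

/-! ### The inverse of the gauge matrix -/

theorem emb_map_ne_zero {P : ℤ[X]} (hP : P ≠ 0) : emb (P.map (Int.castRingHom ℚ)) ≠ 0 := by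
  intro h
  have h1 : P.map (Int.castRingHom ℚ) = 0 := emb_injective (by rw [h, map_zero])
  exact hP ((Polynomial.map_eq_zero_iff (Int.castRingHom ℚ).injective_int).1 h1)

theorem dd_xx_pow (D : ℕ) : dd (xx ^ D) = -((D : LaurentSeries ℚ) * xx ^ (D + 1)) := by
  induction D with
  | zero => simp [dd_one]
  | succ n ih =>
    rw [pow_succ, dd_mul, ih, dd_xx]
    push_cast
    ring

theorem det_map_int (Z : Matrix ι ι ℤ[X]) :
    (Z.map (Polynomial.map (Int.castRingHom ℚ))).det = Z.det.map (Int.castRingHom ℚ) := by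
  have h := RingHom.map_det (Polynomial.mapRingHom (Int.castRingHom ℚ)) Z
  rw [Polynomial.coe_mapRingHom] at h
  rw [h]
  rfl

theorem adj_map_int (Z : Matrix ι ι ℤ[X]) :
    (Z.map (Polynomial.map (Int.castRingHom ℚ))).adjugate =
      Z.adjugate.map (Polynomial.map (Int.castRingHom ℚ)) := by
  have h := RingHom.map_adjugate (Polynomial.mapRingHom (Int.castRingHom ℚ)) Z
  exact h.symm

/-- The inverse of the gauge matrix, explicitly. -/
theorem inv_explicit (Z : Matrix ι ι ℤ[X])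
    (hZ : Z.det ≠ 0) (D : ℕ) :
    (xx ^ D • eM (Z.map (Polynomial.map (Int.castRingHom ℚ)))) *
      ((emb X ^ D * (emb (Z.det.map (Int.castRingHom ℚ)))⁻¹) •
        eM (Z.map (Polynomial.map (Int.castRingHom ℚ))).adjugate) = 1 := by
  have hd := emb_map_ne_zero hZ
  rw [Matrix.smul_mul, Matrix.mul_smul, ← eM_mul, Matrix.mul_adjugate, det_map_int, eM_smul,
    eM_one, smul_smul, smul_smul]
  rw [show xx ^ D * (emb X ^ D * (emb (Z.det.map (Int.castRingHom ℚ)))⁻¹) *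
      emb (Z.det.map (Int.castRingHom ℚ)) =
      (xx * emb X) ^ D * ((emb (Z.det.map (Int.castRingHom ℚ)))⁻¹ *
        emb (Z.det.map (Int.castRingHom ℚ))) by ring]
  rw [xx_mul_emb_X, inv_mul_cancel₀ hd, one_pow, one_mul, one_smul]

theorem inv_explicit' (Z : Matrix ι ι ℤ[X])
    (hZ : Z.det ≠ 0) (D : ℕ) :
    ((emb X ^ D * (emb (Z.det.map (Int.castRingHom ℚ)))⁻¹) •
        eM (Z.map (Polynomial.map (Int.castRingHom ℚ))).adjugate) *
    (xx ^ D • eM (Z.map (Polynomial.map (Int.castRingHom ℚ)))) = 1 := by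
  have hd := emb_map_ne_zero hZ
  rw [Matrix.smul_mul, Matrix.mul_smul, ← eM_mul, Matrix.adjugate_mul, det_map_int, eM_smul,
    eM_one, smul_smul, smul_smul]
  rw [show emb X ^ D * (emb (Z.det.map (Int.castRingHom ℚ)))⁻¹ * xx ^ D *
      emb (Z.det.map (Int.castRingHom ℚ)) =
      (xx * emb X) ^ D * ((emb (Z.det.map (Int.castRingHom ℚ)))⁻¹ *
        emb (Z.det.map (Int.castRingHom ℚ))) by ring]
  rw [xx_mul_emb_X, inv_mul_cancel₀ hd, one_pow, one_mul, one_smul]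

/-- The gauge transformed system over the Laurent series field. -/
theorem gauge_eq {T : ℤ[X]} (hT : T ≠ 0) (A : Matrix ι ι ℚ[X]) (Z : Matrix ι ι ℤ[X])
    (hZ : Z.det ≠ 0) (D : ℕ) (V V' : Matrix ι ι (LaurentSeries ℚ))
    (hV : V = xx ^ D • eM (Z.map (Polynomial.map (Int.castRingHom ℚ)))) (h1 : V * V' = 1)
    (h2 : V' * V = 1) :
    (emb ((gT T Z D).map (Int.castRingHom ℚ)))⁻¹ • eM (gA T A Z D) =
      V' * ((emb (T.map (Int.castRingHom ℚ)))⁻¹ • eM A) * V - V' * dM V := by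
  have hd := emb_map_ne_zero hZ
  have ht := emb_map_ne_zero hT
  have hx : emb X ≠ 0 := by
    intro h
    have := xx_mul_emb_X
    rw [h, mul_zero] at this
    exact zero_ne_one this
  have hV' : V' = (emb X ^ D * (emb (Z.det.map (Int.castRingHom ℚ)))⁻¹) •
        eM (Z.map (Polynomial.map (Int.castRingHom ℚ))).adjugate := by
    have h3 := inv_explicit Z hZ D
    rw [← hV] at h3
    calc V' = V' * 1 := by rw [mul_one]
      _ = _ := by rw [← h3, ← mul_assoc, h2, one_mul]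
  have hxx : xx = (emb X)⁻¹ := by
    rw [eq_comm, inv_eq_of_mul_eq_one_right emb_X_mul_xx]
  set Z' : Matrix ι ι ℚ[X] := Z.map (Polynomial.map (Int.castRingHom ℚ)) with hZ'
  set Δ := emb (Z.det.map (Int.castRingHom ℚ)) with hΔ
  set t := emb (T.map (Int.castRingHom ℚ)) with ht'
  have hgT : emb ((gT T Z D).map (Int.castRingHom ℚ)) = emb X ^ (D + 1) * t * Δ ^ 2 := by
    rw [gT, Polynomial.map_mul, Polynomial.map_mul, Polynomial.map_pow, Polynomial.map_pow,
      Polynomial.map_X, map_mul, map_mul, map_pow, map_pow]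
  have hgA : eM (gA T A Z D) = (emb X ^ (D + 1) * Δ) • (eM Z'.adjugate * eM A * eM Z') -
      (emb X ^ (D + 1) * t * Δ) • (eM Z'.adjugate * eM (Z'.map derivative)) +
      ((D : LaurentSeries ℚ) * emb X ^ D * t * Δ ^ 2) • (1 : Matrix ι ι (LaurentSeries ℚ)) := by
    unfold gA
    simp only [eM_add, eM_sub, eM_smul, eM_mul, eM_one, map_mul, map_pow, map_natCast, det_map_int]
    rfl
  have hadj : eM Z'.adjugate * eM Z' = Δ • (1 : Matrix ι ι (LaurentSeries ℚ)) := by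
    rw [← eM_mul, Matrix.adjugate_mul, det_map_int, eM_smul, eM_one]
  have hdV : dM V = (-((D : LaurentSeries ℚ) * xx ^ (D + 1))) • eM Z' +
      xx ^ D • eM (Z'.map derivative) := by
    rw [hV, dM_smul, dd_xx_pow, dM_eM]
  have hxD : xx ^ D * emb X ^ D = 1 := by
    rw [← mul_pow, xx_mul_emb_X, one_pow]
  have hdd : Δ⁻¹ * Δ = 1 := inv_mul_cancel₀ hd
  have e1 : V' * (t⁻¹ • eM A) * V = (Δ⁻¹ * t⁻¹) • (eM Z'.adjugate * eM A * eM Z') := by
    rw [hV', hV, Matrix.mul_smul, Matrix.mul_smul, Matrix.smul_mul, Matrix.smul_mul,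
      Matrix.smul_mul, smul_smul, smul_smul]
    congr 1
    linear_combination (Δ⁻¹ * t⁻¹) * hxD
  have e2 : V' * dM V = (-((D : LaurentSeries ℚ) * xx)) • (1 : Matrix ι ι (LaurentSeries ℚ)) +
      Δ⁻¹ • (eM Z'.adjugate * eM (Z'.map derivative)) := by
    rw [hdV, hV', mul_add, Matrix.smul_mul, Matrix.mul_smul, Matrix.smul_mul, Matrix.mul_smul, hadj,
      smul_smul, smul_smul, smul_smul]
    congr 2
    · linear_combination (-((D : LaurentSeries ℚ) * xx) * (Δ⁻¹ * Δ)) * hxD +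
        (-((D : LaurentSeries ℚ) * xx)) * hdd
    · linear_combination Δ⁻¹ * hxD
  rw [hgT, hgA, e1, e2, hxx, smul_add, smul_sub, smul_smul, smul_smul, smul_smul,
    ← sub_sub, sub_eq_add_neg _ (-((D : LaurentSeries ℚ) * (emb X)⁻¹) • (1 : Matrix ι ι (LaurentSeries ℚ))),
    ← neg_smul, neg_neg]
  have c1 : (emb X ^ (D + 1) * t * Δ ^ 2)⁻¹ * (emb X ^ (D + 1) * Δ) = Δ⁻¹ * t⁻¹ := by
    field_simp
  have c2 : (emb X ^ (D + 1) * t * Δ ^ 2)⁻¹ * (emb X ^ (D + 1) * t * Δ) = Δ⁻¹ := by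
    field_simp
  have c3 : (emb X ^ (D + 1) * t * Δ ^ 2)⁻¹ * ((D : LaurentSeries ℚ) * emb X ^ D * t * Δ ^ 2) =
      (D : LaurentSeries ℚ) * (emb X)⁻¹ := by
    field_simp
    ring
  rw [c1, c2, c3]
  abel

theorem gal_gauge {T : ℤ[X]} (hT : T ≠ 0) {A : Matrix ι ι ℚ[X]} {H : ℕ}
    (hG : Galochkin (T.map (Int.castRingHom ℚ)) A H) (Z : Matrix ι ι ℤ[X]) (hZ : Z.det ≠ 0)
    (D : ℕ) : Galochkin ((gT T Z D).map (Int.castRingHom ℚ)) (gA T A Z D) H := by
  have hgT : gT T Z D ≠ 0 := by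
    unfold gT
    exact mul_ne_zero (mul_ne_zero (pow_ne_zero _ X_ne_zero) hT) (pow_ne_zero _ hZ)
  rw [gal_iff hT] at hG
  rw [gal_iff hgT]
  intro j
  obtain ⟨q, hq0, hqH, hq⟩ := hG j
  refine ⟨q, hq0, hqH, ?_⟩
  intro i hi a b
  have h1 := inv_explicit Z hZ D
  have h2 := inv_explicit' Z hZ D
  set V := xx ^ D • eM (Z.map (Polynomial.map (Int.castRingHom ℚ))) with hV
  set V' := (emb X ^ D * (emb (Z.det.map (Int.castRingHom ℚ)))⁻¹) •
        eM (Z.map (Polynomial.map (Int.castRingHom ℚ))).adjugate with hV'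
  rw [gauge_eq hT A Z hZ D V V' hV h1 h2]
  rcases Nat.eq_zero_or_pos i with hi0 | hi0
  · subst hi0
    rw [pow_zero]
    show PI q 1 ((1 : Matrix ι ι (LaurentSeries ℚ)) a b)
    rw [Matrix.one_apply]
    split_ifs
    · have h3 := PI_emb 1
      rw [Polynomial.map_one, map_one] at h3
      exact PI_of_dvd h3 (one_dvd _) (one_dvd _)
    · exact PI_zero _ _
  have hV'I : ∀ c d, PI 1 Z.det (V' c d) := by
    intro c d
    have h3 := PI_mul (PI_mul (PI_emb (X ^ D)) (PI_inv hZ)) (PI_emb (Z.adjugate c d))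
    have h4 : V' c d = emb ((X ^ D : ℤ[X]).map (Int.castRingHom ℚ)) *
        (emb (Z.det.map (Int.castRingHom ℚ)))⁻¹ *
        emb ((Z.adjugate c d).map (Int.castRingHom ℚ)) := by
      rw [hV', Matrix.smul_apply, eM_apply, adj_map_int, Matrix.map_apply, Polynomial.map_pow,
        Polynomial.map_X, map_pow, smul_eq_mul]
    rw [h4]
    refine PI_of_dvd h3 (by norm_num) ?_
    rw [one_mul, mul_one]
  have hVI : ∀ c d, PI 1 (X ^ D) (V c d) := by
    intro c d
    have h3 := PI_mul (PI_inv (pow_ne_zero D (X_ne_zero (R := ℤ)))) (PI_emb (Z c d))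
    have h4 : V c d = (emb ((X ^ D : ℤ[X]).map (Int.castRingHom ℚ)))⁻¹ *
        emb ((Z c d).map (Int.castRingHom ℚ)) := by
      rw [hV, Matrix.smul_apply, eM_apply, Matrix.map_apply, Polynomial.map_pow,
        Polynomial.map_X, map_pow, smul_eq_mul, ← inv_pow,
        inv_eq_of_mul_eq_one_right emb_X_mul_xx]
    rw [h4]
    refine PI_of_dvd h3 (by norm_num) ?_
    rw [mul_one]
  rw [Git_gauge _ _ _ h1 h2, Matrix.mul_apply]
  apply PI_sum
  intro c _
  rw [Matrix.sum_apply, Finset.sum_mul]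
  apply PI_sum
  intro k hk
  have hk' : k ≤ i := by
    have := Finset.mem_range.1 hk
    omega
  rw [Matrix.mul_apply, Finset.sum_mul]
  apply PI_sum
  intro d _
  rw [hs_apply]
  have h3 : PI 1 (Z.det ^ 1) (V' a d) := by
    rw [pow_one]
    exact hV'I a d
  have h4 := PI_mul (PI_mul (PI_hs h3 k) (hq (i - k) (by omega) d c)) (hVI c b)
  refine PI_of_dvd h4 (by norm_num) ?_
  unfold gT
  rw [mul_pow, mul_pow, ← pow_mul, ← pow_mul]
  have d1 : Z.det ^ (1 + k) ∣ Z.det ^ (2 * i) := pow_dvd_pow _ (by omega)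
  have d2 : T ^ (i - k) ∣ T ^ i := pow_dvd_pow _ (by omega)
  have d3 : (X : ℤ[X]) ^ D ∣ X ^ ((D + 1) * i) := pow_dvd_pow _ (by nlinarith)
  have h5 := mul_dvd_mul (mul_dvd_mul d1 d2) d3
  rw [show X ^ ((D + 1) * i) * T ^ i * Z.det ^ (2 * i) =
    Z.det ^ (2 * i) * T ^ i * X ^ ((D + 1) * i) by ring]
  exact h5

end Pool.Agent.Helper79.GC
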