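import Pool.Agent.Helper79.GC.LMod
import Pool.Agent.Helper79.GC.GalDual
import Pool.Agent.Helper37.GP.Bounds

/-!
# GC-49: the left multiplication system

* `coP_lm`, `eM_lm`, `pM_lm`, `cM_lm`, `dM_lm`: `lm` commutes with the coefficientwise / embedding operations (`lm_map` for
  the ring homomorphisms `emb`, `ps`, `algebraMap`; the composites `emb ∘ C`, `ofPowerSeries ∘ PowerSeries.C` are `algebraMap ℚ (LaurentSeries ℚ)`;
  `lm_entry` for `dd`, `dd_ratsmul`).
* `fund_lm`: apply `lm` (`lm_mul`, `lm_smul`) to the equation `IsFund`.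
* `gal_lm`: `beta T (lm A) j = lm (beta T A j)` by induction (`Mem` of `beta T A j`: `coM` of a derivative etc.; `lm` is `ℚ[X]`-linear and
  multiplicative, commutes with `derivative` by `lm_entry`). The entries of `lm M` are rational combinations of the entries of `M` with fixed coefficients; `c₀` = common denominator: `c₀ q`, so `H' = c₀ H` works.
* `lm_bounds`: `lm_entry`.
-/

open Polynomial

namespace Pool.Agent.Helper79.GC

open Pool.Agent.Helper37.GP

variable {ι : Type} [Fintype ι] [DecidableEq ι] {R : ℕ} (B : AlgBasis ι R)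

theorem embC_comp : emb.comp (C : ℚ →+* ℚ[X]) = algebraMap ℚ (LaurentSeries ℚ) := by
  ext1 c
  exact emb_C c

theorem psC_comp : (HahnSeries.ofPowerSeries ℤ ℚ).comp (PowerSeries.C : ℚ →+* PowerSeries ℚ) =
    algebraMap ℚ (LaurentSeries ℚ) := by
  ext1 c
  exact Subst12.ps_C c

theorem coP_lm (M : Matrix ι ι (PowerSeries ℚ)) (n : ℕ) :
    coP n (B.lm PowerSeries.C M) = B.lm (RingHom.id ℚ) (coP n M) := by
  ext1 α β
  rw [coP_apply, lm_entry, lm_entry, map_sum]
  refine Finset.sum_congr rfl fun a _ => ?_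
  rw [map_sum]
  refine Finset.sum_congr rfl fun c _ => ?_
  rw [PowerSeries.coeff_C_mul, coP_apply, RingHom.id_apply]

theorem pM_lm (M : Matrix ι ι (PowerSeries ℚ)) :
    pM (B.lm PowerSeries.C M) = B.lm (algebraMap ℚ (LaurentSeries ℚ)) (pM M) := by
  rw [← psC_comp]
  exact (lm_map B PowerSeries.C (HahnSeries.ofPowerSeries ℤ ℚ) M).symm

theorem eM_lm (M : Matrix ι ι ℚ[X]) :
    eM (B.lm C M) = B.lm (algebraMap ℚ (LaurentSeries ℚ)) (eM M) := by
  rw [← embC_comp]
  exact (lm_map B C emb M).symm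

theorem cM_lm (M : Matrix ι ι ℚ) :
    cM (B.lm (RingHom.id ℚ) M) = B.lm (algebraMap ℚ (LaurentSeries ℚ)) (cM M) := by
  have h := lm_map B (RingHom.id ℚ) (algebraMap ℚ (LaurentSeries ℚ)) M
  rw [RingHom.comp_id] at h
  exact h.symm

theorem dM_lm (M : Matrix ι ι (LaurentSeries ℚ)) :
    dM (B.lm (algebraMap ℚ (LaurentSeries ℚ)) M) =
      B.lm (algebraMap ℚ (LaurentSeries ℚ)) (dM M) := by
  ext1 α β
  rw [dM_apply, lm_entry, lm_entry, dd_sum]
  refine Finset.sum_congr rfl fun a _ => ?_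
  rw [dd_sum]
  refine Finset.sum_congr rfl fun c _ => ?_
  rw [dd_mul, dd_algebraMap, dM_apply, zero_mul, add_zero]

theorem fund_lm {T : ℚ[X]} {A : Matrix ι ι ℚ[X]} {W : Matrix ι ι (PowerSeries ℚ)}
    {N : Matrix ι ι ℚ} (h : IsFund T A W N) (hA : B.Mem C A) (hW : B.Mem PowerSeries.C W)
    (hN : B.Mem (RingHom.id ℚ) N) :
    IsFund T (B.lm C A) (B.lm PowerSeries.C W) (B.lm (RingHom.id ℚ) N) := by
  have hA' : B.Mem (algebraMap ℚ (LaurentSeries ℚ)) (eM A) := by
    rw [← embC_comp]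
    exact mem_map B C emb hA
  have hW' : B.Mem (algebraMap ℚ (LaurentSeries ℚ)) (pM W) := by
    rw [← psC_comp]
    exact mem_map B PowerSeries.C (HahnSeries.ofPowerSeries ℤ ℚ) hW
  have hN' : B.Mem (algebraMap ℚ (LaurentSeries ℚ)) (cM N) := by
    have := mem_map B (RingHom.id ℚ) (algebraMap ℚ (LaurentSeries ℚ)) hN
    rw [RingHom.comp_id] at this
    exact this
  unfold IsFund at h ⊢
  have h1 := congrArg (B.lm (algebraMap ℚ (LaurentSeries ℚ))) h
  rw [lm_smul, lm_add, lm_smul, lm_mul B _ hA' hW', lm_mul B _ hW' hN', ← dM_lm, ← pM_lm,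
    ← eM_lm, ← cM_lm] at h1
  exact h1

/-! ### Galochkin condition -/

theorem mem_deriv {M : Matrix ι ι ℚ[X]} (h : B.Mem C M) : B.Mem C (M.map derivative) := by
  obtain ⟨c, hc⟩ := h
  refine ⟨fun α => derivative (c α), ?_⟩
  ext1 a b
  rw [Matrix.map_apply, hc, Matrix.sum_apply, Matrix.sum_apply, map_sum]
  refine Finset.sum_congr rfl fun α _ => ?_
  rw [Matrix.smul_apply, Matrix.smul_apply, smul_eq_mul, smul_eq_mul, Matrix.map_apply,
    derivative_mul, derivative_C, mul_zero, add_zero]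

theorem lm_deriv (M : Matrix ι ι ℚ[X]) :
    B.lm C (M.map derivative) = (B.lm C M).map derivative := by
  ext1 α β
  rw [Matrix.map_apply, lm_entry, lm_entry, map_sum]
  refine Finset.sum_congr rfl fun a _ => ?_
  rw [map_sum]
  refine Finset.sum_congr rfl fun c _ => ?_
  rw [derivative_mul, derivative_C, zero_mul, zero_add, Matrix.map_apply]

theorem beta_lm (T : ℚ[X]) {A : Matrix ι ι ℚ[X]} (hA : B.Mem C A) (j : ℕ) :
    B.Mem C (beta T A j) ∧ beta T (B.lm C A) j = B.lm C (beta T A j) := by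
  induction j with
  | zero =>
    refine ⟨mem_one B C, ?_⟩
    change (1 : Matrix (Fin R) (Fin R) ℚ[X]) = B.lm C 1
    rw [lm_one]
  | succ j ih =>
    obtain ⟨h1, h2⟩ := ih
    have e : ∀ {κ : Type} [Fintype κ] [DecidableEq κ] (A' : Matrix κ κ ℚ[X]),
        beta T A' (j + 1) = (C (((j : ℚ) + 1)⁻¹) : ℚ[X]) • (T • (beta T A' j).map derivative
          - ((j : ℚ[X]) * derivative T) • beta T A' j + beta T A' j * A') := fun _ => rfl
    rw [e, e]
    have m1 := mem_smul B C T (mem_deriv B h1)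
    have m2 := mem_smul B C ((j : ℚ[X]) * derivative T) h1
    have m3 := mem_mul B C h1 hA
    refine ⟨mem_smul B C _ (mem_add B C (mem_sub B C m1 m2) m3), ?_⟩
    rw [lm_smul, lm_add, lm_sub, lm_smul, lm_smul, lm_mul B C h1 hA, lm_deriv, h2]

/-- common denominator -/
theorem exists_den {κ : Type} [Fintype κ] (r : κ → ℚ) :
    ∃ c : ℕ, 0 < c ∧ ∀ k, ∃ z : ℤ, (c : ℚ) * r k = z := by
  classical
  refine ⟨∏ k, (r k).den, Finset.prod_pos fun k _ => (r k).den_pos, fun k => ?_⟩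
  obtain ⟨m, hm⟩ := Finset.dvd_prod_of_mem (fun k => (r k).den) (Finset.mem_univ k)
  refine ⟨m * (r k).num, ?_⟩
  rw [hm]
  have h : ((r k).den : ℚ) * r k = (r k).num := by
    rw [mul_comm]
    exact Rat.mul_den_eq_num (r k)
  push_cast
  rw [← h]
  ring

theorem int_sum {κ : Type} (s : Finset κ) (f : κ → ℚ) (h : ∀ i ∈ s, ∃ z : ℤ, f i = z) :
    ∃ z : ℤ, ∑ i ∈ s, f i = z := by
  classical
  induction s using Finset.induction_on with
  | empty => exact ⟨0, by simp⟩
  | insert a s ha ih =>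
    obtain ⟨z, hz⟩ := h a (Finset.mem_insert_self a s)
    obtain ⟨w, hw⟩ := ih fun i hi => h i (Finset.mem_insert_of_mem hi)
    exact ⟨z + w, by rw [Finset.sum_insert ha, hz, hw]; push_cast; rfl⟩

/-- the coefficients in `lm_entry` -/
noncomputable def rc (B : AlgBasis ι R) (k : (Fin R × Fin R) × (ι × ι)) : ℚ :=
  ∑ b, B.u k.1.1 k.2.1 b * B.g k.1.2 k.2.2 b

theorem gal_lm {T : ℚ[X]} {A : Matrix ι ι ℚ[X]} {H : ℕ} (h : Galochkin T A H)
    (hA : B.Mem C A) : ∃ H' : ℕ, 1 ≤ H' ∧ Galochkin T (B.lm C A) H' := by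
  obtain ⟨c, hc0, hc⟩ := exists_den (rc B)
  have hH : 1 ≤ H := by
    obtain ⟨q, hq0, hq, _⟩ := h 0
    rw [zero_add, pow_one] at hq
    omega
  refine ⟨c * H, Nat.mul_pos hc0 hH, fun j => ?_⟩
  obtain ⟨q, hq0, hq, hint⟩ := h j
  refine ⟨c * q, Nat.mul_pos hc0 hq0, ?_, ?_⟩
  · rw [mul_pow]
    exact Nat.mul_le_mul (Nat.le_self_pow (by omega) c) hq
  · intro i hi α β n
    rw [(beta_lm B T hA i).2, lm_entry, finsetSum_coeff, Finset.mul_sum]
    apply int_sum
    intro a _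
    rw [finsetSum_coeff, Finset.mul_sum]
    apply int_sum
    intro d _
    obtain ⟨z, hz⟩ := hc ((α, β), (a, d))
    obtain ⟨w, hw⟩ := hint i hi a d n
    refine ⟨z * w, ?_⟩
    rw [coeff_C_mul]
    push_cast
    rw [← hz, ← hw, rc]
    ring

theorem lm_bounds {W : Matrix ι ι (PowerSeries ℚ)} {H : ℕ} (hb : ∀ a b, GBound H (W a b))
    (hd : GDen H (fun p : ι × ι => W p.1 p.2)) : ∃ H' : ℕ, 2 ≤ H' ∧
      (∀ α β, GBound H' (B.lm PowerSeries.C W α β)) ∧
      GDen H' (fun p : Fin R × Fin R => B.lm PowerSeries.C W p.1 p.2) := by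
  obtain ⟨c, hc0, hc⟩ := exists_den (rc B)
  obtain ⟨K, hK⟩ := exists_nat_ge (∑ k, |rc B k|)
  set H' : ℕ := c * H + (K + 1) * H + 2 with hH'
  have h1 : c * H ≤ H' := by omega
  have h2 : (K + 1) * H ≤ H' := by omega
  refine ⟨H', by omega, fun α β n => ?_, fun n => ?_⟩
  · rw [lm_entry, map_sum]
    have s1 : ∀ a ∈ (Finset.univ : Finset ι), |(PowerSeries.coeff n)
        (∑ d, (PowerSeries.C (∑ b, B.u α a b * B.g β d b)) * W a d)| ≤
        (∑ d, |rc B ((α, β), (a, d))|) * (H : ℚ) ^ (n + 1) := by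
      intro a _
      rw [map_sum, Finset.sum_mul]
      refine (Finset.abs_sum_le_sum_abs _ _).trans (Finset.sum_le_sum fun d _ => ?_)
      rw [PowerSeries.coeff_C_mul, abs_mul]
      exact mul_le_mul_of_nonneg_left (hb a d n) (abs_nonneg _)
    refine (Finset.abs_sum_le_sum_abs _ _).trans ((Finset.sum_le_sum s1).trans ?_)
    rw [← Finset.sum_mul]
    have s2 : ∑ a, ∑ d, |rc B ((α, β), (a, d))| ≤ ∑ k, |rc B k| := by
      rw [← Finset.sum_product' (f := fun a d => |rc B ((α, β), (a, d))|)]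
      have : ∑ k : (Fin R × Fin R) × (ι × ι), |rc B k| =
          ∑ p : Fin R × Fin R, ∑ q : ι × ι, |rc B (p, q)| := by
        rw [← Finset.univ_product_univ, Finset.sum_product]
      rw [this]
      exact Finset.single_le_sum (f := fun p : Fin R × Fin R => ∑ q : ι × ι, |rc B (p, q)|)
        (fun p _ => Finset.sum_nonneg fun q _ => abs_nonneg _) (Finset.mem_univ (α, β))
    have hHn : (0 : ℚ) ≤ (H : ℚ) ^ (n + 1) := by positivity
    calc (∑ a, ∑ d, |rc B ((α, β), (a, d))|) * (H : ℚ) ^ (n + 1)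
        ≤ ((K : ℚ) + 1) * (H : ℚ) ^ (n + 1) :=
          mul_le_mul_of_nonneg_right (by linarith) hHn
      _ ≤ ((K : ℚ) + 1) ^ (n + 1) * (H : ℚ) ^ (n + 1) := by
          refine mul_le_mul_of_nonneg_right ?_ hHn
          have hK0 : (0 : ℚ) ≤ K := Nat.cast_nonneg K
          exact le_self_pow₀ (by linarith) (by omega)
      _ = (((K + 1) * H : ℕ) : ℚ) ^ (n + 1) := by rw [← mul_pow]; push_cast; rfl
      _ ≤ (H' : ℚ) ^ (n + 1) :=
          pow_le_pow_left₀ (by positivity) (by exact_mod_cast h2) _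
  · obtain ⟨d, hd0, hdH, hint⟩ := hd n
    refine ⟨c * d, Nat.mul_pos hc0 hd0, ?_, ?_⟩
    · calc c * d ≤ c ^ (n + 1) * H ^ (n + 1) :=
            Nat.mul_le_mul (Nat.le_self_pow (by omega) c) hdH
        _ = (c * H) ^ (n + 1) := (mul_pow _ _ _).symm
        _ ≤ H' ^ (n + 1) := Nat.pow_le_pow_left h1 _
    · rintro m hm ⟨α, β⟩
      dsimp only
      rw [lm_entry, map_sum, Finset.mul_sum]
      apply int_sum
      intro a _
      rw [map_sum, Finset.mul_sum]
      apply int_sum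
      intro e _
      obtain ⟨z, hz⟩ := hc ((α, β), (a, e))
      obtain ⟨w, hw⟩ := hint m hm (a, e)
      refine ⟨z * w, ?_⟩
      rw [PowerSeries.coeff_C_mul]
      push_cast
      rw [← hz, ← hw, rc]
      ring

theorem lm_deg {A : Matrix ι ι ℚ[X]} {n : ℕ} (h : ∀ a b, (A a b).natDegree + 1 ≤ n)
    (hn : 1 ≤ n) (α β : Fin R) : (B.lm C A α β).natDegree + 1 ≤ n := by
  have h1 : (B.lm C A α β).natDegree ≤ n - 1 := by
    rw [lm_entry]
    refine natDegree_sum_le_of_forall_le _ _ fun a _ => ?_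
    refine natDegree_sum_le_of_forall_le _ _ fun d _ => ?_
    refine (natDegree_C_mul_le _ _).trans ?_
    have := h a d
    omega
  omega

end Pool.Agent.Helper79.GC
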