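import Pool.Agent.Helper79.GC.GaugeFund
import Pool.Agent.Helper79.GC.LModFund

/-!
# GC-51: independence of the block functions

Let `v ∈ ℚ[X]^R` with `∑_a v_a (Φ νl^k)_{a i₀} = 0` for all `k`, `Φ = lm W`, `νl = lm N`. Then `Φ νl^k = lm (W N^k)` and by `lm_col`
`∑_α v_α crd_α(W N^k) = 0`, i.e. `∑_α v_α ∑_ab u^α_ab (W N^k)_ab = 0`. Now `W = κ V⁻¹ Y`, `V = x^D Z`, `V⁻¹ = s^D (det Z)⁻¹ adj Z`. Multiply by
`det Z / κ s^D ≠ 0`: `pairE ω (Y N^k) = 0` with `ω = (adj Z)ᵀ * (∑_α v_α • u^α)` (`pairE_mul_left`), so `ω ∈ Rel Y N`.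
By `rel_right` `ω * cX (g_β)ᵀ ∈ Rel Y N`, and `Z` satisfies all relations: `0 = pairE (ω g_βᵀ) Z = pairE ω (Z g_β)`
`= pairE (∑ v_α u^α) (adj Z * Z * g_β) = det Z * ∑_α v_α ∑ u^α_ab (g_β)_ab = det Z * v_β`. So `v_β = 0`.
-/

open Polynomial

namespace Pool.Agent.Helper79.GC

open Pool.Agent.Helper37.GP

variable {ι : Type} [Fintype ι] [DecidableEq ι] {R : ℕ}

/-- the polynomial matrix `∑ v_α u^α` -/
noncomputable def bindOm (B : AlgBasis ι R) (v : Fin R → ℚ[X]) : Matrix ι ι ℚ[X] :=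
  ∑ α, v α • cX (B.u α)

theorem bind_pair (B : AlgBasis ι R) (v : Fin R → ℚ[X]) (G : Matrix ι ι (LaurentSeries ℚ)) :
    pairE (bindOm B v) G = ∑ α, emb (v α) * B.crd (algebraMap ℚ (LaurentSeries ℚ)) G α := by
  unfold pairE bindOm AlgBasis.crd
  simp only [Matrix.sum_apply, Matrix.smul_apply, smul_eq_mul, map_sum, map_mul, cX_apply, emb_C,
    Finset.sum_mul, Finset.mul_sum]
  have h1 : ∀ a : ι, ∑ b, ∑ α, emb (v α) * algebraMap ℚ (LaurentSeries ℚ) (B.u α a b) * G a b =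
      ∑ α, ∑ b, emb (v α) * algebraMap ℚ (LaurentSeries ℚ) (B.u α a b) * G a b :=
    fun a => Finset.sum_comm
  rw [Finset.sum_congr rfl fun a _ => h1 a, Finset.sum_comm]
  refine Finset.sum_congr rfl fun α _ => Finset.sum_congr rfl fun a _ =>
    Finset.sum_congr rfl fun b _ => ?_
  ring

theorem ps_comp_C : (HahnSeries.ofPowerSeries ℤ ℚ).comp PowerSeries.C =
    algebraMap ℚ (LaurentSeries ℚ) := by
  ext1 r
  exact Subst12.ps_C r

theorem block_ind {T : ℤ[X]} (hT : T ≠ 0) {A : Matrix ι ι ℚ[X]}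
    {Y W : Matrix ι ι (PowerSeries ℚ)} {N : Matrix ι ι ℚ}
    (h : IsFund (T.map (Int.castRingHom ℚ)) A Y N) (B : AlgBasis ι R)
    (hB : ∀ M, M ∈ GG Y N ↔ ∃ c : Fin R → ℚ, M = ∑ α, c α • B.g α) {D κ : ℕ}
    {Z : Matrix ι ι ℤ[X]} (hκ : 1 ≤ κ) (hZ : Z.det ≠ 0)
    (hrel : ∀ w ∈ Rel Y N, pairE w (eM (zM Z)) = 0)
    (hW : (κ : ℚ) • pM Y = (xx ^ D • eM (zM Z)) * pM W) (hWG : ∀ n, coP n W ∈ GG Y N)
    (v : Fin R → ℚ[X])
    (hv : ∀ k : ℕ, ∑ a, emb (v a) *
      ps ((B.lm PowerSeries.C W * cP (B.lm (RingHom.id ℚ) N ^ k)) a B.i₀) = 0) : v = 0 := by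
  have hT' : T.map (Int.castRingHom ℚ) ≠ 0 :=
    (Polynomial.map_ne_zero_iff (Int.castRingHom ℚ).injective_int).2 hT
  set φ := algebraMap ℚ (LaurentSeries ℚ) with hφ
  have hdet : (zM Z).det = Z.det.map (Int.castRingHom ℚ) := det_map_int Z
  have hd : emb (Z.det.map (Int.castRingHom ℚ)) ≠ 0 := emb_map_ne_zero hZ
  -- membership
  have mN : ∀ k, B.Mem (RingHom.id ℚ) (N ^ k) := fun k =>
    (mem_id B).2 ((hB _).1 (gg_pow hT' h k))
  have mcN : ∀ k, B.Mem φ (cM (N ^ k)) := by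
    intro k
    have h1 := mem_map B (RingHom.id ℚ) φ (mN k)
    rw [RingHom.comp_id] at h1
    exact h1
  have mW : B.Mem φ (pM W) := by
    have h1 := mem_of_coP B (M := W) fun n => (hB _).1 (hWG n)
    have h2 := mem_map B PowerSeries.C (HahnSeries.ofPowerSeries ℤ ℚ) h1
    rw [ps_comp_C] at h2
    exact h2
  -- step 1
  have s1 : ∀ k, pairE (bindOm B v) (pM W * cM (N ^ k)) = 0 := by
    intro k
    rw [bind_pair, ← hv k]
    refine Finset.sum_congr rfl fun α _ => ?_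
    congr 1
    rw [← pM_apply, pM_mul, pM_cP, pM_lm]
    have h1 : B.lm (RingHom.id ℚ) N ^ k = B.lm (RingHom.id ℚ) (N ^ k) := by
      have := mN 1
      rw [pow_one] at this
      exact (lm_pow B (RingHom.id ℚ) this k).symm
    rw [h1, cM_lm, ← lm_mul B _ mW (mcN k), lm_col]
  -- step 3
  set ω : Matrix ι ι ℚ[X] := (zM Z).adjugate.transpose * bindOm B v with hω
  have hκ' : (κ : ℚ) ≠ 0 := by
    have : (κ : ℚ) ≥ 1 := by exact_mod_cast hκ
    intro h0
    rw [h0] at this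
    norm_num at this
  have s3 : ω ∈ Rel Y N := by
    intro k
    rw [hω, ← pairE_mul_left]
    have h1 : (κ : ℚ) • (eM (zM Z).adjugate * (pM Y * cM (N ^ k))) =
        (xx ^ D * emb (Z.det.map (Int.castRingHom ℚ))) • (pM W * cM (N ^ k)) := by
      rw [← mul_assoc, ← Matrix.smul_mul, ← Matrix.mul_smul, hW, Matrix.smul_mul, Matrix.mul_smul,
        ← mul_assoc, ← eM_mul, Matrix.adjugate_mul, hdet, eM_smul, eM_one, Matrix.smul_mul,
        Matrix.smul_mul, Matrix.smul_mul, one_mul, smul_smul]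
    have h2 : (κ : ℚ) • pairE (bindOm B v) (eM (zM Z).adjugate * (pM Y * cM (N ^ k))) = 0 := by
      rw [← pairE_ratsmul_right, h1, pairE_smul_right, s1 k, mul_zero]
    rcases smul_eq_zero.1 h2 with h3 | h3
    · exact absurd h3 hκ'
    · exact h3
  -- step 4
  have s4 : ∀ β, pairE (bindOm B v) (cM (B.g β)) = 0 := by
    intro β
    have hg : B.g β ∈ GG Y N := by
      refine (hB _).2 ⟨fun α => if α = β then 1 else 0, ?_⟩
      simp [ite_smul]
    have h1 := hrel _ (rel_right hT' h s3 hg)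
    rw [← pairE_mul_right, hω, ← pairE_mul_left, ← mul_assoc, ← eM_mul, Matrix.adjugate_mul, hdet,
      eM_smul, eM_one, Matrix.smul_mul, one_mul, pairE_smul_right] at h1
    rcases mul_eq_zero.1 h1 with h3 | h3
    · exact absurd h3 hd
    · exact h3
  -- step 5
  funext β
  have h1 := s4 β
  rw [bind_pair] at h1
  have h2 : ∀ α, B.crd φ (cM (B.g β)) α = if α = β then 1 else 0 := fun α =>
    lmod_crd_g B φ β α
  have h4 : ∑ α, emb (v α) * (if α = β then (1 : LaurentSeries ℚ) else 0) = 0 := by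
    refine Eq.trans (Finset.sum_congr rfl fun α _ => ?_) h1
    exact congrArg (fun z => emb (v α) * z) (h2 α).symm
  simp only [mul_ite, mul_one, mul_zero, Finset.sum_ite_eq', Finset.mem_univ, if_true] at h4
  have h3 : v β = 0 := emb_injective (by rw [h4, map_zero])
  rw [h3]
  rfl

end Pool.Agent.Helper79.GC
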