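import Pool.Agent.Helper79.GC.Base
import Pool.Agent.Helper37.GP.Bounds

/-!
# GC-25: from formal identities to analytic ones and back

`GBound H f` : `|f_n| ≤ H^(n+1)`, so `cev f` is analytic on `‖x‖ < 1/H` (Mathlib: `FormalMultilinearSeries`,
`HasFPowerSeriesOnBall`, or `hasSum`/`differentiableOn_tsum_of_summable_norm`).

* `form_cev`: multiply by `x^D`, `D ≥ deg P_a`: `x^D emb(P_a)` is a polynomial in `x = 1/s` (reflected), so the formal identity is an
  identity of power series in `x`; conversely a power series identity from the analytic identity on a punctured ball.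
-/

open Polynomial Filter Topology

namespace Pool.Agent.Helper79.GC

open Pool.Agent.Helper37.GP

namespace CevAux

/-- absolute convergence at `x` -/
def CS (f : PowerSeries ℚ) (x : ℂ) : Prop :=
  Summable fun n : ℕ => ‖((PowerSeries.coeff n f : ℚ) : ℂ) * x ^ n‖

lemma norm_ratCast (q : ℚ) : ‖(q : ℂ)‖ = ((|q| : ℚ) : ℝ) := by
  rw [← Complex.ofReal_ratCast, Complex.norm_real, Real.norm_eq_abs, ← Rat.cast_abs]

lemma term_le {H : ℕ} {f : PowerSeries ℚ} (hf : GBound H f) {x : ℂ} {r : ℝ} (hx : ‖x‖ ≤ r) (n : ℕ) :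
    ‖((PowerSeries.coeff n f : ℚ) : ℂ) * x ^ n‖ ≤ (H : ℝ) * ((H : ℝ) * r) ^ n := by
  have hr : 0 ≤ r := (norm_nonneg x).trans hx
  rw [norm_mul, norm_pow, norm_ratCast]
  have h1 : ((|PowerSeries.coeff n f| : ℚ) : ℝ) ≤ (H : ℝ) ^ (n + 1) := by
    have := hf n
    exact_mod_cast this
  calc ((|PowerSeries.coeff n f| : ℚ) : ℝ) * ‖x‖ ^ n ≤ (H : ℝ) ^ (n + 1) * r ^ n :=
        mul_le_mul h1 (pow_le_pow_left₀ (norm_nonneg _) hx _) (by positivity) (by positivity)
    _ = (H : ℝ) * ((H : ℝ) * r) ^ n := by rw [mul_pow, pow_succ]; ring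

lemma geo_summable {H : ℕ} (hH : 1 ≤ H) {r : ℝ} (hr0 : 0 ≤ r) (hr : r < 1 / (H : ℝ)) :
    Summable fun n : ℕ => (H : ℝ) * ((H : ℝ) * r) ^ n := by
  have hH' : (0 : ℝ) < H := by exact_mod_cast hH
  refine (summable_geometric_of_lt_one (by positivity) ?_).mul_left _
  rw [lt_div_iff₀ hH'] at hr
  linarith

lemma cs_gbound {H : ℕ} (hH : 1 ≤ H) {f : PowerSeries ℚ} (hf : GBound H f) {x : ℂ}
    (hx : ‖x‖ < 1 / (H : ℝ)) : CS f x :=
  Summable.of_nonneg_of_le (fun _ => norm_nonneg _) (fun n => term_le hf le_rfl n)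
    (geo_summable hH (norm_nonneg x) hx)

lemma CS.summable {f : PowerSeries ℚ} {x : ℂ} (h : CS f x) :
    Summable fun n : ℕ => ((PowerSeries.coeff n f : ℚ) : ℂ) * x ^ n := h.of_norm

lemma cev_add_of {f g : PowerSeries ℚ} {x : ℂ} (hf : CS f x) (hg : CS g x) :
    cev (f + g) x = cev f x + cev g x := by
  unfold cev
  rw [← hf.summable.tsum_add hg.summable]
  refine tsum_congr fun n => ?_
  rw [map_add]
  push_cast
  ring

lemma CS.add {f g : PowerSeries ℚ} {x : ℂ} (hf : CS f x) (hg : CS g x) : CS (f + g) x := by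
  have hf' : Summable fun n : ℕ => ‖((PowerSeries.coeff n f : ℚ) : ℂ) * x ^ n‖ := hf
  have hg' : Summable fun n : ℕ => ‖((PowerSeries.coeff n g : ℚ) : ℂ) * x ^ n‖ := hg
  refine Summable.of_nonneg_of_le (fun _ => norm_nonneg _) (fun n => ?_) (hf'.add hg')
  have e : ((PowerSeries.coeff n (f + g) : ℚ) : ℂ) * x ^ n =
      ((PowerSeries.coeff n f : ℚ) : ℂ) * x ^ n + ((PowerSeries.coeff n g : ℚ) : ℂ) * x ^ n := by
    rw [map_add]
    push_cast
    ring
  rw [e]
  exact norm_add_le _ _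

lemma mul_term (f g : PowerSeries ℚ) (x : ℂ) (n : ℕ) :
    ((PowerSeries.coeff n (f * g) : ℚ) : ℂ) * x ^ n =
      ∑ p ∈ Finset.HasAntidiagonal.antidiagonal n, (((PowerSeries.coeff p.1 f : ℚ) : ℂ) * x ^ p.1) *
        (((PowerSeries.coeff p.2 g : ℚ) : ℂ) * x ^ p.2) := by
  rw [PowerSeries.coeff_mul]
  push_cast
  rw [Finset.sum_mul]
  refine Finset.sum_congr rfl fun p hp => ?_
  have : p.1 + p.2 = n := Finset.HasAntidiagonal.mem_antidiagonal.1 hp
  rw [← this, pow_add]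
  ring

lemma cev_mul_of {f g : PowerSeries ℚ} {x : ℂ} (hf : CS f x) (hg : CS g x) :
    cev (f * g) x = cev f x * cev g x := by
  unfold cev
  rw [tsum_mul_tsum_eq_tsum_sum_antidiagonal_of_summable_norm hf hg]
  exact tsum_congr fun n => mul_term f g x n

lemma CS.mul {f g : PowerSeries ℚ} {x : ℂ} (hf : CS f x) (hg : CS g x) : CS (f * g) x := by
  have h := summable_norm_sum_mul_antidiagonal_of_summable_norm hf hg
  refine h.congr fun n => ?_
  rw [mul_term f g x n]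

lemma cs_zero (x : ℂ) : CS 0 x := by
  unfold CS
  simp only [map_zero, Rat.cast_zero, zero_mul, norm_zero]
  exact summable_zero

lemma cev_zero' (x : ℂ) : cev 0 x = 0 := by
  unfold cev
  simp

lemma cs_sum {ι : Type} (s : Finset ι) (f : ι → PowerSeries ℚ) {x : ℂ} (h : ∀ a ∈ s, CS (f a) x) :
    CS (∑ a ∈ s, f a) x ∧ cev (∑ a ∈ s, f a) x = ∑ a ∈ s, cev (f a) x := by
  classical
  induction s using Finset.induction_on with
  | empty => simp [cs_zero, cev_zero']
  | insert a s ha ih =>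
    rw [Finset.sum_insert ha, Finset.sum_insert ha]
    have h1 := h a (Finset.mem_insert_self a s)
    obtain ⟨h2, h3⟩ := ih fun b hb => h b (Finset.mem_insert_of_mem hb)
    exact ⟨h1.add h2, by rw [cev_add_of h1 h2, h3]⟩

lemma cs_poly (Q : ℚ[X]) (x : ℂ) : CS (Q : PowerSeries ℚ) x := by
  refine summable_of_ne_finset_zero (s := Finset.range (Q.natDegree + 1)) fun n hn => ?_
  rw [Polynomial.coeff_coe, Polynomial.coeff_eq_zero_of_natDegree_lt
    (by rw [Finset.mem_range] at hn; omega)]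
  simp

lemma cev_poly (Q : ℚ[X]) (x : ℂ) : cev (Q : PowerSeries ℚ) x = aeval x Q := by
  unfold cev
  rw [tsum_eq_sum (s := Finset.range (Q.natDegree + 1)), aeval_eq_sum_range]
  · refine Finset.sum_congr rfl fun n _ => ?_
    rw [Polynomial.coeff_coe, Algebra.smul_def]
    rfl
  · intro n hn
    rw [Polynomial.coeff_coe, Polynomial.coeff_eq_zero_of_natDegree_lt
      (by rw [Finset.mem_range] at hn; omega)]
    simp

/-- a polynomial in `s` in terms of its reflection -/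
lemma emb_reflect {D : ℕ} {P : ℚ[X]} (h : P.natDegree ≤ D) :
    emb P = ps ((reflect D P : ℚ[X]) : PowerSeries ℚ) * emb X ^ D := by
  have h1 := Subst12.eval₂_mul_pow (algebraMap ℚ (LaurentSeries ℚ)) (emb X) xx xx_mul_emb_X D P h
  have h2 := Subst12.eval₂_ps (reflect D P) PowerSeries.X
  rw [Subst12.ps_X] at h2
  have h3 : eval₂ PowerSeries.C PowerSeries.X (reflect D P) =
      ((reflect D P : ℚ[X]) : PowerSeries ℚ) := Polynomial.eval₂_C_X_eq_coe
  rw [h3] at h2
  change eval₂ (algebraMap ℚ (LaurentSeries ℚ)) xx (reflect D P) = _ at h2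
  rw [← h2, h1, emb_X]
  rfl

lemma aeval_reflect {D : ℕ} {P : ℚ[X]} (h : P.natDegree ≤ D) {u : ℂ} (hu : u ≠ 0) :
    aeval u P = aeval u⁻¹ (reflect D P) * u ^ D :=
  (Subst12.eval₂_mul_pow (algebraMap ℚ ℂ) u u⁻¹ (inv_mul_cancel₀ hu) D P h).symm

section form

variable {ι : Type} [Fintype ι]

/-- a common degree bound -/
lemma deg_le (P : ι → ℚ[X]) (a : ι) : (P a).natDegree ≤ ∑ b, (P b).natDegree :=
  Finset.single_le_sum (f := fun b => (P b).natDegree) (fun _ _ => Nat.zero_le _)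
    (Finset.mem_univ a)

/-- the power series of the relation -/
noncomputable def rel (P : ι → ℚ[X]) (f : ι → PowerSeries ℚ) : PowerSeries ℚ :=
  ∑ a, ((reflect (∑ b, (P b).natDegree) (P a) : ℚ[X]) : PowerSeries ℚ) * f a

lemma emb_X_ne_zero : emb X ≠ 0 := by
  intro h
  have := xx_mul_emb_X
  rw [h, mul_zero] at this
  exact zero_ne_one this

lemma form_eq (P : ι → ℚ[X]) (f : ι → PowerSeries ℚ) :
    ∑ a, emb (P a) * ps (f a) = ps (rel P f) * emb X ^ (∑ b, (P b).natDegree) := by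
  unfold rel
  rw [Subst12.ps_sum, Finset.sum_mul]
  refine Finset.sum_congr rfl fun a _ => ?_
  rw [emb_reflect (deg_le P a), Subst12.ps_mul]
  ring

lemma form_iff (P : ι → ℚ[X]) (f : ι → PowerSeries ℚ) :
    ∑ a, emb (P a) * ps (f a) = 0 ↔ rel P f = 0 := by
  rw [form_eq]
  constructor
  · intro h
    rcases mul_eq_zero.1 h with h1 | h1
    · apply Subst12.ps_injective
      rw [h1]
      exact (map_zero (HahnSeries.ofPowerSeries ℤ ℚ)).symm
    · exact absurd h1 (pow_ne_zero _ emb_X_ne_zero)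
  · intro h
    rw [h]
    have : ps 0 = 0 := map_zero (HahnSeries.ofPowerSeries ℤ ℚ)
    rw [this, zero_mul]

lemma val_eq (P : ι → ℚ[X]) (f : ι → PowerSeries ℚ) {u : ℂ} (hu : u ≠ 0)
    (hs : ∀ a, CS (f a) u⁻¹) :
    ∑ a, aeval u (P a) * cev (f a) u⁻¹ = cev (rel P f) u⁻¹ * u ^ (∑ b, (P b).natDegree) := by
  unfold rel
  rw [(cs_sum Finset.univ _ (fun a _ => (cs_poly _ u⁻¹).mul (hs a))).2, Finset.sum_mul]
  refine Finset.sum_congr rfl fun a _ => ?_
  rw [cev_mul_of (cs_poly _ u⁻¹) (hs a), cev_poly, aeval_reflect (deg_le P a) hu]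
  ring

lemma form_to_cev {P : ι → ℚ[X]} {f : ι → PowerSeries ℚ} {u : ℂ} (hu : u ≠ 0)
    (hs : ∀ a, CS (f a) u⁻¹) (h : ∑ a, emb (P a) * ps (f a) = 0) :
    ∑ a, aeval u (P a) * cev (f a) u⁻¹ = 0 := by
  rw [val_eq P f hu hs, (form_iff P f).1 h, cev_zero', zero_mul]

end form

/-- the power series of the function `cev f` -/
lemma cev_hasFPowerSeriesAt {f : PowerSeries ℚ} {r : ℝ} (hr : 0 < r)
    (h : ∀ x : ℂ, ‖x‖ < r → CS f x) :
    HasFPowerSeriesAt (cev f)
      (FormalMultilinearSeries.ofScalars ℂ fun n => ((PowerSeries.coeff n f : ℚ) : ℂ)) 0 := by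
  rw [hasFPowerSeriesAt_iff]
  filter_upwards [Metric.ball_mem_nhds (0 : ℂ) hr] with z hz
  rw [mem_ball_zero_iff] at hz
  rw [zero_add]
  have h1 := (h z hz).summable.hasSum
  have e : (fun n : ℕ => z ^ n • (FormalMultilinearSeries.ofScalars ℂ
      (fun n => ((PowerSeries.coeff n f : ℚ) : ℂ))).coeff n) =
      fun n : ℕ => ((PowerSeries.coeff n f : ℚ) : ℂ) * z ^ n := by
    funext n
    rw [FormalMultilinearSeries.coeff_ofScalars, smul_eq_mul, mul_comm]
  rw [e]
  exact h1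

lemma eq_zero_of_cev {f : PowerSeries ℚ} {r : ℝ} (hr : 0 < r)
    (h : ∀ x : ℂ, ‖x‖ < r → CS f x) (h0 : ∀ x : ℂ, x ≠ 0 → ‖x‖ < r → cev f x = 0) : f = 0 := by
  have hp := cev_hasFPowerSeriesAt hr h
  have h1 : ∀ᶠ z in 𝓝[≠] (0 : ℂ), cev f z = 0 := by
    filter_upwards [self_mem_nhdsWithin, mem_nhdsWithin_of_mem_nhds (Metric.ball_mem_nhds (0 : ℂ) hr)]
      with z hz hz'
    rw [mem_ball_zero_iff] at hz'
    exact h0 z hz hz'
  have h2 := (hp.analyticAt.frequently_zero_iff_eventually_zero).1 h1.frequently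
  have h3 := hp.eq_zero_of_eventually h2
  ext n
  have h4 : (FormalMultilinearSeries.ofScalars ℂ
      (fun n => ((PowerSeries.coeff n f : ℚ) : ℂ))).coeff n = 0 := by
    rw [FormalMultilinearSeries.coeff_eq_zero, h3]
    rfl
  rw [FormalMultilinearSeries.coeff_ofScalars] at h4
  rw [map_zero]
  exact_mod_cast h4

end CevAux

open CevAux

theorem cev_analytic {H : ℕ} (hH : 1 ≤ H) {f : PowerSeries ℚ} (hf : GBound H f) :
    AnalyticOnNhd ℂ (cev f) (Metric.ball 0 (1 / (H : ℝ))) := by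
  intro x hx
  rw [mem_ball_zero_iff] at hx
  obtain ⟨r, hr1, hr2⟩ := exists_between hx
  have hr0 : 0 ≤ r := (norm_nonneg x).trans hr1.le
  have hd : DifferentiableOn ℂ (cev f) (Metric.ball 0 r) := by
    refine Complex.differentiableOn_tsum_of_summable_norm (geo_summable hH hr0 hr2) ?_
      Metric.isOpen_ball ?_
    · intro n
      exact ((differentiable_const _).mul (differentiable_id.pow n)).differentiableOn
    · intro n w hw
      rw [mem_ball_zero_iff] at hw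
      exact term_le hf hw.le n
  exact hd.analyticAt (Metric.isOpen_ball.mem_nhds (by rw [mem_ball_zero_iff]; exact hr1))

theorem cev_zero (f : PowerSeries ℚ) : cev f 0 = ((PowerSeries.constantCoeff f : ℚ) : ℂ) := by
  unfold cev
  rw [tsum_eq_single 0]
  · simp
  · intro n hn
    rw [zero_pow hn, mul_zero]

theorem cev_pev (f : PowerSeries ℚ) (s : ℝ) : cev f ((1 / s : ℝ) : ℂ) = ((pev f s : ℝ) : ℂ) := by
  unfold cev pev
  rw [Complex.ofReal_tsum]
  refine tsum_congr fun n => ?_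
  push_cast
  rfl

theorem cev_add {H : ℕ} (hH : 1 ≤ H) {f g : PowerSeries ℚ} (hf : GBound H f) (hg : GBound H g)
    {x : ℂ} (hx : ‖x‖ < 1 / (H : ℝ)) : cev (f + g) x = cev f x + cev g x :=
  cev_add_of (cs_gbound hH hf hx) (cs_gbound hH hg hx)

theorem cev_mul {H : ℕ} (hH : 1 ≤ H) {f g : PowerSeries ℚ} (hf : GBound H f) (hg : GBound H g)
    {x : ℂ} (hx : ‖x‖ < 1 / (H : ℝ)) : cev (f * g) x = cev f x * cev g x :=
  cev_mul_of (cs_gbound hH hf hx) (cs_gbound hH hg hx)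

theorem cev_C (c : ℚ) (x : ℂ) : cev (PowerSeries.C c) x = (c : ℂ) := by
  unfold cev
  rw [tsum_eq_single 0]
  · simp
  · intro n hn
    rw [PowerSeries.coeff_C, if_neg hn]
    simp

theorem form_cev {ι : Type} [Fintype ι] {H : ℕ} (hH : 1 ≤ H) (f : ι → PowerSeries ℚ)
    (hf : ∀ a, GBound H (f a)) (P : ι → ℚ[X]) :
    ∑ a, emb (P a) * ps (f a) = 0 ↔
      ∀ u : ℂ, (H : ℝ) < ‖u‖ → ∑ a, aeval u (P a) * cev (f a) u⁻¹ = 0 := by
  have hH' : (0 : ℝ) < H := by exact_mod_cast hH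
  have hinv : ∀ u : ℂ, (H : ℝ) < ‖u‖ → u ≠ 0 ∧ ‖u⁻¹‖ < 1 / (H : ℝ) := by
    intro u hu
    have h0 : 0 < ‖u‖ := hH'.trans hu
    refine ⟨norm_pos_iff.1 h0, ?_⟩
    rw [norm_inv, one_div]
    exact inv_strictAnti₀ hH' hu
  constructor
  · intro h u hu
    obtain ⟨h1, h2⟩ := hinv u hu
    exact form_to_cev h1 (fun a => cs_gbound hH (hf a) h2) h
  · intro h
    rw [form_iff]
    have hcs : ∀ x : ℂ, ‖x‖ < 1 / (H : ℝ) → CS (rel P f) x := fun x hx =>
      (cs_sum Finset.univ _ (fun a _ => (cs_poly _ x).mul (cs_gbound hH (hf a) hx))).1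
    refine eq_zero_of_cev (r := 1 / (H : ℝ)) (by positivity) hcs ?_
    intro x hx0 hx
    have hu0 : x⁻¹ ≠ 0 := inv_ne_zero hx0
    have hu : (H : ℝ) < ‖x⁻¹‖ := by
      rw [norm_inv, lt_inv_comm₀ hH' (norm_pos_iff.2 hx0), ← one_div]
      exact hx
    have h1 := h x⁻¹ hu
    rw [val_eq P f hu0 (fun a => by rw [inv_inv]; exact cs_gbound hH (hf a) hx), inv_inv] at h1
    rcases mul_eq_zero.1 h1 with h2 | h2
    · exact h2
    · exact absurd h2 (pow_ne_zero _ hu0)

end Pool.Agent.Helper79.GC
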