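import Pool.Agent.Helper79.GC.Base

/-!
# GC-21: the matrix exponential `exp(w N)` of a rational matrix

Mathlib: `Matrix.exp_add_of_commute`, `Matrix.exp_neg`, `NormedSpace.exp_eq_tsum`, `hasDerivAt_exp_smul_const`
(with the local instances `Matrix.linftyOpNormedRing`, `Matrix.linftyOpNormedAlgebra`), `NormedSpace.exp_continuous`.

* `cexpM_poly`: `exp(w N)` is a complex polynomial in `N` (the algebra generated by a matrix is finite dimensional, hence
  closed, and contains all partial sums).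
* `cexpM_mulVec_eq`: if `νl νr = νr νl` and the columns `i₀` of `νl` and `νr` agree then `νl^k e = νr^k e` for
  `e` the `i₀`-th unit vector, so `exp(w νl) e = exp(w νr) e`.

Proofs by helper87.
-/

set_option linter.unusedSectionVars false

open Polynomial Filter Topology

namespace Pool.Agent.Helper79.GC

open Pool.Agent.Helper37.GP

variable {ι : Type} [Fintype ι] [DecidableEq ι]

theorem qC_mul {κ μ : Type} [Fintype κ] (A : Matrix ι κ ℚ) (B : Matrix κ μ ℚ) :
    qC (A * B) = qC A * qC B := by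
  ext i j
  simp only [qC, Matrix.map_apply, Matrix.mul_apply, map_sum, map_mul]

theorem qC_one : qC (1 : Matrix ι ι ℚ) = 1 := by
  ext i j
  simp only [qC, Matrix.map_apply, Matrix.one_apply]
  split_ifs <;> simp

theorem qC_add (A B : Matrix ι ι ℚ) : qC (A + B) = qC A + qC B := by
  ext i j
  simp only [qC, Matrix.map_apply, Matrix.add_apply, map_add]

theorem qC_pow (A : Matrix ι ι ℚ) (k : ℕ) : qC (A ^ k) = qC A ^ k := by
  induction k with
  | zero => rw [pow_zero, pow_zero, qC_one]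
  | succ k ih => rw [pow_succ, pow_succ, qC_mul, ih]

theorem cexpM_zero (N : Matrix ι ι ℚ) : cexpM 0 N = 1 := by
  rw [cexpM, zero_smul, NormedSpace.exp_zero]

theorem cexpM_add (w w' : ℂ) (N : Matrix ι ι ℚ) : cexpM (w + w') N = cexpM w N * cexpM w' N := by
  rw [cexpM, add_smul]
  exact Matrix.exp_add_of_commute _ _ (((Commute.refl (qC N)).smul_left w).smul_right w')

theorem cexpM_neg (w : ℂ) (N : Matrix ι ι ℚ) : cexpM (-w) N * cexpM w N = 1 := by
  rw [← cexpM_add, neg_add_cancel, cexpM_zero]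

theorem cexpM_isUnit (w : ℂ) (N : Matrix ι ι ℚ) : IsUnit (cexpM w N).det :=
  (Matrix.isUnit_iff_isUnit_det _).1 (Matrix.isUnit_exp _)

theorem cexpM_comm (w : ℂ) {N : Matrix ι ι ℚ} {M : Matrix ι ι ℂ} (h : qC N * M = M * qC N) :
    cexpM w N * M = M * cexpM w N := by
  have h1 : Commute (w • qC N) M := Commute.smul_left h w
  exact h1.exp_left

theorem cexpM_add_matrix (w : ℂ) {N M : Matrix ι ι ℚ} (h : N * M = M * N) :
    cexpM w (N + M) = cexpM w N * cexpM w M := by
  rw [cexpM, qC_add, smul_add]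
  have h1 : Commute (qC N) (qC M) := by
    rw [Commute, SemiconjBy, ← qC_mul, ← qC_mul, h]
  exact Matrix.exp_add_of_commute _ _ ((h1.smul_left w).smul_right w)

set_option backward.isDefEq.respectTransparency false in
theorem cexpM_hasDerivAt (w : ℂ) (N : Matrix ι ι ℚ) (a b : ι) :
    HasDerivAt (fun w => cexpM w N a b) ((qC N * cexpM w N) a b) w := by
  open scoped Matrix.Norms.Operator in
  have h := hasDerivAt_exp_smul_const' (𝕂 := ℂ) (qC N) w
  let L : Matrix ι ι ℂ →ₗ[ℂ] ℂ :=
    { toFun := fun M => M a b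
      map_add' := fun _ _ => rfl
      map_smul' := fun _ _ => rfl }
  have h2 := (LinearMap.toContinuousLinearMap L).hasFDerivAt.comp_hasDerivAt w h
  exact h2

theorem cexpM_analytic (N : Matrix ι ι ℚ) (a b : ι) :
    AnalyticOnNhd ℂ (fun w => cexpM w N a b) Set.univ := by
  apply DifferentiableOn.analyticOnNhd _ isOpen_univ
  intro w _
  exact (cexpM_hasDerivAt w N a b).differentiableAt.differentiableWithinAt

theorem cexpM_poly (w : ℂ) (N : Matrix ι ι ℚ) : ∃ (n : ℕ) (c : ℕ → ℂ),
    cexpM w N = ∑ k ∈ Finset.range n, c k • qC (N ^ k) := by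
  have hcl : ∀ s : Submodule ℂ (Matrix ι ι ℂ), IsClosed (s : Set (Matrix ι ι ℂ)) := fun s =>
    s.closed_of_finiteDimensional
  have h1 : cexpM w N ∈ Algebra.adjoin ℂ {qC N} := by
    have hc : IsClosed ((Algebra.adjoin ℂ {qC N} : Subalgebra ℂ (Matrix ι ι ℂ)) :
        Set (Matrix ι ι ℂ)) := hcl (Subalgebra.toSubmodule (Algebra.adjoin ℂ {qC N}))
    have hm : w • qC N ∈ Algebra.adjoin ℂ {qC N} :=
      Subalgebra.smul_mem _ (Algebra.self_mem_adjoin_singleton ℂ (qC N)) _
    rw [cexpM, NormedSpace.exp_eq_tsum ℂ]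
    exact tsum_mem (s := Algebra.adjoin ℂ {qC N}) hc fun i =>
      Subalgebra.smul_mem _ (Subalgebra.pow_mem _ hm i) _
  rw [Algebra.adjoin_singleton_eq_range_aeval] at h1
  obtain ⟨p, hp⟩ := h1
  refine ⟨p.natDegree + 1, p.coeff, ?_⟩
  rw [← hp]
  have h2 := Polynomial.aeval_eq_sum_range (S := Matrix ι ι ℂ) (p := p) (qC N)
  simp only [qC_pow]
  exact h2

set_option backward.isDefEq.respectTransparency false in
open scoped Matrix.Norms.Operator in
theorem cexpM_mulVec_eq (w : ℂ) {νl νr : Matrix ι ι ℚ} (h : νl * νr = νr * νl) {i₀ : ι}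
    (h0 : ∀ a, νl a i₀ = νr a i₀) (a : ι) : cexpM w νl a i₀ = cexpM w νr a i₀ := by
  have hpow : ∀ k : ℕ, ∀ a, (νl ^ k) a i₀ = (νr ^ k) a i₀ := by
    intro k
    induction k with
    | zero => intro a; rw [pow_zero, pow_zero]
    | succ k ih =>
      intro a
      have h1 : νl * νr ^ k = νr ^ k * νl := (Commute.pow_right h k).eq
      rw [pow_succ', Matrix.mul_apply, Finset.sum_congr rfl fun j _ => by rw [ih j],
        ← Matrix.mul_apply, h1, pow_succ, Matrix.mul_apply, Matrix.mul_apply]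
      exact Finset.sum_congr rfl fun j _ => by rw [h0 j]
  have hs : ∀ ν : Matrix ι ι ℚ, HasSum (fun n : ℕ => ((n.factorial : ℂ)⁻¹ * (w ^ n *
      ((ν ^ n) a i₀ : ℂ)))) (cexpM w ν a i₀) := by
    intro ν
    have h1 : HasSum (fun n : ℕ => ((n.factorial : ℂ)⁻¹) • (w • qC ν) ^ n) (cexpM w ν) := by
      have h3 := NormedSpace.expSeries_summable' (𝕂 := ℂ) (w • qC ν)
      have h4 := h3.hasSum
      have h5 : cexpM w ν = ∑' n : ℕ, ((n.factorial : ℂ)⁻¹) • (w • qC ν) ^ n := by
        rw [cexpM, NormedSpace.exp_eq_tsum ℂ]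
      rw [h5]
      exact h4
    have h2 := Pi.hasSum.1 (Pi.hasSum.1 h1 a) i₀
    convert h2 using 2 with n
    rw [_root_.smul_pow, ← qC_pow]
    rfl
  have h1 := hs νl
  have h2 := hs νr
  simp only [hpow] at h1
  exact h1.unique h2

end Pool.Agent.Helper79.GC
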