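import Pool.Agent.Helper79.GC.Defs2
import Pool.Agent.Helper79.GC.Cev
import Pool.Agent.Helper79.GC.CexpM

/-!
# GC-53: values of the block functions and of gauge transformations

* `block_val`: evaluating `W g_β = ∑_α Φ_{αβ} g_α` (`cev_add`, `cev_mul`, `cev_C`): `cevM W x * qC (g β) = ∑_α cev(Φ_{αβ})(x) • qC (g α)`.
  `N^k = ∑_β (νl^k)_{β i₀} g_β` (induction from `g i₀ = 1`), so `exp(w N) = ∑_β exp(w νl)_{β i₀} g_β`: the partial sums converge on both sides
  (Mathlib `NormedSpace.exp_series_hasSum_exp'` for matrices with the local instances `Matrix.linftyOpNormedRing`,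
  `Matrix.linftyOpNormedAlgebra`, entries by continuity), or: consider the derivative in `w`.
* `gauge_val`: multiply `κ Y = x^D Z W` entrywise by `x^m`, `m` large, to get an identity of power series, or use `form_cev` for the family
  `(Y_ab, W_cb)_c` and the polynomials `(κ s^D, -Z_ac)`: `κ s^D Y_ab - ∑_c Z_ac W_cb = 0`; `u = t`.
-/

open Polynomial

namespace Pool.Agent.Helper79.GC

open Pool.Agent.Helper37.GP

variable {ι : Type} [Fintype ι] [DecidableEq ι]

set_option backward.isDefEq.respectTransparency false in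
open scoped Matrix.Norms.Operator in
private theorem bv_hasSum {κ : Type} [Fintype κ] [DecidableEq κ] (w : ℂ) (ν : Matrix κ κ ℚ)
    (a c : κ) : HasSum (fun n : ℕ => ((n.factorial : ℂ)⁻¹ * (w ^ n * ((ν ^ n) a c : ℂ))))
      (cexpM w ν a c) := by
  have h1 : HasSum (fun n : ℕ => ((n.factorial : ℂ)⁻¹) • (w • qC ν) ^ n) (cexpM w ν) := by
    have h3 := NormedSpace.expSeries_summable' (𝕂 := ℂ) (w • qC ν)
    have h4 := h3.hasSum
    have h5 : cexpM w ν = ∑' n : ℕ, ((n.factorial : ℂ)⁻¹) • (w • qC ν) ^ n := by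
      rw [cexpM, NormedSpace.exp_eq_tsum ℂ]
    rw [h5]
    exact h4
  have h2 := Pi.hasSum.1 (Pi.hasSum.1 h1 a) c
  convert h2 using 2 with n
  rw [_root_.smul_pow, ← qC_pow]
  rfl

private theorem bv_exp {R : ℕ} {g : Fin R → Matrix ι ι ℚ} {N : Matrix ι ι ℚ}
    {νl : Matrix (Fin R) (Fin R) ℚ} {i₀ : Fin R} (h1 : g i₀ = 1)
    (h3 : ∀ β, N * g β = ∑ α, νl α β • g α) (w : ℂ) (a c : ι) :
    cexpM w N a c = ∑ β, cexpM w νl β i₀ * ((g β a c : ℚ) : ℂ) := by
  have hpow : ∀ n : ℕ, N ^ n = ∑ β, (νl ^ n) β i₀ • g β := by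
    intro n
    induction n with
    | zero =>
      rw [pow_zero, pow_zero, Finset.sum_eq_single i₀]
      · rw [Matrix.one_apply_eq, one_smul, h1]
      · intro β _ hβ
        rw [Matrix.one_apply_ne hβ, zero_smul]
      · intro h
        exact absurd (Finset.mem_univ _) h
    | succ n ih =>
      rw [pow_succ', ih, Finset.mul_sum]
      have e1 : ∀ β ∈ Finset.univ, N * (νl ^ n) β i₀ • g β =
          ∑ α, (νl α β * (νl ^ n) β i₀) • g α := by
        intro β _
        rw [Matrix.mul_smul, h3, Finset.smul_sum]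
        refine Finset.sum_congr rfl fun α _ => ?_
        rw [smul_smul, mul_comm]
      rw [Finset.sum_congr rfl e1, Finset.sum_comm]
      refine Finset.sum_congr rfl fun α _ => ?_
      rw [pow_succ', Matrix.mul_apply, Finset.sum_smul]
  have h4 := bv_hasSum w N a c
  have h5 : HasSum (fun n : ℕ => ∑ β, ((n.factorial : ℂ)⁻¹ * (w ^ n * ((νl ^ n) β i₀ : ℂ))) *
      ((g β a c : ℚ) : ℂ)) (∑ β, cexpM w νl β i₀ * ((g β a c : ℚ) : ℂ)) :=
    hasSum_sum fun β _ => (bv_hasSum w νl β i₀).mul_right _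
  refine h4.unique (h5.congr_fun fun n => ?_)
  rw [hpow n, Matrix.sum_apply]
  push_cast
  rw [Finset.mul_sum, Finset.mul_sum]
  refine Finset.sum_congr rfl fun β _ => ?_
  rw [Matrix.smul_apply, smul_eq_mul]
  push_cast
  ring

private theorem bv_ratsmul (c : ℚ) (f : LaurentSeries ℚ) :
    c • f = algebraMap ℚ (LaurentSeries ℚ) c * f := by
  ext n
  rw [algebraMap_eq_single, HahnSeries.coeff_single_zero_mul, HahnSeries.coeff_smul, smul_eq_mul]

private theorem bv_csC (q : ℚ) (x : ℂ) : CevAux.CS (PowerSeries.C q) x := by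
  have h := CevAux.cs_poly (Polynomial.C q) x
  rwa [Polynomial.coe_C] at h

private theorem bv_mulC {f : PowerSeries ℚ} {x : ℂ} (hf : CevAux.CS f x) (q : ℚ) :
    CevAux.CS (f * PowerSeries.C q) x ∧ cev (f * PowerSeries.C q) x = cev f x * (q : ℂ) := by
  refine ⟨hf.mul (bv_csC q x), ?_⟩
  rw [CevAux.cev_mul_of hf (bv_csC q x), cev_C]

theorem block_val {R : ℕ} (b : BlockData R) (g : Fin R → Matrix ι ι ℚ)
    {W : Matrix ι ι (PowerSeries ℚ)} {N : Matrix ι ι ℚ} (hb : ∀ a c, GBound b.H (W a c))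
    (h1 : g b.i₀ = 1) (h2 : ∀ β, W * cP (g β) = ∑ α, b.Φ α β • cP (g α))
    (h3 : ∀ β, N * g β = ∑ α, b.νl α β • g α) {x : ℂ} (hx : ‖x‖ < 1 / (b.H : ℝ)) (w : ℂ) :
    cevM W x * cexpM w N =
      ∑ α, ((cevM b.Φ x * cexpM w b.νl) α b.i₀) • qC (g α) := by
  have hcw : ∀ a c, CevAux.CS (W a c) x := fun a c =>
    CevAux.cs_gbound (le_trans (by norm_num) b.hH) (hb a c) hx
  have hcΦ : ∀ a c, CevAux.CS (b.Φ a c) x := fun a c =>
    CevAux.cs_gbound (le_trans (by norm_num) b.hH) (b.bd a c) hx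
  -- evaluate the second hypothesis
  have hval : ∀ β a c, ∑ e, cev (W a e) x * ((g β e c : ℚ) : ℂ) =
      ∑ α, cev (b.Φ α β) x * ((g α a c : ℚ) : ℂ) := by
    intro β a c
    have h4 := congrFun (congrFun (h2 β) a) c
    rw [Matrix.mul_apply, Matrix.sum_apply] at h4
    simp only [Matrix.smul_apply, cP_apply, smul_eq_mul] at h4
    have h5 := (CevAux.cs_sum Finset.univ (fun e => W a e * PowerSeries.C (g β e c))
      fun e _ => (bv_mulC (hcw a e) _).1).2
    have h6 := (CevAux.cs_sum Finset.univ (fun α => b.Φ α β * PowerSeries.C (g α a c))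
      fun α _ => (bv_mulC (hcΦ α β) _).1).2
    rw [h4, h6] at h5
    rw [← Finset.sum_congr rfl fun e _ => (bv_mulC (hcw a e) (g β e c)).2, ← h5]
    exact Finset.sum_congr rfl fun α _ => (bv_mulC (hcΦ α β) (g α a c)).2
  ext a c
  rw [Matrix.mul_apply, Matrix.sum_apply]
  have e1 : ∀ e ∈ Finset.univ, cevM W x a e * cexpM w N e c =
      ∑ β, cexpM w b.νl β b.i₀ * (cev (W a e) x * ((g β e c : ℚ) : ℂ)) := by
    intro e _
    rw [bv_exp h1 h3 w e c, Finset.mul_sum]
    refine Finset.sum_congr rfl fun β _ => ?_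
    change cev (W a e) x * _ = _
    ring
  rw [Finset.sum_congr rfl e1, Finset.sum_comm]
  have e2 : ∀ β ∈ Finset.univ, ∑ e, cexpM w b.νl β b.i₀ * (cev (W a e) x * ((g β e c : ℚ) : ℂ)) =
      ∑ α, cexpM w b.νl β b.i₀ * (cev (b.Φ α β) x * ((g α a c : ℚ) : ℂ)) := by
    intro β _
    rw [← Finset.mul_sum, hval β a c, Finset.mul_sum]
  rw [Finset.sum_congr rfl e2, Finset.sum_comm]
  refine Finset.sum_congr rfl fun α _ => ?_
  rw [Matrix.smul_apply, smul_eq_mul, Matrix.mul_apply, Finset.sum_mul]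
  refine Finset.sum_congr rfl fun β _ => ?_
  change _ = cev (b.Φ α β) x * cexpM w b.νl β b.i₀ * ((g α a c : ℚ) : ℂ)
  ring

theorem gauge_val {Y W : Matrix ι ι (PowerSeries ℚ)} {D κ : ℕ} {Z : Matrix ι ι ℤ[X]} {H : ℕ}
    (hH : 1 ≤ H) (hY : ∀ a b, GBound H (Y a b)) (hb : ∀ a b, GBound H (W a b))
    (hW : (κ : ℚ) • pM Y = (xx ^ D • eM (zM Z)) * pM W) {t : ℝ} (ht : (H : ℝ) < t) :
    ((κ : ℂ) * (t : ℂ) ^ D) • cevM Y ((1 / t : ℝ) : ℂ) =
      evM Z (t : ℂ) * cevM W ((1 / t : ℝ) : ℂ) := by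
  have hH0 : (0 : ℝ) ≤ H := Nat.cast_nonneg _
  have ht0 : (0 : ℝ) < t := lt_of_le_of_lt hH0 ht
  have htn : (H : ℝ) < ‖(t : ℂ)‖ := by
    rw [Complex.norm_real, Real.norm_of_nonneg ht0.le]
    exact ht
  have hinv : ((1 / t : ℝ) : ℂ) = (t : ℂ)⁻¹ := by
    push_cast
    rw [one_div]
  ext a c
  have h1 := congrFun (congrFun hW a) c
  rw [Matrix.smul_mul, Matrix.smul_apply, Matrix.smul_apply, Matrix.mul_apply] at h1
  -- the relation
  have hx : emb X ^ D * xx ^ D = 1 := by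
    rw [← mul_pow, emb_X_mul_xx, one_pow]
  have hrel : ∑ o : Option ι, emb (Option.elim o (Polynomial.C (κ : ℚ) * X ^ D)
      fun e => -(zM Z a e)) * ps (Option.elim o (Y a c) fun e => W e c) = 0 := by
    rw [Fintype.sum_option]
    simp only [Option.elim_none, Option.elim_some]
    have h2 : emb X ^ D * ((κ : ℚ) • pM Y a c) = ∑ e, eM (zM Z) a e * pM W e c := by
      rw [h1, smul_eq_mul, ← mul_assoc, hx, one_mul]
    have h3 : emb (Polynomial.C (κ : ℚ) * X ^ D) * ps (Y a c) =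
        ∑ e, emb (zM Z a e) * ps (W e c) := by
      calc emb (Polynomial.C (κ : ℚ) * X ^ D) * ps (Y a c)
          = emb X ^ D * ((κ : ℚ) • pM Y a c) := by
            rw [bv_ratsmul, map_mul, map_pow, emb_C, pM_apply]
            ring
        _ = _ := h2
    rw [h3, ← Finset.sum_add_distrib]
    refine Finset.sum_eq_zero fun e _ => ?_
    rw [map_neg]
    ring
  have hval := (form_cev hH (fun o : Option ι => Option.elim o (Y a c) fun e => W e c)
    (fun o => by
      cases o with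
      | none => exact hY a c
      | some e => exact hb e c)
    (fun o => Option.elim o (Polynomial.C (κ : ℚ) * X ^ D) fun e => -(zM Z a e))).1 hrel
      (t : ℂ) htn
  rw [Fintype.sum_option] at hval
  simp only [Option.elim_none, Option.elim_some] at hval
  rw [Matrix.smul_apply, smul_eq_mul, Matrix.mul_apply]
  change (κ : ℂ) * (t : ℂ) ^ D * cev (Y a c) _ = ∑ e, aeval (t : ℂ) (Z a e) * cev (W e c) _
  rw [hinv]
  have h4 : ∀ e, aeval (t : ℂ) (-(zM Z a e)) = -aeval (t : ℂ) (Z a e) := by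
    intro e
    rw [map_neg]
    congr 1
    unfold zM
    rw [Matrix.map_apply]
    have := Polynomial.aeval_map_algebraMap ℚ (t : ℂ) (Z a e)
    exact this
  simp only [h4, map_mul, aeval_C, map_pow, aeval_X, neg_mul, Finset.sum_neg_distrib] at hval
  have h5 : (algebraMap ℚ ℂ) (κ : ℚ) = (κ : ℂ) := by simp
  rw [h5] at hval
  exact add_neg_eq_zero.1 hval

end Pool.Agent.Helper79.GC
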