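import Pool.Agent.Helper79.GC.Cev

/-!
# GC-25c: the differential equation for the values

* `ode_cev`: termwise differentiation of `dd (ps f)` : `d/du (cev f u⁻¹) = cev h u⁻¹` where `ps h = dd (ps f)`,
  `h = -X² f'`; then apply `form_cev` to the identity `IsFund` entrywise (multiply by `s`: `(s T)(d/ds) = …`).
-/

open Polynomial Filter Topology

namespace Pool.Agent.Helper79.GC

open Pool.Agent.Helper37.GP

namespace CevAux

/-- the terms of the derived series -/
lemma der_term_le {H : ℕ} {f : PowerSeries ℚ} (hf : GBound H f) {x : ℂ} {r : ℝ} (hx : ‖x‖ ≤ r)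
    (n : ℕ) : ‖((PowerSeries.coeff n f : ℚ) : ℂ) * ((n : ℂ) * x ^ (n - 1))‖ ≤
      (H : ℝ) ^ 2 * ((n : ℝ) * ((H : ℝ) * r) ^ (n - 1)) := by
  have hr : 0 ≤ r := (norm_nonneg x).trans hx
  rcases Nat.eq_zero_or_pos n with h0 | h0
  · subst h0
    simp
  rw [norm_mul, norm_mul, norm_pow, norm_ratCast, Complex.norm_natCast]
  have h1 : ((|PowerSeries.coeff n f| : ℚ) : ℝ) ≤ (H : ℝ) ^ (n + 1) := by
    have := hf n
    exact_mod_cast this
  have e : (H : ℝ) ^ (n + 1) = (H : ℝ) ^ 2 * (H : ℝ) ^ (n - 1) := by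
    rw [← pow_add]
    congr 1
    omega
  calc ((|PowerSeries.coeff n f| : ℚ) : ℝ) * ((n : ℝ) * ‖x‖ ^ (n - 1)) ≤
        (H : ℝ) ^ (n + 1) * ((n : ℝ) * r ^ (n - 1)) :=
        mul_le_mul h1 (mul_le_mul_of_nonneg_left (pow_le_pow_left₀ (norm_nonneg _) hx _)
          (by positivity)) (by positivity) (by positivity)
    _ = (H : ℝ) ^ 2 * ((n : ℝ) * ((H : ℝ) * r) ^ (n - 1)) := by rw [mul_pow, e]; ring

lemma der_summable {q : ℝ} (hq0 : 0 ≤ q) (hq1 : q < 1) (C : ℝ) :
    Summable fun n : ℕ => C * ((n : ℝ) * q ^ (n - 1)) := by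
  refine Summable.mul_left _ ?_
  rw [← summable_nat_add_iff 1]
  have h1 : Summable fun n : ℕ => ((n : ℝ) ^ 1 * q ^ n : ℝ) :=
    summable_pow_mul_geometric_of_norm_lt_one 1 (by rwa [Real.norm_of_nonneg hq0])
  have h2 : Summable fun n : ℕ => q ^ n := summable_geometric_of_lt_one hq0 hq1
  refine (h1.add h2).congr fun n => ?_
  rw [pow_one, Nat.add_sub_cancel]
  push_cast
  ring

lemma cev_hasDerivAt {H : ℕ} (hH : 1 ≤ H) {f : PowerSeries ℚ} (hf : GBound H f) {x : ℂ}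
    (hx : ‖x‖ < 1 / (H : ℝ)) :
    HasDerivAt (cev f) (cev (PowerSeries.derivative ℚ f) x) x := by
  obtain ⟨r, hr1, hr2⟩ := exists_between hx
  have hr0 : 0 ≤ r := (norm_nonneg x).trans hr1.le
  have hH' : (0 : ℝ) < H := by exact_mod_cast hH
  have hq : (H : ℝ) * r < 1 := by
    rw [lt_div_iff₀ hH'] at hr2
    linarith
  have hsum := der_summable (q := (H : ℝ) * r) (by positivity) hq ((H : ℝ) ^ 2)
  have h1 := hasDerivAt_tsum_of_isPreconnected (𝕜 := ℂ) (F := ℂ) (t := Metric.ball (0 : ℂ) r)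
    (g := fun (n : ℕ) (y : ℂ) => ((PowerSeries.coeff n f : ℚ) : ℂ) * y ^ n)
    (g' := fun (n : ℕ) (y : ℂ) => ((PowerSeries.coeff n f : ℚ) : ℂ) * ((n : ℂ) * y ^ (n - 1)))
    hsum Metric.isOpen_ball (convex_ball (0 : ℂ) r).isPreconnected
    (fun n y _ => (hasDerivAt_pow n y).const_mul _)
    (fun n y hy => der_term_le hf (by rw [mem_ball_zero_iff] at hy; exact hy.le) n)
    (y₀ := x) (by rw [mem_ball_zero_iff]; exact hr1) (cs_gbound hH hf hx).summable
    (y := x) (by rw [mem_ball_zero_iff]; exact hr1)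
  have h2 : ∑' n : ℕ, ((PowerSeries.coeff n f : ℚ) : ℂ) * ((n : ℂ) * x ^ (n - 1)) =
      cev (PowerSeries.derivative ℚ f) x := by
    have hs : Summable fun n : ℕ => ((PowerSeries.coeff n f : ℚ) : ℂ) * ((n : ℂ) * x ^ (n - 1)) :=
      Summable.of_norm_bounded hsum fun n => der_term_le hf hr1.le n
    rw [hs.tsum_eq_zero_add]
    unfold cev
    simp only [Nat.cast_zero, zero_mul, mul_zero, zero_add]
    refine tsum_congr fun n => ?_
    rw [PowerSeries.coeff_derivative, Nat.add_sub_cancel]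
    push_cast
    ring
  rw [← h2]
  exact h1

lemma cs_derivative {H : ℕ} (hH : 1 ≤ H) {f : PowerSeries ℚ} (hf : GBound H f) {x : ℂ}
    (hx : ‖x‖ < 1 / (H : ℝ)) : CS (PowerSeries.derivative ℚ f) x := by
  have hH' : (0 : ℝ) < H := by exact_mod_cast hH
  have hq : (H : ℝ) * ‖x‖ < 1 := by
    rw [lt_div_iff₀ hH'] at hx
    linarith
  have hsum := der_summable (q := (H : ℝ) * ‖x‖) (by positivity) hq ((H : ℝ) ^ 2)
  rw [← summable_nat_add_iff 1] at hsum
  refine Summable.of_nonneg_of_le (fun _ => norm_nonneg _) (fun n => ?_) hsum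
  have h := der_term_le hf (le_refl ‖x‖) (n + 1)
  refine le_trans (le_of_eq ?_) h
  congr 1
  rw [PowerSeries.coeff_derivative, Nat.add_sub_cancel]
  push_cast
  ring

end CevAux

open CevAux

theorem ode_cev {ι : Type} [Fintype ι] {H : ℕ} (hH : 1 ≤ H) {T : ℚ[X]} {A : Matrix ι ι ℚ[X]}
    {Y : Matrix ι ι (PowerSeries ℚ)} {N : Matrix ι ι ℚ} (hY : ∀ a b, GBound H (Y a b))
    (hF : IsFund T A Y N) (u : ℂ) (hu : (H : ℝ) < ‖u‖) (a b : ι) :
    aeval u T * deriv (fun u => cev (Y a b) u⁻¹) u = ∑ c, aeval u (A a c) * cev (Y c b) u⁻¹ +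
      aeval u T / u * ∑ c, cev (Y a c) u⁻¹ * (N c b : ℂ) := by
  have hH' : (0 : ℝ) < H := by exact_mod_cast hH
  have hu0 : u ≠ 0 := norm_pos_iff.1 (hH'.trans hu)
  have hx : ‖u⁻¹‖ < 1 / (H : ℝ) := by
    rw [norm_inv, one_div]
    exact inv_strictAnti₀ hH' hu
  -- the derivative
  set h : PowerSeries ℚ := PowerSeries.X ^ 2 * PowerSeries.derivative ℚ (Y a b) with hh
  have hXs : CS (PowerSeries.X ^ 2 : PowerSeries ℚ) u⁻¹ := by
    have := cs_poly (X ^ 2) u⁻¹
    rwa [Polynomial.coe_pow, Polynomial.coe_X] at this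
  have hXv : cev (PowerSeries.X ^ 2 : PowerSeries ℚ) u⁻¹ = u⁻¹ ^ 2 := by
    have := cev_poly (X ^ 2) u⁻¹
    rwa [Polynomial.coe_pow, Polynomial.coe_X, map_pow, aeval_X] at this
  have hhs : CS h u⁻¹ := hXs.mul (cs_derivative hH (hY a b) hx)
  have hhv : deriv (fun u => cev (Y a b) u⁻¹) u = -cev h u⁻¹ := by
    have h1 := (cev_hasDerivAt hH (hY a b) hx).comp u (hasDerivAt_inv hu0)
    rw [hh, cev_mul_of hXs (cs_derivative hH (hY a b) hx), hXv]
    have h2 : deriv (fun u => cev (Y a b) u⁻¹) u = _ := h1.deriv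
    rw [h2, inv_pow]
    ring
  -- the formal identity
  have hf : emb T * dd (ps (Y a b)) = ∑ c, emb (A a c) * ps (Y c b) +
      emb T * xx * ∑ c, ps (Y a c) * algebraMap ℚ (LaurentSeries ℚ) (N c b) := by
    have := congrFun (congrFun hF a) b
    rw [Matrix.smul_apply, dM_apply, pM_apply, Matrix.add_apply, Matrix.smul_apply,
      Matrix.mul_apply, Matrix.mul_apply] at this
    exact this
  let P : Unit ⊕ (ι ⊕ ι) → ℚ[X] := Sum.elim (fun _ => X * T)
    (Sum.elim (fun c => X * A a c) (fun c => T * C (N c b)))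
  let F : Unit ⊕ (ι ⊕ ι) → PowerSeries ℚ := Sum.elim (fun _ => h)
    (Sum.elim (fun c => Y c b) (fun c => Y a c))
  have hform : ∑ i, emb (P i) * ps (F i) = 0 := by
    rw [Fintype.sum_sum_type, Fintype.sum_sum_type]
    simp only [P, F, Sum.elim_inl, Sum.elim_inr, Finset.univ_unique, Finset.sum_singleton]
    rw [Subst12.dd_ps, ← hh] at hf
    simp only [map_mul, emb_C]
    have e1 : ∑ c, emb X * emb (A a c) * ps (Y c b) = emb X * ∑ c, emb (A a c) * ps (Y c b) := by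
      rw [Finset.mul_sum]
      exact Finset.sum_congr rfl fun c _ => by ring
    have e2 : ∑ c, emb T * algebraMap ℚ (LaurentSeries ℚ) (N c b) * ps (Y a c) =
        emb T * ∑ c, ps (Y a c) * algebraMap ℚ (LaurentSeries ℚ) (N c b) := by
      rw [Finset.mul_sum]
      exact Finset.sum_congr rfl fun c _ => by ring
    rw [e1, e2]
    have e3 : emb X * (emb T * -ps h) = emb X * (∑ c, emb (A a c) * ps (Y c b)) +
        emb T * (emb X * xx) * ∑ c, ps (Y a c) * algebraMap ℚ (LaurentSeries ℚ) (N c b) := by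
      rw [hf]
      ring
    rw [emb_X_mul_xx, mul_one] at e3
    linear_combination -e3
  have hs : ∀ i, CS (F i) u⁻¹ := by
    rintro (_ | c | c)
    · exact hhs
    · exact cs_gbound hH (hY c b) hx
    · exact cs_gbound hH (hY a c) hx
  have hval := form_to_cev hu0 hs hform
  rw [Fintype.sum_sum_type, Fintype.sum_sum_type] at hval
  simp only [P, F, Sum.elim_inl, Sum.elim_inr, Finset.univ_unique, Finset.sum_singleton, map_mul,
    aeval_X, aeval_C] at hval
  have e1 : ∑ c, u * aeval u (A a c) * cev (Y c b) u⁻¹ =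
      u * ∑ c, aeval u (A a c) * cev (Y c b) u⁻¹ := by
    rw [Finset.mul_sum]
    exact Finset.sum_congr rfl fun c _ => by ring
  have e2 : ∑ c, aeval u T * algebraMap ℚ ℂ (N c b) * cev (Y a c) u⁻¹ =
      aeval u T * ∑ c, cev (Y a c) u⁻¹ * (N c b : ℂ) := by
    rw [Finset.mul_sum]
    refine Finset.sum_congr rfl fun c _ => ?_
    have : algebraMap ℚ ℂ (N c b) = (N c b : ℂ) := rfl
    rw [this]
    ring
  rw [e1, e2] at hval
  rw [hhv]
  apply mul_left_cancel₀ hu0
  have e3 : u * (∑ c, aeval u (A a c) * cev (Y c b) u⁻¹ +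
      aeval u T / u * ∑ c, cev (Y a c) u⁻¹ * (N c b : ℂ)) =
      u * ∑ c, aeval u (A a c) * cev (Y c b) u⁻¹ +
        aeval u T * ∑ c, cev (Y a c) u⁻¹ * (N c b : ℂ) := by
    field_simp
  rw [e3]
  linear_combination -hval

end Pool.Agent.Helper79.GC
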