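import Pool.Agent.Helper79.GC.CexpM
import Pool.Agent.Helper79.GC.Binm
import Pool.Agent.Helper79.GC.OdeCev

/-!
# GC-21c: the values of `(1 + a x)^(-ν)`

`f(y) = ∑_n y^n binm(-ν)_n` converges for `|y| < 1` (entries of `binm (-ν) n` grow at most polynomially:
`‖binm M (n+1)‖ ≤ ((‖M‖ + n)/(n+1)) ‖binm M n‖`; or only for `|y| < 1/C`, enough here, see `binm_bound`) and satisfies
`(1 + y) f' = -ν f`, `f(0) = 1` (recursion of `binm`). `g(y) = exp(log(1+y) ν)` satisfies `(1+y) g' = ν g` and commutes with `ν`,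
`f`, so `(g f)' = 0`, `g f = 1`, `f(y) = exp(-log(1+y) ν)`. Take `y = a/s`, `cev (pw a ν i j) (1/s) = ∑ a^n binm(-ν)_n / s^n`.
-/

open Polynomial Filter Topology

namespace Pool.Agent.Helper79.GC

open Pool.Agent.Helper37.GP

variable {ι : Type} [Fintype ι] [DecidableEq ι]

namespace CevPwAux

open CevAux

/-- the binomial series -/
noncomputable def bs (ν : Matrix ι ι ℚ) (i j : ι) : PowerSeries ℚ :=
  PowerSeries.mk fun n => binm (-ν) n i j

lemma bs_rec (ν : Matrix ι ι ℚ) (n : ℕ) (i j : ι) :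
    ((n : ℚ) + 1) * binm (-ν) (n + 1) i j =
      -(∑ k, binm (-ν) n i k * ν k j) - (n : ℚ) * binm (-ν) n i j := by
  have h : binm (-ν) (n + 1) = ((n : ℚ) + 1)⁻¹ • (binm (-ν) n * (-ν - (n : ℚ) • 1)) := rfl
  have hn : ((n : ℚ) + 1) ≠ 0 := by positivity
  rw [h, Matrix.smul_apply, smul_eq_mul, mul_inv_cancel_left₀ hn, mul_sub, Matrix.sub_apply,
    mul_neg, Matrix.neg_apply, Matrix.mul_apply, Matrix.mul_smul, Matrix.mul_one,
    Matrix.smul_apply, smul_eq_mul]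

lemma bs_ode (ν : Matrix ι ι ℚ) (i j : ι) :
    (1 + PowerSeries.X) * PowerSeries.derivative ℚ (bs ν i j) =
      -∑ k, bs ν i k * PowerSeries.C (ν k j) := by
  ext n
  rw [add_mul, one_mul, map_add, map_neg, map_sum]
  have h1 : PowerSeries.coeff n (PowerSeries.derivative ℚ (bs ν i j)) =
      ((n : ℚ) + 1) * binm (-ν) (n + 1) i j := by
    rw [PowerSeries.coeff_derivative, bs, PowerSeries.coeff_mk, mul_comm]
  have h2 : PowerSeries.coeff n (PowerSeries.X * PowerSeries.derivative ℚ (bs ν i j)) =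
      (n : ℚ) * binm (-ν) n i j := by
    rcases n with _ | n
    · simp
    · rw [PowerSeries.coeff_succ_X_mul, PowerSeries.coeff_derivative, bs, PowerSeries.coeff_mk]
      push_cast
      ring
  have h3 : ∑ k, PowerSeries.coeff n (bs ν i k * PowerSeries.C (ν k j)) =
      ∑ k, binm (-ν) n i k * ν k j := by
    refine Finset.sum_congr rfl fun k _ => ?_
    rw [PowerSeries.coeff_mul_C, bs, PowerSeries.coeff_mk]
  rw [h1, h2, h3, bs_rec]
  ring

lemma cs_C (c : ℚ) (x : ℂ) : CS (PowerSeries.C c) x := by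
  have := cs_poly (C c) x
  rwa [Polynomial.coe_C] at this

lemma cs_neg {f : PowerSeries ℚ} {x : ℂ} (h : CS f x) : CS (-f) x ∧ cev (-f) x = -cev f x := by
  have e : -f = PowerSeries.C (-1) * f := by
    rw [map_neg, map_one, neg_one_mul]
  constructor
  · rw [e]
    exact (cs_C _ _).mul h
  · rw [e, cev_mul_of (cs_C _ _) h, cev_C]
    push_cast
    ring

/-- the value of the binomial series -/
noncomputable def FF (ν : Matrix ι ι ℚ) (t : ℝ) : Matrix ι ι ℂ :=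
  Matrix.of fun i j => cev (bs ν i j) (t : ℂ)

/-- the exponential -/
noncomputable def GG (ν : Matrix ι ι ℚ) (t : ℝ) : Matrix ι ι ℂ :=
  cexpM ((Real.log (1 + t) : ℝ) : ℂ) ν

lemma FF_deriv {C : ℕ} (hC : 1 ≤ C) {ν : Matrix ι ι ℚ} (hb : ∀ i j, GBound C (bs ν i j)) {t : ℝ}
    (ht0 : 0 ≤ t) (ht : t < 1 / (C : ℝ)) (i j : ι) :
    HasDerivAt (fun t : ℝ => FF ν t i j) ((-((1 + t : ℝ) : ℂ)⁻¹ • (FF ν t * qC ν)) i j) t := by
  have hx : ‖((t : ℝ) : ℂ)‖ < 1 / (C : ℝ) := by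
    rw [Complex.norm_real, Real.norm_of_nonneg ht0]
    exact ht
  have h1 := (cev_hasDerivAt hC (hb i j) hx).comp_ofReal
  have h2 : cev ((1 + PowerSeries.X) * PowerSeries.derivative ℚ (bs ν i j)) (t : ℂ) =
      cev (-∑ k, bs ν i k * PowerSeries.C (ν k j)) (t : ℂ) := by rw [bs_ode]
  have c1 : CS (1 + PowerSeries.X : PowerSeries ℚ) (t : ℂ) := by
    have := cs_poly (1 + X) (t : ℂ)
    rwa [Polynomial.coe_add, Polynomial.coe_one, Polynomial.coe_X] at this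
  have v1 : cev (1 + PowerSeries.X : PowerSeries ℚ) (t : ℂ) = 1 + (t : ℂ) := by
    have := cev_poly (1 + X) (t : ℂ)
    rwa [Polynomial.coe_add, Polynomial.coe_one, Polynomial.coe_X, map_add, map_one,
      aeval_X] at this
  have c2 : ∀ k ∈ (Finset.univ : Finset ι), CS (bs ν i k * PowerSeries.C (ν k j)) (t : ℂ) :=
    fun k _ => (cs_gbound hC (hb i k) hx).mul (cs_C _ _)
  obtain ⟨c3, v3⟩ := cs_sum Finset.univ _ c2
  rw [cev_mul_of c1 (cs_derivative hC (hb i j) hx), v1, (cs_neg c3).2, v3] at h2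
  have hne : (1 + (t : ℂ)) ≠ 0 := by
    have : ((1 + t : ℝ) : ℂ) ≠ 0 := by
      rw [Complex.ofReal_ne_zero]
      linarith
    push_cast at this
    exact this
  have e : (-((1 + t : ℝ) : ℂ)⁻¹ • (FF ν t * qC ν)) i j =
      cev (PowerSeries.derivative ℚ (bs ν i j)) (t : ℂ) := by
    rw [Matrix.smul_apply, Matrix.mul_apply, smul_eq_mul]
    have h3 : ∑ k, FF ν t i k * qC ν k j =
        ∑ k, cev (bs ν i k * PowerSeries.C (ν k j)) (t : ℂ) := by
      refine Finset.sum_congr rfl fun k _ => ?_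
      rw [cev_mul_of (cs_gbound hC (hb i k) hx) (cs_C _ _), cev_C]
      rfl
    rw [h3]
    have h4 : ∑ k, cev (bs ν i k * PowerSeries.C (ν k j)) (t : ℂ) =
        -((1 + (t : ℂ)) * cev (PowerSeries.derivative ℚ (bs ν i j)) (t : ℂ)) := by
      rw [h2, neg_neg]
    rw [h4]
    push_cast
    field_simp
  rw [e]
  exact h1

lemma GG_deriv (ν : Matrix ι ι ℚ) {t : ℝ} (ht0 : 0 ≤ t) (i j : ι) :
    HasDerivAt (fun t : ℝ => GG ν t i j) ((((1 + t : ℝ) : ℂ)⁻¹ • (qC ν * GG ν t)) i j) t := by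
  have h1 : HasDerivAt (fun t : ℝ => ((Real.log (1 + t) : ℝ) : ℂ)) (((1 + t)⁻¹ : ℝ) : ℂ) t := by
    have h2 : HasDerivAt (fun t : ℝ => Real.log (1 + t)) ((1 + t)⁻¹) t := by
      have h3 := (hasDerivAt_id t).const_add 1
      have h4 := h3.log (by simp only [id]; linarith)
      simpa using h4
    exact h2.ofReal_comp
  have h5 := (cexpM_hasDerivAt ((Real.log (1 + t) : ℝ) : ℂ) ν i j).comp t h1
  have e : (((1 + t : ℝ) : ℂ)⁻¹ • (qC ν * GG ν t)) i j =
      (qC ν * cexpM ((Real.log (1 + t) : ℝ) : ℂ) ν) i j * (((1 + t)⁻¹ : ℝ) : ℂ) := by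
    rw [Matrix.smul_apply, smul_eq_mul, GG]
    push_cast
    ring
  rw [e]
  exact h5

lemma FG_deriv {C : ℕ} (hC : 1 ≤ C) {ν : Matrix ι ι ℚ} (hb : ∀ i j, GBound C (bs ν i j)) {t : ℝ}
    (ht0 : 0 ≤ t) (ht : t < 1 / (C : ℝ)) (i j : ι) :
    HasDerivAt (fun t : ℝ => (FF ν t * GG ν t) i j) 0 t := by
  have h1 : HasDerivAt (fun t : ℝ => ∑ k, FF ν t i k * GG ν t k j)
      (∑ k, ((-((1 + t : ℝ) : ℂ)⁻¹ • (FF ν t * qC ν)) i k * GG ν t k j +
        FF ν t i k * (((1 + t : ℝ) : ℂ)⁻¹ • (qC ν * GG ν t)) k j)) t :=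
    HasDerivAt.fun_sum fun k _ => (FF_deriv hC hb ht0 ht i k).mul (GG_deriv ν ht0 k j)
  have e1 : (∑ k, ((-((1 + t : ℝ) : ℂ)⁻¹ • (FF ν t * qC ν)) i k * GG ν t k j +
        FF ν t i k * (((1 + t : ℝ) : ℂ)⁻¹ • (qC ν * GG ν t)) k j)) = 0 := by
    rw [Finset.sum_add_distrib, ← Matrix.mul_apply, ← Matrix.mul_apply, ← Matrix.add_apply,
      Matrix.smul_mul, Matrix.mul_smul, Matrix.mul_assoc, neg_smul, neg_add_cancel]
    rfl
  rw [e1] at h1
  have e2 : (fun t : ℝ => (FF ν t * GG ν t) i j) = fun t : ℝ => ∑ k, FF ν t i k * GG ν t k j := by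
    funext t
    rw [Matrix.mul_apply]
  rw [e2]
  exact h1

lemma FF_zero (ν : Matrix ι ι ℚ) : FF ν 0 = 1 := by
  ext1 i j
  rw [FF, Matrix.of_apply, Complex.ofReal_zero, cev_zero, bs, ← PowerSeries.coeff_zero_eq_constantCoeff_apply,
    PowerSeries.coeff_mk]
  change (((1 : Matrix ι ι ℚ) i j : ℚ) : ℂ) = _
  rw [Matrix.one_apply, Matrix.one_apply]
  split_ifs <;> simp

lemma GG_zero (ν : Matrix ι ι ℚ) : GG ν 0 = 1 := by
  rw [GG, add_zero, Real.log_one, Complex.ofReal_zero, cexpM_zero]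

lemma FF_eq {C : ℕ} (hC : 1 ≤ C) {ν : Matrix ι ι ℚ} (hb : ∀ i j, GBound C (bs ν i j)) {t : ℝ}
    (ht0 : 0 ≤ t) (ht : t < 1 / (C : ℝ)) :
    FF ν t = cexpM (-((Real.log (1 + t) : ℝ) : ℂ)) ν := by
  have h1 : FF ν t * GG ν t = 1 := by
    ext1 i j
    have h2 := constant_of_has_deriv_right_zero (f := fun t : ℝ => (FF ν t * GG ν t) i j)
      (a := 0) (b := t)
      (fun x hx => (FG_deriv hC hb hx.1 (lt_of_le_of_lt hx.2 ht) i j).continuousAt.continuousWithinAt)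
      (fun x hx => (FG_deriv hC hb hx.1 (hx.2.trans ht) i j).hasDerivWithinAt)
      t ⟨ht0, le_rfl⟩
    rw [h2, FF_zero, GG_zero, one_mul]
  have h3 : GG ν t * cexpM (-((Real.log (1 + t) : ℝ) : ℂ)) ν = 1 := by
    have := cexpM_neg (-((Real.log (1 + t) : ℝ) : ℂ)) ν
    rwa [neg_neg] at this
  calc FF ν t = FF ν t * (GG ν t * cexpM (-((Real.log (1 + t) : ℝ) : ℂ)) ν) := by
        rw [h3, mul_one]
    _ = _ := by rw [← mul_assoc, h1, one_mul]

end CevPwAux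

open CevPwAux CevAux

/-- The value of `(1 + a x)^(-ν)` at `x = 1/s`. -/
theorem cev_pw (ν : Matrix ι ι ℚ) : ∃ c : ℕ, 1 ≤ c ∧ ∀ (a : ℕ) (s : ℝ),
    (c : ℝ) * (a + 1) < s → ∀ i j, cev (pw a ν i j) ((1 / s : ℝ) : ℂ) =
      cexpM (-((Real.log ((s + a) / s) : ℝ) : ℂ)) ν i j := by
  obtain ⟨C, hC, hb⟩ := binm_bound (-ν)
  refine ⟨C, hC, fun a s hs i j => ?_⟩
  have hC' : (0 : ℝ) < C := by exact_mod_cast hC
  have ha : (0 : ℝ) ≤ a := Nat.cast_nonneg a
  have hs0 : 0 < s := lt_of_le_of_lt (by positivity) hs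
  have hb' : ∀ i j, GBound C (bs ν i j) := by
    intro i j n
    rw [bs, PowerSeries.coeff_mk]
    exact hb n i j
  have ht0 : 0 ≤ (a : ℝ) / s := by positivity
  have ht : (a : ℝ) / s < 1 / (C : ℝ) := by
    rw [div_lt_div_iff₀ hs0 hC']
    have : (a : ℝ) * C ≤ C * (a + 1) := by nlinarith
    linarith
  have h1 := congrFun (congrFun (FF_eq hC hb' ht0 ht) i) j
  have e1 : 1 + (a : ℝ) / s = (s + a) / s := by field_simp
  rw [e1] at h1
  rw [← h1, FF, Matrix.of_apply]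
  unfold cev
  refine tsum_congr fun n => ?_
  rw [pw, Matrix.of_apply, PowerSeries.coeff_mk, bs, PowerSeries.coeff_mk]
  push_cast
  rw [div_pow, div_pow, one_pow]
  ring

end Pool.Agent.Helper79.GC
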