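import Pool.Agent.Helper79.GC.Cev
import Pool.Agent.Helper79.GC.CevPw
import Pool.Agent.Helper79.GC.PsiBounds

/-!
# GC-26b: the values of the block functions

* `cev_fn`: `b.fn a α = ∑_β (Φ α β).subst (gx 1 a) * pw a νl β i₀`; `cev` of a substitution at real `1/s` is
  `pev_subst` (`Pool.Agent.Helper39.GP.Subst`), `cev_pw`, products `cev_mul`.

Proof by helper97.
-/

open Polynomial Filter Topology

namespace Pool.Agent.Helper79.GC

open Pool.Agent.Helper37.GP
open Pool.Agent.Helper37.GP.EvalAux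

namespace CevFnAux

/-- The terms of a product of two absolutely convergent series. -/
theorem hasSum_mul {H : ℕ} {f g : PowerSeries ℚ} (hf : GBound H f) (hg : GBound H g) {s : ℝ}
    (hs : (H : ℝ) < s) : HasSum (tm (f * g) s) (pev f s * pev g s) := by
  have h1 := summable_tm hf hs
  have h2 := summable_tm hg hs
  have h3 : tm (f * g) s = fun n => ∑ p ∈ Finset.HasAntidiagonal.antidiagonal n,
      tm f s p.1 * tm g s p.2 := by
    funext n
    simp only [tm, PowerSeries.coeff_mul]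
    push_cast
    rw [Finset.sum_mul]
    refine Finset.sum_congr rfl fun p hp => ?_
    rw [← Finset.HasAntidiagonal.mem_antidiagonal.1 hp, pow_add]
    ring
  have h4 : Summable (tm (f * g) s) := by
    rw [h3]
    exact (summable_norm_sum_mul_antidiagonal_of_summable_norm h1 h2).of_norm
  have h5 : ∑' n, tm (f * g) s n = pev f s * pev g s := by
    rw [pev_eq f, pev_eq g, tsum_mul_tsum_eq_tsum_sum_antidiagonal_of_summable_norm h1 h2, h3]
  rw [← h5]
  exact h4.hasSum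

/-- Evaluation of a finite sum of products. -/
theorem pev_sum_mul {ι : Type} [Fintype ι] {H : ℕ} (f g : ι → PowerSeries ℚ)
    (hf : ∀ i, GBound H (f i)) (hg : ∀ i, GBound H (g i)) {s : ℝ} (hs : (H : ℝ) < s) :
    pev (∑ i, f i * g i) s = ∑ i, pev (f i) s * pev (g i) s := by
  have h1 : HasSum (fun n => ∑ i, tm (f i * g i) s n) (∑ i, pev (f i) s * pev (g i) s) :=
    hasSum_sum fun i _ => hasSum_mul (hf i) (hg i) hs
  have h2 : tm (∑ i, f i * g i) s = fun n => ∑ i, tm (f i * g i) s n := by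
    funext n
    simp only [tm, map_sum]
    push_cast
    rw [Finset.sum_mul]
  rw [pev_eq, h2]
  exact h1.tsum_eq

theorem gb_mono {H H' : ℕ} (h : H ≤ H') {f : PowerSeries ℚ} (hf : GBound H f) :
    GBound H' f := fun n =>
  (hf n).trans (pow_le_pow_left₀ (Nat.cast_nonneg H) (by exact_mod_cast h) _)

end CevFnAux

open CevFnAux

/-- The values of the block functions. -/
theorem cev_fn {R : ℕ} (b : BlockData R) : ∃ c : ℕ, 1 ≤ c ∧ ∀ (a : ℕ) (s : ℝ),
    (c : ℝ) * ((a : ℝ) + 1) ^ 2 < s → ∀ α, ((pev (b.fn a α) s : ℝ) : ℂ) =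
      (cevM b.Φ ((1 / (s + a) : ℝ) : ℂ) *
        cexpM (-((Real.log ((s + a) / s) : ℝ) : ℂ)) b.νl) α b.i₀ := by
  obtain ⟨c₁, hc₁, h1⟩ := cev_pw b.νl
  obtain ⟨C, hC, hpw⟩ := pw_gbound b.νl
  refine ⟨c₁ + (4 * b.H + C) ^ 2, by omega, fun a s hs α => ?_⟩
  have hH := b.hH
  have hC1 : (1 : ℝ) ≤ C := by exact_mod_cast hC
  have hH2 : (2 : ℝ) ≤ b.H := by exact_mod_cast hH
  have ha1 : (1 : ℝ) ≤ (a : ℝ) + 1 := by
    have : (0 : ℝ) ≤ a := Nat.cast_nonneg a
    linarith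
  have hc0 : (0 : ℝ) ≤ c₁ := Nat.cast_nonneg c₁
  push_cast at hs
  have hsq : (a : ℝ) + 1 ≤ ((a : ℝ) + 1) ^ 2 := by nlinarith
  have hs1 : (c₁ : ℝ) * (a + 1) < s := by
    have k1 : (c₁ : ℝ) * (a + 1) ≤ c₁ * (a + 1) ^ 2 := mul_le_mul_of_nonneg_left hsq hc0
    have k2 : (0 : ℝ) ≤ (4 * b.H + C) ^ 2 * (a + 1) ^ 2 := by positivity
    nlinarith
  have hs2 : ((4 * b.H + C) * (a + 1) : ℝ) ^ 2 < s := by
    have k1 : (0 : ℝ) ≤ c₁ * (a + 1) ^ 2 := by positivity
    nlinarith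
  have hs3 : (4 * b.H * (a + 1) : ℝ) ^ 2 < s := by
    refine lt_of_le_of_lt (pow_le_pow_left₀ (by positivity) ?_ 2) hs2
    refine mul_le_mul_of_nonneg_right ?_ (by linarith)
    linarith
  have hs4 : (((4 * b.H + C) * (a + 1) : ℕ) : ℝ) < s := by
    push_cast
    have k1 : (1 : ℝ) ≤ (4 * b.H + C) * (a + 1) := by nlinarith
    nlinarith
  have hf : ∀ β, GBound ((4 * b.H + C) * (a + 1)) ((b.Φ α β).subst (gx 1 a)) := fun β =>
    gb_mono (Nat.mul_le_mul_right _ (by omega)) (gbound_subst hH (b.bd α β) (le_refl 1) a)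
  have hg : ∀ β, GBound ((4 * b.H + C) * (a + 1)) (pw a b.νl β b.i₀) := fun β =>
    gb_mono (Nat.mul_le_mul_right _ (by omega)) (hpw a β b.i₀)
  have hfn : b.fn a α = ∑ β, (b.Φ α β).subst (gx 1 a) * pw a b.νl β b.i₀ := by
    unfold BlockData.fn BlockData.Ψ
    rw [Matrix.mul_apply]
    rfl
  rw [hfn, pev_sum_mul _ _ hf hg hs4, Matrix.mul_apply, Complex.ofReal_sum]
  refine Finset.sum_congr rfl fun β _ => ?_
  rw [Complex.ofReal_mul]
  congr 1
  · rw [pev_subst hH (b.bd α β) (le_refl 1) a hs3]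
    have h2 : ((a : ℝ) + ((1 : ℕ) : ℝ) * s) = s + a := by
      push_cast
      ring
    rw [h2, ← cev_pev]
    rfl
  · rw [← cev_pev, h1 a s hs1]

end Pool.Agent.Helper79.GC
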