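import Pool.Agent.Helper79.GC.Cev
import Pool.Agent.Helper37.GP.AuxForms

/-!
# GC-25b: independence over `ℂ(u)` from independence over `ℚ(u)`

* `cev_indep`: let `ξ_1, …, ξ_n` be a `ℚ`-basis of the `ℚ`-span in `ℂ` of all coefficients of all `v a`;
  `v a = ∑ ξ_i v_i a`, `v_i a ∈ ℚ[X]`. The analytic identity is a power series identity over `ℂ` (multiply by a power of `x`),
  whose coefficients are `∑_i ξ_i (rational)`, so it holds for each `v_i`; `form_cev`, `hind` give `v_i = 0`.

Instead of a basis we apply all `ℚ`-linear functionals `φ : ℂ → ℚ` to the coefficients.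
-/

open Polynomial Filter Topology

namespace Pool.Agent.Helper79.GC

open Pool.Agent.Helper37.GP

private theorem coeffs_zero {c : ℕ → ℂ} {r : ℝ} (hr : 0 < r)
    (h : ∀ x : ℂ, x ≠ 0 → ‖x‖ < r → HasSum (fun m => c m * x ^ m) 0) : c = 0 := by
  have hr2 : (0 : ℝ) < r / 2 := by positivity
  set p := FormalMultilinearSeries.ofScalars ℂ c with hp
  have hrad : 0 < p.radius := by
    have hx0 : (((r / 2 : ℝ) : ℂ)) ≠ 0 := by
      exact_mod_cast hr2.ne'
    have hx1 : ‖((r / 2 : ℝ) : ℂ)‖ < r := by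
      rw [Complex.norm_real, Real.norm_eq_abs, abs_of_pos hr2]
      linarith
    have h1 := ((h _ hx0 hx1).summable.tendsto_atTop_zero).norm
    obtain ⟨rr, hrr⟩ : ∃ rr : NNReal, (rr : ℝ) = r / 2 := ⟨⟨r / 2, hr2.le⟩, rfl⟩
    have h2 : (rr : ENNReal) ≤ p.radius := by
      apply p.le_radius_of_tendsto (l := ‖(0 : ℂ)‖)
      refine h1.congr fun n => ?_
      rw [hp, FormalMultilinearSeries.ofScalars_norm, norm_mul, norm_pow, Complex.norm_real,
        Real.norm_eq_abs, abs_of_pos hr2, hrr]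
    refine lt_of_lt_of_le ?_ h2
    rw [ENNReal.coe_pos, ← NNReal.coe_pos, hrr]
    exact hr2
  have hat : HasFPowerSeriesAt p.sum p 0 := (p.hasFPowerSeriesOnBall hrad).hasFPowerSeriesAt
  have hsum : ∀ x : ℂ, x ≠ 0 → ‖x‖ < r → p.sum x = 0 := by
    intro x hx hxr
    have h1 := (h x hx hxr).tsum_eq
    have h2 := FormalMultilinearSeries.ofScalars_sum_eq (E := ℂ) c x
    have h3 : p.sum x = ∑' n, c n • x ^ n := h2
    rw [h3, ← h1]
    rfl
  have hev : ∀ᶠ x in 𝓝[≠] (0 : ℂ), p.sum x = 0 := by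
    have hb : Metric.ball (0 : ℂ) r ∈ 𝓝 (0 : ℂ) := Metric.ball_mem_nhds _ hr
    filter_upwards [self_mem_nhdsWithin, mem_nhdsWithin_of_mem_nhds hb] with x hx hx'
    exact hsum x hx (by simpa using hx')
  have hev' : ∀ᶠ x in 𝓝 (0 : ℂ), p.sum x = 0 :=
    (hat.analyticAt.frequently_zero_iff_eventually_zero).1 hev.frequently
  have h0 : HasFPowerSeriesAt (0 : ℂ → ℂ) p 0 := hat.congr hev'
  have hp0 : p = 0 := h0.eq_zero
  exact (FormalMultilinearSeries.ofScalars_series_eq_zero ℂ).1 hp0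

private theorem summable_cev {H : ℕ} {f : PowerSeries ℚ} (hf : GBound H f) (hH : 1 ≤ H)
    {x : ℂ} (hx : ‖x‖ < 1 / (H : ℝ)) :
    Summable fun n => ((PowerSeries.coeff n f : ℚ) : ℂ) * x ^ n := by
  have hH0 : (0 : ℝ) < H := by exact_mod_cast hH
  have hq : (H : ℝ) * ‖x‖ < 1 := by
    rw [lt_div_iff₀ hH0] at hx
    linarith
  have hs : Summable fun n : ℕ => (H : ℝ) * ((H : ℝ) * ‖x‖) ^ n :=
    (summable_geometric_of_lt_one (by positivity) hq).mul_left _
  refine Summable.of_norm_bounded hs fun n => ?_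
  have h1 : ‖((PowerSeries.coeff n f : ℚ) : ℂ)‖ ≤ (H : ℝ) ^ (n + 1) := by
    have h2 := hf n
    have h3 : ‖((PowerSeries.coeff n f : ℚ) : ℂ)‖ = ((|PowerSeries.coeff n f| : ℚ) : ℝ) := by
      rw [Complex.norm_ratCast, Rat.cast_abs]
    rw [h3]
    exact_mod_cast h2
  rw [norm_mul, norm_pow]
  calc ‖((PowerSeries.coeff n f : ℚ) : ℂ)‖ * ‖x‖ ^ n ≤ (H : ℝ) ^ (n + 1) * ‖x‖ ^ n :=
        mul_le_mul_of_nonneg_right h1 (by positivity)
    _ = (H : ℝ) * ((H : ℝ) * ‖x‖) ^ n := by rw [mul_pow]; ring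

private theorem hasSum_shift {H : ℕ} (hH : 1 ≤ H) {f : PowerSeries ℚ} (hf : GBound H f) (s : ℕ)
    {x : ℂ} (hx : ‖x‖ < 1 / (H : ℝ)) :
    HasSum (fun m => (if s ≤ m then ((PowerSeries.coeff (m - s) f : ℚ) : ℂ) else 0) * x ^ m)
      (x ^ s * cev f x) := by
  have h1 : HasSum (fun n => ((PowerSeries.coeff n f : ℚ) : ℂ) * x ^ n) (cev f x) :=
    (summable_cev hf hH hx).hasSum
  have h2 := h1.mul_left (x ^ s)
  rw [← hasSum_nat_add_iff' s]
  have h3 : ∑ i ∈ Finset.range s,
      (if s ≤ i then ((PowerSeries.coeff (i - s) f : ℚ) : ℂ) else 0) * x ^ i = 0 := by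
    refine Finset.sum_eq_zero fun i hi => ?_
    rw [Finset.mem_range] at hi
    rw [if_neg (by omega), zero_mul]
  rw [h3, sub_zero]
  refine h2.congr_fun ?_
  intro n
  rw [if_pos (by omega), Nat.add_sub_cancel, pow_add]
  ring

theorem cev_indep {ι κ : Type} [Fintype ι] {H : ℕ} (hH : 1 ≤ H) (f : κ → ι → PowerSeries ℚ)
    (hf : ∀ k a, GBound H (f k a))
    (hind : ∀ v : ι → ℚ[X], (∀ k, ∑ a, emb (v a) * ps (f k a) = 0) → v = 0) (ρ₀ : ℝ)
    (v : ι → ℂ[X])
    (h : ∀ (k : κ) (u : ℂ), ρ₀ < ‖u‖ → ∑ a, (v a).eval u * cev (f k a) u⁻¹ = 0) : v = 0 := by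
  classical
  have hH0 : (0 : ℝ) < H := by exact_mod_cast hH
  obtain ⟨D, hD⟩ : ∃ D : ℕ, ∀ a, (v a).natDegree ≤ D :=
    ⟨Finset.univ.sup fun a => (v a).natDegree, fun a =>
      Finset.le_sup (f := fun a => (v a).natDegree) (Finset.mem_univ a)⟩
  -- the coefficients of the power series identity
  let c : κ → ℕ → ℂ := fun k m => ∑ a, ∑ n ∈ Finset.range (D + 1), (v a).coeff n *
    (if D - n ≤ m then ((PowerSeries.coeff (m - (D - n)) (f k a) : ℚ) : ℂ) else 0)
  have hc : ∀ k, c k = 0 := by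
    intro k
    have hR : 0 < max ρ₀ H := lt_max_of_lt_right hH0
    apply coeffs_zero (r := 1 / max ρ₀ H) (by positivity)
    intro x hx0 hx
    have hxH : ‖x‖ < 1 / (H : ℝ) :=
      lt_of_lt_of_le hx (one_div_le_one_div_of_le hH0 (le_max_right _ _))
    have hxn : 0 < ‖x‖ := norm_pos_iff.2 hx0
    have hu : ρ₀ < ‖x⁻¹‖ := by
      rw [norm_inv]
      refine lt_of_le_of_lt (le_max_left ρ₀ (H : ℝ)) ?_
      rw [lt_div_iff₀ hR] at hx
      rw [lt_inv_comm₀ hR hxn, inv_eq_one_div, lt_div_iff₀ hR]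
      exact hx
    have h1 : HasSum (fun m => c k m * x ^ m) (∑ a, ∑ n ∈ Finset.range (D + 1), (v a).coeff n *
        (x ^ (D - n) * cev (f k a) x)) := by
      have h2 : HasSum (fun m => ∑ a, ∑ n ∈ Finset.range (D + 1), (v a).coeff n *
          ((if D - n ≤ m then ((PowerSeries.coeff (m - (D - n)) (f k a) : ℚ) : ℂ) else 0) *
            x ^ m)) (∑ a, ∑ n ∈ Finset.range (D + 1), (v a).coeff n *
          (x ^ (D - n) * cev (f k a) x)) :=
        hasSum_sum fun a _ => hasSum_sum fun n _ =>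
          (hasSum_shift hH (hf k a) (D - n) hxH).mul_left _
      refine h2.congr_fun ?_
      intro m
      show c k m * x ^ m = _
      simp only [c, Finset.sum_mul]
      refine Finset.sum_congr rfl fun a _ => Finset.sum_congr rfl fun n _ => ?_
      ring
    have h3 : ∑ a, ∑ n ∈ Finset.range (D + 1), (v a).coeff n * (x ^ (D - n) * cev (f k a) x) =
        x ^ D * ∑ a, (v a).eval x⁻¹ * cev (f k a) x⁻¹⁻¹ := by
      rw [inv_inv, Finset.mul_sum]
      refine Finset.sum_congr rfl fun a _ => ?_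
      rw [Polynomial.eval_eq_sum_range' (n := D + 1) (by have := hD a; omega) x⁻¹, Finset.sum_mul,
        Finset.mul_sum]
      refine Finset.sum_congr rfl fun n hn => ?_
      rw [Finset.mem_range] at hn
      have h4 : x ^ (D - n) = x ^ D * x⁻¹ ^ n := by
        rw [inv_pow, ← div_eq_mul_inv, eq_div_iff (pow_ne_zero _ hx0), ← pow_add]
        congr 1
        omega
      rw [h4]
      ring
    rw [h3, h k x⁻¹ hu, mul_zero] at h1
    exact h1
  -- apply the functionals
  have key : ∀ (φ : Module.Dual ℚ ℂ) (a : ι) (n : ℕ), φ ((v a).coeff n) = 0 := by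
    intro φ
    let w : ι → ℚ[X] := fun a => ∑ n ∈ Finset.range (D + 1), monomial n (φ ((v a).coeff n))
    have hwc : ∀ a n, n ≤ D → (w a).coeff n = φ ((v a).coeff n) := by
      intro a n hn
      simp only [w, finsetSum_coeff, coeff_monomial]
      rw [Finset.sum_ite_eq' (Finset.range (D + 1)) n, if_pos (Finset.mem_range.2 (by omega))]
    have hwd : ∀ a, (w a).natDegree ≤ D := by
      intro a
      refine natDegree_sum_le_of_forall_le _ _ fun n hn => ?_
      rw [Finset.mem_range] at hn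
      exact (natDegree_monomial_le _).trans (by omega)
    have hw : w = 0 := by
      apply hind
      intro k
      ext N
      rw [HahnSeries.coeff_sum]
      have h1 : ∀ a, (emb (w a) * ps (f k a)).coeff N =
          ∑ n ∈ Finset.range (D + 1), φ ((v a).coeff n) * (ps (f k a)).coeff (N + n) := by
        intro a
        rw [coeff_emb_mul (hwd a)]
        refine Finset.sum_congr rfl fun n hn => ?_
        rw [Finset.mem_range] at hn
        rw [hwc a n (by omega)]
      rw [Finset.sum_congr rfl fun a _ => h1 a]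
      show _ = (0 : ℚ)
      by_cases hN : 0 ≤ N + D
      · obtain ⟨m, hm⟩ := Int.eq_ofNat_of_zero_le hN
        have h2 : φ (c k m) = 0 := by
          rw [hc k]
          exact map_zero φ
        rw [← h2]
        simp only [c, map_sum]
        refine Finset.sum_congr rfl fun a _ => Finset.sum_congr rfl fun n hn => ?_
        rw [Finset.mem_range] at hn
        rw [ps_coeff]
        by_cases hnm : D - n ≤ m
        · rw [if_neg (by omega), if_pos hnm]
          have e : (N + (n : ℤ)).natAbs = m - (D - n) := by omega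
          rw [e]
          have e2 : (v a).coeff n * (((PowerSeries.coeff (m - (D - n)) (f k a) : ℚ)) : ℂ) =
              (PowerSeries.coeff (m - (D - n)) (f k a) : ℚ) • (v a).coeff n := by
            rw [Rat.smul_def, mul_comm]
          rw [e2, map_smul, smul_eq_mul, mul_comm]
        · rw [if_pos (by omega), if_neg hnm, mul_zero, mul_zero, map_zero]
      · refine Finset.sum_eq_zero fun a _ => Finset.sum_eq_zero fun n hn => ?_
        rw [Finset.mem_range] at hn
        rw [ps_coeff, if_pos (by omega), mul_zero]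
    intro a n
    by_cases hn : n ≤ D
    · rw [← hwc a n hn, hw]
      simp
    · rw [coeff_eq_zero_of_natDegree_lt (by have := hD a; omega), map_zero]
  funext a
  ext n
  rw [(Module.forall_dual_apply_eq_zero_iff ℚ ((v a).coeff n)).1 fun φ => key φ a n]
  simp

end Pool.Agent.Helper79.GC
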