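import Pool.Agent.Helper79.GC.Defs3

/-!
# GC-64: eigenvalues and the polynomial condition `IntEig`

`χ = charpoly N`, monic of degree `r`. Over `ℂ` it is `∏ (X - z_i)`, all `z_i = k_i ∈ ℤ` with `lo ≤ k_i ≤ hi` (finitely many), so it divides
`(∏_{lo ≤ k ≤ hi} (X - k))^r` over `ℂ`, hence over `ℚ` (`Polynomial.map_dvd_map`, monic or field extension), and `aeval N χ = 0` (Cayley-Hamilton,
`Matrix.aeval_self_charpoly`). The second statement: the eigenvalues of `N - 1/2` are those of `N` minus `1/2`: use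
`p = χ.comp (X + C (1/2))`, `aeval (N - 1/2) p = aeval N χ = 0`, and its roots are integers.
-/

open Polynomial

namespace Pool.Agent.Helper79.GC

variable {ι : Type} [Fintype ι] [DecidableEq ι]

private theorem exists_bounds (s : Finset ℤ) : ∃ lo hi : ℤ, ∀ k ∈ s, lo ≤ k ∧ k ≤ hi := by
  obtain ⟨lo, hlo⟩ := s.bddBelow
  obtain ⟨hi, hhi⟩ := s.bddAbove
  exact ⟨lo, hi, fun k hk => ⟨hlo (Finset.mem_coe.2 hk), hhi (Finset.mem_coe.2 hk)⟩⟩

private theorem prod_dvd_pow {R : Type} [CommRing R] (s : Multiset R) {a : R}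
    (h : ∀ x ∈ s, x ∣ a) : s.prod ∣ a ^ (Multiset.card s) := by
  induction s using Multiset.induction_on with
  | empty => simp
  | cons x s ih =>
    rw [Multiset.prod_cons, Multiset.card_cons, pow_succ']
    exact mul_dvd_mul (h x (Multiset.mem_cons_self _ _))
      (ih fun y hy => h y (Multiset.mem_cons_of_mem hy))

/-- A monic polynomial over `ℚ` annihilating `M` all of whose complex roots are integers. -/
theorem intEig_of_poly {M : Matrix ι ι ℚ} {p : ℚ[X]} (hp : p ≠ 0) (hM : aeval M p = 0)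
    (h : ∀ z : ℂ, (p.map (algebraMap ℚ ℂ)).IsRoot z → ∃ k : ℤ, z = k) :
    ∃ lo hi : ℤ, IntEig lo hi M := by
  set P := p.map (algebraMap ℚ ℂ) with hP
  have hP0 : P ≠ 0 := by
    rw [hP, Ne, Polynomial.map_eq_zero]
    exact hp
  have h1 : ∀ z ∈ P.roots, ∃ k : ℤ, z = k := fun z hz => h z (isRoot_of_mem_roots hz)
  classical
  let g : ℂ → ℤ := fun z => if hz : ∃ k : ℤ, z = k then hz.choose else 0
  have hg : ∀ z ∈ P.roots, z = g z := by
    intro z hz
    have hk := h1 z hz
    have e : g z = hk.choose := by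
      simp only [g]
      rw [dif_pos hk]
    rw [e]
    exact hk.choose_spec
  obtain ⟨lo, hi, hb⟩ := exists_bounds (P.roots.toFinset.image g)
  refine ⟨lo, hi, Multiset.card P.roots, ?_⟩
  set Q : ℚ[X] := ∏ k ∈ Finset.Icc lo hi, ((X : ℚ[X]) - C (k : ℚ)) with hQ
  have hQm : Q.map (algebraMap ℚ ℂ) = ∏ k ∈ Finset.Icc lo hi, ((X : ℂ[X]) - C (k : ℂ)) := by
    rw [hQ, Polynomial.map_prod]
    refine Finset.prod_congr rfl fun k _ => ?_
    rw [Polynomial.map_sub, Polynomial.map_X, Polynomial.map_C]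
    simp
  have h2 : P ∣ (Q.map (algebraMap ℚ ℂ)) ^ Multiset.card P.roots := by
    have h3 := (IsAlgClosed.splits P).eq_prod_roots
    have h4 : (Multiset.map (fun a => X - C a) P.roots).prod ∣
        (Q.map (algebraMap ℚ ℂ)) ^ Multiset.card P.roots := by
      have := prod_dvd_pow (Multiset.map (fun a => (X : ℂ[X]) - C a) P.roots)
        (a := Q.map (algebraMap ℚ ℂ)) (by
          intro x hx
          obtain ⟨z, hz, rfl⟩ := Multiset.mem_map.1 hx
          have hmem := hb (g z) (Finset.mem_image_of_mem g (Multiset.mem_toFinset.2 hz))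
          rw [hQm]
          have e1 : (X : ℂ[X]) - C z = X - C ((g z : ℤ) : ℂ) := by rw [← hg z hz]
          rw [e1]
          exact Finset.dvd_prod_of_mem (fun k : ℤ => (X : ℂ[X]) - C (k : ℂ))
            (Finset.mem_Icc.2 hmem))
      rwa [Multiset.card_map] at this
    have h5 : IsUnit (C P.leadingCoeff) := by
      rw [isUnit_C]
      exact isUnit_iff_ne_zero.2 (leadingCoeff_ne_zero.2 hP0)
    rw [h3]
    conv_rhs => rw [← h3]
    exact (h5.mul_left_dvd).2 h4
  have h6 : p ∣ Q ^ Multiset.card P.roots := by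
    rw [← Polynomial.map_pow] at h2
    exact (Polynomial.map_dvd_map' (algebraMap ℚ ℂ)).1 h2
  obtain ⟨q, hq⟩ := h6
  rw [hq, map_mul, hM, zero_mul]

theorem intEig_of_charpoly {N : Matrix ι ι ℚ}
    (h : ∀ z : ℂ, (N.charpoly.map (algebraMap ℚ ℂ)).IsRoot z → ∃ k : ℤ, z = k) :
    ∃ lo hi : ℤ, IntEig lo hi N :=
  intEig_of_poly N.charpoly_monic.ne_zero (Matrix.aeval_self_charpoly N) h

theorem intEig_of_charpoly_half {N : Matrix ι ι ℚ}
    (h : ∀ z : ℂ, (N.charpoly.map (algebraMap ℚ ℂ)).IsRoot z → ∃ k : ℤ, z = k + 1 / 2) :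
    ∃ lo hi : ℤ, IntEig lo hi (N - (1 / 2 : ℚ) • 1) := by
  refine intEig_of_poly (p := N.charpoly.comp (X + C (1 / 2 : ℚ))) ?_ ?_ ?_
  · exact (N.charpoly_monic.comp_X_add_C (1 / 2 : ℚ)).ne_zero
  · rw [aeval_comp]
    have e : aeval (N - (1 / 2 : ℚ) • 1) (X + C (1 / 2 : ℚ)) = N := by
      rw [map_add, aeval_X, aeval_C, Algebra.algebraMap_eq_smul_one]
      exact sub_add_cancel _ _
    rw [e]
    exact Matrix.aeval_self_charpoly N
  · intro z hz
    rw [Polynomial.map_comp, Polynomial.map_add, Polynomial.map_X, Polynomial.map_C,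
      IsRoot.def, eval_comp, eval_add, eval_X, eval_C] at hz
    obtain ⟨k, hk⟩ := h _ hz
    refine ⟨k, ?_⟩
    have e : (algebraMap ℚ ℂ) (1 / 2 : ℚ) = 1 / 2 := by norm_num
    rw [e] at hk
    exact add_right_cancel hk

end Pool.Agent.Helper79.GC
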