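import Pool.Agent.Helper79.GC.Base

/-!
# GC: definitions, second part (relations, gauge transformations, real solutions)
-/

open Polynomial

namespace Pool.Agent.Helper79.GC

open Pool.Agent.Helper37.GP

variable {ι : Type}

section Rel

variable [Fintype ι] [DecidableEq ι]

/-- The pairing of a polynomial matrix with a matrix of Laurent series: the sum of `w_ab G_ab`. -/
noncomputable def pairE (w : Matrix ι ι ℚ[X]) (G : Matrix ι ι (LaurentSeries ℚ)) :
    LaurentSeries ℚ := ∑ a, ∑ b, emb (w a b) * G a b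

/-- The linear relations over `ℚ[s]` between the entries, satisfied by all `Y N^k`. -/
def Rel (Y : Matrix ι ι (PowerSeries ℚ)) (N : Matrix ι ι ℚ) : Set (Matrix ι ι ℚ[X]) :=
  {w | ∀ k : ℕ, pairE w (pM Y * cM (N ^ k)) = 0}

/-- The constant matrices `g` such that `Y g` satisfies all the linear relations. -/
def GG (Y : Matrix ι ι (PowerSeries ℚ)) (N : Matrix ι ι ℚ) : Set (Matrix ι ι ℚ) :=
  {g | ∀ w ∈ Rel Y N, pairE w (pM Y * cM g) = 0}

end Rel

/-- Integral polynomial matrices as rational polynomial matrices. -/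
noncomputable def zM {κ : Type} (Z : Matrix ι κ ℤ[X]) : Matrix ι κ ℚ[X] :=
  Z.map (Polynomial.map (Int.castRingHom ℚ))

/-- `P_0(X) = 1`, `P_n(X) = X (X - 1) ⋯ (X - n + 1) / n!`. -/
noncomputable def binX : ℕ → ℚ[X]
  | 0 => 1
  | (n + 1) => C (((n : ℚ) + 1)⁻¹) * (binX n * (X - C (n : ℚ)))

section Real

variable [Fintype ι] [DecidableEq ι]

/-- `z` is a solution of `T z' = A z` for large real `t`. -/
def IsSolR (T : ℚ[X]) (A : Matrix ι ι ℚ[X]) (z : ℝ → ι → ℂ) : Prop :=
  ∃ t₀ : ℝ, ∀ t : ℝ, t₀ < t → ∀ a, HasDerivAt (fun t => z t a)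
    ((aeval (t : ℂ) T)⁻¹ * ∑ b, aeval (t : ℂ) (A a b) * z t b) t

/-- The values of a polynomial matrix. -/
noncomputable def evM (Z : Matrix ι ι ℤ[X]) (t : ℂ) : Matrix ι ι ℂ := Z.map fun p => aeval t p

/-- The gauge transformed vector function `(t^(-D) Z(t))⁻¹ z(t)`. -/
noncomputable def gz (Z : Matrix ι ι ℤ[X]) (D : ℕ) (z : ℝ → ι → ℂ) (t : ℝ) : ι → ℂ :=
  ((t : ℂ) ^ D) • ((evM Z (t : ℂ))⁻¹).mulVec (z t)

end Real

/-! ### Left multiplication in a matrix algebra with a basis -/

section LM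

variable [Fintype ι] [DecidableEq ι] {R : ℕ}

/-- The data of a basis `g` of an algebra of matrices, with dual functionals `u` and structure
constants. -/
structure AlgBasis (ι : Type) [Fintype ι] [DecidableEq ι] (R : ℕ) where
  /-- the basis -/
  g : Fin R → Matrix ι ι ℚ
  /-- the dual functionals -/
  u : Fin R → Matrix ι ι ℚ
  /-- the index of `1` -/
  i₀ : Fin R
  one : g i₀ = 1
  dual : ∀ α β, ∑ a, ∑ b, u α a b * g β a b = if α = β then 1 else 0
  closed : ∀ α β, ∃ c : Fin R → ℚ, g α * g β = ∑ γ, c γ • g γ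

variable (B : AlgBasis ι R) {S : Type} [CommRing S] (φ : ℚ →+* S)

/-- `M` is a combination of the basis matrices. -/
def AlgBasis.Mem (M : Matrix ι ι S) : Prop := ∃ c : Fin R → S, M = ∑ α, c α • (B.g α).map φ

/-- The coordinates. -/
def AlgBasis.crd (M : Matrix ι ι S) (α : Fin R) : S := ∑ a, ∑ b, φ (B.u α a b) * M a b

/-- The matrix of the left multiplication by `M`. -/
def AlgBasis.lm (M : Matrix ι ι S) : Matrix (Fin R) (Fin R) S :=
  Matrix.of fun α β => B.crd φ (M * (B.g β).map φ) α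

/-- The matrix of the right multiplication by `M`. -/
def AlgBasis.rm (M : Matrix ι ι S) : Matrix (Fin R) (Fin R) S :=
  Matrix.of fun α β => B.crd φ ((B.g β).map φ * M) α

end LM

end Pool.Agent.Helper79.GC
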