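import Pool.Agent.Helper79.GC.Base

/-!
# GC-01: divided iterates `G_j` (`F^(j)/j! = G_j F` for `F' = g F`) over the Laurent series field

`Git g 0 = 1`, `(j+1) Git g (j+1) = (Git g j)' + Git g j * g`. `hs i F = F^(i) / i!`.
All identities are elementary (characteristic 0, `dd` is a derivation, see `Base.lean`).

* `eM_beta`: induction on `j`, `dM ((emb T)^j G) = j (emb T)^(j-1) (emb T)' G + (emb T)^j dM G`.
* `hs_mul`: Leibniz rule, induction on `n` from `hs_succ`. `hs_hs`: `dM^[i] (dM^[a] F) = dM^[i+a] F`.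
* `Git_left`: induction on `j`. From `j G_j = ∑_{i+k=j-1} hs_i(g) G_k` one gets
  `j (G_j' + G_j g) = ∑ (i+1) hs_{i+1}(g) G_k + ∑ hs_i(g) (G_k' + G_k g)
   = ∑_{i+k=j} i hs_i(g) G_k + ∑_{i+k=j} k hs_i(g) G_k = j ∑_{i+k=j} hs_i(g) G_k` (`j ≥ 1`; `j = 0` is clear).
* `Git_dual`: put `S_j = ∑_{i+k=j} (-1)^k hs_i(G_k)`. One needs `(j+1) S_{j+1} = S_j' - g S_j`
  (transposed recursion of `Git (-gᵀ)`). `(j+1) S_{j+1} = ∑ (-1)^k (i + k) hs_i(G_k)`; the part with
  `i` is `S_j'` (`(i+1) hs_{i+1} = (hs_i)'`); the part with `k` is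
  `-∑_{i+k=j} (-1)^k hs_i((k+1) G_{k+1}) = -∑ (-1)^(a+b) hs_i(hs_a(g) G_b)` (`Git_left`, `i+a+b=j`)
  `= -∑ (-1)^(a+b) hs_{i1}(hs_a(g)) hs_{i2}(G_b)`, `i1+i2+a+b=j`; as
  `hs_{i1} hs_a = binom(i1+a, a) hs_{i1+a}` and `∑_a (-1)^a binom(m,a) = 0` for `m ≥ 1` only
  `i1 = a = 0` survives: `-∑ (-1)^b g hs_{i2}(G_b) = -g S_j`.
* `Git_gauge`: with `S_j = ∑ hs_i(X') G_{j-i}`: `(j+1) S_{j+1} = S_j' + S_j g`, and
  `(S_j X)' + S_j X (X' g X - X' dM X) = (S_j' + S_j g) X`.
* `Git_add`: `(G¹_i G²_k)' + G¹_i G²_k (g₁ + g₂) = (i+1) G¹_{i+1} G²_k + (k+1) G¹_i G²_{k+1}` as `G²_k`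
  commutes with `g₁`.
-/

open Polynomial

namespace Pool.Agent.Helper79.GC

open Pool.Agent.Helper37.GP

variable {ι κ μ : Type}

private theorem gt_it (i : ℕ) (F : Matrix ι κ (LaurentSeries ℚ)) :
    dM (dM^[i] F) = dM^[i + 1] F := (Function.iterate_succ_apply' dM i F).symm

private theorem gt_iter_add (i : ℕ) (F G : Matrix ι κ (LaurentSeries ℚ)) :
    dM^[i] (F + G) = dM^[i] F + dM^[i] G := by
  induction i with
  | zero => rfl
  | succ i ih => rw [← gt_it, ih, dM_add, gt_it, gt_it]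

private theorem gt_iter_smul (i : ℕ) (c : ℚ) (F : Matrix ι κ (LaurentSeries ℚ)) :
    dM^[i] (c • F) = c • dM^[i] F := by
  induction i with
  | zero => rfl
  | succ i ih => rw [← gt_it, ih, dM_ratsmul, gt_it]

/-- the weighted sum -/
private theorem gt_weight {M : Type} [AddCommGroup M] [Module ℚ M] (n : ℕ) (a : ℕ → M) :
    ((n : ℚ) + 1) • ∑ i ∈ Finset.range (n + 2), a i =
      ∑ i ∈ Finset.range (n + 1), (((i : ℚ) + 1) • a (i + 1) + (((n - i : ℕ) : ℚ) + 1) • a i) := by
  have h1 : ∀ i ∈ Finset.range (n + 2), ((n : ℚ) + 1) • a i =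
      (i : ℚ) • a i + (((n + 1 - i : ℕ) : ℚ)) • a i := by
    intro i hi
    have hi' : i ≤ n + 1 := by
      have := Finset.mem_range.1 hi
      omega
    rw [← add_smul]
    congr 1
    rw [Nat.cast_sub hi']
    push_cast
    ring
  rw [Finset.smul_sum, Finset.sum_congr rfl h1, Finset.sum_add_distrib,
    Finset.sum_range_succ' (fun i => (i : ℚ) • a i) (n + 1),
    Finset.sum_range_succ (fun i => (((n + 1 - i : ℕ) : ℚ)) • a i) (n + 1)]
  simp only [Nat.cast_zero, zero_smul, add_zero, Nat.sub_self]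
  rw [← Finset.sum_add_distrib]
  refine Finset.sum_congr rfl fun i hi => ?_
  have hi' : i ≤ n := by
    have := Finset.mem_range.1 hi
    omega
  congr 2
  · push_cast
    ring
  · rw [Nat.sub_add_comm hi']
    push_cast
    ring

theorem hs_zero (F : Matrix ι κ (LaurentSeries ℚ)) : hs 0 F = F := by
  simp [hs]

theorem hs_succ (i : ℕ) (F : Matrix ι κ (LaurentSeries ℚ)) :
    ((i : ℚ) + 1) • hs (i + 1) F = dM (hs i F) := by
  unfold hs
  rw [dM_ratsmul, gt_it, smul_smul, Nat.factorial_succ]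
  congr 1
  push_cast
  field_simp

theorem hs_add (i : ℕ) (F G : Matrix ι κ (LaurentSeries ℚ)) : hs i (F + G) = hs i F + hs i G := by
  unfold hs
  rw [gt_iter_add, smul_add]

theorem hs_ratsmul (i : ℕ) (c : ℚ) (F : Matrix ι κ (LaurentSeries ℚ)) :
    hs i (c • F) = c • hs i F := by
  unfold hs
  rw [gt_iter_smul, smul_comm]

theorem hs_sum {α : Type} (i : ℕ) (s : Finset α) (F : α → Matrix ι κ (LaurentSeries ℚ)) :
    hs i (∑ j ∈ s, F j) = ∑ j ∈ s, hs i (F j) := by
  classical
  induction s using Finset.induction_on with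
  | empty =>
    have := hs_ratsmul i 0 (0 : Matrix ι κ (LaurentSeries ℚ))
    simpa using this
  | insert a s ha ih => rw [Finset.sum_insert ha, Finset.sum_insert ha, hs_add, ih]

private theorem gt_hs_neg (i : ℕ) (F : Matrix ι κ (LaurentSeries ℚ)) : hs i (-F) = -hs i F := by
  have := hs_ratsmul i (-1) F
  simpa using this

private theorem gt_cancel {M : Type} [AddCommGroup M] [Module ℚ M] {n : ℕ} {a b : M}
    (h : ((n : ℚ) + 1) • a = ((n : ℚ) + 1) • b) : a = b := by
  have h0 : ((n : ℚ) + 1) ≠ 0 := by positivity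
  have := congrArg (fun z => ((n : ℚ) + 1)⁻¹ • z) h
  simpa [smul_smul, inv_mul_cancel₀ h0] using this

theorem hs_mul [Fintype κ] (F : Matrix ι κ (LaurentSeries ℚ)) (G : Matrix κ μ (LaurentSeries ℚ))
    (n : ℕ) : hs n (F * G) = ∑ i ∈ Finset.range (n + 1), hs i F * hs (n - i) G := by
  induction n with
  | zero => simp [hs_zero]
  | succ n ih =>
    apply gt_cancel (n := n)
    rw [hs_succ, ih, gt_weight, dM_sum]
    refine Finset.sum_congr rfl fun i hi => ?_
    have hi' : i ≤ n := by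
      have := Finset.mem_range.1 hi
      omega
    rw [dM_mul, ← hs_succ, ← hs_succ, Matrix.smul_mul, Matrix.mul_smul, Nat.add_sub_add_right,
      Nat.sub_add_comm hi']

theorem hs_hs (i a : ℕ) (F : Matrix ι κ (LaurentSeries ℚ)) :
    hs i (hs a F) = (((i + a).choose a : ℕ) : ℚ) • hs (i + a) F := by
  unfold hs
  rw [gt_iter_smul, ← Function.iterate_add_apply, smul_smul, smul_smul]
  congr 1
  have h := Nat.choose_mul_factorial_mul_factorial (Nat.le_add_left a i)
  rw [Nat.add_sub_cancel] at h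
  have h1 : (((i + a).choose a : ℕ) : ℚ) * (a.factorial : ℚ) * (i.factorial : ℚ) =
      ((i + a).factorial : ℚ) := by exact_mod_cast h
  have h2 : (a.factorial : ℚ) ≠ 0 := by positivity
  have h3 : (i.factorial : ℚ) ≠ 0 := by positivity
  rw [← h1]
  have h4 : (((i + a).choose a : ℕ) : ℚ) ≠ 0 := by
    intro h5
    rw [h5, zero_mul, zero_mul] at h1
    have : ((i + a).factorial : ℚ) ≠ 0 := by positivity
    exact this h1.symm
  field_simp

variable [Fintype ι] [DecidableEq ι]

theorem Git_succ (g : Matrix ι ι (LaurentSeries ℚ)) (j : ℕ) :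
    ((j : ℚ) + 1) • Git g (j + 1) = dM (Git g j) + Git g j * g := by
  have h0 : ((j : ℚ) + 1) ≠ 0 := by positivity
  rw [Git, smul_smul, mul_inv_cancel₀ h0, one_smul]

/-- uniqueness -/
private theorem gt_unique (g : Matrix ι ι (LaurentSeries ℚ)) (S : ℕ → Matrix ι ι (LaurentSeries ℚ))
    (h0 : S 0 = 1) (hS : ∀ j : ℕ, ((j : ℚ) + 1) • S (j + 1) = dM (S j) + S j * g) (j : ℕ) :
    Git g j = S j := by
  induction j with
  | zero => rw [h0, Git]
  | succ j ih =>
    apply gt_cancel (n := j)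
    rw [Git_succ, hS, ih]

private theorem gt_dd_pow (f : LaurentSeries ℚ) (j : ℕ) :
    f * dd (f ^ j) = (j : LaurentSeries ℚ) * (f ^ j * dd f) := by
  induction j with
  | zero => simp [dd_one]
  | succ j ih =>
    rw [pow_succ, dd_mul]
    push_cast
    linear_combination f * ih

omit [Fintype ι] [DecidableEq ι] in
private theorem gt_emb_C_smul (c : ℚ) (F : Matrix ι κ (LaurentSeries ℚ)) :
    emb (C c) • F = c • F := by
  ext1 a b
  rw [Matrix.smul_apply, Matrix.smul_apply, emb_C, smul_eq_mul]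
  ext n
  rw [algebraMap_eq_single, HahnSeries.coeff_single_zero_mul, HahnSeries.coeff_smul, smul_eq_mul]

theorem eM_beta {T : ℚ[X]} (hT : T ≠ 0) (B : Matrix ι ι ℚ[X]) (j : ℕ) :
    eM (beta T B j) = (emb T ^ j) • Git ((emb T)⁻¹ • eM B) j := by
  have h0 : emb T ≠ 0 := by
    intro h
    exact hT (emb_injective (by rw [h, map_zero]))
  set g := (emb T)⁻¹ • eM B with hg
  have hB : eM B = emb T • g := by rw [hg, smul_smul, mul_inv_cancel₀ h0, one_smul]
  induction j with
  | zero => rw [beta, Git, eM_one, pow_zero, one_smul]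
  | succ j ih =>
    apply gt_cancel (n := j)
    rw [beta, eM_smul, gt_emb_C_smul, smul_smul, mul_inv_cancel₀ (by positivity), one_smul,
      smul_comm ((j : ℚ) + 1), Git_succ, eM_add, eM_sub, eM_smul, eM_smul, eM_mul, ← dM_eM, ih,
      hB, dM_smul, map_mul, map_natCast, ← dd_emb]
    have h1 := gt_dd_pow (emb T) j
    rw [smul_add, smul_smul, h1, smul_smul, smul_smul, Matrix.smul_mul, Matrix.mul_smul, smul_smul,
      smul_add, pow_succ]
    rw [show (j : LaurentSeries ℚ) * (emb T ^ j * dd (emb T)) =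
      (j : LaurentSeries ℚ) * dd (emb T) * emb T ^ j by ring]
    rw [mul_comm (emb T) (emb T ^ j)]
    abel

theorem Git_left (g : Matrix ι ι (LaurentSeries ℚ)) (j : ℕ) :
    ((j : ℚ) + 1) • Git g (j + 1) = ∑ i ∈ Finset.range (j + 1), hs i g * Git g (j - i) := by
  induction j with
  | zero => rw [Git_succ]; simp [hs_zero, Git, dM_one]
  | succ j ih =>
    apply gt_cancel (n := j)
    rw [Git_succ, smul_add, ← dM_ratsmul, ← Matrix.smul_mul, ih, gt_weight, dM_sum,
      Finset.sum_mul, ← Finset.sum_add_distrib]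
    refine Finset.sum_congr rfl fun i hi => ?_
    have hi' : i ≤ j := by
      have := Finset.mem_range.1 hi
      omega
    rw [dM_mul, ← hs_succ, Matrix.smul_mul, Nat.add_sub_add_right, Nat.sub_add_comm hi',
      ← Matrix.mul_smul (hs i g), Git_succ, mul_add, add_assoc, ← mul_assoc]

private theorem gt_hs_transpose (i : ℕ) (F : Matrix ι κ (LaurentSeries ℚ)) :
    hs i F.transpose = (hs i F).transpose := by
  unfold hs
  rw [Matrix.transpose_smul]
  congr 1
  induction i with
  | zero => rfl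
  | succ i ih => rw [← gt_it, ih, dM_transpose, gt_it]

/-- the sum in `Git_dual` -/
private noncomputable def gtS (g : Matrix ι ι (LaurentSeries ℚ)) (j : ℕ) :
    Matrix ι ι (LaurentSeries ℚ) :=
  ∑ i ∈ Finset.range (j + 1), ((-1 : ℚ) ^ (j - i)) • hs i (Git g (j - i))

private theorem gtS_succ (g : Matrix ι ι (LaurentSeries ℚ)) (j : ℕ) :
    ((j : ℚ) + 1) • gtS g (j + 1) = -∑ c ∈ Finset.range (j + 1), gtS g (j - c) * hs c g := by
  have h1 : ∀ i ∈ Finset.range (j + 1),
      (((i : ℚ) + 1) • (((-1 : ℚ) ^ (j + 1 - (i + 1))) • hs (i + 1) (Git g (j + 1 - (i + 1)))) +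
        (((j - i : ℕ) : ℚ) + 1) • (((-1 : ℚ) ^ (j + 1 - i)) • hs i (Git g (j + 1 - i)))) =
      -∑ b ∈ Finset.range (i + 1),
        ((-1 : ℚ) ^ (j - i)) • (hs b (Git g (j - i)) * hs (i - b) g) := by
    intro i hi
    have hi' : i ≤ j := by
      have := Finset.mem_range.1 hi
      omega
    rw [Nat.add_sub_add_right, Nat.sub_add_comm hi', smul_comm _ ((-1 : ℚ) ^ (j - i)), hs_succ,
      smul_comm _ ((-1 : ℚ) ^ (j - i + 1)), ← hs_ratsmul, Git_succ, hs_add, hs_mul, pow_succ,
      ← Finset.smul_sum]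
    have h2 : hs i (dM (Git g (j - i))) = dM (hs i (Git g (j - i))) := by
      unfold hs
      rw [dM_ratsmul, gt_it, Function.iterate_succ_apply]
    rw [h2]
    module
  rw [gtS, gt_weight, Finset.sum_congr rfl h1, Finset.sum_neg_distrib]
  congr 1
  simp only [gtS, Finset.sum_mul, Finset.sum_sigma']
  refine Finset.sum_nbij' (fun x => ⟨x.1 - x.2, x.2⟩) (fun x => ⟨x.1 + x.2, x.2⟩) ?_ ?_ ?_ ?_ ?_
  · rintro ⟨i, b⟩ h
    simp only [Finset.mem_sigma, Finset.mem_range] at h ⊢
    omega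
  · rintro ⟨c, b⟩ h
    simp only [Finset.mem_sigma, Finset.mem_range] at h ⊢
    omega
  · rintro ⟨i, b⟩ h
    simp only [Finset.mem_sigma, Finset.mem_range] at h
    have : i - b + b = i := by omega
    simp [this]
  · rintro ⟨c, b⟩ h
    simp
  · rintro ⟨i, b⟩ h
    simp only [Finset.mem_sigma, Finset.mem_range] at h
    have h3 : j - (i - b) - b = j - i := by omega
    simp only [h3, Matrix.smul_mul]

/-- The iterates of the dual system. -/
theorem Git_dual (g : Matrix ι ι (LaurentSeries ℚ)) (j : ℕ) :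
    Git (-g.transpose) j =
      (∑ i ∈ Finset.range (j + 1), ((-1 : ℚ) ^ (j - i)) • hs i (Git g (j - i))).transpose := by
  change _ = (gtS g j).transpose
  induction j using Nat.strong_induction_on with
  | _ j ih =>
    rcases j with _ | j
    · simp [gtS, Git, hs_zero]
    · apply gt_cancel (n := j)
      rw [Git_left, ← Matrix.transpose_smul, gtS_succ, Matrix.transpose_neg, Matrix.transpose_sum,
        ← Finset.sum_neg_distrib]
      refine Finset.sum_congr rfl fun c hc => ?_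
      rw [ih (j - c) (by omega), gt_hs_neg, gt_hs_transpose, Matrix.transpose_mul, neg_mul]

/-- The iterates after a gauge transformation. -/
theorem Git_gauge (g Z Z' : Matrix ι ι (LaurentSeries ℚ)) (h : Z * Z' = 1) (h' : Z' * Z = 1)
    (j : ℕ) : Git (Z' * g * Z - Z' * dM Z) j =
      (∑ i ∈ Finset.range (j + 1), hs i Z' * Git g (j - i)) * Z := by
  refine gt_unique _ (fun j => (∑ i ∈ Finset.range (j + 1), hs i Z' * Git g (j - i)) * Z)
    ?_ ?_ j
  · simp [hs_zero, Git, h']
  · intro j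
    have h1 : ((j : ℚ) + 1) • (∑ i ∈ Finset.range (j + 2), hs i Z' * Git g (j + 1 - i)) =
        dM (∑ i ∈ Finset.range (j + 1), hs i Z' * Git g (j - i)) +
          (∑ i ∈ Finset.range (j + 1), hs i Z' * Git g (j - i)) * g := by
      rw [gt_weight, dM_sum, Finset.sum_mul, ← Finset.sum_add_distrib]
      refine Finset.sum_congr rfl fun i hi => ?_
      have hi' : i ≤ j := by
        have := Finset.mem_range.1 hi
        omega
      rw [dM_mul, ← hs_succ, Matrix.smul_mul, Nat.add_sub_add_right, Nat.sub_add_comm hi',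
        ← Matrix.mul_smul (hs i Z'), Git_succ, mul_add, add_assoc, ← mul_assoc]
    rw [← Matrix.smul_mul, h1, dM_mul]
    set S := ∑ i ∈ Finset.range (j + 1), hs i Z' * Git g (j - i) with hS
    have h2 : S * Z * (Z' * g * Z - Z' * dM Z) = S * g * Z - S * dM Z := by
      rw [mul_sub]
      have e1 : S * Z * (Z' * g * Z) = S * (Z * Z') * g * Z := by noncomm_ring
      have e2 : S * Z * (Z' * dM Z) = S * (Z * Z') * dM Z := by noncomm_ring
      rw [e1, e2, h, mul_one]
    rw [h2, add_mul]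
    abel

/-- The iterates of a sum of commuting systems. -/
theorem Git_add (g₁ g₂ : Matrix ι ι (LaurentSeries ℚ)) (h : ∀ k, g₁ * Git g₂ k = Git g₂ k * g₁)
    (j : ℕ) : Git (g₁ + g₂) j = ∑ i ∈ Finset.range (j + 1), Git g₁ i * Git g₂ (j - i) := by
  refine gt_unique _ (fun j => ∑ i ∈ Finset.range (j + 1), Git g₁ i * Git g₂ (j - i)) ?_ ?_ j
  · simp [Git]
  · intro j
    rw [gt_weight, dM_sum, Finset.sum_mul, ← Finset.sum_add_distrib]
    refine Finset.sum_congr rfl fun i hi => ?_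
    have hi' : i ≤ j := by
      have := Finset.mem_range.1 hi
      omega
    rw [dM_mul, ← Matrix.smul_mul, Git_succ, Nat.add_sub_add_right, Nat.sub_add_comm hi',
      ← Matrix.mul_smul, Git_succ, add_mul, mul_add, mul_add, mul_assoc (Git g₁ i) g₁, h,
      ← mul_assoc, ← mul_assoc]
    abel

end Pool.Agent.Helper79.GC
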