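import Pool.Agent.Helper79.GC.Defs2
import Pool.Agent.Helper79.GC.Git

/-!
# GC-33: the coefficients of `s^j G_j Y`

`F = Y s^(-N)`, `F^(j)/j! = G_j F`, and termwise `(1/j!)(d/ds)^j (Y_k s^(-k-N)) = Y_k binm(-k-N, j) s^(-k-N-j)`, so
`s^j G_j Y = ∑_k Y_k binm(-k-N, j) x^k`.

Proof by induction on `j`: write `S_j = pM (mk fun k => Y_k binm(-k-N) j)`, to show `G_j Y = x^j S_j`. With `Y' = g Y + x Y N` (`isFund_iff`):
`(j+1) G_{j+1} Y = (G_j' + G_j g) Y = (G_j Y)' - x (G_j Y) N = (x^j S_j)' - x^(j+1) S_j N`; coefficient of `x^(k+j+1)`: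
`-(k+j) Y_k binm(-k-N,j) - Y_k binm(-k-N,j) N = Y_k binm(-k-N,j) (-k-N-j) = (j+1) Y_k binm(-k-N,j+1)`.
Entrywise: `dd` acts on coefficients by `dd_coeff`. (`emb X = x⁻¹`, `xx_mul_emb_X`.)
-/

open Polynomial

namespace Pool.Agent.Helper79.GC

open Pool.Agent.Helper37.GP

variable {ι : Type} [Fintype ι] [DecidableEq ι]

private theorem ic_ps_smul (c : ℚ) (f : PowerSeries ℚ) : ps (c • f) = c • ps f := by
  ext n
  rw [HahnSeries.coeff_smul, ps_coeff, ps_coeff]
  split_ifs
  · simp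
  · simp

omit [Fintype ι] [DecidableEq ι] in
private theorem ic_pM_smul (c : ℚ) (F : Matrix ι ι (PowerSeries ℚ)) :
    pM (c • F) = c • pM F := by
  ext1 a b
  rw [pM_apply, Matrix.smul_apply, Matrix.smul_apply, pM_apply, ic_ps_smul]

private theorem ic_dd_ps (f : PowerSeries ℚ) :
    dd (ps f) = -(xx * ps (PowerSeries.X * PowerSeries.derivative ℚ f)) := by
  have h1 : xx = ps PowerSeries.X := Subst12.ps_X.symm
  rw [Subst12.dd_ps, h1, ← Subst12.ps_mul, pow_two, mul_assoc]

private theorem ic_dd_xx_pow (j : ℕ) : dd (xx ^ j) = -((j : LaurentSeries ℚ) * xx ^ (j + 1)) := by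
  induction j with
  | zero => simp [dd_one]
  | succ j ih =>
    rw [pow_succ, dd_mul, ih, dd_xx]
    push_cast
    ring

/-- the matrix of coefficients -/
private noncomputable def icS (Y : Matrix ι ι (PowerSeries ℚ)) (N : Matrix ι ι ℚ) (j : ℕ) :
    Matrix ι ι (PowerSeries ℚ) :=
  Matrix.of fun a b => PowerSeries.mk fun k =>
    (coP k Y * binm (-((k : ℚ) • (1 : Matrix ι ι ℚ)) - N) j) a b

/-- the recursion -/
private theorem icS_succ (Y : Matrix ι ι (PowerSeries ℚ)) (N : Matrix ι ι ℚ) (j : ℕ) :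
    ((j : ℚ) + 1) • icS Y N (j + 1) = -((j : ℚ) • icS Y N j) -
      (icS Y N j).map (fun f => PowerSeries.X * PowerSeries.derivative ℚ f) -
      icS Y N j * cP N := by
  ext a b k
  have hj : ((j : ℚ) + 1) ≠ 0 := by positivity
  have h1 : PowerSeries.coeff k ((((j : ℚ) + 1) • icS Y N (j + 1)) a b) =
      (coP k Y * (binm (-((k : ℚ) • (1 : Matrix ι ι ℚ)) - N) j *
        ((-((k : ℚ) • (1 : Matrix ι ι ℚ)) - N) - (j : ℚ) • 1))) a b := by
    rw [Matrix.smul_apply, PowerSeries.coeff_smul, icS, Matrix.of_apply, PowerSeries.coeff_mk]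
    rw [binm, Matrix.mul_smul, Matrix.smul_apply, smul_eq_mul, smul_eq_mul,
      mul_inv_cancel_left₀ hj]
  have h2 : ∀ a b, PowerSeries.coeff k (icS Y N j a b) =
      (coP k Y * binm (-((k : ℚ) • (1 : Matrix ι ι ℚ)) - N) j) a b := by
    intro a b
    rw [icS, Matrix.of_apply, PowerSeries.coeff_mk]
  have h3 : PowerSeries.coeff k (PowerSeries.X * PowerSeries.derivative ℚ (icS Y N j a b)) =
      (k : ℚ) * PowerSeries.coeff k (icS Y N j a b) := by
    rcases k with _ | k
    · simp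
    · rw [PowerSeries.coeff_succ_X_mul, PowerSeries.coeff_derivative]
      push_cast
      ring
  have h4 : PowerSeries.coeff k ((icS Y N j * cP N) a b) =
      ((coP k Y * binm (-((k : ℚ) • (1 : Matrix ι ι ℚ)) - N) j) * N) a b := by
    rw [Matrix.mul_apply, map_sum, Matrix.mul_apply]
    refine Finset.sum_congr rfl fun c _ => ?_
    rw [cP_apply, PowerSeries.coeff_mul_C, h2]
  rw [h1]
  simp only [Matrix.sub_apply, Matrix.neg_apply, Matrix.smul_apply, Matrix.map_apply, map_sub,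
    map_neg, PowerSeries.coeff_smul]
  rw [h3, h4, h2]
  set B := binm (-((k : ℚ) • (1 : Matrix ι ι ℚ)) - N) j with hB
  have h5 : coP k Y * (B * ((-((k : ℚ) • (1 : Matrix ι ι ℚ)) - N) - (j : ℚ) • 1)) =
      -((j : ℚ) • (coP k Y * B)) - (k : ℚ) • (coP k Y * B) - coP k Y * B * N := by
    simp only [mul_sub, mul_neg, Matrix.mul_smul, mul_one, mul_assoc]
    abel
  rw [h5]
  simp [Matrix.sub_apply, Matrix.neg_apply, Matrix.smul_apply]

theorem iter_coeff {T : ℚ[X]} (hT : T ≠ 0) {A : Matrix ι ι ℚ[X]} {Y : Matrix ι ι (PowerSeries ℚ)}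
    {N : Matrix ι ι ℚ} (h : IsFund T A Y N) (j : ℕ) :
    (emb X ^ j) • (Git ((emb T)⁻¹ • eM A) j * pM Y) =
      pM (Matrix.of fun a b => PowerSeries.mk fun k =>
        (coP k Y * binm (-((k : ℚ) • (1 : Matrix ι ι ℚ)) - N) j) a b) := by
  have hY0 := (isFund_iff hT).1 h
  obtain ⟨g, hg⟩ : ∃ g, g = (emb T)⁻¹ • eM A := ⟨_, rfl⟩
  rw [← hg] at hY0 ⊢
  have hY : dM (pM Y) = g * pM Y + xx • (pM Y * cM N) := hY0
  have key : ∀ j : ℕ, Git g j * pM Y = xx ^ j • pM (icS Y N j) := by
    intro j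
    induction j with
    | zero =>
      rw [Git, one_mul, pow_zero, one_smul]
      congr 1
      ext a b k
      rw [icS, Matrix.of_apply, PowerSeries.coeff_mk, binm, mul_one, coP_apply]
    | succ j ih =>
      have h0 : ((j : ℚ) + 1) ≠ 0 := by positivity
      have h1 : ((j : ℚ) + 1) • (Git g (j + 1) * pM Y) =
          dM (Git g j * pM Y) - xx • (Git g j * pM Y * cM N) := by
        rw [← Matrix.smul_mul, Git_succ, dM_mul, hY, add_mul, mul_add, Matrix.mul_smul,
          mul_assoc (Git g j) g, mul_assoc (Git g j) (pM Y)]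
        abel
      have h2 : dM (pM (icS Y N j)) = -(xx • pM ((icS Y N j).map
          (fun f => PowerSeries.X * PowerSeries.derivative ℚ f))) := by
        ext1 a b
        rw [dM_apply, pM_apply, ic_dd_ps, Matrix.neg_apply, Matrix.smul_apply, pM_apply,
          Matrix.map_apply, smul_eq_mul]
      have h3 : ((j : ℚ) + 1) • (Git g (j + 1) * pM Y) =
          ((j : ℚ) + 1) • (xx ^ (j + 1) • pM (icS Y N (j + 1))) := by
        rw [h1, ih, smul_comm ((j : ℚ) + 1), ← ic_pM_smul, icS_succ, dM_smul, h2, ic_dd_xx_pow]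
        have e1 : pM (-((j : ℚ) • icS Y N j) -
            (icS Y N j).map (fun f => PowerSeries.X * PowerSeries.derivative ℚ f) -
            icS Y N j * cP N) = -((j : LaurentSeries ℚ) • pM (icS Y N j)) -
            pM ((icS Y N j).map (fun f => PowerSeries.X * PowerSeries.derivative ℚ f)) -
            pM (icS Y N j) * cM N := by
          have e2 : ∀ F G : Matrix ι ι (PowerSeries ℚ), pM (F - G) = pM F - pM G := by
            intro F G
            ext1 a b
            exact map_sub (HahnSeries.ofPowerSeries ℤ ℚ) (F a b) (G a b)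
          have e3 : ∀ F : Matrix ι ι (PowerSeries ℚ), pM (-F) = -pM F := by
            intro F
            ext1 a b
            exact map_neg (HahnSeries.ofPowerSeries ℤ ℚ) (F a b)
          have e4 : pM ((j : ℚ) • icS Y N j) = (j : LaurentSeries ℚ) • pM (icS Y N j) := by
            rw [ic_pM_smul, Nat.cast_smul_eq_nsmul, Nat.cast_smul_eq_nsmul]
          rw [e2, e2, e3, e4, pM_mul, pM_cP]
        rw [e1, smul_sub, smul_sub, smul_neg, smul_neg, smul_smul, smul_smul, Matrix.smul_mul,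
          smul_smul, ← pow_succ, ← pow_succ', neg_smul, mul_comm (xx ^ (j + 1)) (j : LaurentSeries ℚ)]
        abel
      have h4 := congrArg (fun M => ((j : ℚ) + 1)⁻¹ • M) h3
      simpa [smul_smul, inv_mul_cancel₀ h0] using h4
  rw [key j, smul_smul, ← mul_pow, emb_X_mul_xx, one_pow, one_smul]
  rfl

end Pool.Agent.Helper79.GC
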