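import Pool.Agent.Helper79.GC.Defs2
import Pool.Agent.Helper79.GC.Git

/-!
# GC-34: denominators of the coefficients of `s^j G_j`

`T ∈ ℤ[s]`, degree `τ`, leading coefficient `t`. `G_j = β_j / T^j` (`eM_beta`), `q β_j` integral for `j ≤ J`, `q ≤ H^(J+1)` (Galochkin), and
`deg β_j ≤ j (τ - 1)` (induction on the recursion of `beta`, from `deg A ≤ τ - 1`). So
`s^j G_j = (x^(j(τ-1)) β_j) / (x^τ T)^j`: numerator `q^{-1}` times a polynomial in `x` with integer coefficients, `x^τ T = t + … ∈ ℤ[x]`; the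
coefficient of `x^n` in `(t + c_1 x + …)^(-j)` has denominator `t^(j+n)` (`t^(j+n)` times it is an integer: e.g. `(t + u)^(-1) = t^(-1) ∑ (-u/t)^i`, `u` divisible by `x`,
and multiplicativity of the property: `t^n f_n ∈ ℤ` for all `n` is stable under products).
If `j = 0` everything is clear (`G_0 = 1`). For `τ = 0` (only possible for empty `ι` by `hdeg`) nothing to do.
-/

open Polynomial

namespace Pool.Agent.Helper79.GC

open Pool.Agent.Helper37.GP

variable {ι : Type} [Fintype ι] [DecidableEq ι]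

theorem beta_deg {T : ℚ[X]} {A : Matrix ι ι ℚ[X]}
    (hdeg : ∀ a b, (A a b).natDegree + 1 ≤ T.natDegree) (j : ℕ) (a b : ι) :
    (beta T A j a b).natDegree ≤ j * (T.natDegree - 1) := by
  induction j generalizing a b with
  | zero =>
    rw [beta, Matrix.one_apply]
    split_ifs <;> simp
  | succ j ih =>
    have h2 : beta T A (j + 1) a b = C (((j : ℚ) + 1)⁻¹) *
        (T * derivative (beta T A j a b) - (j : ℚ[X]) * derivative T * beta T A j a b +
          ∑ c, beta T A j a c * A c b) := by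
      simp only [beta, Matrix.smul_apply, Matrix.add_apply, Matrix.sub_apply, smul_eq_mul,
        Matrix.mul_apply, Matrix.map_apply]
    have hτ := hdeg a b
    have hn : (j + 1) * (T.natDegree - 1) = j * (T.natDegree - 1) + (T.natDegree - 1) := by
      rw [Nat.succ_mul]
    rw [h2, hn]
    have ih1 := ih a b
    refine (natDegree_C_mul_le _ _).trans ?_
    refine (natDegree_add_le _ _).trans (max_le ?_ ?_)
    · refine (natDegree_sub_le _ _).trans (max_le ?_ ?_)
      · by_cases h0 : (beta T A j a b).natDegree = 0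
        · rw [derivative_of_natDegree_zero h0, mul_zero, natDegree_zero]
          exact Nat.zero_le _
        · refine natDegree_mul_le.trans ?_
          have := natDegree_derivative_le (beta T A j a b)
          omega
      · refine natDegree_mul_le.trans ?_
        have h1 : ((j : ℚ[X]) * derivative T).natDegree ≤ T.natDegree - 1 := by
          refine natDegree_mul_le.trans ?_
          have := natDegree_derivative_le T
          rw [natDegree_natCast]
          omega
        omega
    · refine natDegree_sum_le_of_forall_le _ _ fun c _ => ?_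
      refine natDegree_mul_le.trans ?_
      have h3 := ih a c
      have h4 := hdeg c b
      omega

/-! ### Power series with denominators `t^(k+n)` -/

private def idP (t : ℤ) (k : ℕ) (u : PowerSeries ℚ) : Prop :=
  ∀ n : ℕ, ∃ z : ℤ, (t : ℚ) ^ (k + n) * PowerSeries.coeff n u = z

private theorem idP_mul {t : ℤ} {k l : ℕ} {u v : PowerSeries ℚ} (hu : idP t k u)
    (hv : idP t l v) : idP t (k + l) (u * v) := by
  intro n
  choose f hf using hu
  choose g hg using hv
  refine ⟨∑ x ∈ Finset.HasAntidiagonal.antidiagonal n, f x.1 * g x.2, ?_⟩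
  rw [PowerSeries.coeff_mul, Finset.mul_sum]
  push_cast
  refine Finset.sum_congr rfl fun x hx => ?_
  have hx' := Finset.HasAntidiagonal.mem_antidiagonal.1 hx
  rw [← hf, ← hg, ← hx', show k + l + (x.1 + x.2) = (k + x.1) + (l + x.2) by ring, pow_add]
  ring

private theorem idP_one {t : ℤ} : idP t 0 1 := by
  intro n
  by_cases h : n = 0
  · subst h
    exact ⟨1, by simp⟩
  · exact ⟨0, by rw [PowerSeries.coeff_one, if_neg h]; simp⟩

private theorem idP_pow {t : ℤ} {u : PowerSeries ℚ} (hu : idP t 1 u) (j : ℕ) :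
    idP t j (u ^ j) := by
  induction j with
  | zero => rw [pow_zero]; exact idP_one
  | succ j ih => rw [pow_succ]; exact idP_mul ih hu

private theorem idP_inv {t : ℤ} {r : PowerSeries ℚ} (ht : t ≠ 0)
    (h0 : PowerSeries.coeff 0 r = (t : ℚ)) (hr : ∀ n, ∃ z : ℤ, PowerSeries.coeff n r = z) :
    idP t 1 r⁻¹ := by
  have hc : PowerSeries.constantCoeff r ≠ 0 := by
    rw [← PowerSeries.coeff_zero_eq_constantCoeff_apply, h0]
    exact_mod_cast ht
  have hmul := PowerSeries.mul_inv_cancel r hc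
  choose f hf using hr
  intro n
  induction n using Nat.strong_induction_on with
  | _ n ih =>
    have h1 := congrArg (PowerSeries.coeff n) hmul
    rw [PowerSeries.coeff_mul, Finset.Nat.sum_antidiagonal_eq_sum_range_succ_mk,
      Finset.sum_range_succ'] at h1
    simp only [Nat.sub_zero, h0] at h1
    have h2 : ∀ i ∈ Finset.range n, ∃ z : ℤ, (t : ℚ) ^ n *
        (PowerSeries.coeff (i + 1) r * PowerSeries.coeff (n - (i + 1)) r⁻¹) = z := by
      intro i hi
      have hi' := Finset.mem_range.1 hi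
      obtain ⟨z, hz⟩ := ih (n - (i + 1)) (by omega)
      refine ⟨t ^ i * (f (i + 1) * z), ?_⟩
      push_cast
      rw [← hz, ← hf]
      have h3 : n = i + (1 + (n - (i + 1))) := by omega
      conv_lhs => rw [h3, pow_add]
      have h4 : i + (1 + (n - (i + 1))) - (i + 1) = n - (i + 1) := by omega
      rw [h4]
      ring
    choose! g hg using h2
    have h5 : (t : ℚ) ^ (1 + n) * PowerSeries.coeff n r⁻¹ =
        (t : ℚ) ^ n * PowerSeries.coeff n (1 : PowerSeries ℚ) -
          ∑ i ∈ Finset.range n, (t : ℚ) ^ n *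
            (PowerSeries.coeff (i + 1) r * PowerSeries.coeff (n - (i + 1)) r⁻¹) := by
      rw [← h1, ← Finset.mul_sum, pow_add]
      ring
    rw [h5, Finset.sum_congr rfl hg]
    by_cases hn : n = 0
    · subst hn
      exact ⟨1, by simp⟩
    · refine ⟨-∑ i ∈ Finset.range n, g i, ?_⟩
      rw [PowerSeries.coeff_one, if_neg hn]
      push_cast
      ring

/-! ### Reversed polynomials -/

private noncomputable def rv (m : ℕ) (p : ℚ[X]) : PowerSeries ℚ :=
  PowerSeries.mk fun n => if n ≤ m then p.coeff (m - n) else 0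

private theorem emb_X_pow_mul_coeff (m : ℕ) (g : LaurentSeries ℚ) (n : ℤ) :
    (emb X ^ m * g).coeff n = g.coeff (n + m) := by
  rw [emb_X, HahnSeries.single_pow, HahnSeries.coeff_single_mul]
  simp

private theorem emb_rv {m : ℕ} {p : ℚ[X]} (hp : p.natDegree ≤ m) :
    emb p = emb X ^ m * ps (rv m p) := by
  ext n
  rw [emb_X_pow_mul_coeff, emb_coeff, ps_coeff]
  by_cases h0 : 0 ≤ n + m
  · rw [if_neg (not_lt.2 h0), rv, PowerSeries.coeff_mk]
    by_cases h1 : n ≤ 0
    · rw [if_pos h1, if_pos (by omega)]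
      congr 1
      omega
    · rw [if_neg h1, if_neg (by omega)]
  · rw [if_pos (by omega), if_pos (by omega)]
    exact coeff_eq_zero_of_natDegree_lt (by omega)

theorem iter_den {T : ℤ[X]} (hT : T ≠ 0) {A : Matrix ι ι ℚ[X]} {H : ℕ}
    (hdeg : ∀ a b, (A a b).natDegree + 1 ≤ T.natDegree)
    (hG : Galochkin (T.map (Int.castRingHom ℚ)) A H) (J : ℕ) :
    ∃ q : ℕ, 0 < q ∧ q ≤ H ^ (J + 1) ∧ ∀ j ≤ J, ∀ a b,
      OrdGE 0 (((emb X ^ j) • Git ((emb (T.map (Int.castRingHom ℚ)))⁻¹ • eM A) j) a b) ∧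
      ∀ n : ℕ, ∃ z : ℤ, (q : ℚ) * (T.leadingCoeff : ℚ) ^ (j + n) *
        (((emb X ^ j) • Git ((emb (T.map (Int.castRingHom ℚ)))⁻¹ • eM A) j) a b).coeff (n : ℤ)
          = z := by
  obtain ⟨q, hq0, hqH, hq⟩ := hG J
  refine ⟨q, hq0, hqH, fun j hj a b => ?_⟩
  set T' := T.map (Int.castRingHom ℚ) with hT'
  have hinj : Function.Injective (Int.castRingHom ℚ) := RingHom.injective_int _
  have hT0 : T' ≠ 0 := (Polynomial.map_ne_zero_iff hinj).2 hT
  have hdT : T'.natDegree = T.natDegree := natDegree_map_eq_of_injective hinj T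
  have hτ := hdeg a b
  have hdeg' : ∀ a b, (A a b).natDegree + 1 ≤ T'.natDegree := by
    rw [hdT]
    exact hdeg
  have he : emb X ≠ 0 := by
    intro h
    have := emb_X_mul_xx
    rw [h, zero_mul] at this
    exact zero_ne_one this
  -- the two power series
  set R : PowerSeries ℚ := rv T.natDegree T' with hR
  set S : PowerSeries ℚ := rv (j * (T.natDegree - 1)) (beta T' A j a b) with hS
  have hR0 : PowerSeries.coeff 0 R = (T.leadingCoeff : ℚ) := by
    rw [hR, rv, PowerSeries.coeff_mk, if_pos (Nat.zero_le _), Nat.sub_zero, hT', coeff_map]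
    rfl
  have hRi : ∀ n, ∃ z : ℤ, PowerSeries.coeff n R = z := by
    intro n
    rw [hR, rv, PowerSeries.coeff_mk]
    split_ifs
    · rw [hT', coeff_map]
      exact ⟨_, rfl⟩
    · exact ⟨0, by simp⟩
  have hlc : T.leadingCoeff ≠ 0 := leadingCoeff_ne_zero.2 hT
  have hRc : PowerSeries.constantCoeff R ≠ 0 := by
    rw [← PowerSeries.coeff_zero_eq_constantCoeff_apply, hR0]
    exact_mod_cast hlc
  have hpR : ps R * ps R⁻¹ = 1 := by
    rw [← Subst12.ps_mul, PowerSeries.mul_inv_cancel R hRc]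
    exact map_one _
  have hpR0 : ps R ≠ 0 := left_ne_zero_of_mul_eq_one hpR
  have hkey : ((emb X ^ j) • Git ((emb T')⁻¹ • eM A) j) a b = ps (R⁻¹ ^ j * S) := by
    have h1 := congrFun (congrFun (eM_beta hT0 A j) a) b
    rw [eM_apply, Matrix.smul_apply, smul_eq_mul] at h1
    rw [Matrix.smul_apply, smul_eq_mul]
    have h2 : emb T' = emb X ^ T.natDegree * ps R := emb_rv hdT.le
    have h3 : emb (beta T' A j a b) = emb X ^ (j * (T.natDegree - 1)) * ps S :=
      emb_rv (by have := beta_deg hdeg' j a b; rwa [hdT] at this)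
    have h4 : ps (R⁻¹ ^ j * S) = ps R⁻¹ ^ j * ps S := by
      rw [Subst12.ps_mul]
      congr 1
      exact map_pow (HahnSeries.ofPowerSeries ℤ ℚ) _ _
    have h5 : ps R⁻¹ = (ps R)⁻¹ := (eq_inv_of_mul_eq_one_right hpR)
    rw [h4, h5]
    set G := Git ((emb T')⁻¹ • eM A) j a b with hGG
    rw [h3, h2] at h1
    have h6 : emb X ^ (T.natDegree * j) = emb X ^ j * emb X ^ (j * (T.natDegree - 1)) := by
      rw [← pow_add]
      congr 1
      obtain ⟨m, hm⟩ : ∃ m, T.natDegree = m + 1 := ⟨T.natDegree - 1, by omega⟩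
      rw [hm, Nat.add_sub_cancel]
      ring
    rw [mul_pow, ← pow_mul, h6] at h1
    have h7 : emb X ^ (j * (T.natDegree - 1)) ≠ 0 := pow_ne_zero _ he
    have h8 : ps S = (ps R) ^ j * (emb X ^ j * G) := by
      apply mul_left_cancel₀ h7
      rw [h1]
      ring
    rw [h8, inv_pow, ← mul_assoc, inv_mul_cancel₀ (pow_ne_zero _ hpR0), one_mul]
  rw [hkey]
  refine ⟨ordGE_ps _, fun n => ?_⟩
  have hu : idP T.leadingCoeff j (R⁻¹ ^ j) := idP_pow (idP_inv hlc hR0 hRi) j
  have hv : idP T.leadingCoeff 0 (PowerSeries.C (q : ℚ) * S) := by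
    intro k
    obtain ⟨z, hz⟩ : ∃ z : ℤ, (q : ℚ) * PowerSeries.coeff k S = z := by
      rw [hS, rv, PowerSeries.coeff_mk]
      split_ifs
      · exact hq j hj a b _
      · exact ⟨0, by simp⟩
    refine ⟨T.leadingCoeff ^ k * z, ?_⟩
    rw [PowerSeries.coeff_C_mul, hz, zero_add]
    push_cast
    ring
  obtain ⟨z, hz⟩ := idP_mul hu hv n
  refine ⟨z, ?_⟩
  rw [← hz, ps_coeff, if_neg (not_lt.2 (Int.natCast_nonneg n)), Int.natAbs_natCast,
    show R⁻¹ ^ j * (PowerSeries.C (q : ℚ) * S) = PowerSeries.C (q : ℚ) * (R⁻¹ ^ j * S) by ring,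
    PowerSeries.coeff_C_mul]
  ring

end Pool.Agent.Helper79.GC
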