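import Pool.Agent.Helper79.GC.PmPoly
import Pool.Agent.Helper79.GC.IterCoeff
import Pool.Agent.Helper79.GC.IterDen
import Pool.Agent.Helper79.GC.GalDual

/-!
# GC-35: denominators of the fundamental matrix (Galochkin's condition implies geometric denominators)

Let `N^r = 0`, `V = Y⁻¹` (power series). For `m ≥ 0` take `P = ∑_{j<n} c_j binX j` from `exists_Pm r`. By `iter_coeff` and `aeval_binX`
`(∑_j c_j s^j G_j) Y = ∑_k Y_k P(-k-N) x^k`. `P(-N) = 1` (as `X^r ∣ P - 1`, `(-N)^r = 0`) and `P(-k-N) = 0` for `1 ≤ k ≤ m`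
(`(X+k)^r ∣ P` and `((-k-N) + k)^r = 0`). So `(∑_j c_j s^j G_j) Y = 1 + O(x^(m+1))`, hence `∑_j c_j s^j G_j = V + O(x^(m+1))`.

* `den_inv`: the coefficients of `x^i`, `i ≤ m`, of `V` are those of `∑_{j<n} c_j s^j G_j`, with denominator
  `q_1 q_2 |t|^(n+m)`, `q_1` for the `c_j`, `q_2` from `iter_den` with `J = n`, `n ≤ H₁ (m+1)`, geometric in `m`.
* `den_fund`: `Vᵀ` is fundamental for the dual system `(T, -Aᵀ)` with exponent `-Nᵀ`
  (`V' = -V Y' V = -V g - x N V`), `IsRes T' (-Aᵀ) (-Nᵀ)`, `gal_dual`; apply `den_inv` to it: the inverse of `Vᵀ` is `Yᵀ`.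
-/

open Polynomial

namespace Pool.Agent.Helper79.GC

open Pool.Agent.Helper37.GP

variable {ι : Type} [Fintype ι] [DecidableEq ι]

private theorem df_aeval {n : ℕ} {c : ℕ → ℚ} {P : ℚ[X]}
    (hP : P = ∑ j ∈ Finset.range n, C (c j) * binX j) (M : Matrix ι ι ℚ) :
    aeval M P = ∑ j ∈ Finset.range n, c j • binm M j := by
  rw [hP, map_sum]
  refine Finset.sum_congr rfl fun j _ => ?_
  rw [map_mul, aeval_C, aeval_binX, Algebra.smul_def]

private theorem df_aeval_zero {r : ℕ} {P : ℚ[X]} (h : X ^ r ∣ P - 1) {N : Matrix ι ι ℚ}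
    (hN : N ^ r = 0) : aeval (-((((0 : ℕ) : ℚ)) • (1 : Matrix ι ι ℚ)) - N) P = 1 := by
  obtain ⟨Q, hQ⟩ := h
  have h1 : P = 1 + X ^ r * Q := by rw [← hQ]; ring
  rw [h1, map_add, map_one, map_mul, map_pow, aeval_X]
  simp [neg_pow N r, hN]

private theorem df_aeval_pos {r k : ℕ} {P : ℚ[X]} (h : (X + C (k : ℚ)) ^ r ∣ P)
    {N : Matrix ι ι ℚ} (hN : N ^ r = 0) :
    aeval (-((k : ℚ) • (1 : Matrix ι ι ℚ)) - N) P = 0 := by
  obtain ⟨Q, rfl⟩ := h
  rw [map_mul, map_pow, map_add, aeval_X, aeval_C]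
  have h1 : -((k : ℚ) • (1 : Matrix ι ι ℚ)) - N + (algebraMap ℚ (Matrix ι ι ℚ)) (k : ℚ) = -N := by
    rw [Algebra.algebraMap_eq_smul_one]
    abel
  rw [h1, neg_pow N r, hN]
  simp

/-- The truncated iterate sum is the inverse of the fundamental matrix to high order. -/
private theorem df_coeff {T : ℚ[X]} (hT : T ≠ 0) {A : Matrix ι ι ℚ[X]} {N : Matrix ι ι ℚ}
    {r : ℕ} (hN : N ^ r = 0) {Y V : Matrix ι ι (PowerSeries ℚ)} (hY : IsFund T A Y N)
    (h0 : coP 0 Y = 1) (hV : V * Y = 1) {m n : ℕ} {c : ℕ → ℚ} {P : ℚ[X]}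
    (hP : P = ∑ j ∈ Finset.range n, C (c j) * binX j) (h1 : X ^ r ∣ P - 1)
    (h2 : ∀ k : ℕ, 1 ≤ k → k ≤ m → (X + C (k : ℚ)) ^ r ∣ P) {k : ℕ} (hk : k ≤ m) (a b : ι) :
    PowerSeries.coeff k (V a b) = ∑ j ∈ Finset.range n,
      c j * (((emb X ^ j) • Git ((emb T)⁻¹ • eM A) j) a b).coeff (k : ℤ) := by
  have hYV : Y * V = 1 := mul_eq_one_comm.mp hV
  set G : ℕ → Matrix ι ι (LaurentSeries ℚ) := fun j => (emb X ^ j) • Git ((emb T)⁻¹ • eM A) j
    with hG
  set E : Matrix ι ι (PowerSeries ℚ) := Matrix.of fun a b => PowerSeries.mk fun k =>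
    (coP k Y * aeval (-((k : ℚ) • (1 : Matrix ι ι ℚ)) - N) P) a b with hE
  have hEi : ∀ i, i ≤ m → ∀ a c, PowerSeries.coeff i (E a c) =
      if i = 0 then (1 : Matrix ι ι ℚ) a c else 0 := by
    intro i hi a c
    rw [hE, Matrix.of_apply, PowerSeries.coeff_mk]
    split_ifs with h
    · subst h
      rw [df_aeval_zero h1 hN, mul_one, h0]
    · rw [df_aeval_pos (h2 i (by omega) hi) hN, mul_zero]
      rfl
  have hW : (∑ j ∈ Finset.range n, c j • G j) * pM Y = pM E := by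
    rw [Finset.sum_mul]
    have h3 : ∀ j ∈ Finset.range n, c j • G j * pM Y = c j • pM (Matrix.of fun a b =>
        PowerSeries.mk fun k => (coP k Y * binm (-((k : ℚ) • (1 : Matrix ι ι ℚ)) - N) j) a b) := by
      intro j _
      rw [Matrix.smul_mul, ← iter_coeff hT hY j, Matrix.smul_mul]
    rw [Finset.sum_congr rfl h3]
    ext1 a b
    ext l
    rw [Matrix.sum_apply, HahnSeries.coeff_sum, pM_apply, ps_coeff]
    simp only [Matrix.smul_apply, HahnSeries.coeff_smul, pM_apply, ps_coeff, hE, Matrix.of_apply,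
      PowerSeries.coeff_mk]
    split_ifs with hl
    · simp
    · rw [df_aeval hP, Finset.mul_sum, Matrix.sum_apply]
      refine Finset.sum_congr rfl fun j _ => ?_
      rw [Matrix.mul_smul, Matrix.smul_apply]
  have hW2 : (∑ j ∈ Finset.range n, c j • G j) = pM (E * V) := by
    rw [pM_mul, ← hW, mul_assoc, ← pM_mul, hYV, pM_one, mul_one]
  have h4 := congrArg (fun M : Matrix ι ι (LaurentSeries ℚ) => (M a b).coeff (k : ℤ)) hW2
  simp only [Matrix.sum_apply, HahnSeries.coeff_sum, Matrix.smul_apply, HahnSeries.coeff_smul,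
    smul_eq_mul, pM_apply, ps_coeff, Int.natAbs_natCast] at h4
  rw [if_neg (by omega)] at h4
  have h5 : PowerSeries.coeff k ((E * V) a b) = PowerSeries.coeff k (V a b) := by
    rw [Matrix.mul_apply, map_sum, Finset.sum_eq_single a]
    · rw [PowerSeries.coeff_mul, Finset.sum_eq_single (0, k)]
      · rw [hEi 0 (by omega), if_pos rfl, Matrix.one_apply_eq, one_mul]
      · rintro ⟨i, l⟩ hil hne
        have hil' : i + l = k := Finset.HasAntidiagonal.mem_antidiagonal.1 hil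
        have hi : i ≠ 0 := by
          rintro rfl
          apply hne
          simp at hil'
          rw [hil']
        show PowerSeries.coeff i (E a a) * _ = 0
        rw [hEi i (by omega), if_neg hi, zero_mul]
      · intro h
        exact absurd (Finset.HasAntidiagonal.mem_antidiagonal.2 (by simp)) h
    · intro c' _ hc
      rw [PowerSeries.coeff_mul]
      refine Finset.sum_eq_zero ?_
      rintro ⟨i, l⟩ hil
      have hil' : i + l = k := Finset.HasAntidiagonal.mem_antidiagonal.1 hil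
      show PowerSeries.coeff i (E a c') * _ = 0
      rw [hEi i (by omega)]
      split_ifs
      · rw [Matrix.one_apply_ne (Ne.symm hc), zero_mul]
      · rw [zero_mul]
    · intro h
      exact absurd (Finset.mem_univ a) h
  rw [← h5, ← h4]

private theorem df_int {L : ℤ} {q1 q2 j k n m : ℕ} {c x : ℚ} (hc : ∃ z : ℤ, (q1 : ℚ) * c = z)
    (hx : ∃ z : ℤ, (q2 : ℚ) * (L : ℚ) ^ (j + k) * x = z) (h : j + k ≤ n + m) :
    ∃ z : ℤ, ((q1 * q2 * L.natAbs ^ (n + m) : ℕ) : ℚ) * (c * x) = z := by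
  obtain ⟨z1, h1⟩ := hc
  obtain ⟨z2, h2⟩ := hx
  have hd : L ^ (j + k) ∣ ((L.natAbs : ℤ)) ^ (n + m) :=
    dvd_trans (pow_dvd_pow_of_dvd (Int.dvd_natAbs.2 dvd_rfl) _) (pow_dvd_pow _ h)
  obtain ⟨u, hu⟩ := hd
  have hu' : ((L.natAbs : ℕ) : ℚ) ^ (n + m) = (L : ℚ) ^ (j + k) * u := by
    have := congrArg (fun z : ℤ => (z : ℚ)) hu
    push_cast at this
    rw [← this]
    congr 1
    rw [Nat.cast_natAbs]
    push_cast
    rfl
  refine ⟨z1 * z2 * u, ?_⟩
  push_cast
  rw [hu', ← h1, ← h2]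
  ring

theorem den_inv {T : ℤ[X]} {A : Matrix ι ι ℚ[X]} {H : ℕ} {N : Matrix ι ι ℚ}
    (hG : Galochkin (T.map (Int.castRingHom ℚ)) A H) (hR : IsRes (T.map (Int.castRingHom ℚ)) A N)
    (hN : IsNilpotent N) {Y V : Matrix ι ι (PowerSeries ℚ)}
    (hY : IsFund (T.map (Int.castRingHom ℚ)) A Y N) (h0 : coP 0 Y = 1) (hV : V * Y = 1) :
    ∃ H' : ℕ, 1 ≤ H' ∧ GDen H' (fun p : ι × ι => V p.1 p.2) := by
  obtain ⟨r, hr⟩ := hN
  obtain ⟨hT', hdeg', -⟩ := hR
  have hT : T ≠ 0 := by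
    rintro rfl
    exact hT' (by simp)
  have hdeg : ∀ a b, (A a b).natDegree + 1 ≤ T.natDegree := by
    intro a b
    have h := hdeg' a b
    rwa [Polynomial.natDegree_map_eq_of_injective Int.cast_injective] at h
  obtain ⟨H₁, hH₁, hP⟩ := exists_Pm r
  set L := T.leadingCoeff with hL
  have hL0 : 1 ≤ L.natAbs := Int.natAbs_pos.2 (leadingCoeff_ne_zero.2 hT)
  have hH : 1 ≤ H := by
    obtain ⟨q, hq0, hq1, -⟩ := hG 0
    rw [zero_add, pow_one] at hq1
    omega
  refine ⟨H₁ * (H * L.natAbs) ^ (H₁ + 1), ?_, ?_⟩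
  · exact Nat.mul_pos hH₁ (Nat.pow_pos (Nat.mul_pos hH hL0))
  intro m
  obtain ⟨n, c, P, hn, hPc, hP1, hPk, q1, hq10, hq1H, hq1⟩ := hP m
  obtain ⟨q2, hq20, hq2H, hq2⟩ := iter_den hT hdeg hG n
  refine ⟨q1 * q2 * L.natAbs ^ (n + m), Nat.mul_pos (Nat.mul_pos hq10 hq20) (Nat.pow_pos hL0),
    ?_, ?_⟩
  · have e1 : H ^ (n + 1) ≤ (H ^ (H₁ + 1)) ^ (m + 1) := by
      rw [← pow_mul]
      exact Nat.pow_le_pow_right hH (by nlinarith)
    have e2 : L.natAbs ^ (n + m) ≤ (L.natAbs ^ (H₁ + 1)) ^ (m + 1) := by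
      rw [← pow_mul]
      exact Nat.pow_le_pow_right hL0 (by nlinarith)
    calc q1 * q2 * L.natAbs ^ (n + m)
        ≤ H₁ ^ (m + 1) * (H ^ (H₁ + 1)) ^ (m + 1) * (L.natAbs ^ (H₁ + 1)) ^ (m + 1) :=
          Nat.mul_le_mul (Nat.mul_le_mul hq1H (hq2H.trans e1)) e2
      _ = (H₁ * (H * L.natAbs) ^ (H₁ + 1)) ^ (m + 1) := by
          rw [mul_pow H, ← mul_pow, ← mul_pow, mul_assoc]
  · rintro k hk ⟨a, b⟩
    show ∃ z : ℤ, _ * PowerSeries.coeff k (V a b) = z
    rw [df_coeff hT' hr hY h0 hV hPc hP1 hPk hk a b, Finset.mul_sum]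
    have key : ∀ j ∈ Finset.range n, ∃ z : ℤ, ((q1 * q2 * L.natAbs ^ (n + m) : ℕ) : ℚ) *
        (c j * (((emb X ^ j) • Git ((emb (T.map (Int.castRingHom ℚ)))⁻¹ • eM A) j) a b).coeff
          (k : ℤ)) = z := by
      intro j hj
      have hj' := Finset.mem_range.1 hj
      exact df_int (hq1 j) ((hq2 j hj'.le a b).2 k) (by omega)
    choose! z hz using key
    refine ⟨∑ j ∈ Finset.range n, z j, ?_⟩
    rw [Finset.sum_congr rfl hz]
    push_cast
    rfl

private theorem df_inv {Y : Matrix ι ι (PowerSeries ℚ)} (h0 : coP 0 Y = 1) :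
    ∃ V : Matrix ι ι (PowerSeries ℚ), V * Y = 1 := by
  have h1 : IsUnit Y.det := by
    rw [PowerSeries.isUnit_iff_constantCoeff, RingHom.map_det]
    have h2 : (PowerSeries.constantCoeff (R := ℚ)).mapMatrix Y = 1 := by
      rw [← h0]
      ext a b
      simp [coP_apply]
    rw [h2, Matrix.det_one]
    exact isUnit_one
  exact ⟨Y⁻¹, Matrix.nonsing_inv_mul Y h1⟩

theorem den_fund {T : ℤ[X]} {A : Matrix ι ι ℚ[X]} {H : ℕ} {N : Matrix ι ι ℚ}
    (hG : Galochkin (T.map (Int.castRingHom ℚ)) A H) (hR : IsRes (T.map (Int.castRingHom ℚ)) A N)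
    (hN : IsNilpotent N) {Y : Matrix ι ι (PowerSeries ℚ)}
    (hY : IsFund (T.map (Int.castRingHom ℚ)) A Y N) (h0 : coP 0 Y = 1) :
    ∃ H' : ℕ, 1 ≤ H' ∧ GDen H' (fun p : ι × ι => Y p.1 p.2) := by
  obtain ⟨V, hV⟩ := df_inv h0
  have hYV : Y * V = 1 := mul_eq_one_comm.mp hV
  obtain ⟨hT', hdeg, hco⟩ := hR
  have hT : T ≠ 0 := by
    rintro rfl
    exact hT' (by simp)
  -- the dual system
  have hG' := gal_dual hT hG
  have hR' : IsRes (T.map (Int.castRingHom ℚ)) (-A.transpose) (-N.transpose) := by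
    refine ⟨hT', fun a b => ?_, ?_⟩
    · rw [Matrix.neg_apply, natDegree_neg, Matrix.transpose_apply]
      exact hdeg b a
    · ext a b
      have h1 := congrFun (congrFun hco b) a
      simp only [coM_apply, Matrix.neg_apply, Matrix.smul_apply, Matrix.transpose_apply,
        coeff_neg, smul_neg] at h1 ⊢
      rw [h1]
  have hN' : IsNilpotent (-N.transpose) := by
    obtain ⟨r, hr⟩ := hN
    refine ⟨r, ?_⟩
    rw [neg_pow, ← Matrix.transpose_pow, hr]
    simp
  have hF : IsFund (T.map (Int.castRingHom ℚ)) (-A.transpose) V.transpose (-N.transpose) := by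
    rw [isFund_iff hT'] at hY ⊢
    set g := (emb (T.map (Int.castRingHom ℚ)))⁻¹ • eM A with hg
    have hg' : (emb (T.map (Int.castRingHom ℚ)))⁻¹ • eM (-A.transpose) = -g.transpose := by
      ext1 a b
      simp [hg, eM_apply]
    have h1 : pM V * pM Y = 1 := by rw [← pM_mul, hV, pM_one]
    have h2 : pM Y * pM V = 1 := by rw [← pM_mul, hYV, pM_one]
    have h3 : dM (pM V) * pM Y + pM V * dM (pM Y) = 0 := by
      have h4 := congrArg dM h1
      rw [dM_mul, dM_one] at h4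
      exact h4
    have h5 : dM (pM V) = -(pM V * g) - xx • (cM N * pM V) := by
      have h6 : dM (pM V) = dM (pM V) * pM Y * pM V := by rw [mul_assoc, h2, mul_one]
      have h7 : dM (pM V) * pM Y = -(pM V * dM (pM Y)) := eq_neg_of_add_eq_zero_left h3
      rw [h6, h7, hY, mul_add, Matrix.mul_smul]
      have h8 : pM V * (g * pM Y) * pM V = pM V * g * (pM Y * pM V) := by
        simp only [mul_assoc]
      have h9 : pM V * (pM Y * cM N) * pM V = (pM V * pM Y) * (cM N * pM V) := by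
        simp only [mul_assoc]
      rw [neg_mul, add_mul, h8, h2, mul_one, Matrix.smul_mul, h9, h1, one_mul]
      abel
    have h10 : pM V.transpose = (pM V).transpose := rfl
    have h11 : cM (-N.transpose) = -(cM N).transpose := by
      rw [cM_neg]
      rfl
    rw [h10, dM_transpose, h5, hg', h11]
    simp only [Matrix.transpose_sub, Matrix.transpose_neg, Matrix.transpose_smul,
      Matrix.transpose_mul, neg_mul, mul_neg, smul_neg]
    abel
  have h0' : coP 0 V.transpose = 1 := by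
    have h1 : coP 0 V * coP 0 Y = 1 := by
      have h2 : (PowerSeries.constantCoeff (R := ℚ)).mapMatrix (V * Y) = 1 := by
        rw [hV, map_one]
      have h4 : ∀ Z : Matrix ι ι (PowerSeries ℚ),
          (PowerSeries.constantCoeff (R := ℚ)).mapMatrix Z = coP 0 Z := by
        intro Z
        ext a b
        simp [coP_apply]
      rwa [map_mul, h4, h4] at h2
    rw [h0, mul_one] at h1
    have h3 : coP 0 V.transpose = (coP 0 V).transpose := rfl
    rw [h3, h1, Matrix.transpose_one]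
  have hV' : Y.transpose * V.transpose = 1 := by
    rw [← Matrix.transpose_mul, hV, Matrix.transpose_one]
  obtain ⟨H', hH', hD⟩ := den_inv hG' hR' hN' hF h0' hV'
  refine ⟨H', hH', fun m => ?_⟩
  obtain ⟨d, hd0, hd1, hd2⟩ := hD m
  exact ⟨d, hd0, hd1, fun k hk a => hd2 k hk (a.2, a.1)⟩

end Pool.Agent.Helper79.GC
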