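import Mathlib

/-!
# GC-55: elimination (linear algebra)

`u_j = ∑_α c_{jα} y_{jα}` annihilates `z` for every `j`. Let `k` be maximal such that there are an injection `e : Fin k → Fin (M+1)` and indices
`α_i` with `y_{e(i), α_i}`, `i < k`, linearly independent in `ℚ^ι` (`k = 0` is always possible); `k ≤ card ι ≤ M`, so some `j` is not in the
image of `e`.
Some `k × k` minor (columns `τ : Fin k → ι`) of `y_{e(i), α_i}` is nonzero, so `F(α) = det (y_{e(i), α_i} (τ l))` is not identically zero and
by `hind`, multilinearity: `Δ := det (u_{e(i)} (τ l)) = ∑_α F(α) ∏ c_{e(i), α_i} ≠ 0`.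
Let `α` be arbitrary and `y = y_{j, α}`. For every column `t : ι` the `(k+1) × (k+1)` determinant of the rows `y_{e(i), β_i}` (`i < k`), `y` on the
columns `τ, t` is `0` for all `β` (by maximality of `k`), so by multilinearity the determinant with rows `u_{e(i)}`, `y` on the columns `τ, t` is `0`. Multiply by
`z_t`, sum over `t`, expand along the last column: `Δ (y · z) ± ∑_i (…) (u_{e(i)} · z) = 0`, and `u_{e(i)} · z = 0`, so `y · z = 0`.
(Alternatively: `Δ ≠ 0` and the vanishing of all these determinants say that `y` is a combination of the `u_{e(i)}`.)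
-/

namespace Pool.Agent.Helper79.GC

/-- a nonsingular square submatrix of a matrix with independent rows -/
private lemma el_cols {ι : Type} [Fintype ι] [DecidableEq ι] {k : ℕ} (c : Fin k → ι → ℚ)
    (hc : LinearIndependent ℚ c) :
    ∃ τ : Fin k → ι, (Matrix.of fun i l => c i (τ l)).det ≠ 0 := by
  classical
  set M : Matrix (Fin k) ι ℚ := Matrix.of c with hM
  have h1 : M.rank = k := by
    have := LinearIndependent.rank_matrix (M := M) hc
    simpa using this
  have h2 : Submodule.span ℚ (Set.range M.col) = ⊤ := by
    apply Submodule.eq_top_of_finrank_eq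
    rw [← Matrix.rank_eq_finrank_span_cols, h1]
    simp
  obtain ⟨κ, a, ha, hspan, hli⟩ := exists_linearIndependent' ℚ M.col
  rw [h2] at hspan
  let b : Module.Basis κ ℚ (Fin k → ℚ) := Module.Basis.mk hli (by rw [hspan])
  let b0 : Module.Basis (Fin k) ℚ (Fin k → ℚ) := Pi.basisFun ℚ (Fin k)
  let e : Fin k ≃ κ := b0.indexEquiv b
  refine ⟨fun k => a (e k), ?_⟩
  have h3 : LinearIndependent ℚ (fun l : Fin k => M.col (a (e l))) := hli.comp e e.injective
  have h4 : IsUnit (Matrix.of fun i l => c i (a (e l))) := by
    rw [← Matrix.linearIndependent_cols_iff_isUnit]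
    exact h3
  rw [Matrix.isUnit_iff_isUnit_det] at h4
  exact h4.ne_zero

/-- multilinearity of the determinant in the rows -/
private lemma el_det {A : Type} [Fintype A] [DecidableEq A] {k : ℕ} (c : Fin k → A → ℂ)
    (Y : Fin k → A → Fin k → ℚ) :
    (Matrix.of fun i l => ∑ β, c i β * (Y i β l : ℂ)).det =
      ∑ β : Fin k → A, ((Matrix.of fun i l => Y i (β i) l).det : ℂ) * ∏ i, c i (β i) := by
  have h1 : (Matrix.of fun i l => ∑ β, c i β * (Y i β l : ℂ)).det =
      (Matrix.detRowAlternating (n := Fin k) (R := ℂ)).toMultilinearMap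
        (fun i => ∑ β, c i β • fun l => (Y i β l : ℂ)) := by
    show _ = Matrix.det _
    congr 1
    ext1 i l
    simp [Finset.sum_apply]
  rw [h1, MultilinearMap.map_sum]
  refine Finset.sum_congr rfl fun β _ => ?_
  rw [MultilinearMap.map_smul_univ, smul_eq_mul, mul_comm]
  congr 1
  show Matrix.det _ = _
  have h2 : ((Matrix.of fun i l => Y i (β i) l).det : ℂ) =
      (algebraMap ℚ ℂ) (Matrix.of fun i l => Y i (β i) l).det := rfl
  rw [h2, RingHom.map_det]
  rfl

/-- minors of dependent rows vanish -/
private lemma el_dep {ι : Type} [Fintype ι] {k : ℕ} {v : Fin k → ι → ℚ}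
    (hv : ¬ LinearIndependent ℚ v) (τ : Fin k → ι) : (Matrix.of fun i l => v i (τ l)).det = 0 := by
  rw [Fintype.not_linearIndependent_iff] at hv
  obtain ⟨g, hg, i, hi⟩ := hv
  rw [← Matrix.exists_vecMul_eq_zero_iff]
  refine ⟨g, fun h => hi (congrFun h i), ?_⟩
  funext l
  have := congrFun hg (τ l)
  simpa [Matrix.vecMul, dotProduct, Finset.sum_apply] using this

/-- the replaced minor -/
private lemma el_update {ι : Type} {S : Type} [CommRing S] {k : ℕ} (v : Fin k → ι → S)
    (τ : Fin k → ι) (t : ι) (l : Fin k) :
    Matrix.cramer (Matrix.of fun i l => v i (τ l)) (fun i => v i t) l =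
      (Matrix.of fun i l' => v i (Function.update τ l t l')).det := by
  rw [Matrix.cramer_apply]
  congr 1
  ext1 i l'
  rw [Matrix.updateCol_apply, Matrix.of_apply, Matrix.of_apply, Function.update_apply]
  split_ifs <;> rfl

theorem elim {ι A : Type} [Fintype ι] [DecidableEq ι] [Fintype A] [DecidableEq A] {M : ℕ}
    (hM : Fintype.card ι ≤ M) (y : Fin (M + 1) → A → ι → ℚ) (c : Fin (M + 1) → A → ℂ)
    (hind : ∀ k : ℕ, k ≤ M → ∀ e : Fin k → Fin (M + 1), Function.Injective e →
      ∀ F : (Fin k → A) → ℚ, ∑ α, (F α : ℂ) * ∏ i, c (e i) (α i) = 0 → F = 0)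
    (z : ι → ℂ) (hz : ∀ j, ∑ α, c j α * ∑ a, (y j α a : ℂ) * z a = 0) :
    ∃ j, ∀ α, ∑ a, (y j α a : ℂ) * z a = 0 := by
  classical
  let Q : ℕ → Prop := fun k => ∃ e : Fin k → Fin (M + 1), Function.Injective e ∧
    ∃ α : Fin k → A, LinearIndependent ℚ (fun i => y (e i) (α i))
  have hQ0 : Q 0 := ⟨fun i => i.elim0, fun i => i.elim0, fun i => i.elim0,
    linearIndependent_empty_type⟩
  have hQM : ∀ k, Q k → k ≤ M := by
    rintro k ⟨e, he, α, hα⟩
    have h1 := hα.fintype_card_le_finrank
    rw [Fintype.card_fin, Module.finrank_fintype_fun_eq_card] at h1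
    omega
  obtain ⟨k, hk, hk1⟩ : ∃ k, Q k ∧ ¬ Q (k + 1) := by
    by_contra h
    push Not at h
    have h1 : ∀ k, Q k := fun k => Nat.rec hQ0 (fun k ih => h k ih) k
    have := hQM _ (h1 (M + 1))
    omega
  have hkM := hQM k hk
  obtain ⟨e, he, α₀, hα₀⟩ := hk
  obtain ⟨j, hj⟩ : ∃ j, j ∉ Set.range e := by
    by_contra h
    push Not at h
    have h1 := Fintype.card_le_of_surjective e h
    simp at h1
    omega
  refine ⟨j, fun a => ?_⟩
  obtain ⟨τ, hτ⟩ := el_cols _ hα₀
  -- the identity for rational rows
  have key : ∀ (β : Fin k → A) (t : ι),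
      (y j a t) * (Matrix.of fun i l => y (e i) (β i) (τ l)).det =
        ∑ l, y j a (τ l) * (Matrix.of fun i l' => y (e i) (β i) (Function.update τ l t l')).det := by
    intro β t
    by_cases hli : LinearIndependent ℚ (fun i => y (e i) (β i))
    · have hmem : y j a ∈ Submodule.span ℚ (Set.range fun i => y (e i) (β i)) := by
        by_contra hmem
        apply hk1
        refine ⟨Fin.snoc e j, ?_, Fin.snoc β a, ?_⟩
        · intro p q hpq
          induction p using Fin.lastCases with
          | last =>
            induction q using Fin.lastCases with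
            | last => rfl
            | cast q =>
              rw [Fin.snoc_last, Fin.snoc_castSucc] at hpq
              exact absurd ⟨q, hpq.symm⟩ hj
          | cast p =>
            induction q using Fin.lastCases with
            | last =>
              rw [Fin.snoc_last, Fin.snoc_castSucc] at hpq
              exact absurd ⟨p, hpq⟩ hj
            | cast q =>
              rw [Fin.snoc_castSucc, Fin.snoc_castSucc] at hpq
              rw [he hpq]
        · rw [linearIndependent_finSucc']
          have h1 : (Fin.init fun i : Fin (k + 1) => y (Fin.snoc (α := fun _ => Fin (M + 1)) e j i)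
              (Fin.snoc (α := fun _ => A) β a i)) = fun i => y (e i) (β i) := by
            funext i
            simp [Fin.init]
          rw [h1]
          refine ⟨hli, ?_⟩
          simpa using hmem
      obtain ⟨lam, hlam⟩ := (Submodule.mem_span_range_iff_exists_fun ℚ).1 hmem
      have hy : ∀ s, y j a s = ∑ i, lam i * y (e i) (β i) s := by
        intro s
        rw [← hlam]
        simp [Finset.sum_apply]
      have h1 : ∀ i, ∑ l, y (e i) (β i) (τ l) *
          (Matrix.of fun i l' => y (e i) (β i) (Function.update τ l t l')).det =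
          (Matrix.of fun i l => y (e i) (β i) (τ l)).det * y (e i) (β i) t := by
        intro i
        have h2 := congrFun (Matrix.mulVec_cramer (Matrix.of fun i l => y (e i) (β i) (τ l))
          (fun i => y (e i) (β i) t)) i
        rw [Pi.smul_apply, smul_eq_mul] at h2
        rw [← h2]
        simp only [Matrix.mulVec, dotProduct]
        refine Finset.sum_congr rfl fun l _ => ?_
        rw [el_update (fun i => y (e i) (β i)) τ t l]
        rfl
      simp only [hy, Finset.sum_mul]
      rw [Finset.sum_comm]
      refine Finset.sum_congr rfl fun i _ => ?_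
      have h3 : ∑ l, lam i * y (e i) (β i) (τ l) *
          (Matrix.of fun i l' => y (e i) (β i) (Function.update τ l t l')).det =
          lam i * ∑ l, y (e i) (β i) (τ l) *
          (Matrix.of fun i l' => y (e i) (β i) (Function.update τ l t l')).det := by
        rw [Finset.mul_sum]
        exact Finset.sum_congr rfl fun l _ => by ring
      rw [h3, h1 i]
      ring
    · rw [el_dep hli τ, mul_zero]
      symm
      refine Finset.sum_eq_zero fun l _ => ?_
      rw [el_dep hli (Function.update τ l t), mul_zero]
  -- the complex rows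
  set u : Fin k → ι → ℂ := fun i t => ∑ β, c (e i) β * (y (e i) β t : ℂ) with hu
  have hdet : ∀ σ : Fin k → ι, (Matrix.of fun i l => u i (σ l)).det =
      ∑ β : Fin k → A, ((Matrix.of fun i l => y (e i) (β i) (σ l)).det : ℂ) *
        ∏ i, c (e i) (β i) := by
    intro σ
    exact el_det (fun i => c (e i)) (fun i β l => y (e i) β (σ l))
  have hΔ : (Matrix.of fun i l => u i (τ l)).det ≠ 0 := by
    intro h0
    rw [hdet] at h0
    have h1 := hind k hkM e he (fun β => (Matrix.of fun i l => y (e i) (β i) (τ l)).det) h0
    exact hτ (congrFun h1 α₀)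
  have keyC : ∀ t : ι, (y j a t : ℂ) * (Matrix.of fun i l => u i (τ l)).det =
      ∑ l, (y j a (τ l) : ℂ) *
        Matrix.cramer (Matrix.of fun i l => u i (τ l)) (fun i => u i t) l := by
    intro t
    simp only [el_update u τ t, hdet, Finset.mul_sum]
    rw [Finset.sum_comm]
    refine Finset.sum_congr rfl fun β _ => ?_
    have h1 : ((y j a t * (Matrix.of fun i l => y (e i) (β i) (τ l)).det : ℚ) : ℂ) =
        ((∑ l, y j a (τ l) * (Matrix.of fun i l' => y (e i) (β i) (Function.update τ l t l')).det :
          ℚ) : ℂ) := by rw [key β t]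
    rw [Rat.cast_mul, Rat.cast_sum] at h1
    simp only [Rat.cast_mul] at h1
    rw [← mul_assoc, h1, Finset.sum_mul]
    exact Finset.sum_congr rfl fun l _ => by ring
  have huz : ∀ i, ∑ t, z t * u i t = 0 := by
    intro i
    rw [← hz (e i)]
    simp only [hu, Finset.mul_sum]
    rw [Finset.sum_comm]
    exact Finset.sum_congr rfl fun β _ => Finset.sum_congr rfl fun t _ => by ring
  have hfin : (∑ t, (y j a t : ℂ) * z t) * (Matrix.of fun i l => u i (τ l)).det = 0 := by
    rw [Finset.sum_mul]
    have h1 : ∀ t, (y j a t : ℂ) * z t * (Matrix.of fun i l => u i (τ l)).det =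
        ∑ l, (y j a (τ l) : ℂ) *
          (z t * Matrix.cramer (Matrix.of fun i l => u i (τ l)) (fun i => u i t) l) := by
      intro t
      have h2 : (y j a t : ℂ) * z t * (Matrix.of fun i l => u i (τ l)).det =
          z t * ((y j a t : ℂ) * (Matrix.of fun i l => u i (τ l)).det) := by ring
      rw [h2, keyC t, Finset.mul_sum]
      exact Finset.sum_congr rfl fun l _ => by ring
    rw [Finset.sum_congr rfl fun t _ => h1 t, Finset.sum_comm]
    refine Finset.sum_eq_zero fun l _ => ?_
    rw [← Finset.mul_sum]
    have h3 : ∑ t, z t * Matrix.cramer (Matrix.of fun i l => u i (τ l)) (fun i => u i t) l =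
        Matrix.cramer (Matrix.of fun i l => u i (τ l)) (∑ t, z t • fun i => u i t) l := by
      rw [map_sum, Finset.sum_apply]
      exact Finset.sum_congr rfl fun t _ => by rw [map_smul, Pi.smul_apply, smul_eq_mul]
    have h4 : (∑ t, z t • fun i => u i t) = 0 := by
      funext i
      simp only [Finset.sum_apply, Pi.smul_apply, smul_eq_mul, Pi.zero_apply]
      exact huz i
    rw [h3, h4, map_zero, Pi.zero_apply, mul_zero]
  exact (mul_eq_zero.1 hfin).resolve_right hΔ

end Pool.Agent.Helper79.GC
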