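import Pool.Agent.Helper79.GC.Defs2

/-!
# GC-47: a basis of an algebra of matrices containing `1`

`G` is a `ℚ`-subspace of the finite dimensional space `Matrix ι ι ℚ`, `1 ≠ 0` in it: extend `1` to a basis `g` of `G` (Mathlib:
`LinearIndependent.extend`, or `exists_linearIndependent…`, then an equivalence of the finite index type with `Fin R`).
Dual functionals: `g` is linearly independent in `Matrix ι ι ℚ`, extend it to a basis, take coordinate functionals; every linear functional on
`Matrix ι ι ℚ` is `M ↦ ∑ u_ab M_ab` with `u_ab` its value at the elementary matrix. `closed`: `g α * g β ∈ G = span g`.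
-/

open Polynomial

namespace Pool.Agent.Helper79.GC

open Pool.Agent.Helper37.GP

variable {ι : Type} [Fintype ι] [DecidableEq ι]

theorem exists_algBasis [Nonempty ι] (G : Set (Matrix ι ι ℚ)) (h1 : 1 ∈ G)
    (hadd : ∀ x ∈ G, ∀ y ∈ G, x + y ∈ G) (hsmul : ∀ (c : ℚ), ∀ x ∈ G, c • x ∈ G)
    (hmul : ∀ x ∈ G, ∀ y ∈ G, x * y ∈ G) :
    ∃ (R : ℕ) (B : AlgBasis ι R), ∀ M, M ∈ G ↔ ∃ c : Fin R → ℚ, M = ∑ α, c α • B.g α := by
  classical
  set W : Submodule ℚ (Matrix ι ι ℚ) :=
    { carrier := G
      add_mem' := fun {a b} ha hb => hadd a ha b hb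
      zero_mem' := by
        have := hsmul 0 1 h1
        rwa [zero_smul] at this
      smul_mem' := fun c x hx => hsmul c x hx } with hW
  have hmem : ∀ M, M ∈ W ↔ M ∈ G := fun M => Iff.rfl
  set o : W := ⟨1, h1⟩ with ho
  have ho0 : o ≠ 0 := by
    intro h
    have h2 : (1 : Matrix ι ι ℚ) = 0 := congrArg Subtype.val h
    exact one_ne_zero h2
  have hli : LinearIndepOn ℚ id ({o} : Set W) := (linearIndepOn_singleton_iff ℚ).2 ho0
  set b := Module.Basis.extend hli with hb
  have hfin : Finite (hli.extend (Set.subset_univ _)) := Module.Finite.finite_basis b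
  have hft : Fintype (hli.extend (Set.subset_univ _)) := Fintype.ofFinite _
  set e := Fintype.equivFin (hli.extend (Set.subset_univ _)) with he
  set b' := b.reindex e with hb'
  have hoi : o ∈ hli.extend (Set.subset_univ _) := hli.subset_extend _ rfl
  have hL : ∀ α, ∃ L : Matrix ι ι ℚ →ₗ[ℚ] ℚ, L ∘ₗ W.subtype = b'.coord α := fun α =>
    LinearMap.exists_extend (b'.coord α)
  choose L hL using hL
  have hLs : ∀ α (M : Matrix ι ι ℚ), L α M = ∑ a, ∑ c, L α (Matrix.single a c 1) * M a c := by
    intro α M
    conv_lhs => rw [Matrix.matrix_eq_sum_single M]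
    rw [map_sum]
    refine Finset.sum_congr rfl fun a _ => ?_
    rw [map_sum]
    refine Finset.sum_congr rfl fun c _ => ?_
    have : Matrix.single a c (M a c) = M a c • Matrix.single a c (1 : ℚ) := by
      rw [Matrix.smul_single, smul_eq_mul, mul_one]
    rw [this, map_smul, smul_eq_mul, mul_comm]
  have hspan : ∀ M, M ∈ G ↔ ∃ c : Fin (Fintype.card (hli.extend (Set.subset_univ _))) → ℚ,
      M = ∑ α, c α • (b' α : Matrix ι ι ℚ) := by
    intro M
    constructor
    · intro h
      refine ⟨b'.repr ⟨M, h⟩, ?_⟩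
      have h2 := congrArg W.subtype (b'.sum_repr ⟨M, h⟩)
      rw [map_sum] at h2
      exact h2.symm
    · rintro ⟨c, rfl⟩
      rw [← hmem]
      exact Submodule.sum_mem _ fun α _ => Submodule.smul_mem _ _ (b' α).2
  refine ⟨_, { g := fun α => (b' α : Matrix ι ι ℚ)
               u := fun α => Matrix.of fun a c => L α (Matrix.single a c 1)
               i₀ := e ⟨o, hoi⟩
               one := ?_
               dual := ?_
               closed := ?_ }, hspan⟩
  · have h2 : b' (e ⟨o, hoi⟩) = o := by
      rw [hb', Module.Basis.reindex_apply, Equiv.symm_apply_apply, hb, Module.Basis.extend_apply_self]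
    rw [h2]
  · intro α β
    have h2 := LinearMap.congr_fun (hL α) (b' β)
    rw [LinearMap.comp_apply, Submodule.subtype_apply, Module.Basis.coord_apply,
      Module.Basis.repr_self, Finsupp.single_apply] at h2
    rw [hLs] at h2
    simp only [Matrix.of_apply]
    rw [h2]
    simp only [eq_comm]
  · intro α β
    exact (hspan _).1 (hmul _ (b' α).2 _ (b' β).2)

end Pool.Agent.Helper79.GC
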