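import Pool.Agent.Helper79.GC.Defs2
import Pool.Agent.Helper37.GP.Bounds

/-!
# GC-31: existence, growth and uniqueness of the fundamental matrix (nilpotent residue)

Let `T = t s^τ + …`, `A` of degree `< τ`, residue `-N` (`IsRes`). In `x = 1/s`: `dd = -x² d/dx`, so
`s dd` acts on the coefficient of `x^k` as `-k`. `s A / T = ∑_{i≥0} a_i x^i` (`a_0 = -N`), a matrix of power series in `x`
with `|a_i| ≤ c^(i+1)` (it is a rational function regular at `x = 0`: `(x^τ T) (s A/T) = x^(τ-1) A`, where `x^τ T`, `x^(τ-1) A` are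
polynomials in `x` and `x^τ T` has constant term `t ≠ 0`: recursion for the coefficients of the quotient).
`IsFund T A Y N` (divide by `T`, multiply by `s`) is, coefficient by coefficient,
`-k Y_k = ∑_{i≤k} a_i Y_{k-i} + Y_k N`, i.e. `(k - ad N) Y_k = - ∑_{i=1}^k a_i Y_{k-i}`, `ad N (Y) = N Y - Y N`.

* `exists_fund`: `ad N` is nilpotent (`(ad N)^m Y = ∑ ± binom(m,i) N^(m-i) Y N^i`, `N^r = 0`, `m = 2r`), so `k - ad N` is invertible for
  `k ≥ 1` with inverse `∑_{l<2r} (ad N)^l / k^(l+1)`, bounded by a constant `c'` in the sup norm. Define `Y_0 = 1` and `Y_k` by the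
  recursion (strong recursion); growth: `‖Y_k‖ ≤ c' r ∑_{i≥1} c^(i+1) ‖Y_{k-i}‖` gives `‖Y_k‖ ≤ H^(k+1)` for `H` large
  (`H = 2 c (1 + c c' r)` suffices).
* `fund_zero`: the same recursion, `(k - ad N) G_k = 0` and `k - ad N` injective for `k ≥ 1`, `G_0 = 0`. (`IsFund T A G N` is a linear
  condition on `G`; nothing is assumed about invertibility.)
* `fund_comm`: apply `fund_zero` to `G = Y M - M Y` (with `M` constant, commuting with `A` and `N`).
-/

open Polynomial

namespace Pool.Agent.Helper79.GC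

open Pool.Agent.Helper37.GP

namespace EF31

/-! ### Reversed polynomials as power series -/

/-- The power series `x^n p(1/x)`. -/
noncomputable def rv (n : ℕ) (p : ℚ[X]) : PowerSeries ℚ :=
  PowerSeries.mk fun k => if k ≤ n then p.coeff (n - k) else 0

theorem xx_pow (n : ℕ) : xx ^ n = HahnSeries.single (n : ℤ) (1 : ℚ) := by
  rw [xx, HahnSeries.single_pow]
  simp

theorem coeff_xx_pow_mul (n : ℕ) (f : LaurentSeries ℚ) (k : ℤ) :
    (xx ^ n * f).coeff k = f.coeff (k - n) := by
  rw [xx_pow]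
  have h := HahnSeries.coeff_single_mul_add (r := (1 : ℚ)) (x := f) (a := k - n) (b := (n : ℤ))
  rw [sub_add_cancel, one_mul] at h
  exact h

theorem coeff_xx_mul (f : LaurentSeries ℚ) (k : ℤ) : (xx * f).coeff k = f.coeff (k - 1) := by
  have h := coeff_xx_pow_mul 1 f k
  rwa [pow_one, Nat.cast_one] at h

theorem ps_rv {n : ℕ} {p : ℚ[X]} (hp : p.natDegree ≤ n) : ps (rv n p) = xx ^ n * emb p := by
  ext k
  rw [ps_coeff, coeff_xx_pow_mul, emb_coeff, rv, PowerSeries.coeff_mk]
  split_ifs with h1 h2 h3 h3 h4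
  · symm
    apply coeff_eq_zero_of_natDegree_lt
    omega
  · rfl
  · congr 1
    omega
  · exfalso
    omega
  · exfalso
    omega
  · rfl

/-- `x d/dx`. -/
noncomputable def th (f : PowerSeries ℚ) : PowerSeries ℚ :=
  PowerSeries.mk fun k => (k : ℚ) * PowerSeries.coeff k f

theorem dd_ps (f : PowerSeries ℚ) : dd (ps f) = -(xx * ps (th f)) := by
  ext k
  rw [dd_coeff, HahnSeries.coeff_neg, coeff_xx_mul, ps_coeff, ps_coeff, th, PowerSeries.coeff_mk]
  split_ifs with h
  · simp
  · have h1 : (((k - 1).natAbs : ℕ) : ℚ) = (k : ℚ) - 1 := by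
      have h2 : (((k - 1).natAbs : ℕ) : ℤ) = k - 1 := by omega
      have h3 : ((((k - 1).natAbs : ℕ) : ℤ) : ℚ) = ((k - 1 : ℤ) : ℚ) := by rw [h2]
      push_cast at h3
      rw [← h3]
      norm_num
    rw [h1]
    ring

/-! ### Bounds -/

theorem geo {K c B : ℚ} (hc : 0 ≤ c) (hB : 0 ≤ B) (n : ℕ) :
    K * ∑ j ∈ Finset.range n, c ^ (n - j + 1) * (B * (c * (1 + K * c)) ^ j) ≤
      B * (c * (1 + K * c)) ^ n := by
  have h1 : ∀ j ∈ Finset.range n, c ^ (n - j + 1) * (B * (c * (1 + K * c)) ^ j) =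
      B * c ^ (n + 1) * (1 + K * c) ^ j := by
    intro j hj
    have hj' := Finset.mem_range.mp hj
    obtain ⟨m, rfl⟩ := Nat.exists_eq_add_of_lt hj'
    have h3 : j + m + 1 - j + 1 = m + 2 := by omega
    rw [h3, mul_pow]
    ring
  rw [Finset.sum_congr rfl h1, ← Finset.mul_sum]
  have h2 := geom_sum_mul (1 + K * c) n
  have h3 : K * (B * c ^ (n + 1) * ∑ i ∈ Finset.range n, (1 + K * c) ^ i) =
      B * c ^ n * ((∑ i ∈ Finset.range n, (1 + K * c) ^ i) * (1 + K * c - 1)) := by ring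
  rw [h3, h2, mul_pow]
  have h4 : 0 ≤ B * c ^ n := by positivity
  nlinarith

theorem gbound_of_geo {f : PowerSeries ℚ} {B q : ℚ} (hq : 0 ≤ q)
    (hf : ∀ n, |PowerSeries.coeff n f| ≤ B * q ^ n) {H : ℕ} (h1 : B ≤ H) (h2 : q ≤ H) :
    GBound H f := by
  intro n
  refine (hf n).trans ?_
  have h3 : q ^ n ≤ (H : ℚ) ^ n := pow_le_pow_left₀ hq h2 n
  have h4 : (0 : ℚ) ≤ q ^ n := pow_nonneg hq n
  have h5 : (0 : ℚ) ≤ H := Nat.cast_nonneg H
  rw [pow_succ, mul_comm]
  exact mul_le_mul h3 h1 (by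
    have := (abs_nonneg _).trans (hf 0)
    rwa [pow_zero, mul_one] at this) (pow_nonneg h5 n)

theorem gbound_rv (n : ℕ) (p : ℚ[X]) : ∃ M : ℚ, 0 ≤ M ∧ ∀ k, |PowerSeries.coeff k (rv n p)| ≤ M := by
  refine ⟨∑ i ∈ Finset.range (n + 1), |p.coeff i|,
    Finset.sum_nonneg fun _ _ => abs_nonneg _, fun k => ?_⟩
  rw [rv, PowerSeries.coeff_mk]
  split_ifs with h
  · exact Finset.single_le_sum (f := fun i => |p.coeff i|) (fun _ _ => abs_nonneg _)
      (Finset.mem_range.mpr (by omega))
  · rw [abs_zero]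
    exact Finset.sum_nonneg fun _ _ => abs_nonneg _

theorem inv_bound {P : PowerSeries ℚ} (h0 : PowerSeries.constantCoeff P ≠ 0) {M : ℚ}
    (hM0 : 0 ≤ M) (hM : ∀ n, |PowerSeries.coeff n P| ≤ M) :
    ∀ n, |PowerSeries.coeff n P⁻¹| ≤ |(PowerSeries.constantCoeff P)⁻¹| *
      (1 * (1 + |(PowerSeries.constantCoeff P)⁻¹| * M * 1)) ^ n := by
  intro n
  induction n using Nat.strong_induction_on with
  | _ n ih =>
  set B : ℚ := |(PowerSeries.constantCoeff P)⁻¹| with hB
  have hB0 : 0 ≤ B := abs_nonneg _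
  rcases Nat.eq_zero_or_pos n with hn | hn
  · subst hn
    rw [PowerSeries.coeff_zero_eq_constantCoeff_apply, PowerSeries.constantCoeff_inv, pow_zero,
      mul_one]
  · have h1 : PowerSeries.coeff n (P * P⁻¹) = 0 := by
      rw [PowerSeries.mul_inv_cancel P h0, PowerSeries.coeff_one, if_neg (by omega)]
    rw [PowerSeries.coeff_mul, Finset.Nat.sum_antidiagonal_eq_sum_range_succ_mk,
      ← Finset.sum_range_reflect] at h1
    simp only [Nat.succ_eq_add_one, Nat.add_sub_cancel] at h1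
    rw [Finset.sum_range_succ, Nat.sub_self, Nat.sub_zero] at h1
    have h2 : PowerSeries.coeff n P⁻¹ = -((PowerSeries.constantCoeff P)⁻¹ *
        ∑ j ∈ Finset.range n, PowerSeries.coeff (n - j) P *
          PowerSeries.coeff (n - (n - j)) P⁻¹) := by
      rw [PowerSeries.coeff_zero_eq_constantCoeff_apply] at h1
      field_simp
      linear_combination h1
    rw [h2, abs_neg, abs_mul, ← hB]
    refine le_trans ?_ (geo (K := B * M) (c := 1) (B := B) zero_le_one hB0 n)
    rw [mul_assoc B M]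
    refine mul_le_mul_of_nonneg_left ?_ hB0
    refine (Finset.abs_sum_le_sum_abs _ _).trans ?_
    rw [Finset.mul_sum]
    refine Finset.sum_le_sum fun j hj => ?_
    have hj' := Finset.mem_range.mp hj
    have h3 : n - (n - j) = j := by omega
    rw [h3, abs_mul, one_pow, one_mul]
    exact mul_le_mul (hM _) (ih j hj') (abs_nonneg _) hM0

/-! ### The recursion -/

variable {ι : Type} [Fintype ι] [DecidableEq ι]

/-- All entries are at most `z` in absolute value. -/
def SB (z : ℚ) (Z : Matrix ι ι ℚ) : Prop := ∀ a b, |Z a b| ≤ z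

theorem SB_mul {x y : ℚ} (hx0 : 0 ≤ x) {X Y : Matrix ι ι ℚ} (hX : SB x X) (hY : SB y Y) :
    SB (Fintype.card ι * (x * y)) (X * Y) := by
  intro a b
  rw [Matrix.mul_apply]
  refine (Finset.abs_sum_le_sum_abs _ _).trans ?_
  have h : ∀ c ∈ Finset.univ, |X a c * Y c b| ≤ x * y := fun c _ => by
    rw [abs_mul]
    exact mul_le_mul (hX a c) (hY c b) (abs_nonneg _) hx0
  refine (Finset.sum_le_card_nsmul _ _ _ h).trans ?_
  rw [nsmul_eq_mul, Finset.card_univ]

theorem SB_exists (Z : Matrix ι ι ℚ) : ∃ z : ℚ, 0 ≤ z ∧ SB z Z := by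
  refine ⟨∑ a, ∑ b, |Z a b|, Finset.sum_nonneg fun _ _ => Finset.sum_nonneg fun _ _ =>
    abs_nonneg _, fun a b => ?_⟩
  refine (Finset.single_le_sum (f := fun b => |Z a b|) (fun _ _ => abs_nonneg _)
    (Finset.mem_univ b)).trans ?_
  exact Finset.single_le_sum (f := fun a => ∑ b, |Z a b|)
    (fun _ _ => Finset.sum_nonneg fun _ _ => abs_nonneg _) (Finset.mem_univ a)

/-- The commutator map. -/
noncomputable def adN (N : Matrix ι ι ℚ) : Module.End ℚ (Matrix ι ι ℚ) :=
  LinearMap.mulLeft ℚ N - LinearMap.mulRight ℚ N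

theorem adN_apply (N Z : Matrix ι ι ℚ) : adN N Z = N * Z - Z * N := rfl

theorem adN_nilpotent {N : Matrix ι ι ℚ} (hN : IsNilpotent N) : IsNilpotent (adN N) := by
  have hl : IsNilpotent (LinearMap.mulLeft ℚ N) := by
    rwa [LinearMap.isNilpotent_mulLeft_iff]
  have hr : IsNilpotent (LinearMap.mulRight ℚ N) := by
    rwa [LinearMap.isNilpotent_mulRight_iff]
  exact (LinearMap.commute_mulLeft_right (R := ℚ) N N).isNilpotent_sub hl hr

theorem ad_inv {N : Matrix ι ι ℚ} (hN : IsNilpotent N) :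
    ∃ (R : ℕ → Matrix ι ι ℚ → Matrix ι ι ℚ) (c' : ℚ), 0 ≤ c' ∧ ∀ k : ℕ, 1 ≤ k →
      (∀ Z, (k : ℚ) • R k Z - N * R k Z + R k Z * N = Z) ∧
      (∀ Z, R k ((k : ℚ) • Z - N * Z + Z * N) = Z) ∧
      ∀ Z z, SB z Z → SB (c' * z) (R k Z) := by
  obtain ⟨m, hm⟩ := adN_nilpotent hN
  obtain ⟨ν, hν0, hν⟩ := SB_exists N
  set E := adN N with hE
  set C0 : ℚ := Fintype.card ι * ν + Fintype.card ι * ν with hC0
  have hC00 : 0 ≤ C0 := by positivity
  let S : ℕ → Module.End ℚ (Matrix ι ι ℚ) := fun k =>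
    ∑ l ∈ Finset.range m, ((k : ℚ)⁻¹ • E) ^ l
  have hx : ∀ k : ℕ, ((k : ℚ)⁻¹ • E) ^ m = 0 := fun k => by
    rw [_root_.smul_pow, hm, smul_zero]
  have h1 : ∀ k : ℕ, (1 - (k : ℚ)⁻¹ • E) * S k = 1 := fun k => by
    rw [mul_neg_geom_sum, hx, sub_zero]
  have h2 : ∀ k : ℕ, S k * (1 - (k : ℚ)⁻¹ • E) = 1 := fun k => by
    rw [geom_sum_mul_neg, hx, sub_zero]
  refine ⟨fun k Z => (k : ℚ)⁻¹ • S k Z, ∑ l ∈ Finset.range m, C0 ^ l,
    Finset.sum_nonneg fun _ _ => pow_nonneg hC00 _, fun k hk => ?_⟩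
  have hk0 : (k : ℚ) ≠ 0 := by
    have : k ≠ 0 := by omega
    exact_mod_cast this
  have hk1 : (k : ℚ)⁻¹ ≤ 1 := by
    apply inv_le_one_of_one_le₀
    exact_mod_cast hk
  have hk2 : 0 ≤ (k : ℚ)⁻¹ := by positivity
  refine ⟨fun Z => ?_, fun Z => ?_, fun Z z hZ => ?_⟩
  · have h3 := LinearMap.congr_fun (h1 k) Z
    rw [Module.End.mul_apply, LinearMap.sub_apply, LinearMap.smul_apply, Module.End.one_apply,
      Module.End.one_apply, hE, adN_apply] at h3
    simp only
    rw [smul_smul, mul_inv_cancel₀ hk0, one_smul, Matrix.mul_smul, Matrix.smul_mul, sub_add,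
      ← smul_sub]
    exact h3
  · have h3 := LinearMap.congr_fun (h2 k) Z
    rw [Module.End.mul_apply, LinearMap.sub_apply, LinearMap.smul_apply, Module.End.one_apply,
      hE, adN_apply] at h3
    show (k : ℚ)⁻¹ • S k ((k : ℚ) • Z - N * Z + Z * N) = Z
    rw [sub_add, ← map_smul, smul_sub, smul_smul, inv_mul_cancel₀ hk0, one_smul]
    exact h3
  · have h4 : ∀ l, SB (C0 ^ l * z) ((((k : ℚ)⁻¹ • E) ^ l) Z) := by
      intro l
      induction l with
      | zero =>
        intro a b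
        rw [pow_zero, pow_zero, one_mul, Module.End.one_apply]
        exact hZ a b
      | succ l ih =>
        intro a b
        rw [pow_succ' ((k : ℚ)⁻¹ • E), Module.End.mul_apply, LinearMap.smul_apply, hE, adN_apply,
          Matrix.smul_apply, smul_eq_mul, abs_mul, abs_of_nonneg hk2, ← hE]
        have h5 := SB_mul hν0 hν ih a b
        have hz : 0 ≤ C0 ^ l * z := (abs_nonneg _).trans (ih a b)
        have h6 := SB_mul hz ih hν a b
        refine (mul_le_of_le_one_left (abs_nonneg _) hk1).trans ?_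
        rw [Matrix.sub_apply]
        refine (abs_sub _ _).trans ?_
        rw [pow_succ, hC0] at *
        linarith
    intro a b
    have h7 : ((k : ℚ)⁻¹ • S k Z) a b =
        (k : ℚ)⁻¹ * ∑ l ∈ Finset.range m, ((((k : ℚ)⁻¹ • E) ^ l) Z) a b := by
      rw [Matrix.smul_apply, smul_eq_mul, LinearMap.sum_apply, Matrix.sum_apply]
    simp only
    rw [h7, abs_mul, abs_of_nonneg hk2]
    refine (mul_le_of_le_one_left (abs_nonneg _) hk1).trans ?_
    refine (Finset.abs_sum_le_sum_abs _ _).trans ?_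
    rw [Finset.sum_mul]
    exact Finset.sum_le_sum fun l _ => h4 l a b

/-- The coefficients of the fundamental matrix. -/
noncomputable def Yr (R : ℕ → Matrix ι ι ℚ → Matrix ι ι ℚ) (W : ℕ → Matrix ι ι ℚ) :
    ℕ → Matrix ι ι ℚ
  | 0 => 1
  | (k + 1) => R (k + 1) (-∑ j : Fin (k + 1), W (k + 1 - j) * Yr R W j)
termination_by k => k
decreasing_by exact j.2

theorem Yr_zero (R : ℕ → Matrix ι ι ℚ → Matrix ι ι ℚ) (W : ℕ → Matrix ι ι ℚ) :
    Yr R W 0 = 1 := by
  rw [Yr]

theorem Yr_pos (R : ℕ → Matrix ι ι ℚ → Matrix ι ι ℚ) (W : ℕ → Matrix ι ι ℚ) {k : ℕ}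
    (hk : 1 ≤ k) : Yr R W k = R k (-∑ j ∈ Finset.range k, W (k - j) * Yr R W j) := by
  obtain ⟨m, rfl⟩ : ∃ m, k = m + 1 := ⟨k - 1, by omega⟩
  rw [Yr, Finset.sum_range]

theorem SB_neg {x : ℚ} {X : Matrix ι ι ℚ} (hX : SB x X) : SB x (-X) := fun a b => by
  rw [Matrix.neg_apply, abs_neg]
  exact hX a b

theorem fund_iff [Nonempty ι] {T : ℚ[X]} {A : Matrix ι ι ℚ[X]} {N : Matrix ι ι ℚ}
    (h : IsRes T A N) : ∃ W : Matrix ι ι (PowerSeries ℚ),
      (∃ c : ℕ, ∀ a b, GBound c (W a b)) ∧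
      ∀ G : Matrix ι ι (PowerSeries ℚ), IsFund T A G N ↔
        ∀ k : ℕ, (k : ℚ) • coP k G - N * coP k G + coP k G * N =
          -∑ j ∈ Finset.range k, coP (k - j) W * coP j G := by
  obtain ⟨hT, hdeg, hres⟩ := h
  have hτ : 1 ≤ T.natDegree := by
    obtain ⟨a⟩ := ‹Nonempty ι›
    have := hdeg a a
    omega
  obtain ⟨τ, hτ'⟩ : ∃ τ, T.natDegree = τ + 1 := ⟨T.natDegree - 1, by omega⟩
  set P : PowerSeries ℚ := rv (τ + 1) T with hP
  have hP0 : PowerSeries.constantCoeff P = T.leadingCoeff := by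
    rw [← PowerSeries.coeff_zero_eq_constantCoeff_apply, hP, rv, PowerSeries.coeff_mk,
      if_pos (Nat.zero_le _), Nat.sub_zero, ← hτ']
    rfl
  have ht : T.leadingCoeff ≠ 0 := leadingCoeff_ne_zero.mpr hT
  have hP1 : PowerSeries.constantCoeff P ≠ 0 := by rwa [hP0]
  let Q : Matrix ι ι (PowerSeries ℚ) := Matrix.of fun a b => rv τ (A a b)
  have hpsP : ps P = xx ^ (τ + 1) * emb T := ps_rv (by omega)
  have hpsQ : ∀ a b, ps (Q a b) = xx ^ τ * emb (A a b) := fun a b =>
    ps_rv (by have := hdeg a b; omega)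
  have hPinv : P⁻¹ * P = 1 := PowerSeries.inv_mul_cancel P hP1
  -- the matrix `W`
  refine ⟨P⁻¹ • Q, ?_, ?_⟩
  · obtain ⟨M, hM0, hM⟩ := gbound_rv (τ + 1) T
    have h1 := inv_bound hP1 hM0 hM
    choose M' hM0' hM' using fun (ab : ι × ι) => gbound_rv τ (A ab.1 ab.2)
    set B : ℚ := |(PowerSeries.constantCoeff P)⁻¹| with hB
    set q : ℚ := 1 * (1 + B * M * 1) with hq
    have hB0 : 0 ≤ B := abs_nonneg _
    have hq0 : 0 ≤ q := by positivity
    obtain ⟨H, hH⟩ := exists_nat_ge (2 + B + q + ∑ ab, M' ab)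
    have hs0 : 0 ≤ ∑ ab, M' ab := Finset.sum_nonneg fun ab _ => hM0' ab
    have hH2 : 2 ≤ H := by
      have : (2 : ℚ) ≤ H := by linarith
      exact_mod_cast this
    refine ⟨H ^ 3, fun a b => ?_⟩
    rw [Matrix.smul_apply, smul_eq_mul]
    refine gbound_mul hH2 (gbound_of_geo hq0 h1 (by linarith) (by linarith)) ?_
    have h2 : M' (a, b) ≤ ∑ ab, M' ab := Finset.single_le_sum (fun ab _ => hM0' ab)
      (Finset.mem_univ (a, b))
    refine gbound_of_geo (B := M' (a, b)) (q := 1) zero_le_one (fun n => ?_) (by linarith)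
      (by linarith)
    rw [one_pow, mul_one]
    exact hM' (a, b) n
  · intro G
    have hxx : xx ^ τ ≠ 0 := pow_ne_zero _ xx_ne_zero
    have e0 : IsFund T A G N ↔ ∀ a b, emb T * dd (ps (G a b)) =
        ∑ c, eM A a c * pM G c b + emb T * xx * ∑ c, pM G a c * cM N c b := by
      unfold IsFund
      rw [← Matrix.ext_iff]
      refine forall_congr' fun a => forall_congr' fun b => ?_
      rw [Matrix.add_apply, Matrix.smul_apply, Matrix.smul_apply, Matrix.mul_apply,
        Matrix.mul_apply, dM_apply, pM_apply, smul_eq_mul, smul_eq_mul]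
    have e1 : ∀ a b, (emb T * dd (ps (G a b)) =
        ∑ c, eM A a c * pM G c b + emb T * xx * ∑ c, pM G a c * cM N c b) ↔
        -(P * th (G a b)) = ∑ c, Q a c * G c b + P * ∑ c, G a c * PowerSeries.C (N c b) := by
      intro a b
      have l1 : ps (-(P * th (G a b))) = xx ^ τ * (emb T * dd (ps (G a b))) := by
        rw [dd_ps]
        unfold ps at hpsP ⊢
        rw [map_neg, map_mul, hpsP]
        ring
      have l2 : ps (∑ c, Q a c * G c b + P * ∑ c, G a c * PowerSeries.C (N c b)) =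
          xx ^ τ * (∑ c, eM A a c * pM G c b + emb T * xx * ∑ c, pM G a c * cM N c b) := by
        have l3 : ∀ c, ps (Q a c * G c b) = xx ^ τ * (eM A a c * pM G c b) := fun c => by
          have h3 := hpsQ a c
          rw [eM_apply, pM_apply]
          unfold ps at h3 ⊢
          rw [map_mul, h3]
          ring
        have l4 : ∀ c, ps (G a c * PowerSeries.C (N c b)) = pM G a c * cM N c b := fun c => by
          have h3 := Subst12.ps_C (N c b)
          rw [cM_apply, pM_apply]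
          unfold ps at h3 ⊢
          rw [map_mul, h3]
        have l5 : ps (∑ c, Q a c * G c b + P * ∑ c, G a c * PowerSeries.C (N c b)) =
            ∑ c, ps (Q a c * G c b) + ps P * ∑ c, ps (G a c * PowerSeries.C (N c b)) := by
          unfold ps
          rw [map_add, map_sum, map_mul, map_sum]
        rw [l5, Finset.sum_congr rfl fun c _ => l3 c, Finset.sum_congr rfl fun c _ => l4 c,
          hpsP, ← Finset.mul_sum]
        ring
      rw [← mul_right_inj' hxx, ← l1, ← l2]
      exact Subst12.ps_injective.eq_iff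
    have hPi0 : P⁻¹ ≠ 0 := left_ne_zero_of_mul_eq_one hPinv
    have e2 : ∀ a b, (-(P * th (G a b)) = ∑ c, Q a c * G c b +
        P * ∑ c, G a c * PowerSeries.C (N c b)) ↔
        -th (G a b) = ∑ c, (P⁻¹ • Q) a c * G c b + ∑ c, G a c * PowerSeries.C (N c b) := by
      intro a b
      rw [← mul_right_inj' hPi0]
      have l1 : P⁻¹ * -(P * th (G a b)) = -th (G a b) := by
        rw [mul_neg, ← mul_assoc, hPinv, one_mul]
      have l2 : P⁻¹ * (∑ c, Q a c * G c b + P * ∑ c, G a c * PowerSeries.C (N c b)) =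
          ∑ c, (P⁻¹ • Q) a c * G c b + ∑ c, G a c * PowerSeries.C (N c b) := by
        rw [mul_add, ← mul_assoc P⁻¹ P, hPinv, one_mul, Finset.mul_sum]
        congr 1
        refine Finset.sum_congr rfl fun c _ => ?_
        rw [Matrix.smul_apply, smul_eq_mul, mul_assoc]
      rw [l1, l2]
    have hW0 : coP 0 (P⁻¹ • Q) = -N := by
      ext1 a b
      have h3 := congrFun (congrFun hres a) b
      rw [coM_apply, Matrix.neg_apply, Matrix.smul_apply, smul_eq_mul] at h3
      rw [coP_apply, Matrix.smul_apply, smul_eq_mul, Matrix.neg_apply,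
        PowerSeries.coeff_zero_eq_constantCoeff_apply, map_mul, PowerSeries.constantCoeff_inv, hP0,
        ← PowerSeries.coeff_zero_eq_constantCoeff_apply]
      have h4 : PowerSeries.coeff 0 (Q a b) = (A a b).coeff (T.natDegree - 1) := by
        show PowerSeries.coeff 0 (rv τ (A a b)) = _
        rw [rv, PowerSeries.coeff_mk, if_pos (Nat.zero_le _), Nat.sub_zero]
        congr 1
        omega
      rw [h4, h3]
      field_simp
    have e3 : (∀ a b, -th (G a b) = ∑ c, (P⁻¹ • Q) a c * G c b +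
        ∑ c, G a c * PowerSeries.C (N c b)) ↔ ∀ (k : ℕ) a b, -((k : ℚ) * (coP k G) a b) =
          (∑ j ∈ Finset.range (k + 1), coP (k - j) (P⁻¹ • Q) * coP j G) a b +
          (coP k G * N) a b := by
      have l1 : ∀ (k : ℕ) a b, PowerSeries.coeff k (-th (G a b)) = -((k : ℚ) * (coP k G) a b) := by
        intro k a b
        rw [map_neg, th, PowerSeries.coeff_mk, coP_apply]
      have l2 : ∀ (k : ℕ) a b, PowerSeries.coeff k (∑ c, (P⁻¹ • Q) a c * G c b +
          ∑ c, G a c * PowerSeries.C (N c b)) =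
          (∑ j ∈ Finset.range (k + 1), coP (k - j) (P⁻¹ • Q) * coP j G) a b +
          (coP k G * N) a b := by
        intro k a b
        rw [map_add, map_sum, map_sum, Matrix.sum_apply, Matrix.mul_apply]
        congr 1
        · simp only [Matrix.mul_apply]
          rw [Finset.sum_comm]
          refine Finset.sum_congr rfl fun c _ => ?_
          rw [PowerSeries.coeff_mul, Finset.Nat.sum_antidiagonal_eq_sum_range_succ_mk,
            ← Finset.sum_range_reflect]
          refine Finset.sum_congr rfl fun j hj => ?_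
          have hj' := Finset.mem_range.mp hj
          simp only [Nat.succ_eq_add_one, Nat.add_sub_cancel]
          rw [coP_apply, coP_apply]
          congr 3
          omega
        · refine Finset.sum_congr rfl fun c _ => ?_
          rw [PowerSeries.coeff_mul_C, coP_apply]
      constructor
      · intro h3 k a b
        rw [← l1, ← l2, h3 a b]
      · intro h3 a b
        ext k
        rw [l1, l2, h3]
    rw [e0]
    simp only [e1, e2]
    rw [e3]
    refine forall_congr' fun k => ?_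
    rw [← Matrix.ext_iff]
    refine forall_congr' fun a => forall_congr' fun b => ?_
    rw [Finset.sum_range_succ, Nat.sub_self, hW0, Matrix.add_apply, Matrix.add_apply,
      Matrix.sub_apply, Matrix.smul_apply, smul_eq_mul, Matrix.neg_mul, Matrix.neg_apply,
      Matrix.neg_apply]
    constructor
    · intro h3
      linear_combination -h3
    · intro h3
      linear_combination -h3

end EF31

open EF31

variable {ι : Type} [Fintype ι] [DecidableEq ι]

theorem exists_fund {T : ℚ[X]} {A : Matrix ι ι ℚ[X]} {N : Matrix ι ι ℚ} (h : IsRes T A N)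
    (hN : IsNilpotent N) : ∃ Y : Matrix ι ι (PowerSeries ℚ), coP 0 Y = 1 ∧ IsFund T A Y N ∧
      ∃ H : ℕ, 2 ≤ H ∧ ∀ a b, GBound H (Y a b) := by
  rcases isEmpty_or_nonempty ι with hι | hι
  · exact ⟨0, Subsingleton.elim _ _, Subsingleton.elim _ _, 2, le_rfl, fun a => (hι.false a).elim⟩
  obtain ⟨W, ⟨c, hc⟩, hW⟩ := fund_iff h
  obtain ⟨R, c', hc', hR⟩ := ad_inv hN
  set w : ℕ → Matrix ι ι ℚ := fun k => coP k W with hw
  set y : ℕ → Matrix ι ι ℚ := Yr R w with hy
  have hy0 : y 0 = 1 := Yr_zero R w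
  have hyk : ∀ k, 1 ≤ k → y k = R k (-∑ j ∈ Finset.range k, w (k - j) * y j) :=
    fun k hk => Yr_pos R w hk
  let Y : Matrix ι ι (PowerSeries ℚ) := Matrix.of fun a b => PowerSeries.mk fun k => y k a b
  have hY : ∀ k, coP k Y = y k := by
    intro k
    ext1 a b
    rw [coP_apply]
    exact PowerSeries.coeff_mk k fun k => y k a b
  have hc0 : (0 : ℚ) ≤ c := Nat.cast_nonneg c
  set K : ℚ := c' * Fintype.card ι with hK
  have hK0 : 0 ≤ K := by positivity
  have hwb : ∀ i, SB ((c : ℚ) ^ (i + 1)) (w i) := fun i a b => hc a b i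
  have hyb : ∀ n, SB (1 * (c * (1 + K * c)) ^ n) (y n) := by
    intro n
    induction n using Nat.strong_induction_on with
    | _ n ih =>
    rcases Nat.eq_zero_or_pos n with hn | hn
    · subst hn
      intro a b
      rw [hy0, pow_zero, mul_one, Matrix.one_apply]
      split_ifs <;> simp
    · have h1 : SB (Fintype.card ι * ∑ j ∈ Finset.range n, (c : ℚ) ^ (n - j + 1) *
          (1 * (c * (1 + K * c)) ^ j)) (-∑ j ∈ Finset.range n, w (n - j) * y j) := by
        apply SB_neg
        intro a b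
        rw [Matrix.sum_apply]
        refine (Finset.abs_sum_le_sum_abs _ _).trans ?_
        rw [Finset.mul_sum]
        exact Finset.sum_le_sum fun j hj => SB_mul (pow_nonneg hc0 _) (hwb (n - j))
          (ih j (Finset.mem_range.mp hj)) a b
      intro a b
      rw [hyk n hn]
      refine ((hR n hn).2.2 _ _ h1 a b).trans ?_
      have h2 := geo (K := K) (c := c) (B := 1) hc0 zero_le_one n
      rw [hK] at h2 ⊢
      rw [← mul_assoc]
      exact h2
  refine ⟨Y, ?_, ?_, ?_⟩
  · rw [hY, hy0]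
  · rw [hW]
    intro k
    simp only [hY]
    rcases Nat.eq_zero_or_pos k with hk | hk
    · subst hk
      rw [hy0, Nat.cast_zero, zero_smul, Matrix.mul_one, Matrix.one_mul, Finset.range_zero,
        Finset.sum_empty, neg_zero, zero_sub, neg_add_cancel]
    · rw [hyk k hk]
      exact (hR k hk).1 _
  · obtain ⟨H, hH⟩ := exists_nat_ge (2 + c * (1 + K * c) : ℚ)
    have h3 : 0 ≤ c * (1 + K * c) := by positivity
    have hH2 : 2 ≤ H := by
      have : (2 : ℚ) ≤ H := by linarith
      exact_mod_cast this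
    refine ⟨H, hH2, fun a b => gbound_of_geo (B := 1) h3 (fun n => ?_) (by linarith) (by linarith)⟩
    have h4 := hyb n a b
    rwa [← hY n, coP_apply] at h4

theorem fund_zero {T : ℚ[X]} {A : Matrix ι ι ℚ[X]} {N : Matrix ι ι ℚ} (h : IsRes T A N)
    (hN : IsNilpotent N) {G : Matrix ι ι (PowerSeries ℚ)} (hG : IsFund T A G N)
    (h0 : coP 0 G = 0) : G = 0 := by
  rcases isEmpty_or_nonempty ι with hι | hι
  · exact Subsingleton.elim _ _
  obtain ⟨W, _, hW⟩ := fund_iff h
  obtain ⟨R, c', _, hR⟩ := ad_inv hN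
  rw [hW] at hG
  have hz : ∀ Z : ℕ, 1 ≤ Z → R Z 0 = 0 := fun Z hZ => by
    have := (hR Z hZ).2.1 0
    rwa [smul_zero, Matrix.mul_zero, Matrix.zero_mul, sub_zero, add_zero] at this
  have hk : ∀ k, coP k G = 0 := by
    intro k
    induction k using Nat.strong_induction_on with
    | _ k ih =>
    rcases Nat.eq_zero_or_pos k with hk | hk
    · subst hk
      exact h0
    · have h1 := hG k
      rw [Finset.sum_eq_zero fun j hj => by rw [ih j (Finset.mem_range.mp hj), Matrix.mul_zero],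
        neg_zero] at h1
      have h2 := (hR k hk).2.1 (coP k G)
      rw [h1, hz k hk] at h2
      exact h2.symm
  ext1 a b
  ext k
  have := congrFun (congrFun (hk k) a) b
  rwa [coP_apply] at this

theorem fund_comm {T : ℚ[X]} {A : Matrix ι ι ℚ[X]} {N : Matrix ι ι ℚ} (h : IsRes T A N)
    (hN : IsNilpotent N) {Y : Matrix ι ι (PowerSeries ℚ)} (hY : IsFund T A Y N)
    (h0 : coP 0 Y = 1) {M : Matrix ι ι ℚ} (hA : cX M * A = A * cX M) (hM : M * N = N * M) :
    Y * cP M = cP M * Y := by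
  have hA' : cM M * eM A = eM A * cM M := by
    rw [← eM_cX, ← eM_mul, ← eM_mul, hA]
  have hM' : cM M * cM N = cM N * cM M := by
    rw [← cM_mul, ← cM_mul, hM]
  have hp : pM (Y * cP M + -(cP M * Y)) = pM Y * cM M + -(cM M * pM Y) := by
    have hn : pM (-(cP M * Y)) = -pM (cP M * Y) := by
      ext1 a b
      exact map_neg (HahnSeries.ofPowerSeries ℤ ℚ) _
    rw [pM_add, hn, pM_mul, pM_mul, pM_cP]
  have hF : IsFund T A (Y * cP M + -(cP M * Y)) N := by
    unfold IsFund at hY ⊢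
    rw [hp, dM_add, dM_neg, dM_mul, dM_mul, dM_cM, Matrix.mul_zero, Matrix.zero_mul, add_zero,
      zero_add, smul_add, smul_neg, ← Matrix.smul_mul, ← Matrix.mul_smul, hY]
    simp only [Matrix.add_mul, Matrix.mul_add, Matrix.neg_mul, Matrix.mul_neg, Matrix.smul_mul,
      Matrix.mul_smul, Matrix.mul_assoc, smul_add, smul_neg, neg_add]
    rw [← Matrix.mul_assoc (cM M) (eM A), hA', Matrix.mul_assoc, hM']
    abel
  have h1 : coP 0 (Y * cP M + -(cP M * Y)) = 0 := by
    have h2 : ∀ (F G : Matrix ι ι (PowerSeries ℚ)), coP 0 (F * G) = coP 0 F * coP 0 G := by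
      intro F G
      ext1 a b
      rw [coP_apply, Matrix.mul_apply, Matrix.mul_apply, map_sum]
      refine Finset.sum_congr rfl fun c _ => ?_
      rw [PowerSeries.coeff_zero_eq_constantCoeff_apply, map_mul, coP_apply, coP_apply,
        PowerSeries.coeff_zero_eq_constantCoeff_apply,
        PowerSeries.coeff_zero_eq_constantCoeff_apply]
    have h3 : coP 0 (Y * cP M + -(cP M * Y)) = coP 0 (Y * cP M) - coP 0 (cP M * Y) := by
      ext1 a b
      rw [coP_apply, Matrix.add_apply, Matrix.neg_apply, map_add, map_neg, ← sub_eq_add_neg]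
      rfl
    rw [h3, h2, h2, h0, Matrix.one_mul, Matrix.mul_one, sub_self]
  have h4 := fund_zero h hN hF h1
  rwa [← sub_eq_add_neg, sub_eq_zero] at h4

end Pool.Agent.Helper79.GC
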