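import Pool.Agent.Helper79.GC.CevFn

/-!
# GC-26c: from a formal relation to an analytic one

All `a j ≤ K := max`. `bigE_bounds`: `GBound H (bigE b a α)`, `H = (K+1)^c`, and `pev (bigE b a α) s = ∏ pev (b.fn ..) s` for large
`s`. The formal relation and `form_cev` (at `u = s`, `cev_pev`) give `∑ P_α(s) pev(bigE α)(s) = 0`; insert `cev_fn`.
-/

open Polynomial Filter Topology

namespace Pool.Agent.Helper79.GC

open Pool.Agent.Helper37.GP

/-- A formal relation between the products of block functions gives an analytic one. -/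
theorem rel_real {R d : ℕ} (b : BlockData R) (a : Fin d → ℕ) (P : (Fin d → Fin R) → ℚ[X])
    (h : ∑ α, emb (P α) * ps (bigE b a α) = 0) : ∃ s₁ : ℝ, ∀ s : ℝ, s₁ < s →
      ∑ α, aeval (s : ℂ) (P α) * ∏ j, (cevM b.Φ ((1 / (s + a j) : ℝ) : ℂ) *
        cexpM (-((Real.log ((s + a j) / s) : ℝ) : ℂ)) b.νl) (α j) b.i₀ = 0 := by
  obtain ⟨c, hc⟩ := bigE_bounds b d
  obtain ⟨c', -, hc'⟩ := cev_fn b
  set K : ℕ := 1 + ∑ j, a j with hK
  have hK1 : 1 ≤ K := by omega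
  have haK : ∀ j, a j ≤ K := fun j => by
    have := Finset.single_le_sum (f := a) (fun _ _ => Nat.zero_le _) (Finset.mem_univ j)
    omega
  obtain ⟨hG, -, hP⟩ := hc K a hK1 haK
  set H : ℕ := (K + 1) ^ c with hH
  have hH1 : 1 ≤ H := Nat.one_le_pow _ _ (by omega)
  have hH0 : (0 : ℝ) < H := by exact_mod_cast hH1
  have hform := (form_cev hH1 (bigE b a) hG P).1 h
  refine ⟨(H : ℝ) + (c' : ℝ) * ((K : ℝ) + 1) ^ 2, fun s hs => ?_⟩
  have hc0 : (0 : ℝ) ≤ (c' : ℝ) * ((K : ℝ) + 1) ^ 2 := by positivity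
  have hsH : (H : ℝ) < s := by linarith
  have hs0 : 0 < s := hH0.trans hsH
  have h1 := hform (s : ℂ) (by
    rw [Complex.norm_real, Real.norm_of_nonneg hs0.le]
    exact hsH)
  rw [← h1]
  refine Finset.sum_congr rfl fun α _ => ?_
  congr 1
  have e1 : ((s : ℂ))⁻¹ = ((1 / s : ℝ) : ℂ) := by push_cast; rw [one_div]
  rw [e1, cev_pev, hP s (by rw [hH] at hsH; push_cast at hsH; exact hsH) α]
  rw [Complex.ofReal_prod]
  refine Finset.prod_congr rfl fun j _ => ?_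
  rw [hc' (a j) s ?_ (α j)]
  refine lt_of_le_of_lt ?_ hs
  have h2 : ((a j : ℝ) + 1) ^ 2 ≤ ((K : ℝ) + 1) ^ 2 := by
    have : (a j : ℝ) ≤ K := by exact_mod_cast haK j
    gcongr
  have h3 : (c' : ℝ) * ((a j : ℝ) + 1) ^ 2 ≤ (c' : ℝ) * ((K : ℝ) + 1) ^ 2 :=
    mul_le_mul_of_nonneg_left h2 (by positivity)
  linarith

end Pool.Agent.Helper79.GC
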