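import Pool.Agent.Helper79.GC.Binm

/-!
# GC-08: the fundamental matrix of the shifted system

`F = Φ(1/s) s^(-ν)`; then `F(s+a) = Φ(1/(s+a)) (s/(s+a))^ν s^(-ν)`.

`fund_shift`: Let `σ f = f.subst (gx 1 a)`, `gx 1 a = x/(1 + a x) = 1/(s+a)`. Chain rule:
`dd (ps (σ f)) = ps (σ ·)` of `dd f`, i.e. if `dd (ps f) = ps h` (`h = -x² f'`) then `dd (ps (σ f)) = ps (σ h)`
(`d/ds` commutes with the shift; Mathlib `PowerSeries.derivative_subst`, and `σ(x)² = -dd (σ x)`; see
`Pool.Agent.Helper39.GP.Subst`, proof of `isSol_subst`). For a polynomial `p(s)` of degree `≤ n`,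
`x^n p(1/x)` is a polynomial in `x`, and `σ` maps it to `(1/(s+a))^n p(s+a)`. So multiply the equation
`T Y' = A Y + (T/s) Y ν` by a power of `x`, apply `σ`, multiply back (as in `isSol_subst`): with
`Yσ = Y.map σ`: `T(s+a) Yσ' = A(s+a) Yσ + (T(s+a)/(s+a)) Yσ ν`. Then with `P = pw a ν`, `P' = (1/s - 1/(s+a)) ν P`
(`pw_ode`), `ν P = P ν`: `(Yσ P)' = (A/T)(s+a) Yσ P + (1/(s+a)) Yσ ν P + (1/s - 1/(s+a)) Yσ ν P
= (A/T)(s+a) (Yσ P) + (1/s) (Yσ P) ν`.
-/

open Polynomial

namespace Pool.Agent.Helper79.GC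

open Pool.Agent.Helper37.GP

variable {ι : Type} [Fintype ι] [DecidableEq ι]

/-- the system for the entries of the fundamental matrix, multiplied by `S` -/
private noncomputable def fsB (S T : ℚ[X]) (A : Matrix ι ι ℚ[X]) (ν : Matrix ι ι ℚ) :
    Matrix (ι × ι) (ι × ι) ℚ[X] :=
  Matrix.of fun p q => (if p.2 = q.2 then S * A p.1 q.1 else 0) +
    (if p.1 = q.1 then T * C (ν q.2 p.2) else 0)

private theorem fs_isSol_iff (S T : ℚ[X]) (A : Matrix ι ι ℚ[X]) (ν : Matrix ι ι ℚ)
    (Y : Matrix ι ι (PowerSeries ℚ)) :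
    IsSol (S * T) (fsB S T A ν) (fun p => ps (Y p.1 p.2)) ↔
      (emb S * emb T) • dM (pM Y) = emb S • (eM A * pM Y) + emb T • (pM Y * cM ν) := by
  have key : ∀ a b : ι, ∑ q : ι × ι, emb (fsB S T A ν (a, b) q) * ps (Y q.1 q.2) =
      emb S * ∑ c, emb (A a c) * ps (Y c b) +
        emb T * ∑ d, ps (Y a d) * algebraMap ℚ (LaurentSeries ℚ) (ν d b) := by
    intro a b
    have h1 : ∀ q : ι × ι, emb (fsB S T A ν (a, b) q) * ps (Y q.1 q.2) =
        (if b = q.2 then emb S * (emb (A a q.1) * ps (Y q.1 q.2)) else 0) +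
        (if a = q.1 then emb T * (ps (Y q.1 q.2) * algebraMap ℚ (LaurentSeries ℚ) (ν q.2 b))
          else 0) := by
      intro q
      simp only [fsB, Matrix.of_apply]
      rw [map_add, add_mul]
      congr 1
      · split_ifs
        · rw [map_mul]
          ring
        · rw [map_zero, zero_mul]
      · split_ifs
        · rw [map_mul, emb_C]
          ring
        · rw [map_zero, zero_mul]
    rw [Finset.sum_congr rfl fun q _ => h1 q, Finset.sum_add_distrib, Fintype.sum_prod_type,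
      Fintype.sum_prod_type]
    congr 1
    · rw [Finset.mul_sum]
      refine Finset.sum_congr rfl fun c _ => ?_
      simp only
      rw [Finset.sum_ite_eq Finset.univ b, if_pos (Finset.mem_univ b)]
    · rw [Finset.sum_comm, Finset.mul_sum]
      refine Finset.sum_congr rfl fun d _ => ?_
      simp only
      rw [Finset.sum_ite_eq Finset.univ a, if_pos (Finset.mem_univ a)]
  constructor
  · intro h
    ext1 a b
    have h2 := h (a, b)
    rw [key a b, map_mul] at h2
    rw [Matrix.smul_apply, Matrix.add_apply, Matrix.smul_apply, Matrix.smul_apply,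
      Matrix.mul_apply, Matrix.mul_apply]
    exact h2
  · rintro h ⟨a, b⟩
    rw [key a b, map_mul]
    have h2 := congrFun (congrFun h a) b
    rw [Matrix.smul_apply, Matrix.add_apply, Matrix.smul_apply, Matrix.smul_apply,
      Matrix.mul_apply, Matrix.mul_apply] at h2
    exact h2

private theorem fs_ratsmul (c : ℚ) (M : Matrix ι ι (LaurentSeries ℚ)) :
    c • M = emb (C c) • M := by
  ext1 a b
  rw [Matrix.smul_apply, Matrix.smul_apply, emb_C, smul_eq_mul]
  ext n
  rw [algebraMap_eq_single, HahnSeries.coeff_single_zero_mul, HahnSeries.coeff_smul, smul_eq_mul]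

private theorem fs_shift {T : ℚ[X]} {A : Matrix ι ι ℚ[X]} {Y : Matrix ι ι (PowerSeries ℚ)}
    {ν : Matrix ι ι ℚ} (h : IsFund T A Y ν) (a : ℕ) :
    (emb (X + C (a : ℚ)) * emb (T.comp (X + C (a : ℚ)))) •
        dM (pM (Y.map fun f => f.subst (gx 1 a))) =
      emb (X + C (a : ℚ)) • (eM (shM a A) * pM (Y.map fun f => f.subst (gx 1 a))) +
      emb (T.comp (X + C (a : ℚ))) • (pM (Y.map fun f => f.subst (gx 1 a)) * cM ν) := by
  have h1 : (emb X * emb T) • dM (pM Y) = emb X • (eM A * pM Y) + emb T • (pM Y * cM ν) := by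
    have h2 := congrArg (fun M => emb X • M) h
    simp only [smul_add, smul_smul] at h2
    rw [h2]
    congr 2
    rw [mul_comm (emb T) xx, ← mul_assoc, emb_X_mul_xx, one_mul]
  have h2 := isSol_subst ((fs_isSol_iff X T A ν Y).2 h1) le_rfl a
  have e1 : (C (a : ℚ) + C ((1 : ℕ) : ℚ) * X : ℚ[X]) = X + C (a : ℚ) := by
    rw [Nat.cast_one, C_1, one_mul, add_comm]
  rw [e1] at h2
  have e2 : (X * T : ℚ[X]).comp (X + C (a : ℚ)) = (X + C (a : ℚ)) * T.comp (X + C (a : ℚ)) := by
    rw [mul_comp, X_comp]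
  have e3 : ((C ((1 : ℕ) : ℚ) : ℚ[X]) • (fsB X T A ν).map
      (fun p => p.comp (X + C (a : ℚ)))) =
      fsB (X + C (a : ℚ)) (T.comp (X + C (a : ℚ))) (shM a A) ν := by
    rw [Nat.cast_one, C_1, one_smul]
    ext1 p q
    simp only [fsB, Matrix.map_apply, Matrix.of_apply, shM]
    rw [add_comp]
    congr 1
    · split_ifs
      · rw [mul_comp, X_comp]
      · rw [zero_comp]
    · split_ifs
      · rw [mul_comp, C_comp]
      · rw [zero_comp]
  rw [e2, e3] at h2
  exact (fs_isSol_iff _ _ _ _ (Y.map fun f => f.subst (gx 1 a))).1 h2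

theorem fund_shift {T : ℚ[X]} {A : Matrix ι ι ℚ[X]} {Y : Matrix ι ι (PowerSeries ℚ)}
    {ν : Matrix ι ι ℚ} (hT : T ≠ 0) (h : IsFund T A Y ν) (a : ℕ) :
    IsFund (T.comp (X + C (a : ℚ))) (shM a A) ((Y.map fun f => f.subst (gx 1 a)) * pw a ν) ν := by
  have h1 := fs_shift h a
  have h2 := pw_ode a ν
  have h3 : pM (pw a ν) * cM ν = cM ν * pM (pw a ν) := by
    rw [← pM_cP, ← pM_mul, ← pM_mul, pw_comm a rfl]
  rw [fs_ratsmul] at h2
  unfold IsFund
  rw [pM_mul, dM_mul]
  set U := pM (Y.map fun f => f.subst (gx 1 a)) with hU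
  set V := pM (pw a ν) with hV
  set t := emb (T.comp (X + C (a : ℚ))) with ht
  have hy : emb (X + C (a : ℚ)) = emb X + emb (C (a : ℚ)) := map_add _ _ _
  have hne : emb (X + C (a : ℚ)) * emb X ≠ 0 := by
    apply mul_ne_zero
    · intro h0
      have h4 : (X + C (a : ℚ) : ℚ[X]) = 0 := emb_injective (by rw [h0, map_zero])
      exact X_add_C_ne_zero _ h4
    · exact left_ne_zero_of_mul_eq_one emb_X_mul_xx
  have key : (emb (X + C (a : ℚ)) * emb X) • (t • (dM U * V + U * dM V)) =
      (emb (X + C (a : ℚ)) * emb X) •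
        (eM (shM a A) * (U * V) + (t * xx) • (U * V * cM ν)) := by
    calc (emb (X + C (a : ℚ)) * emb X) • (t • (dM U * V + U * dM V))
        = emb X • (((emb (X + C (a : ℚ)) * t) • dM U) * V) +
            t • (U * ((emb (X + C (a : ℚ)) * emb X) • dM V)) := by
          rw [Matrix.smul_mul, Matrix.mul_smul]
          ext1 i j
          simp only [Matrix.smul_apply, Matrix.add_apply, smul_eq_mul]
          ring
      _ = emb X • ((emb (X + C (a : ℚ)) • (eM (shM a A) * U) + t • (U * cM ν)) * V) +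
            t • (U * (emb (C (a : ℚ)) • (cM ν * V))) := by rw [h1, h2]
      _ = (emb (X + C (a : ℚ)) * emb X) • (eM (shM a A) * (U * V)) +
            ((emb X + emb (C (a : ℚ))) * t) • (U * (cM ν * V)) := by
          rw [Matrix.add_mul, Matrix.smul_mul, Matrix.smul_mul, Matrix.mul_smul, Matrix.mul_assoc,
            Matrix.mul_assoc]
          ext1 i j
          simp only [Matrix.smul_apply, Matrix.add_apply, smul_eq_mul]
          ring
      _ = (emb (X + C (a : ℚ)) * emb X) • (eM (shM a A) * (U * V)) +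
            (emb (X + C (a : ℚ)) * t * (emb X * xx)) • (U * V * cM ν) := by
          rw [← hy, ← h3, Matrix.mul_assoc, emb_X_mul_xx, mul_one]
      _ = _ := by
          ext1 i j
          simp only [Matrix.smul_apply, Matrix.add_apply, smul_eq_mul]
          ring
  exact smul_right_injective _ hne key

/-- The constant term. -/
theorem coP_zero_shift {Y : Matrix ι ι (PowerSeries ℚ)} {ν : Matrix ι ι ℚ} (h : coP 0 Y = 1)
    (a : ℕ) : coP 0 ((Y.map fun f => f.subst (gx 1 a)) * pw a ν) = 1 := by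
  have h0 : ∀ F G : Matrix ι ι (PowerSeries ℚ), coP 0 (F * G) = coP 0 F * coP 0 G := by
    intro F G
    ext1 i j
    rw [coP_apply, Matrix.mul_apply, Matrix.mul_apply, map_sum]
    refine Finset.sum_congr rfl fun c _ => ?_
    rw [coP_apply, coP_apply, PowerSeries.coeff_zero_eq_constantCoeff, map_mul]
  have h1 : coP 0 (Y.map fun f => f.subst (gx 1 a)) = coP 0 Y := by
    ext1 i j
    rw [coP_apply, Matrix.map_apply, Subst12.coeff_subst_gx le_rfl, Finset.sum_range_one,
      Subst12.cc_zero, if_pos rfl, mul_one]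
    rfl
  rw [h0, h1, h, coP_pw_zero, mul_one]

theorem subst_comm {Y : Matrix ι ι (PowerSeries ℚ)} {M : Matrix ι ι ℚ}
    (h : Y * cP M = cP M * Y) (a : ℕ) :
    (Y.map fun f => f.subst (gx 1 a)) * cP M = cP M * (Y.map fun f => f.subst (gx 1 a)) := by
  have hgs : PowerSeries.HasSubst (gx 1 a) := Subst12.hasSubst_gx 1 a
  set σ : PowerSeries ℚ →+* PowerSeries ℚ :=
    (PowerSeries.substAlgHom hgs : PowerSeries ℚ →ₐ[ℚ] PowerSeries ℚ).toRingHom with hσ
  have h1 : (Y.map fun f => f.subst (gx 1 a)) = Y.map σ := by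
    ext1 i j
    rw [Matrix.map_apply, Matrix.map_apply]
    exact (congrFun (PowerSeries.coe_substAlgHom hgs) (Y i j)).symm
  have h2 : (cP M).map σ = cP M := by
    ext1 i j
    rw [Matrix.map_apply, cP_apply]
    exact (PowerSeries.substAlgHom hgs : PowerSeries ℚ →ₐ[ℚ] PowerSeries ℚ).commutes (M i j)
  have h3 := congrArg (fun Z : Matrix ι ι (PowerSeries ℚ) => Z.map σ) h
  simp only [Matrix.map_mul] at h3
  rw [h2] at h3
  rw [h1]
  exact h3

end Pool.Agent.Helper79.GC
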