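import Pool.Agent.Helper79.GC.Pint

/-!
# GC-04: Galochkin's condition for sums of commuting systems, shifts, scalings

* `gal_add`: if all coefficient matrices of `B₁` and `B₂` commute then `beta T (B₁ + B₂) J =
  ∑_{i+k=J} beta T B₁ i * beta T B₂ k` (either by `Git_add` when `T ≠ 0`, or directly by induction; the
  coefficient matrices of `beta T B₂ k` are noncommutative polynomials in those of `B₂`, so they commute with
  those of `B₁`; so `eM B₁` commutes with `Git g₂ k`). For `T = 0` `beta` satisfies the same recursion.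
  You may assume `T ≠ 0` (hypothesis). Denominator `q₁ q₂`.
* `gal_mul`: `g = B₁/T₁ + B₂/T₂`, so `(T₁T₂)^J G_J = ∑ T₂^i T₁^k β¹_i β²_k` (`i + k = J`), `T₁, T₂` integral.
* `gal_shift`: `beta (T.comp (X+a)) (shM a B) j = shM a (beta T B j)` and composition with `X + a`
  preserves `IntBy q` (the coefficients of `p.comp (X + C a)` are integral combinations).
* `gal_scale`: `beta (c T) (c B) j = c^j beta T B j` for a positive integer `c`: same `q` works.
* `gal_smul_poly`: multiply `T` and `B` by `X`: `beta (X T) (X B) j = X^j beta T B j`. (More generally by an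
  integral polynomial `P`.)
-/

open Polynomial

namespace Pool.Agent.Helper79.GC

open Pool.Agent.Helper37.GP

set_option linter.unusedSectionVars false
set_option linter.unusedVariables false

variable {ι : Type} [Fintype ι] [DecidableEq ι]


/-! ### auxiliary lemmas -/

private theorem ga_succ (T : ℚ[X]) (B : Matrix ι ι ℚ[X]) (j : ℕ) :
    ((j : ℚ[X]) + 1) • beta T B (j + 1) = T • (beta T B j).map derivative
      - ((j : ℚ[X]) * derivative T) • beta T B j + beta T B j * B := by
  have h : ((j : ℚ[X]) + 1) * C (((j : ℚ) + 1)⁻¹) = 1 := by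
    have h1 : ((j : ℚ[X]) + 1) = C ((j : ℚ) + 1) := by simp
    rw [h1, ← C_mul, mul_inv_cancel₀ (by positivity), C_1]
  change ((j : ℚ[X]) + 1) • ((C (((j : ℚ) + 1)⁻¹) : ℚ[X]) • (T • (beta T B j).map derivative
      - ((j : ℚ[X]) * derivative T) • beta T B j + beta T B j * B)) = _
  rw [smul_smul, h, one_smul]

private theorem ga_cancel {j : ℕ} {P Q : Matrix ι ι ℚ[X]}
    (h : ((j : ℚ[X]) + 1) • P = ((j : ℚ[X]) + 1) • Q) : P = Q := by
  have h1 : ((j : ℚ[X]) + 1) ≠ 0 := by
    have : ((j : ℚ[X]) + 1) = C ((j : ℚ) + 1) := by simp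
    rw [this, Ne, C_eq_zero]
    positivity
  ext1 a b
  have := congrFun (congrFun h a) b
  simp only [Matrix.smul_apply, smul_eq_mul] at this
  exact mul_left_cancel₀ h1 this

private theorem ga_der_mul (P Q : Matrix ι ι ℚ[X]) :
    (P * Q).map derivative = P.map derivative * Q + P * Q.map derivative := by
  ext1 a b
  simp only [Matrix.map_apply, Matrix.mul_apply, Matrix.add_apply, map_sum, derivative_mul,
    Finset.sum_add_distrib]

private theorem ga_der_smul (p : ℚ[X]) (P : Matrix ι ι ℚ[X]) :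
    (p • P).map derivative = derivative p • P + p • P.map derivative := by
  ext1 a b
  simp only [Matrix.map_apply, Matrix.smul_apply, Matrix.add_apply, smul_eq_mul, derivative_mul]

private theorem ga_der_sum {α : Type} (s : Finset α) (P : α → Matrix ι ι ℚ[X]) :
    (∑ i ∈ s, P i).map derivative = ∑ i ∈ s, (P i).map derivative := by
  ext1 a b
  simp only [Matrix.map_apply, Matrix.sum_apply, map_sum]

private theorem ga_intBy_iff {q : ℕ} {p : ℚ[X]} :
    IntBy q p ↔ ∃ z : ℤ[X], C (q : ℚ) * p = z.map (Int.castRingHom ℚ) := by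
  constructor
  · intro h
    choose z hz using h
    refine ⟨∑ n ∈ Finset.range (p.natDegree + 1), monomial n (z n), ?_⟩
    ext n
    rw [coeff_C_mul, coeff_map, finsetSum_coeff]
    simp only [coeff_monomial]
    by_cases hn : n ∈ Finset.range (p.natDegree + 1)
    · rw [Finset.sum_ite_eq' , if_pos hn, hz]
      rfl
    · rw [Finset.sum_ite_eq', if_neg hn, coeff_eq_zero_of_natDegree_lt (by simpa using hn)]
      simp
  · rintro ⟨z, hz⟩ n
    refine ⟨z.coeff n, ?_⟩
    have := congrArg (fun r => coeff r n) hz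
    simpa [coeff_C_mul] using this

private theorem ga_intBy_mul {q q' : ℕ} {p p' : ℚ[X]} (h : IntBy q p) (h' : IntBy q' p') :
    IntBy (q * q') (p * p') := by
  rw [ga_intBy_iff] at h h' ⊢
  obtain ⟨z, hz⟩ := h
  obtain ⟨z', hz'⟩ := h'
  refine ⟨z * z', ?_⟩
  rw [Polynomial.map_mul, ← hz, ← hz']
  push_cast
  rw [C_mul]
  ring

private theorem ga_intBy_sum {α : Type} (s : Finset α) {q : ℕ} {p : α → ℚ[X]}
    (h : ∀ i ∈ s, IntBy q (p i)) : IntBy q (∑ i ∈ s, p i) := by
  intro n
  choose! z hz using fun i (hi : i ∈ s) => h i hi n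
  refine ⟨∑ i ∈ s, z i, ?_⟩
  rw [finsetSum_coeff, Finset.mul_sum]
  push_cast
  exact Finset.sum_congr rfl fun i hi => hz i hi

/-! ### commuting coefficient matrices -/

private theorem ga_comm_iff (N : Matrix ι ι ℚ) (P : Matrix ι ι ℚ[X]) :
    Commute (cX N) P ↔ ∀ n, N * coM n P = coM n P * N := by
  constructor
  · intro h n
    ext1 a b
    have := congrArg (fun p : ℚ[X] => p.coeff n) (congrFun (congrFun h.eq a) b)
    simp only [Matrix.mul_apply, finsetSum_coeff, cX_apply, coeff_C_mul, coeff_mul_C] at this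
    simpa only [Matrix.mul_apply, coM_apply] using this
  · intro h
    change cX N * P = P * cX N
    ext a b n
    have := congrFun (congrFun (h n) a) b
    simp only [Matrix.mul_apply, coM_apply] at this
    simpa only [Matrix.mul_apply, finsetSum_coeff, cX_apply, coeff_C_mul, coeff_mul_C] using this

private theorem ga_comm_beta {N : Matrix ι ι ℚ} {T : ℚ[X]} {B : Matrix ι ι ℚ[X]}
    (h : Commute (cX N) B) (j : ℕ) : Commute (cX N) (beta T B j) := by
  induction j with
  | zero => exact Commute.one_right _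
  | succ j ih =>
    have hd : Commute (cX N) ((beta T B j).map derivative) := by
      have h1 := congrArg (fun M : Matrix ι ι ℚ[X] => M.map derivative) ih.eq
      simp only [ga_der_mul] at h1
      have h2 : (cX N).map derivative = 0 := by
        ext1 a b
        simp [cX_apply]
      rw [h2, zero_mul, mul_zero, zero_add, add_zero] at h1
      exact h1
    change Commute (cX N) ((C (((j : ℚ) + 1)⁻¹) : ℚ[X]) • (T • (beta T B j).map derivative
      - ((j : ℚ[X]) * derivative T) • beta T B j + beta T B j * B))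
    exact Commute.smul_right (((hd.smul_right _).sub_right (ih.smul_right _)).add_right
      (ih.mul_right h)) _

private theorem ga_comm {B P : Matrix ι ι ℚ[X]} (h : ∀ m n, coM m B * coM n P = coM n P * coM m B) :
    B * P = P * B := by
  ext a b n
  simp only [Matrix.mul_apply, finsetSum_coeff, coeff_mul]
  rw [Finset.sum_comm, Finset.sum_comm (s := Finset.univ)
    (t := Finset.HasAntidiagonal.antidiagonal n)
    (f := fun x x_1 => (P a x).coeff x_1.1 * (B x b).coeff x_1.2)]
  rw [← Finset.Nat.sum_antidiagonal_swap]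
  refine Finset.sum_congr rfl fun x _ => ?_
  have := congrFun (congrFun (h x.2 x.1) a) b
  simpa only [Matrix.mul_apply, coM_apply, Prod.fst_swap, Prod.snd_swap] using this

/-! ### the theorems -/

theorem gal_mono {T : ℚ[X]} {B : Matrix ι ι ℚ[X]} {H H' : ℕ} (h : H ≤ H')
    (hG : Galochkin T B H) : Galochkin T B H' := by
  intro j
  obtain ⟨q, h0, h1, h2⟩ := hG j
  exact ⟨q, h0, h1.trans (Nat.pow_le_pow_left h _), h2⟩

/-- the iterates of a sum of commuting systems -/
theorem ga_beta_add {T : ℚ[X]} {B₁ B₂ : Matrix ι ι ℚ[X]}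
    (hc : ∀ k, B₁ * beta T B₂ k = beta T B₂ k * B₁) (J : ℕ) :
    beta T (B₁ + B₂) J = ∑ x ∈ Finset.HasAntidiagonal.antidiagonal J, beta T B₁ x.1 * beta T B₂ x.2 := by
  induction J with
  | zero =>
    simp [beta]
  | succ J ih =>
    apply ga_cancel (j := J)
    rw [ga_succ, ih]
    have e1 : T • (∑ x ∈ Finset.HasAntidiagonal.antidiagonal J, beta T B₁ x.1 * beta T B₂ x.2).map derivative -
        ((J : ℚ[X]) * derivative T) •
          (∑ x ∈ Finset.HasAntidiagonal.antidiagonal J, beta T B₁ x.1 * beta T B₂ x.2) +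
        (∑ x ∈ Finset.HasAntidiagonal.antidiagonal J, beta T B₁ x.1 * beta T B₂ x.2) * (B₁ + B₂) =
        ∑ x ∈ Finset.HasAntidiagonal.antidiagonal J,
          ((((x.1 : ℚ[X]) + 1) • beta T B₁ (x.1 + 1)) * beta T B₂ x.2 +
            beta T B₁ x.1 * (((x.2 : ℚ[X]) + 1) • beta T B₂ (x.2 + 1))) := by
      rw [ga_der_sum, Finset.smul_sum, Finset.smul_sum, Finset.sum_mul, ← Finset.sum_sub_distrib,
        ← Finset.sum_add_distrib]
      refine Finset.sum_congr rfl fun x hx => ?_
      have hx' : (J : ℚ[X]) = (x.1 : ℚ[X]) + (x.2 : ℚ[X]) := by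
        rw [← Finset.HasAntidiagonal.mem_antidiagonal.1 hx]
        push_cast
        rfl
      rw [ga_succ, ga_succ, ga_der_mul, hx']
      simp only [add_mul, mul_add, sub_mul, mul_sub, smul_add, add_smul, Matrix.smul_mul,
        Matrix.mul_smul]
      have h2 : beta T B₁ x.1 * beta T B₂ x.2 * B₁ = beta T B₁ x.1 * B₁ * beta T B₂ x.2 := by
        rw [mul_assoc, ← hc, mul_assoc]
      rw [h2, ← mul_assoc (beta T B₁ x.1) (beta T B₂ x.2) B₂]
      abel
    rw [e1, Finset.sum_add_distrib]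
    have e2 : ∑ x ∈ Finset.HasAntidiagonal.antidiagonal J,
        (((x.1 : ℚ[X]) + 1) • beta T B₁ (x.1 + 1)) * beta T B₂ x.2 =
        ∑ x ∈ Finset.HasAntidiagonal.antidiagonal (J + 1), (x.1 : ℚ[X]) • (beta T B₁ x.1 * beta T B₂ x.2) := by
      rw [Finset.Nat.sum_antidiagonal_succ]
      simp only [Nat.cast_zero, zero_smul, zero_add, Nat.cast_add, Nat.cast_one, Matrix.smul_mul]
    have e3 : ∑ x ∈ Finset.HasAntidiagonal.antidiagonal J,
        beta T B₁ x.1 * (((x.2 : ℚ[X]) + 1) • beta T B₂ (x.2 + 1)) =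
        ∑ x ∈ Finset.HasAntidiagonal.antidiagonal (J + 1), (x.2 : ℚ[X]) • (beta T B₁ x.1 * beta T B₂ x.2) := by
      rw [Finset.Nat.sum_antidiagonal_succ']
      simp only [Nat.cast_zero, zero_smul, zero_add, Nat.cast_add, Nat.cast_one, Matrix.mul_smul]
    rw [e2, e3, ← Finset.sum_add_distrib, Finset.smul_sum]
    refine Finset.sum_congr rfl fun x hx => ?_
    rw [← add_smul]
    congr 1
    have := Finset.HasAntidiagonal.mem_antidiagonal.1 hx
    have h3 : ((x.1 + x.2 : ℕ) : ℚ[X]) = ((J + 1 : ℕ) : ℚ[X]) := by rw [this]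
    push_cast at h3
    exact h3

theorem gal_add {T : ℚ[X]} (hT : T ≠ 0) {B₁ B₂ : Matrix ι ι ℚ[X]} {H₁ H₂ : ℕ}
    (hc : ∀ m n, coM m B₁ * coM n B₂ = coM n B₂ * coM m B₁)
    (h₁ : Galochkin T B₁ H₁) (h₂ : Galochkin T B₂ H₂) : Galochkin T (B₁ + B₂) (H₁ * H₂) := by
  have hc' : ∀ k, B₁ * beta T B₂ k = beta T B₂ k * B₁ := by
    intro k
    refine ga_comm fun m n => ?_
    exact (ga_comm_iff _ _).1 (ga_comm_beta ((ga_comm_iff _ _).2 (hc m)) k) n
  intro j
  obtain ⟨q₁, h10, h11, h12⟩ := h₁ j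
  obtain ⟨q₂, h20, h21, h22⟩ := h₂ j
  refine ⟨q₁ * q₂, Nat.mul_pos h10 h20, ?_, ?_⟩
  · rw [mul_pow]
    exact Nat.mul_le_mul h11 h21
  · intro i hi a b
    rw [ga_beta_add hc', Matrix.sum_apply]
    refine ga_intBy_sum _ fun x hx => ?_
    rw [Matrix.mul_apply]
    refine ga_intBy_sum _ fun c _ => ?_
    have := Finset.HasAntidiagonal.mem_antidiagonal.1 hx
    exact ga_intBy_mul (h12 _ (by omega) _ _) (h22 _ (by omega) _ _)

theorem gal_zero (T : ℤ[X]) : Galochkin (T.map (Int.castRingHom ℚ)) (0 : Matrix ι ι ℚ[X]) 1 := by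
  have h : ∀ j, beta (T.map (Int.castRingHom ℚ)) (0 : Matrix ι ι ℚ[X]) (j + 1) = 0 := by
    intro j
    induction j with
    | zero =>
      apply ga_cancel (j := 0)
      rw [ga_succ]
      have : (beta (T.map (Int.castRingHom ℚ)) (0 : Matrix ι ι ℚ[X]) 0).map derivative = 0 := by
        ext1 a b
        by_cases hab : a = b
        · subst hab
          simp [beta]
        · simp [beta, hab]
      rw [this]
      simp
    | succ j ih =>
      apply ga_cancel (j := j + 1)
      rw [ga_succ, ih]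
      have : (0 : Matrix ι ι ℚ[X]).map derivative = 0 := by
        ext1 a b
        simp
      rw [this]
      simp
  intro j
  refine ⟨1, one_pos, by simp, ?_⟩
  intro i _ a b n
  rcases i with _ | i
  · change ∃ z : ℤ, ((1 : ℕ) : ℚ) * ((1 : Matrix ι ι ℚ[X]) a b).coeff n = z
    by_cases hab : a = b
    · subst hab
      by_cases hn : n = 0
      · subst hn
        exact ⟨1, by simp⟩
      · refine ⟨0, ?_⟩
        simp [coeff_one, hn]
    · exact ⟨0, by simp [hab]⟩
  · rw [h]
    exact ⟨0, by simp⟩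

/-- multiplying the equation by a polynomial -/
theorem ga_beta_smul (P T : ℚ[X]) (B : Matrix ι ι ℚ[X]) (j : ℕ) :
    beta (P * T) (P • B) j = P ^ j • beta T B j := by
  induction j with
  | zero => simp [beta]
  | succ j ih =>
    apply ga_cancel (j := j)
    rw [ga_succ, ih, ga_der_smul, smul_comm ((j : ℚ[X]) + 1), ga_succ, derivative_mul,
      derivative_pow]
    have hj : (j : ℚ[X]) * (P * P ^ (j - 1)) = (j : ℚ[X]) * P ^ j := by
      rcases j with _ | j
      · simp
      · rw [Nat.add_sub_cancel, ← pow_succ']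
    simp only [smul_add, smul_sub, smul_smul, Matrix.smul_mul, Matrix.mul_smul]
    have e1 : P * T * (C (j : ℚ) * P ^ (j - 1) * derivative P) =
        (j : ℚ[X]) * P ^ j * (derivative P * T) := by
      rw [← hj]
      simp only [map_natCast]
      ring
    have e2 : (j : ℚ[X]) * (derivative P * T + P * derivative T) * P ^ j =
        (j : ℚ[X]) * P ^ j * (derivative P * T) + P ^ (j + 1) * ((j : ℚ[X]) * derivative T) := by
      ring
    rw [e1, e2, add_smul, show P * T * P ^ j = P ^ (j + 1) * T by ring,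
      show P * P ^ j = P ^ (j + 1) by ring]
    abel

theorem gal_smul {T : ℚ[X]} {B : Matrix ι ι ℚ[X]} {H : ℕ} (h : Galochkin T B H) (P : ℤ[X])
    (hP : P ≠ 0) (hT : T ≠ 0) :
    Galochkin (P.map (Int.castRingHom ℚ) * T) (P.map (Int.castRingHom ℚ) • B) H := by
  intro j
  obtain ⟨q, h0, h1, h2⟩ := h j
  refine ⟨q, h0, h1, ?_⟩
  intro i hi a b
  rw [ga_beta_smul, Matrix.smul_apply, smul_eq_mul, ← one_mul q]
  refine ga_intBy_mul ?_ (h2 i hi a b)
  rw [ga_intBy_iff]
  exact ⟨P ^ i, by simp⟩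

theorem gal_mul {T₁ T₂ : ℤ[X]} (hT₁ : T₁ ≠ 0) (hT₂ : T₂ ≠ 0) {B₁ B₂ : Matrix ι ι ℚ[X]} {H₁ H₂ : ℕ}
    (hc : ∀ m n, coM m B₁ * coM n B₂ = coM n B₂ * coM m B₁)
    (h₁ : Galochkin (T₁.map (Int.castRingHom ℚ)) B₁ H₁)
    (h₂ : Galochkin (T₂.map (Int.castRingHom ℚ)) B₂ H₂) :
    Galochkin ((T₁ * T₂).map (Int.castRingHom ℚ))
      ((T₂.map (Int.castRingHom ℚ)) • B₁ + (T₁.map (Int.castRingHom ℚ)) • B₂) (H₁ * H₂) := by
  have hinj : Function.Injective (Int.castRingHom ℚ) := Int.cast_injective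
  have hm : ∀ {T : ℤ[X]}, T ≠ 0 → T.map (Int.castRingHom ℚ) ≠ 0 := by
    intro T hT h
    exact hT ((Polynomial.map_eq_zero_iff hinj).1 h)
  have g1 := gal_smul h₁ T₂ hT₂ (hm hT₁)
  have g2 := gal_smul h₂ T₁ hT₁ (hm hT₂)
  rw [← Polynomial.map_mul, mul_comm T₂] at g1
  rw [← Polynomial.map_mul] at g2
  refine gal_add (hm (mul_ne_zero hT₁ hT₂)) ?_ g1 g2
  have hco : ∀ (p : ℚ[X]) (B : Matrix ι ι ℚ[X]) (n : ℕ),
      coM n (p • B) = ∑ x ∈ Finset.HasAntidiagonal.antidiagonal n, p.coeff x.1 • coM x.2 B := by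
    intro p B n
    ext1 a b
    rw [coM_apply, Matrix.smul_apply, smul_eq_mul, coeff_mul, Matrix.sum_apply]
    rfl
  intro m n
  rw [hco, hco, Finset.sum_mul_sum, Finset.sum_mul_sum, Finset.sum_comm]
  refine Finset.sum_congr rfl fun x _ => Finset.sum_congr rfl fun y _ => ?_
  rw [smul_mul_smul_comm, smul_mul_smul_comm, hc, mul_comm]

theorem ga_beta_comp (T : ℚ[X]) (B : Matrix ι ι ℚ[X]) (a : ℕ) (j : ℕ) :
    beta (T.comp (X + C (a : ℚ))) (shM a B) j = shM a (beta T B j) := by
  have hd : ∀ p : ℚ[X], derivative (p.comp (X + C (a : ℚ))) =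
      (derivative p).comp (X + C (a : ℚ)) := by
    intro p
    rw [derivative_comp]
    simp
  induction j with
  | zero =>
    ext1 x y
    rw [shM_apply]
    by_cases hxy : x = y
    · subst hxy
      simp [beta]
    · simp [beta, hxy]
  | succ j ih =>
    apply ga_cancel (j := j)
    rw [ga_succ, ih]
    ext1 x y
    have h2 := congrArg (fun p : ℚ[X] => p.comp (X + C (a : ℚ)))
      (congrFun (congrFun (ga_succ T B j) x) y)
    simp only [Matrix.smul_apply, Matrix.add_apply, Matrix.sub_apply, Matrix.map_apply,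
      smul_eq_mul, mul_comp, add_comp, sub_comp, natCast_comp, one_comp, Matrix.mul_apply] at h2
    simp only [Matrix.smul_apply, Matrix.add_apply, Matrix.sub_apply, Matrix.map_apply,
      smul_eq_mul, Matrix.mul_apply, shM_apply, hd]
    rw [h2]
    congr 1
    rw [← Polynomial.coe_compRingHom_apply, map_sum]
    simp [mul_comp]

theorem gal_shift {T : ℤ[X]} {B : Matrix ι ι ℚ[X]} {H : ℕ}
    (h : Galochkin (T.map (Int.castRingHom ℚ)) B H) (a : ℕ) :
    Galochkin ((T.comp (X + C (a : ℤ))).map (Int.castRingHom ℚ)) (shM a B) H := by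
  have hT : (T.comp (X + C (a : ℤ))).map (Int.castRingHom ℚ) =
      (T.map (Int.castRingHom ℚ)).comp (X + C (a : ℚ)) := by
    rw [Polynomial.map_comp]
    simp
  intro j
  obtain ⟨q, h0, h1, h2⟩ := h j
  refine ⟨q, h0, h1, ?_⟩
  intro i hi x y
  rw [hT, ga_beta_comp, shM_apply]
  have h3 := h2 i hi x y
  rw [ga_intBy_iff] at h3 ⊢
  obtain ⟨z, hz⟩ := h3
  refine ⟨z.comp (X + C (a : ℤ)), ?_⟩
  rw [Polynomial.map_comp, ← hz]
  simp [mul_comp]

end Pool.Agent.Helper79.GC
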