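import Pool.Agent.Helper79.GC.GalAdd
import Pool.Agent.Helper79.GC.Slot
import Pool.Agent.Helper79.GC.BinmDen

/-!
# GC-07: Galochkin's condition for the tensor system, uniformly in the shifts

The tensor system is the sum of the commuting systems `(T(s+a_j), slot j L(s+a_j))`, `j < d`, and
`(s, slot j νr)`, `j < d`. First `(s, ∑_j slot j νr)` by `gal_add` (`Finset` induction; `gal_const` for
`νr` (`Half.of_sub`), `gal_slot` with `slot j (cX νr)`), then, by `Finset` induction over `s ⊆ Fin d` with `gal_mul`,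
`(∏_{i∈s} T_i, ∑_{j∈s} (∏_{i∈s∖j} T_i) • slot j L_j)`, then one more `gal_mul`. The coefficient matrices commute:
`slot_comm` for different slots, `cL` for the same slot. `gal_shift` keeps the constant, so the constant does
not depend on `a`.
-/

open Polynomial

namespace Pool.Agent.Helper79.GC

open Pool.Agent.Helper37.GP

private theorem gb_coM_sum {ι κ α : Type} (n : ℕ) (s : Finset α) (F : α → Matrix ι κ ℚ[X]) :
    coM n (∑ j ∈ s, F j) = ∑ j ∈ s, coM n (F j) := by
  ext x y
  rw [coM_apply, Matrix.sum_apply, Polynomial.finsetSum_coeff, Matrix.sum_apply]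
  rfl

private theorem gb_coM_mul_cX {ι : Type} [Fintype ι] (n : ℕ) (B : Matrix ι ι ℚ[X])
    (M : Matrix ι ι ℚ) : coM n (B * cX M) = coM n B * M := by
  ext x y
  rw [coM_apply, Matrix.mul_apply, Polynomial.finsetSum_coeff, Matrix.mul_apply]
  apply Finset.sum_congr rfl
  intro z _
  rw [cX_apply, Polynomial.coeff_mul_C, coM_apply]

private theorem gb_coM_cX_mul {ι : Type} [Fintype ι] (n : ℕ) (B : Matrix ι ι ℚ[X])
    (M : Matrix ι ι ℚ) : coM n (cX M * B) = M * coM n B := by
  ext x y
  rw [coM_apply, Matrix.mul_apply, Polynomial.finsetSum_coeff, Matrix.mul_apply]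
  apply Finset.sum_congr rfl
  intro z _
  rw [cX_apply, Polynomial.coeff_C_mul, coM_apply]

private theorem gb_coM_cX {ι : Type} (n : ℕ) (M : Matrix ι ι ℚ) :
    coM n (cX M) = if n = 0 then M else 0 := by
  ext x y
  rw [coM_apply, cX_apply, Polynomial.coeff_C]
  split_ifs <;> rfl

section

variable {R d : ℕ}

/-- the coefficient matrices in different slots commute -/
private theorem gb_comm_slots {s : Finset (Fin d)} {k : Fin d} (hk : k ∉ s)
    (M : Matrix (Fin R) (Fin R) ℚ[X]) (N : Fin d → Matrix (Fin R) (Fin R) ℚ[X]) (m n : ℕ) :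
    coM m (slot k M) * coM n (∑ j ∈ s, slot j (N j)) =
      coM n (∑ j ∈ s, slot j (N j)) * coM m (slot k M) := by
  rw [gb_coM_sum, Finset.mul_sum, Finset.sum_mul]
  apply Finset.sum_congr rfl
  intro j hj
  rw [coM_slot, coM_slot]
  have hkj : k ≠ j := by
    rintro rfl
    exact hk hj
  exact slot_comm hkj _ _

/-- the constant part -/
private theorem gb_const {ν : Matrix (Fin R) (Fin R) ℚ} {H : ℕ}
    (h : Galochkin ((X : ℤ[X]).map (Int.castRingHom ℚ)) (cX ν) H) (s : Finset (Fin d)) :
    Galochkin ((X : ℤ[X]).map (Int.castRingHom ℚ)) (∑ j ∈ s, slot j (cX ν)) (H ^ s.card) := by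
  induction s using Finset.induction_on with
  | empty =>
    rw [Finset.sum_empty, Finset.card_empty, pow_zero]
    exact gal_zero X
  | insert k s hk ih =>
    rw [Finset.sum_insert hk, Finset.card_insert_of_notMem hk, pow_succ']
    apply gal_add _ _ (gal_slot h k) ih
    · rw [Polynomial.map_X]
      exact X_ne_zero
    · intro m n
      exact gb_comm_slots hk _ _ m n

/-- the part of the systems `L` -/
private theorem gb_main (b : BlockData R) (a : Fin d → ℕ)
    (hT : ∀ j : Fin d, b.T.comp (X + C (a j : ℤ)) ≠ 0) (s : Finset (Fin d)) :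
    Galochkin ((∏ i ∈ s, b.T.comp (X + C (a i : ℤ))).map (Int.castRingHom ℚ))
      (∑ j ∈ s, slot j ((∏ i ∈ s.erase j, (b.T.comp (X + C (a i : ℤ))).map (Int.castRingHom ℚ)) •
        shM (a j) b.L)) (b.H ^ s.card) := by
  induction s using Finset.induction_on with
  | empty =>
    rw [Finset.sum_empty, Finset.card_empty, pow_zero, Finset.prod_empty]
    exact gal_zero 1
  | insert k s hk ih =>
    have h1 : Galochkin ((b.T.comp (X + C (a k : ℤ))).map (Int.castRingHom ℚ))
        (slot k (shM (a k) b.L) : Matrix (Fin d → Fin R) (Fin d → Fin R) ℚ[X]) b.H :=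
      gal_slot (gal_shift b.gal (a k)) k
    have h2 := gal_mul (hT k) (Finset.prod_ne_zero_iff.2 fun i _ => hT i)
      (fun m n => gb_comm_slots hk (shM (a k) b.L) _ m n) h1 ih
    rw [Finset.prod_insert hk, Finset.card_insert_of_notMem hk, pow_succ']
    convert h2 using 1
    rw [Finset.sum_insert hk, Finset.erase_insert hk, slot_smul, Polynomial.map_prod,
      Finset.smul_sum]
    congr 1
    apply Finset.sum_congr rfl
    intro j hj
    have hjk : k ≠ j := fun h => hk (h ▸ hj)
    have h3 : k ∉ s.erase j := fun h => hk (Finset.mem_of_mem_erase h)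
    rw [Finset.erase_insert_of_ne hjk, Finset.prod_insert h3, mul_smul, slot_smul]

private theorem gb_sh_cX (b : BlockData R) (n : ℕ) :
    shM n b.L * cX b.νr = cX b.νr * shM n b.L := by
  have hf : ∀ B : Matrix (Fin R) (Fin R) ℚ[X], shM n B =
      B.map (Polynomial.compRingHom (X + C (n : ℚ))) := fun _ => rfl
  have h1 : (cX b.νr).map (Polynomial.compRingHom (X + C (n : ℚ))) = cX b.νr := by
    ext1 x y
    rw [Matrix.map_apply, cX_apply, Polynomial.coe_compRingHom_apply, Polynomial.C_comp]
  have h2 := congrArg (fun M : Matrix (Fin R) (Fin R) ℚ[X] =>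
    M.map (Polynomial.compRingHom (X + C (n : ℚ)))) b.cL
  simp only [Matrix.map_mul, h1] at h2
  rw [hf]
  exact h2

private theorem gb_comm_same (b : BlockData R) (a : Fin d → ℕ) (P : Fin d → ℚ[X]) :
    Commute (∑ j : Fin d, slot j (cX b.νr)) (∑ j : Fin d, slot j (P j • shM (a j) b.L)) := by
  apply Commute.sum_right
  intro j _
  apply Commute.sum_left
  intro k _
  by_cases hkj : k = j
  · subst hkj
    show slot k (cX b.νr) * slot k (P k • shM (a k) b.L) =
      slot k (P k • shM (a k) b.L) * slot k (cX b.νr)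
    rw [slot_mul, slot_mul, Matrix.mul_smul, Matrix.smul_mul, gb_sh_cX]
  · exact slot_comm hkj (cX b.νr) (P j • shM (a j) b.L)

end

theorem gal_big {R : ℕ} (b : BlockData R) (d : ℕ) : ∃ H' : ℕ, 2 ≤ H' ∧ ∀ a : Fin d → ℕ,
    Galochkin ((bigT b a).map (Int.castRingHom ℚ)) (bigB b a) H' := by
  have hνr : Half' b.νr := (Half.of_sub b.half b.cν b.nil).half'
  obtain ⟨H₁, _, hH₁⟩ := gal_const hνr
  refine ⟨H₁ ^ d * b.H ^ d + 2, by omega, fun a => ?_⟩
  have hTdeg : 1 ≤ b.T.natDegree := by
    have := b.hdeg b.i₀ b.i₀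
    omega
  have hT : ∀ j : Fin d, b.T.comp (X + C (a j : ℤ)) ≠ 0 := by
    intro j h
    have h1 : (b.T.comp (X + C (a j : ℤ))).natDegree = b.T.natDegree := by
      rw [Polynomial.natDegree_comp, Polynomial.natDegree_X_add_C, mul_one]
    rw [h, Polynomial.natDegree_zero] at h1
    omega
  have h1 := gb_const (d := d) hH₁ Finset.univ
  have h2 := gb_main b a hT Finset.univ
  rw [Finset.card_univ, Fintype.card_fin] at h1 h2
  have hsum : (∑ j : Fin d, slot j (cX b.νr)) =
      (cX (∑ j : Fin d, slot j b.νr) : Matrix (Fin d → Fin R) (Fin d → Fin R) ℚ[X]) := by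
    have h3 : ∀ j : Fin d, slot j (cX b.νr) = (cX (slot j b.νr) :
        Matrix (Fin d → Fin R) (Fin d → Fin R) ℚ[X]) := by
      intro j
      unfold cX
      rw [slot_map _ (Polynomial.C_0)]
    simp only [h3]
    ext1 x y
    rw [Matrix.sum_apply, cX_apply, Matrix.sum_apply, map_sum]
    rfl
  have hcomm : ∀ m n, coM m (∑ j : Fin d, slot j (cX b.νr)) *
      coM n (∑ j : Fin d, slot j ((∏ i ∈ Finset.univ.erase j,
        (b.T.comp (X + C (a i : ℤ))).map (Int.castRingHom ℚ)) • shM (a j) b.L)) =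
      coM n (∑ j : Fin d, slot j ((∏ i ∈ Finset.univ.erase j,
        (b.T.comp (X + C (a i : ℤ))).map (Int.castRingHom ℚ)) • shM (a j) b.L)) *
      coM m (∑ j : Fin d, slot j (cX b.νr)) := by
    intro m n
    rw [hsum, gb_coM_cX]
    split_ifs
    · rw [← gb_coM_cX_mul, ← gb_coM_mul_cX, ← hsum]
      have h4 := (gb_comm_same b a (fun j => ∏ i ∈ Finset.univ.erase j,
        (b.T.comp (X + C (a i : ℤ))).map (Int.castRingHom ℚ))).eq
      rw [h4]
    · rw [Matrix.zero_mul, Matrix.mul_zero]
  have h3 := gal_mul (T₁ := X) X_ne_zero (Finset.prod_ne_zero_iff.2 fun i _ => hT i) hcomm h1 h2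
  have h4 : Galochkin ((bigT b a).map (Int.castRingHom ℚ)) (bigB b a) (H₁ ^ d * b.H ^ d) := by
    unfold bigT bigB
    convert h3 using 1
    rw [add_comm, Polynomial.map_prod, Polynomial.map_X, Finset.smul_sum (r := (X : ℚ[X]))]
    congr 1
    apply Finset.sum_congr rfl
    intro j _
    rw [slot_smul, smul_smul]
  exact gal_mono (Nat.le_add_right _ _) h4

end Pool.Agent.Helper79.GC
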