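import Pool.Agent.Helper79.GC.RelSpan
import Pool.Agent.Helper79.GC.ApproxSol

/-!
# GC-44: the gauge transformation

* `exists_gauge`: `approx_sol` for the index type `ι × ι`, `S = Rel Y N`, `y = Y` (`pairE w Y = 0`, `k = 0`), `n = 1`: polynomial matrix `p`
  orthogonal to all relations, `x^D p ≡ Y mod x`, so `p_ab` has degree `≤ D` and coefficient of `s^D` equal to `Y_ab(0) = δ_ab`. Multiply by
  a common denominator `κ` of all coefficients.
* `gauge_det`: the coefficient of `X^(D r)` of `det Z` is `det (κ 1) = κ^r`, `r = card ι` (Mathlib: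
  `Polynomial.coeff_det_...`, or: the product over a permutation of entries of degree `≤ D` has coefficient of `X^(D r)` the product of the
  coefficients of `X^D`, `Polynomial.coeff_prod_of_natDegree_le`).
* `exists_W`: `V = x^D Z` satisfies all relations, so by `rel_span` `V = Y G'`, all coefficients of `G'` in `GG`; `G' = Y⁻¹ V` has
  no coefficients of `x^n`, `n < 0` (`V` has `OrdGE 0` entries as `deg Z ≤ D`), and constant coefficient `κ 1`. `W = κ G'^(-1)`: a power series matrix with `W(0) = 1` and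
  coefficients in `GG` (recursion `κ W_n = - ∑_{i=1}^n G'_i W_{n-i}`, `gg_mul`, `gg_sum`).
-/

open Polynomial

namespace Pool.Agent.Helper79.GC

open Pool.Agent.Helper37.GP

variable {ι : Type} [Fintype ι] [DecidableEq ι]

/-- a common denominator of finitely many rational polynomials -/
theorem gauge_den {κ : Type} [Fintype κ] (F : κ → ℚ[X]) :
    ∃ (q : ℕ) (Z : κ → ℤ[X]), 1 ≤ q ∧ ∀ i, (Z i).map (Int.castRingHom ℚ) = C (q : ℚ) * F i := by
  classical
  let d : κ → ℕ := fun i => ∏ n ∈ (F i).support, ((F i).coeff n).den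
  let q : ℕ := ∏ i, d i
  have hd : ∀ i, 0 < d i := fun i => Finset.prod_pos fun n _ => Rat.den_pos _
  have hq : 0 < q := Finset.prod_pos fun i _ => hd i
  have hint : ∀ i n, ∃ z : ℤ, (q : ℚ) * (F i).coeff n = z := by
    intro i n
    by_cases hn : n ∈ (F i).support
    · have h1 : ((F i).coeff n).den ∣ q :=
        (Finset.dvd_prod_of_mem (fun n => ((F i).coeff n).den) hn).trans
          (Finset.dvd_prod_of_mem d (Finset.mem_univ i))
      obtain ⟨k, hk⟩ := h1
      refine ⟨k * ((F i).coeff n).num, ?_⟩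
      rw [hk]
      have h2 : (((F i).coeff n).den : ℚ) * (F i).coeff n = ((F i).coeff n).num :=
        Rat.den_mul_eq_num _
      push_cast
      rw [mul_right_comm, h2, mul_comm]
    · refine ⟨0, ?_⟩
      rw [Polynomial.notMem_support_iff.mp hn]
      simp
  have hlift : ∀ i, ∃ Z : ℤ[X], Z.map (Int.castRingHom ℚ) = C (q : ℚ) * F i := by
    intro i
    have h1 : C (q : ℚ) * F i ∈ Polynomial.lifts (Int.castRingHom ℚ) := by
      rw [Polynomial.lifts_iff_coeff_lifts]
      intro n
      obtain ⟨z, hz⟩ := hint i n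
      refine ⟨z, ?_⟩
      rw [Polynomial.coeff_C_mul, hz]
      rfl
    rw [Polynomial.mem_lifts] at h1
    exact h1
  choose Z hZ using hlift
  exact ⟨q, Z, hq, hZ⟩

theorem gauge_coeff_xx (D : ℕ) (p : ℚ[X]) (i : ℤ) :
    (xx ^ D * emb p).coeff i = (emb p).coeff (i - D) := by
  have h : xx ^ D = HahnSeries.single (D : ℤ) (1 : ℚ) := by
    unfold xx
    rw [HahnSeries.single_pow]
    simp
  rw [h]
  have h2 : i = (i - D) + D := by ring
  conv_lhs => rw [h2]
  rw [HahnSeries.coeff_single_mul_add, one_mul]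

theorem exists_gauge {Y : Matrix ι ι (PowerSeries ℚ)} {N : Matrix ι ι ℚ} (h0 : coP 0 Y = 1) :
    ∃ (D κ : ℕ) (Z : Matrix ι ι ℤ[X]), 1 ≤ κ ∧ (∀ a b, (Z a b).natDegree ≤ D) ∧
      (∀ a b, (Z a b).coeff D = if a = b then (κ : ℤ) else 0) ∧
      ∀ w ∈ Rel Y N, pairE w (eM (zM Z)) = 0 := by
  let S : Set (ι × ι → ℚ[X]) := {w' | ∃ w ∈ Rel Y N, w' = fun p => w p.1 p.2}
  have hy : ∀ w ∈ S, ∑ a, emb (w a) * (fun p : ι × ι => ps (Y p.1 p.2)) a = 0 := by
    rintro _ ⟨w, hw, rfl⟩
    have h1 := hw 0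
    rw [pow_zero, cM_one, Matrix.mul_one] at h1
    rw [Fintype.sum_prod_type]
    exact h1
  obtain ⟨D, p, hp1, hp2⟩ := approx_sol S _ hy 1
  have hco : ∀ (a : ι × ι) (i : ℤ), i < 1 → (emb (p a)).coeff (i - D) = (ps (Y a.1 a.2)).coeff i := by
    intro a i hi
    have h1 := hp2 a i (by exact_mod_cast hi)
    rw [HahnSeries.coeff_sub, gauge_coeff_xx, sub_eq_zero] at h1
    exact h1
  have hdeg : ∀ a, ∀ n, D < n → (p a).coeff n = 0 := by
    intro a n hn
    have h1 := hco a (D - n) (by omega)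
    rw [ps_coeff, if_pos (by omega)] at h1
    have h2 : ((D : ℤ) - n - D) = -(n : ℤ) := by ring
    rw [h2, emb_coeff_neg] at h1
    exact h1
  have hlead : ∀ a, (p a).coeff D = if a.1 = a.2 then 1 else 0 := by
    intro a
    have h1 := hco a 0 (by norm_num)
    rw [ps_coeff, if_neg (by omega), zero_sub, emb_coeff_neg] at h1
    rw [h1]
    have h2 := congrFun (congrFun h0 a.1) a.2
    rw [coP_apply, Matrix.one_apply] at h2
    exact h2
  obtain ⟨q, Z', hq, hZ⟩ := gauge_den p
  have hZc : ∀ a n, (((Z' a).coeff n : ℤ) : ℚ) = q * (p a).coeff n := by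
    intro a n
    have h1 := congrArg (fun P => Polynomial.coeff P n) (hZ a)
    simp only [Polynomial.coeff_map, Polynomial.coeff_C_mul] at h1
    exact h1
  refine ⟨D, q, Matrix.of fun a b => Z' (a, b), hq, ?_, ?_, ?_⟩
  · intro a b
    rw [Matrix.of_apply, Polynomial.natDegree_le_iff_coeff_eq_zero]
    intro n hn
    have h1 := hZc (a, b) n
    rw [hdeg _ _ hn, mul_zero] at h1
    exact_mod_cast h1
  · intro a b
    rw [Matrix.of_apply]
    have h1 := hZc (a, b) D
    rw [hlead] at h1
    have h2 : (((Z' (a, b)).coeff D : ℤ) : ℚ) = (((if a = b then (q : ℤ) else 0) : ℤ) : ℚ) := by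
      rw [h1]
      by_cases hab : a = b
      · simp [hab]
      · simp [hab]
    exact_mod_cast h2
  · intro w hw
    have h1 := hp1 _ ⟨w, hw, rfl⟩
    have h2 : pairE w (eM (zM (Matrix.of fun a b => Z' (a, b)))) =
        emb (C (q : ℚ) * ∑ a : ι × ι, w a.1 a.2 * p a) := by
      unfold pairE
      rw [Finset.mul_sum, map_sum, Fintype.sum_prod_type]
      refine Finset.sum_congr rfl fun a _ => Finset.sum_congr rfl fun b _ => ?_
      have h3 : eM (zM (Matrix.of fun a b => Z' (a, b))) a b = emb (C (q : ℚ) * p (a, b)) := by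
        rw [← hZ]
        rfl
      rw [h3, ← map_mul]
      congr 1
      ring
    rw [h2, h1, mul_zero, map_zero]

theorem gauge_det {D κ : ℕ} {Z : Matrix ι ι ℤ[X]} (hκ : 1 ≤ κ)
    (hdeg : ∀ a b, (Z a b).natDegree ≤ D)
    (hco : ∀ a b, (Z a b).coeff D = if a = b then (κ : ℤ) else 0) :
    Z.det ≠ 0 ∧ Z.det.natDegree = D * Fintype.card ι := by
  have hprod : ∀ σ : Equiv.Perm ι, (∏ i, Z (σ i) i).natDegree ≤ Fintype.card ι * D := by
    intro σ
    refine (Polynomial.natDegree_prod_le _ _).trans ?_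
    calc ∑ i, (Z (σ i) i).natDegree ≤ ∑ _i : ι, D := Finset.sum_le_sum fun i _ => hdeg _ _
      _ = Fintype.card ι * D := by rw [Finset.sum_const, Finset.card_univ, smul_eq_mul]
  have hle : Z.det.natDegree ≤ Fintype.card ι * D := by
    rw [Matrix.det_apply]
    apply Polynomial.natDegree_sum_le_of_forall_le
    intro σ _
    rw [Units.smul_def, zsmul_eq_mul]
    refine (Polynomial.natDegree_mul_le).trans ?_
    have h1 : (((Equiv.Perm.sign σ : ℤˣ) : ℤ) : ℤ[X]).natDegree = 0 := Polynomial.natDegree_intCast _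
    rw [h1, zero_add]
    exact hprod σ
  have hcoeff : Z.det.coeff (Fintype.card ι * D) = (κ : ℤ) ^ Fintype.card ι := by
    have h1 : Z.det.coeff (Fintype.card ι * D) = (Matrix.of fun a b => (Z a b).coeff D).det := by
      rw [Matrix.det_apply, Matrix.det_apply, Polynomial.finsetSum_coeff]
      refine Finset.sum_congr rfl fun σ _ => ?_
      rw [Polynomial.coeff_smul]
      congr 1
      have := Polynomial.coeff_prod_of_natDegree_le (s := Finset.univ) (fun i => Z (σ i) i) D
        (fun i _ => hdeg _ _)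
      rw [Finset.card_univ] at this
      exact this
    have h2 : (Matrix.of fun a b => (Z a b).coeff D) = Matrix.diagonal fun _ => (κ : ℤ) := by
      ext a b
      rw [Matrix.of_apply, hco, Matrix.diagonal_apply]
    rw [h1, h2, Matrix.det_diagonal, Finset.prod_const, Finset.card_univ]
  have hne : Z.det.coeff (Fintype.card ι * D) ≠ 0 := by
    rw [hcoeff]
    have : (κ : ℤ) ≠ 0 := by omega
    exact pow_ne_zero _ this
  refine ⟨?_, ?_⟩
  · intro h
    rw [h] at hne
    simp at hne
  · rw [mul_comm]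
    exact le_antisymm hle (Polynomial.le_natDegree_of_ne_zero hne)

omit [DecidableEq ι] in
theorem gauge_coP_mul (F G : Matrix ι ι (PowerSeries ℚ)) (n : ℕ) :
    coP n (F * G) = ∑ p ∈ Finset.HasAntidiagonal.antidiagonal n, coP p.1 F * coP p.2 G := by
  ext a b
  rw [coP_apply, Matrix.mul_apply, map_sum, Matrix.sum_apply]
  simp only [Matrix.mul_apply, PowerSeries.coeff_mul, coP_apply]
  rw [Finset.sum_comm]

omit [Fintype ι] in
theorem gauge_coP_one (n : ℕ) : coP n (1 : Matrix ι ι (PowerSeries ℚ)) = if n = 0 then 1 else 0 := by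
  ext a b
  rw [coP_apply, Matrix.one_apply]
  by_cases hn : n = 0
  · subst hn
    rw [if_pos rfl, Matrix.one_apply]
    split_ifs <;> simp
  · rw [if_neg hn]
    split_ifs
    · rw [PowerSeries.coeff_one, if_neg hn, Matrix.zero_apply]
    · simp

theorem exists_W {T : ℚ[X]} {A : Matrix ι ι ℚ[X]} {Y : Matrix ι ι (PowerSeries ℚ)}
    {N : Matrix ι ι ℚ} (hT : T ≠ 0) (h : IsFund T A Y N) (h0 : coP 0 Y = 1) (hN : Half N)
    {D κ : ℕ} {Z : Matrix ι ι ℤ[X]} (hκ : 1 ≤ κ) (hdeg : ∀ a b, (Z a b).natDegree ≤ D)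
    (hco : ∀ a b, (Z a b).coeff D = if a = b then (κ : ℤ) else 0)
    (hrel : ∀ w ∈ Rel Y N, pairE w (eM (zM Z)) = 0) :
    ∃ W : Matrix ι ι (PowerSeries ℚ), coP 0 W = 1 ∧
      (κ : ℚ) • pM Y = (xx ^ D • eM (zM Z)) * pM W ∧ ∀ n, coP n W ∈ GG Y N := by
  have hκ0 : (κ : ℚ) ≠ 0 := by
    have : 0 < κ := hκ
    exact_mod_cast this.ne'
  -- the power series matrix `V'`
  set V' : Matrix ι ι (PowerSeries ℚ) := Matrix.of fun a b =>
    PowerSeries.mk fun n => if n ≤ D then (((Z a b).coeff (D - n) : ℤ) : ℚ) else 0 with hV'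
  have hzco : ∀ a b n, (zM Z a b).coeff n = (((Z a b).coeff n : ℤ) : ℚ) := by
    intro a b n
    change ((Z a b).map (Int.castRingHom ℚ)).coeff n = _
    rw [Polynomial.coeff_map]
    rfl
  have hVeq : xx ^ D • eM (zM Z) = pM V' := by
    ext1 a b
    rw [Matrix.smul_apply, smul_eq_mul, eM_apply, pM_apply]
    ext i
    rw [gauge_coeff_xx, ps_coeff, emb_coeff]
    by_cases hi : i < 0
    · rw [if_pos hi, if_pos (by omega), hzco]
      rw [Polynomial.coeff_eq_zero_of_natDegree_lt]
      · simp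
      · have := hdeg a b
        omega
    · rw [if_neg hi]
      simp only [hV', Matrix.of_apply, PowerSeries.coeff_mk]
      by_cases hiD : i ≤ D
      · rw [if_pos (by omega), if_pos (by omega), hzco]
        congr 2
        omega
      · rw [if_neg (by omega), if_neg (by omega)]
  have hV0 : coP 0 V' = (κ : ℚ) • (1 : Matrix ι ι ℚ) := by
    ext a b
    rw [coP_apply, Matrix.smul_apply, smul_eq_mul]
    simp only [hV', Matrix.of_apply, PowerSeries.coeff_mk]
    rw [if_pos (Nat.zero_le _), Nat.sub_zero, hco, Matrix.one_apply]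
    by_cases hab : a = b
    · simp [hab]
    · simp [hab]
  have hVrel : ∀ w ∈ Rel Y N, pairE w (pM V') = 0 := by
    intro w hw
    rw [← hVeq, pairE_smul_right, hrel w hw, mul_zero]
  obtain ⟨G', hG', hGG⟩ := rel_span hT h h0 hN hVrel
  have hu : IsUnit Y.det := pM_isUnit h0
  -- `G' = pM G''`
  set G'' : Matrix ι ι (PowerSeries ℚ) := Y⁻¹ * V' with hG''
  have hG'eq : G' = pM G'' := by
    have h1 : pM Y⁻¹ * pM V' = pM Y⁻¹ * (pM Y * G') := by rw [hG']
    rw [← Matrix.mul_assoc, ← pM_mul, ← pM_mul, Matrix.nonsing_inv_mul _ hu, pM_one,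
      Matrix.one_mul] at h1
    exact h1.symm
  have hYG : Y * G'' = V' := by
    rw [hG'', ← Matrix.mul_assoc, Matrix.mul_nonsing_inv _ hu, Matrix.one_mul]
  have hG0 : coP 0 G'' = (κ : ℚ) • (1 : Matrix ι ι ℚ) := by
    have h1 := congrArg (coP 0) hYG
    rw [gauge_coP_mul, hV0] at h1
    simpa [h0] using h1
  have hGn : ∀ n : ℕ, coP n G'' ∈ GG Y N := by
    intro n
    have h1 := hGG (n : ℤ)
    have h2 : coL (n : ℤ) G' = coP n G'' := by
      rw [hG'eq]
      ext a b
      rw [coL_apply, pM_apply, ps_coeff, if_neg (by omega), coP_apply]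
      simp
    rwa [h2] at h1
  -- the inverse
  have huG : IsUnit G''.det := by
    rw [PowerSeries.isUnit_iff_constantCoeff, RingHom.map_det]
    have h1 : (PowerSeries.constantCoeff (R := ℚ)).mapMatrix G'' = (κ : ℚ) • 1 := by
      rw [← hG0]
      ext1 a b
      rw [RingHom.mapMatrix_apply, Matrix.map_apply, coP_apply,
        PowerSeries.coeff_zero_eq_constantCoeff]
    rw [h1, Matrix.det_smul, Matrix.det_one, mul_one]
    exact (pow_ne_zero _ hκ0).isUnit
  set W : Matrix ι ι (PowerSeries ℚ) := (PowerSeries.C (κ : ℚ)) • G''⁻¹ with hW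
  have hGW : G'' * W = (PowerSeries.C (κ : ℚ)) • 1 := by
    rw [hW, Matrix.mul_smul, Matrix.mul_nonsing_inv _ huG]
  have hGWn : ∀ n, ∑ p ∈ Finset.HasAntidiagonal.antidiagonal n, coP p.1 G'' * coP p.2 W =
      if n = 0 then (κ : ℚ) • (1 : Matrix ι ι ℚ) else 0 := by
    intro n
    rw [← gauge_coP_mul, hGW]
    have h1 : coP n ((PowerSeries.C (κ : ℚ)) • (1 : Matrix ι ι (PowerSeries ℚ))) =
        (κ : ℚ) • coP n (1 : Matrix ι ι (PowerSeries ℚ)) := by
      ext a b
      rw [coP_apply, Matrix.smul_apply, Matrix.smul_apply, smul_eq_mul, smul_eq_mul,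
        PowerSeries.coeff_C_mul, coP_apply]
    rw [h1, gauge_coP_one]
    split_ifs
    · rfl
    · rw [smul_zero]
  have hW0 : coP 0 W = 1 := by
    have h1 := hGWn 0
    rw [if_pos rfl, Finset.Nat.antidiagonal_zero, Finset.sum_singleton, hG0, Matrix.smul_mul,
      Matrix.one_mul] at h1
    have h2 := congrArg (fun M => (κ : ℚ)⁻¹ • M) h1
    simpa only [smul_smul, inv_mul_cancel₀ hκ0, one_smul] using h2
  refine ⟨W, hW0, ?_, ?_⟩
  · rw [hVeq, ← pM_mul]
    have h1 : V' * W = (PowerSeries.C (κ : ℚ)) • Y := by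
      rw [← hYG, Matrix.mul_assoc, hGW, Matrix.mul_smul, Matrix.mul_one]
    rw [h1]
    ext1 a b
    have h2 : pM ((PowerSeries.C (κ : ℚ)) • Y) a b = ps (PowerSeries.C (κ : ℚ)) * ps (Y a b) := by
      rw [pM_apply, Matrix.smul_apply, smul_eq_mul, Subst12.ps_mul]
    rw [h2, Subst12.ps_C, Matrix.smul_apply, pM_apply]
    ext n
    rw [algebraMap_eq_single, HahnSeries.coeff_single_zero_mul, HahnSeries.coeff_smul, smul_eq_mul]
  · intro n
    induction n using Nat.strong_induction_on with
    | _ n ih =>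
      by_cases hn : n = 0
      · rw [hn, hW0]
        exact gg_one
      · have h1 := hGWn n
        rw [if_neg hn] at h1
        have h2 : (0, n) ∈ Finset.HasAntidiagonal.antidiagonal n := by simp
        rw [← Finset.add_sum_erase _ _ h2] at h1
        rw [hG0, Matrix.smul_mul, Matrix.one_mul] at h1
        have h3 : coP n W = (-(κ : ℚ)⁻¹) • ∑ p ∈ (Finset.HasAntidiagonal.antidiagonal n).erase (0, n),
            coP p.1 G'' * coP p.2 W := by
          have h4 : (κ : ℚ) • coP n W = -∑ p ∈ (Finset.HasAntidiagonal.antidiagonal n).erase (0, n),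
            coP p.1 G'' * coP p.2 W := eq_neg_of_add_eq_zero_left h1
          have h5 := congrArg (fun M => (κ : ℚ)⁻¹ • M) h4
          simp only [smul_smul, inv_mul_cancel₀ hκ0, one_smul] at h5
          rw [h5, smul_neg, neg_smul]
        rw [h3]
        apply gg_smul
        apply gg_sum
        rintro ⟨i, j⟩ hp
        rw [Finset.mem_erase, Finset.HasAntidiagonal.mem_antidiagonal] at hp
        obtain ⟨hp1, hp2⟩ := hp
        apply gg_mul hT h (hGn i)
        apply ih
        change j < n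
        simp only at hp2
        rcases Nat.eq_zero_or_pos i with hi | hi
        · exfalso
          apply hp1
          rw [hi] at hp2 ⊢
          rw [zero_add] at hp2
          rw [hp2]
        · omega

end Pool.Agent.Helper79.GC
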