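import Pool.Agent.Helper79.GC.Gauge
import Pool.Agent.Helper37.GP.Bounds

/-!
# GC-46: sizes and denominators of `W`

* `inv_bounds`: `P = t s^n + …`, `x^n P = t + c_1 x + … ∈ ℤ[x]`; the inverse `f` satisfies `t f_k = - ∑_{i≥1} c_i f_{k-i}`, `t^(k+1) f_k ∈ ℤ`, and
  `|f_k| ≤ H^(k+1)` by induction.
* `W_bounds`: `W = κ (x^D Z)⁻¹ Y`, `(x^D Z)⁻¹ = x^(D(r-1)) adj(Z) · (x^(rD) det Z)⁻¹`, where `x^(D(r-1)) adj Z` is a polynomial matrix in
  `x` (entries of `adj Z` have degree `≤ (r-1) D`) and `x^(rD) det Z` is as in `inv_bounds` (`gauge_det`: `deg det Z = r D`). Products and finite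
  sums of series with geometric bounds and common geometric denominators are of the same kind
  (see `Pool.Agent.Helper37.GP.Bounds`). If `ι` is empty there is nothing to prove; if `r = 1`, `adj Z = 1`.
-/

open Polynomial

namespace Pool.Agent.Helper79.GC

open Pool.Agent.Helper37.GP

namespace GBnd

/-- `x^D p(1/x)` as a power series -/
noncomputable def rv (D : ℕ) (p : ℤ[X]) : PowerSeries ℚ :=
  PowerSeries.mk fun i => if i ≤ D then (p.coeff (D - i) : ℚ) else 0

lemma xx_pow (D : ℕ) : xx ^ D = HahnSeries.single (D : ℤ) (1 : ℚ) := by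
  induction D with
  | zero => rfl
  | succ D ih =>
    rw [pow_succ, ih, xx, HahnSeries.single_mul_single]
    simp

lemma coeff_rv (D : ℕ) (p : ℤ[X]) (i : ℕ) :
    PowerSeries.coeff i (rv D p) = if i ≤ D then (p.coeff (D - i) : ℚ) else 0 := by
  rw [rv, PowerSeries.coeff_mk]

lemma ps_rv {D : ℕ} {p : ℤ[X]} (h : p.natDegree ≤ D) :
    xx ^ D * emb (p.map (Int.castRingHom ℚ)) = ps (rv D p) := by
  ext n
  rw [xx_pow]
  have h1 : n = (n - D) + D := by ring
  conv_lhs => rw [h1]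
  rw [HahnSeries.coeff_single_mul_add, one_mul, emb_coeff, ps_coeff]
  split_ifs with h2 h3 h3
  · rw [coeff_map, coeff_eq_zero_of_natDegree_lt (by omega), map_zero]
  · rw [coeff_rv, if_pos (by omega), coeff_map]
    have : (-(n - (D : ℤ))).toNat = D - n.natAbs := by omega
    rw [this]
    rfl
  · omega
  · rw [coeff_rv, if_neg (by omega)]

/-- the series with geometric bounds and denominators -/
def Geo (f : PowerSeries ℚ) : Prop := ∃ H : ℕ, 2 ≤ H ∧ GBound H f ∧ GDen H (fun _ : Unit => f)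

lemma gden_mono {κ : Type} {H H' : ℕ} (h : H ≤ H') {f : κ → PowerSeries ℚ} (hf : GDen H f) :
    GDen H' f := by
  intro n
  obtain ⟨d, h1, h2, h3⟩ := hf n
  exact ⟨d, h1, h2.trans (Nat.pow_le_pow_left h _), h3⟩

lemma gden_mul {H : ℕ} {f g : PowerSeries ℚ} (hf : GDen H (fun _ : Unit => f))
    (hg : GDen H (fun _ : Unit => g)) : GDen (H ^ 2) (fun _ : Unit => f * g) := by
  intro n
  obtain ⟨d, h1, h2, h3⟩ := hf n
  obtain ⟨e, h4, h5, h6⟩ := hg n
  refine ⟨d * e, Nat.mul_pos h1 h4, ?_, ?_⟩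
  · calc d * e ≤ H ^ (n + 1) * H ^ (n + 1) := Nat.mul_le_mul h2 h5
      _ = (H ^ 2) ^ (n + 1) := by rw [← pow_add, ← pow_mul]; congr 1; ring
  · intro m hm _
    exact BoundsAux.iu_mul (n := n) (fun m hm => h3 m hm ()) (fun m hm => h6 m hm ()) m hm

lemma gden_add {H : ℕ} {f g : PowerSeries ℚ} (hf : GDen H (fun _ : Unit => f))
    (hg : GDen H (fun _ : Unit => g)) : GDen (H ^ 2) (fun _ : Unit => f + g) := by
  intro n
  obtain ⟨d, h1, h2, h3⟩ := hf n
  obtain ⟨e, h4, h5, h6⟩ := hg n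
  refine ⟨d * e, Nat.mul_pos h1 h4, ?_, ?_⟩
  · calc d * e ≤ H ^ (n + 1) * H ^ (n + 1) := Nat.mul_le_mul h2 h5
      _ = (H ^ 2) ^ (n + 1) := by rw [← pow_add, ← pow_mul]; congr 1; ring
  · intro m hm _
    obtain ⟨z, hz⟩ := h3 m hm ()
    obtain ⟨w, hw⟩ := h6 m hm ()
    refine ⟨e * z + d * w, ?_⟩
    rw [map_add]
    push_cast
    rw [← hz, ← hw]
    ring

lemma gbound_add {H : ℕ} (hH : 2 ≤ H) {f g : PowerSeries ℚ} (hf : GBound H f)
    (hg : GBound H g) : GBound (H ^ 2) (f + g) := by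
  intro n
  have hH' : (2 : ℚ) ≤ H := by exact_mod_cast hH
  rw [map_add]
  refine (abs_add_le _ _).trans ?_
  have h1 : (2 : ℚ) ≤ (H : ℚ) ^ (n + 1) := by
    calc (2 : ℚ) ≤ H := hH'
      _ = (H : ℚ) ^ 1 := (pow_one _).symm
      _ ≤ (H : ℚ) ^ (n + 1) := pow_le_pow_right₀ (by linarith) (by omega)
  calc _ ≤ (H : ℚ) ^ (n + 1) + (H : ℚ) ^ (n + 1) := add_le_add (hf n) (hg n)
    _ = 2 * (H : ℚ) ^ (n + 1) := by ring
    _ ≤ (H : ℚ) ^ (n + 1) * (H : ℚ) ^ (n + 1) := mul_le_mul_of_nonneg_right h1 (by positivity)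
    _ = ((H ^ 2 : ℕ) : ℚ) ^ (n + 1) := by push_cast; rw [← pow_mul, ← pow_add]; congr 1; ring

lemma geo_common {f g : PowerSeries ℚ} (hf : Geo f) (hg : Geo g) : ∃ H : ℕ, 2 ≤ H ∧
    GBound H f ∧ GDen H (fun _ : Unit => f) ∧ GBound H g ∧ GDen H (fun _ : Unit => g) := by
  obtain ⟨H, h1, h2, h3⟩ := hf
  obtain ⟨K, k1, k2, k3⟩ := hg
  exact ⟨max H K, h1.trans (le_max_left _ _), BoundsAux.gbound_mono (le_max_left _ _) h2,
    gden_mono (le_max_left _ _) h3, BoundsAux.gbound_mono (le_max_right _ _) k2,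
    gden_mono (le_max_right _ _) k3⟩

lemma geo_mul {f g : PowerSeries ℚ} (hf : Geo f) (hg : Geo g) : Geo (f * g) := by
  obtain ⟨H, h1, h2, h3, h4, h5⟩ := geo_common hf hg
  refine ⟨H ^ 3, ?_, gbound_mul h1 h2 h4, gden_mono ?_ (gden_mul h3 h5)⟩
  · calc 2 ≤ H := h1
      _ ≤ H ^ 3 := Nat.le_self_pow (by norm_num) H
  · exact Nat.pow_le_pow_right (by omega) (by norm_num)

lemma geo_add {f g : PowerSeries ℚ} (hf : Geo f) (hg : Geo g) : Geo (f + g) := by
  obtain ⟨H, h1, h2, h3, h4, h5⟩ := geo_common hf hg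
  refine ⟨H ^ 2, ?_, gbound_add h1 h2 h4, gden_add h3 h5⟩
  calc 2 ≤ H := h1
      _ ≤ H ^ 2 := Nat.le_self_pow (by norm_num) H

lemma geo_neg {f : PowerSeries ℚ} (hf : Geo f) : Geo (-f) := by
  obtain ⟨H, h1, h2, h3⟩ := hf
  refine ⟨H, h1, fun n => ?_, fun n => ?_⟩
  · rw [map_neg, abs_neg]
    exact h2 n
  · obtain ⟨d, k1, k2, k3⟩ := h3 n
    refine ⟨d, k1, k2, fun m hm _ => ?_⟩
    obtain ⟨z, hz⟩ := k3 m hm ()
    exact ⟨-z, by rw [map_neg, mul_neg, hz]; push_cast; rfl⟩

/-- integral series with a geometric bound -/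
lemma geo_int {H : ℕ} {f : PowerSeries ℚ} (hb : GBound H f)
    (hz : ∀ m, ∃ z : ℤ, PowerSeries.coeff m f = z) : Geo f := by
  refine ⟨max H 2, le_max_right _ _, BoundsAux.gbound_mono (le_max_left _ _) hb, fun n => ?_⟩
  refine ⟨1, one_pos, Nat.one_le_pow _ _ (by omega), fun m _ _ => ?_⟩
  obtain ⟨z, hz⟩ := hz m
  exact ⟨z, by rw [Nat.cast_one, one_mul, hz]⟩

lemma geo_one : Geo 1 := by
  refine geo_int (BoundsAux.gbound_one (le_refl 1)) fun m => ?_
  rw [PowerSeries.coeff_one]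
  split_ifs
  · exact ⟨1, by simp⟩
  · exact ⟨0, by simp⟩

lemma geo_zero : Geo 0 := by
  have h := geo_add geo_one (geo_neg geo_one)
  rwa [add_neg_cancel] at h

/-- the subring -/
def geo : Subring (PowerSeries ℚ) where
  carrier := {f | Geo f}
  mul_mem' := fun ha hb => geo_mul ha hb
  one_mem' := geo_one
  add_mem' := fun ha hb => geo_add ha hb
  zero_mem' := geo_zero
  neg_mem' := fun ha => geo_neg ha

lemma geo_rv (D : ℕ) (p : ℤ[X]) : Geo (rv D p) := by
  obtain ⟨H, hH⟩ : ∃ H : ℕ, ∀ i ≤ D, (p.coeff i).natAbs ≤ H := by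
    refine ⟨∑ i ∈ Finset.range (D + 1), (p.coeff i).natAbs, fun i hi => ?_⟩
    exact Finset.single_le_sum (f := fun i => (p.coeff i).natAbs) (fun _ _ => Nat.zero_le _)
      (Finset.mem_range.2 (by omega))
  refine geo_int (H := max H 1) (fun n => ?_) (fun m => ?_)
  · rw [rv, PowerSeries.coeff_mk]
    have h1 : (1 : ℚ) ≤ ((max H 1 : ℕ) : ℚ) := by exact_mod_cast le_max_right _ _
    split_ifs with h
    · have h2 := hH (D - n) (by omega)
      have h3 : |((p.coeff (D - n) : ℤ) : ℚ)| = (((p.coeff (D - n)).natAbs : ℕ) : ℚ) := by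
        rw [Nat.cast_natAbs, Int.cast_abs]
      rw [h3]
      calc (((p.coeff (D - n)).natAbs : ℕ) : ℚ) ≤ ((max H 1 : ℕ) : ℚ) := by
            exact_mod_cast h2.trans (le_max_left _ _)
        _ = ((max H 1 : ℕ) : ℚ) ^ 1 := (pow_one _).symm
        _ ≤ _ := pow_le_pow_right₀ h1 (by omega)
    · rw [abs_zero]
      positivity
  · rw [rv, PowerSeries.coeff_mk]
    split_ifs with h
    · exact ⟨_, rfl⟩
    · exact ⟨0, by simp⟩

/-- a family of geometric series has common bounds -/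
lemma geo_family {κ : Type} [Fintype κ] {f : κ → PowerSeries ℚ} (h : ∀ a, Geo (f a)) :
    ∃ H : ℕ, 2 ≤ H ∧ (∀ a, GBound H (f a)) ∧ GDen H f := by
  classical
  choose H h1 h2 h3 using h
  have hpos : ∀ a, 1 ≤ H a := fun a => le_trans (by norm_num) (h1 a)
  have hle : ∀ a, H a ≤ ∏ b, H b := fun a => by
    rw [← Finset.mul_prod_erase _ _ (Finset.mem_univ a)]
    exact Nat.le_mul_of_pos_right _ (Finset.prod_pos fun b _ => hpos b)
  refine ⟨2 * ∏ b, H b, ?_, fun a => ?_, fun n => ?_⟩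
  · have : 0 < ∏ b, H b := Finset.prod_pos fun b _ => hpos b
    omega
  · exact BoundsAux.gbound_mono ((hle a).trans (by omega)) (h2 a)
  · choose d k1 k2 k3 using fun a => h3 a n
    refine ⟨∏ a, d a, Finset.prod_pos fun a _ => k1 a, ?_, fun m hm a => ?_⟩
    · calc ∏ a, d a ≤ ∏ a, (H a) ^ (n + 1) := Finset.prod_le_prod' fun a _ => k2 a
        _ = (∏ a, H a) ^ (n + 1) := Finset.prod_pow _ _ _
        _ ≤ _ := Nat.pow_le_pow_left (by omega) _
    · obtain ⟨z, hz⟩ := k3 a m hm ()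
      refine ⟨(∏ b ∈ Finset.univ.erase a, (d b : ℤ)) * z, ?_⟩
      rw [← Finset.mul_prod_erase _ _ (Finset.mem_univ a)]
      push_cast
      rw [← hz]
      ring

end GBnd

open GBnd

theorem inv_bounds {P : ℤ[X]} (hP : P ≠ 0) : ∃ (H : ℕ) (f : PowerSeries ℚ), 1 ≤ H ∧
    ps f * (xx ^ P.natDegree * emb (P.map (Int.castRingHom ℚ))) = 1 ∧ GBound H f ∧
      GDen H (fun _ : Unit => f) := by
  set n := P.natDegree with hn
  set t : ℤ := P.coeff n with ht
  have ht0 : t ≠ 0 := by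
    rw [ht, hn]
    exact leadingCoeff_ne_zero.2 hP
  have htq : (t : ℚ) ≠ 0 := by exact_mod_cast ht0
  have ht1 : (1 : ℚ) ≤ |(t : ℚ)| := by
    have : (1 : ℤ) ≤ |t| := Int.one_le_abs ht0
    exact_mod_cast this
  set Q := rv n P with hQ
  have hQ0 : PowerSeries.coeff 0 Q = t := by
    rw [hQ, coeff_rv, if_pos (Nat.zero_le _), Nat.sub_zero]
  have hQc : PowerSeries.constantCoeff Q ≠ 0 := by
    rw [← PowerSeries.coeff_zero_eq_constantCoeff_apply, hQ0]
    exact htq
  set f := Q⁻¹ with hf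
  have hQf : Q * f = 1 := PowerSeries.mul_inv_cancel Q hQc
  -- the recursion
  have hrec : ∀ k, (t : ℚ) * PowerSeries.coeff k f = (if k = 0 then 1 else 0) -
      ∑ i ∈ Finset.range k, PowerSeries.coeff (i + 1) Q * PowerSeries.coeff (k - 1 - i) f := by
    intro k
    have h1 := congrArg (PowerSeries.coeff k) hQf
    rw [PowerSeries.coeff_mul, PowerSeries.coeff_one,
      Finset.Nat.sum_antidiagonal_eq_sum_range_succ_mk, Finset.sum_range_succ', hQ0] at h1
    simp only [Nat.sub_zero] at h1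
    have h2 : ∑ i ∈ Finset.range k, PowerSeries.coeff (i + 1) Q * PowerSeries.coeff (k - (i + 1)) f =
        ∑ i ∈ Finset.range k, PowerSeries.coeff (i + 1) Q * PowerSeries.coeff (k - 1 - i) f := by
      refine Finset.sum_congr rfl fun i _ => ?_
      have : k - (i + 1) = k - 1 - i := by omega
      rw [this]
    rw [h2] at h1
    linear_combination h1
  set S : ℕ := ∑ j ∈ Finset.range (n + 1), (P.coeff (n - j)).natAbs with hS
  have hcast : ∀ z : ℤ, ((z.natAbs : ℕ) : ℚ) = |(z : ℚ)| := fun z => by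
    rw [Nat.cast_natAbs, Int.cast_abs]
  have htS : t.natAbs ≤ S := by
    have := Finset.single_le_sum (f := fun j => (P.coeff (n - j)).natAbs)
      (fun _ _ => Nat.zero_le _) (Finset.mem_range.2 (Nat.succ_pos n) : 0 ∈ Finset.range (n + 1))
    simpa using this
  have hS1 : 1 ≤ S := le_trans (Int.natAbs_pos.2 ht0) htS
  have hS1q : (1 : ℚ) ≤ S := by exact_mod_cast hS1
  have hsum : ∀ k, ∑ i ∈ Finset.range k, |PowerSeries.coeff (i + 1) Q| ≤ (S : ℚ) := by
    intro k
    have h1 : ∑ i ∈ Finset.range k, |PowerSeries.coeff (i + 1) Q| ≤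
        ∑ i ∈ Finset.range (k + 1), |PowerSeries.coeff i Q| := by
      rw [Finset.sum_range_succ']
      have := abs_nonneg (PowerSeries.coeff 0 Q)
      linarith
    refine h1.trans ?_
    have h2 : ∑ i ∈ Finset.range (k + 1), |PowerSeries.coeff i Q| ≤
        ∑ i ∈ Finset.range (n + 1), |PowerSeries.coeff i Q| := by
      have h3 : ∑ i ∈ Finset.range (k + 1), |PowerSeries.coeff i Q| =
          ∑ i ∈ (Finset.range (k + 1)).filter (fun i => i ≤ n), |PowerSeries.coeff i Q| := by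
        rw [Finset.sum_filter_of_ne]
        intro i _ hi
        by_contra hc
        apply hi
        rw [hQ, coeff_rv, if_neg hc, abs_zero]
      rw [h3]
      refine Finset.sum_le_sum_of_subset_of_nonneg ?_ fun _ _ _ => abs_nonneg _
      intro i hi
      have := (Finset.mem_filter.1 hi).2
      exact Finset.mem_range.2 (by omega)
    refine h2.trans (le_of_eq ?_)
    rw [hS]
    push_cast
    refine Finset.sum_congr rfl fun i hi => ?_
    rw [hQ, coeff_rv, if_pos (by have := Finset.mem_range.1 hi; omega)]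
    exact (hcast _).symm
  -- growth
  have hgrow : ∀ k, |PowerSeries.coeff k f| ≤ (S : ℚ) ^ (k + 1) := by
    intro k
    induction k using Nat.strong_induction_on with
    | _ k ih =>
      have h1 : |PowerSeries.coeff k f| ≤ |(t : ℚ)| * |PowerSeries.coeff k f| :=
        le_mul_of_one_le_left (abs_nonneg _) ht1
      refine h1.trans ?_
      rw [← abs_mul, hrec k]
      rcases Nat.eq_zero_or_pos k with hk | hk
      · subst hk
        simp
        exact hS1
      · rw [if_neg (by omega), zero_sub, abs_neg]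
        refine (Finset.abs_sum_le_sum_abs _ _).trans ?_
        have h2 : ∀ i ∈ Finset.range k,
            |PowerSeries.coeff (i + 1) Q * PowerSeries.coeff (k - 1 - i) f| ≤
            |PowerSeries.coeff (i + 1) Q| * (S : ℚ) ^ k := by
          intro i hi
          have hi' := Finset.mem_range.1 hi
          rw [abs_mul]
          refine mul_le_mul_of_nonneg_left ?_ (abs_nonneg _)
          refine (ih (k - 1 - i) (by omega)).trans ?_
          exact pow_le_pow_right₀ hS1q (by omega)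
        refine (Finset.sum_le_sum h2).trans ?_
        rw [← Finset.sum_mul, pow_succ']
        exact mul_le_mul_of_nonneg_right (hsum k) (by positivity)
  -- denominators
  have hden : ∀ k, ∃ z : ℤ, (t : ℚ) ^ (k + 1) * PowerSeries.coeff k f = z := by
    intro k
    induction k using Nat.strong_induction_on with
    | _ k ih =>
      have h1 : (t : ℚ) ^ (k + 1) * PowerSeries.coeff k f =
          (t : ℚ) ^ k * (if k = 0 then 1 else 0) - ∑ i ∈ Finset.range k,
            PowerSeries.coeff (i + 1) Q * ((t : ℚ) ^ i * ((t : ℚ) ^ (k - 1 - i + 1) *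
              PowerSeries.coeff (k - 1 - i) f)) := by
        rw [pow_succ, mul_assoc, hrec k, mul_sub, Finset.mul_sum]
        congr 1
        refine Finset.sum_congr rfl fun i hi => ?_
        have hi' := Finset.mem_range.1 hi
        have h2 : (t : ℚ) ^ k = (t : ℚ) ^ i * (t : ℚ) ^ (k - 1 - i + 1) := by
          rw [← pow_add]
          congr 1
          omega
        rw [h2]
        ring
      have h3 : ∀ i, ∃ z : ℤ, i ∈ Finset.range k → PowerSeries.coeff (i + 1) Q * ((t : ℚ) ^ i *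
          ((t : ℚ) ^ (k - 1 - i + 1) * PowerSeries.coeff (k - 1 - i) f)) = z := by
        intro i
        by_cases hi : i ∈ Finset.range k
        · obtain ⟨z, hz⟩ := ih (k - 1 - i) (by have := Finset.mem_range.1 hi; omega)
          rw [hQ, coeff_rv]
          split_ifs with h
          · exact ⟨P.coeff (n - (i + 1)) * (t ^ i * z), fun _ => by rw [hz]; push_cast; ring⟩
          · exact ⟨0, fun _ => by simp⟩
        · exact ⟨0, fun h => absurd h hi⟩
      choose z hz using h3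
      refine ⟨t ^ k * (if k = 0 then 1 else 0) - ∑ i ∈ Finset.range k, z i, ?_⟩
      rw [h1, Finset.sum_congr rfl hz]
      push_cast
      split_ifs <;> rfl
  refine ⟨S, f, hS1, ?_, hgrow, fun m => ?_⟩
  · rw [ps_rv (le_refl n), ← hQ]
    have h1 := congrArg ps hQf
    rw [Subst12.ps_mul] at h1
    rw [mul_comm, h1]
    exact map_one _
  · refine ⟨t.natAbs ^ (m + 1), pow_pos (Int.natAbs_pos.2 ht0) _, Nat.pow_le_pow_left htS _,
      fun j hj _ => ?_⟩
    obtain ⟨z, hz⟩ := hden j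
    have h1 : ∃ s : ℤ, ((t.natAbs : ℕ) : ℚ) = s * t := by
      rw [hcast]
      rcases abs_choice (t : ℚ) with h | h
      · exact ⟨1, by rw [h]; simp⟩
      · exact ⟨-1, by rw [h]; simp⟩
    obtain ⟨s, hs⟩ := h1
    refine ⟨s ^ (m + 1) * (t ^ (m - j) * z), ?_⟩
    push_cast
    rw [hs, mul_pow, ← hz]
    have h2 : (t : ℚ) ^ (m + 1) = (t : ℚ) ^ (m - j) * (t : ℚ) ^ (j + 1) := by
      rw [← pow_add]
      congr 1
      omega
    rw [h2]
    ring

variable {ι : Type} [Fintype ι] [DecidableEq ι]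

theorem W_bounds {Y W : Matrix ι ι (PowerSeries ℚ)} {H : ℕ} (hb : ∀ a b, GBound H (Y a b))
    (hd : GDen H (fun p : ι × ι => Y p.1 p.2)) {D κ : ℕ} {Z : Matrix ι ι ℤ[X]} (hκ : 1 ≤ κ)
    (hdeg : ∀ a b, (Z a b).natDegree ≤ D)
    (hco : ∀ a b, (Z a b).coeff D = if a = b then (κ : ℤ) else 0)
    (hW : (κ : ℚ) • pM Y = (xx ^ D • eM (zM Z)) * pM W) :
    ∃ H' : ℕ, 2 ≤ H' ∧ (∀ a b, GBound H' (W a b)) ∧ GDen H' (fun p : ι × ι => W p.1 p.2) := by
  obtain ⟨hdet, hdd⟩ := gauge_det hκ hdeg hco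
  obtain ⟨K, f, hK, hf, hfb, hfd⟩ := inv_bounds hdet
  have hfG : Geo f := ⟨max K 2, le_max_right _ _, BoundsAux.gbound_mono (le_max_left _ _) hfb,
    gden_mono (le_max_left _ _) hfd⟩
  have hYG : ∀ a b, Geo (Y a b) := by
    intro a b
    refine ⟨max H 2, le_max_right _ _, BoundsAux.gbound_mono (le_max_left _ _) (hb a b), fun n => ?_⟩
    obtain ⟨d, h1, h2, h3⟩ := hd n
    exact ⟨d, h1, h2.trans (Nat.pow_le_pow_left (le_max_left _ _) _), fun m hm _ => h3 m hm (a, b)⟩
  set V : Matrix ι ι (PowerSeries ℚ) := Matrix.of fun a b => rv D (Z a b) with hV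
  have hVp : xx ^ D • eM (zM Z) = pM V := by
    ext1 a b
    rw [Matrix.smul_apply, smul_eq_mul, eM_apply, pM_apply]
    exact ps_rv (hdeg a b)
  have hVG : ∀ a b, V a b ∈ geo := fun a b => geo_rv D (Z a b)
  -- the adjugate
  have hadj : ∀ a b, V.adjugate a b ∈ geo := by
    set V' : Matrix ι ι geo := Matrix.of fun a b => ⟨V a b, hVG a b⟩ with hV'
    have h1 : V = V'.map geo.subtype := by
      ext1 a b
      rfl
    intro a b
    have h2 := congrFun (congrFun (RingHom.map_adjugate geo.subtype V') a) b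
    rw [RingHom.mapMatrix_apply, RingHom.mapMatrix_apply, ← h1] at h2
    rw [← h2]
    exact (V'.adjugate a b).2
  -- the determinant
  have hdetV : ps f * ps V.det = 1 := by
    rw [← hf, hdd]
    congr 1
    have h1 : (pM V).det = ps V.det := by
      have : pM V = (HahnSeries.ofPowerSeries ℤ ℚ).mapMatrix V := rfl
      rw [this, ← RingHom.map_det]
      rfl
    have h2 : (eM (zM Z)).det = emb (Z.det.map (Int.castRingHom ℚ)) := by
      have h3 : eM (zM Z) = emb.mapMatrix ((Polynomial.mapRingHom (Int.castRingHom ℚ)).mapMatrix Z) :=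
        rfl
      rw [h3, ← RingHom.map_det, ← RingHom.map_det]
      rfl
    rw [← h1, ← hVp, Matrix.det_smul, h2, ← pow_mul]
  have hfV : f * V.det = 1 := by
    apply Subst12.ps_injective
    rw [Subst12.ps_mul, hdetV]
    exact (map_one _).symm
  have hW' : (κ : PowerSeries ℚ) • Y = V * W := by
    apply pM_injective
    rw [pM_mul, ← hVp, ← hW]
    ext1 a b
    rw [pM_apply, Matrix.smul_apply, Matrix.smul_apply, pM_apply, smul_eq_mul, Subst12.ps_mul]
    have h1 : ps (κ : PowerSeries ℚ) = algebraMap ℚ (LaurentSeries ℚ) (κ : ℚ) := by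
      rw [← Subst12.ps_C]
      congr 1
    rw [h1, algebraMap_eq_single, HahnSeries.single_zero_mul_eq_smul]
  have hWf : W = (f * (κ : PowerSeries ℚ)) • (V.adjugate * Y) := by
    have h1 := congrArg (fun M => V.adjugate * M) hW'
    rw [← Matrix.mul_assoc, Matrix.adjugate_mul, Matrix.smul_mul, Matrix.one_mul,
      Matrix.mul_smul] at h1
    rw [mul_smul, h1, smul_smul, hfV, one_smul]
  have hκG : (κ : PowerSeries ℚ) ∈ geo := natCast_mem geo κ
  have hWG : ∀ p : ι × ι, Geo (W p.1 p.2) := by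
    rintro ⟨a, b⟩
    rw [hWf]
    show (_ : PowerSeries ℚ) ∈ geo
    rw [Matrix.smul_apply, smul_eq_mul, Matrix.mul_apply]
    exact mul_mem (mul_mem hfG hκG) (sum_mem fun c _ => mul_mem (hadj a c) (hYG c b))
  obtain ⟨H', h1, h2, h3⟩ := geo_family hWG
  exact ⟨H', h1, fun a b => h2 (a, b), h3⟩

end Pool.Agent.Helper79.GC
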