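import Pool.Agent.Helper79.GC.Gauge
import Pool.Agent.Helper79.GC.GalDual
import Pool.Agent.Helper37.GP.AuxForms

/-!
# GC-45: the gauge transformed system

* `gauge_fund`: with `V = x^D Z` (invertible, `Z.det ≠ 0`), `κ Y = V W`, `Y' = g Y + x Y N`: `V' W + V W' = g V W + x V W N`, so
  `W' = (V⁻¹ g V - V⁻¹ V') W + x W N`, and `V⁻¹ g V - V⁻¹ V' = (emb gT)⁻¹ • eM gA` (`gauge_eq`); `isFund_iff`.
* `gauge_deg`: degree count: with `τ = deg T`, `r = card ι`, `deg gT = D + 1 + τ + 2 r D`, and each of the three terms of `gA` has degree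
  `≤ D + τ + 2 r D` (entries of `adj Z` have degree `≤ (r-1) D`; when `r = 1` the adjugate is `1`).
* `gauge_mem`: `(emb gT)⁻¹ • eM gA = (W' - x W N) W⁻¹`, all coefficients in `GG` (closed under products, sums; `W⁻¹` has coefficients in
  `GG` by the recursion), multiply by the Laurent series `emb gT`; `coM n gA = coL (-n) (eM gA)`.
-/

open Polynomial

namespace Pool.Agent.Helper79.GC

open Pool.Agent.Helper37.GP

variable {ι : Type} [Fintype ι] [DecidableEq ι]

private theorem gf_gT_ne {T : ℤ[X]} (hT : T ≠ 0) {D : ℕ} {Z : Matrix ι ι ℤ[X]} (hZ : Z.det ≠ 0) :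
    gT T Z D ≠ 0 := by
  unfold gT
  exact mul_ne_zero (mul_ne_zero (pow_ne_zero _ X_ne_zero) hT) (pow_ne_zero _ hZ)

private theorem gf_map_ne {P : ℤ[X]} (hP : P ≠ 0) : P.map (Int.castRingHom ℚ) ≠ 0 := fun h =>
  hP ((Polynomial.map_eq_zero_iff (Int.castRingHom ℚ).injective_int).1 h)

theorem gauge_fund {T : ℤ[X]} (hT : T ≠ 0) {A : Matrix ι ι ℚ[X]}
    {Y W : Matrix ι ι (PowerSeries ℚ)} {N : Matrix ι ι ℚ}
    (h : IsFund (T.map (Int.castRingHom ℚ)) A Y N) {D κ : ℕ} {Z : Matrix ι ι ℤ[X]} (hκ : 1 ≤ κ)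
    (hZ : Z.det ≠ 0) (hW : (κ : ℚ) • pM Y = (xx ^ D • eM (zM Z)) * pM W) :
    IsFund ((gT T Z D).map (Int.castRingHom ℚ)) (gA T A Z D) W N := by
  rw [isFund_iff (gf_map_ne (gf_gT_ne hT hZ))]
  rw [isFund_iff (gf_map_ne hT)] at h
  obtain ⟨V, hV⟩ : ∃ V, V = xx ^ D • eM (Z.map (Polynomial.map (Int.castRingHom ℚ))) := ⟨_, rfl⟩
  obtain ⟨V', hV'⟩ : ∃ V', V' = (emb X ^ D * (emb (Z.det.map (Int.castRingHom ℚ)))⁻¹) •
      eM (Z.map (Polynomial.map (Int.castRingHom ℚ))).adjugate := ⟨_, rfl⟩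
  have h1 : V * V' = 1 := by rw [hV, hV']; exact inv_explicit Z hZ D
  have h2 : V' * V = 1 := by rw [hV, hV']; exact inv_explicit' Z hZ D
  rw [gauge_eq hT A Z hZ D V V' hV h1 h2]
  have hW' : (κ : ℚ) • pM Y = V * pM W := by rw [hW, hV]; rfl
  obtain ⟨g, hg⟩ : ∃ g, g = (emb (T.map (Int.castRingHom ℚ)))⁻¹ • eM A := ⟨_, rfl⟩
  rw [← hg] at h ⊢
  have e := congrArg dM hW'
  rw [dM_ratsmul, dM_mul, h, smul_add, ← Matrix.mul_smul, smul_comm, ← Matrix.smul_mul, hW'] at e
  have e2 : V * dM (pM W) = g * (V * pM W) + xx • (V * pM W * cM N) - dM V * pM W := by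
    rw [e]
    abel
  have e3 : dM (pM W) = V' * (V * dM (pM W)) := by
    rw [← mul_assoc, h2, one_mul]
  rw [e3, e2, mul_sub, mul_add, sub_mul, Matrix.mul_smul]
  have e4 : V' * (V * pM W * cM N) = pM W * cM N := by
    rw [mul_assoc V, ← mul_assoc V', h2, one_mul]
  rw [e4]
  simp only [mul_assoc]
  abel

/-- degree of a determinant with a bound for each row -/
private theorem gf_det_deg {R : Type} [CommRing R] (M : Matrix ι ι R[X]) (δ : ι → ℕ)
    (h : ∀ a b, (M a b).natDegree ≤ δ a) : M.det.natDegree ≤ ∑ a, δ a := by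
  rw [Matrix.det_apply]
  refine natDegree_sum_le_of_forall_le _ _ fun σ _ => ?_
  have h1 : (∏ i, M (σ i) i).natDegree ≤ ∑ a, δ a := by
    exact (natDegree_prod_le _ _).trans
      ((Finset.sum_le_sum fun i _ => h (σ i) i).trans (le_of_eq (Equiv.sum_comp σ δ)))
  rcases Int.units_eq_one_or (Equiv.Perm.sign σ) with h2 | h2
  · rw [h2, one_smul]
    exact h1
  · rw [h2, Units.neg_smul, one_smul, natDegree_neg]
    exact h1

private theorem gf_adj_deg {R : Type} [CommRing R] {D : ℕ} (M : Matrix ι ι R[X])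
    (h : ∀ a b, (M a b).natDegree ≤ D) (i j : ι) :
    (M.adjugate i j).natDegree ≤ D * (Fintype.card ι - 1) := by
  rw [Matrix.adjugate_apply]
  refine (gf_det_deg _ (fun a => if a = j then 0 else D) ?_).trans ?_
  · intro a b
    by_cases ha : a = j
    · subst ha
      rw [Matrix.updateRow_self, if_pos rfl, Pi.single_apply]
      split_ifs <;> simp
    · rw [Matrix.updateRow_ne ha, if_neg ha]
      exact h a b
  · rw [← Finset.add_sum_erase _ _ (Finset.mem_univ j), if_pos rfl, zero_add]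
    rw [Finset.sum_congr rfl (fun a ha => if_neg (Finset.ne_of_mem_erase ha)), Finset.sum_const,
      Finset.card_erase_of_mem (Finset.mem_univ j), Finset.card_univ, smul_eq_mul, mul_comm]

private theorem gf_mul_deg {R : Type} [CommRing R] {m n : ℕ} (M M' : Matrix ι ι R[X])
    (h : ∀ a b, (M a b).natDegree ≤ m) (h' : ∀ a b, (M' a b).natDegree ≤ n) (a b : ι) :
    ((M * M') a b).natDegree ≤ m + n := by
  rw [Matrix.mul_apply]
  refine natDegree_sum_le_of_forall_le _ _ fun c _ => ?_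
  exact natDegree_mul_le.trans (add_le_add (h a c) (h' c b))

theorem gauge_deg {T : ℤ[X]} (hT : T ≠ 0) {A : Matrix ι ι ℚ[X]}
    (hA : ∀ a b, (A a b).natDegree + 1 ≤ T.natDegree) {D κ : ℕ} {Z : Matrix ι ι ℤ[X]}
    (hκ : 1 ≤ κ) (hdeg : ∀ a b, (Z a b).natDegree ≤ D)
    (hco : ∀ a b, (Z a b).coeff D = if a = b then (κ : ℤ) else 0) (a b : ι) :
    (gA T A Z D a b).natDegree + 1 ≤ (gT T Z D).natDegree := by
  obtain ⟨hZ, hZd⟩ := gauge_det hκ hdeg hco
  obtain ⟨τ, hτ⟩ : ∃ τ, T.natDegree = τ := ⟨_, rfl⟩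
  obtain ⟨r, hr⟩ : ∃ r, Fintype.card ι = r + 1 := by
    have : 0 < Fintype.card ι := Fintype.card_pos_iff.2 ⟨a⟩
    exact ⟨Fintype.card ι - 1, by omega⟩
  have hgT : (gT T Z D).natDegree = D + 1 + τ + 2 * (D * (r + 1)) := by
    unfold gT
    rw [natDegree_mul (mul_ne_zero (pow_ne_zero _ X_ne_zero) hT) (pow_ne_zero _ hZ),
      natDegree_mul (pow_ne_zero _ X_ne_zero) hT, natDegree_pow, natDegree_X, natDegree_pow, hZd,
      hr, hτ, mul_one]
  rw [hgT]
  have hτ1 : 1 ≤ τ := by
    have := hA a b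
    omega
  obtain ⟨τ', hτ'⟩ : ∃ τ', τ = τ' + 1 := ⟨τ - 1, by omega⟩
  have hA' : ∀ a b, (A a b).natDegree ≤ τ' := by
    intro c d
    have := hA c d
    omega
  have hZ' : ∀ c d, ((Z.map (Polynomial.map (Int.castRingHom ℚ))) c d).natDegree ≤ D :=
    fun c d => (natDegree_map_le).trans (hdeg c d)
  have hadj := gf_adj_deg _ hZ'
  rw [hr, Nat.add_sub_cancel] at hadj
  have hdet : (Z.map (Polynomial.map (Int.castRingHom ℚ))).det.natDegree ≤ D * (r + 1) := by
    rw [det_map_int]
    refine natDegree_map_le.trans ?_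
    rw [hZd, hr]
  have hT' : (T.map (Int.castRingHom ℚ)).natDegree ≤ τ' + 1 := by
    refine natDegree_map_le.trans ?_
    omega
  have hXD : ∀ k : ℕ, ((X : ℚ[X]) ^ k).natDegree ≤ k := fun k => by rw [natDegree_X_pow]
  suffices hs : (gA T A Z D a b).natDegree ≤ D + (τ' + 1) + 2 * (D * (r + 1)) by omega
  unfold gA
  rw [Matrix.add_apply, Matrix.sub_apply]
  refine natDegree_add_le_of_degree_le ((natDegree_sub_le_of_le ?_ ?_).trans (max_self _).le) ?_
  · rw [Matrix.smul_apply, smul_eq_mul]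
    have h1 := gf_mul_deg _ _ (gf_mul_deg _ _ hadj hA') hZ' a b
    refine (natDegree_mul_le.trans (add_le_add (natDegree_mul_le.trans
      (add_le_add (hXD (D + 1)) hdet)) h1)).trans (le_of_eq ?_)
    ring
  · rw [Matrix.smul_apply, smul_eq_mul]
    rcases Nat.eq_zero_or_pos D with hD | hD
    · have h0 : (Z.map (Polynomial.map (Int.castRingHom ℚ))).map derivative = 0 := by
        ext1 c d
        rw [Matrix.map_apply, Matrix.zero_apply]
        have h1 := hZ' c d
        rw [hD] at h1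
        rw [eq_C_of_natDegree_le_zero h1, derivative_C]
      rw [h0, Matrix.mul_zero, Matrix.zero_apply, mul_zero, natDegree_zero]
      exact Nat.zero_le _
    · obtain ⟨D', rfl⟩ : ∃ D', D = D' + 1 := ⟨D - 1, by omega⟩
      have hder : ∀ c d, (((Z.map (Polynomial.map (Int.castRingHom ℚ))).map derivative)
          c d).natDegree ≤ D' := by
        intro c d
        rw [Matrix.map_apply]
        refine (natDegree_derivative_le _).trans ?_
        have := hZ' c d
        omega
      have h1 := gf_mul_deg _ _ hadj hder a b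
      refine (natDegree_mul_le.trans (add_le_add (natDegree_mul_le.trans (add_le_add
        (natDegree_mul_le.trans (add_le_add (hXD (D' + 1 + 1)) hT')) hdet)) h1)).trans
          (le_of_eq ?_)
      ring
  · rw [Matrix.smul_apply, smul_eq_mul]
    have h1 : ((1 : Matrix ι ι ℚ[X]) a b).natDegree ≤ 0 := by
      rw [Matrix.one_apply]
      split_ifs <;> simp
    have h2 : ((D : ℚ[X])).natDegree ≤ 0 := by
      rw [natDegree_natCast]
    have h3 : ((Z.map (Polynomial.map (Int.castRingHom ℚ))).det ^ 2).natDegree ≤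
        2 * (D * (r + 1)) := natDegree_pow_le.trans (Nat.mul_le_mul_left 2 hdet)
    refine (natDegree_mul_le.trans (add_le_add (natDegree_mul_le.trans (add_le_add
      (natDegree_mul_le.trans (add_le_add (natDegree_mul_le.trans (add_le_add h2 (hXD D))) hT'))
        h3)) h1)).trans (le_of_eq ?_)
    ring

/-! ### Coefficients -/

private theorem gf_coP_mul (F G : Matrix ι ι (PowerSeries ℚ)) (n : ℕ) :
    coP n (F * G) = ∑ x ∈ Finset.HasAntidiagonal.antidiagonal n, coP x.1 F * coP x.2 G := by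
  ext a b
  rw [coP_apply, Matrix.mul_apply, map_sum, Matrix.sum_apply]
  simp only [PowerSeries.coeff_mul, Matrix.mul_apply, coP_apply]
  rw [Finset.sum_comm]

private theorem gf_coP_sub (F G : Matrix ι ι (PowerSeries ℚ)) (n : ℕ) :
    coP n (F - G) = coP n F - coP n G := by
  ext a b
  rw [coP_apply, Matrix.sub_apply, map_sub, Matrix.sub_apply, coP_apply, coP_apply]

section Mem

variable {T : ℚ[X]} {A : Matrix ι ι ℚ[X]} {Y : Matrix ι ι (PowerSeries ℚ)} {N : Matrix ι ι ℚ}

private theorem gf_mul_mem (hT : T ≠ 0) (h : IsFund T A Y N) {F G : Matrix ι ι (PowerSeries ℚ)}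
    (hF : ∀ n, coP n F ∈ GG Y N) (hG : ∀ n, coP n G ∈ GG Y N) (n : ℕ) :
    coP n (F * G) ∈ GG Y N := by
  rw [gf_coP_mul]
  exact gg_sum _ fun x _ => gg_mul hT h (hF _) (hG _)

private theorem gf_inv_mem (hT : T ≠ 0) (h : IsFund T A Y N) {F G : Matrix ι ι (PowerSeries ℚ)}
    (hF : ∀ n, coP n F ∈ GG Y N) (hF0 : coP 0 F = 1) (hFG : F * G = 1) (n : ℕ) :
    coP n G ∈ GG Y N := by
  induction n using Nat.strong_induction_on with
  | _ n ih =>
    have h1 := gf_coP_mul F G n
    rw [hFG, ← Finset.add_sum_erase _ _ (show ((0 : ℕ), n) ∈ Finset.HasAntidiagonal.antidiagonal n by simp)] at h1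
    simp only [hF0, one_mul] at h1
    have h2 : coP n G = coP n (1 : Matrix ι ι (PowerSeries ℚ)) -
        ∑ x ∈ (Finset.HasAntidiagonal.antidiagonal n).erase (0, n), coP x.1 F * coP x.2 G := by
      rw [h1]
      abel
    rw [h2]
    refine gg_sub ?_ (gg_sum _ fun x hx => gg_mul hT h (hF _) (ih _ ?_))
    · rcases Nat.eq_zero_or_pos n with hn | hn
      · have h3 : coP n (1 : Matrix ι ι (PowerSeries ℚ)) = 1 := by
          ext a b
          rw [coP_apply, Matrix.one_apply, Matrix.one_apply, hn]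
          split_ifs <;> simp
        rw [h3]
        exact gg_one
      · have h3 : coP n (1 : Matrix ι ι (PowerSeries ℚ)) = 0 := by
          ext a b
          rw [coP_apply, Matrix.one_apply, Matrix.zero_apply]
          split_ifs
          · rw [PowerSeries.coeff_one, if_neg (by omega)]
          · rw [map_zero]
        rw [h3]
        exact gg_zero
    · rw [Finset.mem_erase, Finset.HasAntidiagonal.mem_antidiagonal] at hx
      by_contra hcon
      apply hx.1
      have h4 : x.1 = 0 := by omega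
      have h5 : x.2 = n := by omega
      exact Prod.ext h4 h5

end Mem

theorem gauge_mem {T : ℤ[X]} (hT : T ≠ 0) {A : Matrix ι ι ℚ[X]}
    {Y W : Matrix ι ι (PowerSeries ℚ)} {N : Matrix ι ι ℚ}
    (h : IsFund (T.map (Int.castRingHom ℚ)) A Y N) {D κ : ℕ} {Z : Matrix ι ι ℤ[X]} (hκ : 1 ≤ κ)
    (hZ : Z.det ≠ 0) (hW : (κ : ℚ) • pM Y = (xx ^ D • eM (zM Z)) * pM W) (hW0 : coP 0 W = 1)
    (hWG : ∀ n, coP n W ∈ GG Y N) (n : ℕ) : coM n (gA T A Z D) ∈ GG Y N := by
  have hT' := gf_map_ne hT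
  have hF := gauge_fund hT h hκ hZ hW
  rw [isFund_iff (gf_map_ne (gf_gT_ne hT hZ))] at hF
  have hNG : N ∈ GG Y N := by
    have := gg_left hT' h (gg_one (Y := Y) (N := N))
    rwa [mul_one] at this
  have hu := pM_isUnit hW0
  obtain ⟨G, hG⟩ : ∃ G, G = W⁻¹ := ⟨_, rfl⟩
  have hWG1 : W * G = 1 := by rw [hG]; exact Matrix.mul_nonsing_inv W hu
  have hGm := gf_inv_mem hT' h hWG hW0 hWG1
  obtain ⟨dW, hdW⟩ : ∃ dW : Matrix ι ι (PowerSeries ℚ),
      dW = W.map fun f => -(PowerSeries.X ^ 2 * PowerSeries.derivative ℚ f) := ⟨_, rfl⟩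
  have e1 : dM (pM W) = pM dW := by
    ext1 a b
    rw [dM_apply, pM_apply, pM_apply, Subst12.dd_ps, hdW, Matrix.map_apply]
    exact (map_neg (HahnSeries.ofPowerSeries ℤ ℚ) _).symm
  obtain ⟨xN, hxN⟩ : ∃ xN : Matrix ι ι (PowerSeries ℚ),
      xN = (PowerSeries.X : PowerSeries ℚ) • (W * cP N) := ⟨_, rfl⟩
  have e2 : xx • (pM W * cM N) = pM xN := by
    rw [← pM_cP, ← pM_mul, hxN]
    ext1 a b
    rw [Matrix.smul_apply, pM_apply, pM_apply, Matrix.smul_apply, smul_eq_mul, smul_eq_mul,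
      Subst12.ps_mul, Subst12.ps_X]
    rfl
  obtain ⟨B, hB⟩ : ∃ B : Matrix ι ι (PowerSeries ℚ), B = (dW - xN) * G := ⟨_, rfl⟩
  have hpsub : ∀ P Q : Matrix ι ι (PowerSeries ℚ), pM (P - Q) = pM P - pM Q := by
    intro P Q
    ext1 a b
    rw [pM_apply, Matrix.sub_apply, Matrix.sub_apply, pM_apply, pM_apply]
    exact map_sub (HahnSeries.ofPowerSeries ℤ ℚ) _ _
  have e3 : (emb ((gT T Z D).map (Int.castRingHom ℚ)))⁻¹ • eM (gA T A Z D) = pM B := by
    have h1 : pM (dW - xN) =
        ((emb ((gT T Z D).map (Int.castRingHom ℚ)))⁻¹ • eM (gA T A Z D)) * pM W := by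
      rw [hpsub, ← e1, ← e2, hF]
      abel
    rw [hB, pM_mul, h1, mul_assoc, ← pM_mul, hWG1, pM_one, mul_one]
  have e4 : eM (gA T A Z D) = emb ((gT T Z D).map (Int.castRingHom ℚ)) • pM B := by
    rw [← e3, smul_smul, mul_inv_cancel₀ (emb_map_ne_zero (gf_gT_ne hT hZ)), one_smul]
  -- coefficients of `B`
  have hdWm : ∀ m, coP m dW ∈ GG Y N := by
    intro m
    match m with
    | 0 =>
      have : coP 0 dW = 0 := by
        ext a b
        rw [coP_apply, hdW, Matrix.map_apply, map_neg, Matrix.zero_apply,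
          PowerSeries.coeff_X_pow_mul']
        simp
      rw [this]
      exact gg_zero
    | 1 =>
      have : coP 1 dW = 0 := by
        ext a b
        rw [coP_apply, hdW, Matrix.map_apply, map_neg, Matrix.zero_apply,
          PowerSeries.coeff_X_pow_mul']
        simp
      rw [this]
      exact gg_zero
    | (m + 2) =>
      have : coP (m + 2) dW = (-((m : ℚ) + 1)) • coP (m + 1) W := by
        ext a b
        rw [coP_apply, hdW, Matrix.map_apply, map_neg, PowerSeries.coeff_X_pow_mul,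
          PowerSeries.coeff_derivative, Matrix.smul_apply, coP_apply, smul_eq_mul]
        ring
      rw [this]
      exact gg_smul _ (hWG _)
  have hWN : ∀ m, coP m (W * cP N) = coP m W * N := by
    intro m
    ext a b
    rw [coP_apply, Matrix.mul_apply, map_sum, Matrix.mul_apply]
    refine Finset.sum_congr rfl fun c _ => ?_
    rw [cP_apply, PowerSeries.coeff_mul_C, coP_apply]
  have hxNm : ∀ m, coP m xN ∈ GG Y N := by
    intro m
    cases m with
    | zero =>
      have : coP 0 xN = 0 := by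
        ext a b
        rw [coP_apply, hxN, Matrix.smul_apply, smul_eq_mul, Matrix.zero_apply,
          PowerSeries.coeff_zero_X_mul]
      rw [this]
      exact gg_zero
    | succ m =>
      have : coP (m + 1) xN = coP m W * N := by
        rw [← hWN]
        ext a b
        rw [coP_apply, hxN, Matrix.smul_apply, smul_eq_mul, coP_apply,
          PowerSeries.coeff_succ_X_mul]
      rw [this]
      exact gg_mul hT' h (hWG _) hNG
  have hBm : ∀ m, coP m B ∈ GG Y N := by
    intro m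
    rw [hB]
    refine gf_mul_mem hT' h (fun m => ?_) hGm m
    rw [gf_coP_sub]
    exact gg_sub (hdWm m) (hxNm m)
  have hBL : ∀ m : ℤ, coL m (pM B) ∈ GG Y N := by
    intro m
    rcases lt_or_ge m 0 with hm | hm
    · have : coL m (pM B) = 0 := by
        ext a b
        rw [coL_apply, pM_apply, ps_coeff, if_pos hm, Matrix.zero_apply]
      rw [this]
      exact gg_zero
    · have : coL m (pM B) = coP m.natAbs B := by
        ext a b
        rw [coL_apply, pM_apply, ps_coeff, if_neg (by omega), coP_apply]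
      rw [this]
      exact hBm _
  have e5 : coM n (gA T A Z D) =
      ∑ i ∈ Finset.range (((gT T Z D).map (Int.castRingHom ℚ)).natDegree + 1),
        ((gT T Z D).map (Int.castRingHom ℚ)).coeff i • coL (-(n : ℤ) + i) (pM B) := by
    ext a b
    rw [coM_apply, ← emb_coeff_neg, ← eM_apply, e4, Matrix.smul_apply, smul_eq_mul,
      coeff_emb_mul le_rfl, Matrix.sum_apply]
    refine Finset.sum_congr rfl fun i _ => ?_
    rw [Matrix.smul_apply, smul_eq_mul, coL_apply]
  rw [e5]
  exact gg_sum _ fun i _ => gg_smul _ (hBL _)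

end Pool.Agent.Helper79.GC
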