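import Pool.Agent.Helper79.GC.Defs3
import Pool.Agent.Helper79.GC.GalAdd
import Pool.Agent.Helper79.GC.Slot

/-!
# GC-59: the system for the words

* `word_gal`: `beta T (lett A) j = lett (beta T A j)` for `j ≥ 1` (and `1` for `j = 0`): the same denominators; `gal_slot`; `gal_add` by
  induction over the slots (coefficient matrices in different slots commute, `slot_comm`), `gal_zero` for the empty sum.
* `word_res`: `coM` is additive; leading coefficients. (`1 ≤ natDegree T` is needed when `δ = 0` or `ι` is empty.)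
* `word_sol`: product rule for `∏_j ltr (P t) (α j)`; the derivative of the letter `(i,k)` is `T(t)⁻¹ ∑_j A_ij(t) P_jk(t)`, of `none` is `0`.
* `par_comm`: entries `(α, β)` of `wordM δ A` vanish unless `α` and `β` have the same positions of `none`.
-/

open Polynomial Filter Topology

namespace Pool.Agent.Helper79.GC

open Pool.Agent.Helper37.GP

set_option linter.unusedSectionVars false

variable {ι : Type} [Fintype ι] [DecidableEq ι]

/-! ### letters -/

private theorem ws_lett_none_left {S : Type} [Zero S] (A : Matrix ι ι S)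
    (q : Option (ι × ι)) : lett A none q = 0 := by
  rcases q with _ | q <;> rfl

private theorem ws_lett_none_right {S : Type} [Zero S] (A : Matrix ι ι S)
    (p : Option (ι × ι)) : lett A p none = 0 := by
  rcases p with _ | p <;> rfl

private theorem ws_lett_some {S : Type} [Zero S] (A : Matrix ι ι S) (i k j l : ι) :
    lett A (some (i, k)) (some (j, l)) = if k = l then A i j else 0 := rfl

private theorem ws_lett_cases {S : Type} [Zero S] (A : Matrix ι ι S) (p q : Option (ι × ι)) :
    lett A p q = 0 ∨ ∃ i j, lett A p q = A i j := by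
  rcases p with _ | ⟨i, k⟩
  · exact Or.inl (ws_lett_none_left A q)
  · rcases q with _ | ⟨j, l⟩
    · exact Or.inl (ws_lett_none_right A _)
    · rw [ws_lett_some]
      by_cases h : k = l
      · exact Or.inr ⟨i, j, by rw [if_pos h]⟩
      · exact Or.inl (by rw [if_neg h])

private theorem ws_lett_map {S S' : Type} [Zero S] [Zero S'] (f : S → S') (hf : f 0 = 0)
    (A : Matrix ι ι S) : (lett A).map f = lett (A.map f) := by
  ext1 p q
  rw [Matrix.map_apply]
  rcases p with _ | ⟨i, k⟩
  · rw [ws_lett_none_left, ws_lett_none_left, hf]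
  · rcases q with _ | ⟨j, l⟩
    · rw [ws_lett_none_right, ws_lett_none_right, hf]
    · rw [ws_lett_some, ws_lett_some]
      by_cases h : k = l
      · rw [if_pos h, if_pos h, Matrix.map_apply]
      · rw [if_neg h, if_neg h, hf]

section Ring

variable {S : Type} [CommRing S]

private theorem ws_lett_add (A B : Matrix ι ι S) : lett (A + B) = lett A + lett B := by
  ext1 p q
  rw [Matrix.add_apply]
  rcases p with _ | ⟨i, k⟩
  · rw [ws_lett_none_left, ws_lett_none_left, ws_lett_none_left, add_zero]
  · rcases q with _ | ⟨j, l⟩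
    · rw [ws_lett_none_right, ws_lett_none_right, ws_lett_none_right, add_zero]
    · rw [ws_lett_some, ws_lett_some, ws_lett_some]
      by_cases h : k = l
      · rw [if_pos h, if_pos h, if_pos h, Matrix.add_apply]
      · rw [if_neg h, if_neg h, if_neg h, add_zero]

private theorem ws_lett_sub (A B : Matrix ι ι S) : lett (A - B) = lett A - lett B := by
  ext1 p q
  rw [Matrix.sub_apply]
  rcases p with _ | ⟨i, k⟩
  · rw [ws_lett_none_left, ws_lett_none_left, ws_lett_none_left, sub_zero]
  · rcases q with _ | ⟨j, l⟩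
    · rw [ws_lett_none_right, ws_lett_none_right, ws_lett_none_right, sub_zero]
    · rw [ws_lett_some, ws_lett_some, ws_lett_some]
      by_cases h : k = l
      · rw [if_pos h, if_pos h, if_pos h, Matrix.sub_apply]
      · rw [if_neg h, if_neg h, if_neg h, sub_zero]

private theorem ws_lett_smul (c : S) (A : Matrix ι ι S) : lett (c • A) = c • lett A := by
  ext1 p q
  rw [Matrix.smul_apply]
  rcases p with _ | ⟨i, k⟩
  · rw [ws_lett_none_left, ws_lett_none_left, smul_zero]
  · rcases q with _ | ⟨j, l⟩
    · rw [ws_lett_none_right, ws_lett_none_right, smul_zero]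
    · rw [ws_lett_some, ws_lett_some]
      by_cases h : k = l
      · rw [if_pos h, if_pos h, Matrix.smul_apply]
      · rw [if_neg h, if_neg h, smul_zero]

private theorem ws_lett_neg (A : Matrix ι ι S) : lett (-A) = -lett A := by
  have h := ws_lett_smul (-1 : S) A
  rwa [neg_one_smul, neg_one_smul] at h

private theorem ws_sum_option (f : Option (ι × ι) → S) :
    ∑ q, f q = f none + ∑ i, ∑ k, f (some (i, k)) := by
  rw [Fintype.sum_option, Fintype.sum_prod_type]

private theorem ws_lett_mul (A B : Matrix ι ι S) : lett A * lett B = lett (A * B) := by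
  ext1 p q
  rw [Matrix.mul_apply, ws_sum_option, ws_lett_none_right, zero_mul, zero_add]
  rcases p with _ | ⟨i, k⟩
  · rw [ws_lett_none_left]
    refine Finset.sum_eq_zero fun j _ => Finset.sum_eq_zero fun l _ => ?_
    rw [ws_lett_none_left, zero_mul]
  · rcases q with _ | ⟨j, l⟩
    · rw [ws_lett_none_right]
      refine Finset.sum_eq_zero fun j _ => Finset.sum_eq_zero fun l _ => ?_
      rw [ws_lett_none_right B, mul_zero]
    · rw [ws_lett_some]
      simp only [ws_lett_some]
      by_cases h : k = l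
      · subst h
        rw [if_pos rfl, Matrix.mul_apply]
        refine Finset.sum_congr rfl fun m _ => ?_
        rw [Finset.sum_eq_single k]
        · rw [if_pos rfl, if_pos rfl]
        · intro b _ hb
          rw [if_neg (Ne.symm hb), zero_mul]
        · intro h
          exact absurd (Finset.mem_univ k) h
      · rw [if_neg h]
        refine Finset.sum_eq_zero fun m _ => Finset.sum_eq_zero fun b _ => ?_
        by_cases h1 : k = b
        · subst h1
          rw [if_neg h, mul_zero]
        · rw [if_neg h1, zero_mul]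

end Ring

/-! ### Galochkin's condition -/

private theorem ws_beta_one {κ : Type} [Fintype κ] [DecidableEq κ] (T : ℚ[X])
    (B : Matrix κ κ ℚ[X]) : beta T B 1 = B := by
  rw [beta, beta]
  have h : (1 : Matrix κ κ ℚ[X]).map derivative = 0 := by
    ext1 a b
    by_cases h : a = b
    · subst h
      simp
    · simp [h]
  rw [h, smul_zero, one_mul]
  simp

private theorem ws_beta_lett (T : ℚ[X]) (A : Matrix ι ι ℚ[X]) (j : ℕ) :
    beta T (lett A) (j + 1) = lett (beta T A (j + 1)) := by
  induction j with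
  | zero => rw [zero_add, ws_beta_one, ws_beta_one]
  | succ j ih =>
    rw [beta, ih, beta.eq_2 T A (j + 1), ws_lett_map _ (map_zero _), ws_lett_mul, ← ws_lett_smul,
      ← ws_lett_smul, ← ws_lett_sub, ← ws_lett_add, ← ws_lett_smul]

private theorem ws_intBy_zero (q : ℕ) : IntBy q 0 := by
  intro m
  exact ⟨0, by simp⟩

private theorem ws_intBy_one (q : ℕ) : IntBy q 1 := by
  intro m
  rw [coeff_one]
  by_cases h : m = 0
  · exact ⟨(q : ℤ), by rw [if_pos h]; simp⟩
  · exact ⟨0, by rw [if_neg h]; simp⟩

private theorem ws_gal_lett {T : ℚ[X]} {A : Matrix ι ι ℚ[X]} {H : ℕ} (h : Galochkin T A H) :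
    Galochkin T (lett A) H := by
  intro n
  obtain ⟨q, hq, hqH, hint⟩ := h n
  refine ⟨q, hq, hqH, fun i hi α β => ?_⟩
  rcases i with _ | i
  · rw [beta, Matrix.one_apply]
    split_ifs
    · exact ws_intBy_one q
    · exact ws_intBy_zero q
  · rw [ws_beta_lett]
    rcases ws_lett_cases (beta T A (i + 1)) α β with h0 | ⟨a, b, h0⟩
    · rw [h0]
      exact ws_intBy_zero q
    · rw [h0]
      exact hint (i + 1) hi a b

private theorem ws_beta_zero {κ : Type} [Fintype κ] [DecidableEq κ] (T : ℚ[X]) (j : ℕ) :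
    beta T (0 : Matrix κ κ ℚ[X]) (j + 1) = 0 := by
  induction j with
  | zero => rw [zero_add, ws_beta_one]
  | succ j ih =>
    rw [beta, ih]
    have h : (0 : Matrix κ κ ℚ[X]).map derivative = 0 := by
      ext1 a b
      simp
    rw [h]
    simp

private theorem ws_gal_zero {κ : Type} [Fintype κ] [DecidableEq κ] (T : ℚ[X]) :
    Galochkin T (0 : Matrix κ κ ℚ[X]) 1 := by
  intro n
  refine ⟨1, one_pos, by simp, fun i _ a b => ?_⟩
  rcases i with _ | i
  · rw [beta, Matrix.one_apply]
    split_ifs
    · exact ws_intBy_one 1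
    · exact ws_intBy_zero 1
  · rw [ws_beta_zero]
    exact ws_intBy_zero 1

private theorem ws_coM_zero {κ : Type} (n : ℕ) : coM n (0 : Matrix κ κ ℚ[X]) = 0 := by
  ext1 a b
  rw [coM_apply]
  simp

private theorem ws_coM_add {κ : Type} (n : ℕ) (A B : Matrix κ κ ℚ[X]) :
    coM n (A + B) = coM n A + coM n B := by
  ext1 a b
  rw [coM_apply, Matrix.add_apply, Matrix.add_apply, coM_apply, coM_apply, coeff_add]

private theorem ws_coM_sum {κ α : Type} (n : ℕ) (s : Finset α) (B : α → Matrix κ κ ℚ[X]) :
    coM n (∑ i ∈ s, B i) = ∑ i ∈ s, coM n (B i) := by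
  classical
  induction s using Finset.induction_on with
  | empty => rw [Finset.sum_empty, Finset.sum_empty, ws_coM_zero]
  | insert a s ha ih => rw [Finset.sum_insert ha, Finset.sum_insert ha, ws_coM_add, ih]

private theorem ws_gal_sum {T : ℚ[X]} (hT : T ≠ 0) {κ δ : Type} [Fintype κ] [DecidableEq κ]
    [Fintype δ] [DecidableEq δ] {L : Matrix κ κ ℚ[X]} {H : ℕ} (h : Galochkin T L H)
    (s : Finset δ) : ∃ H' : ℕ, Galochkin T (∑ j ∈ s, slot j L) H' := by
  induction s using Finset.induction_on with
  | empty => exact ⟨1, by rw [Finset.sum_empty]; exact ws_gal_zero T⟩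
  | insert a s ha ih =>
    obtain ⟨H', hH'⟩ := ih
    rw [Finset.sum_insert ha]
    refine ⟨H * H', gal_add hT ?_ (gal_slot h a) hH'⟩
    intro m n
    rw [ws_coM_sum, Finset.mul_sum, Finset.sum_mul]
    refine Finset.sum_congr rfl fun i hi => ?_
    have hai : a ≠ i := by
      rintro rfl
      exact ha hi
    rw [coM_slot, coM_slot, slot_comm hai]

theorem word_gal {T : ℚ[X]} (hT : T ≠ 0) {A : Matrix ι ι ℚ[X]} {H : ℕ} (h : Galochkin T A H)
    (δ : ℕ) : ∃ H' : ℕ, Galochkin T (wordM δ A) H' :=
  ws_gal_sum hT (ws_gal_lett h) Finset.univ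

/-! ### residues -/

theorem word_res {T : ℚ[X]} {A : Matrix ι ι ℚ[X]} {N : Matrix ι ι ℚ} (h : IsRes T A N)
    (hT : 1 ≤ T.natDegree) (δ : ℕ) : IsRes T (wordM δ A) (wordM δ N) := by
  obtain ⟨h0, h1, h2⟩ := h
  refine ⟨h0, ?_, ?_⟩
  · intro a b
    have h3 : (wordM δ A a b).natDegree ≤ T.natDegree - 1 := by
      unfold wordM
      rw [Matrix.sum_apply]
      refine natDegree_sum_le_of_forall_le _ _ fun j _ => ?_
      simp only [slot, Matrix.of_apply]
      split_ifs
      · rcases ws_lett_cases A (a j) (b j) with h4 | ⟨x, y, h4⟩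
        · rw [h4, natDegree_zero]
          exact Nat.zero_le _
        · rw [h4]
          have := h1 x y
          omega
      · rw [natDegree_zero]
        exact Nat.zero_le _
    omega
  · unfold wordM
    rw [ws_coM_sum, Finset.smul_sum, ← Finset.sum_neg_distrib]
    refine Finset.sum_congr rfl fun j _ => ?_
    rw [coM_slot]
    have h3 : coM (T.natDegree - 1) (lett A) = lett (coM (T.natDegree - 1) A) := by
      unfold coM
      exact ws_lett_map (fun p : ℚ[X] => p.coeff (T.natDegree - 1)) (Polynomial.coeff_zero _) A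
    rw [h3, h2, ws_lett_neg, ws_lett_smul, ← slot_smul]
    have h4 := slot_smul j (-1 : ℚ) (T.leadingCoeff • lett N)
    rwa [neg_one_smul, neg_one_smul] at h4

/-! ### solutions -/

private theorem ws_slot_vec {κ δ : Type} [Fintype κ] [DecidableEq κ] [Fintype δ] [DecidableEq δ]
    (j : δ) (L : Matrix κ κ ℂ) (v : κ → ℂ) (α : δ → κ) :
    ∑ β : δ → κ, slot j L α β * ∏ i, v (β i) =
      (∏ i ∈ Finset.univ.erase j, v (α i)) * ∑ q, L (α j) q * v q := by
  rw [slot_eq_kron]
  simp only [kron, Matrix.of_apply]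
  have h1 : ∀ β : δ → κ, (∏ i, Function.update (fun _ => (1 : Matrix κ κ ℂ)) j L i (α i) (β i)) *
      ∏ i, v (β i) = ∏ i, (Function.update (fun _ => (1 : Matrix κ κ ℂ)) j L i (α i) (β i) *
        v (β i)) := fun β => (Finset.prod_mul_distrib).symm
  rw [Finset.sum_congr rfl fun β _ => h1 β]
  have h2 := (Finset.prod_univ_sum (fun _ : δ => (Finset.univ : Finset κ))
    (fun i q => Function.update (fun _ => (1 : Matrix κ κ ℂ)) j L i (α i) q * v q)).symm
  rw [Fintype.piFinset_univ] at h2
  rw [h2, ← Finset.mul_prod_erase Finset.univ _ (Finset.mem_univ j), Function.update_self, mul_comm]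
  congr 1
  refine Finset.prod_congr rfl fun i hi => ?_
  rw [Function.update_of_ne (Finset.ne_of_mem_erase hi), Finset.sum_eq_single (α i)]
  · rw [Matrix.one_apply_eq, one_mul]
  · intro b _ hb
    rw [Matrix.one_apply_ne (Ne.symm hb), zero_mul]
  · intro h
    exact absurd (Finset.mem_univ _) h

private theorem ws_lett_vec (L M : Matrix ι ι ℂ) (i k : ι) :
    ∑ q, lett L (some (i, k)) q * ltr M q = ∑ j, L i j * M j k := by
  rw [ws_sum_option, ws_lett_none_right, zero_mul, zero_add]
  refine Finset.sum_congr rfl fun j _ => ?_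
  simp only [ws_lett_some, ltr]
  rw [Finset.sum_eq_single k]
  · rw [if_pos rfl]
  · intro b _ hb
    rw [if_neg (Ne.symm hb), zero_mul]
  · intro h
    exact absurd (Finset.mem_univ k) h

theorem word_sol {T : ℚ[X]} {A : Matrix ι ι ℚ[X]} {P : ℂ → Matrix ι ι ℂ}
    (hP : ∃ t₀ : ℝ, ∀ t : ℝ, t₀ < t → ∀ i k, HasDerivAt (fun t : ℝ => P (t : ℂ) i k)
      ((aeval (t : ℂ) T)⁻¹ * ∑ j, aeval (t : ℂ) (A i j) * P (t : ℂ) j k) t) (δ : ℕ) :
    IsSolR T (wordM δ A) (wz δ P) := by
  obtain ⟨t₀, h0⟩ := hP
  refine ⟨t₀, fun t ht α => ?_⟩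
  have h1 : ∀ p : Option (ι × ι), HasDerivAt (fun t : ℝ => ltr (P (t : ℂ)) p)
      ((aeval (t : ℂ) T)⁻¹ * ∑ q, lett (A.map fun p => aeval (t : ℂ) p) p q *
        ltr (P (t : ℂ)) q) t := by
    intro p
    rcases p with _ | ⟨i, k⟩
    · have h2 : ∑ q, lett (A.map fun p => aeval (t : ℂ) p) none q * ltr (P (t : ℂ)) q = 0 := by
        refine Finset.sum_eq_zero fun q _ => ?_
        rw [ws_lett_none_left, zero_mul]
      rw [h2, mul_zero]
      exact hasDerivAt_const t (1 : ℂ)
    · rw [ws_lett_vec]
      exact h0 t ht i k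
  have h2 := HasDerivAt.fun_finsetProd (u := Finset.univ)
    (f := fun (j : Fin δ) (t : ℝ) => ltr (P (t : ℂ)) (α j)) fun j _ => h1 (α j)
  have h3 : ∑ j : Fin δ, (∏ i ∈ Finset.univ.erase j, ltr (P (t : ℂ)) (α i)) •
      ((aeval (t : ℂ) T)⁻¹ * ∑ q, lett (A.map fun p => aeval (t : ℂ) p) (α j) q *
        ltr (P (t : ℂ)) q) =
      (aeval (t : ℂ) T)⁻¹ * ∑ β, aeval (t : ℂ) (wordM δ A α β) * wz δ P t β := by
    have h4 : ∀ β, aeval (t : ℂ) (wordM δ A α β) =
        ∑ j, slot j (lett (A.map fun p => aeval (t : ℂ) p)) α β := by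
      intro β
      unfold wordM
      rw [Matrix.sum_apply, map_sum]
      refine Finset.sum_congr rfl fun j _ => ?_
      have h5 := slot_map (fun p : ℚ[X] => aeval (t : ℂ) p) (map_zero _) j (lett A)
      rw [ws_lett_map _ (map_zero _)] at h5
      rw [← h5, Matrix.map_apply]
    simp only [h4, Finset.sum_mul]
    rw [Finset.sum_comm, Finset.mul_sum]
    refine Finset.sum_congr rfl fun j _ => ?_
    unfold wz
    rw [ws_slot_vec j _ (ltr (P (t : ℂ))) α, smul_eq_mul]
    ring
  rw [← h3]
  exact h2

/-! ### parity -/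

theorem par_idem (δ : ℕ) : par (ι := ι) δ * par δ = par δ := by
  unfold par
  rw [Matrix.diagonal_mul_diagonal]
  congr 1
  funext α
  split_ifs
  · rw [mul_one]
  · rw [mul_zero]

private theorem ws_word_none {δ : ℕ} {A : Matrix ι ι ℚ[X]} {α β : Fin δ → Option (ι × ι)}
    (h : wordM δ A α β ≠ 0) : ∀ i, α i = none ↔ β i = none := by
  unfold wordM at h
  rw [Matrix.sum_apply] at h
  obtain ⟨j, _, hj⟩ := Finset.exists_ne_zero_of_sum_ne_zero h
  simp only [slot, Matrix.of_apply] at hj
  by_cases h1 : ∀ i, i ≠ j → α i = β i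
  · rw [if_pos h1] at hj
    intro i
    by_cases hi : i = j
    · subst hi
      constructor
      · intro h2
        rw [h2, ws_lett_none_left] at hj
        exact absurd rfl hj
      · intro h2
        rw [h2, ws_lett_none_right] at hj
        exact absurd rfl hj
    · rw [h1 i hi]
  · rw [if_neg h1] at hj
    exact absurd rfl hj

theorem par_comm (δ : ℕ) (A : Matrix ι ι ℚ[X]) :
    cX (par δ) * wordM δ A = wordM δ A * cX (par δ) := by
  unfold par cX
  rw [Matrix.diagonal_map (map_zero _)]
  ext1 α β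
  rw [Matrix.diagonal_mul, Matrix.mul_diagonal]
  by_cases h : wordM δ A α β = 0
  · rw [h, mul_zero, zero_mul]
  · have h1 : (Finset.univ.filter fun j => α j ≠ none) =
        Finset.univ.filter fun j => β j ≠ none := by
      ext j
      simp only [Finset.mem_filter, Finset.mem_univ, true_and, ne_eq, ws_word_none h j]
    simp only [h1]
    rw [mul_comm]

end Pool.Agent.Helper79.GC
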