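import Pool.Agent.Helper79.GC.SparseGauge
import Pool.Agent.Helper79.GC.WordSys

/-!
# GH-5: gauge transformation of the words

`P = Z P̃`: the letters satisfy `ltr P = Λ(Z) ltr P̃`, `Λ(Z) = diag(1, Z ⊗ 1)` (`lett Z` plus the entry `1` at `(none, none)`), so
`wz δ P = kron (fun _ => Λ(Z)) *ᵥ wz δ P̃`. `Z_w = kron (fun _ => Λ(Z))` (integer polynomials) has `det ≠ 0`: `kron_mul`:
`kron Λ(Z) * kron Λ(adj Z) = kron (diag(1, det Z))` is a diagonal matrix with nonzero entries. For large `t`
`gz Z_w 0 (wz δ P) t = (Z_w(t))⁻¹ wz δ P t = wz δ P̃ t` (`det Z_w(t) ≠ 0`), so `sparse_congr` and `sparse_gauge` apply.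
-/

open Polynomial Filter Topology

namespace Pool.Agent.Helper79.GC

open Pool.Agent.Helper37.GP

variable {ι : Type} [Fintype ι] [DecidableEq ι]

/-- the action on the letters -/
private def gwL {S : Type} [Zero S] [One S] (A : Matrix ι ι S) :
    Matrix (Option (ι × ι)) (Option (ι × ι)) S :=
  Matrix.of fun p q => match p, q with
    | some (i, k), some (j, l) => if k = l then A i j else 0
    | none, none => 1
    | _, _ => 0

private theorem gw_sum_option {S : Type} [AddCommMonoid S] (f : Option (ι × ι) → S) :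
    ∑ p, f p = f none + ∑ i, ∑ k, f (some (i, k)) := by
  rw [Fintype.sum_option, Fintype.sum_prod_type]

private theorem gwL_mul {S : Type} [CommRing S] (A B : Matrix ι ι S) :
    gwL A * gwL B = gwL (A * B) := by
  ext1 p q
  rw [Matrix.mul_apply, gw_sum_option]
  rcases p with _ | ⟨i, k⟩
  · rcases q with _ | ⟨j, l⟩
    · simp [gwL]
    · simp [gwL]
  · rcases q with _ | ⟨j, l⟩
    · simp [gwL]
    · simp only [gwL, Matrix.of_apply, zero_mul, zero_add, Matrix.mul_apply]
      by_cases hkl : k = l
      · subst hkl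
        rw [if_pos rfl]
        refine Finset.sum_congr rfl fun c _ => ?_
        rw [Finset.sum_eq_single k]
        · rw [if_pos rfl, if_pos rfl]
        · intro b _ hb
          rw [if_neg (Ne.symm hb), zero_mul]
        · intro h
          exact absurd (Finset.mem_univ k) h
      · rw [if_neg hkl]
        refine Finset.sum_eq_zero fun c _ => Finset.sum_eq_zero fun b _ => ?_
        by_cases h1 : k = b
        · subst h1
          rw [if_neg hkl, mul_zero]
        · rw [if_neg h1, zero_mul]

private theorem gwL_smul_one {S : Type} [CommRing S] (d : S) :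
    gwL (d • (1 : Matrix ι ι S)) = Matrix.diagonal fun p => if p = none then 1 else d := by
  ext1 p q
  rcases p with _ | ⟨i, k⟩
  · rcases q with _ | ⟨j, l⟩
    · simp [gwL]
    · simp [gwL]
  · rcases q with _ | ⟨j, l⟩
    · simp [gwL]
    · by_cases h1 : k = l
      · subst h1
        by_cases h2 : i = j
        · subst h2
          simp [gwL]
        · have h3 : some (i, k) ≠ some (j, k) := by
            intro h
            exact h2 (congrArg Prod.fst (Option.some.inj h))
          rw [Matrix.diagonal_apply_ne _ h3]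
          simp [gwL, h2]
      · have h3 : some (i, k) ≠ some (j, l) := by
          intro h
          exact h1 (congrArg Prod.snd (Option.some.inj h))
        rw [Matrix.diagonal_apply_ne _ h3]
        simp [gwL, h1]

private theorem gwL_vec (M N : Matrix ι ι ℂ) (p : Option (ι × ι)) :
    ∑ q, gwL M p q * ltr N q = ltr (M * N) p := by
  rw [gw_sum_option]
  rcases p with _ | ⟨i, k⟩
  · simp [gwL, ltr]
  · simp only [gwL, Matrix.of_apply, zero_mul, zero_add, ltr, Matrix.mul_apply]
    refine Finset.sum_congr rfl fun c _ => ?_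
    rw [Finset.sum_eq_single k]
    · rw [if_pos rfl]
    · intro b _ hb
      rw [if_neg (Ne.symm hb), zero_mul]
    · intro h
      exact absurd (Finset.mem_univ k) h

private theorem gw_kron_vec (δ : ℕ) (M N : Matrix ι ι ℂ) :
    (kron (fun _ : Fin δ => gwL M)).mulVec (fun α => ∏ j, ltr N (α j)) =
      fun α => ∏ j, ltr (M * N) (α j) := by
  funext α
  simp only [Matrix.mulVec, dotProduct, kron, Matrix.of_apply]
  simp only [← gwL_vec M N]
  rw [Finset.prod_univ_sum, Fintype.piFinset_univ]
  refine Finset.sum_congr rfl fun γ _ => ?_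
  rw [Finset.prod_mul_distrib]

private theorem gw_kron_diag {S : Type} [CommRing S] (δ : ℕ) (f : Option (ι × ι) → S) :
    kron (fun _ : Fin δ => Matrix.diagonal f) = Matrix.diagonal fun α => ∏ j, f (α j) := by
  ext1 α β
  simp only [kron, Matrix.of_apply]
  by_cases h : α = β
  · subst h
    rw [Matrix.diagonal_apply_eq]
    exact Finset.prod_congr rfl fun j _ => Matrix.diagonal_apply_eq _ _
  · rw [Matrix.diagonal_apply_ne _ h]
    obtain ⟨j, hj⟩ := Function.ne_iff.1 h
    exact Finset.prod_eq_zero (Finset.mem_univ j) (Matrix.diagonal_apply_ne _ hj)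

private theorem gw_det {Z : Matrix ι ι ℤ[X]} (hZ : Z.det ≠ 0) (δ : ℕ) :
    (kron (fun _ : Fin δ => gwL Z)).det ≠ 0 := by
  have h1 : kron (fun _ : Fin δ => gwL Z) * kron (fun _ : Fin δ => gwL Z.adjugate) =
      Matrix.diagonal fun α : Fin δ → Option (ι × ι) => ∏ j, if α j = none then 1 else Z.det := by
    rw [kron_mul]
    simp only [gwL_mul, Matrix.mul_adjugate, gwL_smul_one]
    rw [gw_kron_diag]
  have h2 := congrArg Matrix.det h1
  rw [Matrix.det_mul, Matrix.det_diagonal] at h2
  intro h3
  rw [h3, zero_mul] at h2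
  have h4 : (∏ α : Fin δ → Option (ι × ι), ∏ j, if α j = none then (1 : ℤ[X]) else Z.det) ≠ 0 := by
    refine Finset.prod_ne_zero_iff.2 fun α _ => Finset.prod_ne_zero_iff.2 fun j _ => ?_
    split_ifs
    · exact one_ne_zero
    · exact hZ
  exact h4 h2.symm

private theorem gw_evM (Z : Matrix ι ι ℤ[X]) (δ : ℕ) (t : ℂ) :
    evM (kron (fun _ : Fin δ => gwL Z)) t = kron (fun _ : Fin δ => gwL (evM Z t)) := by
  ext1 α β
  simp only [evM, kron, Matrix.map_apply, Matrix.of_apply, map_prod]
  refine Finset.prod_congr rfl fun j _ => ?_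
  rcases α j with _ | ⟨i, k⟩
  · rcases β j with _ | ⟨i', k'⟩
    · simp [gwL]
    · simp [gwL]
  · rcases β j with _ | ⟨i', k'⟩
    · simp [gwL]
    · simp only [gwL, Matrix.of_apply, Matrix.map_apply]
      split_ifs
      · rfl
      · rw [map_zero]

theorem sparse_word_gauge {Z : Matrix ι ι ℤ[X]} (hZ : Z.det ≠ 0) {P Q : ℂ → Matrix ι ι ℂ}
    (h : ∀ᶠ t : ℝ in atTop, P (t : ℂ) = evM Z (t : ℂ) * Q (t : ℂ)) {δ : ℕ}
    (hs : Sparse (wz δ Q)) : Sparse (wz δ P) := by
  refine sparse_gauge (gw_det hZ δ) 0 (sparse_congr ?_ hs)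
  filter_upwards [h, eventually_ne (gw_det hZ δ)] with t h1 h2
  have h3 : wz δ P t = (evM (kron (fun _ : Fin δ => gwL Z)) (t : ℂ)).mulVec (wz δ Q t) := by
    rw [gw_evM]
    have h4 := gw_kron_vec δ (evM Z (t : ℂ)) (Q (t : ℂ))
    rw [← h1] at h4
    exact h4.symm
  unfold gz
  rw [h3, pow_zero, one_smul, Matrix.mulVec_mulVec,
    Matrix.nonsing_inv_mul _ (by rw [evM_det]; exact isUnit_iff_ne_zero.2 h2), Matrix.one_mulVec]

end Pool.Agent.Helper79.GC
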