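import Pool.Agent.Helper79.GC.Base

/-!
# GC-21b: splitting a matrix with eigenvalues `0` and `1/2`

`(ν (2ν-1))^m = 0`. `X^m` and `(2X-1)^m` are coprime: `A X^m + B (2X-1)^m = 1`. `Q = A X^m` satisfies `Q ≡ 0 mod X^m`,
`Q ≡ 1 mod (2X-1)^m`, so `Q² - Q = -Q (1 - Q) = -A B (X (2X-1))^m`, `Q(ν)² = Q(ν)`. `P = X - Q/2`:
`P = X - Q/2 ≡ X mod X^m` (up to multiples of `X^m`) and `≡ (2X-1)/2 mod (2X-1)^m`, so `P^m ≡ 0` modulo `X^m` and modulo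
`(2X-1)^m`, hence modulo the product, and `P(ν)^m = 0`. (`m ≥ 1`; if `m = 0` the matrix ring is trivial.)
-/

open Polynomial

namespace Pool.Agent.Helper79.GC

open Pool.Agent.Helper37.GP

variable {ι : Type} [Fintype ι] [DecidableEq ι]

theorem half_split {ν : Matrix ι ι ℚ} (h : Half ν) : ∃ (P Q : ℚ[X]) (m : ℕ),
    (aeval ν P) ^ m = 0 ∧ (aeval ν Q) * (aeval ν Q) = aeval ν Q ∧
      ν = aeval ν P + (1 / 2 : ℚ) • aeval ν Q := by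
  obtain ⟨m, hm⟩ := h
  have hm' : (ν * ((2 : ℚ) • ν - 1)) ^ (m + 1) = 0 := by rw [pow_succ, hm, zero_mul]
  have hcop : IsCoprime (X : ℚ[X]) (C 2 * X - 1) := ⟨C 2, -1, by ring⟩
  have hcopk : IsCoprime ((X : ℚ[X]) ^ (m + 1)) ((C 2 * X - 1) ^ (m + 1)) := hcop.pow
  obtain ⟨A, B, hAB⟩ := hcopk
  have hz0 : aeval ν (X * (C 2 * X - 1) : ℚ[X]) = ν * ((2 : ℚ) • ν - 1) := by
    rw [map_mul, map_sub, map_mul, aeval_X, aeval_C, map_one, Algebra.smul_def]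
  have hz : aeval ν ((X : ℚ[X]) ^ (m + 1) * (C 2 * X - 1) ^ (m + 1)) = 0 := by
    rw [← mul_pow, map_pow, hz0, hm']
  refine ⟨X - C (1 / 2) * (A * X ^ (m + 1)), A * X ^ (m + 1), m + 1, ?_, ?_, ?_⟩
  · have hX : (X : ℚ[X]) ∣ X - C (1 / 2) * (A * X ^ (m + 1)) :=
      ⟨1 - C (1 / 2) * (A * X ^ m), by ring⟩
    have h2 : (C (1 / 2) : ℚ[X]) * C 2 = 1 := by
      rw [← C_mul]
      norm_num
    have hb : (C 2 * X - 1 : ℚ[X]) ∣ X - C (1 / 2) * (A * X ^ (m + 1)) := by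
      refine ⟨C (1 / 2) + C (1 / 2) * (B * (C 2 * X - 1) ^ m), ?_⟩
      have e : A * X ^ (m + 1) = 1 - B * (C 2 * X - 1) ^ (m + 1) := by linear_combination hAB
      rw [e]
      linear_combination (-(X : ℚ[X])) * h2
    have hdvd : (X : ℚ[X]) ^ (m + 1) * (C 2 * X - 1) ^ (m + 1) ∣
        (X - C (1 / 2) * (A * X ^ (m + 1))) ^ (m + 1) :=
      IsCoprime.mul_dvd ⟨A, B, hAB⟩ (pow_dvd_pow_of_dvd hX _) (pow_dvd_pow_of_dvd hb _)
    obtain ⟨c, hc⟩ := hdvd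
    rw [← map_pow, hc, map_mul, hz, zero_mul]
  · have e : (A * X ^ (m + 1)) * (A * X ^ (m + 1)) = A * X ^ (m + 1) -
        (A * B) * ((X : ℚ[X]) ^ (m + 1) * (C 2 * X - 1) ^ (m + 1)) := by
      linear_combination (A * X ^ (m + 1)) * hAB
    rw [← map_mul, e, map_sub, map_mul _ (A * B), hz, mul_zero, sub_zero]
  · rw [map_sub, map_mul _ (C (1 / 2)), aeval_X, aeval_C, Algebra.smul_def]
    abel

end Pool.Agent.Helper79.GC
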