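import Pool.Agent.Helper79.GC.Defs3

/-!
# GH: the family `y² = g(x) (x - t)`: definitions

`g ∈ ℤ[x]` of degree `2 h`. Basis `θ_i = (x - t)^i dx / y`, `0 ≤ i < 2 h`. With `z = x - t`, `g(t + z) = ∑ γ_k(t) z^k`,
`γ_k = g^(k) / k!`, the system for the periods of the `θ_i` is `T p' = B p`, `T = 2 g(t)`,
`2 g p_0' = ∑_k k γ_{k+1} p_k`, `2 g p_i' = (1 - 2 i) g p_{i-1}`.
-/

open Polynomial

namespace Pool.Agent.Helper79.GC

open Pool.Agent.Helper37.GP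

/-- The coefficients of `g(t + z)` (polynomials in `t`). -/
noncomputable def gamX (g : ℤ[X]) (k : ℕ) : ℚ[X] := (hasseDeriv k g).map (Int.castRingHom ℚ)

/-- The same as Laurent series, for integer indices (`0` for negative ones). -/
noncomputable def gam (g : ℤ[X]) (k : ℤ) : LaurentSeries ℚ :=
  if 0 ≤ k then emb (gamX g k.toNat) else 0

/-- The denominator of the system. -/
noncomputable def hypT (g : ℤ[X]) : ℤ[X] := C 2 * g

/-- The matrix of the system in the basis `(x - t)^i dx / y`. -/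
noncomputable def hypB (g : ℤ[X]) (n : ℕ) : Matrix (Fin n) (Fin n) ℚ[X] :=
  Matrix.of fun i k =>
    if (i : ℕ) = 0 then ((k : ℕ) : ℚ[X]) * gamX g (k + 1)
    else if (k : ℕ) + 1 = i then (1 - 2 * ((i : ℕ) : ℚ[X])) * gamX g 0 else 0

/-- The polynomials `t^i (-1)^(i-a) binom(i, a)`: `(x - t)^i dx/y = ∑_a Z_ia t^(-a) x^a dx / y`. -/
noncomputable def hypZ (n : ℕ) : Matrix (Fin n) (Fin n) ℤ[X] :=
  Matrix.of fun i a => if (a : ℕ) ≤ i then
    (C ((-1 : ℤ) ^ ((i : ℕ) - a) * ((i : ℕ).choose a : ℤ)) * X ^ (i : ℕ) : ℤ[X]) else 0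

/-- The residue at infinity (up to sign) of the system for `t^(-a) ∫ x^a dx / y`, `n = 2 h`. -/
def hypN (h : ℕ) : Matrix (Fin (2 * h)) (Fin (2 * h)) ℚ :=
  Matrix.of fun a i => (if (i : ℕ) < a then 0 else 1 / 2) - (if (i : ℕ) + 1 = 2 * h then (h : ℚ)
    else 0) + if i = a then ((a : ℕ) : ℚ) else 0

/-- The reduction of `z^(-j) dx/y` (`z = x - t`) modulo exact forms `d (Q y)`, `Q = ∑_{1 ≤ l ≤ j} b_l z^(-l)`:
`z^(-j) + (1/2) Q (z G)' + Q' z G = ∑_{0 ≤ i < n} v_i z^i`, coefficient by coefficient. -/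
def Red (g : ℤ[X]) (n j : ℕ) (b : ℕ → LaurentSeries ℚ) (v : ℤ → LaurentSeries ℚ) : Prop :=
  (∀ i : ℤ, i < 0 ∨ (n : ℤ) ≤ i → v i = 0) ∧
  ∀ i : ℤ, (if i = -(j : ℤ) then 1 else 0) + ((1 / 2 : ℚ) • ∑ l ∈ Finset.Icc 1 j,
    ((i : ℚ) + 1 - l) • (b l * gam g (i + l))) = v i

/-- `v ↦ v' + v B / T` on row vectors (indexed by `ℤ`, supported on `0 ≤ i < n`). -/
noncomputable def stepV (g : ℤ[X]) (v : ℤ → LaurentSeries ℚ) (i : ℤ) : LaurentSeries ℚ :=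
  if 0 ≤ i then dd (v i) - ((i : ℚ) + 1 / 2) • v (i + 1) +
    ((i : ℚ) / 2) • (v 0 * gam g (i + 1) * (gam g 0)⁻¹) else 0

/-- The coefficients of `(g(t + z)/g(t))^(-1/2)`. -/
noncomputable def sqs (g : ℤ[X]) : ℕ → LaurentSeries ℚ := fun m =>
  PowerSeries.coeff m (∑ k ∈ Finset.range (m + 1),
    PowerSeries.C (algebraMap ℚ (LaurentSeries ℚ) (Ring.choose (-(1 / 2) : ℚ) k)) *
      (PowerSeries.mk fun l => if l = 0 then 0 else gam g l * (gam g 0)⁻¹) ^ k)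

end Pool.Agent.Helper79.GC
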