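import Pool.Agent.Helper79.GC.Git

/-!
# GC-02: integrality bookkeeping

`PI q P f` : `q P f` is (the embedding of) a polynomial with integer coefficients.

* `PI_hs`: Let `q P^m f = p` with `p ∈ ℤ[X]`. By Leibniz (characteristic 0, `hasseDeriv` is integral
  on `ℤ[X]`, `hs i (emb p) = emb (hasseDeriv i p)`), `P^m hs_i(f) = hs_i(p)/q - ∑_{l<i} hs_l(f) hs_{i-l}(P^m)`,
  and `P^l ∣ ` suffices: use induction on `i` and that `P^(m - a)` divides `hs_a(P^m)` up to the needed
  power; the cleanest way: first `m = 0` and `m = 1` and products, or prove directly by induction on `i`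
  that `q P^(m+i) hs_i(f) ∈ ℤ[X]` from `(P^m f)_i = ∑_l hs_l(f) hs_{i-l}(P^m)` and
  `P^l * (stuff)`: multiply by `P^i`: `q P^(m+i) hs_i(f) = P^i hs_i(p) - ∑_{l<i} [q P^(m+l) hs_l(f)]
  P^(i-l-m) hs_{i-l}(P^m)` where for `m ≥ 1` one uses that `P^(m-(i-l))` divides `hs_{i-l}(P^m)` when
  `i - l ≤ m` (`hs_a(P^m)` is a sum of products of `m` factors `hs_{a_1}(P) ⋯ hs_{a_m}(P)` with
  `a_1 + ⋯ + a_m = a`, at least `m - a` of them equal to `P`). It is enough (and easier) to do the case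
  of a scalar `f` by induction on `m`: `m = 0` is `hasseDeriv`; for `m + 1` write `g = P f`, then
  `P hs_i(f) = hs_i(g) - ∑_{l<i} hs_l(f) hs_{i-l}(P)` with `hs_i(g)` controlled by the case `m`, and
  multiply by `P^(m+i)`, induction on `i`.
* `gal_iff`: `q T^i G_i = q emb(beta)` by `eM_beta`.
-/

open Polynomial

namespace Pool.Agent.Helper79.GC

open Pool.Agent.Helper37.GP

namespace PintAux

/-- Integer polynomials as Laurent series. -/
noncomputable def eI : ℤ[X] →+* LaurentSeries ℚ :=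
  emb.comp (Polynomial.mapRingHom (Int.castRingHom ℚ))

theorem eI_apply (p : ℤ[X]) : eI p = emb (p.map (Int.castRingHom ℚ)) := rfl

theorem map_int_injective : Function.Injective (Polynomial.map (Int.castRingHom ℚ)) :=
  Polynomial.map_injective _ Int.cast_injective

theorem eI_injective : Function.Injective eI := by
  intro p p' h
  rw [eI_apply, eI_apply] at h
  exact map_int_injective (emb_injective h)

theorem ratsmul_eq (c : ℚ) (f : LaurentSeries ℚ) :
    c • f = algebraMap ℚ (LaurentSeries ℚ) c * f := by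
  ext n
  rw [algebraMap_eq_single, HahnSeries.coeff_single_zero_mul, HahnSeries.coeff_smul, smul_eq_mul]

theorem natsmul_eq (q : ℕ) (f : LaurentSeries ℚ) : (q : ℚ) • f = eI (q : ℤ[X]) * f := by
  rw [ratsmul_eq, map_natCast, map_natCast]

theorem PI_iff {q : ℕ} {P : ℤ[X]} {f : LaurentSeries ℚ} :
    PI q P f ↔ ∃ p : ℤ[X], eI (q : ℤ[X]) * (eI P * f) = eI p := by
  unfold PI
  simp only [natsmul_eq, eI_apply]

/-- the divided derivative of a scalar -/
noncomputable def hd (i : ℕ) (f : LaurentSeries ℚ) : LaurentSeries ℚ :=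
  ((i.factorial : ℚ)⁻¹) • (dd^[i] f)

theorem dM_iter_apply {ι κ : Type} (i : ℕ) (F : Matrix ι κ (LaurentSeries ℚ)) (a : ι) (b : κ) :
    (dM^[i] F) a b = dd^[i] (F a b) := by
  induction i with
  | zero => rfl
  | succ i ih => rw [Function.iterate_succ_apply', Function.iterate_succ_apply', dM_apply, ih]

theorem hs_apply' {ι κ : Type} (i : ℕ) (F : Matrix ι κ (LaurentSeries ℚ)) (a : ι) (b : κ) :
    hs i F a b = hd i (F a b) := by
  unfold hs hd
  rw [Matrix.smul_apply, dM_iter_apply]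

theorem hd_mul (n : ℕ) (f g : LaurentSeries ℚ) :
    hd n (f * g) = ∑ i ∈ Finset.range (n + 1), hd i f * hd (n - i) g := by
  have h := hs_mul (ι := Unit) (κ := Unit) (μ := Unit) (Matrix.of fun _ _ => f)
    (Matrix.of fun _ _ => g) n
  have h1 := congrFun (congrFun h ()) ()
  rw [hs_apply', Matrix.sum_apply] at h1
  simp only [Matrix.mul_apply, hs_apply', Matrix.of_apply, Finset.univ_unique,
    Finset.sum_singleton] at h1
  exact h1

theorem dd_iter_emb (k : ℕ) (p : ℚ[X]) : dd^[k] (emb p) = emb (derivative^[k] p) := by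
  induction k with
  | zero => rfl
  | succ k ih => rw [Function.iterate_succ_apply', Function.iterate_succ_apply', ih, dd_emb]

theorem hasse_map (k : ℕ) (p : ℤ[X]) :
    hasseDeriv k (p.map (Int.castRingHom ℚ)) = (hasseDeriv k p).map (Int.castRingHom ℚ) := by
  ext n
  simp [hasseDeriv_coeff]

theorem hd_eI (k : ℕ) (p : ℤ[X]) : hd k (eI p) = eI (hasseDeriv k p) := by
  unfold hd
  rw [eI_apply, dd_iter_emb, ← factorial_smul_hasseDeriv, eI_apply, ← hasse_map]
  rw [LinearMap.smul_apply, nsmul_eq_mul, map_mul, map_natCast, ratsmul_eq, ← mul_assoc]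
  rw [← map_natCast (algebraMap ℚ (LaurentSeries ℚ)), ← map_mul, inv_mul_cancel₀, map_one, one_mul]
  exact_mod_cast k.factorial_ne_zero

theorem dd_iter_ratsmul (k : ℕ) (c : ℚ) (f : LaurentSeries ℚ) :
    dd^[k] (c • f) = c • dd^[k] f := by
  induction k with
  | zero => rfl
  | succ k ih => rw [Function.iterate_succ_apply', Function.iterate_succ_apply', ih, dd_ratsmul]

theorem hd_natmul (k q : ℕ) (f : LaurentSeries ℚ) :
    hd k (eI (q : ℤ[X]) * f) = eI (q : ℤ[X]) * hd k f := by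
  rw [← natsmul_eq, ← natsmul_eq]
  unfold hd
  rw [dd_iter_ratsmul, smul_comm]

end PintAux

open PintAux

theorem PI_mul {q q' : ℕ} {P P' : ℤ[X]} {f g : LaurentSeries ℚ} (h : PI q P f) (h' : PI q' P' g) :
    PI (q * q') (P * P') (f * g) := by
  rw [PI_iff] at h h' ⊢
  obtain ⟨p, hp⟩ := h
  obtain ⟨p', hp'⟩ := h'
  refine ⟨p * p', ?_⟩
  rw [map_mul eI p p', ← hp, ← hp', Nat.cast_mul, map_mul, map_mul]
  ring

theorem PI_add {q : ℕ} {P : ℤ[X]} {f g : LaurentSeries ℚ} (h : PI q P f) (h' : PI q P g) :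
    PI q P (f + g) := by
  rw [PI_iff] at h h' ⊢
  obtain ⟨p, hp⟩ := h
  obtain ⟨p', hp'⟩ := h'
  refine ⟨p + p', ?_⟩
  rw [map_add eI p p', ← hp, ← hp']
  ring

theorem PI_zero (q : ℕ) (P : ℤ[X]) : PI q P 0 := by
  rw [PI_iff]
  exact ⟨0, by simp⟩

theorem PI_sum {α : Type} (s : Finset α) {q : ℕ} {P : ℤ[X]} {f : α → LaurentSeries ℚ}
    (h : ∀ i ∈ s, PI q P (f i)) : PI q P (∑ i ∈ s, f i) := by
  classical
  induction s using Finset.induction_on with
  | empty =>
    rw [Finset.sum_empty]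
    exact PI_zero q P
  | insert a s ha ih =>
    rw [Finset.sum_insert ha]
    exact PI_add (h a (Finset.mem_insert_self _ _))
      (ih fun i hi => h i (Finset.mem_insert_of_mem hi))

theorem PI_neg {q : ℕ} {P : ℤ[X]} {f : LaurentSeries ℚ} (h : PI q P f) : PI q P (-f) := by
  rw [PI_iff] at h ⊢
  obtain ⟨p, hp⟩ := h
  exact ⟨-p, by rw [map_neg eI p, ← hp]; ring⟩

theorem PI_of_dvd {q q' : ℕ} {P P' : ℤ[X]} {f : LaurentSeries ℚ} (h : PI q P f) (hq : q ∣ q')
    (hP : P ∣ P') : PI q' P' f := by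
  rw [PI_iff] at h ⊢
  obtain ⟨p, hp⟩ := h
  obtain ⟨k, rfl⟩ := hq
  obtain ⟨R, rfl⟩ := hP
  refine ⟨(k : ℤ[X]) * R * p, ?_⟩
  rw [map_mul eI _ p, ← hp, Nat.cast_mul, map_mul, map_mul, map_mul]
  ring

/-- Divided derivatives: `q P^m f` integral implies `q P^(m+i) f^(i)/i!` integral. -/
theorem PI_hs {q m : ℕ} {P : ℤ[X]} {f : LaurentSeries ℚ} (h : PI q (P ^ m) f) (i : ℕ) :
    PI q (P ^ (m + i)) (((i.factorial : ℚ)⁻¹) • (dd^[i] f)) := by
  change PI q (P ^ (m + i)) (hd i f)
  induction m generalizing f i with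
  | zero =>
    rw [PI_iff] at h
    obtain ⟨p, hp⟩ := h
    rw [pow_zero, map_one, one_mul] at hp
    have h1 : PI q 1 (hd i f) := by
      rw [PI_iff]
      refine ⟨hasseDeriv i p, ?_⟩
      rw [map_one, one_mul, ← hd_eI, ← hp, hd_natmul]
    exact PI_of_dvd h1 dvd_rfl (one_dvd _)
  | succ m ihm =>
    have hg : PI q (P ^ m) (f * eI P) := by
      rw [PI_iff] at h ⊢
      obtain ⟨p, hp⟩ := h
      refine ⟨p, ?_⟩
      rw [← hp, pow_succ, map_mul eI (P ^ m) P]
      ring
    induction i using Nat.strong_induction_on with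
    | _ i ih =>
      have h1 := ihm hg i
      rw [hd_mul, Finset.sum_range_succ, Nat.sub_self] at h1
      have h2 : hd 0 (eI P) = eI P := by
        rw [hd_eI, hasseDeriv_zero']
      rw [h2] at h1
      have h3 : PI q (P ^ (m + i)) (∑ l ∈ Finset.range i, hd l f * hd (i - l) (eI P)) := by
        refine PI_sum _ fun l hl => ?_
        rw [Finset.mem_range] at hl
        have h4 := ih l hl
        have h5 : PI 1 1 (hd (i - l) (eI P)) := by
          rw [PI_iff]
          refine ⟨hasseDeriv (i - l) P, ?_⟩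
          rw [hd_eI]
          simp
        have h6 := PI_mul h4 h5
        rw [mul_one, mul_one] at h6
        exact PI_of_dvd h6 dvd_rfl (pow_dvd_pow P (by omega))
      have h7 := PI_add h1 (PI_neg h3)
      have h8 : (∑ l ∈ Finset.range i, hd l f * hd (i - l) (eI P)) + hd i f * eI P +
          -(∑ l ∈ Finset.range i, hd l f * hd (i - l) (eI P)) = hd i f * eI P := by ring
      rw [h8] at h7
      rw [PI_iff] at h7 ⊢
      obtain ⟨p, hp⟩ := h7
      refine ⟨p, ?_⟩
      rw [← hp, show m + 1 + i = (m + i) + 1 by omega, pow_succ, map_mul eI (P ^ (m + i)) P]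
      ring

theorem PI_emb (p : ℤ[X]) : PI 1 1 (emb (p.map (Int.castRingHom ℚ))) := by
  rw [PI_iff]
  refine ⟨p, ?_⟩
  rw [← eI_apply]
  simp

/-- The inverse of an integral polynomial. -/
theorem PI_inv {P : ℤ[X]} (hP : P ≠ 0) : PI 1 P (emb (P.map (Int.castRingHom ℚ)))⁻¹ := by
  rw [PI_iff]
  refine ⟨1, ?_⟩
  rw [← eI_apply, mul_inv_cancel₀]
  · simp
  · intro h
    exact hP (eI_injective (by rw [h, map_zero]))

variable {ι κ μ : Type}

theorem hs_apply (i : ℕ) (F : Matrix ι κ (LaurentSeries ℚ)) (a : ι) (b : κ) :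
    hs i F a b = ((i.factorial : ℚ)⁻¹) • (dd^[i] (F a b)) :=
  hs_apply' i F a b

theorem PintAux.intBy_iff (q : ℕ) (g : ℚ[X]) :
    IntBy q g ↔ ∃ p : ℤ[X], (q : ℚ) • emb g = emb (p.map (Int.castRingHom ℚ)) := by
  have h1 : (q : ℚ) • emb g = emb (C (q : ℚ) * g) := by
    rw [map_mul, emb_C, ratsmul_eq]
  rw [h1]
  constructor
  · intro h
    have h2 : C (q : ℚ) * g ∈ lifts (Int.castRingHom ℚ) := by
      rw [lifts_iff_coeff_lifts]
      intro n
      obtain ⟨z, hz⟩ := h n
      exact ⟨z, by rw [coeff_C_mul, hz]; simp⟩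
    rw [mem_lifts] at h2
    obtain ⟨p, hp⟩ := h2
    exact ⟨p, by rw [hp]⟩
  · rintro ⟨p, hp⟩ n
    have h2 := emb_injective hp
    refine ⟨p.coeff n, ?_⟩
    have h3 := congrArg (fun r => coeff r n) h2
    simp only [coeff_C_mul, coeff_map] at h3
    rw [h3]
    simp

/-- Galochkin's condition in terms of the iterates over the Laurent series field. -/
theorem gal_iff [Fintype ι] [DecidableEq ι] {T : ℤ[X]} (hT : T ≠ 0) {B : Matrix ι ι ℚ[X]} {H : ℕ} :
    Galochkin (T.map (Int.castRingHom ℚ)) B H ↔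
      ∀ j, ∃ q : ℕ, 0 < q ∧ q ≤ H ^ (j + 1) ∧ ∀ i ≤ j, ∀ a b,
        PI q (T ^ i) (Git ((emb (T.map (Int.castRingHom ℚ)))⁻¹ • eM B) i a b) := by
  have hT' : T.map (Int.castRingHom ℚ) ≠ 0 := by
    intro h
    exact hT (map_int_injective (by rw [h, Polynomial.map_zero]))
  have key : ∀ (q i : ℕ) (a b : ι), IntBy q (beta (T.map (Int.castRingHom ℚ)) B i a b) ↔
      PI q (T ^ i) (Git ((emb (T.map (Int.castRingHom ℚ)))⁻¹ • eM B) i a b) := by
    intro q i a b
    have h1 := congrFun (congrFun (eM_beta hT' B i) a) b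
    rw [eM_apply, Matrix.smul_apply, smul_eq_mul] at h1
    rw [intBy_iff, h1, PI, Polynomial.map_pow, map_pow]
  unfold Galochkin
  simp only [key]

end Pool.Agent.Helper79.GC
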