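import Pool.Agent.Helper79.GC.HypDefs
import Pool.Agent.Helper79.GC.Pint

/-!
# GH-2a: denominators

* `chm_den`: `chm m i = ∏_{k<m} (k + 1/2 - i) / m!` is the generalized binomial coefficient `binom(m - 1/2 - i, m)` of a half integer; `4^m` times it is an
  integer (induction, or Vandermonde `binom(x+y, m) = ∑ binom(x,a) binom(y, m-a)` from `binom(-1/2, k) 4^k = (-1)^k binom(2k,k) ∈ ℤ` (`Nat.centralBinom`) and an integer `y`).
* `sqs_int`: `sqs g m` is `∑_{k≤m} binom(-1/2,k)` times a sum of products of `k` factors `γ_l/γ_0`, total index `m`: `4^m g^m sqs g m ∈ ℤ[t]` (`PI` calculus in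
  `Pint.lean`; by induction on `k` the coefficient of `z^m` of `w^k` is `PI 1 (g^k)`).
-/

open Polynomial

namespace Pool.Agent.Helper79.GC

open Pool.Agent.Helper37.GP

variable {g : ℤ[X]}

/-- The constants `∏_{k<m} (k + 1/2 - i) / m!`. -/
noncomputable def chm (m i : ℕ) : ℚ :=
  (∏ k ∈ Finset.range m, ((k : ℚ) + 1 / 2 - i)) / (m.factorial : ℚ)

namespace HypDenAux

open PintAux

theorem chm_zero (i : ℕ) : chm 0 i = 1 := by
  simp [chm]

theorem chm_succ_succ (m i : ℕ) : chm (m + 1) (i + 1) = chm (m + 1) i - chm m i := by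
  have h1 : ∏ k ∈ Finset.range (m + 1), ((k : ℚ) + 1 / 2 - ((i + 1 : ℕ) : ℚ)) =
      (1 / 2 - ((i : ℚ) + 1)) * ∏ k ∈ Finset.range m, ((k : ℚ) + 1 / 2 - i) := by
    rw [Finset.prod_range_succ', mul_comm]
    congr 1
    · push_cast
      ring
    · refine Finset.prod_congr rfl fun k _ => ?_
      push_cast
      ring
  unfold chm
  rw [h1, Finset.prod_range_succ, Nat.factorial_succ]
  have h2 : (m.factorial : ℚ) ≠ 0 := by exact_mod_cast m.factorial_ne_zero
  have h3 : ((m : ℚ) + 1) ≠ 0 := by positivity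
  push_cast
  field_simp
  ring

theorem chm_self (m : ℕ) : (4 : ℚ) ^ m * chm m 0 = m.centralBinom := by
  induction m with
  | zero => simp [chm]
  | succ m ih =>
    have h1 : ((m : ℚ) + 1) * chm (m + 1) 0 = ((m : ℚ) + 1 / 2) * chm m 0 := by
      unfold chm
      rw [Finset.prod_range_succ, Nat.factorial_succ]
      have h2 : (m.factorial : ℚ) ≠ 0 := by exact_mod_cast m.factorial_ne_zero
      have h3 : ((m : ℚ) + 1) ≠ 0 := by positivity
      push_cast
      field_simp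
      ring_nf
    have h4 : ((m : ℚ) + 1) * ((m + 1).centralBinom : ℚ) = 2 * (2 * m + 1) * m.centralBinom := by
      exact_mod_cast Nat.succ_mul_centralBinom_succ m
    have h3 : ((m : ℚ) + 1) ≠ 0 := by positivity
    apply mul_left_cancel₀ h3
    rw [h4, ← ih, pow_succ]
    calc ((m : ℚ) + 1) * (4 ^ m * 4 * chm (m + 1) 0)
        = 4 ^ m * 4 * (((m : ℚ) + 1) * chm (m + 1) 0) := by ring
      _ = 2 * (2 * m + 1) * (4 ^ m * chm m 0) := by rw [h1]; ring

theorem choose_succ_mul (r : ℚ) (k : ℕ) :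
    ((k : ℚ) + 1) * Ring.choose r (k + 1) = (r - k) * Ring.choose r k := by
  rw [Ring.choose_eq_smul, Ring.choose_eq_smul, descPochhammer_succ_right, smeval_mul,
    smeval_sub, smeval_X, smeval_natCast, Nat.factorial_succ]
  have h2 : (k.factorial : ℚ) ≠ 0 := by exact_mod_cast k.factorial_ne_zero
  have h3 : ((k : ℚ) + 1) ≠ 0 := by positivity
  simp only [smul_eq_mul, pow_one, pow_zero, nsmul_eq_mul, mul_one]
  push_cast
  field_simp

theorem choose_half (k : ℕ) :
    (4 : ℚ) ^ k * Ring.choose (-(1 / 2) : ℚ) k = (-1) ^ k * k.centralBinom := by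
  induction k with
  | zero => simp
  | succ k ih =>
    have h1 := choose_succ_mul (-(1 / 2)) k
    have h4 : ((k : ℚ) + 1) * ((k + 1).centralBinom : ℚ) = 2 * (2 * k + 1) * k.centralBinom := by
      exact_mod_cast Nat.succ_mul_centralBinom_succ k
    have h3 : ((k : ℚ) + 1) ≠ 0 := by positivity
    apply mul_left_cancel₀ h3
    calc ((k : ℚ) + 1) * (4 ^ (k + 1) * Ring.choose (-(1 / 2) : ℚ) (k + 1))
        = 4 ^ (k + 1) * (((k : ℚ) + 1) * Ring.choose (-(1 / 2) : ℚ) (k + 1)) := by ring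
      _ = 4 ^ (k + 1) * ((-(1 / 2) - k) * Ring.choose (-(1 / 2) : ℚ) k) := by rw [h1]
      _ = -(2 * (2 * k + 1)) * (4 ^ k * Ring.choose (-(1 / 2) : ℚ) k) := by rw [pow_succ]; ring
      _ = -(2 * (2 * k + 1)) * ((-1) ^ k * k.centralBinom) := by rw [ih]
      _ = (-1) ^ (k + 1) * (2 * (2 * k + 1) * k.centralBinom) := by rw [pow_succ]; ring
      _ = (-1) ^ (k + 1) * (((k : ℚ) + 1) * ((k + 1).centralBinom : ℚ)) := by rw [h4]
      _ = ((k : ℚ) + 1) * ((-1) ^ (k + 1) * ((k + 1).centralBinom : ℚ)) := by ring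

end HypDenAux

open HypDenAux PintAux

theorem chm_den (m i : ℕ) : ∃ z : ℤ, (4 : ℚ) ^ m * chm m i = z := by
  induction i generalizing m with
  | zero => exact ⟨m.centralBinom, by rw [chm_self]; simp⟩
  | succ i ih =>
    cases m with
    | zero => exact ⟨1, by simp [chm_zero]⟩
    | succ m =>
      obtain ⟨z, hz⟩ := ih (m + 1)
      obtain ⟨w, hw⟩ := ih m
      refine ⟨z - 4 * w, ?_⟩
      push_cast
      rw [chm_succ_succ, ← hz, ← hw, pow_succ]
      ring

theorem choose_half_den (k : ℕ) : ∃ z : ℤ, (4 : ℚ) ^ k * Ring.choose (-(1 / 2) : ℚ) k = z :=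
  ⟨(-1) ^ k * k.centralBinom, by rw [choose_half]; push_cast; ring⟩

namespace HypDenAux

theorem PI_gam (l : ℕ) : PI 1 1 (gam g l) := by
  unfold gam
  rw [if_pos (Int.natCast_nonneg l), Int.toNat_natCast]
  exact PI_emb (hasseDeriv l g)

theorem gam_zero : gam g 0 = emb (g.map (Int.castRingHom ℚ)) := by
  unfold gam
  rw [if_pos le_rfl, Int.toNat_zero, gamX, hasseDeriv_zero']

theorem PI_w (hg : g ≠ 0) (l : ℕ) :
    PI 1 g (if l = 0 then 0 else gam g l * (gam g 0)⁻¹) := by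
  split_ifs with h
  · exact PI_zero 1 g
  · have h1 := PI_mul (PI_gam (g := g) l) (PI_inv hg)
    rw [mul_one, one_mul, ← gam_zero] at h1
    exact h1

theorem PI_pow (hg : g ≠ 0) (k : ℕ) : ∀ m : ℕ, PI 1 (g ^ k) (PowerSeries.coeff m
    ((PowerSeries.mk fun l => if l = 0 then 0 else gam g l * (gam g 0)⁻¹) ^ k)) := by
  induction k with
  | zero =>
    intro m
    rw [pow_zero, pow_zero, PowerSeries.coeff_one]
    split_ifs with h
    · rw [PI_iff]
      exact ⟨1, by simp⟩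
    · exact PI_zero 1 1
  | succ k ih =>
    intro m
    rw [pow_succ (PowerSeries.mk _), PowerSeries.coeff_mul]
    refine PI_sum _ fun x _ => ?_
    rw [PowerSeries.coeff_mk, pow_succ]
    have h1 := PI_mul (ih x.1) (PI_w hg x.2)
    rw [mul_one] at h1
    exact h1

end HypDenAux

theorem sqs_int (hg : g ≠ 0) (m : ℕ) : PI (4 ^ m) (g ^ m) (sqs g m) := by
  unfold sqs
  rw [map_sum]
  refine PI_sum _ fun k hk => ?_
  rw [Finset.mem_range, Nat.lt_succ_iff] at hk
  rw [PowerSeries.coeff_C_mul]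
  have h1 : PI (4 ^ k) 1 (algebraMap ℚ (LaurentSeries ℚ) (Ring.choose (-(1 / 2) : ℚ) k)) := by
    obtain ⟨z, hz⟩ := choose_half_den k
    rw [PI_iff]
    refine ⟨(z : ℤ[X]), ?_⟩
    rw [map_one, one_mul, ← natsmul_eq, ratsmul_eq, ← map_mul, Nat.cast_pow, Nat.cast_ofNat, hz,
      map_intCast, map_intCast]
  have h2 := PI_mul h1 (PI_pow hg k m)
  rw [mul_one, one_mul] at h2
  exact PI_of_dvd h2 (pow_dvd_pow 4 hk) (pow_dvd_pow g hk)

end Pool.Agent.Helper79.GC
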