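import Pool.Agent.Helper79.GC.HypDefs

/-!
# GH-3a: eigenvalues

* `hypZ_det`: lower triangular with diagonal `t^i` (`Matrix.det_of_lowerTriangular`).
* `hypN_eig`: `hypN h` is upper triangular (for `i < a`: `0 - 0 + 0`) with diagonal entries `1/2 + a` (`a ≤ 2h-2`) and `h - 1/2` (`a = 2h - 1`) (Mathlib:
  `Matrix.charpoly_of_upperTriangular`).
-/

open Polynomial

namespace Pool.Agent.Helper79.GC

open Pool.Agent.Helper37.GP

theorem hypZ_det (n : ℕ) : (hypZ n).det ≠ 0 := by
  rw [Matrix.det_of_isLowerTriangular (hypZ n) (by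
    intro i j hij
    have h1 : (i : ℕ) < j := hij
    simp only [hypZ, Matrix.of_apply]
    rw [if_neg (by omega)])]
  rw [Finset.prod_ne_zero_iff]
  intro i _
  simp only [hypZ, Matrix.of_apply, le_refl, if_true, Nat.sub_self, pow_zero, Nat.choose_self,
    Nat.cast_one, mul_one, map_one, one_mul]
  exact pow_ne_zero _ X_ne_zero

theorem hypN_eig {h : ℕ} (hh : 1 ≤ h) :
    ∀ z : ℂ, ((hypN h).charpoly.map (algebraMap ℚ ℂ)).IsRoot z → ∃ k : ℤ, z = k + 1 / 2 := by
  intro z hz
  have hT : (hypN h).BlockTriangular id := by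
    intro i j hij
    have h1 : (j : ℕ) < i := hij
    have h2 := i.2
    have h3 : ¬ (j = i) := fun e => by rw [e] at h1; omega
    simp only [hypN, Matrix.of_apply]
    rw [if_pos h1, if_neg (by omega), if_neg h3]
    norm_num
  rw [Matrix.charpoly_of_isUpperTriangular _ hT, Polynomial.map_prod, Polynomial.IsRoot.def,
    Polynomial.eval_prod, Finset.prod_eq_zero_iff] at hz
  obtain ⟨i, -, hi⟩ := hz
  rw [Polynomial.map_sub, Polynomial.map_X, Polynomial.map_C, Polynomial.eval_sub,
    Polynomial.eval_X, Polynomial.eval_C, sub_eq_zero] at hi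
  rw [hi]
  simp only [hypN, Matrix.of_apply]
  rw [if_neg (lt_irrefl _), if_pos trivial]
  by_cases hc : (i : ℕ) + 1 = 2 * h
  · rw [if_pos hc]
    refine ⟨(i : ℤ) - h, ?_⟩
    push_cast
    simp only [eq_ratCast]
    push_cast
    ring
  · rw [if_neg hc]
    refine ⟨(i : ℤ), ?_⟩
    simp only [eq_ratCast]
    push_cast
    ring

end Pool.Agent.Helper79.GC
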