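import Pool.Agent.Helper79.GC.HypPer

/-!
# GH-4b: the exactness relation for hyperelliptic integrals

* `loop_exact`: `0 = ∫_0^1 d/ds (y/(γ-t)) ds`, `d/ds (y/(γ-t)) = (1/2) (g'(γ) - g(γ)/(γ-t)) γ'/y` (`intervalIntegral.integral_eq_sub_of_hasDerivAt_of_...`, closedness). With
  `g(x) = g(t) + (x-t) ∑_{k≥0} γ_{k+1} (x-t)^k` and `g'(x) = ∑_{k≥0} (k+1) γ_{k+1} (x-t)^k` (Taylor, `hasseDeriv`; `Polynomial.sum_hasseDeriv_eq...`, `taylor`):
  `g(t) ∫ γ'/((γ-t) y) = ∑_k k γ_{k+1}(t) ∫ (γ-t)^k γ'/y`, `k < natDegree g`.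

(`s ↦ y(t,s)` is a continuous square root of the nonvanishing `C¹` function `g(γ)(γ - t)` on `[0,1]`, so it is differentiable with derivative `((g'(γ)(γ-t) + g(γ)) γ')/(2y)`:
`y(s') - y(s) = (y(s')² - y(s)²)/(y(s') + y(s))`.)
-/

open Polynomial Filter Topology MeasureTheory

namespace Pool.Agent.Helper79.GC

theorem hx_sqrt {y H : ℝ → ℂ} {s : ℝ} {H' : ℂ} (hy : ContinuousAt y s) (h0 : y s ≠ 0)
    (hsq : ∀ᶠ s' in 𝓝 s, y s' ^ 2 = H s') (hH : HasDerivAt H H' s) :
    HasDerivAt y (H' / (2 * y s)) s := by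
  rw [hasDerivAt_iff_tendsto_slope] at hH ⊢
  have hs : y s ^ 2 = H s := hsq.self_of_nhds
  have hsum : Tendsto (fun s' => y s' + y s) (𝓝[≠] s) (𝓝 (2 * y s)) := by
    have h1 : Tendsto (fun s' => y s' + y s) (𝓝 s) (𝓝 (y s + y s)) := hy.add tendsto_const_nhds
    rw [← two_mul] at h1
    exact h1.mono_left nhdsWithin_le_nhds
  have h2 : (2 * y s) ≠ 0 := mul_ne_zero two_ne_zero h0
  refine (hH.div hsum h2).congr' ?_
  have hne : ∀ᶠ s' in 𝓝[≠] s, y s' + y s ≠ 0 := hsum.eventually_ne h2
  filter_upwards [hne, hsq.filter_mono nhdsWithin_le_nhds] with s' hn hq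
  show slope H s s' / (y s' + y s) = slope y s s'
  rw [slope_def_module, slope_def_module, ← hq, ← hs]
  have e : y s' ^ 2 - y s ^ 2 = (y s' - y s) * (y s' + y s) := by ring
  rw [e, ← smul_mul_assoc, mul_div_assoc, div_self hn, mul_one]

/-- Taylor expansion at `t` and its derivative. -/
theorem hx_taylor (g : ℚ[X]) (x t : ℂ) :
    aeval x g = ∑ j ∈ Finset.range (g.natDegree + 1), aeval t (hasseDeriv j g) * (x - t) ^ j ∧
    aeval x (derivative g) = ∑ j ∈ Finset.range (g.natDegree + 1),
      (j : ℂ) * aeval t (hasseDeriv j g) * (x - t) ^ (j - 1) := by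
  set p : ℂ[X] := g.map (algebraMap ℚ ℂ) with hp
  have hdeg : p.natDegree = g.natDegree := natDegree_map _
  have hh : ∀ j, (hasseDeriv j p).eval t = aeval t (hasseDeriv j g) := by
    intro j
    have e : hasseDeriv j p = (hasseDeriv j g).map (algebraMap ℚ ℂ) := by
      ext n
      simp [hasseDeriv_coeff, hp]
    rw [e, eval_map_algebraMap]
  have hsum : p = ∑ j ∈ Finset.range (g.natDegree + 1),
      C (aeval t (hasseDeriv j g)) * (X - C t) ^ j := by
    have h1 := sum_taylor_eq p t
    rw [Polynomial.sum_over_range] at h1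
    · rw [natDegree_taylor, hdeg] at h1
      conv_lhs => rw [← h1]
      refine Finset.sum_congr rfl fun j _ => ?_
      rw [taylor_coeff, hh]
    · intro n
      simp
  constructor
  · rw [← eval_map_algebraMap, ← hp, hsum, eval_finsetSum]
    refine Finset.sum_congr rfl fun j _ => ?_
    simp
  · rw [← eval_map_algebraMap, ← derivative_map, ← hp, hsum, derivative_sum, eval_finsetSum]
    refine Finset.sum_congr rfl fun j _ => ?_
    rw [derivative_C_mul, derivative_X_sub_C_pow]
    simp
    ring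

/-- The combination `g'(x) - g(x)/(x-t)`. -/
theorem hx_comb (g : ℚ[X]) {x t : ℂ} (hx : x - t ≠ 0) :
    aeval x (derivative g) - aeval x g / (x - t) =
      (∑ k ∈ Finset.range g.natDegree, (k : ℂ) * aeval t (hasseDeriv (k + 1) g) * (x - t) ^ k) -
        aeval t g * (x - t) ^ (-1 : ℤ) := by
  obtain ⟨h1, h2⟩ := hx_taylor g x t
  rw [h1, h2, Finset.sum_range_succ', Finset.sum_range_succ']
  simp only [hasseDeriv_zero', pow_zero, mul_one, Nat.cast_zero, zero_mul, add_zero,
    Nat.add_sub_cancel, zpow_neg_one]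
  rw [add_div, Finset.sum_div, ← sub_sub, ← Finset.sum_sub_distrib]
  congr 1
  refine Finset.sum_congr rfl fun k _ => ?_
  rw [pow_succ, ← mul_assoc, mul_div_assoc, div_self hx]
  push_cast
  ring

theorem loop_exact {g : ℚ[X]} {V : Set ℂ} (hV : IsOpen V) {γ : ℝ → ℂ} {y : ℂ → ℝ → ℂ}
    (h : LoopData g V γ y) {t : ℂ} (ht : t ∈ V) :
    aeval t g * loopI γ y (-1) t = ∑ k ∈ Finset.range g.natDegree,
      (k : ℂ) * aeval t (hasseDeriv (k + 1) g) * loopI γ y k t := by
  have hsq := h.sq t ht
  have hne := h.ne t ht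
  have hcont : ContinuousOn (fun s => y t s) (Set.Icc 0 1) := by
    have : ContinuousOn (fun s : ℝ => ((t, s) : ℂ × ℝ)) (Set.Icc 0 1) := by fun_prop
    exact h.cont.comp this fun s hs => ⟨ht, hs⟩
  have hγne : ∀ s ∈ Set.Icc (0 : ℝ) 1, γ s - t ≠ 0 := by
    intro s hs h0
    have h1 := hsq s hs
    rw [h0, mul_zero] at h1
    exact hne s hs (pow_eq_zero_iff two_ne_zero |>.1 h1)
  have hγc : Continuous γ := h.smooth.continuous
  have hγ'c : Continuous (deriv γ) := h.smooth.continuous_deriv le_rfl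
  have hγd : ∀ s, HasDerivAt γ (deriv γ s) s := fun s =>
    (h.smooth.differentiable one_ne_zero s).hasDerivAt
  -- integrability
  have hint : ∀ k : ℤ, IntervalIntegrable (fun s => (γ s - t) ^ k * deriv γ s / y t s)
      volume 0 1 := by
    intro k
    apply ContinuousOn.intervalIntegrable
    rw [Set.uIcc_of_le zero_le_one]
    refine ContinuousOn.div ?_ hcont hne
    refine ContinuousOn.mul ?_ hγ'c.continuousOn
    exact ContinuousOn.zpow₀ (hγc.sub continuous_const).continuousOn k
      fun s hs => Or.inl (hγne s hs)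
  -- the derivative
  set F : ℝ → ℂ := fun s => y t s / (γ s - t) with hF
  set f : ℝ → ℂ := fun s => (∑ k ∈ Finset.range g.natDegree,
    (k : ℂ) * aeval t (hasseDeriv (k + 1) g) * ((γ s - t) ^ (k : ℤ) * deriv γ s / y t s)) -
      aeval t g * ((γ s - t) ^ (-1 : ℤ) * deriv γ s / y t s) with hf
  have hFd : ∀ s ∈ Set.Ioo (0 : ℝ) 1, HasDerivAt F ((1 / 2) * f s) s := by
    intro s hs
    have hs' : s ∈ Set.Icc (0 : ℝ) 1 := Set.Ioo_subset_Icc_self hs
    have hnhds : Set.Icc (0 : ℝ) 1 ∈ 𝓝 s := Icc_mem_nhds hs.1 hs.2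
    have hyc : ContinuousAt (fun s => y t s) s := hcont.continuousAt hnhds
    have hH : HasDerivAt (fun s => aeval (γ s) g * (γ s - t))
        (aeval (γ s) (derivative g) * deriv γ s * (γ s - t) + aeval (γ s) g * deriv γ s) s := by
      have h1 : HasDerivAt (fun s => aeval (γ s) g) (aeval (γ s) (derivative g) * deriv γ s) s := by
        have h2 := (g.hasDerivAt_aeval (γ s)).comp_of_eq s (hγd s) rfl
        exact h2
      exact h1.mul ((hγd s).sub_const t)
    have hy' := hx_sqrt hyc (hne s hs') (by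
      filter_upwards [hnhds] with s' hs'
      exact hsq s' hs') hH
    have hd := hy'.div ((hγd s).sub_const t) (hγne s hs')
    refine hd.congr_deriv ?_
    have hu := hγne s hs'
    have hy0 := hne s hs'
    have hq := hsq s hs'
    have hfs : f s = (aeval (γ s) (derivative g) - aeval (γ s) g / (γ s - t)) *
        (deriv γ s / y t s) := by
      rw [hx_comb g hu, sub_mul, Finset.sum_mul]
      have e1 : ∑ k ∈ Finset.range g.natDegree, (k : ℂ) * aeval t (hasseDeriv (k + 1) g) *
          ((γ s - t) ^ (k : ℤ) * deriv γ s / y t s) =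
          ∑ k ∈ Finset.range g.natDegree, (k : ℂ) * aeval t (hasseDeriv (k + 1) g) *
            (γ s - t) ^ k * (deriv γ s / y t s) := by
        refine Finset.sum_congr rfl fun k _ => ?_
        rw [zpow_natCast]
        ring
      have e2 : aeval t g * ((γ s - t) ^ (-1 : ℤ) * deriv γ s / y t s) =
          aeval t g * (γ s - t) ^ (-1 : ℤ) * (deriv γ s / y t s) := by ring
      rw [← e1, ← e2]
    rw [hfs]
    have hG : aeval (γ s) g = y t s ^ 2 / (γ s - t) := by
      rw [hq, mul_div_assoc, div_self hu, mul_one]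
    rw [hG]
    field_simp
    ring
  have hFc : ContinuousOn F (Set.Icc 0 1) :=
    hcont.div (hγc.sub continuous_const).continuousOn hγne
  have hfi : IntervalIntegrable f volume 0 1 := by
    refine IntervalIntegrable.sub ?_ ((hint (-1)).const_mul _)
    have := IntervalIntegrable.sum (Finset.range g.natDegree) (μ := volume) (a := 0) (b := 1)
      (f := fun (k : ℕ) (s : ℝ) => (k : ℂ) * aeval t (hasseDeriv (k + 1) g) *
        ((γ s - t) ^ (k : ℤ) * deriv γ s / y t s)) (fun k _ => (hint k).const_mul _)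
    simpa only [Finset.sum_fn] using this
  have hmain := intervalIntegral.integral_eq_sub_of_hasDerivAt_of_le zero_le_one hFc hFd
    (hfi.const_mul _)
  have hF01 : F 1 - F 0 = 0 := by
    simp only [hF]
    rw [← h.yclosed t ht, ← h.closed, sub_self]
  rw [hF01, intervalIntegral.integral_const_mul] at hmain
  have hf0 : ∫ s in (0 : ℝ)..1, f s = 0 := by
    have : (1 / 2 : ℂ) ≠ 0 := by norm_num
    exact (mul_eq_zero.1 hmain).resolve_left this
  rw [hf, intervalIntegral.integral_sub, intervalIntegral.integral_finsetSum] at hf0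
  · simp only [intervalIntegral.integral_const_mul] at hf0
    rw [sub_eq_zero] at hf0
    exact hf0.symm
  · intro k _
    exact (hint k).const_mul _
  · have := IntervalIntegrable.sum (Finset.range g.natDegree) (μ := volume) (a := 0) (b := 1)
      (f := fun (k : ℕ) (s : ℝ) => (k : ℂ) * aeval t (hasseDeriv (k + 1) g) *
        ((γ s - t) ^ (k : ℤ) * deriv γ s / y t s)) (fun k _ => (hint k).const_mul _)
    simpa only [Finset.sum_fn] using this
  · exact (hint (-1)).const_mul _

end Pool.Agent.Helper79.GC
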