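import Pool.Agent.Helper79.GC.HypRed
import Pool.Agent.Helper79.GC.HypDen
import Pool.Agent.Helper79.GC.Git

/-!
# GH-2b: the iterates of the hyperelliptic system

`𝔤 = (emb T)⁻¹ • eM B`, `T = 2 g`, `B = hypB`; `chm m i = ∏_{k<m} (k + 1/2 - i) / m!`.
Induction on `m`; `(m+1) G_{m+1} = G_m' + G_m 𝔤` (`Git_succ`): row `i` of `G_m` is `chm m i` times `e_{i-m}` if `m ≤ i`, and `chm m i` times a `v` with
`Red g n (m - i) b v` if `m > i`. Note that row `i ≥ 1` of `𝔤` is `(1/2 - i) e_{i-1}` and row `0` is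
`(∑_k k γ_{k+1} e_k)/(2 γ_0) = (1/2) v¹`, `v¹` from `red_one` (this is the step from `m = i` to `m = i + 1`); for a row vector `v` (supported on `0 ≤ i < n`)
`v' + v 𝔤 = stepV g v`; `red_step`. The constants: `(m+1) chm (m+1) i = (m + 1/2 - i) chm m i`.
-/

open Polynomial

namespace Pool.Agent.Helper79.GC

open Pool.Agent.Helper37.GP

variable {g : ℤ[X]}

/-- the constants as Laurent series -/
private noncomputable def al (c : ℚ) : LaurentSeries ℚ := algebraMap ℚ (LaurentSeries ℚ) c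

private theorem al_mul (c d : ℚ) : al (c * d) = al c * al d := map_mul _ _ _

private theorem al_ne {c : ℚ} (hc : c ≠ 0) : al c ≠ 0 := by
  intro h
  exact hc ((map_eq_zero (algebraMap ℚ (LaurentSeries ℚ))).1 h)

private theorem hg_smul (c : ℚ) (f : LaurentSeries ℚ) : c • f = al c * f := by
  ext n
  rw [al, algebraMap_eq_single, HahnSeries.coeff_single_zero_mul, HahnSeries.coeff_smul,
    smul_eq_mul]

private theorem hg_zero (g : ℤ[X]) : gam g 0 = emb (gamX g 0) := by
  simp [gam]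

private theorem hg_succ (g : ℤ[X]) (k : ℕ) : gam g ((k : ℤ) + 1) = emb (gamX g (k + 1)) := by
  have h1 : (0 : ℤ) ≤ (k : ℤ) + 1 := by positivity
  have h2 : ((k : ℤ) + 1).toNat = k + 1 := by omega
  rw [gam, if_pos h1, h2]

private theorem hg_T (g : ℤ[X]) :
    emb ((hypT g).map (Int.castRingHom ℚ)) = al 2 * gam g 0 := by
  have h1 : gamX g 0 = g.map (Int.castRingHom ℚ) := by
    rw [gamX, hasseDeriv_zero']
  rw [hg_zero, h1, hypT, Polynomial.map_mul, map_mul, Polynomial.map_C, emb_C]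
  rfl

/-- the entries of the system in row `0` -/
private theorem hg_row0 (hg : g ≠ 0) {n : ℕ} (i k : Fin n) (hi : (i : ℕ) = 0) :
    ((emb ((hypT g).map (Int.castRingHom ℚ)))⁻¹ • eM (hypB g n)) i k =
      al (((k : ℕ) : ℚ) / 2) * (gam g ((k : ℤ) + 1) * (gam g 0)⁻¹) := by
  have h0 := gam_zero_ne hg
  have h2 : al 2 ≠ 0 := al_ne (by norm_num)
  rw [Matrix.smul_apply, eM_apply, hypB, Matrix.of_apply, if_pos hi, hg_T, hg_succ, map_mul,
    map_natCast, smul_eq_mul, div_eq_mul_inv, al_mul]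
  have h3 : al ((k : ℕ) : ℚ) = ((k : ℕ) : LaurentSeries ℚ) := map_natCast _ _
  have h4 : al ((2 : ℚ)⁻¹) = (al 2)⁻¹ := map_inv₀ _ _
  rw [h3, h4, mul_inv]
  ring

private theorem hg_row (hg : g ≠ 0) {n : ℕ} (i k : Fin n) (hi : (i : ℕ) ≠ 0) :
    ((emb ((hypT g).map (Int.castRingHom ℚ)))⁻¹ • eM (hypB g n)) i k =
      if (k : ℕ) + 1 = i then al (1 / 2 - ((i : ℕ) : ℚ)) else 0 := by
  have h0 := gam_zero_ne hg
  have h2 : al 2 ≠ 0 := al_ne (by norm_num)
  rw [Matrix.smul_apply, eM_apply, hypB, Matrix.of_apply, if_neg hi, hg_T]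
  by_cases hk : (k : ℕ) + 1 = i
  · rw [if_pos hk, if_pos hk, map_mul, ← hg_zero, smul_eq_mul, mul_inv]
    have h5 : emb (1 - 2 * ((i : ℕ) : ℚ[X])) = al (1 - 2 * ((i : ℕ) : ℚ)) := by
      rw [al, map_sub, map_one, map_mul, map_natCast, map_sub, map_one, map_mul, map_natCast,
        map_ofNat, map_ofNat]
    have h6 : (1 - 2 * ((i : ℕ) : ℚ)) = 2 * (1 / 2 - ((i : ℕ) : ℚ)) := by ring
    rw [h5, h6, al_mul]
    field_simp
  · rw [if_neg hk, if_neg hk, map_zero, smul_zero]

/-- a row vector times the system -/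
private theorem hg_vec (hg : g ≠ 0) {n : ℕ} (hn1 : 1 ≤ n) (v : ℤ → LaurentSeries ℚ)
    (hv : ∀ i : ℤ, i < 0 ∨ (n : ℤ) ≤ i → v i = 0) (k : Fin n) :
    dd (v (k : ℤ)) + ∑ l : Fin n, v (l : ℤ) *
      ((emb ((hypT g).map (Int.castRingHom ℚ)))⁻¹ • eM (hypB g n)) l k = stepV g v (k : ℤ) := by
  have hk0 : (0 : ℤ) ≤ ((k : ℕ) : ℤ) := by positivity
  rw [stepV, if_pos hk0]
  have h1 : ∀ l : Fin n, v (l : ℤ) *
      ((emb ((hypT g).map (Int.castRingHom ℚ)))⁻¹ • eM (hypB g n)) l k =
      (if l = ⟨0, hn1⟩ then v 0 * (al (((k : ℕ) : ℚ) / 2) *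
        (gam g ((k : ℤ) + 1) * (gam g 0)⁻¹)) else 0) +
      (if (k : ℕ) + 1 = l then v ((k : ℤ) + 1) * al (1 / 2 - (((k : ℕ) : ℚ) + 1)) else 0) := by
    intro l
    by_cases hl : l = ⟨0, hn1⟩
    · subst hl
      rw [hg_row0 hg _ _ rfl, if_pos rfl, if_neg (by simp), add_zero]
      rfl
    · have hl' : (l : ℕ) ≠ 0 := fun h => hl (Fin.ext h)
      rw [hg_row hg _ _ hl', if_neg hl, zero_add]
      by_cases hk : (k : ℕ) + 1 = l
      · rw [if_pos hk, if_pos hk, ← hk]
        push_cast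
        rfl
      · rw [if_neg hk, if_neg hk, mul_zero]
  rw [Finset.sum_congr rfl fun l _ => h1 l, Finset.sum_add_distrib,
    Finset.sum_ite_eq' Finset.univ (⟨0, hn1⟩ : Fin n), if_pos (Finset.mem_univ _)]
  have h2 : (∑ l : Fin n, if (k : ℕ) + 1 = l then
      v ((k : ℤ) + 1) * al (1 / 2 - (((k : ℕ) : ℚ) + 1)) else 0) =
      v ((k : ℤ) + 1) * al (1 / 2 - (((k : ℕ) : ℚ) + 1)) := by
    by_cases hk : (k : ℕ) + 1 < n
    · rw [Finset.sum_eq_single (⟨(k : ℕ) + 1, hk⟩ : Fin n)]
      · rw [if_pos rfl]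
      · intro b _ hb
        rw [if_neg fun h => hb (Fin.ext h.symm)]
      · intro h
        exact absurd (Finset.mem_univ _) h
    · rw [hv ((k : ℤ) + 1) (Or.inr (by omega)), zero_mul]
      exact Finset.sum_eq_zero fun l _ => by simp
  rw [h2, hg_smul, hg_smul]
  have h3 : al (1 / 2 - (((k : ℕ) : ℚ) + 1)) = -al ((((k : ℕ) : ℤ) : ℚ) + 1 / 2) := by
    rw [al, al, ← map_neg]
    congr 1
    push_cast
    ring
  rw [h3]
  push_cast
  ring

private theorem chm_succ (m i : ℕ) :
    ((m : ℚ) + 1) * chm (m + 1) i = ((m : ℚ) + 1 / 2 - i) * chm m i := by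
  have h0 : ((m : ℚ) + 1) ≠ 0 := by positivity
  have h1 : (m.factorial : ℚ) ≠ 0 := by positivity
  rw [chm, chm, Finset.prod_range_succ, Nat.factorial_succ]
  generalize (∏ k ∈ Finset.range m, ((k : ℚ) + 1 / 2 - i)) = P
  push_cast
  field_simp

private theorem hg_cancel {m : ℕ} {a b : LaurentSeries ℚ} (h : al ((m : ℚ) + 1) * a =
    al ((m : ℚ) + 1) * b) : a = b :=
  mul_left_cancel₀ (al_ne (by positivity)) h

theorem git_hyp (hg : g ≠ 0) {n : ℕ} (hn : g.natDegree ≤ n) (hn1 : 1 ≤ n) (m : ℕ) (i : Fin n) :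
    (m ≤ (i : ℕ) → ∀ k : Fin n,
      Git ((emb ((hypT g).map (Int.castRingHom ℚ)))⁻¹ • eM (hypB g n)) m i k =
        if (k : ℕ) + m = i then algebraMap ℚ (LaurentSeries ℚ) (chm m i) else 0) ∧
    ((i : ℕ) < m → ∃ (b : ℕ → LaurentSeries ℚ) (v : ℤ → LaurentSeries ℚ),
      Red g n (m - i) b v ∧ ∀ k : Fin n,
      Git ((emb ((hypT g).map (Int.castRingHom ℚ)))⁻¹ • eM (hypB g n)) m i k =
        chm m i • v (k : ℤ)) := by
  set 𝔤 := (emb ((hypT g).map (Int.castRingHom ℚ)))⁻¹ • eM (hypB g n) with h𝔤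
  induction m with
  | zero =>
    constructor
    · intro _ k
      rw [Git, Matrix.one_apply]
      by_cases hk : i = k
      · rw [if_pos hk, if_pos (by rw [hk]; rfl)]
        simp [chm]
      · rw [if_neg hk, if_neg fun h => hk (Fin.ext h.symm)]
    · intro h
      exact absurd h (Nat.not_lt_zero _)
  | succ m ih =>
    have hs : ∀ k : Fin n, al ((m : ℚ) + 1) * Git 𝔤 (m + 1) i k =
        dd (Git 𝔤 m i k) + ∑ l : Fin n, Git 𝔤 m i l * 𝔤 l k := by
      intro k
      have h1 := congrFun (congrFun (Git_succ 𝔤 m) i) k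
      rw [Matrix.smul_apply, hg_smul, Matrix.add_apply, dM_apply, Matrix.mul_apply] at h1
      exact h1
    constructor
    · intro hmi k
      have h1 := ih.1 (by omega)
      apply hg_cancel (m := m)
      rw [hs]
      have h2 : dd (Git 𝔤 m i k) = 0 := by
        rw [h1]
        split_ifs
        · exact dd_algebraMap _
        · exact dd_zero
      have h3 : ∑ l : Fin n, Git 𝔤 m i l * 𝔤 l k = al (chm m i) *
          (if (k : ℕ) + 1 = (i : ℕ) - m then al (1 / 2 - (((i : ℕ) - m : ℕ) : ℚ)) else 0) := by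
        rw [Finset.sum_eq_single (⟨(i : ℕ) - m, by omega⟩ : Fin n)]
        · rw [h1, if_pos (by simp; omega), h𝔤, hg_row hg _ _ (by simp; omega)]
          rfl
        · intro b _ hb
          rw [h1, if_neg, zero_mul]
          intro h
          apply hb
          apply Fin.ext
          simp
          omega
        · intro h
          exact absurd (Finset.mem_univ _) h
      rw [h2, h3, zero_add]
      by_cases hk : (k : ℕ) + (m + 1) = i
      · rw [if_pos hk, if_pos (by omega)]
        change al _ * al _ = al _ * al _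
        rw [← al_mul, ← al_mul, chm_succ, Nat.cast_sub (by omega)]
        congr 1
        ring
      · rw [if_neg hk, if_neg (by omega), mul_zero, mul_zero]
    · intro him
      rcases Nat.lt_or_ge (i : ℕ) m with him' | him'
      · obtain ⟨b, v, hb, hv⟩ := ih.2 him'
        obtain ⟨b', hb'⟩ := red_step hg hn (by omega : 1 ≤ m - (i : ℕ)) hb
        refine ⟨b', fun l => (((m - (i : ℕ) : ℕ) : ℚ) + 1 / 2)⁻¹ • stepV g v l, ?_, ?_⟩
        · have h1 : m + 1 - (i : ℕ) = m - i + 1 := by omega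
          rw [h1]
          exact hb'
        · intro k
          apply hg_cancel (m := m)
          rw [hs, hv k, Finset.sum_congr rfl fun l _ => by rw [hv l, hg_smul, mul_assoc],
            ← Finset.mul_sum, dd_ratsmul, hg_smul, ← mul_add, hg_vec hg hn1 v hb.1 k]
          change _ = al ((m : ℚ) + 1) * (chm (m + 1) i •
            ((((m - (i : ℕ) : ℕ) : ℚ) + 1 / 2)⁻¹ • stepV g v (k : ℤ)))
          rw [hg_smul, hg_smul, ← mul_assoc, ← al_mul, chm_succ, ← mul_assoc, ← al_mul,
            Nat.cast_sub him'.le]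
          congr 2
          have h2 : ((m : ℚ) - ((i : ℕ) : ℚ) + 1 / 2) ≠ 0 := by
            have h3 : ((i : ℕ) : ℚ) < m := by exact_mod_cast him'
            intro h4
            linarith
          rw [eq_mul_inv_iff_mul_eq₀ h2]
          ring
      · have him2 : (i : ℕ) = m := by omega
        have h1 := ih.1 (by omega)
        refine ⟨fun _ => (2 : ℚ) • (gam g 0)⁻¹, fun l => if 0 ≤ l then
          (l : ℚ) • (gam g (l + 1) * (gam g 0)⁻¹) else 0, ?_, fun k => ?_⟩
        · have h2 : m + 1 - (i : ℕ) = 1 := by omega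
          rw [h2]
          exact red_one hg hn hn1
        · apply hg_cancel (m := m)
          have h2 : dd (Git 𝔤 m i k) = 0 := by
            rw [h1]
            split_ifs
            · exact dd_algebraMap _
            · exact dd_zero
          have h3 : ∑ l : Fin n, Git 𝔤 m i l * 𝔤 l k = al (chm m i) *
              (al (((k : ℕ) : ℚ) / 2) * (gam g ((k : ℤ) + 1) * (gam g 0)⁻¹)) := by
            rw [Finset.sum_eq_single (⟨0, hn1⟩ : Fin n)]
            · rw [h1, if_pos (by simp; omega), h𝔤, hg_row0 hg _ _ rfl]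
              rfl
            · intro b _ hb
              rw [h1, if_neg, zero_mul]
              intro h
              apply hb
              apply Fin.ext
              simp
              omega
            · intro h
              exact absurd (Finset.mem_univ _) h
          have hk0 : (0 : ℤ) ≤ ((k : ℕ) : ℤ) := by positivity
          have h5 : (fun l : ℤ => if 0 ≤ l then
              (l : ℚ) • (gam g (l + 1) * (gam g 0)⁻¹) else 0) (k : ℤ) =
              al (((k : ℕ) : ℚ)) * (gam g ((k : ℤ) + 1) * (gam g 0)⁻¹) := by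
            change (if 0 ≤ ((k : ℕ) : ℤ) then _ else _) = _
            rw [if_pos hk0, hg_smul]
            norm_cast
          rw [hs, h2, h3, zero_add, h5, hg_smul]
          generalize gam g ((k : ℤ) + 1) * (gam g 0)⁻¹ = Q
          rw [← mul_assoc, ← al_mul, ← mul_assoc, ← mul_assoc, ← al_mul, chm_succ, ← al_mul, him2]
          congr 2
          ring

end Pool.Agent.Helper79.GC
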