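import Pool.Agent.Helper79.GC.HypRed2
import Pool.Agent.Helper79.GC.HypGit
import Pool.Agent.Helper37.GP.Lcm

/-!
# GH-2c: Galochkin's condition for the hyperelliptic family

By `git_hyp`, `red_uniq` and `red_explicit`: for `m > i`, `j = m - i`, the entries of row `i` of `G_m` are `chm m i` times
`v_k = (1/2) ∑_{l=1}^j (k+1-l) bex g j l * γ_{k+l}` (the equation in `Red` for `i = k ≥ 0`); `bex g j l` has denominators `g^(1 + (j-l))`, `1 + j - l ≤ j ≤ m`,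
`4^(j-l)` (`sqs_int`), and the odd numbers `2j - 2m' - 1 ≤ 2j` (lcm of `1..2J`, `exists_den` or similar
in `Pool.Agent.Helper37.GP.Lcm`). `T^m = 2^m g^m`. So `q = 2 · 4^(2J) · lcm(1..2J) ≤ H^(J+1)`. Use `gal_iff` and the `PI` calculus of `Pint.lean` (`g^m ∣ T^m`,
`gam g k` is an integral polynomial). For `m ≤ i` only `chm_den` is needed.
-/

open Polynomial

namespace Pool.Agent.Helper79.GC

open Pool.Agent.Helper37.GP

variable {g : ℤ[X]}

namespace HypGalAux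

open PintAux

theorem PI_ratsmul {q q' : ℕ} {P : ℤ[X]} {f : LaurentSeries ℚ} {c : ℚ}
    (hc : ∃ z : ℤ, (q' : ℚ) * c = z) (h : PI q P f) : PI (q' * q) P (c • f) := by
  obtain ⟨z, hz⟩ := hc
  rw [PI_iff] at h ⊢
  obtain ⟨p, hp⟩ := h
  refine ⟨(z : ℤ[X]) * p, ?_⟩
  have h1 : eI (q' : ℤ[X]) * algebraMap ℚ (LaurentSeries ℚ) c = eI (z : ℤ[X]) := by
    have h2 : eI (q' : ℤ[X]) = algebraMap ℚ (LaurentSeries ℚ) (q' : ℚ) := by
      rw [map_natCast, map_natCast]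
    have h3 : eI (z : ℤ[X]) = algebraMap ℚ (LaurentSeries ℚ) (z : ℚ) := by
      rw [map_intCast, map_intCast]
    rw [h2, h3, ← map_mul, hz]
  rw [map_mul eI _ p, ← hp, ← h1, ratsmul_eq, Nat.cast_mul, map_mul]
  ring

theorem PI_one_one : PI 1 1 (1 : LaurentSeries ℚ) := by
  rw [PI_iff]
  exact ⟨1, by simp⟩

theorem gam_int (k : ℤ) : PI 1 1 (gam g k) := by
  unfold gam
  split_ifs with h
  · exact PI_emb _
  · exact PI_zero _ _

theorem gam_zero_eq : gam g 0 = emb (g.map (Int.castRingHom ℚ)) := by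
  unfold gam gamX
  simp

theorem gam_inv_int (hg : g ≠ 0) : PI 1 g (gam g 0)⁻¹ := by
  rw [gam_zero_eq]
  exact PI_inv hg

theorem bex_int (hg : g ≠ 0) {q0 J j l : ℕ} (hq0 : ∀ k, 1 ≤ k → k ≤ 2 * J → k ∣ q0)
    (hj : j ≤ J) (hl : 1 ≤ l) (hlj : l ≤ j) : PI (q0 * 4 ^ j) (g ^ j) (bex g j l) := by
  unfold bex
  refine PI_sum _ fun m hm => ?_
  rw [Finset.mem_range] at hm
  have h1 := PI_mul (PI_mul (gam_inv_int hg) (sqs_int hg m)) (sqs_int hg (j - l - m))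
  have h2 : PI (4 ^ j) (g ^ j) ((gam g 0)⁻¹ * sqs g m * sqs g (j - l - m)) := by
    refine PI_of_dvd h1 ?_ ?_
    · rw [one_mul, ← pow_add]
      exact pow_dvd_pow 4 (by omega)
    · rw [← pow_succ', ← pow_add]
      exact pow_dvd_pow g (by omega)
  refine PI_ratsmul ?_ h2
  obtain ⟨r, hr⟩ := hq0 (2 * j - 2 * m - 1) (by omega) (by omega)
  refine ⟨2 * (r : ℤ), ?_⟩
  have h3 : ((2 * j - 2 * m - 1 : ℕ) : ℚ) = 2 * (j : ℚ) - 2 * m - 1 := by
    rw [Nat.cast_sub (by omega), Nat.cast_sub (by omega)]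
    push_cast
    ring
  have h4 : (2 * (j : ℚ) - 2 * m - 1) ≠ 0 := by
    rw [← h3]
    exact_mod_cast (by omega : (2 * j - 2 * m - 1 : ℕ) ≠ 0)
  rw [hr, Nat.cast_mul, h3]
  push_cast
  generalize (2 * (j : ℚ) - 2 * m - 1) = d at h4 ⊢
  field_simp

theorem red_int (hg : g ≠ 0) {q0 J j n : ℕ} (hq0 : ∀ k, 1 ≤ k → k ≤ 2 * J → k ∣ q0)
    (hj : j ≤ J) (hj1 : 1 ≤ j) {v : ℤ → LaurentSeries ℚ} (hv : Red g n j (bex g j) v) (k : ℕ) :
    PI (2 * (q0 * 4 ^ j)) (g ^ j) (v (k : ℤ)) := by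
  have h1 := hv.2 (k : ℤ)
  rw [if_neg (by omega), zero_add] at h1
  rw [← h1]
  refine PI_ratsmul ⟨1, by norm_num⟩ (PI_sum _ fun l hl => ?_)
  rw [Finset.mem_Icc] at hl
  have h2 := PI_mul (bex_int hg hq0 hj hl.1 hl.2) (gam_int (g := g) ((k : ℤ) + l))
  have h3 := PI_ratsmul (q' := 1) (c := (((k : ℤ) : ℚ) + 1 - l))
    ⟨(k : ℤ) + 1 - l, by push_cast; ring⟩ h2
  rw [one_mul, mul_one, mul_one] at h3
  exact h3

end HypGalAux

open HypGalAux

theorem hyp_gal (hg : g ≠ 0) {n : ℕ} (hn : g.natDegree ≤ n) (hn1 : 1 ≤ n) :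
    ∃ H : ℕ, Galochkin ((hypT g).map (Int.castRingHom ℚ)) (hypB g n) H := by
  have hT : hypT g ≠ 0 := by
    unfold hypT
    refine mul_ne_zero ?_ hg
    rw [Ne, C_eq_zero]
    norm_num
  refine ⟨4 ^ 10, (gal_iff hT).2 fun J => ?_⟩
  obtain ⟨q0, hq0, hq1, hq2⟩ := exists_den (2 * J)
  refine ⟨4 ^ J * (2 * (q0 * 4 ^ J)), by positivity, ?_, ?_⟩
  · calc 4 ^ J * (2 * (q0 * 4 ^ J)) ≤ 4 ^ J * (4 * (4 ^ (4 * (2 * J)) * 4 ^ J)) := by
          gcongr
          norm_num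
      _ = 4 ^ (10 * J + 1) := by
          rw [← pow_add, ← pow_succ', ← pow_add]
          congr 1
          ring
      _ ≤ 4 ^ (10 * (J + 1)) := Nat.pow_le_pow_right (by norm_num) (by omega)
      _ = (4 ^ 10) ^ (J + 1) := by rw [pow_mul]
  · intro m hm i k
    have hgT : ∀ j ≤ m, g ^ j ∣ (hypT g) ^ m := by
      intro j hj
      unfold hypT
      rw [mul_pow]
      exact Dvd.dvd.mul_left (pow_dvd_pow g hj) _
    have hc : ∃ z : ℤ, ((4 ^ m : ℕ) : ℚ) * chm m i = z := by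
      obtain ⟨z, hz⟩ := chm_den m i
      exact ⟨z, by rw [← hz]; push_cast; ring⟩
    obtain ⟨h1, h2⟩ := git_hyp hg hn hn1 m i
    rcases le_or_gt m (i : ℕ) with hmi | hmi
    · rw [h1 hmi k]
      split_ifs with hk
      · have h3 := PI_ratsmul hc PI_one_one
        rw [PintAux.ratsmul_eq, mul_one, mul_one] at h3
        exact PI_of_dvd h3 (Dvd.dvd.mul_right (pow_dvd_pow 4 hm) _) (one_dvd _)
      · exact PI_zero _ _
    · obtain ⟨b, v, hr, hv⟩ := h2 hmi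
      obtain ⟨v', hv'⟩ := red_explicit hg hn (j := m - i) (by omega)
      have h3 : v = v' := red_uniq hg hr hv'
      subst h3
      rw [hv k]
      have h4 := PI_ratsmul hc (red_int hg hq2 (j := m - i) (by omega) (by omega) hv' k)
      refine PI_of_dvd h4 ?_ (hgT _ (by omega))
      refine mul_dvd_mul (pow_dvd_pow 4 hm) (mul_dvd_mul dvd_rfl (mul_dvd_mul dvd_rfl ?_))
      exact pow_dvd_pow 4 (by omega)

end Pool.Agent.Helper79.GC
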