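import Mathlib

/-!
# GH-4a: hyperelliptic integrals over loops: differentiation

`y² = g(x)(x - t)`, `I_k(t) = ∫ (γ - t)^k γ'/y ds` (`k ≥ -1`) over a closed loop `γ` avoiding the roots and `t`, `y(t, s)` a continuous branch.

* `y_deriv`: for fixed `s`, `t ↦ y(t,s)` is a continuous square root of the nonvanishing holomorphic function `g(γ(s))(γ(s) - t)`, so it is
  holomorphic (locally `y(t) = y(t₀) (1 + u)^(1/2)` with the principal branch, by continuity; or: `y(t) - y(t₀) = (y(t)² - y(t₀)²)/(y(t) + y(t₀))`) with derivative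
  `-g(γ)/(2y) = -y/(2(γ - t))`. In the same way `s ↦ y(t,s)` is differentiable on `[0,1]` (one-sided at the ends, `HasDerivWithinAt`, or on `(0,1)` with continuity
  on `[0,1]`) with derivative `(H ∘ γ)'/(2 y)`, `H(x) = g(x)(x - t)`.
* `per_diff`: differentiation under the integral (`hasDerivAt_integral_of_dominated_loc_of_deriv_le`, the derivative `(γ^i γ')/(2 y (γ-t))` is continuous on `V × [0,1]`, hence bounded
  on a compact neighbourhood): `d/dt ∫ (γ-t)^i γ'/y ds = (1/2 - i) ∫ (γ-t)^(i-1) γ'/y ds` for `i ≥ 0` (`i = 0` : `(1/2) ∫ γ'/((γ-t) y)`).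
-/

open Polynomial Filter Topology MeasureTheory

namespace Pool.Agent.Helper79.GC

/-- `γ` is a closed loop and `y` a continuous branch of the square root of `g(x)(x-t)` along it, for
the parameters `t ∈ V`. -/
structure LoopData (g : ℚ[X]) (V : Set ℂ) (γ : ℝ → ℂ) (y : ℂ → ℝ → ℂ) : Prop where
  smooth : ContDiff ℝ 1 γ
  closed : γ 0 = γ 1
  cont : ContinuousOn (fun p : ℂ × ℝ => y p.1 p.2) (V ×ˢ Set.Icc 0 1)
  sq : ∀ t ∈ V, ∀ s ∈ Set.Icc (0 : ℝ) 1, y t s ^ 2 = aeval (γ s) g * (γ s - t)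
  ne : ∀ t ∈ V, ∀ s ∈ Set.Icc (0 : ℝ) 1, y t s ≠ 0
  yclosed : ∀ t ∈ V, y t 0 = y t 1

/-- The integral of `(x - t)^k dx / y`, `k ∈ ℤ`. -/
noncomputable def loopI (γ : ℝ → ℂ) (y : ℂ → ℝ → ℂ) (k : ℤ) (t : ℂ) : ℂ :=
  ∫ s in (0 : ℝ)..1, (γ s - t) ^ k * deriv γ s / y t s

/-! ### continuity -/

private lemma gam_ne {g : ℚ[X]} {V : Set ℂ} {γ : ℝ → ℂ} {y : ℂ → ℝ → ℂ}
    (h : LoopData g V γ y) {t : ℂ} (ht : t ∈ V) {s : ℝ} (hs : s ∈ Set.Icc (0 : ℝ) 1) :
    γ s - t ≠ 0 := by
  intro h0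
  have h1 := h.sq t ht s hs
  rw [h0, mul_zero] at h1
  exact h.ne t ht s hs (pow_eq_zero_iff (two_ne_zero) |>.1 h1)

private lemma cont_F {g : ℚ[X]} {V : Set ℂ} {γ : ℝ → ℂ} {y : ℂ → ℝ → ℂ}
    (h : LoopData g V γ y) (k : ℤ) :
    ContinuousOn (fun p : ℂ × ℝ => (γ p.2 - p.1) ^ k * deriv γ p.2 / y p.1 p.2)
      (V ×ˢ Set.Icc 0 1) := by
  have hγ : Continuous γ := h.smooth.continuous
  have hγ' : Continuous (deriv γ) := h.smooth.continuous_deriv le_rfl
  apply ContinuousOn.div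
  · apply ContinuousOn.mul
    · apply ContinuousOn.zpow₀
      · exact ((hγ.comp continuous_snd).sub continuous_fst).continuousOn
      · rintro ⟨t, s⟩ ⟨ht, hs⟩
        exact Or.inl (gam_ne h ht hs)
    · exact (hγ'.comp continuous_snd).continuousOn
  · exact h.cont
  · rintro ⟨t, s⟩ ⟨ht, hs⟩
    exact h.ne t ht s hs

private lemma cont_s {V : Set ℂ} {G : ℂ × ℝ → ℂ}
    (hG : ContinuousOn G (V ×ˢ Set.Icc (0 : ℝ) 1)) {t : ℂ} (ht : t ∈ V) :
    ContinuousOn (fun s => G (t, s)) (Set.Icc (0 : ℝ) 1) :=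
  hG.comp (Continuous.continuousOn (by fun_prop)) (fun _ hs => ⟨ht, hs⟩)

private lemma int_s {G : ℝ → ℂ} (hG : ContinuousOn G (Set.Icc (0 : ℝ) 1)) :
    IntervalIntegrable G volume 0 1 := by
  apply ContinuousOn.intervalIntegrable
  rwa [Set.uIcc_of_le zero_le_one]

/-- Derivative of the branch in the parameter. -/
private lemma y_deriv {g : ℚ[X]} {V : Set ℂ} (hV : IsOpen V) {γ : ℝ → ℂ} {y : ℂ → ℝ → ℂ}
    (h : LoopData g V γ y) {t : ℂ} (ht : t ∈ V) {s : ℝ} (hs : s ∈ Set.Icc (0 : ℝ) 1) :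
    HasDerivAt (fun t => y t s) (-(aeval (γ s) g) / (y t s + y t s)) t := by
  have hc : ContinuousAt (fun t' => y t' s) t := by
    have h1 : ContinuousOn (fun t' => y t' s) V :=
      h.cont.comp (f := fun t' : ℂ => (t', s)) (Continuous.continuousOn (by fun_prop))
        (fun t' ht' => ⟨ht', hs⟩)
    exact h1.continuousAt (hV.mem_nhds ht)
  have hne : y t s + y t s ≠ 0 := by
    rw [← two_mul]
    exact mul_ne_zero two_ne_zero (h.ne t ht s hs)
  rw [hasDerivAt_iff_tendsto_slope]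
  have h1 : Tendsto (fun t' => -(aeval (γ s) g) / (y t' s + y t s)) (𝓝[≠] t)
      (𝓝 (-(aeval (γ s) g) / (y t s + y t s))) := by
    apply Tendsto.mono_left _ nhdsWithin_le_nhds
    exact tendsto_const_nhds.div (hc.tendsto.add tendsto_const_nhds) hne
  have hev : ∀ᶠ t' in 𝓝[≠] t, y t' s + y t s ≠ 0 := by
    apply Filter.Eventually.filter_mono nhdsWithin_le_nhds
    exact (hc.tendsto.add tendsto_const_nhds).eventually_ne hne
  have hVe : ∀ᶠ t' in 𝓝[≠] t, t' ∈ V :=
    Filter.Eventually.filter_mono nhdsWithin_le_nhds (hV.mem_nhds ht)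
  apply h1.congr'
  filter_upwards [hev, hVe, self_mem_nhdsWithin] with t' h2 h3 h4
  have h5 : t' - t ≠ 0 := sub_ne_zero.2 h4
  have h6 := h.sq t ht s hs
  have h7 := h.sq t' h3 s hs
  rw [slope_def_field, div_eq_div_iff h2 h5]
  have h8 : (y t' s - y t s) * (y t' s + y t s) = -(aeval (γ s) g) * (t' - t) := by
    have : (y t' s - y t s) * (y t' s + y t s) = y t' s ^ 2 - y t s ^ 2 := by ring
    rw [this, h6, h7]
    ring
  rw [h8]

theorem loop_deriv {g : ℚ[X]} {V : Set ℂ} (hV : IsOpen V) {γ : ℝ → ℂ} {y : ℂ → ℝ → ℂ}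
    (h : LoopData g V γ y) (k : ℤ) {t : ℂ} (ht : t ∈ V) :
    HasDerivAt (loopI γ y k) ((1 / 2 - (k : ℂ)) * loopI γ y (k - 1) t) t := by
  obtain ⟨ε, hε, hεV⟩ := Metric.isOpen_iff.1 hV t ht
  have hball : Metric.closedBall t (ε / 2) ⊆ V := fun z hz => hεV (by
    rw [Metric.mem_ball]
    rw [Metric.mem_closedBall] at hz
    linarith)
  -- the bound
  have hK : IsCompact (Metric.closedBall t (ε / 2) ×ˢ Set.Icc (0 : ℝ) 1) :=
    (isCompact_closedBall _ _).prod isCompact_Icc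
  have hcF' := cont_F h (k - 1)
  have hcF2 : ContinuousOn (fun p : ℂ × ℝ => (1 / 2 - (k : ℂ)) *
      ((γ p.2 - p.1) ^ (k - 1) * deriv γ p.2 / y p.1 p.2)) (V ×ˢ Set.Icc 0 1) :=
    continuousOn_const.mul hcF'
  obtain ⟨C, hC⟩ := hK.exists_bound_of_continuousOn
    (hcF2.mono (Set.prod_mono hball (Set.Subset.refl _)))
  have hsub : Set.uIoc (0 : ℝ) 1 ⊆ Set.Icc 0 1 := by
    rw [Set.uIoc_of_le zero_le_one]
    exact Set.Ioc_subset_Icc_self
  have key := intervalIntegral.hasDerivAt_integral_of_dominated_loc_of_deriv_le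
    (𝕜 := ℂ) (μ := volume) (a := (0 : ℝ)) (b := 1) (x₀ := t) (s := Metric.ball t (ε / 2))
    (F := fun t s => (γ s - t) ^ k * deriv γ s / y t s)
    (F' := fun t s => (1 / 2 - (k : ℂ)) * ((γ s - t) ^ (k - 1) * deriv γ s / y t s))
    (bound := fun _ => C) (Metric.ball_mem_nhds t (half_pos hε)) ?_ ?_ ?_ ?_ ?_ ?_
  · have h2 := key.2
    rw [intervalIntegral.integral_const_mul] at h2
    exact h2
  · filter_upwards [hV.mem_nhds ht] with t' ht'
    exact (intervalIntegrable_iff.1 (int_s (cont_s (cont_F h k) ht'))).aestronglyMeasurable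
  · exact int_s (cont_s (cont_F h k) ht)
  · exact (intervalIntegrable_iff.1 (int_s
      (continuousOn_const.mul (cont_s (cont_F h (k - 1)) ht)))).aestronglyMeasurable
  · apply Eventually.of_forall
    intro s hs t' ht'
    exact hC (t', s) ⟨Metric.ball_subset_closedBall ht', hsub hs⟩
  · exact intervalIntegrable_const
  · apply Eventually.of_forall
    intro s hs t' ht'
    have hs' := hsub hs
    have htV : t' ∈ V := hball (Metric.ball_subset_closedBall ht')
    have hg := gam_ne h htV hs'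
    have hy := h.ne t' htV s hs'
    have hsq := h.sq t' htV s hs'
    have d1 : HasDerivAt (fun t => (γ s - t) ^ k) (((k : ℂ) * (γ s - t') ^ (k - 1)) * (-1)) t' := by
      have d0 : HasDerivAt (fun t : ℂ => γ s - t) (-1) t' := by
        have d00 := (hasDerivAt_id t').const_sub (γ s)
        exact d00
      exact (hasDerivAt_zpow k (γ s - t') (Or.inl hg)).comp t' d0
    have d2 := y_deriv hV h htV hs'
    have d3 := (d1.mul_const (deriv γ s)).div d2 hy
    refine d3.congr_deriv ?_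
    have h1 : aeval (γ s) g = y t' s ^ 2 / (γ s - t') := by
      rw [hsq]
      field_simp
    have h2 : (γ s - t') ^ k = (γ s - t') ^ (k - 1) * (γ s - t') := by
      rw [zpow_sub_one₀ hg]
      field_simp
    rw [h1, h2]
    field_simp
    ring

/-- The binomial expansion of `(x - t)^k`. -/
theorem loop_binom {g : ℚ[X]} {V : Set ℂ} {γ : ℝ → ℂ} {y : ℂ → ℝ → ℂ}
    (h : LoopData g V γ y) (k : ℕ) {t : ℂ} (ht : t ∈ V) :
    loopI γ y k t = ∑ a ∈ Finset.range (k + 1), ((k.choose a : ℕ) : ℂ) * (-t) ^ (k - a) *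
      ∫ s in (0 : ℝ)..1, (γ s) ^ a * deriv γ s / y t s := by
  have hγ : Continuous γ := h.smooth.continuous
  have hγ' : Continuous (deriv γ) := h.smooth.continuous_deriv le_rfl
  have hcy : ContinuousOn (fun s => y t s) (Set.Icc (0 : ℝ) 1) := cont_s h.cont ht
  have hint : ∀ a : ℕ, IntervalIntegrable (fun s => (γ s) ^ a * deriv γ s / y t s) volume 0 1 := by
    intro a
    apply int_s
    exact ContinuousOn.div (((hγ.pow a).mul hγ').continuousOn) hcy (fun s hs => h.ne t ht s hs)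
  have h1 : loopI γ y k t = ∫ s in (0 : ℝ)..1, ∑ a ∈ Finset.range (k + 1),
      ((k.choose a : ℕ) : ℂ) * (-t) ^ (k - a) * ((γ s) ^ a * deriv γ s / y t s) := by
    unfold loopI
    apply intervalIntegral.integral_congr
    intro s _
    show (γ s - t) ^ (k : ℤ) * deriv γ s / y t s = _
    rw [zpow_natCast, sub_eq_add_neg, add_pow, Finset.sum_mul, Finset.sum_div]
    apply Finset.sum_congr rfl
    intro a _
    ring
  rw [h1, intervalIntegral.integral_finsetSum]
  · apply Finset.sum_congr rfl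
    intro a _
    rw [intervalIntegral.integral_const_mul]
  · intro a _
    exact (hint a).const_mul _

end Pool.Agent.Helper79.GC
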