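import Pool.Agent.Helper79.GC.HypDefs

/-!
# GH-1: reduction of `(x - t)^(-j) dx / y` modulo exact forms

`E_i(b) = (1/2) ∑_l (i + 1 - l) b_l γ_{i+l}`; `Red g n j b v`: `v` is supported on `0 ≤ i < n` and `[i = -j] + E_i(b) = v_i` for all `i ∈ ℤ`.

* `dd_gam`: `γ_k' = (k+1) γ_{k+1}`; for `k = -1` the factor is `0`.
* `red_uniq`: the equations for `i = -p`, `1 ≤ p ≤ j`, are triangular with diagonal coefficient `(1 - 2p) γ_0 / 2 ≠ 0`,
  so the `b_l`, `1 ≤ l ≤ j`, are determined (downward induction on `l`), and then the `v_i`.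
* `red_one`: `b_1 = 2/γ_0`.
* `red_step`: `b'_l = (j + 1/2)⁻¹ (dd b_l + (l - 3/2) b_{l-1} + [l = 1] v_0/γ_0)`, `b_l` replaced by `0` outside `1 ≤ l ≤ j`;
  apply `f ↦ (Df)_i = dd f_i - (i + 1/2) f_{i+1}` to the equation.
-/

open Polynomial

namespace Pool.Agent.Helper79.GC

open Pool.Agent.Helper37.GP

variable {g : ℤ[X]}

private theorem hr_char : CharZero (LaurentSeries ℚ) :=
  charZero_of_injective_algebraMap (algebraMap ℚ (LaurentSeries ℚ)).injective

private theorem hr_smul (c : ℚ) (f : LaurentSeries ℚ) :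
    c • f = algebraMap ℚ (LaurentSeries ℚ) c * f := by
  ext n
  rw [algebraMap_eq_single]
  simp

theorem gam_zero_ne (hg : g ≠ 0) : gam g 0 ≠ 0 := by
  rw [gam, if_pos le_rfl, Int.toNat_zero, gamX, hasseDeriv_zero']
  intro h
  have h1 := emb_injective (h.trans (map_zero emb).symm)
  exact hg ((Polynomial.map_eq_zero_iff (Int.castRingHom ℚ).injective_int).1 h1)

theorem gam_of_lt {k : ℤ} (hk : (g.natDegree : ℤ) < k) : gam g k = 0 := by
  rw [gam, if_pos (by omega), gamX,
    hasseDeriv_eq_zero_of_lt_natDegree _ _ (by omega), Polynomial.map_zero, map_zero]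

private theorem hr_gam_neg {k : ℤ} (hk : k < 0) : gam g k = 0 := by
  rw [gam, if_neg (by omega)]

private theorem hr_hasse (k : ℕ) : derivative (hasseDeriv k g) =
    ((k + 1 : ℕ) : ℤ[X]) * hasseDeriv (k + 1) g := by
  have h := LinearMap.congr_fun (hasseDeriv_comp (R := ℤ) 1 k) g
  rw [LinearMap.comp_apply, hasseDeriv_one', LinearMap.smul_apply, Nat.choose_one_right,
    nsmul_eq_mul, add_comm 1 k] at h
  exact h

theorem dd_gam (k : ℤ) : dd (gam g k) = ((k : ℚ) + 1) • gam g (k + 1) := by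
  rcases lt_trichotomy k (-1) with hk | rfl | hk
  · rw [hr_gam_neg (by omega), hr_gam_neg (by omega), dd_zero, smul_zero]
  · rw [hr_gam_neg (by omega), dd_zero]
    simp
  · obtain ⟨n, rfl⟩ : ∃ n : ℕ, k = n := ⟨k.toNat, by omega⟩
    have h1 : ((n : ℤ) + 1).toNat = n + 1 := by omega
    rw [gam, if_pos (by omega), gam, if_pos (by omega), h1, Int.toNat_natCast, dd_emb, gamX, gamX,
      Polynomial.derivative_map, hr_hasse, hr_smul, Polynomial.map_mul, map_mul]
    congr 1
    rw [Polynomial.map_natCast, map_natCast]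
    push_cast
    simp

theorem red_uniq (hg : g ≠ 0) {n j : ℕ} {b b' : ℕ → LaurentSeries ℚ}
    {v v' : ℤ → LaurentSeries ℚ} (h : Red g n j b v) (h' : Red g n j b' v') : v = v' := by
  have hdiff : ∀ i : ℤ, v i - v' i = (1 / 2 : ℚ) • ∑ l ∈ Finset.Icc 1 j,
      ((i : ℚ) + 1 - l) • ((b l - b' l) * gam g (i + l)) := by
    intro i
    rw [← h.2 i, ← h'.2 i, add_sub_add_left_eq_sub, ← smul_sub, ← Finset.sum_sub_distrib]
    congr 1
    refine Finset.sum_congr rfl fun l _ => ?_
    rw [← smul_sub, sub_mul]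
  have hc : ∀ d : ℕ, ∀ l : ℕ, 1 ≤ l → l ≤ j → j < l + d → b l - b' l = 0 := by
    intro d
    induction d with
    | zero => intro l _ _ _; omega
    | succ d ih =>
      intro p hp1 hpj hpd
      have h1 := hdiff (-(p : ℤ))
      rw [h.1 _ (Or.inl (by omega)), h'.1 _ (Or.inl (by omega)), sub_zero,
        Finset.sum_eq_single p] at h1
      · have h2 : (-(p : ℤ)) + p = 0 := by ring
        rw [h2] at h1
        have h3 := h1.symm
        rw [smul_eq_zero, smul_eq_zero, mul_eq_zero] at h3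
        rcases h3 with h3 | h3 | h3 | h3
        · norm_num at h3
        · exfalso
          push_cast at h3
          have h4 : (2 * (p : ℚ)) = 1 := by linear_combination -h3
          have h5 : 2 * p = 1 := by exact_mod_cast h4
          omega
        · exact h3
        · exact absurd h3 (gam_zero_ne hg)
      · intro l hl hlp
        rw [Finset.mem_Icc] at hl
        rcases lt_or_gt_of_ne hlp with h2 | h2
        · rw [hr_gam_neg (by omega), mul_zero, smul_zero]
        · rw [ih l hl.1 hl.2 (by omega), zero_mul, smul_zero]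
      · intro h2
        exact absurd (Finset.mem_Icc.2 ⟨hp1, hpj⟩) h2
  funext i
  rw [← sub_eq_zero, hdiff, Finset.sum_eq_zero, smul_zero]
  intro l hl
  rw [Finset.mem_Icc] at hl
  rw [hc (j + 1) l hl.1 hl.2 (by omega), zero_mul, smul_zero]

theorem red_one (hg : g ≠ 0) {n : ℕ} (hn : g.natDegree ≤ n) (hn1 : 1 ≤ n) :
    Red g n 1 (fun _ => (2 : ℚ) • (gam g 0)⁻¹)
      (fun i => if 0 ≤ i then (i : ℚ) • (gam g (i + 1) * (gam g 0)⁻¹) else 0) := by
  have h0 := gam_zero_ne hg
  constructor
  · rintro i (hi | hi)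
    · simp only
      rw [if_neg (by omega)]
    · simp only
      rw [gam_of_lt (by omega), zero_mul, smul_zero, ite_self]
  · intro i
    simp only [Finset.Icc_self, Finset.sum_singleton, Nat.cast_one]
    rcases lt_trichotomy i (-1) with hi | rfl | hi
    · rw [if_neg (by omega), if_neg (by omega), hr_gam_neg (k := i + 1) (by omega), mul_zero,
        smul_zero, smul_zero, add_zero]
    · rw [if_pos rfl, if_neg (by omega)]
      have h1 : (-1 : ℤ) + 1 = 0 := by ring
      rw [h1, smul_mul_assoc, inv_mul_cancel₀ h0, smul_smul, smul_smul]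
      norm_num
    · rw [if_neg (by omega), if_pos (by omega), smul_mul_assoc, smul_smul, smul_smul, zero_add,
        mul_comm (gam g 0)⁻¹]
      congr 1
      ring

theorem red_step (hg : g ≠ 0) {n j : ℕ} (hn : g.natDegree ≤ n) (hj : 1 ≤ j)
    {b : ℕ → LaurentSeries ℚ} {v : ℤ → LaurentSeries ℚ} (h : Red g n j b v) :
    ∃ b' : ℕ → LaurentSeries ℚ,
      Red g n (j + 1) b' (fun i => ((j : ℚ) + 1 / 2)⁻¹ • stepV g v i) := by
  classical
  have hch := hr_char
  have h0 := gam_zero_ne hg
  have hJ : ((j : ℚ) + 1 / 2) ≠ 0 := by positivity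
  set bt : ℕ → LaurentSeries ℚ := fun l => if 1 ≤ l ∧ l ≤ j then b l else 0 with hbt
  set bs : ℕ → LaurentSeries ℚ := fun l => (if 1 ≤ l ∧ l ≤ j then dd (b l) else 0) +
    ((l : ℚ) - 3 / 2) • bt (l - 1) + (if l = 1 then v 0 * (gam g 0)⁻¹ else 0) with hbs
  -- the sum for `bs`
  have hsum : ∀ i : ℤ, ∑ l ∈ Finset.Icc 1 (j + 1), ((i : ℚ) + 1 - l) • (bs l * gam g (i + l)) =
      (∑ l ∈ Finset.Icc 1 j, ((i : ℚ) + 1 - l) • (dd (b l) * gam g (i + l))) +
      (∑ l ∈ Finset.Icc 1 j, (((l : ℚ) - 1 / 2) * (i - l)) • (b l * gam g (i + l + 1))) +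
      (i : ℚ) • (v 0 * (gam g 0)⁻¹ * gam g (i + 1)) := by
    intro i
    have e0 : ∀ l : ℕ, ((i : ℚ) + 1 - l) • (bs l * gam g (i + l)) =
        ((i : ℚ) + 1 - l) • ((if 1 ≤ l ∧ l ≤ j then dd (b l) else 0) * gam g (i + l)) +
        ((i : ℚ) + 1 - l) • ((((l : ℚ) - 3 / 2) • bt (l - 1)) * gam g (i + l)) +
        ((i : ℚ) + 1 - l) • ((if l = 1 then v 0 * (gam g 0)⁻¹ else 0) * gam g (i + l)) := by
      intro l
      simp only [hbs, add_mul, smul_add]
    rw [Finset.sum_congr rfl fun l _ => e0 l, Finset.sum_add_distrib, Finset.sum_add_distrib]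
    congr 1
    · congr 1
      · rw [Finset.sum_Icc_succ_top (by omega), if_neg (by omega), zero_mul, smul_zero, add_zero]
        refine Finset.sum_congr rfl fun l hl => ?_
        rw [if_pos (Finset.mem_Icc.1 hl)]
      · rw [← Finset.sum_subset (s₁ := Finset.Icc 2 (j + 1))]
        · refine (Finset.sum_bij (fun l _ => l + 1) ?_ ?_ ?_ ?_).symm
          · intro l hl
            rw [Finset.mem_Icc] at hl ⊢
            omega
          · intro a _ c _ hac
            omega
          · intro l hl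
            rw [Finset.mem_Icc] at hl
            exact ⟨l - 1, Finset.mem_Icc.2 (by omega), by omega⟩
          · intro l hl
            rw [Finset.mem_Icc] at hl
            simp only [hbt, Nat.add_sub_cancel]
            rw [if_pos hl, smul_mul_assoc, smul_smul]
            push_cast
            rw [← add_assoc i]
            congr 1
            ring
        · intro l hl
          rw [Finset.mem_Icc] at hl ⊢
          omega
        · intro l hl hl2
          rw [Finset.mem_Icc] at hl hl2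
          have : l = 1 := by omega
          subst this
          simp [hbt]
    · rw [Finset.sum_eq_single 1]
      · rw [if_pos rfl]
        push_cast
        congr 1
        ring
      · intro l _ hl
        rw [if_neg hl, zero_mul, smul_zero]
      · intro h1
        exact absurd (Finset.mem_Icc.2 (by omega)) h1
  -- the derivative of the equation
  have hD : ∀ i : ℤ, ((if i = -((j : ℤ) + 1) then ((j : ℚ) + 1 / 2) • (1 : LaurentSeries ℚ) else 0)) +
      (1 / 2 : ℚ) • ((∑ l ∈ Finset.Icc 1 j, ((i : ℚ) + 1 - l) • (dd (b l) * gam g (i + l))) +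
      (∑ l ∈ Finset.Icc 1 j, (((l : ℚ) - 1 / 2) * (i - l)) • (b l * gam g (i + l + 1)))) =
      dd (v i) - ((i : ℚ) + 1 / 2) • v (i + 1) := by
    intro i
    have e1 := congrArg dd (h.2 i)
    have e2 := h.2 (i + 1)
    rw [dd_add, dd_ratsmul, dd_sum] at e1
    have e3 : dd (if i = -(j : ℤ) then (1 : LaurentSeries ℚ) else 0) = 0 := by
      split_ifs
      · exact dd_one
      · exact dd_zero
    have e4 : ∀ l ∈ Finset.Icc 1 j, dd (((i : ℚ) + 1 - l) • (b l * gam g (i + l))) =
        ((i : ℚ) + 1 - l) • (dd (b l) * gam g (i + l)) +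
        (((i : ℚ) + 1 - l) * ((i : ℚ) + l + 1)) • (b l * gam g (i + l + 1)) := by
      intro l _
      rw [dd_ratsmul, dd_mul, dd_gam, mul_smul_comm, smul_add, smul_smul, add_comm]
      push_cast
      rfl
    rw [e3, zero_add, Finset.sum_congr rfl e4, Finset.sum_add_distrib] at e1
    have e5 : ∑ l ∈ Finset.Icc 1 j, ((((i + 1 : ℤ) : ℚ)) + 1 - l) • (b l * gam g (i + 1 + l)) =
        ∑ l ∈ Finset.Icc 1 j, ((i : ℚ) + 2 - l) • (b l * gam g (i + l + 1)) := by
      refine Finset.sum_congr rfl fun l _ => ?_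
      have : i + 1 + (l : ℤ) = i + l + 1 := by ring
      rw [this]
      congr 1
      push_cast
      ring
    rw [e5] at e2
    have e6 : ∑ l ∈ Finset.Icc 1 j, (((l : ℚ) - 1 / 2) * (i - l)) • (b l * gam g (i + l + 1)) =
        (∑ l ∈ Finset.Icc 1 j, (((i : ℚ) + 1 - l) * ((i : ℚ) + l + 1)) •
          (b l * gam g (i + l + 1))) -
        ((i : ℚ) + 1 / 2) • ∑ l ∈ Finset.Icc 1 j, ((i : ℚ) + 2 - l) •
          (b l * gam g (i + l + 1)) := by
      rw [Finset.smul_sum, ← Finset.sum_sub_distrib]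
      refine Finset.sum_congr rfl fun l _ => ?_
      rw [smul_smul, ← sub_smul]
      congr 1
      ring
    have e7 : (if i = -((j : ℤ) + 1) then ((j : ℚ) + 1 / 2) • (1 : LaurentSeries ℚ) else 0) =
        -(((i : ℚ) + 1 / 2) • (if i + 1 = -(j : ℤ) then (1 : LaurentSeries ℚ) else 0)) := by
      by_cases hi : i = -((j : ℤ) + 1)
      · rw [if_pos hi, if_pos (by omega), hi, ← neg_smul]
        congr 1
        push_cast
        ring
      · rw [if_neg hi, if_neg (by omega), smul_zero, neg_zero]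
    rw [e6, e7, ← e1, ← e2]
    simp only [smul_add, smul_sub, smul_smul]
    module
  refine ⟨fun l => ((j : ℚ) + 1 / 2)⁻¹ • bs l, ?_, ?_⟩
  · rintro i (hi | hi)
    · simp only [stepV]
      rw [if_neg (by omega), smul_zero]
    · simp only [stepV]
      rw [h.1 i (Or.inr hi), h.1 (i + 1) (Or.inr (by omega)), gam_of_lt (by omega), dd_zero,
        smul_zero, mul_zero, zero_mul, smul_zero, sub_zero, add_zero, ite_self, smul_zero]
  · intro i
    have e1 : ∑ l ∈ Finset.Icc 1 (j + 1), ((i : ℚ) + 1 - l) •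
        ((((j : ℚ) + 1 / 2)⁻¹ • bs l) * gam g (i + l)) = ((j : ℚ) + 1 / 2)⁻¹ •
        ∑ l ∈ Finset.Icc 1 (j + 1), ((i : ℚ) + 1 - l) • (bs l * gam g (i + l)) := by
      rw [Finset.smul_sum]
      refine Finset.sum_congr rfl fun l _ => ?_
      rw [smul_mul_assoc, smul_comm]
    have e2 : (if i = -((j + 1 : ℕ) : ℤ) then (1 : LaurentSeries ℚ) else 0) =
        ((j : ℚ) + 1 / 2)⁻¹ • (if i = -((j : ℤ) + 1) then ((j : ℚ) + 1 / 2) •
          (1 : LaurentSeries ℚ) else 0) := by
      by_cases hi : i = -((j : ℤ) + 1)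
      · rw [if_pos hi, if_pos (by push_cast; exact hi), smul_smul, inv_mul_cancel₀ hJ, one_smul]
      · rw [if_neg hi, if_neg (by push_cast; exact hi), smul_zero]
    rw [e1, e2, smul_comm (1 / 2 : ℚ), ← smul_add, hsum, smul_add (1 / 2 : ℚ), ← add_assoc, hD]
    congr 1
    rw [stepV]
    rcases lt_trichotomy i (-1) with hi | rfl | hi
    · rw [if_neg (by omega), h.1 i (Or.inl (by omega)), h.1 (i + 1) (Or.inl (by omega)),
        hr_gam_neg (k := i + 1) (by omega), dd_zero, smul_zero, mul_zero, smul_zero, smul_zero,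
        sub_zero, add_zero]
    · have h1 : (-1 : ℤ) + 1 = 0 := by ring
      rw [if_neg (by omega), h.1 (-1) (Or.inl (by omega)), dd_zero, h1, mul_assoc,
        inv_mul_cancel₀ h0, mul_one, smul_smul, zero_sub, ← neg_smul, ← add_smul]
      norm_num
    · rw [if_pos (by omega), smul_smul]
      congr 1
      rw [mul_assoc, mul_assoc, mul_comm (gam g 0)⁻¹]
      congr 1
      ring

end Pool.Agent.Helper79.GC
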