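import Pool.Agent.Helper79.GC.HypRed

/-!
# GH-1b: the explicit reduction

See `HypRed.lean`.
* `red_explicit`: let `S = ∑ sqs_m z^m` (power series over `K = LaurentSeries ℚ`), `S² G = γ_0`, `G = ∑_{k≥0} γ_k z^k` (`sqs_sq`: binomial series,
  `(1+w)^(-1/2)`; Mathlib may have `PowerSeries.binomialSeries`, else: `S` satisfies `2 G S' + G' S = 0` from the recursion of `Ring.choose`, so `(S² G)' = 0`, and
  the constant coefficient is `γ_0`). `a = ∑_m 2 sqs_m z^m/(2j-2m-1)` satisfies `(2j-1) a - 2 z a' = 2 S`; `b(z) = γ_0⁻¹ a S = ∑_u b_{j-u} z^u`. For `1 ≤ p ≤ j` the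
  equation for `i = -p` is: the coefficient of `z^(j-p)` in `(2j-1) b G - 2 z b' G - b z G'` is `2 [p = j]`. And
  `γ_0 ((2j-1) b G - 2 z b' G - b z G') = S G ((2j-1) a - 2 z a') - a (2 G z S' + z G' S) = 2 S² G = 2 γ_0`. Equations for `i < -j` are trivial; define `v_i` by
  the equation for `0 ≤ i`; `v_i = 0` for `i ≥ n` as `γ_{i+l} = 0` there.
-/

open Polynomial

namespace Pool.Agent.Helper79.GC

open Pool.Agent.Helper37.GP

variable {g : ℤ[X]}

/-- The explicit solution. -/
noncomputable def bex (g : ℤ[X]) (j l : ℕ) : LaurentSeries ℚ :=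
  ∑ m ∈ Finset.range (j - l + 1), (2 / (2 * (j : ℚ) - 2 * m - 1)) •
    ((gam g 0)⁻¹ * sqs g m * sqs g (j - l - m))

private theorem h2_smul (c : ℚ) (f : LaurentSeries ℚ) :
    c • f = algebraMap ℚ (LaurentSeries ℚ) c * f := by
  ext n
  rw [algebraMap_eq_single]
  simp

private theorem h2_gam_neg {k : ℤ} (hk : k < 0) : gam g k = 0 := by
  rw [gam, if_neg (by omega)]

/-- The series `w = G/γ_0 - 1`. -/
private noncomputable def h2w (g : ℤ[X]) : PowerSeries (LaurentSeries ℚ) :=
  PowerSeries.mk fun l => if l = 0 then 0 else gam g l * (gam g 0)⁻¹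

private theorem h2w_subst (g : ℤ[X]) : PowerSeries.HasSubst (h2w g) :=
  PowerSeries.HasSubst.of_constantCoeff_zero' (by simp [h2w])

private theorem h2w_pow (g : ℤ[X]) {m d : ℕ} (h : m < d) :
    PowerSeries.coeff m (h2w g ^ d) = 0 := by
  have h1 : PowerSeries.X ∣ h2w g := by
    rw [PowerSeries.X_dvd_iff]
    simp [h2w]
  exact PowerSeries.X_pow_dvd_iff.1 (pow_dvd_pow_of_dvd h1 d) m h

/-- The binomial series with exponent `-1/2` over Laurent series. -/
private noncomputable def h2B : PowerSeries (LaurentSeries ℚ) :=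
  (PowerSeries.binomialSeries ℚ (-(1 / 2) : ℚ)).map (algebraMap ℚ (LaurentSeries ℚ))

private theorem h2B_sq : h2B ^ 2 * (1 + PowerSeries.X) = 1 := by
  have h1 : (PowerSeries.binomialSeries ℚ (-(1 / 2) : ℚ)) ^ 2 * (1 + PowerSeries.X) = 1 := by
    have h2 := PowerSeries.binomialSeries_nat (R := ℚ) (A := ℚ) 1
    rw [pow_one] at h2
    rw [← h2, sq, ← PowerSeries.binomialSeries_add, ← PowerSeries.binomialSeries_add,
      ← PowerSeries.binomialSeries_zero (R := ℚ) (A := ℚ)]
    congr 1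
    norm_num
  have h3 := congrArg (PowerSeries.map (algebraMap ℚ (LaurentSeries ℚ))) h1
  rw [map_mul, map_pow, map_add, map_one, PowerSeries.map_X] at h3
  exact h3

private theorem h2_sqs (g : ℤ[X]) : PowerSeries.mk (sqs g) = PowerSeries.subst (h2w g) h2B := by
  ext1 m
  rw [PowerSeries.coeff_mk, PowerSeries.coeff_subst' (h2w_subst g),
    finsum_eq_sum_of_support_subset (s := Finset.range (m + 1))]
  · rw [sqs, map_sum]
    refine Finset.sum_congr rfl fun k _ => ?_
    rw [PowerSeries.coeff_C_mul, smul_eq_mul, h2B, PowerSeries.coeff_map,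
      PowerSeries.binomialSeries_coeff, smul_eq_mul, mul_one]
    rfl
  · intro d hd
    rw [Function.mem_support] at hd
    rw [Finset.coe_range, Set.mem_Iio]
    by_contra h
    exact hd (by rw [h2w_pow g (by omega), smul_zero])

theorem sqs_sq (hg : g ≠ 0) : (PowerSeries.mk (sqs g)) ^ 2 *
    (PowerSeries.mk fun k => gam g (k : ℤ)) = PowerSeries.C (gam g 0) := by
  have h0 := gam_zero_ne hg
  have h1 : (PowerSeries.mk fun k : ℕ => gam g (k : ℤ)) =
      PowerSeries.C (gam g 0) * (1 + h2w g) := by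
    ext1 k
    rw [PowerSeries.coeff_mk, PowerSeries.coeff_C_mul, map_add, h2w, PowerSeries.coeff_mk,
      PowerSeries.coeff_one]
    by_cases hk : k = 0
    · subst hk
      simp
    · rw [if_neg hk, if_neg hk, zero_add, mul_comm, mul_assoc, inv_mul_cancel₀ h0, mul_one]
  have h2 := congrArg (PowerSeries.subst (h2w g)) h2B_sq
  have hs := h2w_subst g
  rw [PowerSeries.subst_mul hs, PowerSeries.subst_pow hs, PowerSeries.subst_add hs,
    PowerSeries.subst_X hs, ← h2_sqs] at h2
  have h3 : PowerSeries.subst (h2w g) (1 : PowerSeries (LaurentSeries ℚ)) = 1 := by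
    rw [← PowerSeries.coe_substAlgHom hs, map_one]
  rw [h3] at h2
  rw [h1, mul_left_comm, h2, mul_one]

/-- The Euler operator `z d/dz`. -/
private noncomputable def h2th (f : PowerSeries (LaurentSeries ℚ)) :
    PowerSeries (LaurentSeries ℚ) :=
  PowerSeries.mk fun n => algebraMap ℚ (LaurentSeries ℚ) (n : ℚ) * PowerSeries.coeff n f

private theorem h2th_coeff (f : PowerSeries (LaurentSeries ℚ)) (n : ℕ) :
    PowerSeries.coeff n (h2th f) =
      algebraMap ℚ (LaurentSeries ℚ) (n : ℚ) * PowerSeries.coeff n f :=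
  PowerSeries.coeff_mk _ _

private theorem h2th_mul (f k : PowerSeries (LaurentSeries ℚ)) :
    h2th (f * k) = h2th f * k + f * h2th k := by
  ext1 n
  rw [h2th_coeff, map_add, PowerSeries.coeff_mul, PowerSeries.coeff_mul,
    PowerSeries.coeff_mul, Finset.mul_sum, ← Finset.sum_add_distrib]
  refine Finset.sum_congr rfl fun p hp => ?_
  rw [Finset.HasAntidiagonal.mem_antidiagonal] at hp
  rw [h2th_coeff, h2th_coeff, ← hp, Nat.cast_add, map_add]
  ring

private theorem h2th_C (c : LaurentSeries ℚ) : h2th (PowerSeries.C c) = 0 := by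
  ext1 n
  rw [h2th_coeff, PowerSeries.coeff_C, map_zero]
  by_cases hn : n = 0
  · subst hn
    simp
  · rw [if_neg hn, mul_zero]

private theorem h2_two (f : PowerSeries (LaurentSeries ℚ)) (m : ℕ) :
    PowerSeries.coeff m (2 * f) = 2 * PowerSeries.coeff m f := by
  rw [two_mul, map_add, two_mul]

/-- The main identity of power series. -/
private theorem h2_ident (hg : g ≠ 0) (j : ℕ) : ∃ b : PowerSeries (LaurentSeries ℚ),
    PowerSeries.C (algebraMap ℚ (LaurentSeries ℚ) (2 * j - 1)) *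
      (b * PowerSeries.mk fun k => gam g (k : ℤ)) -
      2 * (h2th b * PowerSeries.mk fun k => gam g (k : ℤ)) -
      b * h2th (PowerSeries.mk fun k => gam g (k : ℤ)) = 2 ∧
    ∀ l ≤ j, bex g j l = PowerSeries.coeff (j - l) b := by
  have h0 := gam_zero_ne hg
  have hSG := sqs_sq hg
  obtain ⟨S, hS⟩ : ∃ S, S = PowerSeries.mk (sqs g) := ⟨_, rfl⟩
  generalize (PowerSeries.mk fun k : ℕ => gam g (k : ℤ)) = G at hSG ⊢
  rw [← hS] at hSG
  have hSm : ∀ m, PowerSeries.coeff m S = sqs g m := fun m => by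
    rw [hS, PowerSeries.coeff_mk]
  clear hS
  have hS0 : S ≠ 0 := by
    intro h
    rw [h] at hSG
    have h1 := congrArg (PowerSeries.coeff 0) hSG
    simp at h1
    exact h0 h1.symm
  have hd : 2 * h2th S * G + S * h2th G = 0 := by
    have h1 := congrArg h2th hSG
    rw [h2th_mul, sq, h2th_mul, h2th_C] at h1
    have h2 : S * (2 * h2th S * G + S * h2th G) = 0 := by
      rw [← h1]
      ring
    exact (mul_eq_zero.1 h2).resolve_left hS0
  obtain ⟨a, ha⟩ : ∃ a : PowerSeries (LaurentSeries ℚ), ∀ m, PowerSeries.coeff m a =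
      algebraMap ℚ (LaurentSeries ℚ) (2 / (2 * (j : ℚ) - 2 * m - 1)) * sqs g m :=
    ⟨PowerSeries.mk fun m => algebraMap ℚ (LaurentSeries ℚ) (2 / (2 * (j : ℚ) - 2 * m - 1)) *
      sqs g m, fun m => PowerSeries.coeff_mk _ _⟩
  have hae : PowerSeries.C (algebraMap ℚ (LaurentSeries ℚ) (2 * j - 1)) * a - 2 * h2th a =
      2 * S := by
    ext1 m
    have h1 : (2 * (j : ℚ) - 2 * m - 1) ≠ 0 := by
      intro h
      have h2 : 2 * (j : ℚ) = 2 * m + 1 := by linarith
      have h3 : 2 * j = 2 * m + 1 := by exact_mod_cast h2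
      omega
    rw [map_sub, h2_two, h2_two, PowerSeries.coeff_C_mul, h2th_coeff, ha, hSm]
    have h3 : (2 : LaurentSeries ℚ) = algebraMap ℚ (LaurentSeries ℚ) 2 := by
      rw [map_ofNat]
    have h4 : (2 * (j : ℚ) - 1) * (2 / (2 * (j : ℚ) - 2 * m - 1)) -
        2 * ((m : ℚ) * (2 / (2 * (j : ℚ) - 2 * m - 1))) = 2 := by
      calc _ = 2 * ((2 * (j : ℚ) - 2 * m - 1) / (2 * (j : ℚ) - 2 * m - 1)) := by ring
        _ = 2 := by rw [div_self h1, mul_one]
    calc algebraMap ℚ (LaurentSeries ℚ) (2 * j - 1) *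
          (algebraMap ℚ (LaurentSeries ℚ) (2 / (2 * (j : ℚ) - 2 * m - 1)) * sqs g m) -
          2 * (algebraMap ℚ (LaurentSeries ℚ) (m : ℚ) *
          (algebraMap ℚ (LaurentSeries ℚ) (2 / (2 * (j : ℚ) - 2 * m - 1)) * sqs g m))
        = algebraMap ℚ (LaurentSeries ℚ) ((2 * (j : ℚ) - 1) * (2 / (2 * (j : ℚ) - 2 * m - 1)) -
        2 * ((m : ℚ) * (2 / (2 * (j : ℚ) - 2 * m - 1)))) * sqs g m := by
          generalize 2 / (2 * (j : ℚ) - 2 * m - 1) = c
          simp only [map_sub, map_mul, ← h3]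
          ring
      _ = 2 * sqs g m := by rw [h4, ← h3]
  refine ⟨PowerSeries.C (gam g 0)⁻¹ * (a * S), ?_, ?_⟩
  · obtain ⟨b, hb⟩ : ∃ b, b = PowerSeries.C (gam g 0)⁻¹ * (a * S) := ⟨_, rfl⟩
    rw [← hb]
    have h1 : PowerSeries.C (gam g 0) * b = a * S := by
      rw [hb, ← mul_assoc, ← map_mul, mul_inv_cancel₀ h0, map_one, one_mul]
    have h2 : PowerSeries.C (gam g 0) * h2th b = h2th a * S + a * h2th S := by
      have h3 := congrArg h2th h1
      rw [h2th_mul, h2th_mul, h2th_C, zero_mul, zero_add] at h3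
      exact h3
    have h3 : PowerSeries.C (gam g 0) ≠ 0 := by
      intro h
      have h4 := congrArg (PowerSeries.coeff 0) h
      simp at h4
      exact h0 h4
    apply mul_left_cancel₀ h3
    calc PowerSeries.C (gam g 0) * (PowerSeries.C (algebraMap ℚ (LaurentSeries ℚ) (2 * j - 1)) *
          (b * G) - 2 * (h2th b * G) - b * h2th G)
        = PowerSeries.C (algebraMap ℚ (LaurentSeries ℚ) (2 * j - 1)) *
          ((PowerSeries.C (gam g 0) * b) * G) - 2 * ((PowerSeries.C (gam g 0) * h2th b) * G) -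
          (PowerSeries.C (gam g 0) * b) * h2th G := by ring
      _ = S * G * (PowerSeries.C (algebraMap ℚ (LaurentSeries ℚ) (2 * j - 1)) * a -
          2 * h2th a) - a * (2 * h2th S * G + S * h2th G) := by
          rw [h1, h2]
          ring
      _ = 2 * (S ^ 2 * G) := by
          rw [hae, hd]
          ring
      _ = PowerSeries.C (gam g 0) * 2 := by
          rw [hSG]
          ring
  · intro l hl
    rw [bex, PowerSeries.coeff_C_mul, PowerSeries.coeff_mul,
      Finset.Nat.sum_antidiagonal_eq_sum_range_succ_mk, Finset.mul_sum]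
    refine Finset.sum_congr rfl fun m _ => ?_
    rw [h2_smul, ha, hSm]
    ring

private theorem h2_main (hg : g ≠ 0) (j p : ℕ) (hp : 1 ≤ p) (hpj : p ≤ j) :
    ∑ l ∈ Finset.Icc 1 j,
      (((-(p : ℤ) : ℤ) : ℚ) + 1 - l) • (bex g j l * gam g (-(p : ℤ) + l)) =
        if p = j then -2 else 0 := by
  obtain ⟨b, hb, hbc⟩ := h2_ident hg j
  have h1 := congrArg (PowerSeries.coeff (j - p)) hb
  have hG : ∀ k, PowerSeries.coeff k (PowerSeries.mk fun k : ℕ => gam g (k : ℤ)) =
      gam g (k : ℤ) := fun k => PowerSeries.coeff_mk _ _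
  rw [map_sub, map_sub, h2_two, PowerSeries.coeff_C_mul, PowerSeries.coeff_mul,
    PowerSeries.coeff_mul, PowerSeries.coeff_mul, Finset.mul_sum, Finset.mul_sum,
    ← Finset.sum_sub_distrib, ← Finset.sum_sub_distrib,
    Finset.Nat.sum_antidiagonal_eq_sum_range_succ_mk] at h1
  have h2 : PowerSeries.coeff (j - p) (2 : PowerSeries (LaurentSeries ℚ)) =
      if p = j then 2 else 0 := by
    have h3 : (2 : PowerSeries (LaurentSeries ℚ)) = PowerSeries.C 2 := by
      rw [map_ofNat]
    rw [h3, PowerSeries.coeff_C]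
    by_cases h4 : p = j
    · rw [if_pos (by omega), if_pos h4]
    · rw [if_neg (by omega), if_neg h4]
  rw [h2] at h1
  rw [← Finset.sum_subset (s₁ := Finset.Icc p j)]
  · have h5 : (if p = j then (-2 : LaurentSeries ℚ) else 0) = -(if p = j then 2 else 0) := by
      split_ifs
      · rfl
      · rw [neg_zero]
    rw [h5, ← h1, ← Finset.sum_neg_distrib]
    refine Finset.sum_bij' (fun l _ => j - l) (fun u _ => j - u) ?_ ?_ ?_ ?_ ?_
    · intro l hl
      rw [Finset.mem_Icc] at hl
      rw [Finset.mem_range]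
      omega
    · intro u hu
      rw [Finset.mem_range] at hu
      rw [Finset.mem_Icc]
      omega
    · intro l hl
      rw [Finset.mem_Icc] at hl
      omega
    · intro u hu
      rw [Finset.mem_range] at hu
      omega
    · intro l hl
      rw [Finset.mem_Icc] at hl
      have h6 : j - p - (j - l) = l - p := by omega
      simp only [h2th_coeff, hG, h6]
      have h7 : ((l - p : ℕ) : ℤ) = -(p : ℤ) + l := by omega
      have h8 : ((l - p : ℕ) : ℚ) = -(p : ℚ) + l := by
        exact_mod_cast congrArg (Int.cast : ℤ → ℚ) h7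
      have h9 : ((j - l : ℕ) : ℚ) = (j : ℚ) - l := by
        rw [Nat.cast_sub hl.2]
      rw [h7, h8, h9, hbc l hl.2, h2_smul]
      have h10 : (2 : LaurentSeries ℚ) = algebraMap ℚ (LaurentSeries ℚ) 2 := by
        rw [map_ofNat]
      have h11 : (((-(p : ℤ) : ℤ) : ℚ) + 1 - l) = -((2 * j - 1) - 2 * ((j : ℚ) - l) -
          (-(p : ℚ) + l)) := by
        push_cast
        ring
      rw [h11, map_neg, map_sub, map_sub, map_mul _ 2, ← h10]
      ring
  · intro l hl
    rw [Finset.mem_Icc] at hl ⊢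
    omega
  · intro l hl hl2
    rw [Finset.mem_Icc] at hl hl2
    rw [h2_gam_neg (by omega), mul_zero, smul_zero]

theorem red_explicit (hg : g ≠ 0) {n j : ℕ} (hn : g.natDegree ≤ n) (hj : 1 ≤ j) :
    ∃ v : ℤ → LaurentSeries ℚ, Red g n j (bex g j) v := by
  refine ⟨fun i => (if i = -(j : ℤ) then 1 else 0) + ((1 / 2 : ℚ) • ∑ l ∈ Finset.Icc 1 j,
    ((i : ℚ) + 1 - l) • (bex g j l * gam g (i + l))), ?_, fun i => rfl⟩
  rintro i (hi | hi)
  · obtain ⟨p, rfl⟩ : ∃ p : ℕ, i = -(p : ℤ) := ⟨(-i).toNat, by omega⟩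
    by_cases hpj : p ≤ j
    · simp only
      rw [h2_main hg j p (by omega) hpj]
      by_cases h : p = j
      · rw [if_pos (by omega), if_pos h, h2_smul]
        have h10 : (2 : LaurentSeries ℚ) = algebraMap ℚ (LaurentSeries ℚ) 2 := by
          rw [map_ofNat]
        rw [h10, ← map_neg, ← map_mul]
        norm_num
      · rw [if_neg (by omega), if_neg h, smul_zero, add_zero]
    · simp only
      rw [if_neg (by omega), zero_add, Finset.sum_eq_zero, smul_zero]
      intro l hl
      rw [Finset.mem_Icc] at hl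
      rw [h2_gam_neg (by omega), mul_zero, smul_zero]
  · simp only
    rw [if_neg (by omega), zero_add, Finset.sum_eq_zero, smul_zero]
    intro l hl
    rw [Finset.mem_Icc] at hl
    rw [gam_of_lt (by omega), mul_zero, smul_zero]

end Pool.Agent.Helper79.GC
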