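import Pool.Agent.Helper79.GC.Defs3
import Pool.Agent.Helper79.GC.GalDual

/-!
# GC-57: shearing

`g = (emb T)⁻¹ • eM A = -N x + g₂ x² + …` (`IsRes.ord`). Put `M = N - π/2`, `π` commutes with all coefficients of `A`, hence with `N`, `M`,
`g₂`.

* `IsRes.ord`, `isRes_of_ord`: degree / leading coefficient: `ofordd` of `emb A / emb T`; in one direction `OrdGE 1` gives `deg A < deg T`
  (`emb A = emb T * g` has `OrdGE (1 - τ)`), and the coefficient of `s^(τ-1)` of `emb T * g` is `t g_1`.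
* `shear_step`: `F₁ = (X - hi)^m`, `F₂ = ∏_{lo ≤ k < hi} (X - k)^m` are coprime, `u F₁ + v F₂ = 1`, `p = (v F₂)(M)`: `p² = p`, `F₁(M) p = 0`,
  `F₂(M) (1 - p) = 0`, `p` commutes with `M`, `N`, `π`. `Z = κ ((1-p) X + p)` (`κ` clears the denominators of `p`), `D = 1`, `V = x Z = κ ((1-p) + x p)`,
  `V⁻¹ = κ⁻¹ ((1-p) + s p)` (so `det Z ≠ 0`). `V⁻¹ g V - V⁻¹ V' = ((1-p) + s p) g ((1-p) + x p) + x p` (`gauge_eq`)
  `= x (-N + p g₂ (1-p) + p) + O(x²)` (the term `s p (-N x) (1-p)` vanishes). So `N' = N - p - p g₂ (1-p)`.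
  `M' = N' - π/2 = M - p - p g₂ (1-p)`: `M' p = (M - 1) p`, `(1-p) M' = (1-p) M`, so with `f = ∏_{lo ≤ k < hi} (X-k)^m`: `f(M') p = f(M-1) p = 0`
  (`(M - hi)^m p = 0`), `(1-p) f(M') = (1-p) f(M) = 0`, hence `f(M') = p f(M') (1-p)` and `f(M')² = 0`: `m' = 2 m`.
* `shear_base`: `M - lo` nilpotent. If `lo ≥ 0`: `Z = 1`, `D = lo`; if `lo < 0`: `Z = X^(-lo) • 1`, `D = 0`; in both cases `V = x^lo`, and
  `V⁻¹ g V - V⁻¹ V' = g + lo x` (`(x^n)' = -n x^(n+1)`).
-/

open Polynomial

namespace Pool.Agent.Helper79.GC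

open Pool.Agent.Helper37.GP

variable {ι : Type} [Fintype ι] [DecidableEq ι]

theorem coeff_mul_lead {f g : LaurentSeries ℚ} {M N : ℤ} (hf : OrdGE M f) (hg : OrdGE N g) :
    (f * g).coeff (M + N) = f.coeff M * g.coeff N := by
  rw [coeff_mul_Icc hf hg]
  have h1 : M + N - N = M := by ring
  rw [h1, Finset.Icc_self, Finset.sum_singleton]
  congr 2
  ring

theorem emb_inv_lead {T : ℚ[X]} (hT : T ≠ 0) : OrdGE (T.natDegree : ℤ) (emb T)⁻¹ ∧
    T.leadingCoeff * ((emb T)⁻¹).coeff (T.natDegree : ℤ) = 1 := by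
  have h0 : emb T ≠ 0 := by
    intro h
    exact hT (emb_injective (by rw [h, map_zero]))
  have hlc : T.leadingCoeff ≠ 0 := leadingCoeff_ne_zero.mpr hT
  have ho : (emb T).order = -(T.natDegree : ℤ) := by
    apply le_antisymm
    · apply HahnSeries.order_le_of_coeff_ne_zero
      rw [emb_coeff_neg]
      exact hlc
    · by_contra hlt
      push Not at hlt
      exact h0 (HahnSeries.coeff_order_eq_zero.mp (ordGE_emb le_rfl _ hlt))
  have ho' : ((emb T)⁻¹).order = (T.natDegree : ℤ) := by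
    have h1 := HahnSeries.order_mul h0 (inv_ne_zero h0)
    rw [mul_inv_cancel₀ h0, HahnSeries.order_one, ho] at h1
    omega
  have hO : OrdGE (T.natDegree : ℤ) (emb T)⁻¹ := fun i hi =>
    HahnSeries.coeff_eq_zero_of_lt_order (by rw [ho']; exact hi)
  refine ⟨hO, ?_⟩
  have h2 := coeff_mul_lead (ordGE_emb (p := T) le_rfl) hO
  rw [mul_inv_cancel₀ h0, neg_add_cancel, emb_coeff_neg, HahnSeries.coeff_one, if_pos rfl] at h2
  rw [leadingCoeff, ← h2]

theorem IsRes.ord {T : ℚ[X]} {A : Matrix ι ι ℚ[X]} {N : Matrix ι ι ℚ} (h : IsRes T A N) :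
    (∀ a b, OrdGE 1 (((emb T)⁻¹ • eM A) a b)) ∧ coL 1 ((emb T)⁻¹ • eM A) = -N := by
  obtain ⟨hT, hdeg, hco⟩ := h
  obtain ⟨hO, hl⟩ := emb_inv_lead hT
  have hdeg' : ∀ a b, OrdGE (-((T.natDegree - 1 : ℕ) : ℤ)) (eM A a b) := fun a b =>
    ordGE_emb (by have := hdeg a b; omega)
  constructor
  · intro a b
    have h1 := hdeg a b
    have h2 := ordGE_mul hO (hdeg' a b)
    have h3 : (T.natDegree : ℤ) + -((T.natDegree - 1 : ℕ) : ℤ) = 1 := by omega
    rw [h3] at h2
    exact h2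
  · ext a b
    have h1 := hdeg a b
    have h2 := coeff_mul_lead hO (hdeg' a b)
    have h3 : (T.natDegree : ℤ) + -((T.natDegree - 1 : ℕ) : ℤ) = 1 := by omega
    rw [h3, eM_apply, emb_coeff_neg] at h2
    have h4 := congrFun (congrFun hco a) b
    rw [coM_apply] at h4
    rw [h4] at h2
    rw [coL_apply]
    show (((emb T)⁻¹ * eM A a b).coeff 1) = _
    rw [eM_apply, h2, Matrix.neg_apply, Matrix.smul_apply, Matrix.neg_apply, smul_eq_mul]
    linear_combination (-N a b) * hl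

theorem isRes_of_ord {T : ℚ[X]} {A : Matrix ι ι ℚ[X]} {N : Matrix ι ι ℚ} (hT : 1 ≤ T.natDegree)
    (h : ∀ a b, OrdGE 1 (((emb T)⁻¹ • eM A) a b)) (h1 : coL 1 ((emb T)⁻¹ • eM A) = -N) :
    IsRes T A N := by
  have hT0 : T ≠ 0 := by
    rintro rfl
    simp at hT
  have h0 : emb T ≠ 0 := by
    intro h
    exact hT0 (emb_injective (by rw [h, map_zero]))
  have hmul : ∀ a b, emb (A a b) = emb T * (((emb T)⁻¹ • eM A) a b) := by
    intro a b
    rw [Matrix.smul_apply, smul_eq_mul, ← mul_assoc, mul_inv_cancel₀ h0, one_mul]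
    rfl
  refine ⟨hT0, ?_, ?_⟩
  · intro a b
    have h2 := ordGE_mul (ordGE_emb (p := T) le_rfl) (h a b)
    rw [← hmul] at h2
    have h3 : (A a b).natDegree ≤ T.natDegree - 1 := by
      rw [Polynomial.natDegree_le_iff_coeff_eq_zero]
      intro k hk
      rw [← emb_coeff_neg]
      exact h2 _ (by omega)
    omega
  · ext a b
    have h2 := coeff_mul_lead (ordGE_emb (p := T) le_rfl) (h a b)
    rw [← hmul, emb_coeff_neg] at h2
    have h3 : -(T.natDegree : ℤ) + 1 = -((T.natDegree - 1 : ℕ) : ℤ) := by omega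
    rw [h3, emb_coeff_neg] at h2
    have h4 := congrFun (congrFun h1 a) b
    rw [coL_apply] at h4
    rw [coM_apply, h2, h4, Matrix.neg_apply, Matrix.neg_apply, Matrix.smul_apply, smul_eq_mul,
      leadingCoeff]
    ring

/-! ### Coefficients of matrices of Laurent series -/

theorem coL_add (n : ℤ) (F G : Matrix ι ι (LaurentSeries ℚ)) :
    coL n (F + G) = coL n F + coL n G := by
  ext a b
  simp [coL_apply]

theorem coL_sub (n : ℤ) (F G : Matrix ι ι (LaurentSeries ℚ)) :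
    coL n (F - G) = coL n F - coL n G := by
  ext a b
  simp [coL_apply]

theorem coL_cM_mul (n : ℤ) (p : Matrix ι ι ℚ) (G : Matrix ι ι (LaurentSeries ℚ)) :
    coL n (cM p * G) = p * coL n G := by
  ext a b
  rw [coL_apply, Matrix.mul_apply, HahnSeries.coeff_sum, Matrix.mul_apply]
  refine Finset.sum_congr rfl fun c _ => ?_
  rw [cM_apply, algebraMap_eq_single, HahnSeries.coeff_single_zero_mul, coL_apply]

theorem coL_mul_cM (n : ℤ) (p : Matrix ι ι ℚ) (G : Matrix ι ι (LaurentSeries ℚ)) :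
    coL n (G * cM p) = coL n G * p := by
  ext a b
  rw [coL_apply, Matrix.mul_apply, HahnSeries.coeff_sum, Matrix.mul_apply]
  refine Finset.sum_congr rfl fun c _ => ?_
  rw [cM_apply, algebraMap_eq_single, HahnSeries.coeff_mul_single_zero, coL_apply]

theorem coL_xx_smul (n : ℤ) (G : Matrix ι ι (LaurentSeries ℚ)) :
    coL n (xx • G) = coL (n - 1) G := by
  ext a b
  rw [coL_apply, coL_apply, Matrix.smul_apply, smul_eq_mul, xx]
  have h := HahnSeries.coeff_single_mul_add (r := (1 : ℚ)) (x := G a b) (a := n - 1) (b := (1 : ℤ))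
  rw [sub_add_cancel, one_mul] at h
  exact h

theorem coL_embX_smul (n : ℤ) (G : Matrix ι ι (LaurentSeries ℚ)) :
    coL n (emb X • G) = coL (n + 1) G := by
  ext a b
  rw [coL_apply, coL_apply, Matrix.smul_apply, smul_eq_mul, emb_X]
  have h := HahnSeries.coeff_single_mul_add (r := (1 : ℚ)) (x := G a b) (a := n + 1)
    (b := (-1 : ℤ))
  rw [add_neg_cancel_right, one_mul] at h
  exact h

theorem coL_cM (n : ℤ) (p : Matrix ι ι ℚ) : coL n (cM p) = if n = 0 then p else 0 := by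
  ext a b
  rw [coL_apply, cM_apply, algebraMap_eq_single, HahnSeries.coeff_single]
  by_cases h : n = 0
  · rw [if_pos h, if_pos h]
  · rw [if_neg h, if_neg h]
    rfl

/-- Clearing denominators. -/
theorem exists_clear (p : Matrix ι ι ℚ) : ∃ (κ : ℕ) (P : Matrix ι ι ℤ), 0 < κ ∧
    ∀ a b, (P a b : ℚ) = κ * p a b := by
  classical
  set κ : ℕ := ∏ q : ι × ι, (p q.1 q.2).den with hκ
  refine ⟨κ, Matrix.of fun a b => ((κ / (p a b).den : ℕ) : ℤ) * (p a b).num,
    Finset.prod_pos fun q _ => (p q.1 q.2).den_pos, ?_⟩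
  intro a b
  have hd : (p a b).den ∣ κ := Finset.dvd_prod_of_mem (fun q : ι × ι => (p q.1 q.2).den)
    (Finset.mem_univ (a, b))
  obtain ⟨c, hc⟩ := hd
  have hden : 0 < (p a b).den := (p a b).den_pos
  rw [Matrix.of_apply, hc, Nat.mul_div_cancel_left _ hden]
  have h2 : ((p a b).den : ℚ) * p a b = (p a b).num := by
    rw [mul_comm]
    exact Rat.mul_den_eq_num (p a b)
  push_cast
  rw [← h2]
  ring

theorem det_ne_zero_of_inv (Z : Matrix ι ι ℤ[X]) (D : ℕ) (V' : Matrix ι ι (LaurentSeries ℚ))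
    (h : (xx ^ D • eM (Z.map (Polynomial.map (Int.castRingHom ℚ)))) * V' = 1) : Z.det ≠ 0 := by
  intro h0
  have h1 := congrArg Matrix.det h
  rw [Matrix.det_mul, Matrix.det_one, Matrix.det_smul] at h1
  have h2 : (eM (Z.map (Polynomial.map (Int.castRingHom ℚ)))).det = 0 := by
    have h3 := RingHom.map_det emb (Z.map (Polynomial.map (Int.castRingHom ℚ)))
    rw [det_map_int, h0, Polynomial.map_zero, map_zero] at h3
    exact h3.symm
  rw [h2, mul_zero, zero_mul] at h1
  exact zero_ne_one h1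

theorem gT_natDegree {T : ℤ[X]} (hT : T.map (Int.castRingHom ℚ) ≠ 0) (Z : Matrix ι ι ℤ[X])
    (hZ : Z.det ≠ 0) (D : ℕ) : 1 ≤ ((gT T Z D).map (Int.castRingHom ℚ)).natDegree := by
  have hT' : T ≠ 0 := by
    rintro rfl
    exact hT (Polynomial.map_zero _)
  rw [Polynomial.natDegree_map_eq_of_injective (Int.castRingHom ℚ).injective_int]
  unfold gT
  rw [natDegree_mul (mul_ne_zero (pow_ne_zero _ X_ne_zero) hT') (pow_ne_zero _ hZ),
    natDegree_mul (pow_ne_zero _ X_ne_zero) hT', natDegree_X_pow]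
  omega

/-- From the Laurent series form to the polynomial form. -/
theorem gauge_res {T : ℤ[X]} {A : Matrix ι ι ℚ[X]} (hT : T.map (Int.castRingHom ℚ) ≠ 0)
    {Z : Matrix ι ι ℤ[X]} {D : ℕ} {V V' : Matrix ι ι (LaurentSeries ℚ)}
    (hV : V = xx ^ D • eM (Z.map (Polynomial.map (Int.castRingHom ℚ)))) (h1 : V * V' = 1)
    (h2 : V' * V = 1) {N' π : Matrix ι ι ℚ}
    (hc : cM π * (V' * ((emb (T.map (Int.castRingHom ℚ)))⁻¹ • eM A) * V - V' * dM V) =
      (V' * ((emb (T.map (Int.castRingHom ℚ)))⁻¹ • eM A) * V - V' * dM V) * cM π)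
    (hn : ∀ n : ℤ, n < 1 →
      coL n (V' * ((emb (T.map (Int.castRingHom ℚ)))⁻¹ • eM A) * V - V' * dM V) = 0)
    (h' : coL 1 (V' * ((emb (T.map (Int.castRingHom ℚ)))⁻¹ • eM A) * V - V' * dM V) = -N') :
    Z.det ≠ 0 ∧ IsRes ((gT T Z D).map (Int.castRingHom ℚ)) (gA T A Z D) N' ∧
      cX π * gA T A Z D = gA T A Z D * cX π := by
  have hT' : T ≠ 0 := by
    rintro rfl
    exact hT (Polynomial.map_zero _)
  have hZ : Z.det ≠ 0 := det_ne_zero_of_inv Z D V' (by rw [← hV]; exact h1)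
  have hg := gauge_eq hT' A Z hZ D V V' hV h1 h2
  rw [← hg] at hc hn h'
  have hdeg := gT_natDegree hT Z hZ D
  refine ⟨hZ, isRes_of_ord hdeg ?_ h', ?_⟩
  · intro a b n hn'
    have := congrFun (congrFun (hn n hn') a) b
    exact this
  · have h0 : emb ((gT T Z D).map (Int.castRingHom ℚ)) ≠ 0 := by
      intro h
      have h3 : (gT T Z D).map (Int.castRingHom ℚ) = 0 := emb_injective (by rw [h, map_zero])
      rw [h3] at hdeg
      simp at hdeg
    apply eM_injective
    rw [eM_mul, eM_mul, eM_cX]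
    have h3 := congrArg (fun M => emb ((gT T Z D).map (Int.castRingHom ℚ)) • M) hc
    simp only [Matrix.mul_smul, Matrix.smul_mul, smul_smul, mul_inv_cancel₀ h0, one_smul] at h3
    exact h3

theorem comm_of_cX {T : ℚ[X]} {A : Matrix ι ι ℚ[X]} {π : Matrix ι ι ℚ}
    (hπ : cX π * A = A * cX π) :
    cM π * ((emb T)⁻¹ • eM A) = ((emb T)⁻¹ • eM A) * cM π := by
  rw [Matrix.mul_smul, Matrix.smul_mul, ← eM_cX, ← eM_mul, hπ, eM_mul]

theorem aeval_mul_right {R : Type} [Ring R] [Algebra ℚ R] {M' B p : R} (h : M' * p = B * p)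
    (hB : B * p = p * B) (f : ℚ[X]) : aeval M' f * p = aeval B f * p := by
  induction f using Polynomial.induction_on' with
  | add f g hf hg => rw [map_add, map_add, add_mul, add_mul, hf, hg]
  | monomial n a =>
    rw [aeval_monomial, aeval_monomial, mul_assoc, mul_assoc]
    congr 1
    induction n with
    | zero => simp
    | succ n ih =>
      calc M' ^ (n + 1) * p = M' ^ n * (M' * p) := by rw [pow_succ, mul_assoc]
        _ = (M' ^ n * p) * B := by rw [h, hB, mul_assoc]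
        _ = B ^ n * (p * B) := by rw [ih, mul_assoc]
        _ = B ^ (n + 1) * p := by rw [← hB, ← mul_assoc, ← pow_succ]

theorem aeval_mul_left {R : Type} [Ring R] [Algebra ℚ R] {M' B q : R} (h : q * M' = q * B)
    (hB : B * q = q * B) (f : ℚ[X]) : q * aeval M' f = q * aeval B f := by
  induction f using Polynomial.induction_on' with
  | add f g hf hg => rw [map_add, map_add, mul_add, mul_add, hf, hg]
  | monomial n a =>
    rw [aeval_monomial, aeval_monomial, ← mul_assoc, ← mul_assoc, ← Algebra.commutes a q,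
      mul_assoc, mul_assoc]
    congr 1
    induction n with
    | zero => simp
    | succ n ih =>
      calc q * M' ^ (n + 1) = (q * M') * M' ^ n := by rw [pow_succ', mul_assoc]
        _ = B * (q * M' ^ n) := by rw [h, ← hB, mul_assoc]
        _ = (B * q) * B ^ n := by rw [ih, mul_assoc]
        _ = q * B ^ (n + 1) := by rw [hB, mul_assoc, ← pow_succ']

theorem coprime_prod (lo hi : ℤ) (m : ℕ) : IsCoprime (((X : ℚ[X]) - C (hi : ℚ)) ^ m)
    ((∏ k ∈ Finset.Icc lo (hi - 1), ((X : ℚ[X]) - C (k : ℚ))) ^ m) := by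
  apply IsCoprime.pow
  apply IsCoprime.prod_right
  intro k hk
  rw [Finset.mem_Icc] at hk
  apply Polynomial.isCoprime_X_sub_C_of_isUnit_sub
  rw [isUnit_iff_ne_zero]
  have : (hi : ℚ) ≠ (k : ℚ) := by
    intro h
    have h' : hi = k := by exact_mod_cast h
    omega
  exact sub_ne_zero.mpr this

/-- The coefficients of the transformed matrix. -/
theorem shear_coL (g : Matrix ι ι (LaurentSeries ℚ)) (p : Matrix ι ι ℚ) (n : ℤ) :
    coL n ((cM (1 - p) + emb X • cM p) * g * (cM (1 - p) + xx • cM p) + xx • cM p) =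
      (1 - p) * coL n g * (1 - p) + (1 - p) * coL (n - 1) g * p +
        p * coL (n + 1) g * (1 - p) + p * coL n g * p + coL (n - 1) (cM p) := by
  have h1 : (cM (1 - p) + emb X • cM p) * g * (cM (1 - p) + xx • cM p) =
      cM (1 - p) * g * cM (1 - p) + xx • (cM (1 - p) * g * cM p) +
        emb X • (cM p * g * cM (1 - p)) + cM p * g * cM p := by
    rw [add_mul, add_mul, mul_add, mul_add]
    simp only [Matrix.smul_mul, Matrix.mul_smul, smul_smul, emb_X_mul_xx, xx_mul_emb_X, one_smul]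
    abel
  rw [h1]
  simp only [coL_add, coL_xx_smul, coL_embX_smul, coL_mul_cM, coL_cM_mul]

theorem shear_step {T : ℤ[X]} {A : Matrix ι ι ℚ[X]} {N π : Matrix ι ι ℚ}
    (hR : IsRes (T.map (Int.castRingHom ℚ)) A N) (hπ : cX π * A = A * cX π) {lo hi : ℤ}
    (hlt : lo < hi) (hint : IntEig lo hi (N - (1 / 2 : ℚ) • π)) :
    ∃ (Z : Matrix ι ι ℤ[X]) (N' : Matrix ι ι ℚ), Z.det ≠ 0 ∧
      IsRes ((gT T Z 1).map (Int.castRingHom ℚ)) (gA T A Z 1) N' ∧
      cX π * gA T A Z 1 = gA T A Z 1 * cX π ∧ IntEig lo (hi - 1) (N' - (1 / 2 : ℚ) • π) := by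
  obtain ⟨hord, hres⟩ := hR.ord
  have hT0 := hR.1
  set g := (emb (T.map (Int.castRingHom ℚ)))⁻¹ • eM A with hg
  have hcg : cM π * g = g * cM π := comm_of_cX hπ
  have hcL : ∀ n, π * coL n g = coL n g * π := by
    intro n
    rw [← coL_cM_mul, hcg, coL_mul_cM]
  have hcN : π * N = N * π := by
    have h1 := hcL 1
    rw [hres] at h1
    simpa using h1
  set M : Matrix ι ι ℚ := N - (1 / 2 : ℚ) • π with hM
  have hMπ : M * π = π * M := by
    rw [hM, sub_mul, mul_sub, hcN, Matrix.smul_mul, Matrix.mul_smul]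
  obtain ⟨m, hm⟩ := hint
  obtain ⟨u, v, huv⟩ := coprime_prod lo hi m
  set F₁ : ℚ[X] := ((X : ℚ[X]) - C (hi : ℚ)) ^ m with hF₁
  set F₂ : ℚ[X] := (∏ k ∈ Finset.Icc lo (hi - 1), ((X : ℚ[X]) - C (k : ℚ))) ^ m with hF₂
  have hF : F₁ * F₂ = (∏ k ∈ Finset.Icc lo hi, ((X : ℚ[X]) - C (k : ℚ))) ^ m := by
    rw [hF₁, hF₂, ← mul_pow]
    congr 1
    have h1 : Finset.Icc lo hi = insert hi (Finset.Icc lo (hi - 1)) := by
      ext k
      simp only [Finset.mem_Icc, Finset.mem_insert]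
      omega
    rw [h1, Finset.prod_insert (by simp)]
  have hF0 : aeval M (F₁ * F₂) = 0 := by rw [hF]; exact hm
  set p : Matrix ι ι ℚ := aeval M (v * F₂) with hp
  have hq : 1 - p = aeval M (u * F₁) := by
    rw [sub_eq_iff_eq_add, hp, ← map_add, huv, map_one]
  have hpp0 : (1 - p) * p = 0 := by
    rw [hq, hp, ← map_mul, show u * F₁ * (v * F₂) = u * v * (F₁ * F₂) by ring, map_mul, hF0,
      mul_zero]
  have hpp0' : p * (1 - p) = 0 := by
    rw [hq, hp, ← map_mul, show v * F₂ * (u * F₁) = u * v * (F₁ * F₂) by ring, map_mul, hF0,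
      mul_zero]
  have hpp : p * p = p := by
    have h1 := hpp0
    rw [sub_mul, one_mul, sub_eq_zero] at h1
    exact h1.symm
  have hqq : (1 - p) * (1 - p) = 1 - p := by
    rw [mul_sub, mul_one, hpp0, sub_zero]
  have hF1p : aeval M F₁ * p = 0 := by
    rw [hp, ← map_mul, show F₁ * (v * F₂) = v * (F₁ * F₂) by ring, map_mul, hF0, mul_zero]
  have hF2q : (1 - p) * aeval M F₂ = 0 := by
    rw [hq, ← map_mul, show u * F₁ * F₂ = u * (F₁ * F₂) by ring, map_mul, hF0, mul_zero]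
  have hpM : M * p = p * M := by
    have h2 : aeval M (X * (v * F₂)) = M * p := by rw [map_mul, aeval_X]
    have h3 : aeval M ((v * F₂) * X) = p * M := by rw [map_mul, aeval_X]
    rw [← h2, ← h3, mul_comm]
  have hpπ : π * p = p * π := by
    rw [hp]
    have : Commute π (aeval M (v * F₂)) := by
      have h4 : ∀ f : ℚ[X], Commute π (aeval M f) := by
        intro f
        induction f using Polynomial.induction_on' with
        | add f g hf hg => rw [map_add]; exact hf.add_right hg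
        | monomial n a =>
          rw [aeval_monomial]
          exact Commute.mul_right (Algebra.commutes a π).symm (Commute.pow_right hMπ.symm n)
      exact h4 _
    exact this
  have hpN : p * N = N * p := by
    have h1 : N = M + (1 / 2 : ℚ) • π := by rw [hM]; abel
    rw [h1, mul_add, add_mul, Matrix.mul_smul, Matrix.smul_mul, hpM, hpπ]
  -- the gauge transformation
  obtain ⟨κ, P, hκ, hP⟩ := exists_clear p
  set Z : Matrix ι ι ℤ[X] := Matrix.of fun a b =>
    C ((if a = b then (κ : ℤ) else 0) - P a b) * X + C (P a b) with hZ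
  have hκ0 : ((κ : ℚ)) ≠ 0 := by exact_mod_cast hκ.ne'
  set k : LaurentSeries ℚ := algebraMap ℚ (LaurentSeries ℚ) (κ : ℚ) with hk
  have hk0 : k ≠ 0 := by
    rw [hk]
    exact (_root_.map_ne_zero _).mpr hκ0
  set V : Matrix ι ι (LaurentSeries ℚ) := k • (cM (1 - p) + xx • cM p) with hV
  set V' : Matrix ι ι (LaurentSeries ℚ) := k⁻¹ • (cM (1 - p) + emb X • cM p) with hV'
  have hVZ : V = xx ^ 1 • eM (Z.map (Polynomial.map (Int.castRingHom ℚ))) := by
    ext1 a b
    rw [hV, pow_one, Matrix.smul_apply, Matrix.smul_apply, Matrix.add_apply, Matrix.smul_apply,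
      cM_apply, cM_apply, eM_apply, Matrix.map_apply, hZ, Matrix.of_apply, Polynomial.map_add,
      Polynomial.map_mul, Polynomial.map_C, Polynomial.map_C, Polynomial.map_X, map_add, map_mul,
      emb_C, emb_C]
    have e1 : (Int.castRingHom ℚ) ((if a = b then (κ : ℤ) else 0) - P a b) =
        (κ : ℚ) * (1 - p) a b := by
      rw [Matrix.sub_apply, Matrix.one_apply, mul_sub, ← hP a b]
      split_ifs <;> simp
    have e2 : (Int.castRingHom ℚ) (P a b) = (κ : ℚ) * p a b := by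
      rw [← hP a b]
      simp
    rw [e1, e2, map_mul, map_mul, ← hk]
    simp only [smul_eq_mul]
    linear_combination (-(k * algebraMap ℚ (LaurentSeries ℚ) ((1 - p) a b))) * xx_mul_emb_X
  have hcc : ∀ A B : Matrix ι ι ℚ, cM A * cM B = cM (A * B) := fun A B => (cM_mul A B).symm
  have hVV' : V * V' = 1 := by
    rw [hV, hV', Matrix.smul_mul, Matrix.mul_smul, smul_smul, mul_inv_cancel₀ hk0, one_smul,
      add_mul, mul_add, mul_add]
    simp only [Matrix.smul_mul, Matrix.mul_smul, hcc, hpp, hqq, hpp0, hpp0', cM_zero, smul_zero,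
      smul_smul, xx_mul_emb_X, emb_X_mul_xx, one_smul, add_zero, zero_add]
    rw [← cM_add, sub_add_cancel, cM_one]
  have hV'V : V' * V = 1 := by
    rw [hV, hV', Matrix.smul_mul, Matrix.mul_smul, smul_smul, inv_mul_cancel₀ hk0, one_smul,
      add_mul, mul_add, mul_add]
    simp only [Matrix.smul_mul, Matrix.mul_smul, hcc, hpp, hqq, hpp0, hpp0', cM_zero, smul_zero,
      smul_smul, emb_X_mul_xx, xx_mul_emb_X, one_smul, add_zero, zero_add]
    rw [← cM_add, sub_add_cancel, cM_one]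
  have hdV : dM V = (-(k * (xx * xx))) • cM p := by
    rw [hV, dM_smul, hk, dd_algebraMap, zero_smul, zero_add, dM_add, dM_cM, zero_add, dM_smul,
      dM_cM, smul_zero, add_zero, dd_xx, smul_smul, mul_neg]
  have hV'dV : V' * dM V = -(xx • cM p) := by
    rw [hdV, hV', Matrix.smul_mul, Matrix.mul_smul, add_mul, smul_smul]
    simp only [Matrix.smul_mul, hcc, hpp, hpp0, cM_zero, zero_add, smul_smul]
    rw [← neg_smul]
    congr 1
    have e1 : k⁻¹ * k = 1 := inv_mul_cancel₀ hk0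
    linear_combination (-(xx * xx * emb X)) * e1 - xx * xx_mul_emb_X
  have hnew : V' * g * V - V' * dM V =
      (cM (1 - p) + emb X • cM p) * g * (cM (1 - p) + xx • cM p) + xx • cM p := by
    rw [hV'dV, sub_neg_eq_add, hV, hV', Matrix.smul_mul, Matrix.smul_mul, Matrix.mul_smul,
      smul_smul, inv_mul_cancel₀ hk0, one_smul]
  set g₂ := coL 2 g with hg₂
  set N' : Matrix ι ι ℚ := N - p - p * g₂ * (1 - p) with hN'
  have hgn : ∀ n : ℤ, n < 1 → coL n g = 0 := by
    intro n hn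
    ext a b
    exact hord a b n hn
  have hpNq : p * N * (1 - p) = 0 := by
    rw [hpN, mul_assoc, hpp0', mul_zero]
  have h1 : ∀ n : ℤ, n < 1 → coL n (V' * g * V - V' * dM V) = 0 := by
    intro n hn
    rw [hnew, shear_coL, hgn n hn, hgn (n - 1) (by omega), coL_cM, if_neg (by omega)]
    simp only [mul_zero, zero_mul, add_zero, zero_add]
    rcases lt_or_ge (n + 1) 1 with h2 | h2
    · rw [hgn _ h2, mul_zero, zero_mul]
    · have h3 : n + 1 = 1 := by omega
      rw [h3, hres, mul_neg, neg_mul, hpNq, neg_zero]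
  have h2 : coL 1 (V' * g * V - V' * dM V) = -N' := by
    rw [hnew, shear_coL, hres, hgn (1 - 1) (by omega), coL_cM, if_pos (by omega),
      show (1 : ℤ) + 1 = 2 by norm_num, ← hg₂]
    have e1 : (1 - p) * -N * (1 - p) + p * -N * p = -N := by
      have e2 : p * N * p = N * p := by rw [hpN, mul_assoc, hpp]
      have e3 : (1 - p) * -N * (1 - p) + p * -N * p =
        -N + p * N + N * p - p * N * p - p * N * p := by
        noncomm_ring
      rw [e3, e2, hpN]
      abel
    have e4 : (1 - p) * -N * (1 - p) + (1 - p) * 0 * p + p * g₂ * (1 - p) + p * -N * p + p =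
        ((1 - p) * -N * (1 - p) + p * -N * p) + p * g₂ * (1 - p) + p := by
      rw [mul_zero, zero_mul]
      abel
    rw [e4, e1, hN']
    abel
  have h3 : cM π * (V' * g * V - V' * dM V) = (V' * g * V - V' * dM V) * cM π := by
    rw [hnew]
    have c1 : Commute (cM π) (cM p) := by
      show cM π * cM p = cM p * cM π
      rw [hcc, hcc, hpπ]
    have c2 : Commute (cM π) (cM (1 - p)) := by
      show cM π * cM (1 - p) = cM (1 - p) * cM π
      rw [hcc, hcc, mul_sub, sub_mul, mul_one, one_mul, hpπ]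
    have c3 : ∀ s : LaurentSeries ℚ, Commute (cM π) (s • cM p) := by
      intro s
      show cM π * (s • cM p) = (s • cM p) * cM π
      rw [Matrix.mul_smul, Matrix.smul_mul, c1.eq]
    have c4 : Commute (cM π) g := hcg
    exact ((((c2.add_right (c3 _)).mul_right c4).mul_right (c2.add_right (c3 _))).add_right
      (c3 _)).eq
  obtain ⟨r1, r2, r3⟩ := gauge_res (N' := N') (π := π) hT0 hVZ hVV' hV'V h3 h1 h2
  refine ⟨Z, N', r1, r2, r3, m * 2, ?_⟩
  -- the eigenvalues
  set M' : Matrix ι ι ℚ := N' - (1 / 2 : ℚ) • π with hM'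
  have hM'M : M' = M - p - p * g₂ * (1 - p) := by
    rw [hM', hN', hM]
    abel
  have s1 : M' * p = (M - 1) * p := by
    have e : ∀ a b c : Matrix ι ι ℚ, (a - b - c) * p = a * p - b * p - c * p := fun a b c => by
      rw [sub_mul, sub_mul]
    rw [hM'M, e M p (p * g₂ * (1 - p)), hpp, mul_assoc (p * g₂), hpp0, mul_zero,
      sub_zero, sub_mul M 1 p, one_mul]
  have s2 : (1 - p) * M' = (1 - p) * M := by
    have e : ∀ a b c : Matrix ι ι ℚ, (1 - p) * (a - b - c) =
        (1 - p) * a - (1 - p) * b - (1 - p) * c := fun a b c => by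
      rw [mul_sub (1 - p) (a - b), mul_sub (1 - p) a]
    rw [hM'M, e M p (p * g₂ * (1 - p)), hpp0, sub_zero, ← mul_assoc, ← mul_assoc, hpp0, zero_mul,
      zero_mul, sub_zero]
  have s3 : (M - 1) * p = p * (M - 1) := by
    rw [sub_mul M 1, mul_sub p M, hpM, one_mul, mul_one]
  have s4 : M * (1 - p) = (1 - p) * M := by
    rw [mul_sub M 1 p, sub_mul 1 p M, hpM, one_mul, mul_one]
  have t1 : aeval M' F₂ * p = 0 := by
    rw [aeval_mul_right s1 s3]
    have hmem : hi - 1 ∈ Finset.Icc lo (hi - 1) := by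
      rw [Finset.mem_Icc]
      omega
    rw [hF₂, ← Finset.mul_prod_erase _ _ hmem, mul_pow, mul_comm, map_mul, mul_assoc]
    have h4 : aeval (M - 1) (((X : ℚ[X]) - C ((hi - 1 : ℤ) : ℚ)) ^ m) = aeval M F₁ := by
      rw [hF₁, map_pow, map_pow]
      congr 1
      have h5 : (algebraMap ℚ (Matrix ι ι ℚ)) ((hi - 1 : ℤ) : ℚ) =
          algebraMap ℚ (Matrix ι ι ℚ) (hi : ℚ) - 1 := by
        rw [Int.cast_sub, Int.cast_one, RingHom.map_sub, RingHom.map_one]
      rw [map_sub, map_sub, aeval_X, aeval_X, aeval_C, aeval_C, h5]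
      abel
    rw [h4, hF1p, mul_zero]
  have t2 : (1 - p) * aeval M' F₂ = 0 := by
    rw [aeval_mul_left s2 s4, hF2q]
  have t3 : aeval M' F₂ = p * aeval M' F₂ := by
    rw [sub_mul, one_mul, sub_eq_zero] at t2
    exact t2
  have t4 : aeval M' F₂ * aeval M' F₂ = 0 := by
    calc aeval M' F₂ * aeval M' F₂ = aeval M' F₂ * (p * aeval M' F₂) := by rw [← t3]
      _ = (aeval M' F₂ * p) * aeval M' F₂ := (mul_assoc _ _ _).symm
      _ = 0 := by rw [t1, zero_mul]
  rw [pow_mul, ← hF₂, pow_two, map_mul, t4]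

theorem dd_scal (D k : ℕ) : dd (xx ^ D * emb X ^ k) =
    (((k : ℚ) - (D : ℚ)) • xx) * (xx ^ D * emb X ^ k) := by
  have h1 : dd (emb X ^ k) = (k : LaurentSeries ℚ) * xx * emb X ^ k := by
    induction k with
    | zero => simp [dd_one]
    | succ n ih =>
      rw [pow_succ, dd_mul, ih, dd_emb, derivative_X, map_one]
      push_cast
      have e := xx_mul_emb_X
      linear_combination (-(emb X ^ n)) * e
  have h2 : (((k : ℚ) - (D : ℚ)) • xx : LaurentSeries ℚ) =
      ((k : LaurentSeries ℚ) - (D : LaurentSeries ℚ)) * xx := by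
    rw [sub_smul, sub_mul, Nat.cast_smul_eq_nsmul, Nat.cast_smul_eq_nsmul, nsmul_eq_mul,
      nsmul_eq_mul]
  rw [dd_mul, h1, dd_xx_pow, h2]
  ring

theorem shear_base {T : ℤ[X]} {A : Matrix ι ι ℚ[X]} {N π : Matrix ι ι ℚ}
    (hR : IsRes (T.map (Int.castRingHom ℚ)) A N) (hπ : cX π * A = A * cX π) {lo : ℤ}
    (hint : IntEig lo lo (N - (1 / 2 : ℚ) • π)) :
    ∃ (Z : Matrix ι ι ℤ[X]) (D : ℕ), Z.det ≠ 0 ∧
      IsRes ((gT T Z D).map (Int.castRingHom ℚ)) (gA T A Z D) (N - (lo : ℚ) • 1) ∧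
      cX π * gA T A Z D = gA T A Z D * cX π ∧
      IsNilpotent (N - (lo : ℚ) • 1 - (1 / 2 : ℚ) • π) := by
  obtain ⟨hord, hres⟩ := hR.ord
  have hT0 := hR.1
  set g := (emb (T.map (Int.castRingHom ℚ)))⁻¹ • eM A with hg
  have hcg : cM π * g = g * cM π := comm_of_cX hπ
  have hgn : ∀ n : ℤ, n < 1 → coL n g = 0 := by
    intro n hn
    ext a b
    exact hord a b n hn
  obtain ⟨D, hD⟩ : ∃ D : ℕ, D = lo.toNat := ⟨_, rfl⟩
  obtain ⟨k, hk⟩ : ∃ k : ℕ, k = (-lo).toNat := ⟨_, rfl⟩
  have hDk : (D : ℤ) - k = lo := by omega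
  have hDk' : (k : ℚ) - (D : ℚ) = -(lo : ℚ) := by
    rw [← hDk]
    push_cast
    ring
  set c : LaurentSeries ℚ := xx ^ D * emb X ^ k with hc
  have hcc : c * (emb X ^ D * xx ^ k) = 1 := by
    have e : (xx * emb X) ^ D * (xx * emb X) ^ k = 1 := by
      rw [xx_mul_emb_X, one_pow, one_pow, one_mul]
    rw [hc, ← e]
    ring
  set c' : LaurentSeries ℚ := emb X ^ D * xx ^ k with hc'
  set Z : Matrix ι ι ℤ[X] := (X ^ k : ℤ[X]) • (1 : Matrix ι ι ℤ[X]) with hZ
  have hVZ : c • (1 : Matrix ι ι (LaurentSeries ℚ)) =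
      xx ^ D • eM (Z.map (Polynomial.map (Int.castRingHom ℚ))) := by
    ext1 a b
    rw [Matrix.smul_apply, Matrix.smul_apply, eM_apply, Matrix.map_apply, hZ, Matrix.smul_apply,
      Matrix.one_apply, Matrix.one_apply, hc]
    split_ifs
    · simp [mul_one]
    · simp
  have h1 : (c • (1 : Matrix ι ι (LaurentSeries ℚ))) * (c' • (1 : Matrix ι ι (LaurentSeries ℚ))) =
      1 := by
    rw [Matrix.smul_mul, Matrix.mul_smul, one_mul, smul_smul, hcc, one_smul]
  have h2 : (c' • (1 : Matrix ι ι (LaurentSeries ℚ))) * (c • (1 : Matrix ι ι (LaurentSeries ℚ))) =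
      1 := by
    rw [Matrix.smul_mul, Matrix.mul_smul, one_mul, smul_smul, mul_comm, hcc, one_smul]
  have hnew : (c' • (1 : Matrix ι ι (LaurentSeries ℚ))) * g *
      (c • (1 : Matrix ι ι (LaurentSeries ℚ))) -
      (c' • (1 : Matrix ι ι (LaurentSeries ℚ))) * dM (c • (1 : Matrix ι ι (LaurentSeries ℚ))) =
      g + (lo : ℚ) • (xx • cM 1) := by
    rw [dM_smul, dM_one, smul_zero, add_zero, hc, dd_scal, ← hc, hDk', cM_one]
    simp only [Matrix.smul_mul, Matrix.mul_smul, one_mul, mul_one, smul_smul]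
    rw [mul_comm c c', show c' * c = 1 by rw [mul_comm]; exact hcc, one_smul]
    rw [show -(lo : ℚ) • xx * c * c' = -(lo : ℚ) • xx by rw [mul_assoc, hcc, mul_one]]
    rw [neg_smul, neg_smul, sub_neg_eq_add]
    congr 1
    ext1 a b
    simp [Matrix.smul_apply, smul_mul_assoc]
  have hcL : ∀ n : ℤ, coL n (g + (lo : ℚ) • (xx • cM 1)) =
      coL n g + (lo : ℚ) • coL (n - 1) (cM 1) := by
    intro n
    rw [coL_add, ← coL_xx_smul]
    congr 1
  obtain ⟨r1, r2, r3⟩ := gauge_res (N' := N - (lo : ℚ) • 1) (π := π) (A := A) hT0 hVZ h1 h2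
    (by
      rw [hnew, mul_add, add_mul, hcg, cM_one]
      congr 1
      simp only [Matrix.mul_smul, Matrix.smul_mul, mul_one, one_mul])
    (fun n hn => by
      rw [hnew, hcL, hgn n hn, coL_cM, if_neg (by omega), smul_zero, add_zero])
    (by
      rw [hnew, hcL, hres, coL_cM, if_pos (by omega)]
      abel)
  refine ⟨Z, D, r1, r2, r3, ?_⟩
  obtain ⟨m, hm⟩ := hint
  refine ⟨m, ?_⟩
  rw [Finset.Icc_self, Finset.prod_singleton, map_pow, map_sub, aeval_X, aeval_C] at hm
  rw [← hm]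
  congr 1
  rw [Algebra.algebraMap_eq_smul_one]
  abel

end Pool.Agent.Helper79.GC
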