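import Pool.Agent.Helper79.GC.HypEig
import Pool.Agent.Helper79.GC.Shear

/-!
# GH-3: the residue at infinity of the hyperelliptic family

`n = 2h = deg g`, `Z = hypZ n`, `Z_ia = (-1)^(i-a) binom(i,a) t^i`. Put `T̃ = 2 t g`, `Ã_{a,b} = g [b < a] + t^(b+1) c_b(t) - 2 a g [a = b]`,
`c_b(t) = (b+1) g_{b+1} - ∑_{m>b} g_m t^(m-1-b)` (`g_m` the coefficients of `g`). Claim: `Z Ã = t B Z - 2 t g Z'`, i.e. `(emb gT)⁻¹ • eM gA = Z⁻¹ (B/T) Z - Z⁻¹ Z' = Ã/T̃`
(`gauge_eq` with `D = 0`). Entry `(i, b)`, `i ≥ 1`: `∑_a (-1)^(i-a) binom(i,a) = 0`, `∑_{a>b} (-1)^(i-a) binom(i,a) = (-1)^(i-b-1) binom(i-1,b)`: left side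
`t^i g ((-1)^(i-b-1) binom(i-1,b) - 2 b (-1)^(i-b) binom(i,b))`, right side `(1-2i) g t^i (-1)^(i-1-b) binom(i-1,b) - 2 i g t^i (-1)^(i-b) binom(i,b)`, equal since
`(i-b) binom(i,b) = i binom(i-1,b)`. Entry `(0, b)`: `t^b c_b(t) = ∑_{k=1}^{n-1} k γ_{k+1}(t) (-1)^(k-b) binom(k,b) t^k`: this is the coefficient of `x^b` in
`∑_k k γ_{k+1}(t) (x-t)^k = g'(x) - (g(x) - g(t))/(x - t)` (check it on monomials `g = x^m`), times `t^b`.
Degrees: `deg Ã ≤ 2h = deg T̃ - 1` and the coefficient of `t^(2h)` of `Ã_{a,b}` is `lc(g) ([b<a] - 1 + 2h [b = 2h-1] - 2a[a=b]) = -2 lc(g) N_{a,b}`, `N = hypN h`. So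
`isRes_of_ord` (or direct) gives `hyp_res`.
-/

open Polynomial

namespace Pool.Agent.Helper79.GC

open Pool.Agent.Helper37.GP

/-! ### Signed binomial coefficients -/

/-- the signed binomial coefficients -/
private noncomputable def sb (i a : ℕ) : ℚ := (-1) ^ (i + a) * (i.choose a : ℚ)

private lemma sb_succ (i a : ℕ) : sb (i + 1) (a + 1) = sb i a - sb i (a + 1) := by
  unfold sb
  rw [Nat.choose_succ_succ]
  push_cast
  ring

private lemma sb_zero {i a : ℕ} (h : i < a) : sb i a = 0 := by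
  unfold sb
  rw [Nat.choose_eq_zero_of_lt h]
  simp

private lemma sb_succ_zero (i : ℕ) : sb (i + 1) 0 = -sb i 0 := by
  unfold sb
  simp [pow_succ]

private lemma sb_tail (i b n : ℕ) : ∑ a ∈ Finset.range (n + 1),
    (if b < a then sb (i + 1) a else 0) = if b < n + 1 then sb i b - sb i n else 0 := by
  induction n with
  | zero =>
    rw [Finset.sum_range_one, if_neg (Nat.not_lt_zero b)]
    split_ifs with h
    · have : b = 0 := by omega
      subst this
      ring
    · rfl
  | succ n ih =>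
    rw [Finset.sum_range_succ, ih]
    rcases lt_trichotomy b (n + 1) with h | h | h
    · rw [if_pos h, if_pos h, if_pos (by omega), sb_succ]
      ring
    · subst h
      rw [if_neg (by omega), if_neg (by omega), if_pos (by omega)]
      ring
    · rw [if_neg (by omega), if_neg (by omega), if_neg (by omega)]
      ring

private lemma sb_total (i n : ℕ) : ∑ a ∈ Finset.range (n + 1), sb (i + 1) a = -sb i n := by
  induction n with
  | zero => rw [Finset.sum_range_one, sb_succ_zero]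
  | succ n ih =>
    rw [Finset.sum_range_succ, ih, sb_succ]
    ring

private lemma sb_abs (i b : ℕ) :
    ((i : ℚ) + 1 - b) * sb (i + 1) b = -((i : ℚ) + 1) * sb i b := by
  rcases le_or_gt b (i + 1) with h | h
  · have h1 := Nat.choose_mul_succ_eq i b
    have h2 : ((i.choose b : ℚ)) * ((i : ℚ) + 1) = ((i + 1).choose b : ℚ) * ((i : ℚ) + 1 - b) := by
      have h3 := congrArg (Nat.cast : ℕ → ℚ) h1
      rw [Nat.cast_mul, Nat.cast_mul, Nat.cast_sub h] at h3
      push_cast at h3
      exact h3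
    unfold sb
    rw [show i + 1 + b = (i + b) + 1 by ring, pow_succ]
    linear_combination ((-1 : ℚ) ^ (i + b)) * h2
  · rw [sb_zero h, sb_zero (show i < b by omega), mul_zero, mul_zero]

private lemma sb_eq {i a : ℕ} (h : a ≤ i) : sb i a = (-1) ^ (i - a) * (i.choose a : ℚ) := by
  unfold sb
  congr 1
  rw [show i + a = (i - a) + 2 * a by omega, pow_add, pow_mul]
  simp

private lemma coeff_pow (k b : ℕ) : (((X : ℚ[X]) - 1) ^ k).coeff b = sb k b := by
  have h := Polynomial.coeff_X_add_C_pow (-1 : ℚ) k b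
  rw [C_neg, C_1, ← sub_eq_add_neg] at h
  rw [h]
  rcases le_or_gt b k with hb | hb
  · rw [sb_eq hb]
  · rw [sb_zero hb, Nat.choose_eq_zero_of_lt hb]
    simp

private lemma row_poly (m : ℕ) :
    ∑ k ∈ Finset.range m, C ((k : ℚ) * (m.choose (k + 1) : ℚ)) * ((X : ℚ[X]) - 1) ^ k =
      C (m : ℚ) * X ^ (m - 1) - ∑ j ∈ Finset.range m, X ^ j := by
  have hX : (X : ℚ[X]) - 1 ≠ 0 := by
    have := Polynomial.X_sub_C_ne_zero (1 : ℚ)
    rwa [C_1] at this
  have hQ : ((X : ℚ[X]) - 1) * (∑ k ∈ Finset.range m, C (m.choose (k + 1) : ℚ) * (X - 1) ^ k) =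
      X ^ m - 1 := by
    have h1 : (X : ℚ[X]) ^ m = ((X - 1) + 1) ^ m := by rw [sub_add_cancel]
    rw [h1, add_pow, Finset.sum_range_succ', Finset.mul_sum]
    simp only [one_pow, mul_one, pow_zero, Nat.choose_zero_right, Nat.cast_one, one_mul,
      add_sub_cancel_right]
    refine Finset.sum_congr rfl fun k _ => ?_
    rw [Polynomial.C_eq_natCast]
    ring
  have hG : (∑ k ∈ Finset.range m, C (m.choose (k + 1) : ℚ) * ((X : ℚ[X]) - 1) ^ k) =
      ∑ j ∈ Finset.range m, X ^ j := by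
    apply mul_left_cancel₀ hX
    rw [hQ, mul_comm, geom_sum_mul]
  have hD := congrArg derivative hQ
  rw [derivative_mul, derivative_sub, derivative_X, derivative_one, sub_zero, one_mul,
    derivative_sub, derivative_one, sub_zero, derivative_X_pow, derivative_sum] at hD
  have hE : ((X : ℚ[X]) - 1) * (∑ k ∈ Finset.range m,
      derivative (C (m.choose (k + 1) : ℚ) * ((X : ℚ[X]) - 1) ^ k)) =
      ∑ k ∈ Finset.range m, C ((k : ℚ) * (m.choose (k + 1) : ℚ)) * ((X : ℚ[X]) - 1) ^ k := by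
    rw [Finset.mul_sum]
    refine Finset.sum_congr rfl fun k _ => ?_
    rw [derivative_C_mul, derivative_pow, derivative_sub, derivative_X, derivative_one, sub_zero,
      mul_one, C_mul]
    cases k with
    | zero => simp
    | succ k =>
      rw [Nat.add_sub_cancel, pow_succ]
      ring
  rw [← hE, ← hG]
  linear_combination hD

private lemma row0 {m b N : ℕ} (hm : m ≤ N) :
    ∑ k ∈ Finset.range N, (k : ℚ) * (m.choose (k + 1) : ℚ) * sb k b =
      (if m = b + 1 then (m : ℚ) else 0) - (if b < m then 1 else 0) := by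
  have h1 : ∑ k ∈ Finset.range N, (k : ℚ) * (m.choose (k + 1) : ℚ) * sb k b =
      ∑ k ∈ Finset.range m, (k : ℚ) * (m.choose (k + 1) : ℚ) * sb k b := by
    symm
    refine Finset.sum_subset (Finset.range_mono hm) fun k _ hk => ?_
    rw [Finset.mem_range, not_lt] at hk
    rw [Nat.choose_eq_zero_of_lt (by omega)]
    simp
  have h2 := congrArg (fun p => p.coeff b) (row_poly m)
  simp only [finsetSum_coeff, coeff_C_mul, coeff_pow, coeff_sub, coeff_X_pow] at h2
  rw [h1, h2]
  congr 1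
  · rcases Nat.eq_zero_or_pos m with h | h
    · subst h
      rw [if_neg (show ¬ (0 = b + 1) by omega)]
      simp
    · by_cases h3 : m = b + 1
      · rw [if_pos h3, if_pos (by omega), mul_one]
      · rw [if_neg h3, if_neg (by omega), mul_zero]
  · rw [Finset.sum_ite_eq]
    simp only [Finset.mem_range]

/-! ### The transformed matrix -/

/-- the coefficients -/
private noncomputable def ec (m b : ℕ) : ℚ :=
  (if m = b + 1 then (m : ℚ) else 0) - (if b < m then 1 else 0)

private noncomputable def EE (G : ℚ[X]) (n b : ℕ) : ℚ[X] :=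
  ∑ m ∈ Finset.range (n + 1), C (G.coeff m * ec m b) * X ^ m

private lemma EE_coeff (G : ℚ[X]) (n b m : ℕ) :
    (EE G n b).coeff m = if m ≤ n then G.coeff m * ec m b else 0 := by
  unfold EE
  simp only [finsetSum_coeff, coeff_C_mul, coeff_X_pow, mul_ite, mul_one, mul_zero]
  rw [Finset.sum_ite_eq]
  simp only [Finset.mem_range, Nat.lt_succ_iff]

private lemma EE_eq {G : ℚ[X]} {n b : ℕ} (hn : G.natDegree ≤ n) :
    X * ∑ k ∈ Finset.range n, ((k : ℚ[X]) * hasseDeriv (k + 1) G) * (C (sb k b) * X ^ k) =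
      EE G n b := by
  ext m
  rw [EE_coeff, Finset.mul_sum, finsetSum_coeff]
  have h1 : ∀ k ∈ Finset.range n, (X * ((k : ℚ[X]) * hasseDeriv (k + 1) G *
      (C (sb k b) * X ^ k))).coeff m =
      G.coeff m * ((k : ℚ) * (m.choose (k + 1) : ℚ) * sb k b) := by
    intro k _
    have e : X * ((k : ℚ[X]) * hasseDeriv (k + 1) G * (C (sb k b) * X ^ k)) =
        C ((k : ℚ) * sb k b) * (hasseDeriv (k + 1) G * X ^ (k + 1)) := by
      rw [C_mul, Polynomial.C_eq_natCast]
      ring
    rw [e, coeff_C_mul, coeff_mul_X_pow']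
    split_ifs with h
    · rw [hasseDeriv_coeff, Nat.sub_add_cancel h]
      ring
    · rw [Nat.choose_eq_zero_of_lt (by omega)]
      simp
  rw [Finset.sum_congr rfl h1, ← Finset.mul_sum]
  split_ifs with h
  · rw [row0 h]
    rfl
  · rw [coeff_eq_zero_of_natDegree_lt (by omega), zero_mul]

/-- the transformed matrix -/
private noncomputable def tA (G : ℚ[X]) (n : ℕ) : Matrix (Fin n) (Fin n) ℚ[X] :=
  Matrix.of fun a b => (if (b : ℕ) < a then G else 0) + EE G n b -
    (if a = b then C (2 * ((a : ℕ) : ℚ)) * G else 0)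

private lemma hypZ_map (n : ℕ) : (hypZ n).map (Polynomial.map (Int.castRingHom ℚ)) =
    Matrix.of fun i a : Fin n => C (sb i a) * (X : ℚ[X]) ^ (i : ℕ) := by
  ext1 i a
  rw [Matrix.map_apply, hypZ, Matrix.of_apply, Matrix.of_apply]
  split_ifs with h
  · rw [Polynomial.map_mul, Polynomial.map_C, Polynomial.map_pow, Polynomial.map_X, sb_eq h]
    simp
  · rw [sb_zero (by omega)]
    simp

private lemma gamX_eq (g : ℤ[X]) (k : ℕ) :
    gamX g k = hasseDeriv k (g.map (Int.castRingHom ℚ)) := by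
  unfold gamX
  ext m
  rw [coeff_map, hasseDeriv_coeff, hasseDeriv_coeff, coeff_map]
  simp

private lemma key_eq {g : ℤ[X]} {n : ℕ} (hn : g.natDegree ≤ n) :
    (Matrix.of fun i a : Fin n => C (sb i a) * (X : ℚ[X]) ^ (i : ℕ)) *
        tA (g.map (Int.castRingHom ℚ)) n =
      (X : ℚ[X]) • (hypB g n * (Matrix.of fun i a : Fin n => C (sb i a) * (X : ℚ[X]) ^ (i : ℕ)) -
        ((hypT g).map (Int.castRingHom ℚ)) •
          (Matrix.of fun i a : Fin n => C (sb i a) * (X : ℚ[X]) ^ (i : ℕ)).map derivative) := by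
  set G := g.map (Int.castRingHom ℚ) with hG
  have hGn : G.natDegree ≤ n := le_trans (natDegree_map_le) hn
  have hT : (hypT g).map (Int.castRingHom ℚ) = C 2 * G := by
    rw [hypT, Polynomial.map_mul, Polynomial.map_C, hG]
    rfl
  ext1 i b
  have hL : ((Matrix.of fun i a : Fin n => C (sb i a) * (X : ℚ[X]) ^ (i : ℕ)) * tA G n) i b =
      X ^ (i : ℕ) * (C (∑ a ∈ Finset.range n, (if (b : ℕ) < a then sb i a else 0)) * G +
        C (∑ a ∈ Finset.range n, sb i a) * EE G n b - C (2 * (b : ℕ) * sb i b) * G) := by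
    rw [Matrix.mul_apply]
    have h1 : ∀ a : Fin n, (Matrix.of fun i a : Fin n => C (sb i a) * (X : ℚ[X]) ^ (i : ℕ)) i a *
        tA G n a b = X ^ (i : ℕ) * (C (if (b : ℕ) < a then sb i a else 0) * G +
          C (sb i a) * EE G n b - (if a = b then C (2 * (b : ℕ) * sb i b) * G else 0)) := by
      intro a
      rw [tA, Matrix.of_apply, Matrix.of_apply]
      by_cases hab : a = b
      · subst hab
        rw [if_pos rfl, if_pos rfl, if_neg (lt_irrefl _), if_neg (lt_irrefl _)]
        simp only [C_mul, C_0]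
        ring
      · rw [if_neg hab, if_neg hab]
        split_ifs with hlt
        · ring
        · rw [C_0]
          ring
    rw [Finset.sum_congr rfl fun a _ => h1 a, ← Finset.mul_sum, Finset.sum_sub_distrib,
      Finset.sum_add_distrib, ← Finset.sum_mul, ← Finset.sum_mul, Finset.sum_ite_eq' ,
      if_pos (Finset.mem_univ b), ← map_sum, ← map_sum,
      Fin.sum_univ_eq_sum_range (fun a => if (b : ℕ) < a then sb i a else 0) n,
      Fin.sum_univ_eq_sum_range (fun a => sb i a) n]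
  rw [hL, Matrix.smul_apply, Matrix.sub_apply, Matrix.smul_apply, Matrix.map_apply,
    Matrix.mul_apply, hT]
  simp only [Matrix.of_apply, smul_eq_mul, derivative_C_mul, derivative_X_pow]
  have hi := i.2
  rcases Nat.eq_zero_or_pos (i : ℕ) with h0 | h0
  · -- the first row
    have hB : ∀ k : Fin n, hypB g n i k * (C (sb k b) * (X : ℚ[X]) ^ (k : ℕ)) =
        (((k : ℕ) : ℚ[X]) * hasseDeriv ((k : ℕ) + 1) G) * (C (sb k b) * X ^ (k : ℕ)) := by
      intro k
      rw [hypB, Matrix.of_apply, if_pos h0, gamX_eq]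
    rw [Finset.sum_congr rfl fun k _ => hB k,
      Fin.sum_univ_eq_sum_range (fun k => (((k : ℕ) : ℚ[X]) * hasseDeriv ((k : ℕ) + 1) G) *
        (C (sb k b) * X ^ (k : ℕ))) n, mul_sub X, EE_eq hGn, h0]
    have e1 : ∑ a ∈ Finset.range n, (if (b : ℕ) < a then sb 0 a else 0) = 0 := by
      refine Finset.sum_eq_zero fun a _ => ?_
      split_ifs with h
      · exact sb_zero (by omega)
      · rfl
    have e2 : ∑ a ∈ Finset.range n, sb 0 a = 1 := by
      rw [Finset.sum_eq_single_of_mem 0 (Finset.mem_range.mpr (by omega))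
        (fun a _ ha => sb_zero (Nat.pos_of_ne_zero ha))]
      simp [sb]
    have e3 : (2 : ℚ) * (b : ℕ) * sb 0 b = 0 := by
      rcases Nat.eq_zero_or_pos (b : ℕ) with hb | hb
      · rw [hb]; simp
      · rw [sb_zero hb, mul_zero]
    rw [e1, e2, e3]
    simp
  · obtain ⟨j, hj⟩ : ∃ j, (i : ℕ) = j + 1 := ⟨(i : ℕ) - 1, by omega⟩
    have hB : ∑ k : Fin n, hypB g n i k * (C (sb k b) * (X : ℚ[X]) ^ (k : ℕ)) =
        (1 - 2 * ((j + 1 : ℕ) : ℚ[X])) * G * (C (sb j b) * X ^ j) := by
      rw [Finset.sum_eq_single_of_mem (⟨j, by omega⟩ : Fin n) (Finset.mem_univ _)]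
      · rw [hypB, Matrix.of_apply, if_neg (by omega), if_pos (by simp [hj]), gamX_eq,
          hasseDeriv_zero', hj]
      · intro k _ hk
        have hk' : ¬ ((k : ℕ) + 1 = i) := by
          intro h
          apply hk
          apply Fin.ext
          show (k : ℕ) = j
          omega
        rw [hypB, Matrix.of_apply, if_neg (by omega), if_neg hk', zero_mul]
    obtain ⟨N, rfl⟩ : ∃ N, n = N + 1 := ⟨n - 1, by omega⟩
    have e1 : ∑ a ∈ Finset.range (N + 1), (if (b : ℕ) < a then sb i a else 0) = sb j b := by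
      rw [hj, sb_tail, if_pos (by have := b.2; omega), sb_zero (show j < N by omega), sub_zero]
    have e2 : ∑ a ∈ Finset.range (N + 1), sb i a = 0 := by
      rw [hj, sb_total, sb_zero (show j < N by omega), neg_zero]
    have e3 := congrArg (C : ℚ → ℚ[X]) (sb_abs j b)
    rw [hB, e1, e2, hj, Nat.add_sub_cancel]
    simp only [C_0, zero_mul, add_zero, C_mul, C_add, C_sub, C_neg, C_1,
      Polynomial.C_eq_natCast] at e3 ⊢
    have e4 : (C (2 : ℚ) : ℚ[X]) = 2 := rfl
    rw [e4]
    push_cast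
    rw [pow_succ]
    linear_combination (2 * G * X ^ j * X) * e3

private lemma tA_natDegree {G : ℚ[X]} {n : ℕ} (hG : G.natDegree = n) (a b : Fin n) :
    (tA G n a b).natDegree ≤ n := by
  rw [natDegree_le_iff_coeff_eq_zero]
  intro m hm
  have h0 : G.coeff m = 0 := coeff_eq_zero_of_natDegree_lt (by omega)
  rw [tA, Matrix.of_apply, coeff_sub, coeff_add, EE_coeff, if_neg (show ¬ m ≤ n by omega)]
  have h1 : (if (b : ℕ) < a then G else 0).coeff m = 0 := by
    split_ifs
    · exact h0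
    · simp
  have h2 : (if a = b then C (2 * ((a : ℕ) : ℚ)) * G else 0).coeff m = 0 := by
    split_ifs
    · rw [coeff_C_mul, h0, mul_zero]
    · simp
  rw [h1, h2]
  simp

private lemma tA_coeff {G : ℚ[X]} {n : ℕ} (a b : Fin n) :
    (tA G n a b).coeff n = G.coeff n * ((if (b : ℕ) < a then 1 else 0) +
      ((if n = (b : ℕ) + 1 then (n : ℚ) else 0) - 1) - (if a = b then 2 * ((a : ℕ) : ℚ) else 0)) := by
  have hb := b.2
  rw [tA, Matrix.of_apply, coeff_sub, coeff_add, EE_coeff, if_pos le_rfl, ec, if_pos hb]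
  have h1 : (if (b : ℕ) < a then G else 0).coeff n = G.coeff n * (if (b : ℕ) < a then 1 else 0) := by
    split_ifs
    · rw [mul_one]
    · simp
  have h2 : (if a = b then C (2 * ((a : ℕ) : ℚ)) * G else 0).coeff n =
      G.coeff n * (if a = b then 2 * ((a : ℕ) : ℚ) else 0) := by
    split_ifs
    · rw [coeff_C_mul, mul_comm]
    · simp
  rw [h1, h2]
  ring

theorem hyp_res {g : ℤ[X]} {h : ℕ} (hh : 1 ≤ h) (hg : g.natDegree = 2 * h) :
    IsRes ((gT (hypT g) (hypZ (2 * h)) 0).map (Int.castRingHom ℚ))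
      (gA (hypT g) (hypB g (2 * h)) (hypZ (2 * h)) 0) (hypN h) := by
  set n := 2 * h with hn
  set G := g.map (Int.castRingHom ℚ) with hG
  have hinj : Function.Injective (Int.castRingHom ℚ) := (Int.castRingHom ℚ).injective_int
  have hGn : G.natDegree = n := by
    rw [hG, natDegree_map_eq_of_injective hinj, hg]
  have hG0 : G ≠ 0 := by
    intro h0
    rw [h0, natDegree_zero] at hGn
    omega
  set Z' := (hypZ n).map (Polynomial.map (Int.castRingHom ℚ)) with hZ'
  have hdet : (hypZ n).det.map (Int.castRingHom ℚ) = Z'.det := by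
    have h1 := RingHom.map_det (Polynomial.mapRingHom (Int.castRingHom ℚ)) (hypZ n)
    rw [coe_mapRingHom] at h1
    rw [h1]
    rfl
  have hd0 : Z'.det ≠ 0 := by
    rw [← hdet]
    intro h0
    exact hypZ_det n ((Polynomial.map_eq_zero_iff hinj).mp h0)
  have hT : (hypT g).map (Int.castRingHom ℚ) = C 2 * G := by
    rw [hypT, Polynomial.map_mul, Polynomial.map_C, hG]
    simp
  -- the denominator
  have e1 : (gT (hypT g) (hypZ n) 0).map (Int.castRingHom ℚ) =
      Z'.det ^ 2 * (X * (C 2 * G)) := by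
    unfold gT
    rw [Polynomial.map_mul, Polynomial.map_mul, Polynomial.map_pow, Polynomial.map_pow,
      Polynomial.map_X, hdet, hT]
    ring
  -- the matrix
  have e2 : gA (hypT g) (hypB g n) (hypZ n) 0 = (Z'.det ^ 2) • tA G n := by
    have hkey := key_eq (g := g) (n := n) hg.le
    rw [← hypZ_map, ← hZ', ← hG] at hkey
    have h1 : gA (hypT g) (hypB g n) (hypZ n) 0 =
        (X ^ (0 + 1) * Z'.det) • (Z'.adjugate * hypB g n * Z') -
          (X ^ (0 + 1) * (hypT g).map (Int.castRingHom ℚ) * Z'.det) •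
            (Z'.adjugate * Z'.map derivative) +
        (((0 : ℕ) : ℚ[X]) * X ^ 0 * (hypT g).map (Int.castRingHom ℚ) * Z'.det ^ 2) • 1 := rfl
    rw [h1]
    have h2 : ((X : ℚ[X]) ^ (0 + 1) * Z'.det) • (Z'.adjugate * hypB g n * Z') -
          ((X : ℚ[X]) ^ (0 + 1) * (hypT g).map (Int.castRingHom ℚ) * Z'.det) •
            (Z'.adjugate * Z'.map derivative) = Z'.det • (Z'.adjugate *
          ((X : ℚ[X]) • (hypB g n * Z' - (hypT g).map (Int.castRingHom ℚ) •
            Z'.map derivative))) := by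
      rw [Matrix.mul_smul, Matrix.mul_sub, Matrix.mul_smul, smul_sub, smul_sub, smul_smul,
        smul_smul, smul_smul, ← Matrix.mul_assoc]
      congr 2 <;> ring
    rw [h2, ← hkey, ← Matrix.mul_assoc, Matrix.adjugate_mul, Matrix.smul_mul, Matrix.one_mul,
      smul_smul]
    simp [pow_two]
  have hD : (Z'.det ^ 2) ≠ 0 := pow_ne_zero _ hd0
  have hXG : (X : ℚ[X]) * (C 2 * G) ≠ 0 := mul_ne_zero X_ne_zero (mul_ne_zero (by simp) hG0)
  have hdegX : ((X : ℚ[X]) * (C 2 * G)).natDegree = n + 1 := by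
    rw [natDegree_mul X_ne_zero (mul_ne_zero (by simp) hG0), natDegree_X,
      natDegree_C_mul (by norm_num), hGn, add_comm]
  have hdeg : (Z'.det ^ 2 * (X * (C 2 * G))).natDegree = (Z'.det ^ 2).natDegree + (n + 1) := by
    rw [natDegree_mul hD hXG, hdegX]
  rw [e1, e2]
  refine ⟨mul_ne_zero hD hXG, ?_, ?_⟩
  · intro a b
    rw [hdeg, Matrix.smul_apply, smul_eq_mul]
    have h1 := natDegree_mul_le (p := Z'.det ^ 2) (q := tA G n a b)
    have h2 := tA_natDegree hGn a b
    omega
  · ext a b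
    rw [hdeg, coM, Matrix.map_apply, Matrix.smul_apply, smul_eq_mul,
      show (Z'.det ^ 2).natDegree + (n + 1) - 1 = (Z'.det ^ 2).natDegree + n by omega,
      coeff_mul_add_eq_of_natDegree_le le_rfl (tA_natDegree hGn a b), tA_coeff, Matrix.neg_apply,
      Matrix.smul_apply, leadingCoeff_mul, leadingCoeff_mul, leadingCoeff_mul, leadingCoeff_X,
      leadingCoeff_C, smul_eq_mul]
    have h1 : G.coeff n = G.leadingCoeff := by rw [leadingCoeff, hGn]
    rw [h1, hypN, Matrix.of_apply]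
    have h2 : (n : ℚ) = 2 * (h : ℚ) := by rw [hn]; push_cast; ring
    have h3 : (if n = (b : ℕ) + 1 then (n : ℚ) else 0) =
        2 * (if (b : ℕ) + 1 = 2 * h then (h : ℚ) else 0) := by
      by_cases hb : (b : ℕ) + 1 = 2 * h
      · rw [if_pos hb, if_pos (by omega), h2]
      · rw [if_neg hb, if_neg (by omega), mul_zero]
    have h4 : (if a = b then 2 * ((a : ℕ) : ℚ) else 0) = 2 * (if b = a then ((a : ℕ) : ℚ) else 0) := by
      by_cases hab : a = b
      · rw [if_pos hab, if_pos hab.symm]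
      · rw [if_neg hab, if_neg (fun h => hab h.symm), mul_zero]
    have h5 : (if (b : ℕ) < a then (1 : ℚ) else 0) - 1 =
        -(2 * (if (b : ℕ) < a then (0 : ℚ) else 1 / 2)) := by
      split_ifs <;> norm_num
    rw [h3, h4]
    have h6 : (Z'.det ^ 2).coeff (Z'.det ^ 2).natDegree = (Z'.det ^ 2).leadingCoeff := rfl
    rw [h6]
    linear_combination ((Z'.det ^ 2).leadingCoeff * G.leadingCoeff) * h5

end Pool.Agent.Helper79.GC
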