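import Pool.Agent.Helper79.GC.Defs3

/-!
# GC-58: matrices with integer eigenvalues

* `intEig_add`: `M`, `M'` commute, so they lie in the commutative ring `R = Algebra.adjoin ℚ {M, M'}` (Mathlib:
  `Algebra.adjoinCommRingOfComm`). An element of `R` is nilpotent iff it lies in all primes; for a prime `𝔭` some `M - k`,
  `lo ≤ k ≤ hi`, and some `M' - l` lie in `𝔭` (a power of the product is `0`), hence `M + M' - (k + l)` does: the product
  `∏_{lo+lo' ≤ j ≤ hi+hi'} (M + M' - j)` lies in all primes.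
* `intEig_mono`: more factors. `intEig_diag`: the product is the diagonal matrix of the products (`m = 1`).
* `intEig_slot`, `intEig_lett`: `slot j` is a unital algebra homomorphism; `p(lett N)` is `lett (p(N))` except that the entry at
  `(none, none)` is `p(0)`; so `0` must be in the range (`lo ≤ 0 ≤ hi`).
* `intEig_word` : `wordM δ N = ∑_j slot j (lett N)`, the summands commute (`slot_comm`). Case integer: sum of `δ` matrices.
  Case half integer: `N = 1/2 + N₁`, `lett N = (1/2) ε + lett N₁`, `ε = lett 1`; `∑_j slot j ε` is the diagonal matrix of the number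
  `ν(α)` of letters `≠ none`, so `wordM δ N - par/2 = wordM δ N₁ + diag((ν - par)/2)`, an integer diagonal matrix commuting with
  `wordM δ N₁` (`slot j (lett N₁)` commutes with all `slot i ε`; and `par`: entries `(α, β)` of `wordM δ N₁` vanish unless `α`, `β` have the
  same pattern of `none`s).
-/

open Polynomial

namespace Pool.Agent.Helper79.GC

open Pool.Agent.Helper37.GP

variable {ι : Type} [Fintype ι] [DecidableEq ι]

private theorem ie_iff {lo hi : ℤ} {M : Matrix ι ι ℚ} :
    IntEig lo hi M ↔ IsNilpotent (aeval M (∏ k ∈ Finset.Icc lo hi, ((X : ℚ[X]) - C (k : ℚ)))) := by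
  constructor
  · rintro ⟨m, hm⟩
    exact ⟨m, by rw [← map_pow]; exact hm⟩
  · rintro ⟨m, hm⟩
    exact ⟨m, by rw [map_pow]; exact hm⟩

theorem intEig_mono {lo hi lo' hi' : ℤ} (h : lo' ≤ lo) (h' : hi ≤ hi') {M : Matrix ι ι ℚ}
    (hM : IntEig lo hi M) : IntEig lo' hi' M := by
  obtain ⟨m, hm⟩ := hM
  refine ⟨m, ?_⟩
  obtain ⟨q, hq⟩ := pow_dvd_pow_of_dvd (Finset.prod_dvd_prod_of_subset (Finset.Icc lo hi)
    (Finset.Icc lo' hi') (fun k : ℤ => ((X : ℚ[X]) - C (k : ℚ)))
    (Finset.Icc_subset_Icc h h')) m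
  rw [hq, map_mul, hm, zero_mul]

private theorem ie_comm {R : Type} [CommRing R] [Algebra ℚ R] {lo hi lo' hi' : ℤ} {x y : R}
    (hx : IsNilpotent (aeval x (∏ k ∈ Finset.Icc lo hi, ((X : ℚ[X]) - C (k : ℚ)))))
    (hy : IsNilpotent (aeval y (∏ k ∈ Finset.Icc lo' hi', ((X : ℚ[X]) - C (k : ℚ))))) :
    IsNilpotent (aeval (x + y) (∏ k ∈ Finset.Icc (lo + lo') (hi + hi'),
      ((X : ℚ[X]) - C (k : ℚ)))) := by
  rw [nilpotent_iff_mem_prime] at hx hy ⊢
  intro J hJ
  have hx' := hx J hJ
  have hy' := hy J hJ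
  rw [map_prod] at hx' hy' ⊢
  obtain ⟨k, hk, hk'⟩ := (hJ.prod_mem_iff).1 hx'
  obtain ⟨l, hl, hl'⟩ := (hJ.prod_mem_iff).1 hy'
  refine (hJ.prod_mem_iff).2 ⟨k + l, ?_, ?_⟩
  · rw [Finset.mem_Icc] at hk hl ⊢
    omega
  · have h := J.add_mem hk' hl'
    convert h using 1
    simp only [map_sub, aeval_X, aeval_C, Int.cast_add, map_add]
    ring

theorem intEig_add {lo hi lo' hi' : ℤ} {M M' : Matrix ι ι ℚ} (hM : IntEig lo hi M)
    (hM' : IntEig lo' hi' M') (hc : M * M' = M' * M) : IntEig (lo + lo') (hi + hi') (M + M') := by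
  have hcomm : ∀ a ∈ ({M, M'} : Set (Matrix ι ι ℚ)), ∀ b ∈ ({M, M'} : Set (Matrix ι ι ℚ)),
      a * b = b * a := by
    intro a ha b hb
    rcases ha with rfl | ha <;> rcases hb with rfl | hb
    · rfl
    · rw [Set.mem_singleton_iff] at hb
      rw [hb]
      exact hc
    · rw [Set.mem_singleton_iff] at ha
      rw [ha]
      exact hc.symm
    · rw [Set.mem_singleton_iff] at ha hb
      rw [ha, hb]
  let R := Algebra.adjoin ℚ ({M, M'} : Set (Matrix ι ι ℚ))
  let _ : CommRing R := Algebra.adjoinCommRingOfComm ℚ hcomm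
  let x : R := ⟨M, Algebra.subset_adjoin (Set.mem_insert _ _)⟩
  let y : R := ⟨M', Algebra.subset_adjoin (Set.mem_insert_of_mem _ rfl)⟩
  have hval : ∀ (z : R) (p : ℚ[X]), aeval (z : Matrix ι ι ℚ) p = ((aeval z p : R) : Matrix ι ι ℚ) := by
    intro z p
    have := Polynomial.aeval_algHom_apply (Subalgebra.val R) z p
    exact this
  have hnil : ∀ z : R, IsNilpotent (z : Matrix ι ι ℚ) ↔ IsNilpotent z := by
    intro z
    constructor
    · rintro ⟨m, hm⟩
      exact ⟨m, Subtype.ext hm⟩
    · rintro ⟨m, hm⟩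
      refine ⟨m, ?_⟩
      have := congrArg (fun w : R => (w : Matrix ι ι ℚ)) hm
      exact this
  rw [ie_iff] at hM hM' ⊢
  have h1 : IsNilpotent (aeval x (∏ k ∈ Finset.Icc lo hi, ((X : ℚ[X]) - C (k : ℚ)))) := by
    rw [← hnil, ← hval]
    exact hM
  have h2 : IsNilpotent (aeval y (∏ k ∈ Finset.Icc lo' hi', ((X : ℚ[X]) - C (k : ℚ)))) := by
    rw [← hnil, ← hval]
    exact hM'
  have h3 := ie_comm h1 h2
  rw [← hnil, ← hval] at h3
  exact h3

theorem intEig_diag {lo hi : ℤ} (d : ι → ℤ) (h : ∀ i, lo ≤ d i ∧ d i ≤ hi) :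
    IntEig lo hi (Matrix.diagonal fun i => (d i : ℚ)) := by
  refine ⟨1, ?_⟩
  rw [pow_one]
  have h1 := Polynomial.aeval_algHom_apply (Matrix.diagonalAlgHom (n := ι) (α := ℚ) ℚ)
    (fun i => (d i : ℚ)) (∏ k ∈ Finset.Icc lo hi, ((X : ℚ[X]) - C (k : ℚ)))
  have h2 : (Matrix.diagonalAlgHom (n := ι) (α := ℚ) ℚ) (fun i => (d i : ℚ)) =
      Matrix.diagonal fun i => (d i : ℚ) := rfl
  rw [h2] at h1
  rw [h1]
  have h3 : aeval (fun i => (d i : ℚ)) (∏ k ∈ Finset.Icc lo hi, ((X : ℚ[X]) - C (k : ℚ))) =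
      (0 : ι → ℚ) := by
    funext i
    have h4 := Polynomial.aeval_algHom_apply (Pi.evalAlgHom ℚ (fun _ : ι => ℚ) i)
      (fun i => (d i : ℚ)) (∏ k ∈ Finset.Icc lo hi, ((X : ℚ[X]) - C (k : ℚ)))
    have h5 : (Pi.evalAlgHom ℚ (fun _ : ι => ℚ) i)
        (aeval (fun i => (d i : ℚ)) (∏ k ∈ Finset.Icc lo hi, ((X : ℚ[X]) - C (k : ℚ)))) = 0 := by
      rw [← h4, map_prod]
      refine Finset.prod_eq_zero (Finset.mem_Icc.2 (h i)) ?_
      simp
    exact h5
  rw [h3, map_zero]

omit [Fintype ι] in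
private theorem lett_add (A B : Matrix ι ι ℚ) : lett (A + B) = lett A + lett B := by
  ext p q
  rcases p with _ | ⟨i, k⟩ <;> rcases q with _ | ⟨j, l⟩
  · simp [lett]
  · simp [lett]
  · simp [lett]
  · simp only [lett, Matrix.of_apply, Matrix.add_apply]
    split_ifs <;> simp

omit [Fintype ι] in
private theorem lett_smul (c : ℚ) (A : Matrix ι ι ℚ) : lett (c • A) = c • lett A := by
  ext p q
  rcases p with _ | ⟨i, k⟩ <;> rcases q with _ | ⟨j, l⟩
  · simp [lett]
  · simp [lett]
  · simp [lett]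
  · simp only [lett, Matrix.of_apply, Matrix.smul_apply]
    split_ifs <;> simp

omit [Fintype ι] in
private theorem lett_zero : lett (0 : Matrix ι ι ℚ) = 0 := by
  have := lett_smul 0 (0 : Matrix ι ι ℚ)
  rwa [zero_smul, zero_smul] at this

private theorem lett_mul (A B : Matrix ι ι ℚ) : lett (A * B) = lett A * lett B := by
  ext p q
  rw [Matrix.mul_apply, Fintype.sum_option]
  rcases p with _ | ⟨i, k⟩ <;> rcases q with _ | ⟨j, l⟩
  · simp [lett]
  · simp [lett]
  · simp [lett]
  · rw [Fintype.sum_prod_type]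
    simp only [lett, Matrix.of_apply, zero_mul, zero_add]
    have h1 : ∀ x : ι, ∑ y : ι, ((if k = y then A i x else 0) * if y = l then B x j else 0) =
        if k = l then A i x * B x j else 0 := by
      intro x
      rw [Finset.sum_eq_single k]
      · rw [if_pos rfl]
        split_ifs <;> simp
      · intro y _ hy
        rw [if_neg (Ne.symm hy), zero_mul]
      · intro h
        exact absurd (Finset.mem_univ k) h
    simp only [h1]
    split_ifs with h
    · rw [Matrix.mul_apply]
    · simp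

private theorem lett_pow (A : Matrix ι ι ℚ) (n : ℕ) : lett A ^ (n + 1) = lett (A ^ (n + 1)) := by
  induction n with
  | zero => rw [zero_add, pow_one, pow_one]
  | succ n ih => rw [pow_succ, ih, ← lett_mul, ← pow_succ]

private theorem aeval_lett (A : Matrix ι ι ℚ) (p : ℚ[X]) :
    aeval (lett A) p = lett (aeval A p) + p.coeff 0 • (1 - lett 1) := by
  induction p using Polynomial.induction_on' with
  | add p q hp hq =>
    rw [map_add, hp, hq, map_add, lett_add, coeff_add, add_smul]
    abel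
  | monomial n a =>
    rw [aeval_monomial, aeval_monomial, ← Algebra.smul_def, ← Algebra.smul_def, lett_smul]
    cases n with
    | zero =>
      rw [pow_zero, pow_zero, coeff_monomial_same, smul_sub]
      abel
    | succ n =>
      rw [lett_pow, coeff_monomial_of_ne _ (by omega), zero_smul, add_zero]

theorem intEig_lett {lo hi : ℤ} {M : Matrix ι ι ℚ} (hM : IntEig lo hi M) (hlo : lo ≤ 0)
    (hhi : 0 ≤ hi) : IntEig lo hi (lett M) := by
  obtain ⟨m, hm⟩ := hM
  refine ⟨m + 1, ?_⟩
  rw [aeval_lett]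
  have h1 : aeval M ((∏ k ∈ Finset.Icc lo hi, ((X : ℚ[X]) - C (k : ℚ))) ^ (m + 1)) = 0 := by
    rw [pow_succ, map_mul, hm, zero_mul]
  have h2 : ((∏ k ∈ Finset.Icc lo hi, ((X : ℚ[X]) - C (k : ℚ))) ^ (m + 1)).coeff 0 = 0 := by
    rw [coeff_zero_eq_eval_zero, eval_pow, eval_prod]
    rw [Finset.prod_eq_zero (Finset.mem_Icc.2 ⟨hlo, hhi⟩) (by simp), zero_pow (by omega)]
  rw [h1, h2, lett_zero, zero_smul, add_zero]

private theorem slot_aeval {κ : Type} [Fintype κ] [DecidableEq κ] {δ : Type} [Fintype δ]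
    [DecidableEq δ] (j : δ) (M : Matrix κ κ ℚ) (p : ℚ[X]) :
    aeval (slot j M) p = slot j (aeval M p) := by
  induction p using Polynomial.induction_on' with
  | add p q hp hq => rw [map_add, hp, hq, map_add, slot_add]
  | monomial n a =>
    rw [aeval_monomial, aeval_monomial, ← Algebra.smul_def, ← Algebra.smul_def, slot_smul,
      slot_pow]

private theorem intEig_slot {κ : Type} [Fintype κ] [DecidableEq κ] {δ : Type} [Fintype δ]
    [DecidableEq δ] {lo hi : ℤ} (j : δ) {M : Matrix κ κ ℚ} (hM : IntEig lo hi M) :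
    IntEig lo hi (slot j M) := by
  obtain ⟨m, hm⟩ := hM
  refine ⟨m, ?_⟩
  rw [slot_aeval, hm, slot_zero]

theorem intEig_word {lo hi : ℤ} {N : Matrix ι ι ℚ} (hN : IntEig lo hi N) (δ : ℕ) :
    ∃ lo' hi' : ℤ, IntEig lo' hi' (wordM δ N) := by
  have h0 : IntEig (min lo 0) (max hi 0) (lett N) :=
    intEig_lett (intEig_mono (min_le_left _ _) (le_max_left _ _) hN) (min_le_right _ _)
      (le_max_right _ _)
  unfold wordM
  have key : ∀ s : Finset (Fin δ), ∃ lo' hi' : ℤ, IntEig lo' hi' (∑ j ∈ s, slot j (lett N)) := by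
    intro s
    induction s using Finset.induction_on with
    | empty =>
      refine ⟨0, 0, 1, ?_⟩
      rw [Finset.sum_empty]
      simp
    | insert a s ha ih =>
      obtain ⟨lo', hi', h⟩ := ih
      rw [Finset.sum_insert ha]
      refine ⟨min lo 0 + lo', max hi 0 + hi', intEig_add (intEig_slot a h0) h ?_⟩
      rw [Finset.mul_sum, Finset.sum_mul]
      refine Finset.sum_congr rfl fun i hi => ?_
      refine slot_comm ?_ _ _
      rintro rfl
      exact ha hi
  exact key Finset.univ

/-- The number of letters different from `1`. -/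
private def nu {δ : ℕ} (α : Fin δ → Option (ι × ι)) : ℕ :=
  (Finset.univ.filter fun j => α j ≠ none).card

omit [Fintype ι] in
private theorem word_zero {δ : ℕ} (A : Matrix ι ι ℚ) (α β : Fin δ → Option (ι × ι))
    (h : nu α ≠ nu β) : wordM δ A α β = 0 := by
  unfold wordM
  rw [Matrix.sum_apply]
  refine Finset.sum_eq_zero fun j _ => ?_
  simp only [slot, Matrix.of_apply]
  split_ifs with h1
  · by_contra h2
    apply h
    unfold nu
    congr 1
    refine Finset.filter_congr fun i _ => ?_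
    by_cases hi : i = j
    · subst hi
      rcases ha : α i with _ | a <;> rcases hb : β i with _ | b
      · simp
      · exact absurd (by rw [ha, hb]; simp [lett]) h2
      · exact absurd (by rw [ha, hb]; simp [lett]) h2
      · simp
    · rw [h1 i hi]
  · rfl

omit [Fintype ι] in
private theorem word_one (δ : ℕ) :
    wordM δ (1 : Matrix ι ι ℚ) = Matrix.diagonal fun α => ((nu α : ℕ) : ℚ) := by
  ext α β
  unfold wordM
  rw [Matrix.sum_apply]
  have h1 : ∀ j : Fin δ, slot j (lett (1 : Matrix ι ι ℚ)) α β =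
      if α = β then (if α j ≠ none then 1 else 0) else 0 := by
    intro j
    simp only [slot, Matrix.of_apply]
    by_cases h : α = β
    · subst h
      rw [if_pos fun i _ => rfl, if_pos rfl]
      rcases α j with _ | ⟨a, b⟩
      · simp [lett]
      · simp [lett]
    · rw [if_neg h]
      split_ifs with h2
      · have h3 : α j ≠ β j := by
          intro h3
          apply h
          funext i
          by_cases hi : i = j
          · rw [hi]; exact h3
          · exact h2 i hi
        revert h3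
        rcases α j with _ | ⟨a, b⟩ <;> rcases β j with _ | ⟨c, d⟩
        · simp [lett]
        · simp [lett]
        · simp [lett]
        · intro h3
          simp only [lett, Matrix.of_apply, Matrix.one_apply]
          split_ifs with h4 h5
          · exact absurd (by rw [h4, h5]) h3
          · rfl
          · rfl
      · rfl
  simp only [h1]
  rw [Matrix.diagonal_apply]
  by_cases h : α = β
  · simp only [if_pos h]
    unfold nu
    rw [Finset.sum_boole]
  · simp only [if_neg h, Finset.sum_const_zero]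

theorem intEig_word_half {lo hi : ℤ} {N : Matrix ι ι ℚ}
    (hN : IntEig lo hi (N - (1 / 2 : ℚ) • 1)) (δ : ℕ) :
    ∃ lo' hi' : ℤ, IntEig lo' hi' (wordM δ N - (1 / 2 : ℚ) • par δ) := by
  obtain ⟨lo', hi', h⟩ := intEig_word hN δ
  set N₁ := N - (1 / 2 : ℚ) • (1 : Matrix ι ι ℚ) with hN₁
  have hNe : N = (1 / 2 : ℚ) • (1 : Matrix ι ι ℚ) + N₁ := by
    rw [hN₁]
    abel
  let D : Matrix (Fin δ → Option (ι × ι)) (Fin δ → Option (ι × ι)) ℚ :=
    Matrix.diagonal fun α => (((nu α / 2 : ℕ) : ℤ) : ℚ)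
  have h1 : wordM δ N - (1 / 2 : ℚ) • par δ = wordM δ N₁ + D := by
    have h2 : wordM δ N = (1 / 2 : ℚ) • wordM δ (1 : Matrix ι ι ℚ) + wordM δ N₁ := by
      rw [hNe]
      unfold wordM
      rw [Finset.smul_sum, ← Finset.sum_add_distrib]
      refine Finset.sum_congr rfl fun j _ => ?_
      rw [lett_add, lett_smul, slot_add, slot_smul]
    rw [h2, word_one]
    have h3 : (1 / 2 : ℚ) • (Matrix.diagonal fun α : Fin δ → Option (ι × ι) => ((nu α : ℕ) : ℚ)) =
        (1 / 2 : ℚ) • par δ + D := by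
      ext α β
      simp only [par, D, Matrix.add_apply, Matrix.smul_apply, Matrix.diagonal_apply, smul_eq_mul]
      split_ifs with h4 h5
      · have h6 : (Finset.univ.filter fun j => α j ≠ none).card = nu α := rfl
        rw [h6] at h5
        have h7 := Nat.div_add_mod (nu α) 2
        rw [h5] at h7
        have h8 : ((nu α : ℕ) : ℚ) = 2 * ((nu α / 2 : ℕ) : ℚ) + 1 := by
          exact_mod_cast h7.symm
        rw [h8, Int.cast_natCast]
        ring
      · have h6 : (Finset.univ.filter fun j => α j ≠ none).card = nu α := rfl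
        rw [h6] at h5
        have h7 := Nat.div_add_mod (nu α) 2
        have h9 : nu α % 2 = 0 := by omega
        rw [h9] at h7
        have h8 : ((nu α : ℕ) : ℚ) = 2 * ((nu α / 2 : ℕ) : ℚ) + 0 := by
          exact_mod_cast h7.symm
        rw [h8, Int.cast_natCast]
        ring
      · simp
    rw [h3]
    abel
  rw [h1]
  have hD : IntEig 0 δ D := by
    refine intEig_diag (fun α => ((nu α / 2 : ℕ) : ℤ)) fun α => ⟨by positivity, ?_⟩
    have h2 : nu α ≤ δ := by
      have := Finset.card_filter_le (Finset.univ : Finset (Fin δ)) fun j => α j ≠ none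
      rw [Finset.card_univ, Fintype.card_fin] at this
      exact this
    have h3 : nu α / 2 ≤ δ := (Nat.div_le_self _ _).trans h2
    exact_mod_cast h3
  refine ⟨lo' + 0, hi' + δ, intEig_add h hD ?_⟩
  ext α β
  simp only [D]
  rw [Matrix.mul_diagonal, Matrix.diagonal_mul]
  by_cases hab : nu α = nu β
  · rw [hab, mul_comm]
  · rw [word_zero _ _ _ hab, zero_mul, mul_zero]

end Pool.Agent.Helper79.GC
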