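import Pool.Agent.Helper79.GC.Defs2

/-!
# GC-48: left and right multiplication in a basis

`B : AlgBasis ι R`, `φ : ℚ →+* S`; `B.Mem φ M`: `M = ∑ c_α g_α`; then `c = B.crd φ M` (`dual`). Everything is formal:
`mem_mul` from `closed`; `lm_expand` since `M * g_β` is `Mem`; `lm_mul`: `M M' g_β = ∑_γ lm M' γ β • M g_γ = ∑_α ∑_γ …` and uniqueness of
coordinates; `lm_rm_comm`: `M (g_β M') = (M g_β) M'`.
`mem_of_coP`: if all coefficients of a matrix of power series are in the span of `g` then `Mem PowerSeries.C`: the coordinates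
`crd` have coefficients `crd (coP n M)`. The same for polynomials.
-/

open Polynomial

namespace Pool.Agent.Helper79.GC

open Pool.Agent.Helper37.GP

variable {ι : Type} [Fintype ι] [DecidableEq ι] {R : ℕ} (B : AlgBasis ι R)
  {S : Type} [CommRing S] (φ : ℚ →+* S)

/-! ### linearity of the coordinates -/

theorem lmod_crd_add (M M' : Matrix ι ι S) (α : Fin R) :
    B.crd φ (M + M') α = B.crd φ M α + B.crd φ M' α := by
  unfold AlgBasis.crd
  simp only [Matrix.add_apply, mul_add, Finset.sum_add_distrib]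

theorem lmod_crd_sub (M M' : Matrix ι ι S) (α : Fin R) :
    B.crd φ (M - M') α = B.crd φ M α - B.crd φ M' α := by
  unfold AlgBasis.crd
  simp only [Matrix.sub_apply, mul_sub, Finset.sum_sub_distrib]

theorem lmod_crd_smul (s : S) (M : Matrix ι ι S) (α : Fin R) :
    B.crd φ (s • M) α = s * B.crd φ M α := by
  unfold AlgBasis.crd
  simp only [Matrix.smul_apply, smul_eq_mul, Finset.mul_sum]
  refine Finset.sum_congr rfl fun a _ => Finset.sum_congr rfl fun b _ => ?_
  ring

theorem lmod_crd_zero (α : Fin R) : B.crd φ (0 : Matrix ι ι S) α = 0 := by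
  unfold AlgBasis.crd
  simp

theorem lmod_crd_sum {κ : Type} (s : Finset κ) (f : κ → Matrix ι ι S) (α : Fin R) :
    B.crd φ (∑ i ∈ s, f i) α = ∑ i ∈ s, B.crd φ (f i) α := by
  classical
  induction s using Finset.induction_on with
  | empty => simp [lmod_crd_zero]
  | insert i s hi ih => rw [Finset.sum_insert hi, Finset.sum_insert hi, lmod_crd_add, ih]

theorem lmod_crd_g (β α : Fin R) : B.crd φ ((B.g β).map φ) α = if α = β then 1 else 0 := by
  unfold AlgBasis.crd
  have h := congrArg φ (B.dual α β)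
  rw [map_sum] at h
  have h2 : φ (if α = β then (1 : ℚ) else 0) = if α = β then (1 : S) else 0 := by
    split_ifs <;> simp
  rw [← h2, ← h]
  refine Finset.sum_congr rfl fun a _ => ?_
  rw [map_sum]
  refine Finset.sum_congr rfl fun b _ => ?_
  rw [map_mul, Matrix.map_apply]

theorem lmod_mem_zero : B.Mem φ (0 : Matrix ι ι S) := ⟨fun _ => 0, by simp⟩

theorem map_mem (α : Fin R) : B.Mem φ ((B.g α).map φ) := by
  classical
  refine ⟨fun β => if β = α then 1 else 0, ?_⟩
  simp [ite_smul]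

theorem mem_add {M M' : Matrix ι ι S} (h : B.Mem φ M) (h' : B.Mem φ M') : B.Mem φ (M + M') := by
  obtain ⟨c, rfl⟩ := h
  obtain ⟨c', rfl⟩ := h'
  exact ⟨fun α => c α + c' α, by simp only [add_smul, Finset.sum_add_distrib]⟩

theorem mem_sub {M M' : Matrix ι ι S} (h : B.Mem φ M) (h' : B.Mem φ M') : B.Mem φ (M - M') := by
  obtain ⟨c, rfl⟩ := h
  obtain ⟨c', rfl⟩ := h'
  exact ⟨fun α => c α - c' α, by simp only [sub_smul, Finset.sum_sub_distrib]⟩

theorem mem_smul (s : S) {M : Matrix ι ι S} (h : B.Mem φ M) : B.Mem φ (s • M) := by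
  obtain ⟨c, rfl⟩ := h
  exact ⟨fun α => s * c α, by simp only [mul_smul, Finset.smul_sum]⟩

theorem lmod_mem_sum {κ : Type} (s : Finset κ) (f : κ → Matrix ι ι S)
    (h : ∀ i ∈ s, B.Mem φ (f i)) : B.Mem φ (∑ i ∈ s, f i) := by
  classical
  induction s using Finset.induction_on with
  | empty =>
    rw [Finset.sum_empty]
    exact lmod_mem_zero B φ
  | insert i s hi ih =>
    rw [Finset.sum_insert hi]
    exact mem_add B φ (h i (Finset.mem_insert_self _ _))
      (ih fun j hj => h j (Finset.mem_insert_of_mem hj))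

theorem lmod_map_one : (B.g B.i₀).map φ = (1 : Matrix ι ι S) := by
  rw [B.one]
  exact Matrix.map_one φ (map_zero φ) (map_one φ)

theorem mem_one : B.Mem φ 1 := by
  rw [← lmod_map_one B φ]
  exact map_mem B φ _

theorem lmod_mem_gg (α β : Fin R) : B.Mem φ ((B.g α).map φ * (B.g β).map φ) := by
  obtain ⟨c, hc⟩ := B.closed α β
  refine ⟨fun γ => φ (c γ), ?_⟩
  have h1 : (B.g α).map φ * (B.g β).map φ = (B.g α * B.g β).map φ := by
    rw [Matrix.map_mul]
  rw [h1, hc]
  ext a b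
  simp only [Matrix.map_apply, Matrix.sum_apply, Matrix.smul_apply, smul_eq_mul, map_sum, map_mul]

theorem mem_mul {M M' : Matrix ι ι S} (h : B.Mem φ M) (h' : B.Mem φ M') : B.Mem φ (M * M') := by
  obtain ⟨c, rfl⟩ := h
  obtain ⟨c', rfl⟩ := h'
  rw [Finset.sum_mul]
  refine lmod_mem_sum B φ _ _ fun α _ => ?_
  rw [Finset.mul_sum]
  refine lmod_mem_sum B φ _ _ fun β _ => ?_
  rw [Matrix.smul_mul, Matrix.mul_smul]
  exact mem_smul B φ _ (mem_smul B φ _ (lmod_mem_gg B φ α β))

theorem mem_pow {M : Matrix ι ι S} (h : B.Mem φ M) (k : ℕ) : B.Mem φ (M ^ k) := by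
  induction k with
  | zero =>
    rw [pow_zero]
    exact mem_one B φ
  | succ k ih =>
    rw [pow_succ]
    exact mem_mul B φ ih h

theorem crd_expand (c : Fin R → S) (α : Fin R) :
    B.crd φ (∑ β, c β • (B.g β).map φ) α = c α := by
  classical
  rw [lmod_crd_sum]
  simp only [lmod_crd_smul, lmod_crd_g]
  simp

theorem mem_expand {M : Matrix ι ι S} (h : B.Mem φ M) :
    M = ∑ α, B.crd φ M α • (B.g α).map φ := by
  obtain ⟨c, rfl⟩ := h
  simp only [crd_expand]

theorem mem_ext {M M' : Matrix ι ι S} (h : B.Mem φ M) (h' : B.Mem φ M')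
    (he : ∀ α, B.crd φ M α = B.crd φ M' α) : M = M' := by
  rw [mem_expand B φ h, mem_expand B φ h']
  exact Finset.sum_congr rfl fun α _ => by rw [he α]

theorem lm_expand {M : Matrix ι ι S} (h : B.Mem φ M) (β : Fin R) :
    M * (B.g β).map φ = ∑ α, B.lm φ M α β • (B.g α).map φ :=
  mem_expand B φ (mem_mul B φ h (map_mem B φ β))

theorem rm_expand {M : Matrix ι ι S} (h : B.Mem φ M) (β : Fin R) :
    (B.g β).map φ * M = ∑ α, B.rm φ M α β • (B.g α).map φ :=
  mem_expand B φ (mem_mul B φ (map_mem B φ β) h)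

theorem lm_one : B.lm φ (1 : Matrix ι ι S) = 1 := by
  ext α β
  unfold AlgBasis.lm
  rw [Matrix.of_apply, Matrix.one_mul, lmod_crd_g, Matrix.one_apply]

theorem lm_add (M M' : Matrix ι ι S) : B.lm φ (M + M') = B.lm φ M + B.lm φ M' := by
  ext α β
  simp only [AlgBasis.lm, Matrix.of_apply, Matrix.add_apply, Matrix.add_mul, lmod_crd_add]

theorem lm_sub (M M' : Matrix ι ι S) : B.lm φ (M - M') = B.lm φ M - B.lm φ M' := by
  ext α β
  simp only [AlgBasis.lm, Matrix.of_apply, Matrix.sub_apply, Matrix.sub_mul, lmod_crd_sub]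

theorem lm_smul (s : S) (M : Matrix ι ι S) : B.lm φ (s • M) = s • B.lm φ M := by
  ext α β
  simp only [AlgBasis.lm, Matrix.of_apply, Matrix.smul_apply, Matrix.smul_mul, lmod_crd_smul,
    smul_eq_mul]

theorem lmod_crd_mul_left (M : Matrix ι ι S) {M' : Matrix ι ι S} (h' : B.Mem φ M')
    (α β : Fin R) : B.crd φ (M * (M' * (B.g β).map φ)) α =
      ∑ γ, B.lm φ M α γ * B.lm φ M' γ β := by
  rw [lm_expand B φ h' β, Finset.mul_sum, lmod_crd_sum]
  refine Finset.sum_congr rfl fun γ _ => ?_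
  rw [Matrix.mul_smul, lmod_crd_smul, mul_comm]
  rfl

theorem lm_mul {M M' : Matrix ι ι S} (h : B.Mem φ M) (h' : B.Mem φ M') :
    B.lm φ (M * M') = B.lm φ M * B.lm φ M' := by
  ext α β
  rw [Matrix.mul_apply, ← lmod_crd_mul_left B φ M h' α β]
  unfold AlgBasis.lm
  rw [Matrix.of_apply, Matrix.mul_assoc]

theorem lm_pow {M : Matrix ι ι S} (h : B.Mem φ M) (k : ℕ) :
    B.lm φ (M ^ k) = B.lm φ M ^ k := by
  induction k with
  | zero => rw [pow_zero, pow_zero, lm_one]
  | succ k ih => rw [pow_succ, pow_succ, lm_mul B φ (mem_pow B φ h k) h, ih]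

theorem lm_rm_comm {M M' : Matrix ι ι S} (h : B.Mem φ M) (h' : B.Mem φ M') :
    B.lm φ M * B.rm φ M' = B.rm φ M' * B.lm φ M := by
  ext α β
  have h1 : (B.lm φ M * B.rm φ M') α β = B.crd φ (M * ((B.g β).map φ * M')) α := by
    rw [Matrix.mul_apply, rm_expand B φ h' β, Finset.mul_sum, lmod_crd_sum]
    refine Finset.sum_congr rfl fun γ _ => ?_
    rw [Matrix.mul_smul, lmod_crd_smul, mul_comm]
    rfl
  have h2 : (B.rm φ M' * B.lm φ M) α β = B.crd φ ((M * (B.g β).map φ) * M') α := by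
    rw [Matrix.mul_apply, lm_expand B φ h β, Finset.sum_mul, lmod_crd_sum]
    refine Finset.sum_congr rfl fun γ _ => ?_
    rw [Matrix.smul_mul, lmod_crd_smul, mul_comm]
    rfl
  rw [h1, h2, Matrix.mul_assoc]

theorem lm_col (M : Matrix ι ι S) (α : Fin R) : B.lm φ M α B.i₀ = B.crd φ M α := by
  unfold AlgBasis.lm
  rw [Matrix.of_apply, lmod_map_one, Matrix.mul_one]

theorem rm_col (M : Matrix ι ι S) (α : Fin R) : B.rm φ M α B.i₀ = B.crd φ M α := by
  unfold AlgBasis.rm
  rw [Matrix.of_apply, lmod_map_one, Matrix.one_mul]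

/-- The entries of `lm` are fixed combinations of the entries. -/
theorem lm_entry (M : Matrix ι ι S) (α β : Fin R) : B.lm φ M α β =
    ∑ a, ∑ c, φ (∑ b, B.u α a b * B.g β c b) * M a c := by
  unfold AlgBasis.lm
  rw [Matrix.of_apply]
  unfold AlgBasis.crd
  refine Finset.sum_congr rfl fun a _ => ?_
  simp only [Matrix.mul_apply, Matrix.map_apply, map_sum, map_mul, Finset.mul_sum, Finset.sum_mul]
  rw [Finset.sum_comm]
  refine Finset.sum_congr rfl fun c _ => Finset.sum_congr rfl fun b _ => ?_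
  ring

theorem rm_entry (M : Matrix ι ι S) (α β : Fin R) : B.rm φ M α β =
    ∑ c, ∑ b, φ (∑ a, B.u α a b * B.g β a c) * M c b := by
  unfold AlgBasis.rm
  rw [Matrix.of_apply]
  unfold AlgBasis.crd
  simp only [Matrix.mul_apply, Matrix.map_apply, map_sum, map_mul, Finset.mul_sum, Finset.sum_mul]
  have h1 : ∀ a : ι, ∑ b, ∑ c, φ (B.u α a b) * (φ (B.g β a c) * M c b) =
      ∑ c, ∑ b, φ (B.u α a b) * (φ (B.g β a c) * M c b) := fun a => Finset.sum_comm
  rw [Finset.sum_congr rfl (fun a _ => h1 a), Finset.sum_comm]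
  refine Finset.sum_congr rfl fun c _ => ?_
  rw [Finset.sum_comm]
  refine Finset.sum_congr rfl fun b _ => Finset.sum_congr rfl fun a _ => ?_
  ring

theorem lmod_crd_map {S' : Type} [CommRing S'] (ψ : S →+* S') (M : Matrix ι ι S) (α : Fin R) :
    B.crd (ψ.comp φ) (M.map ψ) α = ψ (B.crd φ M α) := by
  unfold AlgBasis.crd
  simp only [map_sum, map_mul, Matrix.map_apply, RingHom.comp_apply]

theorem lmod_g_map {S' : Type} [CommRing S'] (ψ : S →+* S') (β : Fin R) :
    (B.g β).map (ψ.comp φ) = ((B.g β).map φ).map ψ := by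
  ext a b
  simp only [Matrix.map_apply, RingHom.comp_apply]

theorem lm_map {S' : Type} [CommRing S'] (ψ : S →+* S') (M : Matrix ι ι S) :
    B.lm (ψ.comp φ) (M.map ψ) = (B.lm φ M).map ψ := by
  ext α β
  unfold AlgBasis.lm
  rw [Matrix.of_apply, lmod_g_map, ← Matrix.map_mul, lmod_crd_map, Matrix.map_apply,
    Matrix.of_apply]

theorem rm_map {S' : Type} [CommRing S'] (ψ : S →+* S') (M : Matrix ι ι S) :
    B.rm (ψ.comp φ) (M.map ψ) = (B.rm φ M).map ψ := by
  ext α β
  unfold AlgBasis.rm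
  rw [Matrix.of_apply, lmod_g_map, ← Matrix.map_mul, lmod_crd_map, Matrix.map_apply,
    Matrix.of_apply]

theorem mem_map {S' : Type} [CommRing S'] (ψ : S →+* S') {M : Matrix ι ι S} (h : B.Mem φ M) :
    B.Mem (ψ.comp φ) (M.map ψ) := by
  obtain ⟨c, rfl⟩ := h
  refine ⟨fun α => ψ (c α), ?_⟩
  ext a b
  simp only [Matrix.map_apply, Matrix.sum_apply, Matrix.smul_apply, smul_eq_mul, map_sum,
    map_mul, RingHom.comp_apply]

theorem lmod_crd_rat {N : Matrix ι ι ℚ} {c : Fin R → ℚ} (h : N = ∑ α, c α • B.g α)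
    (α : Fin R) : ∑ a, ∑ b, B.u α a b * N a b = c α := by
  have h1 := crd_expand B (RingHom.id ℚ) c α
  have h2 : ∑ β, c β • (B.g β).map (RingHom.id ℚ) = N := by
    rw [h]
    refine Finset.sum_congr rfl fun β _ => ?_
    congr 1
  rw [h2] at h1
  exact h1

theorem mem_of_coP {M : Matrix ι ι (PowerSeries ℚ)}
    (h : ∀ n, ∃ c : Fin R → ℚ, coP n M = ∑ α, c α • B.g α) :
    B.Mem (PowerSeries.C : ℚ →+* PowerSeries ℚ) M := by
  refine ⟨fun α => B.crd PowerSeries.C M α, ?_⟩
  ext a b n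
  obtain ⟨c, hc⟩ := h n
  have h1 : ∀ α, PowerSeries.coeff n (B.crd PowerSeries.C M α) = c α := by
    intro α
    rw [← lmod_crd_rat B hc α]
    unfold AlgBasis.crd
    simp only [map_sum, PowerSeries.coeff_C_mul]
    rfl
  have h2 : PowerSeries.coeff n (M a b) = coP n M a b := rfl
  rw [h2, hc]
  simp only [Matrix.sum_apply, Matrix.smul_apply, smul_eq_mul, Matrix.map_apply, map_sum,
    PowerSeries.coeff_mul_C, h1]

theorem mem_of_coM {M : Matrix ι ι ℚ[X]}
    (h : ∀ n, ∃ c : Fin R → ℚ, coM n M = ∑ α, c α • B.g α) :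
    B.Mem (C : ℚ →+* ℚ[X]) M := by
  refine ⟨fun α => B.crd C M α, ?_⟩
  ext a b n
  obtain ⟨c, hc⟩ := h n
  have h1 : ∀ α, (B.crd C M α).coeff n = c α := by
    intro α
    rw [← lmod_crd_rat B hc α]
    unfold AlgBasis.crd
    simp only [Polynomial.finset_sum_coeff, Polynomial.coeff_C_mul]
    rfl
  have h2 : (M a b).coeff n = coM n M a b := rfl
  rw [h2, hc]
  simp only [Matrix.sum_apply, Matrix.smul_apply, smul_eq_mul, Matrix.map_apply,
    Polynomial.finset_sum_coeff, Polynomial.coeff_mul_C, h1]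

theorem mem_id {M : Matrix ι ι ℚ} : B.Mem (RingHom.id ℚ) M ↔
    ∃ c : Fin R → ℚ, M = ∑ α, c α • B.g α := by
  unfold AlgBasis.Mem
  have h : ∀ α, (B.g α).map (RingHom.id ℚ) = B.g α := fun α => by
    ext a b
    simp
  simp only [h]

end Pool.Agent.Helper79.GC
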