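import Pool.Agent.Helper79.GC.Defs2
import Pool.Agent.Helper79.GC.OdeCev
import Pool.Agent.Helper79.GC.CexpM

/-!
# GC-54: real solutions in terms of the fundamental matrix

`F(t) = Y(1/t) exp(-(log t) N)` satisfies `F' = (A/T) F` for large real `t` (`ode_cev` at `u = t`: derivative of `t ↦ Y(1/t)`; `cexpM_hasDerivAt`,
`d/dt exp(-(log t) N) = -(1/t) N exp(-(log t) N)`; `N` commutes with its exponential) and `det F(t) ≠ 0` for large `t` (`Y(0) = 1`, continuity,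
`cexpM_isUnit`). For `z` a solution, `z` and `F z₀` with `z₀ = F(t₂)⁻¹ z(t₂)` are two solutions of the same linear system which
agree at `t₂`, so they agree. `T(t) ≠ 0` for large `t`.
-/

open Polynomial Filter Topology

namespace Pool.Agent.Helper79.GC

open Pool.Agent.Helper37.GP

variable {ι : Type} [Fintype ι] [DecidableEq ι]

namespace SolFormAux

open CevAux

/-- the right hand side -/
noncomputable def vf (T : ℚ[X]) (A : Matrix ι ι ℚ[X]) (t : ℝ) (x : ι → ℂ) : ι → ℂ := fun a =>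
  (aeval (t : ℂ) T)⁻¹ * ∑ b, aeval (t : ℂ) (A a b) * x b

/-- the Lipschitz constant -/
noncomputable def kf (T : ℚ[X]) (A : Matrix ι ι ℚ[X]) (t : ℝ) : ℝ :=
  ∑ a, ∑ b, ‖(aeval (t : ℂ) T)⁻¹ * aeval (t : ℂ) (A a b)‖

omit [DecidableEq ι] in
lemma vf_lip (T : ℚ[X]) (A : Matrix ι ι ℚ[X]) (t : ℝ) (x y : ι → ℂ) :
    ‖vf T A t x - vf T A t y‖ ≤ kf T A t * ‖x - y‖ := by
  have hk : 0 ≤ kf T A t := Finset.sum_nonneg fun a _ => Finset.sum_nonneg fun b _ => norm_nonneg _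
  rw [pi_norm_le_iff_of_nonneg (by positivity)]
  intro a
  have e : (vf T A t x - vf T A t y) a =
      ∑ b, ((aeval (t : ℂ) T)⁻¹ * aeval (t : ℂ) (A a b)) * (x - y) b := by
    rw [Pi.sub_apply, vf, vf, Finset.mul_sum, Finset.mul_sum, ← Finset.sum_sub_distrib]
    refine Finset.sum_congr rfl fun b _ => ?_
    rw [Pi.sub_apply]
    ring
  rw [e]
  calc ‖∑ b, ((aeval (t : ℂ) T)⁻¹ * aeval (t : ℂ) (A a b)) * (x - y) b‖ ≤
      ∑ b, ‖(aeval (t : ℂ) T)⁻¹ * aeval (t : ℂ) (A a b)‖ * ‖x - y‖ := by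
        refine (norm_sum_le _ _).trans (Finset.sum_le_sum fun b _ => ?_)
        rw [norm_mul]
        exact mul_le_mul_of_nonneg_left (norm_le_pi_norm (x - y) b) (norm_nonneg _)
    _ = (∑ b, ‖(aeval (t : ℂ) T)⁻¹ * aeval (t : ℂ) (A a b)‖) * ‖x - y‖ := by
        rw [Finset.sum_mul]
    _ ≤ kf T A t * ‖x - y‖ := by
        refine mul_le_mul_of_nonneg_right ?_ (norm_nonneg _)
        exact Finset.single_le_sum
          (f := fun a => ∑ b, ‖(aeval (t : ℂ) T)⁻¹ * aeval (t : ℂ) (A a b)‖)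
          (fun a _ => Finset.sum_nonneg fun b _ => norm_nonneg _) (Finset.mem_univ a)

lemma aeval_continuous (P : ℚ[X]) : Continuous fun t : ℝ => aeval (t : ℂ) P := by
  have : (fun t : ℝ => aeval (t : ℂ) P) =
      fun t : ℝ => (P.map (algebraMap ℚ ℂ)).eval (t : ℂ) := by
    funext t
    rw [Polynomial.eval_map_algebraMap]
  rw [this]
  exact (Polynomial.continuous _).comp Complex.continuous_ofReal

omit [DecidableEq ι] in
lemma kf_continuousOn {T : ℚ[X]} {t₀ : ℝ} (hT : ∀ t : ℝ, t₀ < t → aeval (t : ℂ) T ≠ 0)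
    (A : Matrix ι ι ℚ[X]) : ContinuousOn (kf T A) (Set.Ioi t₀) := by
  unfold kf
  refine continuousOn_finsetSum _ fun a _ => continuousOn_finsetSum _ fun b _ => ?_
  refine ContinuousOn.norm (ContinuousOn.mul ?_ (aeval_continuous _).continuousOn)
  exact (aeval_continuous _).continuousOn.inv₀ fun t ht => hT t ht

omit [DecidableEq ι] in
/-- uniqueness for the linear system -/
lemma unique_sol {T : ℚ[X]} {A : Matrix ι ι ℚ[X]} {t₀ : ℝ}
    (hT : ∀ t : ℝ, t₀ < t → aeval (t : ℂ) T ≠ 0) {f g : ℝ → ι → ℂ}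
    (hf : ∀ t : ℝ, t₀ < t → HasDerivAt f (vf T A t (f t)) t)
    (hg : ∀ t : ℝ, t₀ < t → HasDerivAt g (vf T A t (g t)) t) {t₂ : ℝ} (h2 : t₀ < t₂)
    (heq : f t₂ = g t₂) (t : ℝ) (ht : t₀ < t) : f t = g t := by
  set a : ℝ := (t₀ + min t t₂) / 2 with ha
  set b : ℝ := max t t₂ + 1 with hb
  have hmin : t₀ < min t t₂ := lt_min ht h2
  have ha0 : t₀ < a := by rw [ha]; linarith
  have ha1 : a < min t t₂ := by rw [ha]; linarith
  have hsub : Set.Icc a b ⊆ Set.Ioi t₀ := fun s hs => lt_of_lt_of_le ha0 hs.1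
  obtain ⟨K, hK⟩ := (isCompact_Icc (a := a) (b := b)).exists_bound_of_continuousOn
    ((kf_continuousOn hT A).mono hsub)
  have hK0 : 0 ≤ max K 0 := le_max_right _ _
  have hlip : ∀ s ∈ Set.Ioo a b, LipschitzOnWith (Real.toNNReal (max K 0)) (vf T A s) Set.univ := by
    intro s hs
    rw [lipschitzOnWith_iff_norm_sub_le]
    intro x _ y _
    rw [Real.coe_toNNReal _ hK0]
    refine (vf_lip T A s x y).trans (mul_le_mul_of_nonneg_right ?_ (norm_nonneg _))
    have h1 := hK s ⟨hs.1.le, hs.2.le⟩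
    exact ((le_abs_self _).trans h1).trans (le_max_left _ _)
  have h3 := ODE_solution_unique_of_mem_Ioo (s := fun _ => Set.univ) hlip
    (t₀ := t₂) (f := f) (g := g)
    ⟨lt_of_lt_of_le ha1 (min_le_right _ _), by rw [hb]; linarith [le_max_right t t₂]⟩
    (fun s hs => ⟨hf s (ha0.trans hs.1), Set.mem_univ _⟩)
    (fun s hs => ⟨hg s (ha0.trans hs.1), Set.mem_univ _⟩) heq
  exact h3 ⟨lt_of_lt_of_le ha1 (min_le_left _ _), by rw [hb]; linarith [le_max_left t t₂]⟩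

/-- `T` has no large real zeros -/
lemma exists_T_ne {T : ℚ[X]} (hT : T ≠ 0) : ∃ t₀ : ℝ, ∀ t : ℝ, t₀ < t → aeval (t : ℂ) T ≠ 0 := by
  have h1 : T.map (algebraMap ℚ ℝ) ≠ 0 := by
    rw [Ne, Polynomial.map_eq_zero]
    exact hT
  obtain ⟨t₀, h⟩ := eventually_atTop.1 (Polynomial.eventually_atTop_not_isRoot _ h1)
  refine ⟨t₀, fun t ht h0 => h t ht.le ?_⟩
  rw [Polynomial.IsRoot, Polynomial.eval_map_algebraMap]
  have h2 := Polynomial.aeval_algebraMap_apply ℂ t T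
  change aeval (t : ℂ) T = _ at h2
  rw [h2] at h0
  exact (map_eq_zero (algebraMap ℝ ℂ)).1 h0

/-- the fundamental matrix -/
noncomputable def Fm (Y : Matrix ι ι (PowerSeries ℚ)) (N : Matrix ι ι ℚ) (t : ℝ) :
    Matrix ι ι ℂ := cevM Y ((1 / t : ℝ) : ℂ) * cexpM (-((Real.log t : ℝ) : ℂ)) N

lemma Fm_deriv {T : ℚ[X]} {A : Matrix ι ι ℚ[X]} {Y : Matrix ι ι (PowerSeries ℚ)}
    {N : Matrix ι ι ℚ} {H : ℕ} (hH : 1 ≤ H) (hY : ∀ a b, GBound H (Y a b)) (hF : IsFund T A Y N)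
    {t : ℝ} (ht : (H : ℝ) < t) (hTt : aeval (t : ℂ) T ≠ 0) (a b : ι) :
    HasDerivAt (fun t : ℝ => Fm Y N t a b)
      ((aeval (t : ℂ) T)⁻¹ * ∑ c, aeval (t : ℂ) (A a c) * Fm Y N t c b) t := by
  have hH' : (0 : ℝ) < H := by exact_mod_cast hH
  have ht0 : 0 < t := hH'.trans ht
  have htc : (t : ℂ) ≠ 0 := by
    rw [Ne, Complex.ofReal_eq_zero]
    exact ht0.ne'
  have hnorm : (H : ℝ) < ‖(t : ℂ)‖ := by
    rw [Complex.norm_real, Real.norm_of_nonneg ht0.le]
    exact ht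
  have hx : ‖((t : ℂ))⁻¹‖ < 1 / (H : ℝ) := by
    rw [norm_inv, one_div]
    exact inv_strictAnti₀ hH' hnorm
  -- the derivative of the holomorphic part
  set Yd : Matrix ι ι ℂ := Matrix.of fun a c => deriv (fun u : ℂ => cev (Y a c) u⁻¹) (t : ℂ)
    with hYd
  have hYder : ∀ a c, HasDerivAt (fun t : ℝ => cevM Y ((1 / t : ℝ) : ℂ) a c) (Yd a c) t := by
    intro a c
    have h1 := (cev_hasDerivAt hH (hY a c) hx).comp (t : ℂ) (hasDerivAt_inv htc)
    have h2 : HasDerivAt (fun u : ℂ => cev (Y a c) u⁻¹) (Yd a c) (t : ℂ) := by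
      rw [hYd, Matrix.of_apply]
      exact h1.differentiableAt.hasDerivAt
    have h3 := h2.comp_ofReal
    have e : (fun t : ℝ => cevM Y ((1 / t : ℝ) : ℂ) a c) =
        fun t : ℝ => cev (Y a c) ((t : ℂ))⁻¹ := by
      funext s
      show cev (Y a c) ((1 / s : ℝ) : ℂ) = _
      push_cast
      rw [one_div]
    rw [e]
    exact h3
  -- the derivative of the exponential
  have hEder : ∀ c b, HasDerivAt (fun t : ℝ => cexpM (-((Real.log t : ℝ) : ℂ)) N c b)
      ((-((t : ℂ))⁻¹ • (qC N * cexpM (-((Real.log t : ℝ) : ℂ)) N)) c b) t := by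
    intro c b
    have h1 : HasDerivAt (fun t : ℝ => -((Real.log t : ℝ) : ℂ)) (-((t⁻¹ : ℝ) : ℂ)) t :=
      (Real.hasDerivAt_log ht0.ne').ofReal_comp.neg
    have h2 := (cexpM_hasDerivAt (-((Real.log t : ℝ) : ℂ)) N c b).comp t h1
    have e : (-((t : ℂ))⁻¹ • (qC N * cexpM (-((Real.log t : ℝ) : ℂ)) N)) c b =
        (qC N * cexpM (-((Real.log t : ℝ) : ℂ)) N) c b * (-((t⁻¹ : ℝ) : ℂ)) := by
      rw [Matrix.smul_apply, smul_eq_mul]
      push_cast
      ring
    rw [e]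
    exact h2
  set Yc := cevM Y ((1 / t : ℝ) : ℂ) with hYc
  set Ec := cexpM (-((Real.log t : ℝ) : ℂ)) N with hEc
  set Ac : Matrix ι ι ℂ := Matrix.of fun a c => aeval (t : ℂ) (A a c) with hAc
  set τ : ℂ := aeval (t : ℂ) T with hτ
  -- the equation for the holomorphic part
  have hode : τ • Yd = Ac * Yc + (τ / t) • (Yc * qC N) := by
    ext1 a c
    have h1 := ode_cev hH hY hF (t : ℂ) hnorm a c
    have e1 : ∀ a c, Yc a c = cev (Y a c) ((t : ℂ))⁻¹ := by
      intro a c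
      rw [hYc]
      show cev (Y a c) ((1 / t : ℝ) : ℂ) = _
      push_cast
      rw [one_div]
    rw [Matrix.smul_apply, Matrix.add_apply, Matrix.smul_apply, Matrix.mul_apply,
      Matrix.mul_apply, hYd, hAc]
    simp only [Matrix.of_apply, smul_eq_mul, e1]
    exact h1
  -- the product
  have hprod : HasDerivAt (fun t : ℝ => Fm Y N t a b)
      (∑ c, (Yd a c * Ec c b + Yc a c * (-((t : ℂ))⁻¹ • (qC N * Ec)) c b)) t := by
    have h1 : HasDerivAt (fun t : ℝ => ∑ c, cevM Y ((1 / t : ℝ) : ℂ) a c *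
        cexpM (-((Real.log t : ℝ) : ℂ)) N c b)
        (∑ c, (Yd a c * Ec c b + Yc a c * (-((t : ℂ))⁻¹ • (qC N * Ec)) c b)) t :=
      HasDerivAt.fun_sum fun c _ => (hYder a c).mul (hEder c b)
    have e : (fun t : ℝ => Fm Y N t a b) = fun t : ℝ => ∑ c, cevM Y ((1 / t : ℝ) : ℂ) a c *
        cexpM (-((Real.log t : ℝ) : ℂ)) N c b := by
      funext s
      rw [Fm, Matrix.mul_apply]
    rw [e]
    exact h1
  have hval : (∑ c, (Yd a c * Ec c b + Yc a c * (-((t : ℂ))⁻¹ • (qC N * Ec)) c b)) =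
      τ⁻¹ * ∑ c, aeval (t : ℂ) (A a c) * Fm Y N t c b := by
    rw [Finset.sum_add_distrib, ← Matrix.mul_apply, ← Matrix.mul_apply, ← Matrix.add_apply]
    have e1 : ∑ c, aeval (t : ℂ) (A a c) * Fm Y N t c b = (Ac * (Yc * Ec)) a b := by
      rw [Matrix.mul_apply]
      rfl
    rw [e1]
    have e2 : Yd = τ⁻¹ • (Ac * Yc) + ((t : ℂ))⁻¹ • (Yc * qC N) := by
      have h1 := congrArg (fun M => τ⁻¹ • M) hode
      simp only [smul_add, smul_smul, inv_mul_cancel₀ hTt, one_smul] at h1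
      rw [h1]
      congr 2
      field_simp
    rw [e2, Matrix.add_mul, Matrix.smul_mul, Matrix.smul_mul, Matrix.mul_smul,
      Matrix.mul_assoc, Matrix.mul_assoc, neg_smul, add_assoc, add_neg_cancel, add_zero,
      Matrix.smul_apply, smul_eq_mul]
  rw [hval] at hprod
  exact hprod

/-- the fundamental matrix is invertible for large `t` -/
lemma Fm_unit {Y : Matrix ι ι (PowerSeries ℚ)} {H : ℕ} (hH : 1 ≤ H)
    (hY : ∀ a b, GBound H (Y a b)) (h0 : coP 0 Y = 1) (N : Matrix ι ι ℚ) :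
    ∀ᶠ t : ℝ in atTop, IsUnit (Fm Y N t).det := by
  have hH' : (0 : ℝ) < H := by exact_mod_cast hH
  have hc : ContinuousAt (fun x : ℂ => (cevM Y x).det) 0 := by
    have h1 : ContinuousAt (fun x : ℂ => cevM Y x) 0 := by
      refine continuousAt_pi.2 fun a => continuousAt_pi.2 fun b => ?_
      exact (cev_analytic hH (hY a b) 0 (by
        rw [mem_ball_zero_iff, norm_zero]; positivity)).continuousAt
    exact (continuous_id.matrix_det).continuousAt.comp h1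
  have hd : (cevM Y 0).det = 1 := by
    have : cevM Y 0 = 1 := by
      ext1 a b
      show cev (Y a b) 0 = _
      rw [cev_zero]
      have h1 := congrFun (congrFun h0 a) b
      rw [coP_apply, PowerSeries.coeff_zero_eq_constantCoeff_apply] at h1
      rw [h1, Matrix.one_apply, Matrix.one_apply]
      split_ifs <;> simp
    rw [this, Matrix.det_one]
  have hne : ∀ᶠ x : ℂ in 𝓝 0, (cevM Y x).det ≠ 0 := by
    refine hc.eventually_ne ?_
    rw [hd]
    exact one_ne_zero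
  have htend : Tendsto (fun t : ℝ => ((1 / t : ℝ) : ℂ)) atTop (𝓝 0) := by
    have h1 : Tendsto (fun t : ℝ => 1 / t) atTop (𝓝 0) := tendsto_const_nhds.div_atTop tendsto_id
    have h2 := (Complex.continuous_ofReal.tendsto 0).comp h1
    rw [Complex.ofReal_zero] at h2
    exact h2
  filter_upwards [htend.eventually hne] with t ht
  rw [Fm, Matrix.det_mul]
  exact (isUnit_iff_ne_zero.2 ht).mul (cexpM_isUnit _ _)

end SolFormAux

open SolFormAux

theorem sol_form {T : ℚ[X]} (hT : T ≠ 0) {A : Matrix ι ι ℚ[X]}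
    {Y : Matrix ι ι (PowerSeries ℚ)} {N : Matrix ι ι ℚ} {H : ℕ} (hH : 1 ≤ H)
    (hY : ∀ a b, GBound H (Y a b)) (h0 : coP 0 Y = 1) (hF : IsFund T A Y N)
    {z : ℝ → ι → ℂ} (hz : IsSolR T A z) : ∃ (z₀ : ι → ℂ) (t₁ : ℝ), ∀ t : ℝ, t₁ < t →
      z t = (cevM Y ((1 / t : ℝ) : ℂ) * cexpM (-((Real.log t : ℝ) : ℂ)) N).mulVec z₀ := by
  obtain ⟨ta, hta⟩ := exists_T_ne hT
  obtain ⟨tb, htb⟩ := hz
  set t₁ : ℝ := max (max ta tb) H with ht₁
  have hTne : ∀ t : ℝ, t₁ < t → aeval (t : ℂ) T ≠ 0 := fun t ht =>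
    hta t (lt_of_le_of_lt ((le_max_left _ _).trans (le_max_left _ _)) ht)
  obtain ⟨t₂, ht₂u, ht₂⟩ := ((Fm_unit hH hY h0 N).and (eventually_gt_atTop t₁)).exists
  set z₀ : ι → ℂ := ((Fm Y N t₂)⁻¹).mulVec (z t₂) with hz₀
  refine ⟨z₀, t₁, fun t ht => ?_⟩
  refine unique_sol hTne (A := A) (f := z) (g := fun t => (Fm Y N t).mulVec z₀) ?_ ?_ ht₂ ?_ t ht
  · intro s hs
    rw [hasDerivAt_pi]
    intro a
    exact htb s (lt_of_le_of_lt ((le_max_right _ _).trans (le_max_left _ _)) hs) a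
  · intro s hs
    rw [hasDerivAt_pi]
    intro a
    have hsH : (H : ℝ) < s := lt_of_le_of_lt (le_max_right _ _) hs
    have h1 : HasDerivAt (fun s : ℝ => ∑ b, Fm Y N s a b * z₀ b)
        (∑ b, ((aeval (s : ℂ) T)⁻¹ * ∑ c, aeval (s : ℂ) (A a c) * Fm Y N s c b) * z₀ b) s :=
      HasDerivAt.fun_sum fun b _ => (Fm_deriv hH hY hF hsH (hTne s hs) a b).mul_const _
    have e : (∑ b, ((aeval (s : ℂ) T)⁻¹ * ∑ c, aeval (s : ℂ) (A a c) * Fm Y N s c b) * z₀ b) =
        vf T A s ((Fm Y N s).mulVec z₀) a := by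
      rw [vf]
      simp only [Matrix.mulVec, dotProduct, Finset.mul_sum, Finset.sum_mul]
      rw [Finset.sum_comm]
      refine Finset.sum_congr rfl fun b _ => Finset.sum_congr rfl fun c _ => ?_
      ring
    rw [e] at h1
    exact h1
  · show z t₂ = (Fm Y N t₂).mulVec z₀
    rw [hz₀, Matrix.mulVec_mulVec, Matrix.mul_nonsing_inv _ ht₂u, Matrix.one_mulVec]

end Pool.Agent.Helper79.GC
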