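import Pool.Agent.Helper79.GC.Defs2
import Pool.Agent.Helper79.GC.GalDual

/-!
# GC-56: gauge transformations and sparsity, real solutions

* `sparse_congr`: enlarge `C` so that `s + a_j` is large (`s ≥ (K+1)^C ≥ 2^C`, `C < 2^C`).
* `sparse_gauge`: let `n` be large, `det Z(n) ≠ 0` (finitely many roots), not bad for `z' = gz Z D z = t^D Z(t)⁻¹ z`. If `l · z(n) = 0` then
  `l' = l Z(n)` (rational, `Z(n)` is an integer matrix) has `l' · z'(n) = n^D l · z(n) = 0`, so there is `v' ∈ ℚ[X]^ι`, `v'(n) = l'`, `v' · z' = 0` for large `t`.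
  `v = (det Z(n))⁻¹ v' adj Z`: `v(n) = (det Z(n))⁻¹ l Z(n) adj Z(n) = l`, `v(t) · z(t) = (det Z(n))⁻¹ v' · adj Z(t) z(t)
  = (det Z(n))⁻¹ det Z(t) t^(-D) v' · z' = 0`. So `n` is not bad for `z`.
* `sol_gauge`: `z' = t^D Z⁻¹ z`; `(Z⁻¹)' = -Z⁻¹ Z_t Z⁻¹`; `z'_t = (D/t) z' - Z⁻¹ Z_t z' + Z⁻¹ (A/T) Z z'` and this is `(gA/gT) z'` (definition of `gT`, `gA`,
  `Z⁻¹ = adj Z / det Z`). Entrywise: `z = t^(-D) Z z'`; differentiability of `Z⁻¹`: entries `adj Z / det Z`.
-/

open Polynomial Filter Topology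

namespace Pool.Agent.Helper79.GC

open Pool.Agent.Helper37.GP

variable {ι : Type} [Fintype ι] [DecidableEq ι]

omit [DecidableEq ι] in
/-- Sparsity only depends on large integers. -/
theorem sparse_of_bad {z z' : ℝ → ι → ℂ} (n₀ : ℕ) (h : ∀ n, n₀ ≤ n → Bad z n → Bad z' n)
    (hs : Sparse z') : Sparse z := by
  obtain ⟨C, M, hCM⟩ := hs
  refine ⟨max C n₀, M, ?_⟩
  intro K s a hK h1 h2 h3 h4
  have h5 : (K + 1) ^ C ≤ s :=
    le_trans (Nat.pow_le_pow_right (by omega) (le_max_left _ _)) h4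
  obtain ⟨j, hj⟩ := hCM K s a hK (fun j => le_trans (le_max_left _ _) (h1 j)) h2
    (fun i j hij => by
      have := h3 i j hij
      have h6 : C ≤ max C n₀ := le_max_left _ _
      omega) h5
  refine ⟨j, fun hb => hj (h _ ?_ hb)⟩
  have h6 : n₀ ≤ max C n₀ := le_max_right _ _
  have h7 : max C n₀ < 2 ^ max C n₀ := Nat.lt_two_pow_self
  have h8 : 2 ^ max C n₀ ≤ (K + 1) ^ max C n₀ := Nat.pow_le_pow_left (by omega) _
  omega

omit [DecidableEq ι] in
theorem sparse_congr {z z' : ℝ → ι → ℂ} (h : ∀ᶠ t in atTop, z t = z' t) (hs : Sparse z') :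
    Sparse z := by
  obtain ⟨t₀, ht₀⟩ := eventually_atTop.1 h
  obtain ⟨n₀, hn₀⟩ := exists_nat_ge t₀
  refine sparse_of_bad n₀ ?_ hs
  rintro n hn ⟨l, hl, hv⟩
  have h1 : z n = z' n := ht₀ n (le_trans hn₀ (by exact_mod_cast hn))
  refine ⟨l, by rw [← h1]; exact hl, ?_⟩
  rintro ⟨v, hv1, hv2⟩
  refine hv ⟨v, hv1, ?_⟩
  filter_upwards [h, hv2] with t h2 h3
  rw [h2]
  exact h3

/-! ### Evaluation -/

theorem aeval_castQ (P : ℤ[X]) (t : ℂ) : aeval t (P.map (Int.castRingHom ℚ)) = aeval t P := by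
  rw [aeval_def, eval₂_map, aeval_def]
  congr 1

omit [DecidableEq ι] in
theorem evM_mul (Z W : Matrix ι ι ℤ[X]) (t : ℂ) : evM (Z * W) t = evM Z t * evM W t := by
  have h := Matrix.map_mul (L := Z) (M := W) (f := (aeval t : ℤ[X] →ₐ[ℤ] ℂ).toRingHom)
  exact h

theorem evM_adj (Z : Matrix ι ι ℤ[X]) (t : ℂ) : evM Z.adjugate t = (evM Z t).adjugate := by
  have h := RingHom.map_adjugate (aeval t : ℤ[X] →ₐ[ℤ] ℂ).toRingHom Z
  exact h

theorem evM_det (Z : Matrix ι ι ℤ[X]) (t : ℂ) : (evM Z t).det = aeval t Z.det := by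
  have h := RingHom.map_det (aeval t : ℤ[X] →ₐ[ℤ] ℂ).toRingHom Z
  exact h.symm

theorem evM_inv (Z : Matrix ι ι ℤ[X]) (t : ℂ) :
    (evM Z t)⁻¹ = (aeval t Z.det)⁻¹ • evM Z.adjugate t := by
  rw [Matrix.inv_def, Ring.inverse_eq_inv', evM_det, evM_adj]

theorem gz_eq (Z : Matrix ι ι ℤ[X]) (D : ℕ) (z : ℝ → ι → ℂ) (t : ℝ) :
    gz Z D z t = ((t : ℂ) ^ D * (aeval (t : ℂ) Z.det)⁻¹) •
      (evM Z.adjugate (t : ℂ)).mulVec (z t) := by
  unfold gz
  rw [evM_inv, Matrix.smul_mulVec, smul_smul]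

theorem eventually_ne {P : ℤ[X]} (hP : P ≠ 0) : ∀ᶠ t : ℝ in atTop, aeval (t : ℂ) P ≠ 0 := by
  have h1 : P.map (Int.castRingHom ℂ) ≠ 0 := by
    rwa [Ne, Polynomial.map_eq_zero_iff (Int.castRingHom ℂ).injective_int]
  have h2 : ((P.map (Int.castRingHom ℂ)).roots.toFinset : Set ℂ).Finite := Finset.finite_toSet _
  obtain ⟨t₀, ht₀⟩ := h2.isBounded.exists_norm_le
  filter_upwards [eventually_gt_atTop (max t₀ 0)] with t ht h3
  have h4 : (t : ℂ) ∈ ((P.map (Int.castRingHom ℂ)).roots.toFinset : Set ℂ) := by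
    rw [Finset.mem_coe, Multiset.mem_toFinset, mem_roots h1, IsRoot.def, eval_map]
    exact h3
  have h5 := ht₀ _ h4
  rw [Complex.norm_real, Real.norm_eq_abs] at h5
  have h6 := le_abs_self t
  have h7 := le_max_left t₀ 0
  linarith

theorem sparse_gauge {Z : Matrix ι ι ℤ[X]} (hZ : Z.det ≠ 0) (D : ℕ) {z : ℝ → ι → ℂ}
    (h : Sparse (gz Z D z)) : Sparse z := by
  obtain ⟨t₀, ht₀⟩ := eventually_atTop.1 (eventually_ne hZ)
  obtain ⟨n₀, hn₀⟩ := exists_nat_ge t₀
  refine sparse_of_bad n₀ ?_ h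
  rintro n hn ⟨l, hl, hv⟩
  have hd : aeval ((n : ℝ) : ℂ) Z.det ≠ 0 := ht₀ n (le_trans hn₀ (by exact_mod_cast hn))
  have hdq : (((Z.det.eval (n : ℤ) : ℤ) : ℚ)) ≠ 0 := by
    intro h0
    apply hd
    have h1 : aeval ((n : ℝ) : ℂ) Z.det = ((Z.det.eval (n : ℤ) : ℤ) : ℂ) := by
      rw [Complex.ofReal_natCast, aeval_def, ← Int.cast_natCast (R := ℂ) n,
        ← eq_intCast (algebraMap ℤ ℂ) (n : ℤ), eval₂_at_apply]
      simp
    rw [h1]
    have h2 : Z.det.eval (n : ℤ) = 0 := by exact_mod_cast h0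
    rw [h2, Int.cast_zero]
  -- the integer matrix
  let W : Matrix ι ι ℚ := Z.map fun p => ((p.eval (n : ℤ) : ℤ) : ℚ)
  have hev : ∀ p : ℤ[X], aeval ((n : ℝ) : ℂ) p = (((p.eval (n : ℤ) : ℤ) : ℚ) : ℂ) := by
    intro p
    rw [Complex.ofReal_natCast, aeval_def, ← Int.cast_natCast (R := ℂ) n,
      ← eq_intCast (algebraMap ℤ ℂ) (n : ℤ), eval₂_at_apply]
    simp
  let l' : ι → ℚ := Matrix.vecMul l W
  have hl' : ∑ b, (l' b : ℂ) * gz Z D z n b = 0 := by
    have h1 : ∀ b, (l' b : ℂ) = Matrix.vecMul (fun a => (l a : ℂ)) (evM Z ((n : ℝ) : ℂ)) b := by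
      intro b
      simp only [l', W, Matrix.vecMul, dotProduct, Matrix.map_apply, evM, hev]
      push_cast
      rfl
    have h2 : ∑ b, (l' b : ℂ) * gz Z D z n b =
        Matrix.vecMul (fun a => (l a : ℂ)) (evM Z ((n : ℝ) : ℂ)) ⬝ᵥ gz Z D z n := by
      rw [dotProduct]
      exact Finset.sum_congr rfl fun b _ => by rw [h1]
    rw [h2]
    unfold gz
    rw [dotProduct_smul, ← Matrix.dotProduct_mulVec, Matrix.mulVec_mulVec,
      Matrix.mul_nonsing_inv _ (by rw [evM_det]; exact isUnit_iff_ne_zero.2 hd),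
      Matrix.one_mulVec, dotProduct, hl, smul_zero]
  refine ⟨l', hl', ?_⟩
  rintro ⟨v', hv1, hv2⟩
  apply hv
  let J : Matrix ι ι ℚ[X] := Z.adjugate.map (Polynomial.map (Int.castRingHom ℚ))
  refine ⟨fun a => C (((Z.det.eval (n : ℤ) : ℤ) : ℚ)⁻¹) * Matrix.vecMul v' J a, ?_, ?_⟩
  · intro a
    have h1 : (Matrix.vecMul v' J a).eval (n : ℚ) =
        Matrix.vecMul l' (Z.adjugate.map fun p => ((p.eval (n : ℤ) : ℤ) : ℚ)) a := by
      simp only [Matrix.vecMul, dotProduct, J, Matrix.map_apply, eval_finsetSum, eval_mul, hv1]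
      refine Finset.sum_congr rfl fun b _ => ?_
      congr 1
      rw [eval_map, ← Int.cast_natCast (R := ℚ) n, ← eq_intCast (Int.castRingHom ℚ) (n : ℤ),
        eval₂_at_apply]
      simp
    have h2 : W * (Z.adjugate.map fun p => ((p.eval (n : ℤ) : ℤ) : ℚ)) =
        ((Z.det.eval (n : ℤ) : ℤ) : ℚ) • 1 := by
      have h3 := congrArg (fun M : Matrix ι ι ℤ[X] =>
        M.map ((Int.castRingHom ℚ).comp (evalRingHom (n : ℤ)))) (Matrix.mul_adjugate Z)
      simp only [Matrix.map_mul] at h3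
      have h4 : (Z.det • (1 : Matrix ι ι ℤ[X])).map
          ((Int.castRingHom ℚ).comp (evalRingHom (n : ℤ))) =
          ((Z.det.eval (n : ℤ) : ℤ) : ℚ) • 1 := by
        ext i j
        by_cases hij : i = j <;> simp [hij]
      rw [h4] at h3
      exact h3
    rw [eval_mul, eval_C, h1]
    simp only [l']
    rw [Matrix.vecMul_vecMul, h2, Matrix.vecMul_smul, Matrix.vecMul_one, Pi.smul_apply,
      smul_eq_mul, ← mul_assoc, inv_mul_cancel₀ hdq, one_mul]
  · filter_upwards [hv2, eventually_ne hZ, eventually_gt_atTop 0] with t h1 h2 h3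
    have h4 : ∑ a, aeval (t : ℂ) (C (((Z.det.eval (n : ℤ) : ℤ) : ℚ)⁻¹) * Matrix.vecMul v' J a) *
        z t a = ((((Z.det.eval (n : ℤ) : ℤ) : ℚ)⁻¹ : ℚ) : ℂ) *
        (Matrix.vecMul (fun b => aeval (t : ℂ) (v' b)) (evM Z.adjugate (t : ℂ)) ⬝ᵥ z t) := by
      rw [dotProduct, Finset.mul_sum]
      refine Finset.sum_congr rfl fun a _ => ?_
      rw [map_mul, aeval_C, eq_ratCast, mul_assoc]
      congr 2
      simp only [Matrix.vecMul, dotProduct, J, Matrix.map_apply, map_sum, map_mul, aeval_castQ]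
      rfl
    rw [h4]
    have h5 : (Matrix.vecMul (fun b => aeval (t : ℂ) (v' b)) (evM Z.adjugate (t : ℂ)) ⬝ᵥ z t) =
        aeval (t : ℂ) Z.det * ((t : ℂ) ^ D)⁻¹ * ∑ a, aeval (t : ℂ) (v' a) * gz Z D z t a := by
      have h6 : (t : ℂ) ^ D ≠ 0 := pow_ne_zero _ (by exact_mod_cast h3.ne')
      have h7 : ∑ a, aeval (t : ℂ) (v' a) * gz Z D z t a =
          (fun b => aeval (t : ℂ) (v' b)) ⬝ᵥ gz Z D z t := rfl
      rw [h7, gz_eq, dotProduct_smul, ← Matrix.dotProduct_mulVec, smul_eq_mul, ← mul_assoc]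
      have h8 : aeval (t : ℂ) Z.det * ((t : ℂ) ^ D)⁻¹ *
          ((t : ℂ) ^ D * (aeval (t : ℂ) Z.det)⁻¹) = 1 := by
        field_simp
      rw [h8, one_mul]
    rw [h5, h1, mul_zero, mul_zero]

/-! ### Solutions -/

omit [DecidableEq ι] in
theorem map_derivative_mul (Z W : Matrix ι ι ℤ[X]) :
    (Z * W).map derivative = Z.map derivative * W + Z * W.map derivative := by
  ext1 a b
  rw [Matrix.map_apply, Matrix.mul_apply, derivative_sum, Matrix.add_apply, Matrix.mul_apply,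
    Matrix.mul_apply, ← Finset.sum_add_distrib]
  refine Finset.sum_congr rfl fun c _ => ?_
  rw [derivative_mul, Matrix.map_apply, Matrix.map_apply]

/-- The derivative of the adjugate. -/
theorem adj_deriv (Z : Matrix ι ι ℤ[X]) :
    Z.adjugate * Z.map derivative * Z.adjugate =
      derivative Z.det • Z.adjugate - Z.det • Z.adjugate.map derivative := by
  have h1 := congrArg (fun M : Matrix ι ι ℤ[X] => M.map derivative) (Matrix.adjugate_mul Z)
  simp only [map_derivative_mul] at h1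
  have h2 : (Z.det • (1 : Matrix ι ι ℤ[X])).map derivative = derivative Z.det • 1 := by
    ext1 i j
    rw [Matrix.map_apply, Matrix.smul_apply, Matrix.smul_apply, Matrix.one_apply]
    split_ifs <;> simp
  rw [h2] at h1
  have h3 : Z.adjugate * Z.map derivative =
      derivative Z.det • 1 - Z.adjugate.map derivative * Z := by
    rw [← h1]
    abel
  rw [h3, Matrix.sub_mul, Matrix.smul_mul, Matrix.one_mul, Matrix.mul_assoc, Matrix.mul_adjugate,
    Matrix.mul_smul, Matrix.mul_one]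

/-- `gA · adj Z`. -/
theorem gA_mul_adj (T : ℤ[X]) (A : Matrix ι ι ℚ[X]) (Z : Matrix ι ι ℤ[X]) (D : ℕ) :
    gA T A Z D * Z.adjugate.map (Polynomial.map (Int.castRingHom ℚ)) =
      (X ^ (D + 1) * (Z.det.map (Int.castRingHom ℚ)) ^ 2) •
        (Z.adjugate.map (Polynomial.map (Int.castRingHom ℚ)) * A) -
      (X ^ (D + 1) * T.map (Int.castRingHom ℚ) * Z.det.map (Int.castRingHom ℚ)) •
        ((derivative Z.det).map (Int.castRingHom ℚ) •
          Z.adjugate.map (Polynomial.map (Int.castRingHom ℚ)) -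
          Z.det.map (Int.castRingHom ℚ) •
            (Z.adjugate.map derivative).map (Polynomial.map (Int.castRingHom ℚ))) +
      ((D : ℚ[X]) * X ^ D * T.map (Int.castRingHom ℚ) * (Z.det.map (Int.castRingHom ℚ)) ^ 2) •
        Z.adjugate.map (Polynomial.map (Int.castRingHom ℚ)) := by
  have h1 := congrArg (fun M : Matrix ι ι ℤ[X] => M.map (Polynomial.mapRingHom (Int.castRingHom ℚ)))
    (adj_deriv Z)
  have h2 : (derivative Z.det • Z.adjugate - Z.det • Z.adjugate.map derivative).map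
      (Polynomial.mapRingHom (Int.castRingHom ℚ)) =
      (derivative Z.det).map (Int.castRingHom ℚ) •
          Z.adjugate.map (Polynomial.map (Int.castRingHom ℚ)) -
          Z.det.map (Int.castRingHom ℚ) •
            (Z.adjugate.map derivative).map (Polynomial.map (Int.castRingHom ℚ)) := by
    ext1 i j
    simp [Matrix.map_apply]
  simp only [Matrix.map_mul] at h1
  rw [h2] at h1
  have h3 : (Z.map derivative).map (Polynomial.mapRingHom (Int.castRingHom ℚ)) =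
      (Z.map (Polynomial.map (Int.castRingHom ℚ))).map derivative := by
    ext1 i j
    simp [Matrix.map_apply, derivative_map]
  rw [h3, Polynomial.coe_mapRingHom] at h1
  have h4 : Z.map (Polynomial.map (Int.castRingHom ℚ)) *
      Z.adjugate.map (Polynomial.map (Int.castRingHom ℚ)) = Z.det.map (Int.castRingHom ℚ) • 1 := by
    rw [← adj_map_int, Matrix.mul_adjugate, det_map_int]
  rw [← h1]
  unfold gA
  simp only []
  rw [det_map_int, adj_map_int, Matrix.add_mul, Matrix.sub_mul]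
  simp only [Matrix.smul_mul]
  rw [Matrix.mul_assoc (Z.adjugate.map (Polynomial.map (Int.castRingHom ℚ)) * A), h4,
    Matrix.mul_smul, Matrix.mul_one, Matrix.one_mul, smul_smul]
  congr 3
  ring

theorem sol_gauge {T : ℤ[X]} (hT : T ≠ 0) {A : Matrix ι ι ℚ[X]} {Z : Matrix ι ι ℤ[X]}
    (hZ : Z.det ≠ 0) (D : ℕ) {z : ℝ → ι → ℂ}
    (hz : IsSolR (T.map (Int.castRingHom ℚ)) A z) :
    IsSolR ((gT T Z D).map (Int.castRingHom ℚ)) (gA T A Z D) (gz Z D z) := by
  obtain ⟨t₀, ht₀⟩ := hz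
  obtain ⟨t₁, ht₁⟩ := eventually_atTop.1
    ((eventually_ne hZ).and ((eventually_ne hT).and (eventually_gt_atTop 0)))
  refine ⟨max t₀ t₁, ?_⟩
  intro t ht a
  obtain ⟨hd, hTt, ht0⟩ := ht₁ t (le_of_lt (lt_of_le_of_lt (le_max_right _ _) ht))
  have hz' := ht₀ t (lt_of_le_of_lt (le_max_left _ _) ht)
  have ht' : (t : ℂ) ≠ 0 := by exact_mod_cast ht0.ne'
  have hpd : ∀ P : ℤ[X], HasDerivAt (fun t : ℝ => aeval (t : ℂ) P)
      (aeval (t : ℂ) (derivative P)) t := fun P => (P.hasDerivAt_aeval (t : ℂ)).comp_ofReal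
  have hgz : (fun t : ℝ => gz Z D z t a) = fun t : ℝ => ((t : ℂ) ^ D *
      (aeval (t : ℂ) Z.det)⁻¹) * ∑ c, aeval (t : ℂ) (Z.adjugate a c) * z t c := by
    funext t
    rw [gz_eq]
    rfl
  rw [hgz]
  have hX : HasDerivAt (fun t : ℝ => (t : ℂ) ^ D) ((D : ℂ) * (t : ℂ) ^ (D - 1)) t :=
    (hasDerivAt_pow D (t : ℂ)).comp_ofReal
  have hsum : HasDerivAt (fun t : ℝ => ∑ c, aeval (t : ℂ) (Z.adjugate a c) * z t c)
      (∑ c, (aeval (t : ℂ) (derivative (Z.adjugate a c)) * z t c +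
        aeval (t : ℂ) (Z.adjugate a c) * ((aeval (t : ℂ) (T.map (Int.castRingHom ℚ)))⁻¹ *
          ∑ b, aeval (t : ℂ) (A c b) * z t b))) t :=
    HasDerivAt.fun_sum fun c _ => (hpd _).mul (hz' c)
  have hall := (hX.mul ((hpd Z.det).inv hd)).mul hsum
  refine hall.congr_deriv ?_
  simp only [Pi.mul_apply, Pi.inv_apply]
  -- the right hand side
  have hR : ∑ b, aeval (t : ℂ) (gA T A Z D a b) * gz Z D z t b =
      ((t : ℂ) ^ D * (aeval (t : ℂ) Z.det)⁻¹) *
      ∑ c, aeval (t : ℂ) ((gA T A Z D * Z.adjugate.map (Polynomial.map (Int.castRingHom ℚ))) a c) *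
        z t c := by
    simp only [gz_eq, Pi.smul_apply, smul_eq_mul, Matrix.mulVec, dotProduct, evM,
      Matrix.mul_apply, map_sum, map_mul, Matrix.map_apply, aeval_castQ, Finset.mul_sum,
      Finset.sum_mul]
    rw [Finset.sum_comm]
    refine Finset.sum_congr rfl fun c _ => Finset.sum_congr rfl fun b _ => ?_
    ring
  rw [hR, gA_mul_adj]
  have hS : ∑ c, aeval (t : ℂ) (((X ^ (D + 1) * (Z.det.map (Int.castRingHom ℚ)) ^ 2) •
        (Z.adjugate.map (Polynomial.map (Int.castRingHom ℚ)) * A) -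
      (X ^ (D + 1) * T.map (Int.castRingHom ℚ) * Z.det.map (Int.castRingHom ℚ)) •
        ((derivative Z.det).map (Int.castRingHom ℚ) •
          Z.adjugate.map (Polynomial.map (Int.castRingHom ℚ)) -
          Z.det.map (Int.castRingHom ℚ) •
            (Z.adjugate.map derivative).map (Polynomial.map (Int.castRingHom ℚ))) +
      ((D : ℚ[X]) * X ^ D * T.map (Int.castRingHom ℚ) * (Z.det.map (Int.castRingHom ℚ)) ^ 2) •
        Z.adjugate.map (Polynomial.map (Int.castRingHom ℚ))) a c) * z t c =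
      (t : ℂ) ^ (D + 1) * aeval (t : ℂ) Z.det ^ 2 *
        (∑ c, aeval (t : ℂ) (Z.adjugate a c) * ∑ b, aeval (t : ℂ) (A c b) * z t b) -
      (t : ℂ) ^ (D + 1) * aeval (t : ℂ) T * aeval (t : ℂ) Z.det *
        (aeval (t : ℂ) (derivative Z.det) * (∑ c, aeval (t : ℂ) (Z.adjugate a c) * z t c) -
          aeval (t : ℂ) Z.det * ∑ c, aeval (t : ℂ) (derivative (Z.adjugate a c)) * z t c) +
      (D : ℂ) * (t : ℂ) ^ D * aeval (t : ℂ) T * aeval (t : ℂ) Z.det ^ 2 *
        ∑ c, aeval (t : ℂ) (Z.adjugate a c) * z t c := by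
    have hJA : ∑ c, aeval (t : ℂ) ((Z.adjugate.map (Polynomial.map (Int.castRingHom ℚ)) * A) a c) *
        z t c = ∑ c, aeval (t : ℂ) (Z.adjugate a c) * ∑ b, aeval (t : ℂ) (A c b) * z t b := by
      simp only [Matrix.mul_apply, map_sum, map_mul, Matrix.map_apply, aeval_castQ,
        Finset.sum_mul, Finset.mul_sum]
      rw [Finset.sum_comm]
      refine Finset.sum_congr rfl fun c _ => Finset.sum_congr rfl fun b _ => ?_
      ring
    rw [← hJA]
    simp only [Finset.mul_sum, ← Finset.sum_sub_distrib, ← Finset.sum_add_distrib]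
    refine Finset.sum_congr rfl fun c _ => ?_
    simp only [Matrix.add_apply, Matrix.sub_apply, Matrix.smul_apply, smul_eq_mul, map_add,
      map_sub, map_mul, map_pow, aeval_X, aeval_castQ, Matrix.map_apply, map_natCast]
    ring
  rw [hS, aeval_castQ, aeval_castQ]
  simp only [Finset.sum_add_distrib]
  have hS2 : ∑ c, aeval (t : ℂ) (Z.adjugate a c) * ((aeval (t : ℂ) T)⁻¹ *
      ∑ b, aeval (t : ℂ) (A c b) * z t b) = (aeval (t : ℂ) T)⁻¹ *
      ∑ c, aeval (t : ℂ) (Z.adjugate a c) * ∑ b, aeval (t : ℂ) (A c b) * z t b := by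
    rw [Finset.mul_sum]
    exact Finset.sum_congr rfl fun c _ => by ring
  rw [hS2]
  have hg : aeval (t : ℂ) (gT T Z D) = (t : ℂ) ^ (D + 1) * aeval (t : ℂ) T *
      aeval (t : ℂ) Z.det ^ 2 := by
    unfold gT
    simp only [map_mul, map_pow, aeval_X]
  rw [hg]
  generalize ∑ c, aeval (t : ℂ) (Z.adjugate a c) * ∑ b, aeval (t : ℂ) (A c b) * z t b = r
  generalize ∑ c, aeval (t : ℂ) (derivative (Z.adjugate a c)) * z t c = q
  generalize ∑ c, aeval (t : ℂ) (Z.adjugate a c) * z t c = p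
  generalize aeval (t : ℂ) (derivative Z.det) = δ'
  generalize aeval (t : ℂ) Z.det = δ at hd
  generalize aeval (t : ℂ) T = τ at hTt
  have hD : (D : ℂ) * (t : ℂ) ^ (D - 1) = (D : ℂ) * (t : ℂ) ^ D * (t : ℂ)⁻¹ := by
    rcases Nat.eq_zero_or_pos D with h0 | h0
    · simp [h0]
    · obtain ⟨k, rfl⟩ : ∃ k, D = k + 1 := ⟨D - 1, by omega⟩
      rw [Nat.add_sub_cancel, pow_succ]
      field_simp
  rw [hD]
  field_simp
  ring

end Pool.Agent.Helper79.GC
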