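import Pool.Agent.Helper79.GC.Values
import Pool.Agent.Helper79.GC.CevFn
import Pool.Agent.Helper79.GC.BlockVal
import Pool.Agent.Helper79.GC.ExistsBlock
import Pool.Agent.Helper79.GC.ExistsFund
import Pool.Agent.Helper79.GC.DenFund
import Pool.Agent.Helper79.GC.SolForm
import Pool.Agent.Helper79.GC.Elim
import Pool.Agent.Helper79.GC.SparseGauge
import Pool.Agent.Helper79.GC.Shear
import Pool.Agent.Helper79.GC.GalAdd
import Pool.Agent.Helper79.GC.BinmDen

/-!
# GC-62: sparsity of the bad integers for a system with exponents `0`, `1/2`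
-/

open Polynomial Filter Topology

namespace Pool.Agent.Helper79.GC

open Pool.Agent.Helper37.GP

variable {ι : Type} [Fintype ι] [DecidableEq ι]

theorem sparse_of_isEmpty [IsEmpty ι] (z : ℝ → ι → ℂ) : Sparse z := by
  refine ⟨0, 0, fun K s a _ _ _ _ _ => ⟨0, ?_⟩⟩
  rintro ⟨l, _, h⟩
  exact h ⟨fun _ => 0, fun a => isEmptyElim a, Filter.Eventually.of_forall fun t => by simp⟩

theorem bilin_block {R : ℕ} (g : Fin R → Matrix ι ι ℚ) (c : Fin R → ℂ) (l : ι → ℚ)
    (z : ι → ℂ) : ∑ a, (l a : ℂ) * ((∑ α, c α • qC (g α)).mulVec z) a =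
      ∑ α, c α * ∑ b, ((Matrix.vecMul l (g α) b : ℚ) : ℂ) * z b := by
  simp only [Matrix.mulVec, dotProduct, Matrix.sum_apply, Matrix.smul_apply, smul_eq_mul,
    Matrix.vecMul, qC, Matrix.map_apply]
  push_cast
  simp only [Finset.mul_sum, Finset.sum_mul]
  rw [Finset.sum_comm]
  simp only [eq_ratCast]
  have e1 : ∀ b : ι, ∑ a : ι, ∑ α : Fin R, (l a : ℂ) * (c α * ((g α a b : ℚ) : ℂ) * z b) =
      ∑ α : Fin R, ∑ a : ι, c α * ((l a : ℂ) * ((g α a b : ℚ) : ℂ) * z b) := by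
    intro b
    rw [Finset.sum_comm]
    refine Finset.sum_congr rfl fun α _ => Finset.sum_congr rfl fun a _ => ?_
    ring
  simp only [e1]
  rw [Finset.sum_comm]

/-- The values of a block at large real points. -/
theorem lin_core {R : ℕ} (b : BlockData R) (g : Fin R → Matrix ι ι ℚ)
    {W : Matrix ι ι (PowerSeries ℚ)} {N : Matrix ι ι ℚ} (hb : ∀ a c, GBound b.H (W a c))
    (h1 : g b.i₀ = 1) (h2 : ∀ β, W * cP (g β) = ∑ α, b.Φ α β • cP (g α))
    (h3 : ∀ β, N * g β = ∑ α, b.νl α β • g α) {z : ℝ → ι → ℂ} {z₀ : ι → ℂ} {t₁ : ℝ}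
    (hz : ∀ t : ℝ, t₁ < t →
      z t = (cevM W ((1 / t : ℝ) : ℂ) * cexpM (-((Real.log t : ℝ) : ℂ)) N).mulVec z₀) :
    Sparse z := by
  classical
  obtain ⟨c, hc1, hc⟩ := cev_fn b
  choose C₃ hC₃ using fun d : ℕ => values b d
  obtain ⟨t₂, ht₂⟩ := exists_nat_gt t₁
  set M := Fintype.card ι with hM
  set C₀ := ∑ d ∈ Finset.range (M + 1), C₃ d with hC₀
  have hC₀' : ∀ d, d ≤ M → C₃ d ≤ C₀ := fun d hd =>
    Finset.single_le_sum (f := C₃) (fun i _ => Nat.zero_le _)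
      (Finset.mem_range.mpr (Nat.lt_succ_of_le hd))
  refine ⟨C₀ + c + t₂ + b.H + 3, M, ?_⟩
  intro K s a hK haC haK hsep hs
  have hpow : ∀ {m n : ℕ}, m ≤ n → (K + 1) ^ m ≤ (K + 1) ^ n := fun h =>
    Nat.pow_le_pow_right (by omega) h
  have hK1 : ∀ n, n < (K + 1) ^ n := fun n => Nat.lt_pow_self (by omega)
  have hsbig : C₀ + c + t₂ + b.H + 3 < s :=
    lt_of_lt_of_le (hK1 _) hs
  have hs0 : (0 : ℝ) < s := by
    have : 0 < s := by omega
    exact_mod_cast this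
  by_contra hcon
  push Not at hcon
  choose l hl hl' using hcon
  set z' : ι → ℂ := (cexpM (-((Real.log (s : ℝ) : ℝ) : ℂ)) N).mulVec z₀ with hz'
  have key : ∀ t : ℝ, t₁ < t → (b.H : ℝ) < t → 0 < t → ∀ (w : ℝ), w = Real.log t - Real.log s →
      z t = (∑ α, ((cevM b.Φ ((1 / t : ℝ) : ℂ) * cexpM (-((w : ℝ) : ℂ)) b.νl) α b.i₀) •
        qC (g α)).mulVec z' := by
    intro t h1t hHt h0t w hw
    have hx : ‖((1 / t : ℝ) : ℂ)‖ < 1 / (b.H : ℝ) := by
      rw [Complex.norm_real, Real.norm_of_nonneg (by positivity)]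
      have : (0 : ℝ) < b.H := by
        have := b.hH
        exact_mod_cast (by omega : 0 < b.H)
      exact one_div_lt_one_div_of_lt this hHt
    rw [← block_val b g hb h1 h2 h3 hx (-((w : ℝ) : ℂ)), hz', Matrix.mulVec_mulVec, hz t h1t,
      Matrix.mul_assoc, ← cexpM_add, hw]
    congr 3
    push_cast
    ring_nf
  obtain ⟨j, hj⟩ := elim (le_of_eq hM.symm) (fun j α => Matrix.vecMul (l j) (g α))
    (fun j α => ((pev (b.fn (a j) α) s : ℝ) : ℂ)) (by
      intro k hk e he F hF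
      refine hC₃ k K (fun i => a (e i)) hK (fun i => haK _)
        (fun i => (hC₀' k hk).trans (le_trans (by omega) (haC (e i))))
        (fun i i' hii => ?_) s ((hpow (by have := hC₀' k hk; omega)).trans hs) F ?_
      · have := hC₀' k hk
        rcases hsep (e i) (e i') (fun h => hii (he h)) with h | h
        · left; omega
        · right; omega
      · have : ((∑ α, (F α : ℝ) * ∏ i, pev (b.fn (a (e i)) (α i)) s : ℝ) : ℂ) = 0 := by
          push_cast
          exact hF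
        exact_mod_cast this) z' (by
      intro j
      have hsa : ((s + a j : ℕ) : ℝ) = (s : ℝ) + a j := by push_cast; ring
      have hbig : (t₂ + b.H : ℝ) < (s + a j : ℕ) := by
        have : t₂ + b.H < s + a j := by omega
        exact_mod_cast this
      have hpos : (0 : ℝ) < (s + a j : ℕ) := by
        have : 0 < s + a j := by omega
        exact_mod_cast this
      have ht2 : (0 : ℝ) ≤ t₂ := Nat.cast_nonneg _
      have hH0 : (0 : ℝ) ≤ b.H := Nat.cast_nonneg _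
      have hk := key ((s + a j : ℕ) : ℝ) (by linarith) (by linarith) hpos _ rfl
      have hcf := hc (a j) s (by
        have e1 : c * (a j + 1) ^ 2 < s := by
          calc c * (a j + 1) ^ 2 ≤ c * (K + 1) ^ 2 :=
                Nat.mul_le_mul_left _ (Nat.pow_le_pow_left (by have := haK j; omega) 2)
            _ < (K + 1) ^ c * (K + 1) ^ 2 :=
                Nat.mul_lt_mul_of_pos_right (hK1 c) (by positivity)
            _ = (K + 1) ^ (c + 2) := (pow_add _ _ _).symm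
            _ ≤ (K + 1) ^ (C₀ + c + t₂ + b.H + 3) := hpow (by omega)
            _ ≤ s := hs
        exact_mod_cast e1)
      have e2 : Real.log (((s : ℝ) + a j) / s) =
          Real.log ((s + a j : ℕ) : ℝ) - Real.log s := by
        rw [Real.log_div (by positivity) (ne_of_gt hs0), hsa]
      rw [← bilin_block g _ (l j) z']
      have hlj := hl j
      rw [show ((s + a j : ℕ) : ℝ) = ((s + a j : ℕ) : ℝ) from rfl] at hlj
      rw [hk] at hlj
      rw [← hlj]
      have e3 : (∑ α, ((pev (b.fn (a j) α) s : ℝ) : ℂ) • qC (g α)) =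
          ∑ α, ((cevM b.Φ ((1 / ((s + a j : ℕ) : ℝ) : ℝ) : ℂ) *
            cexpM (-((Real.log ((s + a j : ℕ) : ℝ) - Real.log s : ℝ) : ℂ)) b.νl) α b.i₀) •
              qC (g α) := by
        refine Finset.sum_congr rfl fun α _ => ?_
        rw [hcf α, e2, hsa]
      rw [e3])
  refine hl' j ⟨fun x => C (l j x), fun x => eval_C, ?_⟩
  filter_upwards [Filter.eventually_gt_atTop t₁, Filter.eventually_gt_atTop (b.H : ℝ),
    Filter.eventually_gt_atTop 0] with t ht1 htH ht0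
  simp only [aeval_C, eq_ratCast]
  rw [key t ht1 htH ht0 _ rfl, bilin_block]
  exact Finset.sum_eq_zero fun α _ => by rw [hj α, mul_zero]

theorem coM_comm {π : Matrix ι ι ℚ} {A : Matrix ι ι ℚ[X]} (h : cX π * A = A * cX π) (n : ℕ) :
    π * coM n A = coM n A * π := by
  ext1 a b
  have h1 := congrArg (fun p : ℚ[X] => p.coeff n) (congrFun (congrFun h a) b)
  simpa [Matrix.mul_apply, coM_apply, cX_apply, finset_sum_coeff] using h1

theorem cX_coM_zero (π : Matrix ι ι ℚ) (n : ℕ) :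
    coM n (cX π) = if n = 0 then π else 0 := by
  ext1 a b
  rw [coM_apply, cX_apply, coeff_C]
  split_ifs <;> rfl

theorem evM_det_ne {Z : Matrix ι ι ℤ[X]} (hZ : Z.det ≠ 0) :
    ∃ t₂ : ℝ, ∀ t : ℝ, t₂ < t → (evM Z (t : ℂ)).det ≠ 0 := by
  have hdet : ∀ t : ℂ, (evM Z t).det = aeval t Z.det := fun t => by
    rw [evM, AlgHom.map_det]
    rfl
  have hfin : {t : ℝ | aeval (t : ℂ) Z.det = 0}.Finite := by
    have h1 : (Z.det.rootSet ℂ).Finite := Polynomial.rootSet_finite _ _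
    refine Set.Finite.of_finite_image (f := fun t : ℝ => (t : ℂ)) (h1.subset ?_)
      (Complex.ofReal_injective.injOn)
    rintro _ ⟨t, ht, rfl⟩
    rw [Polynomial.mem_rootSet]
    exact ⟨hZ, ht⟩
  obtain ⟨t₂, ht₂⟩ := hfin.bddAbove
  refine ⟨t₂, fun t ht h => ?_⟩
  rw [hdet] at h
  exact absurd (ht₂ (show t ∈ {t : ℝ | aeval (t : ℂ) Z.det = 0} from h)) (not_le.mpr ht)

/-- Sparsity of the bad integers: exponents `0` and `1/2`. -/
theorem lin1 {T : ℤ[X]} {A : Matrix ι ι ℚ[X]} {H : ℕ}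
    (hG : Galochkin (T.map (Int.castRingHom ℚ)) A H) {N₀ π : Matrix ι ι ℚ}
    (hR : IsRes (T.map (Int.castRingHom ℚ)) A (N₀ + (1 / 2 : ℚ) • π)) (hn : IsNilpotent N₀)
    (hπ : π * π = π) (hc : π * N₀ = N₀ * π) (hπA : cX π * A = A * cX π) {z : ℝ → ι → ℂ}
    (hz : IsSolR (T.map (Int.castRingHom ℚ)) A z) : Sparse z := by
  rcases isEmpty_or_nonempty ι with hι | hι
  · exact sparse_of_isEmpty z
  set T' := T.map (Int.castRingHom ℚ) with hT'
  have hT0 : T' ≠ 0 := hR.1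
  have hT : T ≠ 0 := by
    rintro rfl
    exact hT0 (by rw [hT', Polynomial.map_zero])
  have hinj : Function.Injective (Int.castRingHom ℚ) := Int.cast_injective
  -- the untwisted system
  set A₁ : Matrix ι ι ℚ[X] := (X : ℚ[X]) • A + T' • cX ((1 / 2 : ℚ) • π) with hA₁
  have eT₁ : (T * X).map (Int.castRingHom ℚ) = T' * X := by
    rw [Polynomial.map_mul, Polynomial.map_X]
  have he0 : emb T' ≠ 0 := fun h => hT0 (emb_injective (by rw [h, map_zero]))
  have heX : emb (X : ℚ[X]) ≠ 0 := fun h =>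
    (X_ne_zero : (X : ℚ[X]) ≠ 0) (emb_injective (by rw [h, map_zero]))
  have hxX : (emb (X : ℚ[X]))⁻¹ = xx := by
    rw [inv_eq_iff_eq_inv]
    exact eq_inv_of_mul_eq_one_left emb_X_mul_xx
  have hg1 : (emb ((T * X).map (Int.castRingHom ℚ)))⁻¹ • eM A₁ =
      (emb T')⁻¹ • eM A + xx • cM ((1 / 2 : ℚ) • π) := by
    rw [eT₁, hA₁, eM_add, eM_smul, eM_smul, eM_cX, map_mul, smul_add, smul_smul, smul_smul]
    congr 2
    · field_simp
    · rw [← hxX]
      field_simp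
  have hhalf : Half ((1 / 2 : ℚ) • π) := by
    refine ⟨1, ?_⟩
    rw [pow_one, smul_smul, Matrix.smul_mul, Matrix.mul_sub]
    norm_num
    rw [hπ, sub_self]
  obtain ⟨H₀, hH₀, hG₀⟩ := gal_const hhalf.half'
  have hG₁ : Galochkin ((T * X).map (Int.castRingHom ℚ)) A₁ (H * H₀) := by
    have := gal_mul hT (X_ne_zero : (X : ℤ[X]) ≠ 0) (B₁ := A) (B₂ := cX ((1 / 2 : ℚ) • π)) (by
      intro m n
      rw [cX_coM_zero]
      split_ifs
      · rw [Matrix.mul_smul, Matrix.smul_mul, coM_comm hπA m]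
      · rw [mul_zero, zero_mul]) hG hG₀
    rwa [Polynomial.map_X] at this
  have hπA₁ : cX π * A₁ = A₁ * cX π := by
    have e : cX π * cX ((1 / 2 : ℚ) • π) = cX ((1 / 2 : ℚ) • π) * cX π := by
      apply eM_injective
      rw [eM_mul, eM_mul, eM_cX, eM_cX, ← cM_mul, ← cM_mul, Matrix.mul_smul, Matrix.smul_mul]
    rw [hA₁, Matrix.mul_add, Matrix.add_mul, Matrix.mul_smul, Matrix.mul_smul, Matrix.smul_mul,
      Matrix.smul_mul, hπA, e]
  have hord := hR.ord
  have hR₁ : IsRes ((T * X).map (Int.castRingHom ℚ)) A₁ N₀ := by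
    refine isRes_of_ord ?_ ?_ ?_
    · rw [eT₁, natDegree_mul hT0 X_ne_zero, natDegree_X]
      omega
    · intro a b
      rw [hg1]
      intro i hi
      rw [Matrix.add_apply, HahnSeries.coeff_add, hord.1 a b i hi, zero_add, Matrix.smul_apply,
        smul_eq_mul, cM_apply, algebraMap_eq_single, xx, HahnSeries.single_mul_single,
        HahnSeries.coeff_single_of_ne (by omega)]
    · rw [hg1]
      ext1 a b
      have h2 := congrFun (congrFun hord.2 a) b
      rw [coL_apply] at h2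
      rw [coL_apply, Matrix.add_apply, HahnSeries.coeff_add, h2, Matrix.smul_apply,
        smul_eq_mul, cM_apply, algebraMap_eq_single, xx, HahnSeries.single_mul_single,
        show (1 : ℤ) + 0 = 1 from rfl, HahnSeries.coeff_single_same]
      simp
  obtain ⟨Y, hY0, hY₁, H₂, hH₂, hYb⟩ := exists_fund hR₁ hn
  obtain ⟨H₃, hH₃, hYd⟩ := den_fund hG₁ hR₁ hn hY₁ hY0
  have hYπ := fund_comm hR₁ hn hY₁ hY0 hπA₁ hc
  have hπA₂ : cX ((1 / 2 : ℚ) • π) * A₁ = A₁ * cX ((1 / 2 : ℚ) • π) := by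
    have e : cX ((1 / 2 : ℚ) • π) = (C (1 / 2 : ℚ) : ℚ[X]) • cX π := by
      ext1 a b
      rw [Matrix.smul_apply, cX_apply, cX_apply, Matrix.smul_apply, smul_eq_mul, smul_eq_mul, C_mul]
    rw [e, Matrix.smul_mul, Matrix.mul_smul, hπA₁]
  have hYπ' : pM Y * cM ((1 / 2 : ℚ) • π) = cM ((1 / 2 : ℚ) • π) * pM Y := by
    rw [← pM_cP, ← pM_mul, ← pM_mul, fund_comm hR₁ hn hY₁ hY0 hπA₂
      (by rw [Matrix.mul_smul, Matrix.smul_mul, hc])]
  have hY : IsFund T' A Y (N₀ + (1 / 2 : ℚ) • π) := by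
    rw [isFund_iff hT0]
    rw [isFund_iff hR₁.1, hg1] at hY₁
    rw [hY₁, cM_add, Matrix.mul_add, smul_add, Matrix.add_mul, Matrix.smul_mul xx, hYπ']
    abel
  set H₄ := H₂ + H₃ with hH₄
  obtain ⟨R, b, g, D, κ, Z, W, hκ, hZ, hW, hWb, h1, h2, h3⟩ := exists_block hG hR rfl hn hπ hc hY
    hY0 hYπ (H₁ := H₄) (fun a b => gbound_mono' (by omega) (hYb a b))
    (gden_mono' (by omega) hYd)
  obtain ⟨z₀, t₁, hz₀⟩ := sol_form hT0 (by omega : 1 ≤ H₂) hYb hY0 hY hz
  -- gauge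
  refine sparse_gauge hZ D ?_
  obtain ⟨t₂, ht₂⟩ := evM_det_ne hZ
  refine lin_core b g hWb h1 h2 h3 (z₀ := ((κ : ℂ)⁻¹) • z₀)
    (t₁ := max (max t₁ t₂) ((H₂ + b.H : ℕ) : ℝ)) ?_
  intro t ht
  have ht1 : t₁ < t := lt_of_le_of_lt ((le_max_left _ _).trans (le_max_left _ _)) ht
  have ht2 : t₂ < t := lt_of_le_of_lt ((le_max_right _ _).trans (le_max_left _ _)) ht
  have ht3 : ((H₂ + b.H : ℕ) : ℝ) < t := lt_of_le_of_lt (le_max_right _ _) ht
  have hκ' : (κ : ℂ) ≠ 0 := by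
    exact_mod_cast (by omega : κ ≠ 0)
  have hdet : IsUnit (evM Z (t : ℂ)).det := isUnit_iff_ne_zero.mpr (ht₂ t ht2)
  have hgv := gauge_val (H := H₂ + b.H) (by omega)
    (fun a c => gbound_mono' (by omega) (hYb a c)) (fun a c => gbound_mono' (by omega) (hWb a c))
    hW ht3
  have e4 : ((t : ℂ) ^ D) • ((evM Z (t : ℂ))⁻¹ * cevM Y ((1 / t : ℝ) : ℂ)) =
      ((κ : ℂ)⁻¹) • cevM W ((1 / t : ℝ) : ℂ) := by
    have e5 : cevM W ((1 / t : ℝ) : ℂ) =
        (evM Z (t : ℂ))⁻¹ * (((κ : ℂ) * (t : ℂ) ^ D) • cevM Y ((1 / t : ℝ) : ℂ)) := by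
      rw [hgv, ← Matrix.mul_assoc, Matrix.nonsing_inv_mul _ hdet, Matrix.one_mul]
    rw [e5, Matrix.mul_smul, smul_smul, ← mul_assoc, inv_mul_cancel₀ hκ', one_mul]
  rw [gz, hz₀ t ht1, Matrix.mulVec_mulVec, ← Matrix.mul_assoc, ← Matrix.smul_mulVec,
    ← Matrix.smul_mul, e4, Matrix.smul_mul, Matrix.smul_mulVec, Matrix.mulVec_smul]

end Pool.Agent.Helper79.GC
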