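import Pool.Agent.Helper79.GC.Lin1
import Pool.Agent.Helper79.GC.IntEigs
import Pool.Agent.Helper79.GC.GalDual

/-!
# GC-63: sparsity of the bad integers for a regular singular system with integral or half integral
exponents at infinity
-/

open Polynomial Filter Topology

namespace Pool.Agent.Helper79.GC

open Pool.Agent.Helper37.GP

variable {ι : Type} [Fintype ι] [DecidableEq ι]

theorem res_comm {T : ℚ[X]} {A : Matrix ι ι ℚ[X]} {N π : Matrix ι ι ℚ} (hR : IsRes T A N)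
    (hπ : cX π * A = A * cX π) : π * N = N * π := by
  have h1 := coM_comm hπ (T.natDegree - 1)
  rw [hR.2.2] at h1
  have h2 : T.leadingCoeff ≠ 0 := leadingCoeff_ne_zero.mpr hR.1
  rw [Matrix.mul_neg, Matrix.neg_mul, neg_inj, Matrix.mul_smul, Matrix.smul_mul] at h1
  have h3 := congrArg (fun M => (T.leadingCoeff)⁻¹ • M) h1
  simpa only [smul_smul, inv_mul_cancel₀ h2, one_smul] using h3

theorem gT_ne {T : ℤ[X]} (hT : T ≠ 0) {Z : Matrix ι ι ℤ[X]} (hZ : Z.det ≠ 0) (D : ℕ) :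
    gT T Z D ≠ 0 :=
  mul_ne_zero (mul_ne_zero (pow_ne_zero _ X_ne_zero) hT) (pow_ne_zero _ hZ)

theorem lin2_aux (n : ℕ) : ∀ (T : ℤ[X]) (A : Matrix ι ι ℚ[X]) (H : ℕ),
    Galochkin (T.map (Int.castRingHom ℚ)) A H → ∀ (N π : Matrix ι ι ℚ),
    IsRes (T.map (Int.castRingHom ℚ)) A N → π * π = π → cX π * A = A * cX π → ∀ (lo : ℤ),
    IntEig lo (lo + n) (N - (1 / 2 : ℚ) • π) → ∀ z : ℝ → ι → ℂ,
    IsSolR (T.map (Int.castRingHom ℚ)) A z → Sparse z := by
  induction n with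
  | zero =>
    intro T A H hG N π hR hπ hπA lo hint z hz
    have hT : T ≠ 0 := by
      rintro rfl
      exact hR.1 (by rw [Polynomial.map_zero])
    rw [Nat.cast_zero, add_zero] at hint
    obtain ⟨Z, D, hZ, hR', hπ', hn⟩ := shear_base hR hπA hint
    have hc := res_comm hR hπA
    refine sparse_gauge hZ D (lin1 (gal_gauge hT hG Z hZ D)
      (N₀ := N - (lo : ℚ) • 1 - (1 / 2 : ℚ) • π) (π := π) ?_ hn hπ ?_ hπ' (sol_gauge hT hZ D hz))
    · rw [sub_add_cancel]
      exact hR'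
    · rw [Matrix.mul_sub, Matrix.mul_sub, Matrix.sub_mul, Matrix.sub_mul, hc, Matrix.mul_smul,
        Matrix.mul_smul, Matrix.smul_mul, Matrix.smul_mul, Matrix.mul_one, Matrix.one_mul]
  | succ n ih =>
    intro T A H hG N π hR hπ hπA lo hint z hz
    have hT : T ≠ 0 := by
      rintro rfl
      exact hR.1 (by rw [Polynomial.map_zero])
    obtain ⟨Z, N', hZ, hR', hπ', hint'⟩ := shear_step hR hπA (lo := lo)
      (hi := lo + (n + 1 : ℕ)) (by push_cast; omega) hint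
    refine sparse_gauge hZ 1 (ih _ _ _ (gal_gauge hT hG Z hZ 1) N' π hR' hπ hπ' lo ?_ _
      (sol_gauge hT hZ 1 hz))
    have e : lo + ((n + 1 : ℕ) : ℤ) - 1 = lo + n := by push_cast; ring
    rwa [e] at hint'

/-- Sparsity of the bad integers. -/
theorem lin2 {T : ℤ[X]} {A : Matrix ι ι ℚ[X]} {H : ℕ}
    (hG : Galochkin (T.map (Int.castRingHom ℚ)) A H) {N π : Matrix ι ι ℚ}
    (hR : IsRes (T.map (Int.castRingHom ℚ)) A N) (hπ : π * π = π) (hπA : cX π * A = A * cX π)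
    {lo hi : ℤ} (hint : IntEig lo hi (N - (1 / 2 : ℚ) • π)) {z : ℝ → ι → ℂ}
    (hz : IsSolR (T.map (Int.castRingHom ℚ)) A z) : Sparse z := by
  refine lin2_aux (hi - lo).toNat T A H hG N π hR hπ hπA lo ?_ z hz
  refine intEig_mono le_rfl ?_ hint
  omega

end Pool.Agent.Helper79.GC
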