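import Pool.Agent.Helper79.GC.Defs
import Pool.Agent.Helper37.GP.Finals

/-!
# GC-61: from local sparsity to short intervals and counting

Compare `Pool.Agent.Helper37.GP.Finals` (`short_discrete`, `block_count`, `short_intervals`).
-/

open Filter Topology

namespace Pool.Agent.Helper79.GC

theorem sparse_discrete {E : Set ℕ} {D M : ℕ} (hD : 1 ≤ D)
    (h : ∀ (K s : ℕ) (a : Fin (M + 1) → ℕ), 1 ≤ K →
    (∀ j, D ≤ a j) → (∀ j, a j ≤ K) → (∀ i j, i ≠ j → a i + D ≤ a j ∨ a j + D ≤ a i) →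
    (K + 1) ^ D ≤ s → ∃ j, s + a j ∉ E) (K n : ℕ) (hn : (K + D + 1) ^ D + D ≤ n) :
    Set.ncard {i : ℕ | n ≤ i ∧ i ≤ n + K ∧ i ∈ E} ≤ M * D := by
  by_contra hcon
  push Not at hcon
  have hfin : {i : ℕ | n ≤ i ∧ i ≤ n + K ∧ i ∈ E}.Finite :=
    (Set.finite_Icc n (n + K)).subset fun i hi => ⟨hi.1, hi.2.1⟩
  set S := hfin.toFinset with hS
  have hcard : M * D < S.card := by
    rwa [Set.ncard_eq_toFinset_card _ hfin] at hcon
  obtain ⟨g, hg1, hg2⟩ := Pool.Agent.Helper37.GP.Count.exists_strictMono hcard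
  have hlt : ∀ j : Fin (M + 1), (j : ℕ) * D < M * D + 1 := by
    intro j
    have := Nat.mul_le_mul_right D (Nat.lt_succ_iff.mp j.2)
    omega
  have hmem : ∀ x, n ≤ g x ∧ g x ≤ n + K ∧ g x ∈ E := by
    intro x
    have := hg2 x
    rwa [hS, Set.Finite.mem_toFinset] at this
  have hgap : ∀ i j : Fin (M + 1), i < j → g ⟨i * D, hlt i⟩ + D ≤ g ⟨j * D, hlt j⟩ := by
    intro i j hij
    have hij' : (i : ℕ) < j := hij
    obtain ⟨t, ht⟩ : ∃ t, (j : ℕ) = i + 1 + t := ⟨j - i - 1, by omega⟩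
    have h2 := Pool.Agent.Helper37.GP.strictMono_gap hg1 ((1 + t) * D) (i * D) (j * D)
      (hlt i) (hlt j) (by rw [ht]; ring)
    have h3 : D ≤ (1 + t) * D := Nat.le_mul_of_pos_left _ (by omega)
    omega
  obtain ⟨j, hj⟩ := h (K + D) (n - D) (fun j => g ⟨j * D, hlt j⟩ + D - n) (by omega)
    (fun j => by have := hmem ⟨j * D, hlt j⟩; omega)
    (fun j => by have := hmem ⟨j * D, hlt j⟩; omega)
    (fun i j hij => by
      have h4 := hmem ⟨i * D, hlt i⟩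
      have h5 := hmem ⟨j * D, hlt j⟩
      rcases lt_or_gt_of_ne hij with h6 | h6
      · left
        have := hgap i j h6
        omega
      · right
        have := hgap j i h6
        omega) (by omega)
  apply hj
  have := hmem ⟨j * D, hlt j⟩
  have e : n - D + (g ⟨j * D, hlt j⟩ + D - n) = g ⟨j * D, hlt j⟩ := by omega
  rw [e]
  exact this.2.2

theorem sparse_count {E : Set ℕ} (h : ∃ C M : ℕ, ∀ (K s : ℕ) (a : Fin (M + 1) → ℕ), 1 ≤ K →
    (∀ j, C ≤ a j) → (∀ j, a j ≤ K) → (∀ i j, i ≠ j → a i + C ≤ a j ∨ a j + C ≤ a i) →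
    (K + 1) ^ C ≤ s → ∃ j, s + a j ∉ E) :
    ∃ (B : ℕ) (θ C : ℝ), 0 < θ ∧ θ < 1 ∧
      (∀ n : ℕ, 1 ≤ n → Set.ncard {i : ℕ | n ≤ i ∧ (i : ℝ) ≤ n + (n : ℝ) ^ θ ∧ i ∈ E} ≤ B) ∧
      ∀ X : ℕ, 1 ≤ X → (Set.ncard {n : ℕ | n ≤ X ∧ n ∈ E} : ℝ) ≤ C * (X : ℝ) ^ (1 - θ) := by
  obtain ⟨C₀, N, hC₀⟩ := h
  set D : ℕ := C₀ + 1 with hDdef
  have hD1 : 1 ≤ D := by omega
  have hdis := sparse_discrete (E := E) (D := D) (M := N) hD1
    (fun K s a hK h1 h2 h3 h4 => hC₀ K s a hK (fun j => by have := h1 j; omega) h2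
      (fun i j hij => by rcases h3 i j hij with h | h <;> omega)
      ((Nat.pow_le_pow_right (by omega) (by omega)).trans h4))
  set n₀ : ℕ := (2 * D + 2) ^ (2 * D) with hn₀
  set M : ℕ := N * D + n₀ + 1 with hM
  have hDr : (1 : ℝ) ≤ D := by exact_mod_cast hD1
  set θ₀ : ℝ := 1 / (2 * (D : ℝ)) with hθ₀
  have hθ₀0 : 0 < θ₀ := by positivity
  have hθ₀C : θ₀ * D = 1 / 2 := by
    rw [hθ₀]; field_simp
  have hθ₀h : θ₀ ≤ 1 / 2 := by
    rw [hθ₀, div_le_div_iff₀ (by positivity) (by norm_num)]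
    nlinarith
  -- intervals of length `n ^ θ₀`
  have key : ∀ n : ℕ, 1 ≤ n → ∀ L : ℕ, (L : ℝ) ≤ (n : ℝ) ^ θ₀ →
      Set.ncard {i : ℕ | n ≤ i ∧ i ≤ n + L ∧ i ∈ E} ≤ M := by
    intro n hn L hL
    have hn' : (1 : ℝ) ≤ n := by exact_mod_cast hn
    rcases Nat.lt_or_ge n n₀ with hlt | hge
    · have hLn : L ≤ n := by
        have : (L : ℝ) ≤ (n : ℝ) := hL.trans (by
          calc (n : ℝ) ^ θ₀ ≤ (n : ℝ) ^ (1 : ℝ) :=
                Real.rpow_le_rpow_of_exponent_le hn' (by linarith)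
            _ = n := Real.rpow_one _)
        exact_mod_cast this
      have hsub : {i : ℕ | n ≤ i ∧ i ≤ n + L ∧ i ∈ E} ⊆ (Finset.Icc n (n + L) : Set ℕ) := by
        intro i hi
        rw [Finset.coe_Icc]
        exact ⟨hi.1, hi.2.1⟩
      refine (Set.ncard_le_ncard hsub (Finset.finite_toSet _)).trans ?_
      rw [Set.ncard_coe_finset, Nat.card_Icc]
      omega
    · refine (hdis L n ?_).trans (by omega)
      -- `(L + D + 1)^D + D ≤ n`
      have hge' : ((2 * (D : ℝ) + 2) ^ (2 * D)) ≤ (n : ℝ) := by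
        have : ((n₀ : ℕ) : ℝ) ≤ n := by exact_mod_cast hge
        rw [hn₀] at this
        push_cast at this
        exact this
      have hx : (2 * (D : ℝ) + 2) ≤ (n : ℝ) ^ θ₀ := by
        calc (2 * (D : ℝ) + 2) = ((2 * (D : ℝ) + 2) ^ (2 * D)) ^ θ₀ := by
              rw [← Real.rpow_natCast, ← Real.rpow_mul (by positivity)]
              have : ((2 * D : ℕ) : ℝ) * θ₀ = 1 := by
                push_cast
                nlinarith
              rw [this, Real.rpow_one]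
          _ ≤ (n : ℝ) ^ θ₀ := Real.rpow_le_rpow (by positivity) hge' hθ₀0.le
      have hy : ((n : ℝ) ^ θ₀) ^ D = (n : ℝ) ^ (1 / 2 : ℝ) := by
        rw [← Real.rpow_natCast, ← Real.rpow_mul (by positivity), hθ₀C]
      have hz : ((n : ℝ) ^ (1 / 2 : ℝ)) * ((n : ℝ) ^ (1 / 2 : ℝ)) = n := by
        rw [← Real.rpow_add (by positivity)]
        norm_num
      have h3 : ((L : ℝ) + D + 1) ≤ 2 * (n : ℝ) ^ θ₀ := by linarith
      have h4 : ((L : ℝ) + D + 1) ^ D ≤ 2 ^ D * (n : ℝ) ^ (1 / 2 : ℝ) := by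
        calc ((L : ℝ) + D + 1) ^ D ≤ (2 * (n : ℝ) ^ θ₀) ^ D :=
              pow_le_pow_left₀ (by positivity) h3 _
          _ = 2 ^ D * (n : ℝ) ^ (1 / 2 : ℝ) := by rw [mul_pow, hy]
      have h5 : (2 : ℝ) ^ D * (1 + D) ≤ (n : ℝ) ^ (1 / 2 : ℝ) := by
        calc (2 : ℝ) ^ D * (1 + D) ≤ 2 ^ D * (1 + D) ^ D :=
              mul_le_mul_of_nonneg_left (le_self_pow₀ (by linarith) (by omega)) (by positivity)
          _ = (2 * (D : ℝ) + 2) ^ D := by rw [← mul_pow]; ring_nf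
          _ ≤ ((n : ℝ) ^ θ₀) ^ D := pow_le_pow_left₀ (by positivity) hx _
          _ = (n : ℝ) ^ (1 / 2 : ℝ) := hy
      have h6 : (1 : ℝ) ≤ 2 ^ D := one_le_pow₀ (by norm_num)
      have h7 : (1 : ℝ) ≤ (n : ℝ) ^ (1 / 2 : ℝ) := Real.one_le_rpow hn' (by norm_num)
      have h8 : ((L : ℝ) + D + 1) ^ D + D ≤ n := by
        have e1 : (2 : ℝ) ^ D * (n : ℝ) ^ (1 / 2 : ℝ) + D ≤
            (2 ^ D + D) * (n : ℝ) ^ (1 / 2 : ℝ) := by nlinarith
        have e2 : (2 : ℝ) ^ D + D ≤ 2 ^ D * (1 + D) := by nlinarith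
        have e3 : ((2 : ℝ) ^ D + D) * (n : ℝ) ^ (1 / 2 : ℝ) ≤
            (n : ℝ) ^ (1 / 2 : ℝ) * (n : ℝ) ^ (1 / 2 : ℝ) :=
          mul_le_mul_of_nonneg_right (e2.trans h5) (by positivity)
        linarith
      exact_mod_cast h8
  refine ⟨M, θ₀ / 2, (4 + 2 * M : ℝ), by positivity, by linarith, ?_, ?_⟩
  · intro n hn
    have hn' : (1 : ℝ) ≤ n := by exact_mod_cast hn
    set L := ⌊(n : ℝ) ^ (θ₀ / 2)⌋₊ with hL
    have hL1 : (L : ℝ) ≤ (n : ℝ) ^ θ₀ := by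
      refine (Nat.floor_le (by positivity)).trans ?_
      exact Real.rpow_le_rpow_of_exponent_le hn' (by linarith)
    refine le_trans (Set.ncard_le_ncard ?_ ?_) (key n hn L hL1)
    · intro i hi
      obtain ⟨h2, h3, h4⟩ := hi
      refine ⟨h2, ?_, h4⟩
      have h5 : ((i - n : ℕ) : ℝ) ≤ (n : ℝ) ^ (θ₀ / 2) := by
        rw [Nat.cast_sub h2]; linarith
      have h6 : i - n ≤ L := Nat.le_floor h5
      omega
    · exact (Set.finite_Icc n (n + L)).subset fun i hi => ⟨hi.1, hi.2.1⟩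
  · intro T hT
    have hT' : (1 : ℝ) ≤ T := by exact_mod_cast hT
    set K := ⌊(T : ℝ) ^ (θ₀ / 2)⌋₊ with hK
    set n₁ := ⌈(T : ℝ) ^ (1 / 2 : ℝ)⌉₊ with hn₁
    have hn₁1 : (T : ℝ) ^ (1 / 2 : ℝ) ≤ n₁ := Nat.le_ceil _
    have hTh : (1 : ℝ) ≤ (T : ℝ) ^ (1 / 2 : ℝ) := Real.one_le_rpow hT' (by norm_num)
    have hb := Pool.Agent.Helper37.GP.block_count (E := E) (M := M) (K := K) (n₁ := n₁)
      (T := T) (by
      intro n hn
      have hnn : (n₁ : ℝ) ≤ n := by exact_mod_cast hn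
      have h1n : 1 ≤ n := by
        have : (1 : ℝ) ≤ n := hTh.trans (hn₁1.trans hnn)
        exact_mod_cast this
      refine key n h1n K ?_
      calc (K : ℝ) ≤ (T : ℝ) ^ (θ₀ / 2) := Nat.floor_le (by positivity)
        _ = ((T : ℝ) ^ (1 / 2 : ℝ)) ^ θ₀ := by
            rw [← Real.rpow_mul (by positivity)]; congr 1; ring
        _ ≤ (n : ℝ) ^ θ₀ := Real.rpow_le_rpow (by positivity) (hn₁1.trans hnn) hθ₀0.le)
    have hbr : (Set.ncard {n : ℕ | n ≤ T ∧ n ∈ E} : ℝ) ≤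
        ((n₁ : ℝ) + K + 1) + M * ((T / (K + 1) : ℕ) + 1) := by exact_mod_cast hb
    refine hbr.trans ?_
    have q0 : (0 : ℝ) ≤ M := by positivity
    have hp : (1 : ℝ) ≤ (T : ℝ) ^ (1 - θ₀ / 2) := Real.one_le_rpow hT' (by linarith)
    have q1 : (n₁ : ℝ) ≤ 2 * (T : ℝ) ^ (1 - θ₀ / 2) := by
      have h2 : (n₁ : ℝ) < (T : ℝ) ^ (1 / 2 : ℝ) + 1 := Nat.ceil_lt_add_one (by positivity)
      have h3 : (T : ℝ) ^ (1 / 2 : ℝ) ≤ (T : ℝ) ^ (1 - θ₀ / 2) :=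
        Real.rpow_le_rpow_of_exponent_le hT' (by linarith)
      linarith
    have q2 : (K : ℝ) ≤ (T : ℝ) ^ (1 - θ₀ / 2) :=
      (Nat.floor_le (by positivity)).trans
        (Real.rpow_le_rpow_of_exponent_le hT' (by linarith))
    have q3 : ((T / (K + 1) : ℕ) : ℝ) ≤ (T : ℝ) ^ (1 - θ₀ / 2) := by
      have h2 : ((T / (K + 1) : ℕ) : ℝ) ≤ (T : ℝ) / ((K : ℝ) + 1) := by
        have := @Nat.cast_div_le ℝ _ _ _ T (K + 1)
        push_cast at this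
        exact this
      have h3 : (T : ℝ) ^ (θ₀ / 2) ≤ (K : ℝ) + 1 := (Nat.lt_floor_add_one _).le
      have h4 : 0 < (T : ℝ) ^ (θ₀ / 2) := by positivity
      calc ((T / (K + 1) : ℕ) : ℝ) ≤ (T : ℝ) / ((K : ℝ) + 1) := h2
        _ ≤ (T : ℝ) / (T : ℝ) ^ (θ₀ / 2) := div_le_div_of_nonneg_left (by positivity) h4 h3
        _ = (T : ℝ) ^ (1 - θ₀ / 2) := by
            rw [Real.rpow_sub (by positivity), Real.rpow_one]
    nlinarith

end Pool.Agent.Helper79.GC
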