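import Pool.Agent.Helper79.GC.Lin2
import Pool.Agent.Helper79.GC.WordSys
import Pool.Agent.Helper79.GC.RelBad
import Pool.Agent.Helper79.GC.SparseCount
import Pool.Agent.Helper79.GC.CharEig

/-!
# GC-65: the general theorem
-/

open Polynomial Filter Topology

namespace Pool.Agent.Helper79.GC

open Pool.Agent.Helper37.GP Pool.Agent.Helper64.Per

variable {ι : Type} [Fintype ι] [DecidableEq ι]

/-- Sparsity of the bad integers for the words. -/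
theorem word_sparse [Nonempty ι] {T : ℤ[X]} {A : Matrix ι ι ℚ[X]} {H : ℕ}
    (hG : Galochkin (T.map (Int.castRingHom ℚ)) A H) {N : Matrix ι ι ℚ}
    (hR : IsRes (T.map (Int.castRingHom ℚ)) A N)
    (hint : (∃ lo hi : ℤ, IntEig lo hi N) ∨ ∃ lo hi : ℤ, IntEig lo hi (N - (1 / 2 : ℚ) • 1))
    {P : ℂ → Matrix ι ι ℂ}
    (hP : ∃ t₀ : ℝ, ∀ t : ℝ, t₀ < t → ∀ i k, HasDerivAt (fun t : ℝ => P (t : ℂ) i k)
      ((aeval (t : ℂ) (T.map (Int.castRingHom ℚ)))⁻¹ * ∑ j, aeval (t : ℂ) (A i j) *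
        P (t : ℂ) j k) t) (δ : ℕ) : Sparse (wz δ P) := by
  have hT1 : 1 ≤ (T.map (Int.castRingHom ℚ)).natDegree := by
    obtain ⟨i⟩ := ‹Nonempty ι›
    have := hR.2.1 i i
    omega
  obtain ⟨H', hG'⟩ := word_gal hR.1 hG δ
  have hR' := word_res hR hT1 δ
  have hz := word_sol hP δ
  rcases hint with ⟨lo, hi, h⟩ | ⟨lo, hi, h⟩
  · obtain ⟨lo', hi', h'⟩ := intEig_word h δ
    refine lin2 (π := 0) hG' hR' (by simp) ?_ (lo := lo') (hi := hi') (by simpa using h') hz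
    have : (cX (0 : Matrix (Fin δ → Option (ι × ι)) (Fin δ → Option (ι × ι)) ℚ)) = 0 := by
      ext1 a b
      simp [cX_apply]
    rw [this, zero_mul, mul_zero]
  · obtain ⟨lo', hi', h'⟩ := intEig_word_half h δ
    exact lin2 hG' hR' (par_idem δ) (par_comm δ A) h' hz

theorem mainA [Nonempty ι] {T : ℤ[X]} {A : Matrix ι ι ℚ[X]} {H : ℕ}
    (hG : Galochkin (T.map (Int.castRingHom ℚ)) A H) {N : Matrix ι ι ℚ}
    (hR : IsRes (T.map (Int.castRingHom ℚ)) A N)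
    (hint : (∃ lo hi : ℤ, IntEig lo hi N) ∨ ∃ lo hi : ℤ, IntEig lo hi (N - (1 / 2 : ℚ) • 1))
    {U : Set ℂ} (hU : IsOpen U) (hU' : IsPreconnected U) {t₀ : ℝ}
    (ht : ∀ t : ℝ, t₀ < t → (t : ℂ) ∈ U) {P : ℂ → Matrix ι ι ℂ}
    (hP : ∀ i k, AnalyticOnNhd ℂ (fun t => P t i k) U) (hdet : ∀ t ∈ U, IsUnit (P t).det)
    (hode : ∀ t ∈ U, ∀ i k, aeval t T * deriv (fun t => P t i k) t =
      ∑ j, aeval t (A i j) * P t j k) (δ : ℕ) :
    ∃ (B : ℕ) (θ C : ℝ), 0 < θ ∧ θ < 1 ∧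
      (∀ n : ℕ, 1 ≤ n → Set.ncard {i : ℕ | n ≤ i ∧ (i : ℝ) ≤ n + (n : ℝ) ^ θ ∧
        ((i : ℂ) ∈ U ∧ HasRelation U P (i : ℂ) ⊥ δ)} ≤ B) ∧
      ∀ X : ℕ, 1 ≤ X → (Set.ncard {i : ℕ | i ≤ X ∧
        ((i : ℂ) ∈ U ∧ HasRelation U P (i : ℂ) ⊥ δ)} : ℝ) ≤ C * (X : ℝ) ^ (1 - θ) := by
  have hT : T ≠ 0 := by
    rintro rfl
    exact hR.1 (by rw [Polynomial.map_zero])
  have haev : ∀ t : ℂ, aeval t (T.map (Int.castRingHom ℚ)) = aeval t T := fun t => by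
    rw [aeval_def, aeval_def, eval₂_map]
    congr 1
  -- the roots of `T`
  obtain ⟨t₁, ht₁⟩ : ∃ t₁ : ℝ, ∀ t : ℝ, t₁ < t → aeval (t : ℂ) T ≠ 0 := by
    have := evM_det_ne (ι := Unit) (Z := Matrix.of fun _ _ => T) (by simpa using hT)
    obtain ⟨t₁, h⟩ := this
    refine ⟨t₁, fun t htt h0 => h t htt ?_⟩
    rw [evM, Matrix.det_unique]
    exact h0
  have hsp : Sparse (wz δ P) := by
    refine word_sparse hG hR hint ⟨max t₀ t₁, fun t htt i k => ?_⟩ δ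
    have hU1 : (t : ℂ) ∈ U := ht t (lt_of_le_of_lt (le_max_left _ _) htt)
    have h1 : DifferentiableAt ℂ (fun t => P t i k) (t : ℂ) :=
      (hP i k (t : ℂ) hU1).differentiableAt
    have h2 := h1.hasDerivAt.comp_ofReal
    have h3 := hode (t : ℂ) hU1 i k
    have h4 := ht₁ t (lt_of_le_of_lt (le_max_right _ _) htt)
    rw [haev, ← h3, ← mul_assoc, inv_mul_cancel₀ h4, one_mul]
    exact h2
  obtain ⟨C, M, hCM⟩ := hsp
  refine sparse_count ⟨C, M, fun K s a hK haC haK hsep hs => ?_⟩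
  obtain ⟨j, hj⟩ := hCM K s a hK haC haK hsep hs
  refine ⟨j, fun hmem => hj ?_⟩
  have hmem' : ((s + a j : ℕ) : ℂ) ∈ U ∧ HasRelation U P ((s + a j : ℕ) : ℂ) ⊥ δ := hmem
  exact rel_bad hU hU' ht hP (hdet _ hmem'.1) hmem'.2

end Pool.Agent.Helper79.GC
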