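import Pool.Agent.Helper79.GC.MainA
import Pool.Agent.Helper79.GC.GaugeWord

/-!
# GC-66: the general theorem, in an arbitrary basis
-/

open Polynomial Filter Topology

namespace Pool.Agent.Helper79.GC

open Pool.Agent.Helper37.GP Pool.Agent.Helper64.Per

variable {ι : Type} [Fintype ι] [DecidableEq ι]

theorem mainA2 [Nonempty ι] {T : ℤ[X]} {A : Matrix ι ι ℚ[X]}
    (hG : ∃ H : ℕ, Galochkin (T.map (Int.castRingHom ℚ)) A H)
    (hdeg : ∀ i j, (A i j).natDegree + 1 ≤ T.natDegree) {N : Matrix ι ι ℚ}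
    (hN : ∀ i j, (A i j).coeff (T.natDegree - 1) = -((T.leadingCoeff : ℚ) * N i j))
    (hexp : (∀ z : ℂ, (N.charpoly.map (algebraMap ℚ ℂ)).IsRoot z → ∃ k : ℤ, z = k) ∨
      ∀ z : ℂ, (N.charpoly.map (algebraMap ℚ ℂ)).IsRoot z → ∃ k : ℤ, z = k + 1 / 2)
    {U : Set ℂ} (hU : IsOpen U) (hU' : IsPreconnected U) {t₀ : ℝ}
    (ht : ∀ t : ℝ, t₀ < t → (t : ℂ) ∈ U) {Z : Matrix ι ι ℤ[X]} (hZ : Z.det ≠ 0)
    {P Q : ℂ → Matrix ι ι ℂ} (hQ : ∀ i k, AnalyticOnNhd ℂ (fun t => Q t i k) U)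
    (hode : ∀ t ∈ U, ∀ i k, aeval t T * deriv (fun t => Q t i k) t =
      ∑ j, aeval t (A i j) * Q t j k)
    (hPQ : ∀ t ∈ U, P t = Z.map (fun p => aeval t p) * Q t)
    (hdet : ∀ t ∈ U, IsUnit (P t).det) (δ : ℕ) :
    ∃ (B : ℕ) (θ C : ℝ), 0 < θ ∧ θ < 1 ∧
      (∀ n : ℕ, 1 ≤ n → Set.ncard {i : ℕ | n ≤ i ∧ (i : ℝ) ≤ n + (n : ℝ) ^ θ ∧
        ((i : ℂ) ∈ U ∧ HasRelation U P (i : ℂ) ⊥ δ)} ≤ B) ∧
      ∀ X : ℕ, 1 ≤ X → (Set.ncard {i : ℕ | i ≤ X ∧
        ((i : ℂ) ∈ U ∧ HasRelation U P (i : ℂ) ⊥ δ)} : ℝ) ≤ C * (X : ℝ) ^ (1 - θ) := by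
  obtain ⟨H, hG⟩ := hG
  have hT : T ≠ 0 := by
    rintro rfl
    obtain ⟨i⟩ := ‹Nonempty ι›
    have := hdeg i i
    rw [natDegree_zero] at this
    omega
  have hinj : Function.Injective (Int.castRingHom ℚ) := fun a b hab => by
    simpa using hab
  have hT' : T.map (Int.castRingHom ℚ) ≠ 0 := fun h => hT
    ((Polynomial.map_injective _ hinj) (by rw [h, Polynomial.map_zero]))
  have hTd : (T.map (Int.castRingHom ℚ)).natDegree = T.natDegree :=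
    natDegree_map_eq_of_injective hinj T
  have hTl : (T.map (Int.castRingHom ℚ)).leadingCoeff = (T.leadingCoeff : ℚ) := by
    rw [leadingCoeff_map_of_injective hinj]
    rfl
  have hR : IsRes (T.map (Int.castRingHom ℚ)) A N := by
    refine ⟨hT', fun a b => by rw [hTd]; exact hdeg a b, ?_⟩
    ext1 a b
    rw [coM_apply, hTd, hN a b, hTl, Matrix.neg_apply, Matrix.smul_apply, smul_eq_mul]
  have hint : (∃ lo hi : ℤ, IntEig lo hi N) ∨ ∃ lo hi : ℤ, IntEig lo hi (N - (1 / 2 : ℚ) • 1) :=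
    hexp.imp intEig_of_charpoly intEig_of_charpoly_half
  have haev : ∀ t : ℂ, aeval t (T.map (Int.castRingHom ℚ)) = aeval t T := fun t => by
    rw [aeval_def, aeval_def, eval₂_map]
    congr 1
  obtain ⟨t₁, ht₁⟩ : ∃ t₁ : ℝ, ∀ t : ℝ, t₁ < t → aeval (t : ℂ) T ≠ 0 := by
    have := evM_det_ne (ι := Unit) (Z := Matrix.of fun _ _ => T) (by simpa using hT)
    obtain ⟨t₁, h⟩ := this
    refine ⟨t₁, fun t htt h0 => h t htt ?_⟩
    rw [evM, Matrix.det_unique]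
    exact h0
  have hsp : Sparse (wz δ Q) := by
    refine word_sparse hG hR hint ⟨max t₀ t₁, fun t htt i k => ?_⟩ δ
    have hU1 : (t : ℂ) ∈ U := ht t (lt_of_le_of_lt (le_max_left _ _) htt)
    have h1 : DifferentiableAt ℂ (fun t => Q t i k) (t : ℂ) :=
      (hQ i k (t : ℂ) hU1).differentiableAt
    have h2 := h1.hasDerivAt.comp_ofReal
    have h3 := hode (t : ℂ) hU1 i k
    have h4 := ht₁ t (lt_of_le_of_lt (le_max_right _ _) htt)
    rw [haev, ← h3, ← mul_assoc, inv_mul_cancel₀ h4, one_mul]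
    exact h2
  have hsp' : Sparse (wz δ P) := by
    refine sparse_word_gauge hZ ?_ hsp
    filter_upwards [Filter.eventually_gt_atTop t₀] with t htt
    exact hPQ _ (ht t htt)
  have hP : ∀ i k, AnalyticOnNhd ℂ (fun t => P t i k) U := by
    intro i k
    have h1 : AnalyticOnNhd ℂ (fun t => ∑ j, aeval t (Z i j) * Q t j k) U := by
      refine Finset.analyticOnNhd_fun_sum _ fun j _ => ?_
      refine AnalyticOnNhd.mul ?_ (hQ j k)
      exact (AnalyticOnNhd.aeval_polynomial analyticOnNhd_id (Z i j))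
    refine h1.congr hU fun t htU => ?_
    show _ = P t i k
    rw [hPQ t htU, Matrix.mul_apply]
    rfl
  obtain ⟨C, M, hCM⟩ := hsp'
  refine sparse_count ⟨C, M, fun K s a hK haC haK hsep hs => ?_⟩
  obtain ⟨j, hj⟩ := hCM K s a hK haC haK hsep hs
  refine ⟨j, fun hmem => hj ?_⟩
  have hmem' : ((s + a j : ℕ) : ℂ) ∈ U ∧ HasRelation U P ((s + a j : ℕ) : ℂ) ⊥ δ := hmem
  exact rel_bad hU hU' ht hP (hdet _ hmem'.1) hmem'.2

end Pool.Agent.Helper79.GC
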