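import Pool.Agent.Helper79.GC.MainA
import Pool.Agent.Helper79.GC.HypGal
import Pool.Agent.Helper79.GC.HypRes
import Pool.Agent.Helper79.GC.HypExact
import Pool.Agent.Helper79.GC.GaugeWord

/-!
# GC-90: the family `y² = g(x) (x - t)`
-/

open Polynomial Filter Topology

namespace Pool.Agent.Helper79.GC

open Pool.Agent.Helper37.GP Pool.Agent.Helper64.Per

/-- Near every point of `U` the matrix `P` is a matrix of integrals of `x^i dx / y`,
`y² = g(x)(x - t)`, over fixed closed loops. -/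
def IsPeriodMatrix (g : ℚ[X]) (n : ℕ) (U : Set ℂ) (P : ℂ → Matrix (Fin n) (Fin n) ℂ) : Prop :=
  ∀ t₁ ∈ U, ∃ V : Set ℂ, IsOpen V ∧ t₁ ∈ V ∧
    ∃ (γ : Fin n → ℝ → ℂ) (y : Fin n → ℂ → ℝ → ℂ), (∀ j, LoopData g V (γ j) (y j)) ∧
      ∀ t ∈ V, ∀ i j, P t i j = ∫ s in (0 : ℝ)..1, (γ j s) ^ (i : ℕ) * deriv (γ j) s / y j t s

/-- The binomial matrix. -/
noncomputable def umat (n : ℕ) (t : ℂ) : Matrix (Fin n) (Fin n) ℂ :=
  Matrix.of fun i a => if (a : ℕ) ≤ i then (((i : ℕ).choose a : ℕ) : ℂ) * (-t) ^ ((i : ℕ) - a)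
    else 0

theorem sum_fin_range {n : ℕ} (i : Fin n) (f : ℕ → ℂ) :
    ∑ a : Fin n, (if (a : ℕ) ≤ i then f a else 0) = ∑ a ∈ Finset.range ((i : ℕ) + 1), f a := by
  rw [Fin.sum_univ_eq_sum_range (fun a => if a ≤ (i : ℕ) then f a else 0) n]
  rw [← Finset.sum_filter]
  refine Finset.sum_congr ?_ fun _ _ => rfl
  ext a
  simp only [Finset.mem_filter, Finset.mem_range]
  have := i.2
  omega

theorem umat_mul_apply {n : ℕ} (t : ℂ) (M : Matrix (Fin n) (Fin n) ℂ) (F : ℕ → ℂ) (i j : Fin n)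
    (hF : ∀ a : Fin n, M a j = F a) :
    (umat n t * M) i j = ∑ a ∈ Finset.range ((i : ℕ) + 1),
      (((i : ℕ).choose a : ℕ) : ℂ) * (-t) ^ ((i : ℕ) - a) * F a := by
  rw [Matrix.mul_apply, ← sum_fin_range i
    (fun a => (((i : ℕ).choose a : ℕ) : ℂ) * (-t) ^ ((i : ℕ) - a) * F a)]
  refine Finset.sum_congr rfl fun a _ => ?_
  rw [umat, Matrix.of_apply, hF a]
  split_ifs
  · rfl
  · rw [zero_mul]

section

variable {g : ℚ[X]} {n : ℕ} {U : Set ℂ} {P : ℂ → Matrix (Fin n) (Fin n) ℂ}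

/-- The derivatives of the integrals of `(x - t)^i dx / y`. -/
theorem pz_hasDerivAt (hP : IsPeriodMatrix g n U P) {t : ℂ} (ht : t ∈ U) (i j : Fin n) :
    ((i : ℕ) ≠ 0 → ∀ i' : Fin n, (i' : ℕ) + 1 = i →
      HasDerivAt (fun t => (umat n t * P t) i j)
        ((1 / 2 - ((i : ℕ) : ℂ)) * (umat n t * P t) i' j) t) ∧
    ((i : ℕ) = 0 → ∃ d : ℂ, HasDerivAt (fun t => (umat n t * P t) i j) d t ∧
      (g.natDegree ≤ n → 2 * aeval t g * d = ∑ k : Fin n,
        ((k : ℕ) : ℂ) * aeval t (hasseDeriv ((k : ℕ) + 1) g) * (umat n t * P t) k j)) := by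
  obtain ⟨V, hV, htV, γ, y, hL, hPV⟩ := hP t ht
  have key : ∀ (k : Fin n) (t' : ℂ), t' ∈ V →
      (umat n t' * P t') k j = loopI (γ j) (y j) ((k : ℕ) : ℤ) t' := by
    intro k t' ht'
    rw [loop_binom (hL j) k ht']
    exact umat_mul_apply t' (P t') (fun a => ∫ s in (0 : ℝ)..1, (γ j s) ^ a *
      deriv (γ j) s / y j t' s) k j (fun a => hPV t' ht' a j)
  have hev : ∀ k : Fin n, (fun t' => (umat n t' * P t') k j) =ᶠ[𝓝 t]
      loopI (γ j) (y j) ((k : ℕ) : ℤ) := by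
    intro k
    filter_upwards [hV.mem_nhds htV] with t' ht'
    exact key k t' ht'
  refine ⟨fun hi i' hi' => ?_, fun hi => ?_⟩
  · have h1 := loop_deriv hV (hL j) ((i : ℕ) : ℤ) htV
    rw [key i' t htV]
    have e : (((i : ℕ) : ℤ) - 1) = ((i' : ℕ) : ℤ) := by omega
    rw [e] at h1
    refine (h1.congr_of_eventuallyEq (hev i)).congr_deriv ?_
    push_cast
    rfl
  · have h1 := loop_deriv hV (hL j) ((i : ℕ) : ℤ) htV
    refine ⟨_, h1.congr_of_eventuallyEq (hev i), fun hn => ?_⟩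
    rw [hi]
    have e : (((0 : ℕ) : ℤ) - 1) = -1 := by norm_num
    rw [e]
    have h2 := loop_exact hV (hL j) htV
    have h3 : ∑ k : Fin n, ((k : ℕ) : ℂ) * aeval t (hasseDeriv ((k : ℕ) + 1) g) *
        (umat n t * P t) k j = ∑ k ∈ Finset.range g.natDegree,
          (k : ℂ) * aeval t (hasseDeriv (k + 1) g) * loopI (γ j) (y j) k t := by
      obtain ⟨F, hF⟩ : ∃ F : ℕ → ℂ, F = fun k : ℕ => (k : ℂ) *
          aeval t (hasseDeriv (k + 1) g) * loopI (γ j) (y j) k t := ⟨_, rfl⟩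
      have h4 : ∑ k : Fin n, ((k : ℕ) : ℂ) * aeval t (hasseDeriv ((k : ℕ) + 1) g) *
          (umat n t * P t) k j = ∑ k : Fin n, F (k : ℕ) :=
        Finset.sum_congr rfl fun k _ => by rw [key k t htV, hF]
      have h5 : ∑ k ∈ Finset.range g.natDegree, (k : ℂ) * aeval t (hasseDeriv (k + 1) g) *
          loopI (γ j) (y j) k t = ∑ k ∈ Finset.range g.natDegree, F k := by rw [hF]
      rw [h4, h5, Fin.sum_univ_eq_sum_range F n]
      symm
      refine Finset.sum_subset (Finset.range_mono hn) fun k _ hk => ?_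
      rw [Finset.mem_range, not_lt] at hk
      have : hasseDeriv (k + 1) g = 0 := by
        rw [Polynomial.hasseDeriv_eq_zero_of_lt_natDegree]
        omega
      rw [hF]
      simp [this]
    rw [h3, ← h2]
    push_cast
    ring

theorem pz_analytic (hU : IsOpen U) (hP : IsPeriodMatrix g n U P) (i j : Fin n) :
    AnalyticOnNhd ℂ (fun t => (umat n t * P t) i j) U := by
  refine DifferentiableOn.analyticOnNhd (fun t ht => ?_) hU
  obtain ⟨h1, h2⟩ := pz_hasDerivAt hP ht i j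
  rcases Nat.eq_zero_or_pos (i : ℕ) with hi | hi
  · obtain ⟨d, hd, _⟩ := h2 hi
    exact hd.differentiableAt.differentiableWithinAt
  · exact (h1 (by omega) ⟨(i : ℕ) - 1, by omega⟩ (by
      show (i : ℕ) - 1 + 1 = i
      omega)).differentiableAt.differentiableWithinAt

theorem per_analytic (hU : IsOpen U) (hP : IsPeriodMatrix g n U P) (i j : Fin n) :
    AnalyticOnNhd ℂ (fun t => P t i j) U := by
  obtain ⟨i, hi⟩ := i
  induction i using Nat.strong_induction_on with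
  | _ i ih =>
    have h1 := pz_analytic hU hP ⟨i, hi⟩ j
    have h2 : (fun t => P t ⟨i, hi⟩ j) = fun t => (umat n t * P t) ⟨i, hi⟩ j -
        ∑ a : Fin n, (if (a : ℕ) < i then ((i.choose a : ℕ) : ℂ) * (-t) ^ (i - (a : ℕ)) else 0) *
          P t a j := by
      funext t
      rw [Matrix.mul_apply, ← Finset.sum_sub_distrib]
      rw [Finset.sum_eq_single (⟨i, hi⟩ : Fin n)]
      · simp [umat]
      · intro a _ ha
        have ha' : (a : ℕ) ≠ i := fun h => ha (Fin.ext h)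
        rw [umat, Matrix.of_apply]
        by_cases h : (a : ℕ) < i
        · rw [if_pos (show (a : ℕ) ≤ ((⟨i, hi⟩ : Fin n) : ℕ) from h.le), if_pos h, sub_self]
        · rw [if_neg (show ¬ (a : ℕ) ≤ ((⟨i, hi⟩ : Fin n) : ℕ) from by
            show ¬ (a : ℕ) ≤ i
            omega), if_neg h, sub_self]
      · intro h
        exact absurd (Finset.mem_univ _) h
    rw [h2]
    refine h1.sub ?_
    refine Finset.analyticOnNhd_fun_sum _ fun a _ => ?_
    by_cases h : (a : ℕ) < i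
    · simp only [if_pos h]
      refine AnalyticOnNhd.mul ?_ (ih a h a.2)
      refine AnalyticOnNhd.mul analyticOnNhd_const ?_
      exact (analyticOnNhd_id.neg).pow _
    · simp only [if_neg h, zero_mul]
      exact analyticOnNhd_const

end

theorem exists_int_multiple (g : ℚ[X]) : ∃ (c : ℤ) (G : ℤ[X]), c ≠ 0 ∧
    G.map (Int.castRingHom ℚ) = C (c : ℚ) * g := by
  obtain ⟨b, hb⟩ := IsLocalization.integerNormalization_map_to_map (nonZeroDivisors ℤ) g
  refine ⟨(b : ℤ), IsLocalization.integerNormalization (nonZeroDivisors ℤ) g,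
    nonZeroDivisors.coe_ne_zero b, ?_⟩
  have e : (algebraMap ℤ ℚ) = Int.castRingHom ℚ := rfl
  rw [← e, hb]
  ext n
  rw [coeff_smul, coeff_C_mul]
  simp

theorem gamX_eval {g : ℚ[X]} {c : ℤ} {G : ℤ[X]}
    (hG : G.map (Int.castRingHom ℚ) = C (c : ℚ) * g) (k : ℕ) (t : ℂ) :
    aeval t (gamX G k) = (c : ℂ) * aeval t (hasseDeriv k g) := by
  have h1 : gamX G k = C (c : ℚ) * hasseDeriv k g := by
    have h2 : hasseDeriv k (G.map (Int.castRingHom ℚ)) = C (c : ℚ) * hasseDeriv k g := by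
      rw [hG, ← smul_eq_C_mul, map_smul, smul_eq_C_mul]
    rw [← h2, gamX]
    ext m
    simp [hasseDeriv_coeff]
  rw [h1, map_mul, aeval_C]
  simp

theorem hyp_sol {g : ℚ[X]} {n : ℕ} {c : ℤ} {G : ℤ[X]} (hc : c ≠ 0) (hg : g ≠ 0)
    (hG : G.map (Int.castRingHom ℚ) = C (c : ℚ) * g) (hn : g.natDegree ≤ n)
    {U : Set ℂ} {t₀ : ℝ} (ht : ∀ t : ℝ, t₀ < t → (t : ℂ) ∈ U)
    {P : ℂ → Matrix (Fin n) (Fin n) ℂ} (hP : IsPeriodMatrix g n U P) (j : Fin n) :
    IsSolR ((hypT G).map (Int.castRingHom ℚ)) (hypB G n)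
      (fun t i => (umat n (t : ℂ) * P (t : ℂ)) i j) := by
  have hG0 : G ≠ 0 := by
    rintro rfl
    rw [Polynomial.map_zero] at hG
    exact mul_ne_zero (C_ne_zero.mpr (by exact_mod_cast hc)) hg hG.symm
  obtain ⟨t₁, ht₁⟩ := evM_det_ne (ι := Unit) (Z := Matrix.of fun _ _ => G) (by simpa using hG0)
  have hGt : ∀ t : ℂ, aeval t G = (c : ℂ) * aeval t g := by
    intro t
    have h1 := congrArg (fun p : ℚ[X] => aeval t p) hG
    rw [map_mul, aeval_C] at h1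
    rw [← Polynomial.aeval_map_algebraMap ℚ t G]
    simpa using h1
  have hTt : ∀ t : ℂ, aeval t ((hypT G).map (Int.castRingHom ℚ)) =
      2 * ((c : ℂ) * aeval t g) := by
    intro t
    rw [← hGt, hypT]
    rw [show (Int.castRingHom ℚ) = algebraMap ℤ ℚ from rfl, Polynomial.aeval_map_algebraMap,
      map_mul, aeval_C]
    simp
  refine ⟨max t₀ t₁, fun t htt i => ?_⟩
  have hU1 : (t : ℂ) ∈ U := ht t (lt_of_le_of_lt (le_max_left _ _) htt)
  have hne : (c : ℂ) * aeval (t : ℂ) g ≠ 0 := by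
    have h2 := ht₁ t (lt_of_le_of_lt (le_max_right _ _) htt)
    rw [evM, Matrix.det_unique] at h2
    rw [← hGt]
    exact h2
  have hc' : (c : ℂ) ≠ 0 := left_ne_zero_of_mul hne
  have hg' : aeval (t : ℂ) g ≠ 0 := right_ne_zero_of_mul hne
  obtain ⟨h1, h2⟩ := pz_hasDerivAt hP hU1 i j
  rw [hTt]
  rcases Nat.eq_zero_or_pos (i : ℕ) with hi | hi
  · obtain ⟨d, hd, hd2⟩ := h2 hi
    refine (hd.comp_ofReal).congr_deriv ?_
    have e1 : ∑ b, aeval (t : ℂ) (hypB G n i b) * (umat n (t : ℂ) * P (t : ℂ)) b j =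
        (c : ℂ) * (2 * aeval (t : ℂ) g * d) := by
      rw [hd2 hn, Finset.mul_sum]
      refine Finset.sum_congr rfl fun b _ => ?_
      rw [hypB, Matrix.of_apply, if_pos hi, map_mul, gamX_eval hG]
      simp only [map_natCast]
      ring
    rw [e1]
    field_simp
  · obtain ⟨i', hi'⟩ : ∃ i' : Fin n, (i' : ℕ) + 1 = i :=
      ⟨⟨(i : ℕ) - 1, by omega⟩, by
        show (i : ℕ) - 1 + 1 = i
        omega⟩
    refine ((h1 (by omega) i' hi').comp_ofReal).congr_deriv ?_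
    rw [Finset.sum_eq_single i']
    · rw [hypB, Matrix.of_apply, if_neg (by omega), if_pos hi', map_mul, gamX_eval hG]
      simp only [hasseDeriv_zero, LinearMap.id_coe, id_eq, map_sub, map_one, map_mul,
        map_natCast]
      have e2 : aeval (t : ℂ) (2 : ℚ[X]) = 2 := map_ofNat _ 2
      rw [e2]
      field_simp
    · intro b _ hb
      rw [hypB, Matrix.of_apply, if_neg (by omega), if_neg, map_zero, zero_mul]
      intro h
      exact hb (Fin.ext (by omega))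
    · intro h
      exact absurd (Finset.mem_univ _) h

theorem mainB' {g : ℚ[X]} {h : ℕ} (hh : 1 ≤ h) (hg : g.natDegree = 2 * h) {U : Set ℂ}
    (hU : IsOpen U) (hU' : IsPreconnected U) {t₀ : ℝ} (ht : ∀ t : ℝ, t₀ < t → (t : ℂ) ∈ U)
    {P P₁ : ℂ → Matrix (Fin (2 * h)) (Fin (2 * h)) ℂ} (hP : IsPeriodMatrix g (2 * h) U P₁)
    {d : Fin (2 * h) → ℤ} (hd : ∀ i, d i ≠ 0) (hPd : ∀ t i j, P t i j = (d i : ℂ) * P₁ t i j)
    (hdet : ∀ t ∈ U, IsUnit (P t).det) (δ : ℕ) :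
    ∃ (B : ℕ) (θ C : ℝ), 0 < θ ∧ θ < 1 ∧
      (∀ n : ℕ, 1 ≤ n → Set.ncard {i : ℕ | n ≤ i ∧ (i : ℝ) ≤ n + (n : ℝ) ^ θ ∧
        ((i : ℂ) ∈ U ∧ HasRelation U P (i : ℂ) ⊥ δ)} ≤ B) ∧
      ∀ X : ℕ, 1 ≤ X → (Set.ncard {i : ℕ | i ≤ X ∧
        ((i : ℂ) ∈ U ∧ HasRelation U P (i : ℂ) ⊥ δ)} : ℝ) ≤ C * (X : ℝ) ^ (1 - θ) := by
  have hg0 : g ≠ 0 := by
    rintro rfl
    rw [natDegree_zero] at hg
    omega
  obtain ⟨c, G, hc, hG⟩ := exists_int_multiple g
  have hc' : (c : ℚ) ≠ 0 := by exact_mod_cast hc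
  have hG0 : G ≠ 0 := by
    rintro rfl
    rw [Polynomial.map_zero] at hG
    exact mul_ne_zero (C_ne_zero.mpr hc') hg0 hG.symm
  have hGd : G.natDegree = 2 * h := by
    have hinj : Function.Injective (Int.castRingHom ℚ) := fun a b hab => by
      simpa using hab
    rw [← natDegree_map_eq_of_injective hinj G, hG, natDegree_C_mul hc', hg]
  have hn1 : 1 ≤ 2 * h := by omega
  haveI : Nonempty (Fin (2 * h)) := ⟨⟨0, hn1⟩⟩
  obtain ⟨H, hGal⟩ := hyp_gal hG0 hGd.le hn1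
  have hT0 : hypT G ≠ 0 := mul_ne_zero (C_ne_zero.mpr two_ne_zero) hG0
  set Z := hypZ (2 * h) with hZ
  have hZd : Z.det ≠ 0 := hypZ_det _
  have hGal' := gal_gauge hT0 hGal Z hZd 0
  have hRes := hyp_res hh hGd
  have hsol := fun j => sol_gauge hT0 hZd 0 (hyp_sol hc hg0 hG hg.le ht hP j)
  -- the gauge transformed matrix
  set Q : ℂ → Matrix (Fin (2 * h)) (Fin (2 * h)) ℂ := fun t =>
    (evM Z t)⁻¹ * (umat (2 * h) t * P₁ t) with hQ
  have hcol : ∀ (t : ℝ) (i j), Q (t : ℂ) i j =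
      gz Z 0 (fun t i => (umat (2 * h) (t : ℂ) * P₁ (t : ℂ)) i j) t i := by
    intro t i j
    rw [gz, pow_zero, one_smul]
    rfl
  have hQs : Sparse (wz δ Q) := by
    refine word_sparse hGal' hRes (Or.inr (intEig_of_charpoly_half (hypN_eig hh))) ?_ δ
    choose t₁ ht₁ using hsol
    obtain ⟨t₂, ht₂⟩ : ∃ t₂ : ℝ, ∀ j, t₁ j ≤ t₂ := by
      refine ⟨∑ j, |t₁ j|, fun j => (le_abs_self _).trans
        (Finset.single_le_sum (f := fun j => |t₁ j|) (fun _ _ => abs_nonneg _)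
          (Finset.mem_univ j))⟩
    refine ⟨t₂, fun t htt i k => ?_⟩
    have h1 := ht₁ k t (lt_of_le_of_lt (ht₂ k) htt) i
    simp only [← hcol] at h1
    exact h1
  -- back to the periods
  have hPs : Sparse (wz δ P) := by
    refine sparse_word_gauge (Z := Matrix.diagonal fun a : Fin (2 * h) =>
      C (d a) * (X : ℤ[X]) ^ (a : ℕ)) ?_ ?_ hQs
    · rw [Matrix.det_diagonal]
      exact Finset.prod_ne_zero_iff.mpr fun a _ =>
        mul_ne_zero (C_ne_zero.mpr (hd a)) (pow_ne_zero _ X_ne_zero)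
    · obtain ⟨t₁, ht₁⟩ := evM_det_ne hZd
      filter_upwards [Filter.eventually_gt_atTop t₁] with t htt
      have hdet1 := ht₁ t htt
      have e1 : evM Z (t : ℂ) = umat (2 * h) (t : ℂ) *
          evM (Matrix.diagonal fun a : Fin (2 * h) => (X : ℤ[X]) ^ (a : ℕ)) (t : ℂ) := by
        ext1 i a
        have e2 : evM (Matrix.diagonal fun a : Fin (2 * h) => (X : ℤ[X]) ^ (a : ℕ)) (t : ℂ) =
            Matrix.diagonal fun a : Fin (2 * h) => (t : ℂ) ^ (a : ℕ) := by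
          rw [evM, Matrix.diagonal_map (map_zero _)]
          congr 1
          funext a
          simp
        rw [e2, Matrix.mul_diagonal, evM, Matrix.map_apply, hZ, hypZ, umat, Matrix.of_apply,
          Matrix.of_apply]
        split_ifs with hia
        · rw [map_mul, map_pow, aeval_X, aeval_C, algebraMap_int_eq, eq_intCast]
          push_cast
          rw [neg_pow (t : ℂ)]
          have e3 : (t : ℂ) ^ (i : ℕ) = (t : ℂ) ^ ((i : ℕ) - (a : ℕ)) * (t : ℂ) ^ (a : ℕ) := by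
            rw [← pow_add, Nat.sub_add_cancel hia]
          rw [e3]
          ring
        · rw [map_zero, zero_mul]
      have hu : IsUnit (umat (2 * h) (t : ℂ)).det := by
        rw [e1, Matrix.det_mul] at hdet1
        exact isUnit_iff_ne_zero.mpr (left_ne_zero_of_mul hdet1)
      have hz' : IsUnit (evM Z (t : ℂ)).det := isUnit_iff_ne_zero.mpr (ht₁ t htt)
      have e4 : umat (2 * h) (t : ℂ) *
          (evM (Matrix.diagonal fun a : Fin (2 * h) => (X : ℤ[X]) ^ (a : ℕ)) (t : ℂ) *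
            Q (t : ℂ)) = umat (2 * h) (t : ℂ) * P₁ (t : ℂ) := by
        rw [← Matrix.mul_assoc, ← e1, hQ]
        show evM Z (t : ℂ) * ((evM Z (t : ℂ))⁻¹ * (umat (2 * h) (t : ℂ) * P₁ (t : ℂ))) = _
        rw [← Matrix.mul_assoc, Matrix.mul_nonsing_inv _ hz', Matrix.one_mul]
      have e5 := congrArg (fun M => (umat (2 * h) (t : ℂ))⁻¹ * M) e4
      simp only [← Matrix.mul_assoc, Matrix.nonsing_inv_mul _ hu, Matrix.one_mul] at e5
      have e6 : evM (Matrix.diagonal fun a : Fin (2 * h) => C (d a) * (X : ℤ[X]) ^ (a : ℕ))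
          (t : ℂ) = (Matrix.diagonal fun a : Fin (2 * h) => (d a : ℂ)) *
            evM (Matrix.diagonal fun a : Fin (2 * h) => (X : ℤ[X]) ^ (a : ℕ)) (t : ℂ) := by
        rw [evM, evM, Matrix.diagonal_map (map_zero _), Matrix.diagonal_map (map_zero _),
          Matrix.diagonal_mul_diagonal]
        congr 1
        funext a
        simp
      rw [e6, Matrix.mul_assoc, e5]
      ext1 i j
      rw [Matrix.diagonal_mul, hPd]
  obtain ⟨C, M, hCM⟩ := hPs
  refine sparse_count ⟨C, M, fun K s a hK haC haK hsep hs => ?_⟩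
  obtain ⟨j, hj⟩ := hCM K s a hK haC haK hsep hs
  refine ⟨j, fun hmem => hj ?_⟩
  have hmem' : ((s + a j : ℕ) : ℂ) ∈ U ∧ HasRelation U P ((s + a j : ℕ) : ℂ) ⊥ δ := hmem
  refine rel_bad hU hU' ht (fun i k => ?_) (hdet _ hmem'.1) hmem'.2
  simp only [hPd]
  exact analyticOnNhd_const.mul (per_analytic hU hP i k)

theorem mainB {g : ℚ[X]} {h : ℕ} (hh : 1 ≤ h) (hg : g.natDegree = 2 * h) {U : Set ℂ}
    (hU : IsOpen U) (hU' : IsPreconnected U) {t₀ : ℝ} (ht : ∀ t : ℝ, t₀ < t → (t : ℂ) ∈ U)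
    {P : ℂ → Matrix (Fin (2 * h)) (Fin (2 * h)) ℂ} (hP : IsPeriodMatrix g (2 * h) U P)
    (hdet : ∀ t ∈ U, IsUnit (P t).det) (δ : ℕ) :
    ∃ (B : ℕ) (θ C : ℝ), 0 < θ ∧ θ < 1 ∧
      (∀ n : ℕ, 1 ≤ n → Set.ncard {i : ℕ | n ≤ i ∧ (i : ℝ) ≤ n + (n : ℝ) ^ θ ∧
        ((i : ℂ) ∈ U ∧ HasRelation U P (i : ℂ) ⊥ δ)} ≤ B) ∧
      ∀ X : ℕ, 1 ≤ X → (Set.ncard {i : ℕ | i ≤ X ∧
        ((i : ℂ) ∈ U ∧ HasRelation U P (i : ℂ) ⊥ δ)} : ℝ) ≤ C * (X : ℝ) ^ (1 - θ) :=
  mainB' hh hg hU hU' ht hP (d := fun _ => 1) (fun _ => one_ne_zero)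
    (fun t i j => by rw [Int.cast_one, one_mul]) hdet δ

end Pool.Agent.Helper79.GC
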