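import Pool.Agent.Helper79.GC.HypPer

/-!
# GC-94: loops and the substitution `t ↦ -t`

`γ₋ = -γ`, `y₋(t, s) = y(-t, s)`: `y₋² = g(γ)(γ + t) = -g(-γ₋) (γ₋ - t)`, so this is a loop for `-g(-x)`. `∫ γ₋^i γ₋'/y₋ = (-1)^(i+1) ∫ γ^i γ'/y`.
-/

open Polynomial

namespace Pool.Agent.Helper79.GC

theorem loopData_neg {g : ℚ[X]} {V : Set ℂ} {γ : ℝ → ℂ} {y : ℂ → ℝ → ℂ}
    (h : LoopData g V γ y) :
    LoopData (-(g.comp (-X))) {t | -t ∈ V} (fun s => -γ s) (fun t s => y (-t) s) := by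
  refine ⟨h.smooth.neg, ?_, ?_, ?_, ?_, ?_⟩
  · simp only [h.closed]
  · have h1 : ContinuousOn (fun p : ℂ × ℝ => ((-p.1, p.2) : ℂ × ℝ))
        ({t | -t ∈ V} ×ˢ Set.Icc 0 1) :=
      (continuous_fst.neg.prodMk continuous_snd).continuousOn
    exact h.cont.comp h1 (fun p hp => ⟨hp.1, hp.2⟩)
  · intro t ht s hs
    have h1 := h.sq (-t) ht s hs
    simp only [map_neg, aeval_comp, aeval_X, neg_neg]
    rw [h1]
    ring
  · intro t ht s hs
    exact h.ne (-t) ht s hs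
  · intro t ht
    exact h.yclosed (-t) ht

theorem loopInt_neg (γ : ℝ → ℂ) (y : ℝ → ℂ) (i : ℕ) :
    ∫ s in (0 : ℝ)..1, (-γ s) ^ i * deriv (fun s => -γ s) s / y s =
      (-1) ^ (i + 1) * ∫ s in (0 : ℝ)..1, (γ s) ^ i * deriv γ s / y s := by
  rw [← intervalIntegral.integral_const_mul]
  congr 1
  funext s
  rw [deriv.fun_neg, neg_pow (γ s) i]
  ring

end Pool.Agent.Helper79.GC
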