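import Pool.Agent.Helper79.GC.MainB
import Pool.Agent.Helper79.GC.MainA3
import Pool.Agent.Helper79.GC.PerNeg

/-!
# GC-91: the family `y² = g(x) (x - t)`, two sided
-/

open Polynomial Filter Topology

namespace Pool.Agent.Helper79.GC

open Pool.Agent.Helper37.GP Pool.Agent.Helper64.Per

theorem isPeriodMatrix_neg {g : ℚ[X]} {n : ℕ} {U : Set ℂ}
    {P : ℂ → Matrix (Fin n) (Fin n) ℂ} (hP : IsPeriodMatrix g n U P) :
    IsPeriodMatrix (-(g.comp (-X))) n {t | -t ∈ U}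
      (fun t => Matrix.of fun i j => (-1) ^ ((i : ℕ) + 1) * P (-t) i j) := by
  intro t₁ ht₁
  obtain ⟨V, hV, hm, γ, y, hL, hPV⟩ := hP (-t₁) ht₁
  refine ⟨{t | -t ∈ V}, isOpen_negSet hV, hm, fun j s => -γ j s, fun j t s => y j (-t) s,
    fun j => loopData_neg (hL j), fun t htV i j => ?_⟩
  show (-1) ^ ((i : ℕ) + 1) * P (-t) i j = _
  rw [hPV (-t) htV i j]
  exact (loopInt_neg (γ j) (y j (-t)) i).symm

theorem mainB2 {g : ℚ[X]} {h : ℕ} (hh : 1 ≤ h) (hg : g.natDegree = 2 * h) {U : Set ℂ}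
    (hU : IsOpen U) (hU' : IsPreconnected U) {t₀ : ℝ} (ht : ∀ t : ℝ, t₀ < |t| → (t : ℂ) ∈ U)
    {P : ℂ → Matrix (Fin (2 * h)) (Fin (2 * h)) ℂ} (hP : IsPeriodMatrix g (2 * h) U P)
    (hdet : ∀ t ∈ U, IsUnit (P t).det) (δ : ℕ) :
    ∃ (B : ℕ) (θ C : ℝ), 0 < θ ∧ θ < 1 ∧
      (∀ n : ℕ, 1 ≤ n → Set.ncard {i : ℤ | (n : ℝ) ≤ |(i : ℝ)| ∧
        |(i : ℝ)| ≤ n + (n : ℝ) ^ θ ∧ ((i : ℂ) ∈ U ∧ HasRelation U P (i : ℂ) ⊥ δ)} ≤ B) ∧
      ∀ X : ℕ, 1 ≤ X → (Set.ncard {i : ℤ | |(i : ℝ)| ≤ X ∧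
        ((i : ℂ) ∈ U ∧ HasRelation U P (i : ℂ) ⊥ δ)} : ℝ) ≤ C * (X : ℝ) ^ (1 - θ) := by
  have k₁ := mainB hh hg hU hU' (t₀ := t₀)
    (fun t htt => ht t (lt_of_lt_of_le htt (le_abs_self t))) hP hdet δ
  have k₂ := mainB' (g := -(g.comp (-X))) hh
    (by rw [natDegree_neg, natDegree_comp_neg, hg]) (isOpen_negSet hU)
    (isPreconnected_negSet hU') (t₀ := t₀)
    (fun t htt => by
      have h2 := ht (-t) (by
        rw [abs_neg]
        exact lt_of_lt_of_le htt (le_abs_self t))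
      show -(t : ℂ) ∈ U
      rw [← Complex.ofReal_neg]
      exact h2)
    (P := fun t => P (-t)) (isPeriodMatrix_neg hP) (d := fun i => (-1) ^ ((i : ℕ) + 1))
    (fun i => pow_ne_zero _ (by norm_num))
    (fun t i j => by
      show P (-t) i j = _ * ((-1) ^ ((i : ℕ) + 1) * P (-t) i j)
      rw [← mul_assoc]
      push_cast
      rw [← mul_pow]
      norm_num) (fun t htt => hdet (-t) htt) δ
  refine two_sided (E := {i : ℤ | (i : ℂ) ∈ U ∧ HasRelation U P (i : ℂ) ⊥ δ}) ?_ ?_ k₁ k₂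
  · intro i hi h0
    have e : ((i.toNat : ℕ) : ℂ) = (i : ℂ) := by
      have : ((i.toNat : ℕ) : ℤ) = i := Int.toNat_of_nonneg h0
      exact_mod_cast congrArg (fun z : ℤ => (z : ℂ)) this
    show ((i.toNat : ℕ) : ℂ) ∈ U ∧ HasRelation U P ((i.toNat : ℕ) : ℂ) ⊥ δ
    rw [e]
    exact hi
  · intro i hi h0
    have e : (((-i).toNat : ℕ) : ℂ) = -(i : ℂ) := by
      have : (((-i).toNat : ℕ) : ℤ) = -i := Int.toNat_of_nonneg (by omega)
      have h1 := congrArg (fun z : ℤ => (z : ℂ)) this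
      push_cast at h1
      exact h1
    show -(((-i).toNat : ℕ) : ℂ) ∈ U ∧
      HasRelation {t | -t ∈ U} (fun t => P (-t)) (((-i).toNat : ℕ) : ℂ) ⊥ δ
    refine ⟨?_, hasRelation_neg ?_⟩
    · rw [e, neg_neg]
      exact hi.1
    · rw [e, neg_neg]
      exact hi.2

end Pool.Agent.Helper79.GC
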