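import Pool.Agent.Helper79.GC.Defs2
import Pool.Agent.Helper37.GP.Lcm

/-!
# GC-32: the polynomials `P_m` with `P ≡ 1 mod X^r`, `P ≡ 0 mod (X + k)^r`, `1 ≤ k ≤ m`

`binX n = X (X-1) ⋯ (X-n+1)/n!`.

* `B = ∏_{k=1}^m (X + k)/k` (`= binom(X+m, m)`), `B(0) = 1`, `B` is integer valued on `ℕ`. `P = B^r Tr`, where `Tr` is the truncation modulo
  `X^r` of the power series `B^(-r) = (∏_{k=1}^m (1 + X/k)^(-1))^r`. So `P ≡ 1 mod X^r` and `(X+k)^r ∣ B^r ∣ P`.
* Denominators of `Tr`: the coefficient of `X^i`, `i < r`, of `∏_k (1 + X/k)^(-r)` is a polynomial with integer coefficients in the `1/k`,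
  homogeneous of degree `i`, so `lcm(1..m)^i` is a denominator; `lcm(1..m) ≤ 4^m` or similar (see `Pool.Agent.Helper37.GP.Lcm`). Let `q`
  be this common denominator of `Tr`, `q ≤ H^(m+1)`.
* `q P` maps `ℕ` to `ℤ`, degree `≤ r m + r`; an integer valued polynomial `f` of degree `≤ n` is
  `∑_{j≤n} (Δ^j f)(0) binX j` with `(Δ^j f)(0) = ∑_i (-1)^(j-i) binom(j,i) f(i) ∈ ℤ` (Mathlib: `fwdDiff`,
  `shift_eq_sum_fwdDiff_iter`; both sides agree on `ℕ`).
(Implemented with `P = 1 - (1 - B^r)^r`, which is integer valued, so `q = 1`.)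
-/

open Polynomial

namespace Pool.Agent.Helper79.GC

open Pool.Agent.Helper37.GP

private lemma binX_eval (j i : ℕ) : (binX i).eval (j : ℚ) = (j.choose i : ℚ) := by
  induction i with
  | zero => simp [binX]
  | succ i ih =>
    rw [binX, eval_mul, eval_C, eval_mul, ih, eval_sub, eval_X, eval_C]
    have h1 := Nat.choose_succ_right_eq j i
    have h3 : ((i : ℚ) + 1) ≠ 0 := by positivity
    have h2 : (j.choose (i + 1) : ℚ) * ((i : ℚ) + 1) = (j.choose i : ℚ) * ((j : ℚ) - i) := by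
      by_cases hij : i ≤ j
      · have : ((j.choose (i + 1) * (i + 1) : ℕ) : ℚ) = ((j.choose i * (j - i) : ℕ) : ℚ) := by
          rw [h1]
        push_cast [Nat.cast_sub hij] at this
        exact this
      · have e1 : j.choose i = 0 := Nat.choose_eq_zero_of_lt (by omega)
        have e2 : j.choose (i + 1) = 0 := Nat.choose_eq_zero_of_lt (by omega)
        rw [e1, e2]
        simp
    rw [← h2]
    field_simp

private lemma binX_natDegree (i : ℕ) : (binX i).natDegree ≤ i := by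
  induction i with
  | zero => simp [binX]
  | succ i ih =>
    rw [binX]
    refine (natDegree_C_mul_le _ _).trans ?_
    refine natDegree_mul_le.trans ?_
    rw [natDegree_X_sub_C]
    omega

/-- an integer valued polynomial in the binomial basis -/
private lemma int_valued {f : ℚ[X]} {n : ℕ} (hn : f.natDegree < n)
    (hf : ∀ j : ℕ, ∃ z : ℤ, f.eval (j : ℚ) = z) :
    ∃ c : ℕ → ℤ, f = ∑ j ∈ Finset.range n, C (c j : ℚ) * binX j := by
  have h1 : ∀ n : ℕ, ∃ c : ℕ → ℤ, ∀ j < n,
      f.eval (j : ℚ) = ∑ i ∈ Finset.range n, (c i : ℚ) * (j.choose i : ℚ) := by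
    intro n
    induction n with
    | zero => exact ⟨fun _ => 0, fun j hj => absurd hj (by omega)⟩
    | succ n ih =>
      obtain ⟨c, hc⟩ := ih
      obtain ⟨z, hz⟩ := hf n
      refine ⟨Function.update c n (z - ∑ i ∈ Finset.range n, c i * (n.choose i : ℤ)), ?_⟩
      have hsum : ∀ j : ℕ, ∑ i ∈ Finset.range n, ((Function.update c n
          (z - ∑ i ∈ Finset.range n, c i * (n.choose i : ℤ)) i : ℤ) : ℚ) * (j.choose i : ℚ) =
          ∑ i ∈ Finset.range n, (c i : ℚ) * (j.choose i : ℚ) := by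
        intro j
        refine Finset.sum_congr rfl fun i hi => ?_
        rw [Function.update_of_ne (Finset.mem_range.1 hi).ne]
      intro j hj
      rw [Finset.sum_range_succ, hsum, Function.update_self]
      rcases Nat.lt_succ_iff_lt_or_eq.1 hj with h | rfl
      · rw [Nat.choose_eq_zero_of_lt h, hc j h]
        simp
      · rw [Nat.choose_self, hz]
        push_cast
        ring
  obtain ⟨c, hc⟩ := h1 n
  refine ⟨c, ?_⟩
  refine Polynomial.eq_of_degree_sub_lt_of_eval_finset_eq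
    ((Finset.range n).image (fun i : ℕ => (i : ℚ))) ?_ ?_
  · rw [Finset.card_image_of_injective _ Nat.cast_injective, Finset.card_range]
    refine lt_of_le_of_lt (degree_sub_le _ _) (max_lt ?_ ?_)
    · exact lt_of_le_of_lt degree_le_natDegree (by exact_mod_cast hn)
    · rw [← mem_degreeLT]
      refine Submodule.sum_mem _ fun j hj => ?_
      rw [mem_degreeLT]
      refine lt_of_le_of_lt degree_le_natDegree ?_
      have h2 := (natDegree_C_mul_le (c j : ℚ) (binX j)).trans (binX_natDegree j)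
      have h3 := Finset.mem_range.1 hj
      exact_mod_cast lt_of_le_of_lt h2 h3
  · intro x hx
    obtain ⟨j, hj, rfl⟩ := Finset.mem_image.1 hx
    rw [hc j (Finset.mem_range.1 hj), eval_finsetSum]
    refine Finset.sum_congr rfl fun i _ => ?_
    rw [eval_mul, eval_C, binX_eval]

/-- `∏_{k=1}^m (X + k)/k` -/
private noncomputable def bbB : ℕ → ℚ[X]
  | 0 => 1
  | (m + 1) => bbB m * (C (((m : ℚ) + 1)⁻¹) * (X + C ((m : ℚ) + 1)))

private lemma bbB_eval (m j : ℕ) : (bbB m).eval (j : ℚ) = ((j + m).choose m : ℚ) := by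
  induction m with
  | zero => simp [bbB]
  | succ m ih =>
    rw [bbB, eval_mul, ih, eval_mul, eval_C, eval_add, eval_X, eval_C]
    have h1 := Nat.add_one_mul_choose_eq (j + m) m
    have h2 : ((j : ℚ) + m + 1) * ((j + m).choose m : ℚ) =
        ((j + (m + 1)).choose (m + 1) : ℚ) * ((m : ℚ) + 1) := by exact_mod_cast h1
    have h3 : ((m : ℚ) + 1) ≠ 0 := by positivity
    have h4 : ((j + (m + 1)).choose (m + 1) : ℚ) =
        ((j : ℚ) + m + 1) * ((j + m).choose m : ℚ) * ((m : ℚ) + 1)⁻¹ := by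
      rw [h2]
      field_simp
    rw [h4]
    ring

private lemma bbB_zero (m : ℕ) : (bbB m).eval 0 = 1 := by
  have := bbB_eval m 0
  simpa using this

private lemma bbB_natDegree (m : ℕ) : (bbB m).natDegree ≤ m := by
  induction m with
  | zero => simp [bbB]
  | succ m ih =>
    rw [bbB]
    refine natDegree_mul_le.trans ?_
    have h1 : (C (((m : ℚ) + 1)⁻¹) * (X + C ((m : ℚ) + 1))).natDegree ≤ 1 := by
      refine (natDegree_C_mul_le _ _).trans ?_
      rw [natDegree_X_add_C]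
    omega

private lemma dvd_bbB (m k : ℕ) (h1 : 1 ≤ k) (h2 : k ≤ m) : (X + C (k : ℚ)) ∣ bbB m := by
  induction m with
  | zero => omega
  | succ m ih =>
    rw [bbB]
    rcases Nat.le_succ_iff.1 h2 with h | rfl
    · exact (ih h).mul_right _
    · refine Dvd.dvd.mul_left (Dvd.dvd.mul_left ?_ _) _
      push_cast
      exact dvd_rfl

theorem exists_Pm (r : ℕ) : ∃ H : ℕ, 1 ≤ H ∧ ∀ m : ℕ, ∃ (n : ℕ) (c : ℕ → ℚ) (P : ℚ[X]),
    n ≤ H * (m + 1) ∧ P = ∑ j ∈ Finset.range n, C (c j) * binX j ∧ X ^ r ∣ P - 1 ∧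
      (∀ k : ℕ, 1 ≤ k → k ≤ m → (X + C (k : ℚ)) ^ r ∣ P) ∧
      ∃ q : ℕ, 0 < q ∧ q ≤ H ^ (m + 1) ∧ ∀ j, ∃ z : ℤ, (q : ℚ) * c j = z := by
  refine ⟨r * r + 1, by omega, ?_⟩
  intro m
  set P : ℚ[X] := 1 - (1 - bbB m ^ r) ^ r with hP
  have hdeg : P.natDegree < r * r * m + 1 := by
    have h1 : (bbB m ^ r).natDegree ≤ r * m := by
      refine natDegree_pow_le.trans ?_
      exact Nat.mul_le_mul_left _ (bbB_natDegree m)
    have h2 : (1 - bbB m ^ r).natDegree ≤ r * m := by
      refine (natDegree_sub_le _ _).trans (max_le ?_ h1)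
      simp
    have h3 : ((1 - bbB m ^ r) ^ r).natDegree ≤ r * (r * m) := by
      refine natDegree_pow_le.trans ?_
      exact Nat.mul_le_mul_left _ h2
    have h4 : P.natDegree ≤ r * (r * m) := by
      refine (natDegree_sub_le _ _).trans (max_le ?_ h3)
      simp
    rw [mul_assoc]
    omega
  obtain ⟨c, hc⟩ := int_valued hdeg (fun j => ⟨1 - (1 - ((j + m).choose m : ℤ) ^ r) ^ r, by
    rw [hP]
    simp only [eval_sub, eval_one, eval_pow, bbB_eval]
    push_cast
    ring⟩)
  refine ⟨r * r * m + 1, fun j => (c j : ℚ), P, ?_, hc, ?_, ?_, 1, one_pos, ?_, ?_⟩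
  · nlinarith
  · have h1 : (X : ℚ[X]) ∣ 1 - bbB m ^ r := by
      rw [X_dvd_iff, coeff_zero_eq_eval_zero]
      simp [bbB_zero]
    have h2 : P - 1 = -(1 - bbB m ^ r) ^ r := by rw [hP]; ring
    rw [h2]
    exact (pow_dvd_pow_of_dvd h1 r).neg_right
  · intro k h1 h2
    have h3 : bbB m ^ r ∣ P := by
      have h4 := sub_dvd_pow_sub_pow (1 : ℚ[X]) (1 - bbB m ^ r) r
      have h5 : (1 : ℚ[X]) - (1 - bbB m ^ r) = bbB m ^ r := by ring
      rw [h5, one_pow] at h4
      exact h4
    exact (pow_dvd_pow_of_dvd (dvd_bbB m k h1 h2) r).trans h3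
  · exact Nat.one_le_pow _ _ (by omega)
  · intro j
    exact ⟨c j, by simp⟩

variable {ι : Type} [Fintype ι] [DecidableEq ι]

theorem aeval_binX (M : Matrix ι ι ℚ) (n : ℕ) : aeval M (binX n) = binm M n := by
  induction n with
  | zero => simp [binX, binm]
  | succ n ih =>
    rw [binX, binm, map_mul, map_mul, ih, map_sub, aeval_X, aeval_C, aeval_C,
      Algebra.smul_def, Algebra.smul_def, mul_one]

end Pool.Agent.Helper79.GC
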