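import Pool.Agent.Helper79.GC.Base

/-!
# GC-11: stable subspaces at a regular singular point

`θ y = s (y' + x ν y) = s dd y + ν y` acts on the coefficient of `x^k` of `y ∈ K^ι` as `ν - k`.
`rs_coeff`: a `K`-subspace `V` of `K^ι` stable under `y ↦ y' + x ν y` contains the (constant) coefficient
vectors of all its elements, if `χ(ν) = 0` with `χ(X)` and `χ(X + n)` coprime for all `n ≥ 1`.

Proof. `V` is closed (`rs_closed`): it is the common kernel of linear forms. For `m` large there is a polynomial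
`q` with `q(ν - n) = 1` and `q(ν - k) = 0` for all other `k ≤ m` which occur, so `q(θ) y = x^n y_n + O(x^(m+1))`.
-/

open Polynomial

namespace Pool.Agent.Helper79.GC

open Pool.Agent.Helper37.GP

variable {ι : Type} [Fintype ι] [DecidableEq ι]

/-- the coefficient of `x^k` of a vector -/
noncomputable def rsCo (k : ℤ) : (ι → LaurentSeries ℚ) →ₗ[ℚ] (ι → ℚ) where
  toFun y := fun a => (y a).coeff k
  map_add' y z := by
    ext a
    simp
  map_smul' c y := by
    ext a
    simp

omit [Fintype ι] [DecidableEq ι] in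
theorem rsCo_apply (k : ℤ) (y : ι → LaurentSeries ℚ) (a : ι) : rsCo k y a = (y a).coeff k := rfl

theorem rs_embX_mul_coeff (g : LaurentSeries ℚ) (k : ℤ) : (emb X * g).coeff k = g.coeff (k + 1) := by
  have h : k = (k + 1) + (-1) := by ring
  rw [emb_X]
  conv_lhs => rw [h]
  rw [HahnSeries.coeff_single_mul_add, one_mul]

theorem rs_algebraMap_mul_coeff (c : ℚ) (g : LaurentSeries ℚ) (k : ℤ) :
    (algebraMap ℚ (LaurentSeries ℚ) c * g).coeff k = c * g.coeff k := by
  rw [algebraMap_eq_single, HahnSeries.coeff_single_zero_mul]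

omit [DecidableEq ι] in
/-- coefficients of `θ y` -/
theorem rs_theta_coeff (ν : Matrix ι ι ℚ) (y : ι → LaurentSeries ℚ) (a : ι) (k : ℤ) :
    (emb X * (dd (y a) + xx * ∑ b, algebraMap ℚ (LaurentSeries ℚ) (ν a b) * y b)).coeff k =
      -(k : ℚ) * (y a).coeff k + ∑ b, ν a b * (y b).coeff k := by
  rw [mul_add, ← mul_assoc, emb_X_mul_xx, one_mul, HahnSeries.coeff_add, rs_embX_mul_coeff, dd_coeff,
    HahnSeries.coeff_sum]
  congr 1
  · have h : k + 1 - 1 = k := by ring
    rw [h]
    push_cast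
    ring
  · exact Finset.sum_congr rfl fun b _ => rs_algebraMap_mul_coeff _ _ _

/-- the operator `θ` -/
noncomputable def rsTheta (ν : Matrix ι ι ℚ) :
    (ι → LaurentSeries ℚ) →ₗ[ℚ] (ι → LaurentSeries ℚ) where
  toFun y := fun a => emb X * (dd (y a) + xx * ∑ b, algebraMap ℚ (LaurentSeries ℚ) (ν a b) * y b)
  map_add' y z := by
    ext a k
    refine (rs_theta_coeff ν (y + z) a k).trans ?_
    refine Eq.trans ?_ (congrArg₂ (fun p q : ℚ => p + q) (rs_theta_coeff ν y a k)
      (rs_theta_coeff ν z a k)).symm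
    simp only [Pi.add_apply, HahnSeries.coeff_add, mul_add, Finset.sum_add_distrib]
    ring
  map_smul' c y := by
    ext a k
    refine (rs_theta_coeff ν (c • y) a k).trans ?_
    refine Eq.trans ?_ (congrArg (fun p : ℚ => c * p) (rs_theta_coeff ν y a k)).symm
    simp only [Pi.smul_apply, HahnSeries.coeff_smul, smul_eq_mul, mul_add, Finset.mul_sum]
    congr 1
    · ring
    · exact Finset.sum_congr rfl fun b _ => by ring

theorem rsCo_theta (ν : Matrix ι ι ℚ) (k : ℤ) (y : ι → LaurentSeries ℚ) :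
    rsCo k (rsTheta ν y) = (ν - (k : ℚ) • (1 : Matrix ι ι ℚ)).mulVec (rsCo k y) := by
  ext a
  rw [rsCo_apply]
  change (emb X * (dd (y a) + xx * ∑ b, algebraMap ℚ (LaurentSeries ℚ) (ν a b) * y b)).coeff k = _
  rw [rs_theta_coeff, Matrix.sub_mulVec, Matrix.smul_mulVec, Matrix.one_mulVec, Pi.sub_apply,
    Pi.smul_apply, smul_eq_mul, rsCo_apply]
  have h : ν.mulVec (rsCo k y) a = ∑ b, ν a b * (y b).coeff k := rfl
  rw [h]
  ring

theorem rsCo_theta_pow (ν : Matrix ι ι ℚ) (k : ℤ) (n : ℕ) (y : ι → LaurentSeries ℚ) :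
    rsCo k ((rsTheta ν ^ n) y) =
      ((ν - (k : ℚ) • (1 : Matrix ι ι ℚ)) ^ n).mulVec (rsCo k y) := by
  induction n with
  | zero => simp
  | succ n ih =>
    rw [pow_succ', Module.End.mul_apply, rsCo_theta, ih, Matrix.mulVec_mulVec, ← pow_succ']

theorem rsCo_aeval (ν : Matrix ι ι ℚ) (k : ℤ) (q : ℚ[X]) (y : ι → LaurentSeries ℚ) :
    rsCo k (aeval (rsTheta ν) q y) =
      (aeval (ν - (k : ℚ) • (1 : Matrix ι ι ℚ)) q).mulVec (rsCo k y) := by
  induction q using Polynomial.induction_on' with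
  | add p q hp hq =>
    rw [map_add, LinearMap.add_apply, map_add, hp, hq, map_add, Matrix.add_mulVec]
  | monomial n c =>
    rw [aeval_monomial, aeval_monomial, Module.End.mul_apply, Module.algebraMap_end_apply, map_smul,
      rsCo_theta_pow, ← Algebra.smul_def, Matrix.smul_mulVec]

/-- the shifted polynomials -/
noncomputable def rsChi (χ : ℚ[X]) (k : ℤ) : ℚ[X] := χ.comp (X + C (k : ℚ))

theorem rsChi_aeval (ν : Matrix ι ι ℚ) (χ : ℚ[X]) (hχ : aeval ν χ = 0) (k : ℤ) :
    aeval (ν - (k : ℚ) • (1 : Matrix ι ι ℚ)) (rsChi χ k) = 0 := by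
  have h : aeval (ν - (k : ℚ) • (1 : Matrix ι ι ℚ)) (X + C (k : ℚ) : ℚ[X]) = ν := by
    rw [map_add, aeval_X, aeval_C, Algebra.algebraMap_eq_smul_one, sub_add_cancel]
  rw [rsChi, aeval_comp, h, hχ]

theorem rsChi_coprime (χ : ℚ[X])
    (hcop : ∀ n : ℕ, 1 ≤ n → IsCoprime χ (χ.comp (X + C (n : ℚ)))) {j k : ℤ} (hjk : j ≠ k) :
    IsCoprime (rsChi χ j) (rsChi χ k) := by
  have key : ∀ j k : ℤ, j < k → IsCoprime (rsChi χ j) (rsChi χ k) := by
    intro j k hlt
    have h1 := hcop (k - j).toNat (by omega)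
    have h2 := h1.map (compRingHom (X + C (j : ℚ)))
    have e : compRingHom (X + C (j : ℚ)) (χ.comp (X + C (((k - j).toNat : ℕ) : ℚ))) = rsChi χ k := by
      change (χ.comp (X + C (((k - j).toNat : ℕ) : ℚ))).comp (X + C (j : ℚ)) = _
      rw [comp_assoc, rsChi]
      congr 1
      rw [add_comp, X_comp, C_comp, add_assoc, ← C_add]
      congr 2
      have h3 : (((k - j).toNat : ℕ) : ℤ) = k - j := Int.toNat_of_nonneg (by omega)
      have h4 : (((k - j).toNat : ℕ) : ℚ) = (k : ℚ) - j := by exact_mod_cast h3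
      rw [h4]
      ring
    rw [e] at h2
    exact h2
  rcases lt_or_gt_of_ne hjk with h | h
  · exact key j k h
  · exact (key k j h).symm

/-- there is a polynomial which is the projector to the `n`-th coefficient -/
theorem rs_exists_q (ν : Matrix ι ι ℚ) (χ : ℚ[X]) (hχ : aeval ν χ = 0)
    (hcop : ∀ n : ℕ, 1 ≤ n → IsCoprime χ (χ.comp (X + C (n : ℚ)))) (n : ℤ) (S : Finset ℤ) :
    ∃ q : ℚ[X], aeval (ν - (n : ℚ) • (1 : Matrix ι ι ℚ)) q = 1 ∧
      ∀ k ∈ S, k ≠ n → aeval (ν - (k : ℚ) • (1 : Matrix ι ι ℚ)) q = 0 := by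
  have h1 : IsCoprime (rsChi χ n) (∏ k ∈ S.erase n, rsChi χ k) :=
    IsCoprime.prod_right fun k hk => rsChi_coprime χ hcop (Finset.ne_of_mem_erase hk).symm
  obtain ⟨A, B, hAB⟩ := h1
  refine ⟨B * ∏ k ∈ S.erase n, rsChi χ k, ?_, ?_⟩
  · have e : B * ∏ k ∈ S.erase n, rsChi χ k = 1 - A * rsChi χ n := by linear_combination hAB
    rw [e, map_sub, map_one, map_mul, rsChi_aeval ν χ hχ, mul_zero, sub_zero]
  · intro k hk hkn
    have hk' : k ∈ S.erase n := Finset.mem_erase.2 ⟨hkn, hk⟩
    rw [← Finset.mul_prod_erase _ _ hk', map_mul, map_mul, rsChi_aeval ν χ hχ, zero_mul, mul_zero]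

omit [DecidableEq ι] in
/-- subspaces are closed -/
theorem rs_closed (V : Submodule (LaurentSeries ℚ) (ι → LaurentSeries ℚ)) (z : ι → LaurentSeries ℚ)
    (h : ∀ m : ℤ, ∃ v ∈ V, ∀ a, OrdGE m (z a - v a)) : z ∈ V := by
  classical
  by_contra hz
  obtain ⟨f, hf1, hf2⟩ := Submodule.exists_le_ker_of_notMem hz
  have hf : ∀ y : ι → LaurentSeries ℚ, f y = ∑ a, y a * f (Pi.single a 1) := by
    intro y
    conv_lhs => rw [← Finset.univ_sum_single y, map_sum]
    refine Finset.sum_congr rfl fun a _ => ?_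
    have : (Pi.single a (y a) : ι → LaurentSeries ℚ) = y a • Pi.single a 1 := by
      rw [← Pi.single_smul, smul_eq_mul, mul_one]
    rw [this, map_smul, smul_eq_mul]
  have hN : ∃ N : ℤ, ∀ a, OrdGE N (f (Pi.single a 1)) := by
    choose N hN using fun a => exists_ordGE (f (Pi.single a 1))
    obtain ⟨M, hM⟩ : ∃ M : ℤ, ∀ a, M ≤ N a := by
      obtain ⟨M, hM⟩ := (Set.finite_range N).bddBelow
      exact ⟨M, fun a => hM ⟨a, rfl⟩⟩
    exact ⟨M, fun a => ordGE_mono (hM a) (hN a)⟩
  obtain ⟨N, hN⟩ := hN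
  have hi : ∃ i, (f z).coeff i ≠ 0 := by
    by_contra hcon
    push Not at hcon
    apply hf1
    ext i
    exact hcon i
  obtain ⟨i, hi⟩ := hi
  obtain ⟨v, hv, hzv⟩ := h (i + 1 - N)
  have h1 : f z = f (z - v) := by
    rw [map_sub, LinearMap.mem_ker.1 (hf2 hv), sub_zero]
  apply hi
  rw [h1, hf]
  have h2 : OrdGE (i + 1 - N + N) (∑ a, (z - v) a * f (Pi.single a 1)) :=
    ordGE_sum _ _ fun a _ => ordGE_mul (hzv a) (hN a)
  exact h2 i (by omega)

theorem rs_coeff (ν : Matrix ι ι ℚ) (χ : ℚ[X]) (hχ : aeval ν χ = 0)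
    (hcop : ∀ n : ℕ, 1 ≤ n → IsCoprime χ (χ.comp (X + C (n : ℚ))))
    (V : Submodule (LaurentSeries ℚ) (ι → LaurentSeries ℚ))
    (hV : ∀ y ∈ V, (fun a => dd (y a) + xx * ∑ b, algebraMap ℚ (LaurentSeries ℚ) (ν a b) * y b) ∈ V)
    (y : ι → LaurentSeries ℚ) (hy : y ∈ V) (n : ℤ) :
    (fun a => algebraMap ℚ (LaurentSeries ℚ) ((y a).coeff n)) ∈ V := by
  -- `V` is stable under polynomials in `θ`
  have hθ : ∀ y ∈ V, rsTheta ν y ∈ V := by
    intro y hy
    have h1 := V.smul_mem (emb X) (hV y hy)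
    exact h1
  have hrat : ∀ (c : ℚ) (v : ι → LaurentSeries ℚ), v ∈ V → c • v ∈ V := by
    intro c v hv
    have h1 := V.smul_mem (algebraMap ℚ (LaurentSeries ℚ) c) hv
    have e : algebraMap ℚ (LaurentSeries ℚ) c • v = c • v := by
      ext a k
      rw [Pi.smul_apply, Pi.smul_apply, smul_eq_mul, rs_algebraMap_mul_coeff, HahnSeries.coeff_smul,
        smul_eq_mul]
    rwa [e] at h1
  have hpow : ∀ (m : ℕ), (rsTheta ν ^ m) y ∈ V := by
    intro m
    induction m with
    | zero => simpa using hy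
    | succ m ih =>
      rw [pow_succ', Module.End.mul_apply]
      exact hθ _ ih
  have haeval : ∀ q : ℚ[X], aeval (rsTheta ν) q y ∈ V := by
    intro q
    induction q using Polynomial.induction_on' with
    | add p q hp hq =>
      rw [map_add, LinearMap.add_apply]
      exact V.add_mem hp hq
    | monomial m c =>
      rw [aeval_monomial, Module.End.mul_apply, Module.algebraMap_end_apply]
      exact hrat c _ (hpow m)
  -- a lower bound for the orders
  obtain ⟨N, hN⟩ : ∃ N : ℤ, ∀ a, OrdGE N (y a) := by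
    choose N hN using fun a => exists_ordGE (y a)
    obtain ⟨M, hM⟩ := (Set.finite_range N).bddBelow
    exact ⟨M, fun a => ordGE_mono (hM ⟨a, rfl⟩) (hN a)⟩
  have hz : (fun a => HahnSeries.single n ((y a).coeff n) : ι → LaurentSeries ℚ) ∈ V := by
    apply rs_closed
    intro m
    obtain ⟨q, hq1, hq2⟩ := rs_exists_q ν χ hχ hcop n (Finset.Ico N m)
    refine ⟨aeval (rsTheta ν) q y, haeval q, ?_⟩
    intro a i hi
    have h1 : (aeval (rsTheta ν) q y a).coeff i =
        (aeval (ν - (i : ℚ) • (1 : Matrix ι ι ℚ)) q).mulVec (rsCo i y) a :=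
      congrFun (rsCo_aeval ν i q y) a
    have e : ((HahnSeries.single n ((y a).coeff n) : LaurentSeries ℚ) -
        aeval (rsTheta ν) q y a).coeff i =
        (HahnSeries.single n ((y a).coeff n) : LaurentSeries ℚ).coeff i -
          (aeval (rsTheta ν) q y a).coeff i := HahnSeries.coeff_sub ..
    refine e.trans ?_
    rw [h1]
    by_cases hin : i = n
    · subst hin
      rw [hq1, Matrix.one_mulVec, HahnSeries.coeff_single_same, rsCo_apply, sub_self]
    · rw [HahnSeries.coeff_single_of_ne hin, zero_sub, neg_eq_zero]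
      by_cases hiN : i < N
      · have h2 : rsCo i y = 0 := by
          ext b
          exact hN b i hiN
        rw [h2, Matrix.mulVec_zero, Pi.zero_apply]
      · rw [hq2 i (Finset.mem_Ico.2 ⟨by omega, hi⟩) hin, Matrix.zero_mulVec, Pi.zero_apply]
  have h2 := V.smul_mem (HahnSeries.single (-n) (1 : ℚ) : LaurentSeries ℚ) hz
  have e : (HahnSeries.single (-n) (1 : ℚ) : LaurentSeries ℚ) •
      (fun a => HahnSeries.single n ((y a).coeff n) : ι → LaurentSeries ℚ) =
      fun a => algebraMap ℚ (LaurentSeries ℚ) ((y a).coeff n) := by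
    funext a
    rw [Pi.smul_apply, smul_eq_mul, HahnSeries.single_mul_single, algebraMap_eq_single, one_mul,
      neg_add_cancel]
  rwa [e] at h2

/-- Stable subspaces are spanned by constant vectors. -/
theorem rs_span (ν : Matrix ι ι ℚ) (χ : ℚ[X]) (hχ : aeval ν χ = 0)
    (hcop : ∀ n : ℕ, 1 ≤ n → IsCoprime χ (χ.comp (X + C (n : ℚ))))
    (V : Submodule (LaurentSeries ℚ) (ι → LaurentSeries ℚ))
    (hV : ∀ y ∈ V, (fun a => dd (y a) + xx * ∑ b, algebraMap ℚ (LaurentSeries ℚ) (ν a b) * y b) ∈ V) :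
    ∃ (l : ℕ) (c : Fin l → ι → ℚ), LinearIndependent ℚ c ∧
      LinearIndependent (LaurentSeries ℚ)
        (fun i a => algebraMap ℚ (LaurentSeries ℚ) (c i a) : Fin l → ι → LaurentSeries ℚ) ∧
      V = Submodule.span (LaurentSeries ℚ)
        (Set.range (fun i a => algebraMap ℚ (LaurentSeries ℚ) (c i a) : Fin l → ι → LaurentSeries ℚ)) := by
  classical
  -- the constant vectors in `V`
  let V0 : Submodule ℚ (ι → ℚ) :=
    { carrier := {c | (fun a => algebraMap ℚ (LaurentSeries ℚ) (c a)) ∈ V}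
      add_mem' := by
        intro c d hc hd
        have h1 := V.add_mem hc hd
        have e : (fun a => algebraMap ℚ (LaurentSeries ℚ) ((c + d) a)) =
            (fun a => algebraMap ℚ (LaurentSeries ℚ) (c a)) +
              fun a => algebraMap ℚ (LaurentSeries ℚ) (d a) := by
          funext a
          exact map_add (algebraMap ℚ (LaurentSeries ℚ)) (c a) (d a)
        change (fun a => algebraMap ℚ (LaurentSeries ℚ) ((c + d) a)) ∈ V
        rw [e]
        exact h1
      zero_mem' := by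
        have h1 := V.zero_mem
        have e : (fun a => algebraMap ℚ (LaurentSeries ℚ) ((0 : ι → ℚ) a)) = 0 := by
          funext a
          exact map_zero (algebraMap ℚ (LaurentSeries ℚ))
        change (fun a => algebraMap ℚ (LaurentSeries ℚ) ((0 : ι → ℚ) a)) ∈ V
        rw [e]
        exact h1
      smul_mem' := by
        intro r c hc
        have h1 := V.smul_mem (algebraMap ℚ (LaurentSeries ℚ) r) hc
        have e : (fun a => algebraMap ℚ (LaurentSeries ℚ) ((r • c) a)) =
            algebraMap ℚ (LaurentSeries ℚ) r • fun a => algebraMap ℚ (LaurentSeries ℚ) (c a) := by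
          funext a
          exact map_mul (algebraMap ℚ (LaurentSeries ℚ)) r (c a)
        change (fun a => algebraMap ℚ (LaurentSeries ℚ) ((r • c) a)) ∈ V
        rw [e]
        exact h1 }
  have hV0 : ∀ c, c ∈ V0 ↔ (fun a => algebraMap ℚ (LaurentSeries ℚ) (c a)) ∈ V := fun c => Iff.rfl
  let bas := Module.finBasis ℚ V0
  set l := Module.finrank ℚ V0 with hl
  let c : Fin l → ι → ℚ := fun i => (bas i : ι → ℚ)
  have hc1 : LinearIndependent ℚ c := by
    have := bas.linearIndependent.map' V0.subtype (Submodule.ker_subtype V0)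
    exact this
  have hcspan : ∀ d ∈ V0, ∃ g : Fin l → ℚ, d = ∑ i, g i • c i := by
    intro d hd
    refine ⟨fun i => bas.repr ⟨d, hd⟩ i, ?_⟩
    have h1 := bas.sum_repr ⟨d, hd⟩
    have h2 := congrArg (fun v : V0 => (v : ι → ℚ)) h1
    simp only [Submodule.coe_sum, Submodule.coe_smul] at h2
    exact h2.symm
  refine ⟨l, c, hc1, ?_, ?_⟩
  · rw [Fintype.linearIndependent_iff]
    intro g hg i
    ext n
    have h1 : ∑ i, (g i).coeff n • c i = 0 := by
      funext a
      have h2 := congrFun hg a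
      have h3 := congrArg (fun f : LaurentSeries ℚ => f.coeff n) h2
      simp only [Finset.sum_apply, Pi.smul_apply, smul_eq_mul, HahnSeries.coeff_sum, Pi.zero_apply,
        HahnSeries.coeff_zero] at h3
      simp only [Finset.sum_apply, Pi.smul_apply, smul_eq_mul, Pi.zero_apply]
      rw [← h3]
      refine Finset.sum_congr rfl fun j _ => ?_
      rw [mul_comm (g j), rs_algebraMap_mul_coeff, mul_comm]
    exact (Fintype.linearIndependent_iff.1 hc1 _ h1 i)
  · apply le_antisymm
    · intro y hy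
      apply rs_closed
      intro m
      obtain ⟨N, hN⟩ : ∃ N : ℤ, ∀ a, OrdGE N (y a) := by
        choose N hN using fun a => exists_ordGE (y a)
        obtain ⟨M, hM⟩ := (Set.finite_range N).bddBelow
        exact ⟨M, fun a => ordGE_mono (hM ⟨a, rfl⟩) (hN a)⟩
      refine ⟨∑ k ∈ Finset.Ico N m, (HahnSeries.single k (1 : ℚ) : LaurentSeries ℚ) •
        (fun a => algebraMap ℚ (LaurentSeries ℚ) ((y a).coeff k)), ?_, ?_⟩
      · refine Submodule.sum_mem _ fun k _ => Submodule.smul_mem _ _ ?_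
        have hk : (fun a => (y a).coeff k) ∈ V0 := rs_coeff ν χ hχ hcop V hV y hy k
        obtain ⟨g, hg⟩ := hcspan _ hk
        have e : (fun a => algebraMap ℚ (LaurentSeries ℚ) ((y a).coeff k)) =
            ∑ i, algebraMap ℚ (LaurentSeries ℚ) (g i) •
              (fun a => algebraMap ℚ (LaurentSeries ℚ) (c i a) : ι → LaurentSeries ℚ) := by
          funext a
          have h1 := congrFun hg a
          simp only [Finset.sum_apply, Pi.smul_apply, smul_eq_mul] at h1 ⊢
          rw [h1, map_sum]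
          exact Finset.sum_congr rfl fun i _ => map_mul _ _ _
        rw [e]
        refine Submodule.sum_mem _ fun i _ => Submodule.smul_mem _ _ ?_
        exact Submodule.subset_span ⟨i, rfl⟩
      · intro a i hi
        have e : (y a - (∑ k ∈ Finset.Ico N m, (HahnSeries.single k (1 : ℚ) : LaurentSeries ℚ) •
            (fun a => algebraMap ℚ (LaurentSeries ℚ) ((y a).coeff k))) a).coeff i =
            (y a).coeff i - ∑ k ∈ Finset.Ico N m, if i = k then (y a).coeff k else 0 := by
          rw [HahnSeries.coeff_sub, Finset.sum_apply, HahnSeries.coeff_sum]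
          congr 1
          refine Finset.sum_congr rfl fun k _ => ?_
          rw [Pi.smul_apply, smul_eq_mul, algebraMap_eq_single, HahnSeries.single_mul_single, one_mul,
            add_zero]
          by_cases hik : i = k
          · rw [if_pos hik, hik, HahnSeries.coeff_single_same]
          · rw [if_neg hik, HahnSeries.coeff_single_of_ne hik]
        refine e.trans ?_
        rw [Finset.sum_ite_eq]
        by_cases hiN : i < N
        · rw [if_neg (by rw [Finset.mem_Ico]; omega), hN a i hiN, sub_zero]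
        · rw [if_pos (by rw [Finset.mem_Ico]; omega), sub_self]
    · rw [Submodule.span_le]
      rintro _ ⟨i, rfl⟩
      exact (hV0 (c i)).1 (bas i).2

theorem rs_coprime_lin {a b c d : ℚ} (h : a * d - b * c ≠ 0) :
    IsCoprime (C a * X + C b : ℚ[X]) (C c * X + C d) := by
  refine ⟨C (-c / (a * d - b * c)), C (a / (a * d - b * c)), ?_⟩
  have e1 : (C (-c / (a * d - b * c)) : ℚ[X]) * C a + C (a / (a * d - b * c)) * C c = 0 := by
    rw [← C_mul, ← C_mul, ← C_add]
    have : -c / (a * d - b * c) * a + a / (a * d - b * c) * c = 0 := by ring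
    rw [this, C_0]
  have e2 : (C (-c / (a * d - b * c)) : ℚ[X]) * C b + C (a / (a * d - b * c)) * C d = 1 := by
    rw [← C_mul, ← C_mul, ← C_add]
    have h5 : -c / (a * d - b * c) * b + a / (a * d - b * c) * d = 1 := by
      rw [div_mul_eq_mul_div, div_mul_eq_mul_div, ← add_div, div_eq_one_iff_eq h]
      ring
    rw [h5, C_1]
  linear_combination (X : ℚ[X]) * e1 + e2

theorem coprime_shift_nil (m n : ℕ) (hn : 1 ≤ n) :
    IsCoprime ((X : ℚ[X]) ^ m) (((X : ℚ[X]) ^ m).comp (X + C (n : ℚ))) := by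
  rw [pow_comp, X_comp]
  apply IsCoprime.pow
  have hn' : (n : ℚ) ≠ 0 := by
    have : n ≠ 0 := by omega
    exact_mod_cast this
  have := rs_coprime_lin (a := 1) (b := 0) (c := 1) (d := n) (by simpa using hn')
  simpa using this

theorem coprime_shift_half (m n : ℕ) (hn : 1 ≤ n) :
    IsCoprime ((X * (C 2 * X - 1) : ℚ[X]) ^ m)
      (((X * (C 2 * X - 1) : ℚ[X]) ^ m).comp (X + C (n : ℚ))) := by
  rw [pow_comp]
  apply IsCoprime.pow
  have hn' : (1 : ℚ) ≤ n := by exact_mod_cast hn
  have e : (X * (C 2 * X - 1) : ℚ[X]).comp (X + C (n : ℚ)) =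
      (C 1 * X + C (n : ℚ)) * (C 2 * X + C (2 * (n : ℚ) - 1)) := by
    rw [mul_comp, sub_comp, mul_comp, X_comp, C_comp, one_comp, C_sub, C_mul, C_1]
    ring
  have e2 : (X * (C 2 * X - 1) : ℚ[X]) = (C 1 * X + C 0) * (C 2 * X + C (-1)) := by
    rw [C_1, C_0, C_neg, C_1]
    ring
  rw [e, e2]
  refine IsCoprime.mul_left (IsCoprime.mul_right ?_ ?_) (IsCoprime.mul_right ?_ ?_)
  · apply rs_coprime_lin
    intro h
    linarith
  · apply rs_coprime_lin
    intro h
    linarith
  · apply rs_coprime_lin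
    intro h
    linarith
  · apply rs_coprime_lin
    intro h
    linarith

end Pool.Agent.Helper79.GC
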