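import Pool.Agent.Helper79.GC.Defs2

/-!
# GC-41: the linear relations and the algebra `GG`

`pairE w G = ∑ w_ab G_ab`. `Rel Y N` = relations `w` with `pairE w (Y N^k) = 0` for all `k`; `GG Y N` = constant `g` with
`pairE w (Y g) = 0` for all relations `w`.

* `rel_step`: differentiate `pairE w (Y N^k) = 0` (`pairE_dd`), multiply by `T`, use `IsFund`, `pairE_mul_left` and
  `pairE w (Y N^(k+1)) = 0`.
* `gg_left`: the same for `pairE w (Y g) = 0`: `0 = pairE (T w' + Aᵀ w) (Y g) + T x pairE w (Y N g)`, the first term is `0` by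
  `rel_step`, and `T x ≠ 0`.
* `rel_right`: `pairE (w cᵀ) (Y N^k) = pairE w (Y N^k c) = 0` since `N^k c ∈ GG`. `gg_mul`: `pairE w (Y g c) = pairE (w cᵀ) (Y g)`.
* `gg_comm`: for each `(p, q)` the entry `(p, q)` of `G S - S G` is `pairE w G` for a `w` with constant entries
  (`w_ab = [a = p] S_bq - [b = q] S_pa`); `w ∈ Rel` because `Y N^k S = S Y N^k`; so for `g ∈ GG`: `Y g S = S Y g = Y S g`, cancel `Y`
  (`coP 0 Y = 1`, so `det Y` is a unit).
-/

open Polynomial

namespace Pool.Agent.Helper79.GC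

open Pool.Agent.Helper37.GP

variable {ι : Type} [Fintype ι] [DecidableEq ι]

/-- The pairing as a trace. -/
theorem pairE_eq_trace (w : Matrix ι ι ℚ[X]) (G : Matrix ι ι (LaurentSeries ℚ)) :
    pairE w G = ((eM w).transpose * G).trace := by
  unfold pairE Matrix.trace
  rw [Finset.sum_comm]
  refine Finset.sum_congr rfl fun b _ => ?_
  rw [Matrix.diag_apply, Matrix.mul_apply]
  exact Finset.sum_congr rfl fun a _ => rfl

theorem eM_transpose (w : Matrix ι ι ℚ[X]) : eM w.transpose = (eM w).transpose := rfl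

theorem pairE_add_left (w w' : Matrix ι ι ℚ[X]) (G : Matrix ι ι (LaurentSeries ℚ)) :
    pairE (w + w') G = pairE w G + pairE w' G := by
  rw [pairE_eq_trace, pairE_eq_trace, pairE_eq_trace, eM_add, Matrix.transpose_add,
    Matrix.add_mul, Matrix.trace_add]

theorem pairE_add_right (w : Matrix ι ι ℚ[X]) (G G' : Matrix ι ι (LaurentSeries ℚ)) :
    pairE w (G + G') = pairE w G + pairE w G' := by
  rw [pairE_eq_trace, pairE_eq_trace, pairE_eq_trace, Matrix.mul_add, Matrix.trace_add]

theorem pairE_smul_left (p : ℚ[X]) (w : Matrix ι ι ℚ[X]) (G : Matrix ι ι (LaurentSeries ℚ)) :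
    pairE (p • w) G = emb p * pairE w G := by
  rw [pairE_eq_trace, pairE_eq_trace, eM_smul, Matrix.transpose_smul, Matrix.smul_mul,
    Matrix.trace_smul, smul_eq_mul]

theorem pairE_smul_right (w : Matrix ι ι ℚ[X]) (f : LaurentSeries ℚ)
    (G : Matrix ι ι (LaurentSeries ℚ)) : pairE w (f • G) = f * pairE w G := by
  rw [pairE_eq_trace, pairE_eq_trace, Matrix.mul_smul, Matrix.trace_smul, smul_eq_mul]

theorem pairE_ratsmul_right (w : Matrix ι ι ℚ[X]) (c : ℚ) (G : Matrix ι ι (LaurentSeries ℚ)) :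
    pairE w (c • G) = c • pairE w G := by
  unfold pairE
  rw [Finset.smul_sum]
  refine Finset.sum_congr rfl fun a _ => ?_
  rw [Finset.smul_sum]
  refine Finset.sum_congr rfl fun b _ => ?_
  rw [Matrix.smul_apply, mul_smul_comm]

theorem pairE_sum_right {α : Type} (s : Finset α) (w : Matrix ι ι ℚ[X])
    (G : α → Matrix ι ι (LaurentSeries ℚ)) : pairE w (∑ i ∈ s, G i) = ∑ i ∈ s, pairE w (G i) := by
  simp only [pairE_eq_trace, Matrix.mul_sum, Matrix.trace_sum]

theorem pairE_mul_left (w B : Matrix ι ι ℚ[X]) (G : Matrix ι ι (LaurentSeries ℚ)) :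
    pairE w (eM B * G) = pairE (B.transpose * w) G := by
  rw [pairE_eq_trace, pairE_eq_trace, eM_mul, Matrix.transpose_mul, eM_transpose,
    Matrix.transpose_transpose, Matrix.mul_assoc]

theorem pairE_mul_right (w : Matrix ι ι ℚ[X]) (G : Matrix ι ι (LaurentSeries ℚ))
    (c : Matrix ι ι ℚ) : pairE w (G * cM c) = pairE (w * cX c.transpose) G := by
  have h : (eM (cX c.transpose)).transpose = cM c := by
    rw [eM_cX]
    rfl
  rw [pairE_eq_trace, pairE_eq_trace, eM_mul, Matrix.transpose_mul, h, ← Matrix.mul_assoc,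
    Matrix.trace_mul_comm, ← Matrix.mul_assoc]

theorem pairE_dd (w : Matrix ι ι ℚ[X]) (G : Matrix ι ι (LaurentSeries ℚ)) :
    dd (pairE w G) = pairE (w.map derivative) G + pairE w (dM G) := by
  unfold pairE
  rw [dd_sum, ← Finset.sum_add_distrib]
  refine Finset.sum_congr rfl fun a _ => ?_
  rw [dd_sum, ← Finset.sum_add_distrib]
  refine Finset.sum_congr rfl fun b _ => ?_
  rw [dd_mul, dd_emb, dM_apply, Matrix.map_apply]
  ring

variable {T : ℚ[X]} {A : Matrix ι ι ℚ[X]} {Y : Matrix ι ι (PowerSeries ℚ)} {N : Matrix ι ι ℚ}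

/-- The derivative of a pairing with `Y g`, multiplied by `T`. -/
theorem pairE_step (h : IsFund T A Y N) (w : Matrix ι ι ℚ[X]) (g : Matrix ι ι ℚ) :
    emb T * dd (pairE w (pM Y * cM g)) =
      pairE (T • w.map derivative + A.transpose * w) (pM Y * cM g) +
        emb T * xx * pairE w (pM Y * cM (N * g)) := by
  have h1 : emb T • dM (pM Y * cM g) =
      eM A * (pM Y * cM g) + (emb T * xx) • (pM Y * cM (N * g)) := by
    rw [dM_mul, dM_cM, Matrix.mul_zero, add_zero, ← Matrix.smul_mul, h, Matrix.add_mul,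
      Matrix.smul_mul, Matrix.mul_assoc, Matrix.mul_assoc, ← cM_mul]
  rw [pairE_dd, mul_add, ← pairE_smul_left, ← pairE_smul_right w (emb T), h1, pairE_add_right,
    pairE_smul_right, pairE_mul_left, pairE_add_left]
  ring

theorem rel_step (h : IsFund T A Y N) {w : Matrix ι ι ℚ[X]} (hw : w ∈ Rel Y N) :
    T • w.map derivative + A.transpose * w ∈ Rel Y N := by
  intro k
  have h1 := pairE_step h w (N ^ k)
  rw [hw k, ← pow_succ', hw (k + 1), dd_zero, mul_zero, mul_zero, add_zero] at h1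
  exact h1.symm

theorem gg_one : (1 : Matrix ι ι ℚ) ∈ GG Y N := by
  intro w hw
  have := hw 0
  rwa [pow_zero] at this

theorem gg_zero : (0 : Matrix ι ι ℚ) ∈ GG Y N := by
  intro w _
  rw [cM_zero, Matrix.mul_zero, pairE_eq_trace, Matrix.mul_zero, Matrix.trace_zero]

theorem gg_add {g c : Matrix ι ι ℚ} (hg : g ∈ GG Y N) (hc : c ∈ GG Y N) : g + c ∈ GG Y N := by
  intro w hw
  rw [cM_add, Matrix.mul_add, pairE_add_right, hg w hw, hc w hw, add_zero]

theorem gg_smul (c : ℚ) {g : Matrix ι ι ℚ} (hg : g ∈ GG Y N) : c • g ∈ GG Y N := by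
  intro w hw
  rw [cM_ratsmul, Matrix.mul_smul, pairE_ratsmul_right, hg w hw, smul_zero]

theorem gg_sub {g c : Matrix ι ι ℚ} (hg : g ∈ GG Y N) (hc : c ∈ GG Y N) : g - c ∈ GG Y N := by
  have h1 := gg_add hg (gg_smul (-1) hc)
  rwa [neg_smul, one_smul, ← sub_eq_add_neg] at h1

theorem gg_sum {α : Type} (s : Finset α) {g : α → Matrix ι ι ℚ} (hg : ∀ i ∈ s, g i ∈ GG Y N) :
    ∑ i ∈ s, g i ∈ GG Y N := by
  classical
  induction s using Finset.induction_on with
  | empty => rw [Finset.sum_empty]; exact gg_zero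
  | insert a s ha ih =>
    rw [Finset.sum_insert ha]
    exact gg_add (hg a (Finset.mem_insert_self _ _))
      (ih fun i hi => hg i (Finset.mem_insert_of_mem hi))

theorem gg_left (hT : T ≠ 0) (h : IsFund T A Y N) {g : Matrix ι ι ℚ} (hg : g ∈ GG Y N) :
    N * g ∈ GG Y N := by
  intro w hw
  have h0 : emb T ≠ 0 := by
    intro h'
    exact hT (emb_injective (by rw [h', map_zero]))
  have h1 := pairE_step h w g
  rw [hg w hw, hg _ (rel_step h hw), dd_zero, mul_zero, zero_add] at h1
  rcases mul_eq_zero.1 h1.symm with h2 | h2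
  · exact absurd h2 (mul_ne_zero h0 xx_ne_zero)
  · exact h2

theorem gg_pow (hT : T ≠ 0) (h : IsFund T A Y N) (k : ℕ) : N ^ k ∈ GG Y N := by
  induction k with
  | zero => rw [pow_zero]; exact gg_one
  | succ k ih => rw [pow_succ']; exact gg_left hT h ih

theorem gg_pow_mul (hT : T ≠ 0) (h : IsFund T A Y N) {c : Matrix ι ι ℚ} (hc : c ∈ GG Y N)
    (k : ℕ) : N ^ k * c ∈ GG Y N := by
  induction k with
  | zero => rw [pow_zero, Matrix.one_mul]; exact hc
  | succ k ih => rw [pow_succ', Matrix.mul_assoc]; exact gg_left hT h ih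

theorem rel_right (hT : T ≠ 0) (h : IsFund T A Y N) {w : Matrix ι ι ℚ[X]} (hw : w ∈ Rel Y N)
    {c : Matrix ι ι ℚ} (hc : c ∈ GG Y N) : w * cX c.transpose ∈ Rel Y N := by
  intro k
  rw [← pairE_mul_right, Matrix.mul_assoc, ← cM_mul]
  exact gg_pow_mul hT h hc k w hw

theorem gg_mul (hT : T ≠ 0) (h : IsFund T A Y N) {g c : Matrix ι ι ℚ} (hg : g ∈ GG Y N)
    (hc : c ∈ GG Y N) : g * c ∈ GG Y N := by
  intro w hw
  rw [cM_mul, ← Matrix.mul_assoc, pairE_mul_right]
  exact hg _ (rel_right hT h hw hc)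

theorem pM_isUnit {Y : Matrix ι ι (PowerSeries ℚ)} (h0 : coP 0 Y = 1) : IsUnit Y.det := by
  rw [PowerSeries.isUnit_iff_constantCoeff, RingHom.map_det]
  have : (PowerSeries.constantCoeff (R := ℚ)).mapMatrix Y = 1 := by
    rw [← h0]
    ext1 a b
    rw [RingHom.mapMatrix_apply, Matrix.map_apply, coP_apply, PowerSeries.coeff_zero_eq_constantCoeff]
  rw [this, Matrix.det_one]
  exact isUnit_one

theorem gg_comm (h0 : coP 0 Y = 1) {S : Matrix ι ι ℚ} (hY : Y * cP S = cP S * Y)
    (hN : S * N = N * S) {g : Matrix ι ι ℚ} (hg : g ∈ GG Y N) : S * g = g * S := by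
  -- the constant relations expressing commutation with `S`
  let W : ι → ι → Matrix ι ι ℚ[X] := fun p q =>
    Matrix.of fun a b => C ((if a = p then S b q else 0) - (if b = q then S p a else 0))
  have hW : ∀ (p q : ι) (G : Matrix ι ι (LaurentSeries ℚ)),
      pairE (W p q) G = (G * cM S - cM S * G) p q := by
    intro p q G
    have e1 : ∀ a b, emb (W p q a b) * G a b =
        (if a = p then algebraMap ℚ (LaurentSeries ℚ) (S b q) * G a b else 0) -
          (if b = q then algebraMap ℚ (LaurentSeries ℚ) (S p a) * G a b else 0) := by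
      intro a b
      have : W p q a b = C ((if a = p then S b q else 0) - (if b = q then S p a else 0)) := rfl
      rw [this, emb_C, map_sub, sub_mul]
      congr 1
      · split_ifs <;> simp
      · split_ifs <;> simp
    unfold pairE
    simp only [e1, Finset.sum_sub_distrib]
    rw [Matrix.sub_apply, Matrix.mul_apply, Matrix.mul_apply]
    congr 1
    · rw [Finset.sum_comm]
      refine Finset.sum_congr rfl fun b _ => ?_
      rw [Finset.sum_ite_eq' Finset.univ p, if_pos (Finset.mem_univ _), cM_apply, mul_comm]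
    · refine Finset.sum_congr rfl fun a _ => ?_
      rw [Finset.sum_ite_eq' Finset.univ q, if_pos (Finset.mem_univ _), cM_apply]
  have hYL : pM Y * cM S = cM S * pM Y := by
    have := congrArg pM hY
    rwa [pM_mul, pM_mul, pM_cP] at this
  have hNk : ∀ k : ℕ, S * N ^ k = N ^ k * S := fun k => (Commute.pow_right (show Commute S N from hN) k)
  have hWR : ∀ p q, W p q ∈ Rel Y N := by
    intro p q k
    have h1 : pM Y * cM (N ^ k) * cM S = cM S * (pM Y * cM (N ^ k)) := by
      rw [Matrix.mul_assoc, ← cM_mul, ← hNk k, cM_mul, ← Matrix.mul_assoc, hYL, Matrix.mul_assoc]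
    rw [hW, h1, sub_self, Matrix.zero_apply]
  have key : pM Y * cM g * cM S = cM S * (pM Y * cM g) := by
    ext1 p q
    have h1 := hg _ (hWR p q)
    rw [hW, Matrix.sub_apply, sub_eq_zero] at h1
    exact h1
  have h2 : pM Y * cM (g * S) = pM Y * cM (S * g) := by
    rw [cM_mul, cM_mul, ← Matrix.mul_assoc, key, ← Matrix.mul_assoc, ← hYL, Matrix.mul_assoc]
  have h3 : pM (Y * cP (g * S)) = pM (Y * cP (S * g)) := by
    rw [pM_mul, pM_mul, pM_cP, pM_cP, h2]
  have h4 : Y * cP (g * S) = Y * cP (S * g) := pM_injective h3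
  have hu : IsUnit Y := (Matrix.isUnit_iff_isUnit_det _).2 (pM_isUnit h0)
  have h5 : cP (g * S) = cP (S * g) := hu.mul_left_cancel h4
  ext1 a b
  have h6 := congrFun (congrFun h5 a) b
  rw [cP_apply, cP_apply] at h6
  exact (PowerSeries.C_injective h6).symm

end Pool.Agent.Helper79.GC
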