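import Pool.Agent.Helper79.GC.RelAlg
import Pool.Agent.Helper79.GC.RS

/-!
# GC-42: the matrices satisfying all the relations are `Y G'` with coefficients of `G'` in `GG`

`V = {y : ι × ι → K | ∀ w ∈ Rel, pairE w (Y y) = 0}` (`y` as a matrix, `K = LaurentSeries ℚ`) is a `K`-subspace, stable under
`y ↦ y' + x N y`: `0 = T dd(pairE w (Y y)) = pairE (T w' + Aᵀ w) (Y y) + T pairE w (Y (y' + x N y))` (`pairE_dd`, `IsFund`, `rel_step`).
`rs_coeff` for the index type `ι × ι`, `ν = N ⊗ 1` (`ν (a,b) (c,d) = N a c` if `b = d`, else `0`), `χ = (X (2 X - 1))^m`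
(`Half N`, `aeval ν χ = 0`: `ν = N ⊗ 1` is the image of `N` under an algebra homomorphism), `coprime_shift_half`: the constant matrices
`coL n y` belong to `V`, i.e. to `GG`. Apply it to `G' = Y⁻¹ G` (`Y⁻¹` as power series, `pM_isUnit`).
-/

open Polynomial

namespace Pool.Agent.Helper79.GC

open Pool.Agent.Helper37.GP

variable {ι : Type} [Fintype ι] [DecidableEq ι]

variable {T : ℚ[X]} {A : Matrix ι ι ℚ[X]} {Y : Matrix ι ι (PowerSeries ℚ)} {N : Matrix ι ι ℚ}

/-- a vector indexed by pairs, as a matrix -/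
def rsMm {ι : Type} (y : ι × ι → LaurentSeries ℚ) : Matrix ι ι (LaurentSeries ℚ) :=
  Matrix.of fun a b => y (a, b)

theorem rsMm_apply {ι : Type} (y : ι × ι → LaurentSeries ℚ) (a b : ι) :
    rsMm y a b = y (a, b) := rfl

/-- the matrix `N ⊗ 1` -/
def rsNu (N : Matrix ι ι ℚ) : Matrix (ι × ι) (ι × ι) ℚ := Matrix.kroneckerMap (· * ·) N (1 : Matrix ι ι ℚ)

theorem rsNu_mul (M M' : Matrix ι ι ℚ) : rsNu M * rsNu M' = rsNu (M * M') := by
  unfold rsNu
  have := Matrix.mul_kronecker_mul M M' (1 : Matrix ι ι ℚ) (1 : Matrix ι ι ℚ)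
  rw [mul_one] at this
  exact this.symm

omit [Fintype ι] in
theorem rsNu_one : rsNu (1 : Matrix ι ι ℚ) = 1 := Matrix.one_kronecker_one

theorem rsNu_pow (M : Matrix ι ι ℚ) (m : ℕ) : rsNu M ^ m = rsNu (M ^ m) := by
  induction m with
  | zero => rw [pow_zero, pow_zero, rsNu_one]
  | succ m ih => rw [pow_succ, pow_succ, ih, rsNu_mul]

theorem rsNu_half (hN : Half N) : ∃ m : ℕ,
    aeval (rsNu N) ((X * (C 2 * X - 1) : ℚ[X]) ^ m) = 0 := by
  obtain ⟨m, hm⟩ := hN
  refine ⟨m, ?_⟩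
  have h2 : (2 : ℚ) • rsNu N - 1 = rsNu ((2 : ℚ) • N - 1) := by
    rw [← rsNu_one]
    ext ⟨a, b⟩ ⟨c, d⟩
    simp only [rsNu, Matrix.sub_apply, Matrix.smul_apply, Matrix.kroneckerMap_apply, smul_eq_mul]
    ring
  rw [map_pow, map_mul, map_sub, map_mul, aeval_X, aeval_C, map_one, Algebra.algebraMap_eq_smul_one,
    smul_mul_assoc, one_mul, h2, rsNu_mul, rsNu_pow, hm]
  ext ⟨a, b⟩ ⟨c, d⟩
  simp [rsNu]

theorem rsNu_sum (N : Matrix ι ι ℚ) (y : ι × ι → LaurentSeries ℚ) (p : ι × ι) :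
    ∑ q, algebraMap ℚ (LaurentSeries ℚ) (rsNu N p q) * y q = (cM N * rsMm y) p.1 p.2 := by
  rw [Fintype.sum_prod_type, Matrix.mul_apply]
  refine Finset.sum_congr rfl fun c _ => ?_
  rw [Finset.sum_eq_single p.2]
  · rw [rsMm_apply, cM_apply]
    simp [rsNu]
  · intro d _ hd
    have : rsNu N p (c, d) = 0 := by
      simp [rsNu, Matrix.one_apply_ne (Ne.symm hd)]
    rw [this, map_zero, zero_mul]
  · intro h
    exact absurd (Finset.mem_univ _) h

/-- the subspace defined by the relations -/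
noncomputable def rsV (Y : Matrix ι ι (PowerSeries ℚ)) (N : Matrix ι ι ℚ) :
    Submodule (LaurentSeries ℚ) (ι × ι → LaurentSeries ℚ) where
  carrier := {y | ∀ w ∈ Rel Y N, pairE w (pM Y * rsMm y) = 0}
  add_mem' := by
    intro y z hy hz w hw
    have e : rsMm (y + z) = rsMm y + rsMm z := rfl
    rw [e, Matrix.mul_add, pairE_add_right, hy w hw, hz w hw, add_zero]
  zero_mem' := by
    intro w _
    have e : rsMm (0 : ι × ι → LaurentSeries ℚ) = 0 := rfl
    rw [e, Matrix.mul_zero]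
    simp [pairE]
  smul_mem' := by
    intro f y hy w hw
    have e : rsMm (f • y) = f • rsMm y := rfl
    rw [e, Matrix.mul_smul, pairE_smul_right, hy w hw, mul_zero]

theorem mem_rsV {y : ι × ι → LaurentSeries ℚ} :
    y ∈ rsV Y N ↔ ∀ w ∈ Rel Y N, pairE w (pM Y * rsMm y) = 0 := Iff.rfl

theorem rsV_stable (hT : T ≠ 0) (h : IsFund T A Y N) {y : ι × ι → LaurentSeries ℚ}
    (hy : y ∈ rsV Y N) : (fun p => dd (y p) +
      xx * ∑ q, algebraMap ℚ (LaurentSeries ℚ) (rsNu N p q) * y q) ∈ rsV Y N := by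
  have h0 : emb T ≠ 0 := by
    intro h
    exact hT (emb_injective (by rw [h, map_zero]))
  rw [mem_rsV] at hy ⊢
  intro w hw
  have e : rsMm (fun p => dd (y p) +
      xx * ∑ q, algebraMap ℚ (LaurentSeries ℚ) (rsNu N p q) * y q) =
      dM (rsMm y) + xx • (cM N * rsMm y) := by
    ext1 a b
    rw [rsMm_apply, rsNu_sum]
    rfl
  rw [e]
  apply (mul_eq_zero.1 _).resolve_left h0
  rw [← pairE_smul_right]
  have e2 : emb T • (pM Y * (dM (rsMm y) + xx • (cM N * rsMm y))) =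
      emb T • dM (pM Y * rsMm y) + (-1 : LaurentSeries ℚ) • (eM A * (pM Y * rsMm y)) := by
    have h' : emb T • dM (pM Y) = eM A * pM Y + (emb T * xx) • (pM Y * cM N) := h
    have e3 : emb T • (dM (pM Y) * rsMm y) =
        (eM A * pM Y + (emb T * xx) • (pM Y * cM N)) * rsMm y := by
      rw [← Matrix.smul_mul, h']
    rw [dM_mul, smul_add, e3]
    simp only [Matrix.add_mul, Matrix.mul_add, smul_add, Matrix.smul_mul, Matrix.mul_smul,
      Matrix.mul_assoc, neg_smul, one_smul, smul_smul]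
    abel
  have h1 := pairE_dd w (pM Y * rsMm y)
  rw [hy w hw, dd_zero] at h1
  have h2 := hy _ (rel_step h hw)
  rw [pairE_add_left, pairE_smul_left] at h2
  rw [e2, pairE_add_right, pairE_smul_right, pairE_smul_right, pairE_mul_left]
  linear_combination (-(emb T)) * h1 - h2

theorem rel_span (hT : T ≠ 0) (h : IsFund T A Y N) (h0 : coP 0 Y = 1) (hN : Half N)
    {G : Matrix ι ι (LaurentSeries ℚ)} (hG : ∀ w ∈ Rel Y N, pairE w G = 0) :
    ∃ G' : Matrix ι ι (LaurentSeries ℚ), G = pM Y * G' ∧ ∀ n : ℤ, coL n G' ∈ GG Y N := by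
  have hu : IsUnit Y.det := pM_isUnit h0
  have hG' : G = pM Y * (pM Y⁻¹ * G) := by
    rw [← Matrix.mul_assoc, ← pM_mul, Matrix.mul_nonsing_inv _ hu, pM_one, Matrix.one_mul]
  refine ⟨pM Y⁻¹ * G, hG', ?_⟩
  obtain ⟨m, hm⟩ := rsNu_half hN
  intro n w hw
  have hy : (fun p : ι × ι => (pM Y⁻¹ * G) p.1 p.2) ∈ rsV Y N := by
    rw [mem_rsV]
    intro w hw
    have e : rsMm (fun p : ι × ι => (pM Y⁻¹ * G) p.1 p.2) = pM Y⁻¹ * G := rfl
    rw [e, ← hG']
    exact hG w hw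
  have h1 := rs_coeff (rsNu N) _ hm (fun n hn => coprime_shift_half m n hn) (rsV Y N)
    (fun y hy => rsV_stable hT h hy) _ hy n
  exact h1 w hw

end Pool.Agent.Helper79.GC
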