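import Mathlib

/-!
# GC-20: meromorphic functions on the Riemann sphere are rational

* `rational_of_meromorphic`: `z ↦ f z⁻¹` is meromorphic at `0`, so it is analytic in a punctured neighbourhood of `0`
  (`MeromorphicAt.eventually_analyticAt`), so `f` is analytic for large `‖z‖`; the points where `f` is not analytic (or
  the order is negative) are isolated and lie in a compact ball, so they are finitely many (for each point `u` some
  `(z - u)^n f(z)` extends analytically near `u`). Multiply by a polynomial `q ≠ 0` such that `q f` has nonnegative order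
  everywhere, so it agrees, off a discrete set, with an entire function `g` (`toMeromorphicNFOn`, or directly by removable
  singularities). `g z⁻¹` is meromorphic at `0`, so `‖g z‖ ≤ C ‖z‖^m` for large `‖z‖`; an entire function of polynomial
  growth is a polynomial (subtract the Taylor polynomial of degree `m`, divide by `z^(m+1)`, Liouville; or Cauchy
  estimates). Mathlib: `MeromorphicOn.extract_finite_zeros_poles` may help.

Proof by helper87.
-/

open Polynomial Filter Topology

namespace Pool.Agent.Helper79.GC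

/-- an entire function of polynomial growth is a polynomial -/
private theorem poly_of_growth (g : ℂ → ℂ) (hg : Differentiable ℂ g) (C R : ℝ) (m : ℕ)
    (hb : ∀ z : ℂ, R ≤ ‖z‖ → ‖g z‖ ≤ C * ‖z‖ ^ m) : ∃ p : ℂ[X], ∀ z, g z = p.eval z := by
  have hzero : ∀ n, m < n → iteratedDeriv n g 0 = 0 := by
    intro n hn
    have hbound : ∀ r : ℝ, 0 < r → R ≤ r →
        ‖iteratedDeriv n g 0‖ ≤ n.factorial * (C * r ^ m) / r ^ n := by
      intro r hr hRr
      apply Complex.norm_iteratedDeriv_le_of_forall_mem_sphere_norm_le n hr hg.diffContOnCl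
      intro z hz
      rw [mem_sphere_zero_iff_norm] at hz
      have := hb z (by rw [hz]; exact hRr)
      rwa [hz] at this
    have hlim : Tendsto (fun r : ℝ => n.factorial * (C * r ^ m) / r ^ n) atTop (𝓝 0) := by
      have h1 : Tendsto (fun r : ℝ => (n.factorial * C) * (r ^ (n - m))⁻¹) atTop (𝓝 0) := by
        have h2 : Tendsto (fun r : ℝ => (r ^ (n - m))⁻¹) atTop (𝓝 0) :=
          (tendsto_pow_atTop (by omega)).inv_tendsto_atTop
        have h3 := h2.const_mul ((n.factorial : ℝ) * C)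
        rwa [mul_zero] at h3
      refine h1.congr' ?_
      filter_upwards [eventually_gt_atTop 0] with r hr
      have h4 : r ^ n = r ^ (n - m) * r ^ m := by
        rw [← pow_add]; congr 1; omega
      rw [h4]
      field_simp
    have h5 : ‖iteratedDeriv n g 0‖ ≤ 0 := by
      refine ge_of_tendsto hlim ?_
      filter_upwards [eventually_gt_atTop 0, eventually_ge_atTop R] with r hr hRr
      exact hbound r hr hRr
    exact norm_le_zero_iff.1 h5
  refine ⟨∑ n ∈ Finset.range (m + 1),
    Polynomial.monomial n ((n.factorial : ℂ)⁻¹ * iteratedDeriv n g 0), fun z => ?_⟩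
  rw [← Complex.taylorSeries_eq_of_entire' 0 z hg, Polynomial.eval_finsetSum,
    tsum_eq_sum (s := Finset.range (m + 1))]
  · refine Finset.sum_congr rfl fun n _ => ?_
    rw [Polynomial.eval_monomial, sub_zero]
  · intro n hn
    rw [Finset.mem_range] at hn
    rw [hzero n (by omega), mul_zero, zero_mul]

theorem rational_of_meromorphic (f : ℂ → ℂ) (hf : MeromorphicOn f Set.univ)
    (hinf : MeromorphicAt (fun z => f z⁻¹) 0) :
    ∃ p q : ℂ[X], q ≠ 0 ∧ ∀ u, ∀ᶠ z in 𝓝[≠] u, q.eval z * f z = p.eval z := by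
  classical
  -- analytic for large arguments
  obtain ⟨R, hR0, hR⟩ : ∃ R : ℝ, 0 < R ∧ ∀ z : ℂ, R < ‖z‖ → AnalyticAt ℂ f z := by
    have h1 := hinf.eventually_analyticAt
    rw [eventually_nhdsWithin_iff, Metric.eventually_nhds_iff] at h1
    obtain ⟨ε, hε, h2⟩ := h1
    refine ⟨ε⁻¹, inv_pos.2 hε, fun z hz => ?_⟩
    have hz0 : z ≠ 0 := by
      rintro rfl
      rw [norm_zero] at hz
      exact absurd hz (not_lt.2 (inv_pos.2 hε).le)
    have h3 : AnalyticAt ℂ (fun z => f z⁻¹) z⁻¹ := by
      apply h2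
      · rw [dist_zero_right, norm_inv]
        exact inv_lt_of_inv_lt₀ hε hz
      · exact inv_ne_zero hz0
    have h4 : AnalyticAt ℂ (fun z : ℂ => z⁻¹) z := analyticAt_inv hz0
    have h5 := h3.comp h4
    refine h5.congr ?_
    filter_upwards [] with w
    simp
  -- finitely many bad points
  let S : Set ℂ := {z | ¬ AnalyticAt ℂ f z}
  have hSfin : S.Finite := by
    by_contra hinfin
    obtain ⟨x, -, hx⟩ := Set.Infinite.exists_accPt_of_subset_isCompact (s := S) hinfin
      (isCompact_closedBall (0 : ℂ) R) (by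
        intro z hz
        rw [mem_closedBall_zero_iff]
        by_contra hcon
        exact hz (hR z (not_le.1 hcon)))
    have h1 := (hf x (Set.mem_univ x)).eventually_analyticAt
    rw [accPt_iff_frequently_nhdsNE] at hx
    exact hx (h1.mono fun z hz => not_not.2 hz)
  have hmer : ∀ u : ℂ, ∃ n : ℕ, AnalyticAt ℂ (fun z => (z - u) ^ n • f z) u :=
    fun u => hf u (Set.mem_univ u)
  choose n hn using hmer
  let q : ℂ[X] := ∏ u ∈ hSfin.toFinset, (X - C u) ^ (n u)
  have hq0 : q ≠ 0 := (Polynomial.monic_prod_of_monic _ _ fun u _ =>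
    (Polynomial.monic_X_sub_C u).pow _).ne_zero
  let g : ℂ → ℂ := fun z => q.eval z * f z
  have hpol : ∀ (r : ℂ[X]) (z : ℂ), AnalyticAt ℂ (fun w => r.eval w) z := by
    intro r z
    exact (Polynomial.differentiable r).analyticAt z
  have hg : Differentiable ℂ g := by
    intro z
    apply AnalyticAt.differentiableAt
    by_cases hz : AnalyticAt ℂ f z
    · exact (hpol q z).mul hz
    · have hzS : z ∈ hSfin.toFinset := hSfin.mem_toFinset.2 hz
      have h1 : g = fun w => (∏ u ∈ hSfin.toFinset.erase z, (X - C u) ^ (n u) : ℂ[X]).eval w *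
          ((w - z) ^ (n z) • f w) := by
        funext w
        simp only [g, q]
        rw [← Finset.mul_prod_erase _ _ hzS, Polynomial.eval_mul, Polynomial.eval_pow,
          Polynomial.eval_sub, Polynomial.eval_X, Polynomial.eval_C, smul_eq_mul]
        ring
      rw [h1]
      exact (hpol _ z).mul (hn z)
  -- growth
  obtain ⟨m, C, R', hR', hfb⟩ : ∃ (m : ℕ) (C R' : ℝ), 1 ≤ R' ∧ ∀ z : ℂ, R' ≤ ‖z‖ →
      ‖f z‖ ≤ C * ‖z‖ ^ m := by
    obtain ⟨m, hm⟩ := hinf
    have h1 := hm.continuousAt.norm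
    have h2 : ∀ᶠ z in 𝓝 (0 : ℂ), ‖(z - 0) ^ m • f z⁻¹‖ <
        ‖((0 : ℂ) - 0) ^ m • f (0 : ℂ)⁻¹‖ + 1 :=
      h1.eventually (gt_mem_nhds (lt_add_one _))
    rw [Metric.eventually_nhds_iff] at h2
    obtain ⟨ε, hε, h3⟩ := h2
    refine ⟨m, ‖((0 : ℂ) - 0) ^ m • f (0 : ℂ)⁻¹‖ + 1, max 1 (2 * ε⁻¹), le_max_left _ _,
      fun z hz => ?_⟩
    have hz1 : 1 ≤ ‖z‖ := (le_max_left _ _).trans hz
    have hz2 : 2 * ε⁻¹ ≤ ‖z‖ := (le_max_right _ _).trans hz
    have hz0 : z ≠ 0 := by
      rintro rfl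
      rw [norm_zero] at hz1
      linarith
    have h4 := h3 (y := z⁻¹) (by
      rw [dist_zero_right, norm_inv]
      apply inv_lt_of_inv_lt₀ hε
      have : 0 < ε⁻¹ := inv_pos.2 hε
      linarith)
    rw [sub_zero, inv_inv, norm_smul, norm_pow, norm_inv] at h4
    have h5 : ‖f z‖ = (‖z‖⁻¹ ^ m * ‖f z‖) * ‖z‖ ^ m := by
      have h6 : ‖z‖ ≠ 0 := norm_ne_zero_iff.2 hz0
      rw [inv_pow, mul_right_comm, inv_mul_cancel₀ (pow_ne_zero m h6), one_mul]
    rw [h5]
    exact mul_le_mul_of_nonneg_right h4.le (by positivity)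
  obtain ⟨p, hp⟩ : ∃ p : ℂ[X], ∀ z, g z = p.eval z := by
    have hC0 : ∃ C' : ℝ, 0 ≤ C' ∧ C ≤ C' := ⟨max 0 C, le_max_left _ _, le_max_right _ _⟩
    obtain ⟨C', hC'0, hC'⟩ := hC0
    apply poly_of_growth g hg ((∑ i ∈ Finset.range (q.natDegree + 1), ‖q.coeff i‖) * C') R'
      (q.natDegree + m)
    intro z hz
    have hz1 : 1 ≤ ‖z‖ := hR'.trans hz
    have hqb : ‖q.eval z‖ ≤ (∑ i ∈ Finset.range (q.natDegree + 1), ‖q.coeff i‖) *
        ‖z‖ ^ q.natDegree := by
      rw [Polynomial.eval_eq_sum_range, Finset.sum_mul]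
      refine (norm_sum_le _ _).trans (Finset.sum_le_sum fun i hi => ?_)
      rw [norm_mul, norm_pow]
      rw [Finset.mem_range] at hi
      exact mul_le_mul_of_nonneg_left (pow_le_pow_right₀ hz1 (by omega)) (norm_nonneg _)
    have hfz : ‖f z‖ ≤ C' * ‖z‖ ^ m :=
      (hfb z hz).trans (mul_le_mul_of_nonneg_right hC' (by positivity))
    calc ‖g z‖ = ‖q.eval z‖ * ‖f z‖ := norm_mul _ _
      _ ≤ ((∑ i ∈ Finset.range (q.natDegree + 1), ‖q.coeff i‖) * ‖z‖ ^ q.natDegree) *
          (C' * ‖z‖ ^ m) := mul_le_mul hqb hfz (norm_nonneg _) (by positivity)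
      _ = _ := by rw [pow_add]; ring
  refine ⟨p, q, hq0, fun u => ?_⟩
  filter_upwards [] with z
  exact hp z

end Pool.Agent.Helper79.GC
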