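import Pool.Agent.Helper79.GC.CexpM
import Pool.Agent.Helper79.GC.HalfSplit

/-!
# GC-22: independence of logarithms over single valued functions

* `strip_indep`: `F(w) = ∑_a φ(e^w)_a (exp(-w ν) e)_a` is analytic on the strip `log ρ₀ < Re w < log ρ'` (convex), and `0`
  near `w₁`, so it is `0` on the strip. So for `u = e^w` in the annulus and all `n ∈ ℤ`: `φ(u) · exp(-(w + 2πi n) ν) e = 0`.
  Let `ν = N + p/2` (`half_split`; `N`, `p` commuting polynomials in `ν`), `E = exp(-w ν) e`. `exp(-2πi n ν) =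
  (∑_k (-2πi n)^k N^k / k!) (1 - p + (-1)^n p)`. Even `n`: a polynomial in `n` with infinitely many zeros, so
  `φ(u) · N^k E = 0` for all `k`; odd `n`: `φ(u) · N^k (1 - 2p) E = 0`. Hence `φ(u) · N^k p^ε E = 0`, so
  `φ(u) · g(ν) E = 0` for every polynomial `g` (`ν = N + p/2`), and `ν^k e = ν^k exp(w ν) E` is of this form (`cexpM_poly`).
-/

open Polynomial Filter Topology

namespace Pool.Agent.Helper79.GC

open Pool.Agent.Helper37.GP

namespace Strip

variable {R : ℕ}

theorem cexpM_nilp (w : ℂ) (N : Matrix (Fin R) (Fin R) ℚ) {m : ℕ} (hN : N ^ m = 0) :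
    cexpM w N = ∑ k ∈ Finset.range m, ((k.factorial : ℂ)⁻¹ * w ^ k) • (qC N) ^ k := by
  unfold cexpM
  have h1 := congrFun (NormedSpace.exp_eq_tsum (𝔸 := Matrix (Fin R) (Fin R) ℂ) ℂ) (w • qC N)
  rw [h1]
  have h2 : (qC N) ^ m = 0 := by
    rw [← qC_pow, hN]
    ext a b
    simp [qC]
  rw [tsum_eq_sum (s := Finset.range m)]
  · apply Finset.sum_congr rfl
    intro k _
    rw [_root_.smul_pow, smul_smul]
  · intro k hk
    have hk' : m ≤ k := by simpa using hk
    obtain ⟨d, rfl⟩ := Nat.exists_eq_add_of_le hk'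
    rw [_root_.smul_pow, pow_add (qC N), h2, zero_mul, smul_zero, smul_zero]

theorem exp_idem (c : ℂ) {p : Matrix (Fin R) (Fin R) ℂ} (hp : p * p = p) :
    NormedSpace.exp (c • p) = (1 - p) + Complex.exp c • p := by
  have h1 := congrFun (NormedSpace.exp_eq_tsum (𝔸 := Matrix (Fin R) (Fin R) ℂ) ℂ) (c • p)
  rw [h1]
  have h2 : HasSum (fun n : ℕ => ((n.factorial : ℂ)⁻¹) • c ^ n) (NormedSpace.exp c) :=
    NormedSpace.exp_series_hasSum_exp' (𝕂 := ℂ) c
  rw [← Complex.exp_eq_exp_ℂ] at h2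
  have h3 := h2.smul_const p
  have h4 : HasSum (fun n : ℕ => if n = 0 then (1 - p) else 0) (1 - p) := by
    convert hasSum_ite_eq (0 : ℕ) (1 - p) using 1
  have h5 := h4.add h3
  have h6 : (fun n : ℕ => ((n.factorial : ℂ)⁻¹) • (c • p) ^ n) =
      fun n : ℕ => (if n = 0 then (1 - p) else 0) + (((n.factorial : ℂ)⁻¹) • c ^ n) • p := by
    funext n
    have hpn : ∀ k : ℕ, p ^ (k + 1) = p := by
      intro k
      induction k with
      | zero => simp
      | succ k ih => rw [pow_succ, ih, hp]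
    rcases n with _ | n
    · simp
    · rw [if_neg (Nat.succ_ne_zero n), zero_add, _root_.smul_pow, hpn, smul_smul, smul_eq_mul]
  rw [h6]
  exact h5.tsum_eq

theorem lin_nilp (N : Matrix (Fin R) (Fin R) ℚ) {m : ℕ} (hN : N ^ m = 0)
    (ψ : Matrix (Fin R) (Fin R) ℂ →ₗ[ℂ] ℂ) (s : ℕ → ℂ) (hs : Function.Injective s)
    (h : ∀ j, ψ (cexpM (s j) N) = 0) (k : ℕ) : ψ ((qC N) ^ k) = 0 := by
  have h2 : (qC N) ^ m = 0 := by
    rw [← qC_pow, hN]
    ext a b
    simp [qC]
  by_cases hk : k < m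
  · set G : ℂ[X] := ∑ k ∈ Finset.range m, C ((k.factorial : ℂ)⁻¹ * ψ ((qC N) ^ k)) * X ^ k with hG
    have hG0 : G = 0 := by
      apply Polynomial.eq_zero_of_infinite_isRoot
      apply Set.Infinite.mono (s := Set.range s)
      · rintro _ ⟨j, rfl⟩
        have hj := h j
        rw [cexpM_nilp _ _ hN, map_sum] at hj
        simp only [Set.mem_ofPred_eq, IsRoot.def]
        rw [hG, eval_finsetSum, ← hj]
        apply Finset.sum_congr rfl
        intro k _
        rw [map_smul, smul_eq_mul, eval_mul, eval_C, eval_pow, eval_X]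
        ring
      · exact Set.infinite_range_of_injective hs
    have hc : G.coeff k = (k.factorial : ℂ)⁻¹ * ψ ((qC N) ^ k) := by
      rw [hG, finsetSum_coeff]
      simp only [coeff_C_mul, coeff_X_pow]
      rw [Finset.sum_eq_single k]
      · simp
      · intro b _ hb
        rw [if_neg (Ne.symm hb), mul_zero]
      · intro hk'
        exact absurd (Finset.mem_range.mpr hk) hk'
    rw [hG0, coeff_zero] at hc
    have hf : ((k.factorial : ℂ)⁻¹) ≠ 0 := inv_ne_zero (by exact_mod_cast k.factorial_ne_zero)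
    exact (mul_eq_zero.mp hc.symm).resolve_left hf
  · obtain ⟨d, rfl⟩ := Nat.exists_eq_add_of_le (not_lt.mp hk)
    rw [pow_add, h2, zero_mul, map_zero]

/-- The linear functional `X ↦ f · X E`. -/
noncomputable def func (f E : Fin R → ℂ) : Matrix (Fin R) (Fin R) ℂ →ₗ[ℂ] ℂ where
  toFun X := ∑ a, f a * X.mulVec E a
  map_add' X Y := by
    rw [← Finset.sum_add_distrib]
    apply Finset.sum_congr rfl
    intro a _
    rw [Matrix.add_mulVec, Pi.add_apply, mul_add]
  map_smul' c X := by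
    rw [RingHom.id_apply, smul_eq_mul, Finset.mul_sum]
    apply Finset.sum_congr rfl
    intro a _
    rw [Matrix.smul_mulVec, Pi.smul_apply, smul_eq_mul]
    ring

theorem func_apply (f E : Fin R → ℂ) (X : Matrix (Fin R) (Fin R) ℂ) :
    func f E X = ∑ a, f a * X.mulVec E a := rfl

theorem func_mulVec (f E : Fin R → ℂ) (X Y : Matrix (Fin R) (Fin R) ℂ) :
    func f (Y.mulVec E) X = func f E (X * Y) := by
  simp only [func_apply, Matrix.mulVec_mulVec]

theorem key {ν : Matrix (Fin R) (Fin R) ℚ} (hν : Half ν) (ψ : Matrix (Fin R) (Fin R) ℂ →ₗ[ℂ] ℂ)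
    (h : ∀ n : ℕ, ψ (cexpM (-(2 * Real.pi * Complex.I * n)) ν) = 0) (k : ℕ) :
    ψ ((qC ν) ^ k) = 0 := by
  obtain ⟨P, Q, m, hN, hQ, hs⟩ := half_split hν
  set N := aeval ν P with hNdef
  set p := aeval ν Q with hpdef
  have hcomm : N * p = p * N := by
    rw [hNdef, hpdef, ← map_mul, mul_comm, map_mul]
  have hqp : qC p * qC p = qC p := by rw [← qC_mul, hQ]
  have hqc : qC N * qC p = qC p * qC N := by rw [← qC_mul, ← qC_mul, hcomm]
  have hqh : qC ((1 / 2 : ℚ) • p) = (1 / 2 : ℂ) • qC p := by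
    ext a b
    simp [qC]
  have hsp : ∀ c : ℂ, cexpM c ν = cexpM c N * ((1 - qC p) + Complex.exp (c / 2) • qC p) := by
    intro c
    have h1 : N * ((1 / 2 : ℚ) • p) = ((1 / 2 : ℚ) • p) * N := by
      rw [Matrix.mul_smul, Matrix.smul_mul, hcomm]
    conv_lhs => rw [hs]
    rw [cexpM_add_matrix c h1]
    congr 1
    rw [← exp_idem (c / 2) hqp]
    unfold cexpM
    rw [hqh, smul_smul]
    congr 2
    ring
  have hpi : (Real.pi : ℂ) ≠ 0 := by exact_mod_cast Real.pi_ne_zero
  -- even `n`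
  have hev : ∀ k, ψ ((qC N) ^ k) = 0 := by
    apply lin_nilp N hN ψ (fun j => -(2 * Real.pi * Complex.I * ((2 * j : ℕ) : ℂ)))
    · intro i j hij
      have h3 : (2 * Real.pi * Complex.I : ℂ) ≠ 0 := by
        simp [hpi, Complex.I_ne_zero]
      have h4 := neg_injective hij
      have h5 := mul_left_cancel₀ h3 h4
      have h6 : 2 * i = 2 * j := by exact_mod_cast h5
      omega
    · intro j
      have h3 := h (2 * j)
      rw [hsp] at h3
      have h4 : Complex.exp (-(2 * Real.pi * Complex.I * ((2 * j : ℕ) : ℂ)) / 2) = 1 := by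
        rw [Complex.exp_eq_one_iff]
        refine ⟨-(j : ℤ), ?_⟩
        push_cast
        ring
      rw [h4, one_smul, sub_add_cancel, mul_one] at h3
      exact h3
  -- odd `n`
  let ψ' : Matrix (Fin R) (Fin R) ℂ →ₗ[ℂ] ℂ :=
    ψ.comp (LinearMap.mulRight ℂ (1 - (2 : ℂ) • qC p))
  have hψ' : ∀ X, ψ' X = ψ (X * (1 - (2 : ℂ) • qC p)) := fun X => rfl
  have hod : ∀ k, ψ' ((qC N) ^ k) = 0 := by
    apply lin_nilp N hN ψ' (fun j => -(2 * Real.pi * Complex.I * ((2 * j + 1 : ℕ) : ℂ)))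
    · intro i j hij
      have h3 : (2 * Real.pi * Complex.I : ℂ) ≠ 0 := by
        simp [hpi, Complex.I_ne_zero]
      have h4 := neg_injective hij
      have h5 := mul_left_cancel₀ h3 h4
      have h6 : 2 * i + 1 = 2 * j + 1 := by exact_mod_cast h5
      omega
    · intro j
      have h3 := h (2 * j + 1)
      rw [hsp] at h3
      have h4 : Complex.exp (-(2 * Real.pi * Complex.I * ((2 * j + 1 : ℕ) : ℂ)) / 2) = -1 := by
        have h5 : -(2 * Real.pi * Complex.I * ((2 * j + 1 : ℕ) : ℂ)) / 2 =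
            ((-(j : ℤ) - 1 : ℤ) : ℂ) * (2 * Real.pi * Complex.I) + Real.pi * Complex.I := by
          push_cast
          ring
        rw [h5, Complex.exp_add, Complex.exp_pi_mul_I, Complex.exp_int_mul_two_pi_mul_I]
        ring
      rw [h4] at h3
      rw [hψ']
      have h6 : (1 - qC p) + (-1 : ℂ) • qC p = 1 - (2 : ℂ) • qC p := by
        rw [neg_one_smul, two_smul]
        abel
      rw [h6] at h3
      exact h3
  have hNp : ∀ k, ψ ((qC N) ^ k * qC p) = 0 := by
    intro k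
    have h1 := hod k
    rw [hψ', mul_sub, mul_one, map_sub, hev k, zero_sub, neg_eq_zero, mul_smul_comm, map_smul,
      smul_eq_mul] at h1
    exact (mul_eq_zero.mp h1).resolve_left two_ne_zero
  -- conclusion
  have hνC : qC ν = qC N + (1 / 2 : ℂ) • qC p := by
    conv_lhs => rw [hs]
    rw [qC_add, hqh]
  have hfin : ∀ k i : ℕ, ψ ((qC N) ^ i * (qC ν) ^ k) = 0 ∧
      ψ ((qC N) ^ i * (qC ν) ^ k * qC p) = 0 := by
    intro k
    have hcν : qC ν * qC p = qC p * qC ν := by
      rw [hνC, add_mul, mul_add, hqc, smul_mul_assoc, mul_smul_comm]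
    have hcN : qC ν * qC N = qC N * qC ν := by
      rw [hνC, add_mul, mul_add, smul_mul_assoc, mul_smul_comm, hqc]
    induction k with
    | zero =>
      intro i
      rw [pow_zero, mul_one]
      exact ⟨hev i, hNp i⟩
    | succ k ih =>
      intro i
      have e1 : (qC N) ^ i * (qC ν) ^ (k + 1) =
          (qC N) ^ (i + 1) * (qC ν) ^ k + (1 / 2 : ℂ) • ((qC N) ^ i * (qC ν) ^ k * qC p) := by
        have c1 : (qC ν) ^ k * qC N = qC N * (qC ν) ^ k :=
          ((Commute.pow_left (show Commute (qC ν) (qC N) from hcN)) k).eq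
        rw [pow_succ (qC ν) k, pow_succ (qC N) i]
        nth_rewrite 2 [hνC]
        rw [mul_add, mul_add, c1, mul_smul_comm, mul_smul_comm, ← mul_assoc, ← mul_assoc]
      constructor
      · rw [e1, map_add, map_smul, (ih (i + 1)).1, (ih i).2, smul_zero, add_zero]
      · rw [e1, add_mul, map_add, smul_mul_assoc, map_smul, mul_assoc (_ * _) (qC p) (qC p), hqp,
          (ih (i + 1)).2, (ih i).2, smul_zero, add_zero]
  have := (hfin k 0).1
  rwa [pow_zero, one_mul] at this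

end Strip

theorem strip_indep {R : ℕ} {ν : Matrix (Fin R) (Fin R) ℚ} (hν : Half ν) {ρ₀ ρ' : ℝ}
    (h0 : 0 < ρ₀) (h1 : ρ₀ < ρ') (φ : ℂ → Fin R → ℂ)
    (hφ : ∀ a, AnalyticOnNhd ℂ (fun u => φ u a) {u : ℂ | ρ₀ < ‖u‖ ∧ ‖u‖ < ρ'}) (e : Fin R → ℂ)
    (w₁ : ℂ) (hw : ρ₀ < ‖Complex.exp w₁‖) (hw' : ‖Complex.exp w₁‖ < ρ')
    (h : ∀ᶠ w in 𝓝 w₁, ∑ a, φ (Complex.exp w) a * (cexpM (-w) ν).mulVec e a = 0) :
    ∀ u : ℂ, ρ₀ < ‖u‖ → ‖u‖ < ρ' → ∀ k : ℕ, ∑ a, φ u a * (qC (ν ^ k)).mulVec e a = 0 := by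
  have hρ' : 0 < ρ' := h0.trans h1
  set S : Set ℂ := {w : ℂ | Real.log ρ₀ < w.re ∧ w.re < Real.log ρ'} with hS
  have hSmem : ∀ w : ℂ, w ∈ S ↔ (ρ₀ < ‖Complex.exp w‖ ∧ ‖Complex.exp w‖ < ρ') := by
    intro w
    rw [hS, Set.mem_ofPred_eq, Complex.norm_exp, Real.log_lt_iff_lt_exp h0,
      Real.lt_log_iff_exp_lt hρ']
  have hconv : Convex ℝ S := by
    have e1 : S = Complex.reLm ⁻¹' (Set.Ioo (Real.log ρ₀) (Real.log ρ')) := by
      ext w; simp [hS]
    rw [e1]
    exact (convex_Ioo _ _).linear_preimage _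
  have hexp : AnalyticOnNhd ℂ Complex.exp S := fun w _ => analyticAt_cexp
  have hneg : AnalyticOnNhd ℂ (fun w : ℂ => -w) S := fun w _ => analyticAt_id.neg
  have hF : AnalyticOnNhd ℂ (fun w => ∑ a, φ (Complex.exp w) a * (cexpM (-w) ν).mulVec e a) S := by
    apply Finset.analyticOnNhd_fun_sum
    intro a _
    apply AnalyticOnNhd.mul
    · exact (hφ a).comp hexp (fun w hw => (hSmem w).mp hw)
    · have e1 : (fun w : ℂ => (cexpM (-w) ν).mulVec e a) =
          fun w : ℂ => ∑ b, cexpM (-w) ν a b * e b := by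
        funext w; rfl
      rw [e1]
      apply Finset.analyticOnNhd_fun_sum
      intro b _
      apply AnalyticOnNhd.mul
      · exact (cexpM_analytic ν a b).comp hneg (fun w _ => Set.mem_univ _)
      · exact analyticOnNhd_const
  have hzero := hF.eqOn_zero_of_preconnected_of_eventuallyEq_zero hconv.isPreconnected
    ((hSmem w₁).mpr ⟨hw, hw'⟩) h
  intro u hu hu' k
  have hu0 : u ≠ 0 := by
    rintro rfl
    rw [norm_zero] at hu
    linarith
  set w := Complex.log u with hwdef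
  have hexpw : Complex.exp w = u := Complex.exp_log hu0
  set E := (cexpM (-w) ν).mulVec e with hE
  -- the functional
  have hmain : ∀ n : ℕ, Strip.func (φ u) E (cexpM (-(2 * Real.pi * Complex.I * n)) ν) = 0 := by
    intro n
    have e1 : Complex.exp (w + 2 * Real.pi * Complex.I * n) = u := by
      rw [Complex.exp_add, hexpw]
      have : (2 * Real.pi * Complex.I * n : ℂ) = ((n : ℤ) : ℂ) * (2 * Real.pi * Complex.I) := by
        push_cast; ring
      rw [this, Complex.exp_int_mul_two_pi_mul_I, mul_one]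
    have e2 : (w + 2 * Real.pi * Complex.I * n) ∈ S := by
      rw [hSmem, e1]
      exact ⟨hu, hu'⟩
    have e3 := hzero e2
    simp only [Pi.zero_apply] at e3
    rw [e1] at e3
    rw [Strip.func_apply, hE, ← e3]
    apply Finset.sum_congr rfl
    intro a _
    rw [Matrix.mulVec_mulVec, ← cexpM_add]
    congr 4
    ring
  have hk : ∀ k, Strip.func (φ u) E ((qC ν) ^ k) = 0 := fun k => Strip.key hν _ hmain k
  -- go back to `e`
  have hback : e = (cexpM w ν).mulVec E := by
    rw [hE, Matrix.mulVec_mulVec]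
    have := cexpM_neg (-w) ν
    rw [neg_neg] at this
    rw [this, Matrix.one_mulVec]
  obtain ⟨n, c, hc⟩ := cexpM_poly w ν
  have : ∑ a, φ u a * (qC (ν ^ k)).mulVec e a = Strip.func (φ u) E (qC ν ^ k * cexpM w ν) := by
    rw [← Strip.func_mulVec, ← hback, Strip.func_apply, qC_pow]
  rw [this, hc, Finset.mul_sum, map_sum]
  apply Finset.sum_eq_zero
  intro j _
  rw [mul_smul_comm, map_smul, qC_pow, ← pow_add, hk, smul_zero]

end Pool.Agent.Helper79.GC
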