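import Pool.Agent.Helper79.GC.RS
import Pool.Agent.Helper37.GP.ZeroEst

/-!
# GC-12: the zero estimate at a regular singular point

`K = LaurentSeries ℚ`, `e_a = ps (Ψ a i₀)`, `g = (emb T)⁻¹ • eM B`, `IsFund T B Ψ ν` (`Ψ' = g Ψ + x Ψ ν`),
`Ψ(0) = 1`, `ν` nilpotent with zero column `i₀` (so `e' = g e`). Let `row_j = row T B P j`.

1. `w_j := row_j ᵥ* pM Ψ ∈ K^R` satisfies `(j+1) w_{j+1} = T (w_j' - x w_j ν) - j T' w_j` (`row_succ`). Hence the
   `K`-span `V` of all `w_j` is stable under `w ↦ w' - x w ν` (matrix `-νᵀ`, nilpotent), and if `w_m` is in the span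
   of `w_0, …, w_{m-1}` then this span is stable and contains all `w_j`; so `w_0, …, w_{l-1}` is a basis of `V`, `l = dim V`.
2. `rs_span` (`χ = X^m`, `coprime_shift_nil`): `V` has a basis of constant vectors `c_1, …, c_l ∈ ℚ^R`. Let `C0 ⊆ ℚ^R` be the
   orthogonal of `c_1, …, c_l`, `dim C0 = R - l =: h`, basis `u_1, …, u_h`.
3. Suppose `l < R`. Let `U = pM Ψ · [u_1, …, u_h]` (`R × h`). `row_j · U = 0` for all `j`. `U(0) = [u_1, …, u_h]` has rank
   `h`: choose a set `J'` of `h` rows with `det U_{J'}(0) ≠ 0`, `J` = complement. So `U_{J'}` is invertible over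
   power series.
4. `Δ_J := det (row_{j,a})_{j<l, a∈J} ≠ 0`: otherwise a nontrivial `K`-combination `ρ` of the rows `row_j`, `j < l`
   (independent, as `Ψ` is invertible), has `ρ_J = 0`; `ρ U = 0` gives `ρ_{J'} U_{J'} = 0`, `ρ = 0`.
5. `i₀`-th unit vector `e₀ ∉ C0`: otherwise `0 = w_0 · e₀ = row_0 · Ψ e₀ = ∑ P_a e_a`, so `P = 0` by independence.
   Let `t = U_{J'}⁻¹ e_{J'}` (power series), `ê = e - U t`: `ê_{J'} = 0`, `row_j · ê = row_j · e`, and
   `ê(0) = e₀ - ∑ t_i(0) u_i ≠ 0`, so `ê_a(0) ≠ 0` for some `a ∈ J`.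
6. Cramer: `Δ_J ê_a = ∑_{j<l} adj_{a j} (row_j · e)` has order `≥ -(l-1)(D + τ R) + ord(∑ P e) - τ R`
   (`natDegree_row`, `row_sol`, cf. `order_bound` in `GP/ZeroEst.lean`), and `le_of_ordGE_emb_mul` gives
   `… ≤ - natDegree Δ_J ≤ 0`. As `l ≤ R - 1` this contradicts `OrdGE ((R-2) D + C₁)` for
   `C₁ = τ R² + τ R + 1`. (`l ≥ 1` since `w_0 ≠ 0`.)
7. So `l = R`: the rows `0, …, R-1` are independent over `K`, the determinant is nonzero (`emb` injective).
-/

open Polynomial

namespace Pool.Agent.Helper79.GC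

open Pool.Agent.Helper37.GP

theorem isSol_of_fund {ι : Type} [Fintype ι] {T : ℚ[X]} {B : Matrix ι ι ℚ[X]}
    {Ψ : Matrix ι ι (PowerSeries ℚ)} {ν : Matrix ι ι ℚ} {i₀ : ι} (h : IsFund T B Ψ ν)
    (hν : ∀ a, ν a i₀ = 0) : IsSol T B (fun a => ps (Ψ a i₀)) := by
  intro a
  have h1 := congrFun (congrFun h a) i₀
  rw [Matrix.smul_apply, Matrix.add_apply, Matrix.smul_apply, Matrix.mul_apply, Matrix.mul_apply]
    at h1
  have h2 : ∑ c, pM Ψ a c * cM ν c i₀ = 0 := by
    refine Finset.sum_eq_zero fun c _ => ?_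
    rw [cM_apply, hν, map_zero, mul_zero]
  rw [h2, smul_zero, add_zero] at h1
  exact h1

section ZE2

variable {R : ℕ} {T : ℚ[X]} {B : Matrix (Fin R) (Fin R) ℚ[X]}
  {Ψ : Matrix (Fin R) (Fin R) (PowerSeries ℚ)} {ν : Matrix (Fin R) (Fin R) ℚ} {P : Fin R → ℚ[X]}

/-- the vectors `w_j = row_j Ψ` -/
private noncomputable def zww (T : ℚ[X]) (B : Matrix (Fin R) (Fin R) ℚ[X])
    (Ψ : Matrix (Fin R) (Fin R) (PowerSeries ℚ)) (P : Fin R → ℚ[X]) (j : ℕ) :
    Fin R → LaurentSeries ℚ :=
  fun a => ∑ b, emb (row T B P j b) * ps (Ψ b a)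

private lemma zww_succ (hF : IsFund T B Ψ ν) (j : ℕ) (a : Fin R) :
    ((j : LaurentSeries ℚ) + 1) * zww T B Ψ P (j + 1) a =
      emb T * (dd (zww T B Ψ P j a) -
        xx * ∑ c, algebraMap ℚ (LaurentSeries ℚ) (ν c a) * zww T B Ψ P j c)
        - (j : LaurentSeries ℚ) * emb (derivative T) * zww T B Ψ P j a := by
  have hF' : ∀ b c, emb T * dd (ps (Ψ b c)) = ∑ k, emb (B b k) * ps (Ψ k c) +
      emb T * xx * ∑ k, ps (Ψ b k) * algebraMap ℚ (LaurentSeries ℚ) (ν k c) := by
    intro b c
    have h1 := congrFun (congrFun hF b) c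
    rw [Matrix.smul_apply, Matrix.add_apply, Matrix.smul_apply, Matrix.mul_apply, Matrix.mul_apply]
      at h1
    exact h1
  have h1 : ∀ b, ((j : LaurentSeries ℚ) + 1) * (emb (row T B P (j + 1) b) * ps (Ψ b a)) =
      (emb T * emb (derivative (row T B P j b)) - (j : LaurentSeries ℚ) * emb (derivative T) *
        emb (row T B P j b) + ∑ c, emb (row T B P j c) * emb (B c b)) * ps (Ψ b a) := by
    intro b
    have h2 := congrArg emb (RowsAux.row_succ T B P j b)
    simp only [map_mul, map_add, map_sub, map_sum, map_natCast, map_one] at h2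
    rw [← mul_assoc, h2]
  have h3 : ((j : LaurentSeries ℚ) + 1) * zww T B Ψ P (j + 1) a =
      ∑ b, emb T * emb (derivative (row T B P j b)) * ps (Ψ b a) -
        (j : LaurentSeries ℚ) * emb (derivative T) * zww T B Ψ P j a +
        ∑ b, (∑ c, emb (row T B P j c) * emb (B c b)) * ps (Ψ b a) := by
    unfold zww
    rw [Finset.mul_sum, Finset.mul_sum, ← Finset.sum_sub_distrib, ← Finset.sum_add_distrib]
    refine Finset.sum_congr rfl fun b _ => ?_
    rw [h1 b]
    ring
  have h4 : emb T * dd (zww T B Ψ P j a) =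
      ∑ b, emb T * emb (derivative (row T B P j b)) * ps (Ψ b a) +
      (∑ b, (∑ c, emb (row T B P j c) * emb (B c b)) * ps (Ψ b a) +
      emb T * xx * ∑ b, emb (row T B P j b) *
        ∑ k, ps (Ψ b k) * algebraMap ℚ (LaurentSeries ℚ) (ν k a)) := by
    have h5 : ∑ b, (∑ c, emb (row T B P j c) * emb (B c b)) * ps (Ψ b a) =
        ∑ c, emb (row T B P j c) * ∑ b, emb (B c b) * ps (Ψ b a) := by
      simp only [Finset.sum_mul, Finset.mul_sum]
      rw [Finset.sum_comm]
      exact Finset.sum_congr rfl fun c _ => Finset.sum_congr rfl fun b _ => by ring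
    rw [h5, Finset.mul_sum (s := Finset.univ)
      (f := fun b => emb (row T B P j b) * ∑ k, ps (Ψ b k) * algebraMap ℚ (LaurentSeries ℚ) (ν k a)),
      ← Finset.sum_add_distrib, ← Finset.sum_add_distrib]
    unfold zww
    rw [dd_sum, Finset.mul_sum]
    refine Finset.sum_congr rfl fun b _ => ?_
    rw [dd_mul, dd_emb]
    linear_combination emb (row T B P j b) * hF' b a
  have h6 : ∑ b, emb (row T B P j b) *
        ∑ k, ps (Ψ b k) * algebraMap ℚ (LaurentSeries ℚ) (ν k a) =
      ∑ c, algebraMap ℚ (LaurentSeries ℚ) (ν c a) * zww T B Ψ P j c := by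
    unfold zww
    simp only [Finset.mul_sum]
    rw [Finset.sum_comm]
    exact Finset.sum_congr rfl fun c _ => Finset.sum_congr rfl fun b _ => by ring
  rw [h6] at h4
  rw [h3]
  linear_combination -h4

/-- the span of the first vectors -/
private noncomputable def zV (T : ℚ[X]) (B : Matrix (Fin R) (Fin R) ℚ[X])
    (Ψ : Matrix (Fin R) (Fin R) (PowerSeries ℚ)) (P : Fin R → ℚ[X]) (m : ℕ) :
    Submodule (LaurentSeries ℚ) (Fin R → LaurentSeries ℚ) :=
  Submodule.span (LaurentSeries ℚ) (Set.range fun i : Fin m => zww T B Ψ P i)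

private lemma mem_zV {m i : ℕ} (h : i < m) : zww T B Ψ P i ∈ zV T B Ψ P m :=
  Submodule.subset_span ⟨⟨i, h⟩, rfl⟩

private lemma zV_stable (hT0 : emb T ≠ 0) (hF : IsFund T B Ψ ν) {m : ℕ}
    (hm : zww T B Ψ P m ∈ zV T B Ψ P m) (y : Fin R → LaurentSeries ℚ) (hy : y ∈ zV T B Ψ P m) :
    (fun a => dd (y a) + xx * ∑ b, algebraMap ℚ (LaurentSeries ℚ) ((-ν.transpose) a b) * y b) ∈
      zV T B Ψ P m := by
  have hall : ∀ i, i ≤ m → zww T B Ψ P i ∈ zV T B Ψ P m := by
    intro i hi
    rcases hi.lt_or_eq with h | rfl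
    · exact mem_zV h
    · exact hm
  have key : ∀ y : Fin R → LaurentSeries ℚ, (fun a => dd (y a) + xx * ∑ b, algebraMap ℚ
      (LaurentSeries ℚ) ((-ν.transpose) a b) * y b) =
      fun a => dd (y a) - xx * ∑ c, algebraMap ℚ (LaurentSeries ℚ) (ν c a) * y c := by
    intro y
    funext a
    simp only [Matrix.neg_apply, Matrix.transpose_apply, map_neg, neg_mul, Finset.sum_neg_distrib,
      mul_neg]
    ring
  rw [key]
  unfold zV at hy
  induction hy using Submodule.span_induction with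
  | mem y hy =>
    obtain ⟨⟨i, hi⟩, rfl⟩ := hy
    have h1 : (fun a => dd (zww T B Ψ P i a) - xx * ∑ c, algebraMap ℚ (LaurentSeries ℚ) (ν c a) *
        zww T B Ψ P i c) = (emb T)⁻¹ • (((i : LaurentSeries ℚ) + 1) • zww T B Ψ P (i + 1) +
          ((i : LaurentSeries ℚ) * emb (derivative T)) • zww T B Ψ P i) := by
      funext a
      have h2 := zww_succ (P := P) hF i a
      simp only [Pi.smul_apply, Pi.add_apply, smul_eq_mul]
      rw [eq_inv_mul_iff_mul_eq₀ hT0]
      linear_combination -h2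
    show (fun a => dd (zww T B Ψ P i a) - xx * ∑ c, algebraMap ℚ (LaurentSeries ℚ) (ν c a) *
        zww T B Ψ P i c) ∈ _
    rw [h1]
    exact Submodule.smul_mem _ _ (Submodule.add_mem _ (Submodule.smul_mem _ _ (hall _ (by omega)))
      (Submodule.smul_mem _ _ (hall _ (by omega))))
  | zero =>
    have h1 : (fun a => dd ((0 : Fin R → LaurentSeries ℚ) a) - xx * ∑ c, algebraMap ℚ
        (LaurentSeries ℚ) (ν c a) * (0 : Fin R → LaurentSeries ℚ) c) = 0 := by
      funext a
      simp [dd_zero]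
    rw [h1]
    exact Submodule.zero_mem _
  | add x y _ _ hx hy =>
    have h1 := Submodule.add_mem _ hx hy
    convert h1 using 1
    funext a
    simp only [Pi.add_apply, dd_add, mul_add, Finset.sum_add_distrib]
    ring
  | smul f y hy' hy =>
    have h1 := Submodule.add_mem _ (Submodule.smul_mem _ (dd f) hy') (Submodule.smul_mem _ f hy)
    unfold zV
    convert h1 using 1
    funext a
    simp only [Pi.add_apply, Pi.smul_apply, smul_eq_mul, dd_mul]
    have h2 : ∑ c, algebraMap ℚ (LaurentSeries ℚ) (ν c a) * (f * y c) =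
        f * ∑ c, algebraMap ℚ (LaurentSeries ℚ) (ν c a) * y c := by
      rw [Finset.mul_sum]
      exact Finset.sum_congr rfl fun c _ => by ring
    rw [h2]
    ring

private lemma zli (m : ℕ) (h : ∀ i < m, zww T B Ψ P i ∉ zV T B Ψ P i) :
    LinearIndependent (LaurentSeries ℚ) (fun i : Fin m => zww T B Ψ P i) := by
  induction m with
  | zero => exact linearIndependent_empty_type
  | succ m ih =>
    rw [linearIndependent_finSucc']
    exact ⟨ih fun i hi => h i (by omega), h m (by omega)⟩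

/-- the first dependent vector -/
private lemma exists_zl : ∃ l ≤ R, zww T B Ψ P l ∈ zV T B Ψ P l ∧
    LinearIndependent (LaurentSeries ℚ) (fun i : Fin l => zww T B Ψ P i) := by
  classical
  by_cases hex : ∃ m, zww T B Ψ P m ∈ zV T B Ψ P m
  · have h1 := zli (T := T) (B := B) (Ψ := Ψ) (P := P) (Nat.find hex)
      (fun i hi => Nat.find_min hex hi)
    refine ⟨Nat.find hex, ?_, Nat.find_spec hex, h1⟩
    have h2 := h1.fintype_card_le_finrank
    simpa using h2
  · exfalso
    push Not at hex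
    have h1 := zli (T := T) (B := B) (Ψ := Ψ) (P := P) (R + 1) (fun i _ => hex i)
    have h2 := h1.fintype_card_le_finrank
    simp at h2

end ZE2

/-- a nonsingular square submatrix of a matrix with independent rows -/
private lemma exists_cols {l R : ℕ} (c : Fin l → Fin R → ℚ) (hc : LinearIndependent ℚ c) :
    ∃ J : Fin l → Fin R, (Matrix.of fun i k => c i (J k)).det ≠ 0 := by
  classical
  set M : Matrix (Fin l) (Fin R) ℚ := Matrix.of c with hM
  have h1 : M.rank = l := by
    have := LinearIndependent.rank_matrix (M := M) hc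
    simpa using this
  have h2 : Submodule.span ℚ (Set.range M.col) = ⊤ := by
    apply Submodule.eq_top_of_finrank_eq
    rw [← Matrix.rank_eq_finrank_span_cols, h1]
    simp
  obtain ⟨κ, a, ha, hspan, hli⟩ := exists_linearIndependent' ℚ M.col
  rw [h2] at hspan
  let b : Module.Basis κ ℚ (Fin l → ℚ) := Module.Basis.mk hli (by rw [hspan])
  let b0 : Module.Basis (Fin l) ℚ (Fin l → ℚ) := Pi.basisFun ℚ (Fin l)
  let e : Fin l ≃ κ := b0.indexEquiv b
  refine ⟨fun k => a (e k), ?_⟩
  have h3 : LinearIndependent ℚ (fun k : Fin l => M.col (a (e k))) := hli.comp e e.injective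
  have h4 : IsUnit (Matrix.of fun i k => c i (a (e k))) := by
    rw [← Matrix.linearIndependent_cols_iff_isUnit]
    exact h3
  rw [Matrix.isUnit_iff_isUnit_det] at h4
  exact h4.ne_zero

private lemma emb_det {l : ℕ} (r : Matrix (Fin l) (Fin l) ℚ[X]) :
    emb r.det = (Matrix.of fun i k => emb (r i k)).det := by
  rw [RingHom.map_det]
  rfl

private lemma order_bound2 {R τ l : ℕ} {T : ℚ[X]} {B : Matrix (Fin R) (Fin R) ℚ[X]}
    {e : Fin R → LaurentSeries ℚ} (hTτ : T.natDegree ≤ τ)
    (hB : ∀ a b, (B a b).natDegree ≤ τ) (he : IsSol T B e) {D : ℕ} {P : Fin R → ℚ[X]}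
    (hP : ∀ a, (P a).natDegree ≤ D) {N : ℤ} (hN : OrdGE N (∑ a, emb (P a) * e a))
    (J : Fin l → Fin R) (E : Fin l → LaurentSeries ℚ) (hE0 : ∀ k, OrdGE 0 (E k))
    (hE : ∀ j : Fin l, ∑ m, emb (row T B P j (J m)) * E m = ∑ a, emb (row T B P j a) * e a)
    (hdet : Matrix.det (Matrix.of fun (j k : Fin l) => row T B P (j : ℕ) (J k)) ≠ 0)
    {i₁ : Fin l} (hEc : (E i₁).coeff 0 ≠ 0) :
    N - τ * l - ((l - 1 : ℕ) : ℤ) * (D + τ * l) ≤ 0 := by
  set r : Matrix (Fin l) (Fin l) ℚ[X] :=
    Matrix.of fun (j k : Fin l) => row T B P (j : ℕ) (J k) with hr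
  -- orders of the linear forms
  have hL : ∀ j : Fin l, OrdGE (N - τ * l) (∑ m, emb (r j m) * E m) := by
    intro j
    have h1 : ∑ m, emb (r j m) * E m = ∑ a, emb (row T B P j a) * e a := hE j
    have h2 := row_sol he P j
    have h3 : ∑ a, emb (row T B P j a) * e a =
        algebraMap ℚ (LaurentSeries ℚ) (((j : ℕ).factorial : ℚ)⁻¹) *
          (emb T ^ (j : ℕ) * dd^[(j : ℕ)] (∑ a, emb (P a) * e a)) := by
      rw [← h2, ← mul_assoc]
      have h4 : ((j : ℕ).factorial : LaurentSeries ℚ) =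
          algebraMap ℚ (LaurentSeries ℚ) ((j : ℕ).factorial : ℚ) := by
        rw [map_natCast]
      rw [h4, ← map_mul, inv_mul_cancel₀ (by exact_mod_cast (Nat.factorial_ne_zero _)), map_one,
        one_mul]
    rw [h1, h3]
    refine ZE.ordGE_const_mul _ ?_
    rw [← map_pow]
    have h5 : OrdGE (-((τ * j : ℕ) : ℤ)) (emb (T ^ (j : ℕ))) := by
      refine ordGE_emb ?_
      rw [natDegree_pow, mul_comm]
      exact Nat.mul_le_mul_right _ hTτ
    have h6 := ordGE_mul h5 (ZE.ordGE_dd_iter hN j)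
    refine ordGE_mono ?_ h6
    have hj : (j : ℕ) ≤ l := j.2.le
    have hτj : τ * (j : ℕ) ≤ τ * l := Nat.mul_le_mul_left _ hj
    have hτj' : ((τ * (j : ℕ) : ℕ) : ℤ) ≤ τ * l := by exact_mod_cast hτj
    omega
  -- Cramer
  have hC : emb r.det * E i₁ = ∑ j, emb (r.adjugate i₁ j) * ∑ m, emb (r j m) * E m := by
    have h1 : ∀ m, ∑ j, r.adjugate i₁ j * r j m = if i₁ = m then r.det else 0 := by
      intro m
      have h2 := congrFun (congrFun (Matrix.adjugate_mul r) i₁) m
      rw [Matrix.mul_apply] at h2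
      rw [h2, Matrix.smul_apply, Matrix.one_apply, smul_eq_mul]
      split_ifs <;> simp
    simp only [Finset.mul_sum]
    rw [Finset.sum_comm]
    have h3 : ∀ m, ∑ j, emb (r.adjugate i₁ j) * (emb (r j m) * E m) =
        emb (if i₁ = m then r.det else 0) * E m := by
      intro m
      rw [← h1 m, map_sum, Finset.sum_mul]
      exact Finset.sum_congr rfl fun j _ => by rw [map_mul, mul_assoc]
    rw [Finset.sum_congr rfl fun m _ => h3 m, Finset.sum_eq_single i₁]
    · rw [if_pos rfl]
    · intro m _ hm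
      rw [if_neg (Ne.symm hm), map_zero, zero_mul]
    · intro h; exact absurd (Finset.mem_univ _) h
  have hdeg : ∀ j i : Fin l, (r j i).natDegree ≤ D + τ * l := by
    intro j i
    simp only [hr, Matrix.of_apply]
    refine (natDegree_row hTτ hB hP j _).trans ?_
    have : τ * (j : ℕ) ≤ τ * l := Nat.mul_le_mul_left _ j.2.le
    omega
  have hord : OrdGE (N - τ * l - ((l - 1 : ℕ) : ℤ) * (D + τ * l)) (emb r.det * E i₁) := by
    rw [hC]
    refine ordGE_sum _ _ fun j _ => ?_
    have h1 := ordGE_mul (ordGE_emb (ZE.natDegree_adjugate_le r (D + τ * l) hdeg i₁ j)) (hL j)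
    refine ordGE_mono (le_of_eq ?_) h1
    push_cast
    ring
  have h2 := le_of_ordGE_emb_mul hdet (hE0 i₁) hEc hord
  have h3 : -((r.det.natDegree : ℕ) : ℤ) ≤ 0 := by simp
  exact h2.trans h3

theorem zero_estimate2 (R τ : ℕ) : ∃ C₁ : ℕ, ∀ (T : ℚ[X]) (B : Matrix (Fin R) (Fin R) ℚ[X])
    (Ψ : Matrix (Fin R) (Fin R) (PowerSeries ℚ)) (ν : Matrix (Fin R) (Fin R) ℚ) (i₀ : Fin R),
    T ≠ 0 → T.natDegree ≤ τ → (∀ a b, (B a b).natDegree ≤ τ) → IsFund T B Ψ ν → coP 0 Ψ = 1 →
    IsNilpotent ν → (∀ a, ν a i₀ = 0) →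
    (∀ P : Fin R → ℚ[X], ∑ a, emb (P a) * ps (Ψ a i₀) = 0 → P = 0) →
    ∀ (D : ℕ) (P : Fin R → ℚ[X]), P ≠ 0 → (∀ a, (P a).natDegree ≤ D) →
    OrdGE (((R : ℤ) - 2) * D + C₁) (∑ a, emb (P a) * ps (Ψ a i₀)) →
    Matrix.det (Matrix.of fun (j a : Fin R) => row T B P (j : ℕ) a) ≠ 0 := by
  classical
  refine ⟨τ * R * R + 1, ?_⟩
  intro T B Ψ ν i₀ hT hTτ hB hF hΨ0 hνn hν hlin D P hP0 hP hord
  have hT0 : emb T ≠ 0 := by
    intro h
    exact hT (emb_injective (by rw [h, map_zero]))
  -- the inverse of `Ψ`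
  have hcoe : ∀ {l : ℕ} (M : Matrix (Fin l) (Fin l) (PowerSeries ℚ)),
      PowerSeries.constantCoeff M.det = (coP 0 M).det := by
    intro l M
    rw [RingHom.map_det]
    congr 1
    ext1 a b
    rw [coP_apply, PowerSeries.coeff_zero_eq_constantCoeff_apply]
    rfl
  have hunit : ∀ {l : ℕ} (M : Matrix (Fin l) (Fin l) (PowerSeries ℚ)), (coP 0 M).det ≠ 0 →
      IsUnit M.det := by
    intro l M h
    rw [PowerSeries.isUnit_iff_constantCoeff, hcoe]
    exact isUnit_iff_ne_zero.2 h
  have hΨu : IsUnit Ψ.det := hunit Ψ (by rw [hΨ0]; simp)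
  set A : Matrix (Fin R) (Fin R) (PowerSeries ℚ) := Ψ⁻¹ with hA
  have hΨA : Ψ * A = 1 := Matrix.mul_nonsing_inv _ hΨu
  have hAΨ : A * Ψ = 1 := Matrix.nonsing_inv_mul _ hΨu
  have hcoPmul : ∀ {k l m : ℕ} (M : Matrix (Fin k) (Fin l) (PowerSeries ℚ))
      (N : Matrix (Fin l) (Fin m) (PowerSeries ℚ)), coP 0 (M * N) = coP 0 M * coP 0 N := by
    intro k l m M N
    ext1 a b
    rw [coP_apply, Matrix.mul_apply, Matrix.mul_apply, map_sum]
    refine Finset.sum_congr rfl fun c _ => ?_
    rw [coP_apply, coP_apply, PowerSeries.coeff_zero_eq_constantCoeff_apply,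
      PowerSeries.coeff_zero_eq_constantCoeff_apply, PowerSeries.coeff_zero_eq_constantCoeff_apply,
      map_mul]
  have hA0 : coP 0 A = 1 := by
    have h1 := hcoPmul Ψ A
    rw [hΨA, hΨ0, one_mul] at h1
    rw [← h1]
    ext1 a b
    rw [coP_apply, Matrix.one_apply, Matrix.one_apply]
    split_ifs <;> simp
  obtain ⟨l, hlR, hmem, hli⟩ := exists_zl (T := T) (B := B) (Ψ := Ψ) (P := P)
  -- constant basis
  obtain ⟨m, hm⟩ := hνn
  obtain ⟨l', c, hcQ, hcK, hVc⟩ := rs_span (-ν.transpose) (X ^ m)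
    (by rw [map_pow, aeval_X, neg_pow, ← Matrix.transpose_pow, hm]; simp)
    (fun n hn => coprime_shift_nil m n hn) (zV T B Ψ P l) (zV_stable hT0 hF hmem)
  have hll : l' = l := by
    have h1 : Module.finrank (LaurentSeries ℚ) (zV T B Ψ P l) = l := by
      have := finrank_span_eq_card hli
      rw [Fintype.card_fin] at this
      exact this
    have h2 : Module.finrank (LaurentSeries ℚ) (zV T B Ψ P l) = l' := by
      rw [hVc]
      have := finrank_span_eq_card hcK
      simpa using this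
    omega
  subst hll
  -- transition matrix
  have hρ : ∀ j : Fin l', ∃ ρ : Fin l' → LaurentSeries ℚ,
      ∑ i, ρ i • (fun a => algebraMap ℚ (LaurentSeries ℚ) (c i a)) = zww T B Ψ P j := by
    intro j
    have h1 : zww T B Ψ P j ∈ zV T B Ψ P l' := mem_zV j.2
    rw [hVc] at h1
    exact (Submodule.mem_span_range_iff_exists_fun _).1 h1
  choose ρ hρ using hρ
  have hρdet : (Matrix.of ρ).det ≠ 0 := by
    intro h0
    obtain ⟨v, hv0, hv⟩ := Matrix.exists_vecMul_eq_zero_iff.2 h0
    apply hv0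
    have h1 : ∑ j, v j • zww T B Ψ P (j : Fin l') = 0 := by
      simp only [← hρ, Finset.smul_sum, smul_smul]
      rw [Finset.sum_comm]
      refine Finset.sum_eq_zero fun i _ => ?_
      rw [← Finset.sum_smul]
      have h2 := congrFun hv i
      simp only [Matrix.vecMul, dotProduct, Matrix.of_apply, Pi.zero_apply] at h2
      rw [h2, zero_smul]
    exact funext (Fintype.linearIndependent_iff.1 hli v h1)
  -- the rows in terms of the constant basis
  set G : Matrix (Fin l') (Fin R) (PowerSeries ℚ) := cP (Matrix.of c) * A with hG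
  have hpsG : pM G = cM (Matrix.of c) * pM A := by
    rw [hG, pM_mul, pM_cP]
  have hrow : ∀ (j : Fin l') (a : Fin R), emb (row T B P j a) = ∑ i, ρ j i * ps (G i a) := by
    intro j a
    have h1 : emb (row T B P j a) = ∑ b, zww T B Ψ P j b * ps (A b a) := by
      have h2 : ∑ b, zww T B Ψ P j b * ps (A b a) =
          ∑ b', emb (row T B P j b') * (pM Ψ * pM A) b' a := by
        unfold zww
        simp only [Finset.sum_mul, Matrix.mul_apply, Finset.mul_sum, pM_apply]
        rw [Finset.sum_comm]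
        exact Finset.sum_congr rfl fun b' _ => Finset.sum_congr rfl fun b _ => by ring
      rw [h2, ← pM_mul, hΨA, pM_one]
      simp [Matrix.one_apply]
    rw [h1, ← hρ j]
    have h3 : ∀ i, ps (G i a) = ∑ b, algebraMap ℚ (LaurentSeries ℚ) (c i b) * ps (A b a) := by
      intro i
      have h4 := congrFun (congrFun hpsG i) a
      rw [Matrix.mul_apply] at h4
      exact h4
    simp only [h3, Finset.sum_apply, Pi.smul_apply, smul_eq_mul, Finset.sum_mul, Finset.mul_sum]
    rw [Finset.sum_comm]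
    exact Finset.sum_congr rfl fun b' _ => Finset.sum_congr rfl fun b _ => by ring
  rcases hlR.lt_or_eq with hlt | heq
  · exfalso
    obtain ⟨J, hJ⟩ := exists_cols c hcQ
    set GJ : Matrix (Fin l') (Fin l') (PowerSeries ℚ) := Matrix.of fun i k => G i (J k) with hGJ
    have hG0 : coP 0 G = Matrix.of c := by
      rw [hG, hcoPmul, hA0, Matrix.mul_one]
      ext1 a b
      rw [coP_apply, cP_apply]
      simp
    have hGJ0 : coP 0 GJ = Matrix.of fun i k => c i (J k) := by
      ext1 i k
      exact congrFun (congrFun hG0 i) (J k)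
    have hGJu : IsUnit GJ.det := hunit GJ (by rw [hGJ0]; exact hJ)
    -- the vector `ê`
    set ê : Fin l' → PowerSeries ℚ := Matrix.mulVec GJ⁻¹ (fun i => PowerSeries.C (c i i₀)) with hê
    have hGê : ∀ i, ∑ k, GJ i k * ê k = PowerSeries.C (c i i₀) := by
      intro i
      have h1 : Matrix.mulVec GJ ê = fun i => PowerSeries.C (c i i₀) := by
        rw [hê, Matrix.mulVec_mulVec, Matrix.mul_nonsing_inv _ hGJu, Matrix.one_mulVec]
      exact congrFun h1 i
    have hGê' : ∀ i, ∑ k, ps (GJ i k) * ps (ê k) = algebraMap ℚ (LaurentSeries ℚ) (c i i₀) := by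
      intro i
      have h1 := congrArg ps (hGê i)
      rw [Pool.Agent.Helper37.GP.Subst12.ps_C] at h1
      rw [← h1]
      unfold ps
      rw [map_sum]
      exact Finset.sum_congr rfl fun k _ => by rw [map_mul]
    have hGe : ∀ i, ∑ a, ps (G i a) * ps (Ψ a i₀) = algebraMap ℚ (LaurentSeries ℚ) (c i i₀) := by
      intro i
      have h1 : (pM G * pM Ψ) i i₀ = algebraMap ℚ (LaurentSeries ℚ) (c i i₀) := by
        rw [hpsG, Matrix.mul_assoc, ← pM_mul, hAΨ, pM_one, Matrix.mul_one]
        rfl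
      rw [← h1, Matrix.mul_apply]
      rfl
    have hsum1 : ∀ j : Fin l', ∑ a, emb (row T B P j a) * ps (Ψ a i₀) =
        ∑ i, ρ j i * algebraMap ℚ (LaurentSeries ℚ) (c i i₀) := by
      intro j
      simp only [hrow, ← hGe, Finset.sum_mul, Finset.mul_sum]
      rw [Finset.sum_comm]
      exact Finset.sum_congr rfl fun b' _ => Finset.sum_congr rfl fun b _ => by ring
    have hsum2 : ∀ j : Fin l', ∑ k, emb (row T B P j (J k)) * ps (ê k) =
        ∑ i, ρ j i * algebraMap ℚ (LaurentSeries ℚ) (c i i₀) := by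
      intro j
      simp only [hrow, ← hGê', Finset.sum_mul, Finset.mul_sum]
      rw [Finset.sum_comm]
      exact Finset.sum_congr rfl fun b' _ => Finset.sum_congr rfl fun b _ => by
        rw [hGJ, Matrix.of_apply]; ring
    have hl0 : 0 < l' := by
      rcases Nat.eq_zero_or_pos l' with h | h
      · exfalso
        subst h
        apply hP0
        apply hlin
        have h1 : zww T B Ψ P 0 = 0 := by
          have h2 := hmem
          unfold zV at h2
          rw [Set.range_eq_empty, Submodule.span_empty, Submodule.mem_bot] at h2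
          exact h2
        exact congrFun h1 i₀
      · exact h
    have hc0 : ∃ i, c i i₀ ≠ 0 := by
      by_contra h
      push Not at h
      apply hP0
      apply hlin
      have h1 := hsum1 ⟨0, hl0⟩
      simp only [h, map_zero, mul_zero, Finset.sum_const_zero] at h1
      exact h1
    obtain ⟨i₁, hi₁⟩ : ∃ i, (ps (ê i)).coeff 0 ≠ 0 := by
      by_contra h
      push Not at h
      obtain ⟨i, hi⟩ := hc0
      apply hi
      have h1 := congrArg (PowerSeries.coeff 0) (hGê i)
      rw [map_sum, PowerSeries.coeff_zero_C] at h1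
      rw [← h1]
      refine Finset.sum_eq_zero fun k _ => ?_
      have h2 := h k
      rw [ps_coeff, if_neg (by omega)] at h2
      simp only [PowerSeries.coeff_zero_eq_constantCoeff, map_mul] at h2 ⊢
      have h3 : PowerSeries.constantCoeff (ê k) = 0 := by
        simpa using h2
      rw [h3, mul_zero]
    have hdetr : Matrix.det (Matrix.of fun (j k : Fin l') => row T B P (j : ℕ) (J k)) ≠ 0 := by
      intro h0
      have h1 := congrArg emb h0
      rw [emb_det, map_zero] at h1
      have h2 : (Matrix.of fun (j k : Fin l') => emb ((Matrix.of fun (j k : Fin l') =>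
          row T B P (j : ℕ) (J k)) j k)) = Matrix.of ρ * pM GJ := by
        ext1 j k
        rw [Matrix.mul_apply]
        exact hrow j (J k)
      rw [h2, Matrix.det_mul] at h1
      rcases mul_eq_zero.1 h1 with h3 | h3
      · exact hρdet h3
      · have h4 : (pM GJ).det = ps GJ.det := by
          unfold ps
          rw [RingHom.map_det]
          rfl
        rw [h4] at h3
        have h5 : GJ.det = 0 := by
          apply Pool.Agent.Helper37.GP.Subst12.ps_injective
          rw [h3]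
          exact (map_zero (HahnSeries.ofPowerSeries ℤ ℚ)).symm
        rw [h5] at hGJu
        exact not_isUnit_zero hGJu
    have h1 := order_bound2 hTτ hB (isSol_of_fund hF hν) hP hord J (fun k => ps (ê k))
      (fun k => ordGE_ps _) (fun j => (hsum2 j).trans (hsum1 j).symm) hdetr hi₁
    have h2 : (((l' - 1 : ℕ) : ℕ) : ℤ) = (l' : ℤ) - 1 := by omega
    rw [h2] at h1
    have h3 : (l' : ℤ) + 1 ≤ R := by exact_mod_cast hlt
    have h4 : (0 : ℤ) ≤ D := by positivity
    have h5 : (0 : ℤ) ≤ τ := by positivity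
    have h6 : (1 : ℤ) ≤ l' := by exact_mod_cast hl0
    push_cast at h1
    have h7 : (τ : ℤ) * (l' * l') ≤ τ * (R * R) :=
      mul_le_mul_of_nonneg_left (mul_self_le_mul_self (by omega) (by omega)) h5
    have h8 : (0 : ℤ) ≤ (R - 1 - l') * D := mul_nonneg (by omega) h4
    nlinarith
  · subst heq
    intro h0
    have h1 := congrArg emb h0
    rw [emb_det, map_zero] at h1
    have h2 : (Matrix.of fun (j k : Fin l') => emb ((Matrix.of fun (j k : Fin l') =>
        row T B P (j : ℕ) k) j k)) = Matrix.of ρ * pM G := by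
      ext1 j k
      rw [Matrix.mul_apply]
      exact hrow j k
    rw [h2, Matrix.det_mul] at h1
    rcases mul_eq_zero.1 h1 with h3 | h3
    · exact hρdet h3
    · have h4 : (pM G).det = (cM (Matrix.of c)).det * (pM A).det := by
        rw [hpsG, Matrix.det_mul]
      rw [h4] at h3
      rcases mul_eq_zero.1 h3 with h5 | h5
      · have h6 : (cM (Matrix.of c)).det = algebraMap ℚ (LaurentSeries ℚ) (Matrix.of c).det := by
          rw [RingHom.map_det]
          rfl
        rw [h6] at h5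
        have h7 : (Matrix.of c).det = 0 :=
          (algebraMap ℚ (LaurentSeries ℚ)).injective (by rw [h5, map_zero])
        have h8 : IsUnit (Matrix.of c) := by
          rw [← Matrix.linearIndependent_rows_iff_isUnit]
          exact hcQ
        rw [Matrix.isUnit_iff_isUnit_det, h7] at h8
        exact not_isUnit_zero h8
      · have h6 : (pM A).det * (pM Ψ).det = 1 := by
          rw [← Matrix.det_mul, ← pM_mul, hAΨ, pM_one, Matrix.det_one]
        rw [h5, zero_mul] at h6
        exact zero_ne_one h6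

end Pool.Agent.Helper79.GC
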